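import Pool.Agent.Lib.MP_ad5d82_an.h24.PDefs
import Pool.Agent.Lib.MP_ad5d82_an.h24.H.H1
import Pool.Agent.Lib.MP_ad5d82_an.h24.H.H5w

set_option autoImplicit false

namespace Pool.MP_ad5d82_an.Wl

open Real Set MeasureTheory Filter Topology
open scoped ContDiff

variable {ι : Type} [Fintype ι] [DecidableEq ι]

private lemma p0_mlt (R : ℝ) : MeasurableSet {x : ℂ | ‖x‖ < R} :=
  (isOpen_lt continuous_norm continuous_const).measurableSet
private lemma p0_mgt (R : ℝ) : MeasurableSet {x : ℂ | R < ‖x‖} :=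
  (isOpen_lt continuous_const continuous_norm).measurableSet
private lemma p0_mle (R : ℝ) : MeasurableSet {x : ℂ | R ≤ ‖x‖} :=
  (isClosed_le continuous_const continuous_norm).measurableSet
private lemma p0_mann (a b : ℝ) : MeasurableSet {x : ℂ | a < ‖x‖ ∧ ‖x‖ < b} :=
  (p0_mgt a).inter (p0_mlt b)
private lemma p0_ball (R : ℝ) : {x : ℂ | ‖x‖ < R} = Metric.ball (0 : ℂ) R := by
  ext x
  simp

private lemma p0_sphere (R : ℝ) : volume {x : ℂ | ‖x‖ = R} = 0 := by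
  have h : {x : ℂ | ‖x‖ = R} = Metric.sphere (0 : ℂ) R := by
    ext x
    simp
  rw [h]
  exact Measure.addHaar_sphere _ _ _

/-! ### P0 basic facts on integrals and forms -/
theorem setIntegral_gt_eq_ge (f : ℂ → ℝ) (R : ℝ) :
    ∫ x in {x : ℂ | R < ‖x‖}, f x = ∫ x in {x : ℂ | R ≤ ‖x‖}, f x := by
  refine setIntegral_congr_set ?_
  have h : ∀ᵐ x : ℂ, ‖x‖ ≠ R := by
    rw [ae_iff]
    simpa using p0_sphere R
  filter_upwards [h] with x hx
  refine propext ⟨fun h1 => ?_, fun h1 => ?_⟩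
  · exact le_of_lt h1
  · exact lt_of_le_of_ne h1 (Ne.symm hx)
theorem integral_split_le {f : ℂ → ℝ} (hf : Integrable f volume) (R : ℝ) :
    ∫ x, f x = (∫ x in {x : ℂ | ‖x‖ < R}, f x) + ∫ x in {x : ℂ | R ≤ ‖x‖}, f x := by
  have h := integral_add_compl (p0_mlt R) hf
  have h2 : {x : ℂ | ‖x‖ < R}ᶜ = {x : ℂ | R ≤ ‖x‖} := by
    ext x
    simp
  rw [h2] at h
  exact h.symm
theorem integral_split {f : ℂ → ℝ} (hf : Integrable f volume) (R : ℝ) :
    ∫ x, f x = (∫ x in {x : ℂ | ‖x‖ < R}, f x) + ∫ x in {x : ℂ | R < ‖x‖}, f x := by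
  rw [setIntegral_gt_eq_ge]
  exact integral_split_le hf R

private lemma p0_wgt_nonneg (ρ r : ℝ) : 0 ≤ wgt ρ r := by
  unfold wgt
  refine le_min zero_le_one ?_
  have : (ρ / r) ^ 4 = ((ρ / r) ^ 2) ^ 2 := by ring
  rw [this]
  positivity

private lemma p0_wgt_meas (ρ : ℝ) : Measurable (fun x : ℂ => wgt ρ ‖x‖) := by
  unfold wgt
  fun_prop

private lemma p0_fst_meas {U : Fld ι} (hU : IsSob U) :
    AEStronglyMeasurable (fun x => (U x).1) volume :=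
  continuous_fst.comp_aestronglyMeasurable hU.1

theorem IsSob.integrable_wgt {U : Fld ι} (hU : IsSob U) {ρ : ℝ} (hρ : 1 ≤ ρ) :
    Integrable (fun x : ℂ => wgt ρ ‖x‖ * ‖(U x).1‖ ^ 2) volume := by
  have h1 : Integrable (fun z => 4 * ρ ^ 4 * nsq z (U z)) volume := hU.integrable.const_mul _
  refine h1.mono' ?_ ?_
  · exact (p0_wgt_meas ρ).aestronglyMeasurable.mul ((p0_fst_meas hU).norm.pow 2)
  · refine Eventually.of_forall fun x => ?_
    have h2 := wgt_le_wt hρ x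
    have h3 := p0_wgt_nonneg ρ ‖x‖
    rw [Real.norm_eq_abs, abs_of_nonneg (by positivity)]
    have h4 : 0 ≤ gsq (U x) := by
      unfold gsq
      positivity
    unfold nsq
    have h5 : wgt ρ ‖x‖ * ‖(U x).1‖ ^ 2 ≤ 4 * ρ ^ 4 * wt x * ‖(U x).1‖ ^ 2 :=
      mul_le_mul_of_nonneg_right h2 (by positivity)
    have h6 : 0 ≤ 4 * ρ ^ 4 * gsq (U x) := by positivity
    linarith
theorem IsSob.integrableOn_ann {U : Fld ι} (hU : IsSob U) (a b : ℝ) :
    IntegrableOn (fun x => gsq (U x) + ‖(U x).1‖ ^ 2) {x : ℂ | a < ‖x‖ ∧ ‖x‖ < b} volume := by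
  have h1 : {x : ℂ | a < ‖x‖ ∧ ‖x‖ < b} ⊆ Metric.ball (0 : ℂ) b := by
    intro x hx
    simpa using hx.2
  exact (hU.integrable_gsq.integrableOn).add ((hU.integrableOn_sq b).mono_set h1)

private lemma p0_vol (R : ℝ) (hR : 0 ≤ R) :
    (volume (Metric.ball (0 : ℂ) R)).toReal = R ^ 2 * π := by
  rw [Complex.volume_ball]
  simp [hR]

theorem IsSob.integrableOn_norm_ball {U : Fld ι} (hU : IsSob U) (R : ℝ) :
    IntegrableOn (fun x => ‖(U x).1‖) {x : ℂ | ‖x‖ < R} volume ∧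
    (∫ x in {x : ℂ | ‖x‖ < R}, ‖(U x).1‖) ≤ 2 * |R| * Real.sqrt (∫ x in {x : ℂ | ‖x‖ < R}, ‖(U x).1‖ ^ 2) := by
  rw [p0_ball]
  have hi1 := hU.integrableOn R
  have hi2 := hU.integrableOn_sq R
  refine ⟨hi1, ?_⟩
  rcases le_or_gt R 0 with hR | hR
  · rw [Metric.ball_eq_empty.2 hR]
    simp
  set I := ∫ x in Metric.ball (0 : ℂ) R, ‖(U x).1‖ with hI
  set J := ∫ x in Metric.ball (0 : ℂ) R, ‖(U x).1‖ ^ 2 with hJ
  have hA := p0_vol R hR.le
  have hA0 : 0 < R ^ 2 * π := by positivity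
  have hquad : ∀ t : ℝ, 0 ≤ J - 2 * t * I + t ^ 2 * (R ^ 2 * π) := by
    intro t
    have hfin : volume (Metric.ball (0 : ℂ) R) < ⊤ := measure_ball_lt_top
    have h0 : 0 ≤ ∫ x in Metric.ball (0 : ℂ) R, (‖(U x).1‖ - t) ^ 2 :=
      integral_nonneg fun x => sq_nonneg _
    have h1 : ∫ x in Metric.ball (0 : ℂ) R, (‖(U x).1‖ - t) ^ 2 =
        ∫ x in Metric.ball (0 : ℂ) R, (‖(U x).1‖ ^ 2 - 2 * t * ‖(U x).1‖ + t ^ 2) := by
      refine integral_congr_ae (Eventually.of_forall fun x => ?_)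
      show (‖(U x).1‖ - t) ^ 2 = ‖(U x).1‖ ^ 2 - 2 * t * ‖(U x).1‖ + t ^ 2
      ring
    have hc : IntegrableOn (fun _ : ℂ => t ^ 2) (Metric.ball (0 : ℂ) R) volume :=
      integrableOn_const hfin.ne
    have e0 : Integrable (fun x => ‖(U x).1‖ ^ 2 - 2 * t * ‖(U x).1‖)
        (volume.restrict (Metric.ball (0 : ℂ) R)) :=
      Integrable.sub (f := fun x => ‖(U x).1‖ ^ 2) (g := fun x => 2 * t * ‖(U x).1‖)
        hi2 (hi1.const_mul (2 * t))
    have e1 := integral_add (μ := volume.restrict (Metric.ball (0 : ℂ) R))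
      (f := fun x => ‖(U x).1‖ ^ 2 - 2 * t * ‖(U x).1‖) (g := fun _ => t ^ 2) e0 hc
    have e2 := integral_sub (μ := volume.restrict (Metric.ball (0 : ℂ) R))
      (f := fun x => ‖(U x).1‖ ^ 2) (g := fun x => 2 * t * ‖(U x).1‖)
      hi2 (hi1.const_mul (2 * t))
    rw [h1, e1, e2, integral_const_mul, integral_const, smul_eq_mul] at h0
    have h2 : (volume.restrict (Metric.ball (0 : ℂ) R)).real univ = R ^ 2 * π := by
      rw [Measure.real, Measure.restrict_apply_univ, hA]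
    rw [h2] at h0
    linarith
  have hI0 : 0 ≤ I := integral_nonneg fun x => norm_nonneg _
  have hJ0 : 0 ≤ J := integral_nonneg fun x => by positivity
  have h3 := hquad (I / (R ^ 2 * π))
  have h4 : I ^ 2 ≤ R ^ 2 * π * J := by
    have h5 : J - 2 * (I / (R ^ 2 * π)) * I + (I / (R ^ 2 * π)) ^ 2 * (R ^ 2 * π) =
        (R ^ 2 * π * J - I ^ 2) / (R ^ 2 * π) := by
      field_simp
      ring
    rw [h5] at h3
    have := (div_nonneg_iff.1 h3)
    rcases this with h | h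
    · linarith [h.1]
    · linarith [h.2]
  have h6 : I ^ 2 ≤ (2 * |R| * Real.sqrt J) ^ 2 := by
    rw [mul_pow, Real.sq_sqrt hJ0, mul_pow, sq_abs]
    have h7 : R ^ 2 * π * J ≤ R ^ 2 * 4 * J := by
      have := Real.pi_le_four
      gcongr
    linarith
  exact (le_abs_self I).trans (abs_le_of_sq_le_sq h6 (by positivity))

theorem NII_nonneg (ρ a : ℝ) (U : Fld ι) : 0 ≤ NII ρ a U := by
  unfold NII
  refine integral_nonneg fun x => ?_
  have := p0_wgt_nonneg ρ ‖x‖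
  show 0 ≤ gsq (U x) + wgt ρ ‖x‖ * ‖(U x).1‖ ^ 2
  unfold gsq
  positivity
theorem NI_nonneg (a b : ℝ) (U : Fld ι) : 0 ≤ NI a b U := by
  unfold NI
  refine integral_nonneg fun x => ?_
  show 0 ≤ gsq (U x) + ‖(U x).1‖ ^ 2
  unfold gsq
  positivity
theorem NC_nonneg (B : Base ι) (R : ℝ) (U : Fld ι) : 0 ≤ NC B R U := by
  unfold NC
  refine integral_nonneg fun x => ?_
  show 0 ≤ gsq (U x) + aa B.S (v0 B x + (U x).1)
  unfold gsq aa
  refine add_nonneg (by positivity) (Finset.sum_nonneg fun j _ => by positivity)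

private lemma p0_NII_int {U : Fld ι} (hU : IsSob U) {ρ : ℝ} (hρ : 1 ≤ ρ) (s : Set ℂ) :
    IntegrableOn (fun x => gsq (U x) + wgt ρ ‖x‖ * ‖(U x).1‖ ^ 2) s volume :=
  (hU.integrable_gsq.add (hU.integrable_wgt hρ)).integrableOn

theorem NII_mono {U : Fld ι} (hU : IsSob U) {ρ a b : ℝ} (hρ : 1 ≤ ρ) (hab : a ≤ b) :
    NII ρ b U ≤ NII ρ a U := by
  unfold NII
  refine setIntegral_mono_set (p0_NII_int hU hρ _) ?_ ?_
  · refine Eventually.of_forall fun x => ?_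
    have := p0_wgt_nonneg ρ ‖x‖
    show 0 ≤ gsq (U x) + wgt ρ ‖x‖ * ‖(U x).1‖ ^ 2
    unfold gsq
    positivity
  · exact Eventually.of_forall fun x hx => le_trans hab hx
theorem NI_mono {U : Fld ι} (hU : IsSob U) {a b a' b' : ℝ} (ha : a ≤ a') (hb : b' ≤ b) :
    NI a' b' U ≤ NI a b U := by
  unfold NI
  refine setIntegral_mono_set (hU.integrableOn_ann a b) ?_ ?_
  · refine Eventually.of_forall fun x => ?_
    show 0 ≤ gsq (U x) + ‖(U x).1‖ ^ 2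
    unfold gsq
    positivity
  · exact Eventually.of_forall fun x hx => ⟨lt_of_le_of_lt ha hx.1, lt_of_lt_of_le hx.2 hb⟩

private lemma p0_sq_add (a b : Ev ι) : ‖a + b‖ ^ 2 ≤ 2 * ‖a‖ ^ 2 + 2 * ‖b‖ ^ 2 := by
  have h1 := norm_add_le a b
  have h2 : ‖a + b‖ ^ 2 ≤ (‖a‖ + ‖b‖) ^ 2 := pow_le_pow_left₀ (norm_nonneg _) h1 2
  nlinarith [sq_nonneg (‖a‖ - ‖b‖)]

theorem NII_add {U V : Fld ι} (hU : IsSob U) (hV : IsSob V) {ρ : ℝ} (hρ : 1 ≤ ρ) (a : ℝ) :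
    NII ρ a (U + V) ≤ 2 * NII ρ a U + 2 * NII ρ a V := by
  unfold NII
  rw [← integral_const_mul, ← integral_const_mul, ← integral_add
    ((p0_NII_int hU hρ _).const_mul 2) ((p0_NII_int hV hρ _).const_mul 2)]
  refine setIntegral_mono_on (p0_NII_int (hU.add hV) hρ _)
    (((p0_NII_int hU hρ _).const_mul 2).add ((p0_NII_int hV hρ _).const_mul 2)) (p0_mle a)
    fun x _ => ?_
  have h0 := p0_wgt_nonneg ρ ‖x‖
  have h1 := p0_sq_add (U x).1 (V x).1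
  have h2 := p0_sq_add (U x).2.1 (V x).2.1
  have h3 := p0_sq_add (U x).2.2 (V x).2.2
  have h4 := mul_le_mul_of_nonneg_left h1 h0
  show ‖(U x).2.1 + (V x).2.1‖ ^ 2 + ‖(U x).2.2 + (V x).2.2‖ ^ 2 +
      wgt ρ ‖x‖ * ‖(U x).1 + (V x).1‖ ^ 2 ≤
    2 * (‖(U x).2.1‖ ^ 2 + ‖(U x).2.2‖ ^ 2 + wgt ρ ‖x‖ * ‖(U x).1‖ ^ 2) +
    2 * (‖(V x).2.1‖ ^ 2 + ‖(V x).2.2‖ ^ 2 + wgt ρ ‖x‖ * ‖(V x).1‖ ^ 2)
  linarith
theorem NII_smul {U : Fld ι} (t : ℝ) (ρ a : ℝ) : NII ρ a (t • U) = t ^ 2 * NII ρ a U := by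
  unfold NII
  rw [← integral_const_mul]
  refine integral_congr_ae (Eventually.of_forall fun x => ?_)
  show ‖t • (U x).2.1‖ ^ 2 + ‖t • (U x).2.2‖ ^ 2 + wgt ρ ‖x‖ * ‖t • (U x).1‖ ^ 2 =
    t ^ 2 * (‖(U x).2.1‖ ^ 2 + ‖(U x).2.2‖ ^ 2 + wgt ρ ‖x‖ * ‖(U x).1‖ ^ 2)
  rw [norm_smul, norm_smul, norm_smul, mul_pow, mul_pow, mul_pow, Real.norm_eq_abs, sq_abs]
  ring
theorem NII_zero (ρ a : ℝ) : NII ρ a (0 : Fld ι) = 0 := by
  have h := NII_smul (U := (0 : Fld ι)) 0 ρ a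
  rw [smul_zero] at h
  rw [h]
  ring

private lemma p0_mu_pos (S : Sys ι) (j : ι) : 1 ≤ S.μ j := by
  by_cases h : j = S.o
  · rw [h, S.μ_o]
  · exact (S.one_lt j h).le

private lemma p0_gsq_eq (u : Ev ι × Ev ι × Ev ι) :
    gsq u = ∑ j, (u.2.1 j ^ 2 + u.2.2 j ^ 2) := by
  unfold gsq
  rw [EuclideanSpace.real_norm_sq_eq, EuclideanSpace.real_norm_sq_eq, Finset.sum_add_distrib]

private lemma p0_mu_inv (S : Sys ι) (j : ι) : 0 < (S.μ j : ℝ)⁻¹ ∧ (S.μ j : ℝ)⁻¹ ≤ 1 := by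
  have h : (1 : ℝ) ≤ S.μ j := by exact_mod_cast p0_mu_pos S j
  exact ⟨by positivity, inv_le_one_of_one_le₀ h⟩

theorem gP_le (S : Sys ι) (u : Ev ι × Ev ι × Ev ι) : gP S u ≤ gsq u := by
  rw [p0_gsq_eq]
  unfold gP
  refine Finset.sum_le_sum fun j _ => ?_
  have h := (p0_mu_inv S j).2
  have h2 : 0 ≤ u.2.1 j ^ 2 + u.2.2 j ^ 2 := by positivity
  calc (S.μ j : ℝ)⁻¹ * (u.2.1 j ^ 2 + u.2.2 j ^ 2) ≤ 1 * (u.2.1 j ^ 2 + u.2.2 j ^ 2) :=
        mul_le_mul_of_nonneg_right h h2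
    _ = _ := one_mul _
theorem gP_nonneg (S : Sys ι) (u : Ev ι × Ev ι × Ev ι) : 0 ≤ gP S u := by
  unfold gP
  exact Finset.sum_nonneg fun j _ => by positivity
theorem gP_ge (S : Sys ι) : ∃ c : ℝ, 0 < c ∧ ∀ u : Ev ι × Ev ι × Ev ι, c * gsq u ≤ gP S u := by
  set M : ℝ := ∑ j, (S.μ j : ℝ) with hM
  have hMj : ∀ j, (S.μ j : ℝ) ≤ M := fun j =>
    Finset.single_le_sum (f := fun j => (S.μ j : ℝ)) (fun i _ => by positivity) (Finset.mem_univ j)
  have hMo : (1 : ℝ) ≤ M := by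
    have := hMj S.o
    rwa [S.μ_o, Nat.cast_one] at this
  have hM0 : 0 < M := by linarith
  refine ⟨M⁻¹, by positivity, fun u => ?_⟩
  rw [p0_gsq_eq]
  unfold gP
  rw [Finset.mul_sum]
  refine Finset.sum_le_sum fun j _ => ?_
  have h1 : (1 : ℝ) ≤ S.μ j := by exact_mod_cast p0_mu_pos S j
  have h2 : M⁻¹ ≤ (S.μ j : ℝ)⁻¹ := inv_anti₀ (by linarith) (hMj j)
  exact mul_le_mul_of_nonneg_right h2 (by positivity)

theorem gPb_le (S : Sys ι) (u w : Ev ι × Ev ι × Ev ι) :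
    |gPb S u w| ≤ Real.sqrt (gsq u) * Real.sqrt (gsq w) := by
  have hcs : ∀ a b : Ev ι, ∑ j, |a j| * |b j| ≤ ‖a‖ * ‖b‖ := by
    intro a b
    have h := Real.sum_mul_le_sqrt_mul_sqrt Finset.univ (fun j => |a j|) (fun j => |b j|)
    simp only [sq_abs] at h
    rw [EuclideanSpace.norm_eq, EuclideanSpace.norm_eq]
    simpa only [Real.norm_eq_abs, sq_abs] using h
  have h1 : |gPb S u w| ≤ ‖u.2.1‖ * ‖w.2.1‖ + ‖u.2.2‖ * ‖w.2.2‖ := by
    unfold gPb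
    refine (Finset.abs_sum_le_sum_abs _ _).trans ?_
    have h2 : ∀ j, |(S.μ j : ℝ)⁻¹ * (u.2.1 j * w.2.1 j + u.2.2 j * w.2.2 j)| ≤
        |u.2.1 j| * |w.2.1 j| + |u.2.2 j| * |w.2.2 j| := by
      intro j
      rw [abs_mul, abs_of_pos (p0_mu_inv S j).1]
      have h3 := (p0_mu_inv S j).2
      have h4 : |u.2.1 j * w.2.1 j + u.2.2 j * w.2.2 j| ≤
          |u.2.1 j| * |w.2.1 j| + |u.2.2 j| * |w.2.2 j| := by
        refine (abs_add_le _ _).trans (le_of_eq ?_)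
        rw [abs_mul, abs_mul]
      calc (S.μ j : ℝ)⁻¹ * |u.2.1 j * w.2.1 j + u.2.2 j * w.2.2 j|
          ≤ 1 * |u.2.1 j * w.2.1 j + u.2.2 j * w.2.2 j| :=
            mul_le_mul_of_nonneg_right h3 (abs_nonneg _)
        _ ≤ _ := by rw [one_mul]; exact h4
    refine (Finset.sum_le_sum fun j _ => h2 j).trans ?_
    rw [Finset.sum_add_distrib]
    exact add_le_add (hcs _ _) (hcs _ _)
  refine h1.trans ?_
  rw [← Real.sqrt_mul (by unfold gsq; positivity)]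
  refine Real.le_sqrt_of_sq_le ?_
  unfold gsq
  nlinarith [sq_nonneg (‖u.2.1‖ * ‖w.2.2‖ - ‖u.2.2‖ * ‖w.2.1‖)]
theorem gPb_self (S : Sys ι) (u : Ev ι × Ev ι × Ev ι) : gPb S u u = gP S u := by
  unfold gPb gP
  exact Finset.sum_congr rfl fun j _ => by ring
theorem gP_add (S : Sys ι) (u w : Ev ι × Ev ι × Ev ι) :
    gP S (u + w) = gP S u + 2 * gPb S u w + gP S w := by
  unfold gPb gP
  rw [Finset.mul_sum, ← Finset.sum_add_distrib, ← Finset.sum_add_distrib]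
  refine Finset.sum_congr rfl fun j _ => ?_
  show (S.μ j : ℝ)⁻¹ * ((u.2.1 j + w.2.1 j) ^ 2 + (u.2.2 j + w.2.2 j) ^ 2) = _
  ring
theorem gPb_add_left (S : Sys ι) (u u' w : Ev ι × Ev ι × Ev ι) :
    gPb S (u + u') w = gPb S u w + gPb S u' w := by
  unfold gPb
  rw [← Finset.sum_add_distrib]
  refine Finset.sum_congr rfl fun j _ => ?_
  show (S.μ j : ℝ)⁻¹ * ((u.2.1 j + u'.2.1 j) * w.2.1 j + (u.2.2 j + u'.2.2 j) * w.2.2 j) = _
  ring
theorem gPb_comm (S : Sys ι) (u w : Ev ι × Ev ι × Ev ι) : gPb S u w = gPb S w u := by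
  unfold gPb
  exact Finset.sum_congr rfl fun j _ => by ring
theorem gPb_add_right (S : Sys ι) (u w w' : Ev ι × Ev ι × Ev ι) :
    gPb S u (w + w') = gPb S u w + gPb S u w' := by
  rw [gPb_comm, gPb_add_left, gPb_comm S w, gPb_comm S w']
theorem gPb_smul_right (S : Sys ι) (u w : Ev ι × Ev ι × Ev ι) (t : ℝ) :
    gPb S u (t • w) = t * gPb S u w := by
  unfold gPb
  rw [Finset.mul_sum]
  refine Finset.sum_congr rfl fun j _ => ?_
  show (S.μ j : ℝ)⁻¹ * (u.2.1 j * (t * w.2.1 j) + u.2.2 j * (t * w.2.2 j)) = _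
  ring
theorem gP_smul (S : Sys ι) (u : Ev ι × Ev ι × Ev ι) (t : ℝ) : gP S (t • u) = t ^ 2 * gP S u := by
  rw [← gPb_self, ← gPb_self, gPb_smul_right, gPb_comm, gPb_smul_right]
  ring

/-- bilinear form of `qV`. -/
noncomputable def qVb (S : Sys ι) (s : ℝ) (g h : Ev ι) : ℝ := ∑ j, vj S s j * (g j * h j)

theorem qVb_self (S : Sys ι) (s : ℝ) (g : Ev ι) : qVb S s g g = qV S s g := by
  unfold qVb qV
  exact Finset.sum_congr rfl fun j _ => by ring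
theorem qVb_comm (S : Sys ι) (s : ℝ) (g h : Ev ι) : qVb S s g h = qVb S s h g := by
  unfold qVb
  exact Finset.sum_congr rfl fun j _ => by ring
theorem qV_add (S : Sys ι) (s : ℝ) (g h : Ev ι) :
    qV S s (g + h) = qV S s g + 2 * qVb S s g h + qV S s h := by
  unfold qVb qV
  rw [Finset.mul_sum, ← Finset.sum_add_distrib, ← Finset.sum_add_distrib]
  refine Finset.sum_congr rfl fun j _ => ?_
  show vj S s j * (g j + h j) ^ 2 = _
  ring
theorem qVb_add_left (S : Sys ι) (s : ℝ) (g g' h : Ev ι) :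
    qVb S s (g + g') h = qVb S s g h + qVb S s g' h := by
  unfold qVb
  rw [← Finset.sum_add_distrib]
  refine Finset.sum_congr rfl fun j _ => ?_
  show vj S s j * ((g j + g' j) * h j) = _
  ring
theorem qVb_smul_right (S : Sys ι) (s : ℝ) (g h : Ev ι) (t : ℝ) :
    qVb S s g (t • h) = t * qVb S s g h := by
  unfold qVb
  rw [Finset.mul_sum]
  refine Finset.sum_congr rfl fun j _ => ?_
  show vj S s j * (g j * (t * h j)) = _
  ring
theorem qV_smul (S : Sys ι) (s : ℝ) (g : Ev ι) (t : ℝ) : qV S s (t • g) = t ^ 2 * qV S s g := by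
  rw [← qVb_self, ← qVb_self, qVb_smul_right, qVb_comm, qVb_smul_right]
  ring
theorem qVb_le (S : Sys ι) : ∃ C : ℝ, 0 < C ∧ ∀ (s : ℝ), s ≤ 0 → ∀ g h : Ev ι,
    |qVb S s g h| ≤ C * exp s * (‖g‖ * ‖h‖) ∧ |qV S s g| ≤ C * exp s * ‖g‖ ^ 2 := by
  have hcoord : ∀ (g : Ev ι) (j : ι), |g j| ≤ ‖g‖ := by
    intro g j
    have := PiLp.norm_apply_le g j
    simpa using this
  have key : ∀ (s : ℝ), s ≤ 0 → ∀ g h : Ev ι,
      |qVb S s g h| ≤ (∑ j, ((S.μ j : ℝ) + 2)) * exp s * (‖g‖ * ‖h‖) := by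
    intro s hs g h
    unfold qVb
    refine (Finset.abs_sum_le_sum_abs _ _).trans ?_
    rw [Finset.sum_mul, Finset.sum_mul]
    refine Finset.sum_le_sum fun j _ => ?_
    rw [abs_mul, abs_mul]
    have h1 : |vj S s j| ≤ ((S.μ j : ℝ) + 2) * exp s := by
      unfold vj
      have h2 : exp (2 * s) ≤ exp s := exp_le_exp.2 (by linarith)
      have h3 : 0 < exp (2 * s) := exp_pos _
      have h4 : 0 < exp s := exp_pos _
      have h5 : (0 : ℝ) ≤ S.μ j := Nat.cast_nonneg _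
      rw [abs_le]
      constructor <;> nlinarith
    have h6 : 0 ≤ ((S.μ j : ℝ) + 2) * exp s := by positivity
    exact mul_le_mul h1 (mul_le_mul (hcoord g j) (hcoord h j) (abs_nonneg _) (norm_nonneg _))
      (by positivity) h6
  refine ⟨∑ j, ((S.μ j : ℝ) + 2), ?_, fun s hs g h => ⟨key s hs g h, ?_⟩⟩
  · exact Finset.sum_pos (fun j _ => by positivity) ⟨S.o, Finset.mem_univ _⟩
  · have h1 := key s hs g g
    rw [qVb_self] at h1
    rw [sq]
    exact h1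
theorem fderiv_qV (S : Sys ι) (s : ℝ) (g h : Ev ι) :
    fderiv ℝ (fun g => 1 / 2 * qV S s g) g h = qVb S s g h := by
  have h1 : ∀ j, HasFDerivAt (fun g : Ev ι => g j ^ 2)
      ((2 * g j) • (EuclideanSpace.proj j : Ev ι →L[ℝ] ℝ)) g := by
    intro j
    have h2 := ((EuclideanSpace.proj j : Ev ι →L[ℝ] ℝ).hasFDerivAt (x := g)).pow 2
    simpa using h2
  have h3 : HasFDerivAt (fun g : Ev ι => 1 / 2 * qV S s g)
      ((1 / 2 : ℝ) • ∑ j, vj S s j • ((2 * g j) • (EuclideanSpace.proj j : Ev ι →L[ℝ] ℝ))) g := by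
    unfold qV
    exact (HasFDerivAt.fun_sum fun j _ => (h1 j).const_mul (vj S s j)).const_mul (1 / 2)
  rw [h3.fderiv]
  unfold qVb
  simp only [ContinuousLinearMap.smul_apply, ContinuousLinearMap.sum_apply, smul_eq_mul]
  rw [Finset.mul_sum]
  refine Finset.sum_congr rfl fun j _ => ?_
  show 1 / 2 * (vj S s j * (2 * g j * h j)) = vj S s j * (g j * h j)
  ring

end Pool.MP_ad5d82_an.Wl
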