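import Pool.Agent.Lib.MP_ad5d82_an.h24.PDefs
import Pool.Agent.Lib.MP_ad5d82_an.h24.W.W1
import Pool.Agent.Lib.MP_ad5d82_an.h24.W.W2
import Pool.Agent.Lib.MP_ad5d82_an.h24.W.W4
import Pool.Agent.Lib.MP_ad5d82_an.h24.W.W5

set_option autoImplicit false

namespace Pool.MP_ad5d82_an.Wl

open Real Set MeasureTheory Filter Topology
open scoped ContDiff

variable {ι : Type} [Fintype ι] [DecidableEq ι]

/-! ### P1a the wall on the plane: pointwise facts -/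
theorem SS_neg {ρ ε : ℝ} {F : ℝ → ℝ} (h : Wall ρ ε F) (z : ℂ) : SS F z < 0 := by
  have h1 := s_le h (norm_nonneg z)
  have h2 := h.hε
  unfold SS
  linarith

theorem SS_anti {ρ ε : ℝ} {F : ℝ → ℝ} (h : Wall ρ ε F) (z z' : ℂ) (hz : ‖z‖ ≤ ‖z'‖) :
    SS F z' ≤ SS F z :=
  (s_anti h).antitoneOn (norm_nonneg z) (norm_nonneg z') hz

theorem P1a_drop {ρ ε : ℝ} {F : ℝ → ℝ} (h : Wall ρ ε F) {a b : ℝ} (ha : 0 ≤ a) (hab : a ≤ b)
    (hb : b ≤ ρ) : 0.2 * ε * (b ^ 2 - a ^ 2) ≤ F (a ^ 2) - F (b ^ 2) := by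
  have hd : ∀ r : ℝ, HasDerivAt (fun r => F (r ^ 2) + 0.2 * ε * r ^ 2)
      (-uu F r + 0.2 * ε * (2 * r)) r := by
    intro r
    have h1 := hasDerivAt_s h r
    have h2 : HasDerivAt (fun r : ℝ => 0.2 * ε * r ^ 2) (0.2 * ε * (2 * r)) r := by
      have := (hasDerivAt_pow 2 r).const_mul (0.2 * ε)
      simpa using this
    exact h1.add h2
  have hanti : AntitoneOn (fun r => F (r ^ 2) + 0.2 * ε * r ^ 2) (Icc 0 ρ) := by
    apply antitoneOn_of_deriv_nonpos (convex_Icc 0 ρ)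
    · exact fun r _ => (hd r).continuousAt.continuousWithinAt
    · exact fun r _ => (hd r).differentiableAt.differentiableWithinAt
    · intro r hr
      rw [interior_Icc] at hr
      rw [(hd r).deriv]
      have := u_ge h hr.1.le hr.2.le
      linarith
  have h3 := hanti ⟨ha, hab.trans hb⟩ ⟨ha.trans hab, hb⟩ hab
  simp only at h3
  linarith

theorem SS_drop {ρ ε : ℝ} {F : ℝ → ℝ} (h : Wall ρ ε F) (z z' : ℂ) (hz : ‖z‖ ≤ ‖z'‖) (hz' : ‖z'‖ ≤ ρ) :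
    0.2 * ε * (‖z'‖ ^ 2 - ‖z‖ ^ 2) ≤ SS F z - SS F z' :=
  P1a_drop h (norm_nonneg z) hz hz'

theorem SS_small {ρ ε : ℝ} {F : ℝ → ℝ} (h : Wall ρ ε F) (z : ℂ) : -SS F z ≤ ε * exp ‖z‖ :=
  s_growth h (norm_nonneg z)

theorem P1a_u0 (F : ℝ → ℝ) : uu F 0 = 0 := by simp [uu]

theorem P1a_u_nonneg {ρ ε : ℝ} {F : ℝ → ℝ} (h : Wall ρ ε F) {r : ℝ} (hr : 0 ≤ r) : 0 ≤ uu F r := by
  rcases hr.eq_or_lt with h0 | h0
  · rw [← h0, P1a_u0]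
  · exact (u_pos h h0).le

theorem P1a_q_le {ρ ε : ℝ} {F : ℝ → ℝ} (h : Wall ρ ε F) {r : ℝ} (hr : 0 ≤ r) :
    qq F r ≤ ε * exp r := by
  have h1 := s_growth h hr
  have h2 := Real.add_one_le_exp (F (r ^ 2))
  unfold qq
  linarith

theorem P1a_lip {ρ ε : ℝ} {F : ℝ → ℝ} (h : Wall ρ ε F) {a b : ℝ} (ha : 0 ≤ a) (hb : 0 ≤ b) :
    |F (a ^ 2) - F (b ^ 2)| ≤ |a - b| ∧
      |F (a ^ 2) - F (b ^ 2)| ≤ ε * exp (max a b) * |a - b| := by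
  have hd : ∀ r ∈ Icc 0 (max a b), HasDerivWithinAt (fun r => F (r ^ 2)) (-uu F r)
      (Icc 0 (max a b)) r := fun r _ => (hasDerivAt_s h r).hasDerivWithinAt
  have hbd : ∀ r ∈ Icc 0 (max a b), ‖-uu F r‖ ≤ 1 := by
    intro r hr
    rw [norm_neg, Real.norm_eq_abs, abs_of_nonneg (P1a_u_nonneg h hr.1)]
    have h1 := u_lt_q h hr.1
    have h2 : qq F r ≤ 1 := by
      unfold qq
      have := exp_pos (F (r ^ 2))
      linarith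
    linarith
  have hbd2 : ∀ r ∈ Icc 0 (max a b), ‖-uu F r‖ ≤ ε * exp (max a b) := by
    intro r hr
    rw [norm_neg, Real.norm_eq_abs, abs_of_nonneg (P1a_u_nonneg h hr.1)]
    have h1 := u_lt_q h hr.1
    have h2 := P1a_q_le h hr.1
    have h3 : ε * exp r ≤ ε * exp (max a b) :=
      mul_le_mul_of_nonneg_left (exp_le_exp.mpr hr.2) h.hε.le
    linarith
  have hma : a ∈ Icc 0 (max a b) := ⟨ha, le_max_left _ _⟩
  have hmb : b ∈ Icc 0 (max a b) := ⟨hb, le_max_right _ _⟩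
  constructor
  · have := Convex.norm_image_sub_le_of_norm_hasDerivWithin_le hd hbd (convex_Icc _ _) hmb hma
    simpa [Real.norm_eq_abs] using this
  · have := Convex.norm_image_sub_le_of_norm_hasDerivWithin_le hd hbd2 (convex_Icc _ _) hmb hma
    simpa [Real.norm_eq_abs] using this

theorem SS_lip {ρ ε : ℝ} {F : ℝ → ℝ} (h : Wall ρ ε F) (z z' : ℂ) :
    |SS F z - SS F z'| ≤ ‖z - z'‖ ∧ |SS F z - SS F z'| ≤ ε * exp (max ‖z‖ ‖z'‖) * ‖z - z'‖ := by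
  obtain ⟨h1, h2⟩ := P1a_lip h (norm_nonneg z) (norm_nonneg z')
  have h3 := abs_norm_sub_norm_le z z'
  refine ⟨h1.trans h3, h2.trans ?_⟩
  have := h.hε
  gcongr

theorem P1a_sub (ξ x : ℂ) {Ξ : ℝ} (hξ : ‖ξ‖ ≤ Ξ) : ‖x - ξ‖ ≤ ‖x‖ + Ξ ∧ ‖x‖ - Ξ ≤ ‖x - ξ‖ := by
  have h1 := norm_sub_le x ξ
  have h2 := norm_sub_norm_le x ξ
  constructor <;> linarith

theorem SS_near_one (Ξ : ℝ) : ∃ ρ₀ : ℝ, ∀ ρ ε F, Wall ρ ε F → ρ₀ ≤ ρ → ∀ ξ x : ℂ, ‖ξ‖ ≤ Ξ →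
    ‖x‖ ≤ 0.92 * ρ → 99 / 100 ≤ exp (SS F (x - ξ)) := by
  refine ⟨max (100 * Ξ) 4000, ?_⟩
  intro ρ ε F h hρ ξ x hξ hx
  have hρ1 : 100 * Ξ ≤ ρ := (le_max_left _ _).trans hρ
  have hρ2 : 4000 ≤ ρ := (le_max_right _ _).trans hρ
  have h1 := (P1a_sub ξ x hξ).1
  have h2 : ‖x - ξ‖ ≤ 0.93 * ρ := by linarith
  have h3 := s_decay h (norm_nonneg (x - ξ)) (by linarith)
  have h4 : max ‖x - ξ‖ 16 ≤ 0.93 * ρ := max_le h2 (by linarith)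
  have h5 : exp (-0.4 * (ρ - max ‖x - ξ‖ 16)) ≤ exp (-100) := by
    apply exp_le_exp.mpr
    linarith
  have h6 : exp (-100) ≤ 1 / 100 := by
    rw [exp_neg, ← one_div]
    apply one_div_le_one_div_of_le (by norm_num)
    have := Real.add_one_le_exp (100 : ℝ)
    linarith
  have h7 := Real.add_one_le_exp (SS F (x - ξ))
  have h8 : -SS F (x - ξ) ≤ 1 / 100 := (h3.trans h5).trans h6
  linarith

theorem SS_tendsto {ρ ε : ℝ} {F : ℝ → ℝ} (h : Wall ρ ε F) (z : ℂ) (hz : ρ ≤ ‖z‖) :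
    SS F z ≤ -(0.45 * ρ * Real.log (‖z‖ / ρ)) := by
  have h1 := s_out h hz
  have h2 : 0 < Real.log 2 := Real.log_pos (by norm_num)
  unfold SS
  linarith

theorem P1a_far {ρ ε Ξ : ℝ} {F : ℝ → ℝ} (h : Wall ρ ε F) (hρ : 10 * Ξ ≤ ρ) (ξ x : ℂ) (hξ : ‖ξ‖ ≤ Ξ)
    (hx : 1.2 * ρ ≤ ‖x‖) : exp (SS F (x - ξ)) ≤ ((‖x‖ / ρ) ^ 16)⁻¹ := by
  have hρ0 : 0 < ρ := by have := h.hρ; linarith
  have ht : 1.2 ≤ ‖x‖ / ρ := by rw [le_div_iff₀ hρ0]; linarith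
  have h2 := (P1a_sub ξ x hξ).2
  have hs1 : Real.sqrt (‖x‖ / ρ) * Real.sqrt (‖x‖ / ρ) = ‖x‖ / ρ :=
    Real.mul_self_sqrt (by linarith)
  have hs2 : 1.095 ≤ Real.sqrt (‖x‖ / ρ) := by
    apply Real.le_sqrt_of_sq_le
    norm_num at ht ⊢
    linarith
  have h3 : Real.sqrt (‖x‖ / ρ) ≤ ‖x - ξ‖ / ρ := by
    have h4 : ‖x‖ / ρ - 0.1 ≤ ‖x - ξ‖ / ρ := by
      rw [le_div_iff₀ hρ0, sub_mul, div_mul_cancel₀ _ hρ0.ne']
      linarith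
    nlinarith
  have hge : ρ ≤ ‖x - ξ‖ := by
    have : 1 ≤ ‖x - ξ‖ / ρ := by linarith
    rwa [le_div_iff₀ hρ0, one_mul] at this
  have h5 := SS_tendsto h (x - ξ) hge
  have h6 : Real.log (‖x‖ / ρ) / 2 ≤ Real.log (‖x - ξ‖ / ρ) := by
    rw [← Real.log_sqrt (by linarith)]
    exact Real.log_le_log (by linarith) h3
  have h7 : 0 ≤ Real.log (‖x‖ / ρ) := Real.log_nonneg (by linarith)
  have h8 : 16 * Real.log (‖x‖ / ρ) ≤ 0.45 * ρ * Real.log (‖x - ξ‖ / ρ) := by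
    have := h.hρ
    calc 16 * Real.log (‖x‖ / ρ) ≤ 0.45 * 100 * (Real.log (‖x‖ / ρ) / 2) := by linarith
      _ ≤ 0.45 * ρ * (Real.log (‖x‖ / ρ) / 2) := by gcongr
      _ ≤ _ := by gcongr
  calc exp (SS F (x - ξ)) ≤ exp (-(16 * Real.log (‖x‖ / ρ))) := exp_le_exp.mpr (by linarith)
    _ = ((‖x‖ / ρ) ^ 16)⁻¹ := by
      rw [exp_neg]
      congr 1
      have : 16 * Real.log (‖x‖ / ρ) = Real.log ((‖x‖ / ρ) ^ 16) := by
        rw [Real.log_pow]; norm_num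
      rw [this, exp_log (by positivity)]

theorem SS_far (Ξ : ℝ) : ∃ ρ₀ : ℝ, ∀ ρ ε F, Wall ρ ε F → ρ₀ ≤ ρ → ∀ ξ x : ℂ, ‖ξ‖ ≤ Ξ →
    exp (SS F (x - ξ)) ≤ 100 * ((1 + ‖x‖ / ρ) ^ 16)⁻¹ * 2 ^ 16 ∧
    (x ≠ 0 → exp (SS F (x - ξ)) ≤ 100 * wgt ρ ‖x‖) := by
  refine ⟨10 * Ξ, ?_⟩
  intro ρ ε F h hρ ξ x hξ
  have hρ0 : 0 < ρ := by have := h.hρ; linarith
  have hle1 : exp (SS F (x - ξ)) ≤ 1 := by
    rw [← exp_zero]; exact exp_le_exp.mpr (SS_neg h _).le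
  rcases le_or_gt ‖x‖ (1.2 * ρ) with hx | hx
  · have ht : ‖x‖ / ρ ≤ 1.2 := by rw [div_le_iff₀ hρ0]; linarith
    have ht0 : 0 ≤ ‖x‖ / ρ := by positivity
    constructor
    · refine hle1.trans ?_
      have h1 : (1 + ‖x‖ / ρ) ^ 16 ≤ 2.2 ^ 16 := by
        apply pow_le_pow_left₀ (by positivity)
        linarith
      have h2 : ((2.2 : ℝ) ^ 16)⁻¹ ≤ ((1 + ‖x‖ / ρ) ^ 16)⁻¹ := by
        apply inv_anti₀ (by positivity) h1
      calc (1 : ℝ) ≤ 100 * ((2.2 : ℝ) ^ 16)⁻¹ * 2 ^ 16 := by norm_num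
        _ ≤ _ := by gcongr
    · intro hx0
      refine hle1.trans ?_
      have hxp : 0 < ‖x‖ := norm_pos_iff.mpr hx0
      have h1 : (1 / 100 : ℝ) ≤ wgt ρ ‖x‖ := by
        unfold wgt
        apply le_min (by norm_num)
        have h2 : 1 / 1.2 ≤ ρ / ‖x‖ := by
          rw [div_le_div_iff₀ (by norm_num) hxp]
          linarith
        calc (1 / 100 : ℝ) ≤ (1 / 1.2) ^ 4 := by norm_num
          _ ≤ (ρ / ‖x‖) ^ 4 := pow_le_pow_left₀ (by norm_num) h2 4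
      linarith
  · have h1 := P1a_far h hρ ξ x hξ hx.le
    have ht : 1.2 ≤ ‖x‖ / ρ := by rw [le_div_iff₀ hρ0]; linarith
    have ht1 : 1 ≤ ‖x‖ / ρ := by norm_num at ht ⊢; linarith
    have hxp : 0 < ‖x‖ := by linarith
    constructor
    · refine h1.trans ?_
      have h2 : (1 + ‖x‖ / ρ) ^ 16 ≤ (2 * (‖x‖ / ρ)) ^ 16 := by
        apply pow_le_pow_left₀ (by positivity)
        linarith
      have h3 : ((2 * (‖x‖ / ρ)) ^ 16)⁻¹ ≤ ((1 + ‖x‖ / ρ) ^ 16)⁻¹ := by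
        apply inv_anti₀ (by positivity) h2
      calc ((‖x‖ / ρ) ^ 16)⁻¹ = 1 * ((2 * (‖x‖ / ρ)) ^ 16)⁻¹ * 2 ^ 16 := by
            rw [mul_pow]; field_simp
        _ ≤ 100 * ((1 + ‖x‖ / ρ) ^ 16)⁻¹ * 2 ^ 16 := by
            gcongr
            norm_num
    · intro _
      refine h1.trans ?_
      have h2 : ((‖x‖ / ρ) ^ 16)⁻¹ ≤ wgt ρ ‖x‖ := by
        unfold wgt
        apply le_min
        · exact inv_le_one_of_one_le₀ (one_le_pow₀ ht1)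
        · have e : ρ / ‖x‖ = (‖x‖ / ρ)⁻¹ := by rw [inv_div]
          rw [e, inv_pow]
          apply inv_anti₀ (by positivity)
          exact pow_le_pow_right₀ ht1 (by norm_num)
      have h3 : 0 ≤ wgt ρ ‖x‖ := le_trans (by positivity) h2
      linarith

theorem eps_le {ρ ε : ℝ} {F : ℝ → ℝ} (h : Wall ρ ε F) : ε ≤ exp (-0.4 * (ρ - 16)) := by
  have h1 := s_decay h (le_refl 0) (by have := h.hρ; linarith)
  have h2 := h.F0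
  have h3 : F ((0 : ℝ) ^ 2) = -ε := by rw [← h2]; norm_num
  rw [h3, max_eq_right (by norm_num : (0 : ℝ) ≤ 16)] at h1
  linarith

end Pool.MP_ad5d82_an.Wl
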