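import Pool.Agent.Lib.MP_ad5d82_an.h24.PDefs
import Pool.Agent.Lib.MP_ad5d82_an.h24.W.W1
import Pool.Agent.Lib.MP_ad5d82_an.h24.W.W2
import Pool.Agent.Lib.MP_ad5d82_an.h24.W.W5
import Pool.Agent.Lib.MP_ad5d82_an.h24.P.P1a

set_option autoImplicit false

namespace Pool.MP_ad5d82_an.Wl

open Real Set MeasureTheory Filter Topology
open scoped ContDiff

variable {ι : Type} [Fintype ι] [DecidableEq ι]

/-! ### P1b the wall on the plane: derivatives -/
theorem SS_smooth {ρ ε : ℝ} {F : ℝ → ℝ} (h : Wall ρ ε F) : ContDiff ℝ ∞ (SS F) :=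
  h.smooth.comp (contDiff_norm_sq ℝ)

theorem P1b_F1 {ρ ε : ℝ} {F : ℝ → ℝ} (h : Wall ρ ε F) (t : ℝ) : HasDerivAt F (deriv F t) t :=
  (h.smooth.differentiable (by simp)).differentiableAt.hasDerivAt

theorem P1b_smooth1 {ρ ε : ℝ} {F : ℝ → ℝ} (h : Wall ρ ε F) : ContDiff ℝ ∞ (deriv F) :=
  ContDiff.deriv' h.smooth

theorem P1b_F2 {ρ ε : ℝ} {F : ℝ → ℝ} (h : Wall ρ ε F) (t : ℝ) :
    HasDerivAt (deriv F) (deriv (deriv F) t) t :=
  ((P1b_smooth1 h).differentiable (by simp)).differentiableAt.hasDerivAt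

theorem P1b_inner (z k : ℂ) : inner ℝ z k = z.re * k.re + z.im * k.im := by
  rw [Complex.inner]
  simp [Complex.mul_re]
  ring

theorem P1b_fd {G : ℝ → ℝ} {g : ℝ} (z : ℂ) (hG : HasDerivAt G g (‖z‖ ^ 2)) :
    HasFDerivAt (fun w : ℂ => G (‖w‖ ^ 2)) ((2 * g) • innerSL ℝ z) z := by
  have h1 : HasFDerivAt (fun w : ℂ => ‖w‖ ^ 2) (2 • (innerSL ℝ z)) z :=
    (hasStrictFDerivAt_norm_sq z).hasFDerivAt
  have h2 := hG.comp_hasFDerivAt z h1
  refine h2.congr_fderiv ?_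
  apply ContinuousLinearMap.ext
  intro k
  simp only [smul_apply, smul_eq_mul, nsmul_eq_mul]
  push_cast
  ring

theorem P1b_fderiv {ρ ε : ℝ} {F : ℝ → ℝ} (h : Wall ρ ε F) (z : ℂ) :
    fderiv ℝ (SS F) z = (2 * deriv F (‖z‖ ^ 2)) • innerSL ℝ z :=
  (P1b_fd z (P1b_F1 h _)).fderiv

theorem P1b_fderiv_apply {ρ ε : ℝ} {F : ℝ → ℝ} (h : Wall ρ ε F) (z k : ℂ) :
    fderiv ℝ (SS F) z k = 2 * deriv F (‖z‖ ^ 2) * (z.re * k.re + z.im * k.im) := by
  rw [P1b_fderiv h]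
  simp only [smul_apply, innerSL_apply_apply, P1b_inner, smul_eq_mul]

theorem P1b_second {ρ ε : ℝ} {F : ℝ → ℝ} (h : Wall ρ ε F) (z k : ℂ) :
    HasFDerivAt (fun w : ℂ => fderiv ℝ (SS F) w k)
      ((2 * deriv F (‖z‖ ^ 2)) • innerSL ℝ k +
        (z.re * k.re + z.im * k.im) • ((4 * deriv (deriv F) (‖z‖ ^ 2)) • innerSL ℝ z)) z := by
  have e : (fun w : ℂ => fderiv ℝ (SS F) w k) =
      fun w : ℂ => (2 * deriv F (‖w‖ ^ 2)) * (innerSL ℝ k w) := by
    funext w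
    rw [P1b_fderiv_apply h]
    simp only [innerSL_apply_apply, P1b_inner]
    ring
  rw [e]
  have h1 := (P1b_fd z (P1b_F2 h (‖z‖ ^ 2))).const_mul 2
  have h2 : HasFDerivAt (fun w : ℂ => innerSL ℝ k w) (innerSL ℝ k) z :=
    (innerSL ℝ k).hasFDerivAt
  have h3 := h1.mul h2
  refine h3.congr_fderiv ?_
  apply ContinuousLinearMap.ext
  intro l
  simp only [add_apply, smul_apply, innerSL_apply_apply,
    P1b_inner, smul_eq_mul]
  ring

theorem SS_lap {ρ ε : ℝ} {F : ℝ → ℝ} (h : Wall ρ ε F) (z : ℂ) :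
    lapC (SS F) z = exp (SS F z) * (exp (SS F z) - 1) := by
  unfold lapC
  rw [(P1b_second h z 1).fderiv, (P1b_second h z Complex.I).fderiv]
  simp only [add_apply, smul_apply, innerSL_apply_apply,
    P1b_inner, smul_eq_mul, Complex.one_re, Complex.one_im, Complex.I_re, Complex.I_im]
  have h1 := h.ode (‖z‖ ^ 2) (by positivity)
  unfold SS
  rw [← h1]
  have h2 : ‖z‖ ^ 2 = z.re * z.re + z.im * z.im := by
    rw [Complex.sq_norm, Complex.normSq_apply]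
  have h3 : ‖z‖ ^ 2 * deriv (deriv F) (‖z‖ ^ 2) =
      (z.re * z.re + z.im * z.im) * deriv (deriv F) (‖z‖ ^ 2) := by
    conv_lhs => rw [h2]
    rw [← h2]
  have h4 : 4 * ‖z‖ ^ 2 * deriv (deriv F) (‖z‖ ^ 2) =
      4 * ((z.re * z.re + z.im * z.im) * deriv (deriv F) (‖z‖ ^ 2)) := by
    rw [← h3]; ring
  rw [h4]
  ring

/-- the gradient is radial: `∇S(z)·h = - u(|z|) ⟨z/|z|, h⟩`. -/
theorem SS_grad {ρ ε : ℝ} {F : ℝ → ℝ} (h : Wall ρ ε F) (z k : ℂ) (hz : z ≠ 0) :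
    fderiv ℝ (SS F) z k = -(uu F ‖z‖ * ((z.re * k.re + z.im * k.im) / ‖z‖)) := by
  rw [P1b_fderiv_apply h, uu]
  have : ‖z‖ ≠ 0 := norm_ne_zero_iff.mpr hz
  field_simp

/-- bounds for `F'` and `F''`. -/
theorem P1b_F'_bd {ρ ε : ℝ} {F : ℝ → ℝ} (h : Wall ρ ε F) {r : ℝ} (hr : 0 ≤ r) :
    |2 * deriv F (r ^ 2)| ≤ 1 / 8 := by
  have hy : ∀ x : ℝ, |exp x * (exp x - 1)| ≤ 1 / 4 ∨ 0 < x := by
    intro x
    by_cases hx : 0 < x
    · exact Or.inr hx
    · left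
      have h1 : exp x ≤ 1 := by rw [← exp_zero]; exact exp_le_exp.mpr (not_lt.mp hx)
      have h2 := exp_pos x
      rw [abs_le]
      constructor <;> nlinarith [sq_nonneg (exp x - 1 / 2)]
  rcases hr.eq_or_lt with h0 | h0
  · rw [← h0]
    have h1 := h.ode 0 le_rfl
    have h2 : F 0 < 0 := by rw [h.F0]; linarith [h.hε]
    have h3 : |exp (F 0) * (exp (F 0) - 1)| ≤ 1 / 4 := by
      rcases hy (F 0) with h3 | h3
      · exact h3
      · linarith
    rw [← h1] at h3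
    simp only [mul_zero, zero_mul, zero_add] at h3
    have h4 : ((0 : ℝ) ^ 2) = 0 := by norm_num
    rw [h4]
    rw [abs_le] at h3 ⊢
    constructor <;> linarith [h3.1, h3.2]
  · have h1 := u_le h hr
    have h2 := u_pos h h0
    have e : 2 * deriv F (r ^ 2) = -(uu F r / r) := by
      rw [uu]; field_simp
    rw [e, abs_neg, abs_of_nonneg (div_nonneg h2.le hr), div_le_iff₀ h0]
    linarith

theorem P1b_H {ρ ε : ℝ} {F : ℝ → ℝ} (h : Wall ρ ε F) (x w : ℂ) :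
    |4 * deriv (deriv F) (‖x‖ ^ 2) * (inner ℝ x w) ^ 2 + 2 * deriv F (‖x‖ ^ 2) * ‖w‖ ^ 2|
      ≤ 1 / 4 * ‖w‖ ^ 2 ∧
    (‖x‖ ≤ ρ → 4 * deriv (deriv F) (‖x‖ ^ 2) * (inner ℝ x w) ^ 2 +
      2 * deriv F (‖x‖ ^ 2) * ‖w‖ ^ 2 ≤ -(0.4 * ε * ‖w‖ ^ 2)) := by
  rcases eq_or_ne x 0 with hx0 | hx0
  · subst hx0
    simp only [inner_zero_left, norm_zero]
    have h1 := P1b_F'_bd h (le_refl 0)
    have h2 : ((0 : ℝ) ^ 2) = 0 := by norm_num
    rw [h2] at h1 ⊢
    constructor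
    · rw [mul_zero, zero_add, abs_mul, abs_of_nonneg (by positivity : 0 ≤ ‖w‖ ^ 2)]
      nlinarith [sq_nonneg ‖w‖]
    · intro _
      have h3 : 2 * deriv F 0 ≤ -(0.4 * ε) := by
        have h4 := h.ode 0 le_rfl
        have h5 : exp (F 0) * (exp (F 0) - 1) ≤ -(0.8 * ε) := by
          rw [h.F0]
          have e1 := h.hε
          have e2 := h.hε'
          have e3 := Real.add_one_le_exp (-ε)
          have e4 : exp (-ε) ≤ 1 / (1 + ε) := by
            rw [exp_neg, ← one_div]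
            apply one_div_le_one_div_of_le (by positivity)
            have := Real.add_one_le_exp ε
            linarith
          have e5 : 1 / (1 + ε) ≤ 1 - 0.9 * ε := by
            rw [div_le_iff₀ (by positivity)]
            nlinarith
          have e6 : 0.9 * ε ≤ 1 - exp (-ε) := by linarith
          have e7 : 0.99 ≤ exp (-ε) := by linarith
          nlinarith [mul_le_mul e7 e6 (by positivity) (exp_pos _).le]
        rw [mul_zero, zero_mul, zero_add] at h4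
        linarith
      nlinarith [sq_nonneg ‖w‖]
  · have hr : 0 < ‖x‖ := norm_pos_iff.mpr hx0
    set r := ‖x‖ with hrdef
    have hcs : (inner ℝ x w) ^ 2 ≤ r ^ 2 * ‖w‖ ^ 2 := by
      have h1 := abs_real_inner_le_norm x w
      have h2 : |inner ℝ x w| ^ 2 ≤ (‖x‖ * ‖w‖) ^ 2 := pow_le_pow_left₀ (abs_nonneg _) h1 2
      rw [sq_abs, mul_pow] at h2
      exact h2
    set c : ℝ := (inner ℝ x w) ^ 2 / r ^ 2 with hc
    have hc0 : 0 ≤ c := by positivity
    have hc1 : c ≤ ‖w‖ ^ 2 := by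
      rw [hc, div_le_iff₀ (by positivity)]
      linarith
    have hode := h.ode (r ^ 2) (by positivity)
    have hyq : exp (F (r ^ 2)) * (exp (F (r ^ 2)) - 1) = -(yy F r * qq F r) := by
      unfold yy qq; ring
    have hu : 2 * deriv F (r ^ 2) = -(uu F r / r) := by rw [uu]; field_simp
    have e : 4 * deriv (deriv F) (r ^ 2) * (inner ℝ x w) ^ 2 + 2 * deriv F (r ^ 2) * ‖w‖ ^ 2 =
        -(c * (yy F r * qq F r - uu F r / r)) - (‖w‖ ^ 2 - c) * (uu F r / r) := by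
      have e1 : 4 * deriv (deriv F) (r ^ 2) * (inner ℝ x w) ^ 2 =
          c * (4 * r ^ 2 * deriv (deriv F) (r ^ 2)) := by
        rw [hc]; field_simp
      have e2 : 4 * r ^ 2 * deriv (deriv F) (r ^ 2) = -(yy F r * qq F r) + 2 * (uu F r / r) := by
        have e3 : 4 * deriv F (r ^ 2) = -(2 * (uu F r / r)) := by linarith
        rw [hyq, e3] at hode
        linarith
      rw [e1, e2, hu]
      ring
    rw [e]
    have hur0 : 0 ≤ uu F r / r := div_nonneg (u_pos h hr).le hr.le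
    have hur1 : uu F r / r ≤ 1 / 8 := by
      rw [div_le_iff₀ hr]
      have := u_le h hr.le
      linarith
    have hyq0 : 0 ≤ yy F r * qq F r := by
      have h1 := u_lt_q h hr.le
      have h2 := u_pos h hr
      have h3 : 0 < yy F r := exp_pos _
      exact mul_nonneg h3.le (h2.trans h1).le
    have hyq1 : yy F r * qq F r ≤ 1 / 4 := by
      have : qq F r = 1 - yy F r := rfl
      rw [this]
      nlinarith [sq_nonneg (yy F r - 1 / 2)]
    constructor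
    · rw [abs_le]
      constructor
      · nlinarith [mul_le_mul_of_nonneg_left hyq1 hc0, mul_nonneg hc0 hyq0,
          mul_nonneg (sub_nonneg.mpr hc1) hur0, mul_nonneg hc0 hur0,
          mul_le_mul_of_nonneg_left hur1 (sub_nonneg.mpr hc1)]
      · nlinarith [mul_le_mul_of_nonneg_left hyq1 hc0, mul_nonneg hc0 hyq0,
          mul_nonneg (sub_nonneg.mpr hc1) hur0, mul_nonneg hc0 hur0,
          mul_le_mul_of_nonneg_left hur1 hc0]
    · intro hrρ
      have h1 := u'_ge h hr hrρ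
      have h2 : 0.4 * ε ≤ uu F r / r := by
        rw [le_div_iff₀ hr]
        exact u_ge h hr.le hrρ
      nlinarith [mul_le_mul_of_nonneg_left h1 hc0,
        mul_le_mul_of_nonneg_left h2 (sub_nonneg.mpr hc1)]

/-- second difference from a bound for the second derivative -/
theorem P1b_mid {f f' f'' : ℝ → ℝ} (h1 : ∀ t, HasDerivAt f (f' t) t)
    (h2 : ∀ t, HasDerivAt f' (f'' t) t) (K : ℝ) (hK : ∀ t ∈ Icc (-1 : ℝ) 1, f'' t ≤ K) :
    f 1 + f (-1) - 2 * f 0 ≤ K := by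
  have hg : ConcaveOn ℝ (Icc (-1 : ℝ) 1) (fun t => f t - K / 2 * t ^ 2) := by
    have d1 : ∀ t, HasDerivAt (fun t => f t - K / 2 * t ^ 2) (f' t - K * t) t := by
      intro t
      have := (h1 t).sub ((hasDerivAt_pow 2 t).const_mul (K / 2))
      refine this.congr_deriv ?_
      push_cast
      ring
    have d2 : ∀ t, HasDerivAt (fun t => f' t - K * t) (f'' t - K) t := by
      intro t
      have := (h2 t).sub ((hasDerivAt_id t).const_mul K)
      refine this.congr_deriv ?_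
      ring
    refine concaveOn_of_hasDerivWithinAt2_nonpos (convex_Icc _ _)
      (fun t _ => (d1 t).continuousAt.continuousWithinAt)
      (fun t _ => (d1 t).hasDerivWithinAt) (fun t _ => (d2 t).hasDerivWithinAt) ?_
    intro t ht
    have := hK t (interior_subset ht)
    linarith
  have h3 := hg.2 (x := -1) (y := 1) ⟨le_refl _, by norm_num⟩ ⟨by norm_num, le_refl _⟩
    (by norm_num : (0 : ℝ) ≤ 1 / 2) (by norm_num : (0 : ℝ) ≤ 1 / 2) (by norm_num)
  simp only [smul_eq_mul] at h3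
  norm_num at h3
  linarith

theorem P1b_line {ρ ε : ℝ} {F : ℝ → ℝ} (h : Wall ρ ε F) (m w : ℂ) :
    ∀ t : ℝ, HasDerivAt (fun t : ℝ => SS F (m + t • w))
        (deriv F (‖m + t • w‖ ^ 2) * (2 * inner ℝ (m + t • w) w)) t ∧
      HasDerivAt (fun t : ℝ => deriv F (‖m + t • w‖ ^ 2) * (2 * inner ℝ (m + t • w) w))
        (4 * deriv (deriv F) (‖m + t • w‖ ^ 2) * (inner ℝ (m + t • w) w) ^ 2 +
          2 * deriv F (‖m + t • w‖ ^ 2) * ‖w‖ ^ 2) t := by
  intro t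
  have hl : HasDerivAt (fun t : ℝ => m + t • w) w t := by
    have := ((hasDerivAt_id t).smul_const w).const_add m
    simpa using this
  have hN : HasDerivAt (fun t : ℝ => ‖m + t • w‖ ^ 2) (2 * inner ℝ (m + t • w) w) t := by
    have := hl.norm_sq
    simpa using this
  have hin : HasDerivAt (fun t : ℝ => inner ℝ (m + t • w) w) (‖w‖ ^ 2) t := by
    have := hl.inner ℝ (hasDerivAt_const t w)
    simpa [real_inner_self_eq_norm_sq] using this
  constructor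
  · exact (P1b_F1 h _).comp t hN
  · have h1 : HasDerivAt (fun t : ℝ => deriv F (‖m + t • w‖ ^ 2))
        (deriv (deriv F) (‖m + t • w‖ ^ 2) * (2 * inner ℝ (m + t • w) w)) t :=
      (P1b_F2 h _).comp t hN
    have h2 := h1.mul (hin.const_mul 2)
    refine h2.congr_deriv ?_
    ring

theorem SS_mid {ρ ε : ℝ} {F : ℝ → ℝ} (h : Wall ρ ε F) (z z' : ℂ) :
    |SS F z + SS F z' - 2 * SS F ((z + z') / 2)| ≤ ‖z - z'‖ ^ 2 := by
  set m : ℂ := (z + z') / 2 with hm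
  set w : ℂ := (z - z') / 2 with hw
  have e1 : m + (1 : ℝ) • w = z := by rw [hm, hw, one_smul]; ring
  have e2 : m + (-1 : ℝ) • w = z' := by rw [hm, hw, neg_smul, one_smul]; ring
  have e0 : m + (0 : ℝ) • w = m := by rw [zero_smul, add_zero]
  have hwn : ‖w‖ ^ 2 = ‖z - z'‖ ^ 2 / 4 := by
    rw [hw, norm_div, div_pow]
    norm_num
  have hl := P1b_line h m w
  have u1 := P1b_mid (fun t => (hl t).1) (fun t => (hl t).2) (1 / 4 * ‖w‖ ^ 2)
    (fun t _ => (abs_le.mp (P1b_H h (m + t • w) w).1).2)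
  have u2 := P1b_mid (fun t => (hl t).1.neg) (fun t => (hl t).2.neg) (1 / 4 * ‖w‖ ^ 2)
    (fun t _ => by
      have := (abs_le.mp (P1b_H h (m + t • w) w).1).1
      linarith)
  simp only [Pi.neg_apply] at u2
  rw [e1, e2, e0] at u1 u2
  rw [abs_le]
  constructor <;> nlinarith [sq_nonneg ‖z - z'‖]

theorem SS_concave {ρ ε : ℝ} {F : ℝ → ℝ} (h : Wall ρ ε F) (z z' : ℂ) (hz : ‖z‖ ≤ ρ) (hz' : ‖z'‖ ≤ ρ) :
    SS F z + SS F z' - 2 * SS F ((z + z') / 2) ≤ -(0.1 * ε * ‖z - z'‖ ^ 2) := by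
  set m : ℂ := (z + z') / 2 with hm
  set w : ℂ := (z - z') / 2 with hw
  have e1 : m + (1 : ℝ) • w = z := by rw [hm, hw, one_smul]; ring
  have e2 : m + (-1 : ℝ) • w = z' := by rw [hm, hw, neg_smul, one_smul]; ring
  have e0 : m + (0 : ℝ) • w = m := by rw [zero_smul, add_zero]
  have hwn : ‖w‖ ^ 2 = ‖z - z'‖ ^ 2 / 4 := by
    rw [hw, norm_div, div_pow]
    norm_num
  have hl := P1b_line h m w
  have hball : ∀ t ∈ Icc (-1 : ℝ) 1, ‖m + t • w‖ ≤ ρ := by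
    intro t ht
    have e : m + t • w = ((1 + t) / 2) • z + ((1 - t) / 2) • z' := by
      rw [hm, hw]
      simp only [Complex.real_smul]
      push_cast
      ring
    rw [e]
    calc ‖((1 + t) / 2) • z + ((1 - t) / 2) • z'‖ ≤ ‖((1 + t) / 2) • z‖ + ‖((1 - t) / 2) • z'‖ :=
          norm_add_le _ _
      _ = (1 + t) / 2 * ‖z‖ + (1 - t) / 2 * ‖z'‖ := by
          rw [norm_smul, norm_smul, Real.norm_of_nonneg (by linarith [ht.1]),
            Real.norm_of_nonneg (by linarith [ht.2])]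
      _ ≤ (1 + t) / 2 * ρ + (1 - t) / 2 * ρ := by
          have h1 : 0 ≤ (1 + t) / 2 := by linarith [ht.1]
          have h2 : 0 ≤ (1 - t) / 2 := by linarith [ht.2]
          gcongr
      _ = ρ := by ring
  have u1 := P1b_mid (fun t => (hl t).1) (fun t => (hl t).2) (-(0.4 * ε * ‖w‖ ^ 2))
    (fun t ht => (P1b_H h (m + t • w) w).2 (hball t ht))
  rw [e1, e2, e0, hwn] at u1
  linarith

theorem P1b_r {ρ : ℝ} (hρ : 100 ≤ ρ) {r : ℝ} (hr : ρ ≤ r) :
    1 + r ≤ (1 + ρ) * (1 + (r - ρ) / 40) := by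
  nlinarith [mul_nonneg (sub_nonneg.mpr hρ) (sub_nonneg.mpr hr)]

theorem P1b_y {ρ ε : ℝ} {F : ℝ → ℝ} (h : Wall ρ ε F) {r : ℝ} (hr : 0 ≤ r) (n : ℕ) (hn : n ≤ 18) :
    exp (F (r ^ 2)) * (1 + r) ^ n ≤ (1 + ρ) ^ n := by
  have hρ := h.hρ
  rcases le_or_gt r ρ with h1 | h1
  · have h2 : exp (F (r ^ 2)) ≤ 1 := by
      rw [← exp_zero]
      apply exp_le_exp.mpr
      have := s_le h hr
      have := h.hε
      linarith
    calc exp (F (r ^ 2)) * (1 + r) ^ n ≤ 1 * (1 + ρ) ^ n := by gcongr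
      _ = _ := one_mul _
  · have h2 := y_out_pow h h1.le
    have h3 := P1b_r hρ h1.le
    have h4 : 1 ≤ 1 + (r - ρ) / 40 := by linarith
    have h5 : (1 + (r - ρ) / 40) ^ n ≤ (1 + (r - ρ) / 40) ^ 18 := pow_le_pow_right₀ h4 hn
    have h6 : 0 < 1 + (r - ρ) / 40 := by linarith
    calc exp (F (r ^ 2)) * (1 + r) ^ n ≤ (1 / 2 * ((1 + (r - ρ) / 40) ^ 18)⁻¹) *
          ((1 + ρ) * (1 + (r - ρ) / 40)) ^ n := by
            have : exp (F (r ^ 2)) ≤ 1 / 2 * ((1 + (r - ρ) / 40) ^ 18)⁻¹ := h2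
            gcongr
      _ = 1 / 2 * (1 + ρ) ^ n * (((1 + (r - ρ) / 40) ^ 18)⁻¹ * (1 + (r - ρ) / 40) ^ n) := by
            rw [mul_pow]; ring
      _ ≤ 1 / 2 * (1 + ρ) ^ n * (((1 + (r - ρ) / 40) ^ 18)⁻¹ * (1 + (r - ρ) / 40) ^ 18) := by
            gcongr
      _ = 1 / 2 * (1 + ρ) ^ n := by
            rw [inv_mul_cancel₀ (by positivity), mul_one]
      _ ≤ (1 + ρ) ^ n := by
            have : 0 ≤ (1 + ρ) ^ n := by positivity
            linarith

theorem P1b_fderiv2 {ρ ε : ℝ} {F : ℝ → ℝ} (h : Wall ρ ε F) (z : ℂ) :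
    ‖fderiv ℝ (fderiv ℝ (SS F)) z‖ ≤ |2 * deriv F (‖z‖ ^ 2)| +
      |4 * ‖z‖ ^ 2 * deriv (deriv F) (‖z‖ ^ 2)| := by
  have e : fderiv ℝ (SS F) = fun w : ℂ => (2 * deriv F (‖w‖ ^ 2)) • innerSL ℝ w := by
    funext w
    exact P1b_fderiv h w
  have h1 : HasFDerivAt (fun w : ℂ => 2 * deriv F (‖w‖ ^ 2))
      ((2 : ℝ) • ((2 * deriv (deriv F) (‖z‖ ^ 2)) • innerSL ℝ z)) z :=
    (P1b_fd z (P1b_F2 h (‖z‖ ^ 2))).const_mul 2
  have h2 : HasFDerivAt (fun w : ℂ => innerSL ℝ w) (innerSL ℝ : ℂ →L[ℝ] ℂ →L[ℝ] ℝ) z :=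
    (innerSL ℝ : ℂ →L[ℝ] ℂ →L[ℝ] ℝ).hasFDerivAt
  have h3 : HasFDerivAt (fun w : ℂ => (2 * deriv F (‖w‖ ^ 2)) • innerSL ℝ w) _ z := h1.smul h2
  rw [e, h3.fderiv]
  refine ContinuousLinearMap.opNorm_le_bound _ (by positivity) ?_
  intro k
  simp only [add_apply, smul_apply,
    ContinuousLinearMap.smulRight_apply]
  refine (norm_add_le _ _).trans ?_
  rw [norm_smul, norm_smul, innerSL_apply_norm, innerSL_apply_norm, Real.norm_eq_abs,
    Real.norm_eq_abs, add_mul]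
  refine add_le_add le_rfl ?_
  simp only [smul_eq_mul, innerSL_apply_apply]
  rw [abs_mul, abs_mul, abs_mul, abs_mul]
  have h4 := abs_real_inner_le_norm z k
  rw [abs_of_pos (by norm_num : (0 : ℝ) < 2),
    abs_of_nonneg (by positivity : 0 ≤ 4 * ‖z‖ ^ 2)]
  calc 2 * (2 * |deriv (deriv F) (‖z‖ ^ 2)| * |inner ℝ z k|) * ‖z‖
      ≤ 2 * (2 * |deriv (deriv F) (‖z‖ ^ 2)| * (‖z‖ * ‖k‖)) * ‖z‖ := by gcongr
    _ = 4 * ‖z‖ ^ 2 * |deriv (deriv F) (‖z‖ ^ 2)| * ‖k‖ := by ring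

/-- decay of the derivatives -/
theorem SS_decay {ρ ε : ℝ} {F : ℝ → ℝ} (h : Wall ρ ε F) : ∃ C : ℝ, ∀ z : ℂ,
    ‖fderiv ℝ (SS F) z‖ * (1 + ‖z‖) ≤ C ∧ ‖fderiv ℝ (fderiv ℝ (SS F)) z‖ * (1 + ‖z‖) ^ 2 ≤ C ∧
    exp (SS F z) * (1 + ‖z‖) ^ 10 ≤ C := by
  have hρ := h.hρ
  refine ⟨max (1 + 3 * ρ) (max (3 * (1 + ρ) ^ 2 + 36 * ρ) ((1 + ρ) ^ 10)), ?_⟩
  intro z
  set r := ‖z‖ with hr
  have hr0 : 0 ≤ r := norm_nonneg z
  refine ⟨le_max_of_le_left ?_, le_max_of_le_right (le_max_of_le_left ?_),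
    le_max_of_le_right (le_max_of_le_right (P1b_y h hr0 10 (by norm_num)))⟩
  · rw [P1b_fderiv h, norm_smul, innerSL_apply_norm, Real.norm_eq_abs, ← hr]
    have hu : |2 * deriv F (r ^ 2)| * r = uu F r := by
      rw [← abs_of_nonneg hr0, ← abs_mul, abs_of_nonneg hr0]
      have e : 2 * deriv F (r ^ 2) * r = -uu F r := by rw [uu]; ring
      rw [e, abs_neg, abs_of_nonneg (P1a_u_nonneg h hr0)]
    rw [hu]
    have h1 : uu F r ≤ 1 := by
      have h1 := u_lt_q h hr0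
      have h2 : qq F r ≤ 1 := by
        unfold qq
        have := exp_pos (F (r ^ 2))
        linarith
      linarith
    have h2 := ru_le h hr0
    linarith
  · have h1 := P1b_fderiv2 h z
    rw [← hr] at h1
    have h2 := P1b_F'_bd h hr0
    have h3 : |4 * r ^ 2 * deriv (deriv F) (r ^ 2)| ≤
        exp (F (r ^ 2)) + 2 * |2 * deriv F (r ^ 2)| := by
      have hode := h.ode (r ^ 2) (by positivity)
      have e : 4 * r ^ 2 * deriv (deriv F) (r ^ 2) =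
          exp (F (r ^ 2)) * (exp (F (r ^ 2)) - 1) - 2 * (2 * deriv F (r ^ 2)) := by linarith
      rw [e]
      refine (abs_sub _ _).trans ?_
      rw [abs_mul 2, abs_of_pos (by norm_num : (0 : ℝ) < 2)]
      refine add_le_add ?_ le_rfl
      rw [abs_mul, abs_of_pos (exp_pos _)]
      have h4 : exp (F (r ^ 2)) ≤ 1 := by
        rw [← exp_zero]
        apply exp_le_exp.mpr
        have := s_le h hr0
        have := h.hε
        linarith
      have h5 := exp_pos (F (r ^ 2))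
      have h6 : |exp (F (r ^ 2)) - 1| ≤ 1 := by
        rw [abs_le]; constructor <;> linarith
      nlinarith
    have h4 : ‖fderiv ℝ (fderiv ℝ (SS F)) z‖ ≤ exp (F (r ^ 2)) + 3 * |2 * deriv F (r ^ 2)| := by
      linarith
    have h5 := P1b_y h hr0 2 (by norm_num)
    have h6 : |2 * deriv F (r ^ 2)| * (1 + r) ^ 2 ≤ 1 / 2 * (1 + ρ) ^ 2 + 12 * ρ := by
      rcases le_or_gt r 1 with h7 | h7
      · calc |2 * deriv F (r ^ 2)| * (1 + r) ^ 2 ≤ 1 / 8 * (1 + 1) ^ 2 := by gcongr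
          _ ≤ _ := by nlinarith
      · have hrp : 0 < r := by linarith
        have e : |2 * deriv F (r ^ 2)| = uu F r / r := by
          have e : 2 * deriv F (r ^ 2) = -(uu F r / r) := by
            rw [uu]; field_simp
          rw [e, abs_neg, abs_of_nonneg (div_nonneg (u_pos h hrp).le hr0)]
        have h8 := ru_le h hr0
        have h9 : uu F r / r ≤ 3 * ρ / r ^ 2 := by
          rw [div_le_div_iff₀ hrp (by positivity)]
          nlinarith
        rw [e]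
        calc uu F r / r * (1 + r) ^ 2 ≤ 3 * ρ / r ^ 2 * (r + r) ^ 2 := by
              gcongr
          _ = 12 * ρ := by field_simp; ring
          _ ≤ _ := by nlinarith [sq_nonneg (1 + ρ)]
    calc ‖fderiv ℝ (fderiv ℝ (SS F)) z‖ * (1 + r) ^ 2
        ≤ (exp (F (r ^ 2)) + 3 * |2 * deriv F (r ^ 2)|) * (1 + r) ^ 2 := by gcongr
      _ = exp (F (r ^ 2)) * (1 + r) ^ 2 + 3 * (|2 * deriv F (r ^ 2)| * (1 + r) ^ 2) := by ring
      _ ≤ (1 + ρ) ^ 2 + 3 * (1 / 2 * (1 + ρ) ^ 2 + 12 * ρ) := by gcongr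
      _ ≤ _ := by nlinarith [sq_nonneg (1 + ρ)]

end Pool.MP_ad5d82_an.Wl
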