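import Pool.Agent.Lib.MP_ad5d82_an.h24.P.P1a
import Pool.Agent.Lib.MP_ad5d82_an.h24.P.P1b

set_option autoImplicit false

namespace Pool.MP_ad5d82_an.Wl

open Real Set MeasureTheory Filter Topology
open scoped ContDiff

variable {ι : Type} [Fintype ι] [DecidableEq ι]

/-! umbrella -/

end Pool.MP_ad5d82_an.Wl
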