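import Pool.Agent.Lib.MP_ad5d82_an.h24.PDefs
import Pool.Agent.Lib.MP_ad5d82_an.h24.F.F1
import Pool.Agent.Lib.MP_ad5d82_an.h24.F.F6

set_option autoImplicit false

namespace Pool.MP_ad5d82_an.Wl

open Real Set MeasureTheory Filter Topology
open scoped ContDiff

variable {ι : Type} [Fintype ι] [DecidableEq ι]

/-! ### P2 the singular part -/

private theorem p2_v0_apply (B : Base ι) (x : ℂ) (j : ι) :
    v0 B x j = ∑ n, B.S.m (B.cp n) * B.S.T (B.cp n) j * lg (‖x - B.p n‖ ^ 2) := rfl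

private theorem p2_g0_apply (B : Base ι) (x : ℂ) (j : ι) :
    g0 B x j = ∑ n, B.S.m (B.cp n) * B.S.T (B.cp n) j * gam (x - B.p n) := rfl

theorem v0_lin (B : Base ι) (a : ι) (x : ℂ) :
    lin B.S a (v0 B x) = ∑ n, if B.cp n = a then lg (‖x - B.p n‖ ^ 2) else 0 := by
  unfold lin
  simp only [p2_v0_apply, Finset.mul_sum]
  rw [Finset.sum_comm]
  refine Finset.sum_congr rfl fun n _ => ?_
  have h1 : ∑ j, B.S.T a j * (B.S.m (B.cp n) * B.S.T (B.cp n) j * lg (‖x - B.p n‖ ^ 2)) =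
      B.S.m (B.cp n) * lg (‖x - B.p n‖ ^ 2) * ∑ j, B.S.T a j * B.S.T (B.cp n) j := by
    rw [Finset.mul_sum]
    exact Finset.sum_congr rfl fun j _ => by ring
  rw [h1, lin_complete]
  by_cases h : a = B.cp n
  · rw [if_pos h, if_pos h.symm, ← h]
    have := (B.S.m_pos a).ne'
    field_simp
  · rw [if_neg h, if_neg (fun h' => h h'.symm), mul_zero]

theorem v0_lin_nonpos (B : Base ι) (a : ι) (x : ℂ) : lin B.S a (v0 B x) ≤ 0 := by
  rw [v0_lin]
  refine Finset.sum_nonpos fun n _ => ?_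
  split_ifs
  · exact lg_nonpos _ (by positivity)
  · exact le_rfl

theorem v0_supp (B : Base ι) : ∃ Rv : ℝ, 1 ≤ Rv ∧ (∀ n, ‖B.p n‖ ≤ Rv) ∧
    ∀ x : ℂ, Rv ≤ ‖x‖ → v0 B x = 0 ∧ g0 B x = 0 := by
  have h0 : 0 ≤ ∑ n, ‖B.p n‖ := Finset.sum_nonneg fun _ _ => norm_nonneg _
  have hle : ∀ n, ‖B.p n‖ ≤ ∑ n, ‖B.p n‖ := fun n =>
    Finset.single_le_sum (f := fun n => ‖B.p n‖) (fun _ _ => norm_nonneg _) (Finset.mem_univ n)
  refine ⟨1 + ∑ n, ‖B.p n‖, by linarith, fun n => by linarith [hle n], fun x hx => ?_⟩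
  have hd : ∀ n, 1 ≤ ‖x - B.p n‖ := by
    intro n
    have h1 := norm_sub_norm_le x (B.p n)
    have h2 := hle n
    linarith
  constructor
  · ext j
    rw [p2_v0_apply]
    refine Finset.sum_eq_zero fun n _ => ?_
    rw [lg_zero _ (one_le_pow₀ (hd n)), mul_zero]
  · ext j
    rw [p2_g0_apply]
    refine Finset.sum_eq_zero fun n _ => ?_
    rw [gam_supp _ (hd n), mul_zero]

private theorem p2_lg_meas : Measurable lg := by
  unfold lg
  refine Real.measurable_log.mul ?_
  exact (Real.smoothTransition.continuous.comp (by fun_prop)).measurable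

private theorem p2_lgn_meas (p : ℂ) : Measurable fun x : ℂ => lg (‖x - p‖ ^ 2) :=
  p2_lg_meas.comp (by fun_prop)

theorem v0_meas (B : Base ι) : Measurable (v0 B) := by
  unfold v0
  refine (WithLp.measurable_toLp 2 _).comp (measurable_pi_lambda _ fun j => ?_)
  refine Finset.measurable_sum _ fun n _ => ?_
  exact (p2_lgn_meas (B.p n)).const_mul _

theorem v0_sq (B : Base ι) : Integrable (fun x => ‖v0 B x‖ ^ 2) volume := by
  set M : ℝ := ∑ j, ∑ n, (B.S.m (B.cp n) * B.S.T (B.cp n) j) ^ 2 with hM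
  have hint : Integrable (fun x : ℂ => M * ∑ n, lg (‖x - B.p n‖ ^ 2) ^ 2) volume :=
    (integrable_finsetSum _ fun n _ => lg_sq_integrable (B.p n)).const_mul M
  refine hint.mono' ((v0_meas B).norm.pow_const 2).aestronglyMeasurable
    (Filter.Eventually.of_forall fun x => ?_)
  rw [Real.norm_eq_abs, abs_of_nonneg (by positivity), EuclideanSpace.norm_sq_eq, hM,
    Finset.sum_mul]
  refine Finset.sum_le_sum fun j _ => ?_
  rw [Real.norm_eq_abs, sq_abs, p2_v0_apply]
  exact Finset.sum_mul_sq_le_sq_mul_sq _ _ _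

theorem g0_smooth (B : Base ι) : ContDiff ℝ ∞ (g0 B) := by
  rw [contDiff_euclidean]
  intro j
  have : (fun x => g0 B x j) = fun x => ∑ n, B.S.m (B.cp n) * B.S.T (B.cp n) j *
      gam (x - B.p n) := by
    funext x
    exact p2_g0_apply B x j
  rw [this]
  refine ContDiff.sum fun n _ => ?_
  exact contDiff_const.mul (gam_smooth.comp (contDiff_id.sub contDiff_const))

theorem g0_bound (B : Base ι) : ∃ C : ℝ, ∀ x, ‖g0 B x‖ ≤ C := by
  obtain ⟨Rv, h1, _, h2⟩ := v0_supp B
  obtain ⟨C, hC⟩ := (isCompact_closedBall (0 : ℂ) Rv).exists_bound_of_continuousOn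
    (g0_smooth B).continuous.continuousOn
  refine ⟨C, fun x => ?_⟩
  by_cases hx : ‖x‖ ≤ Rv
  · exact hC x (by simpa using hx)
  · push Not at hx
    rw [(h2 x hx.le).2, norm_zero]
    exact (norm_nonneg _).trans (hC 0 (by simp; linarith))

theorem exp_v0 (B : Base ι) (a : ι) : ∃ E : ℂ → ℝ, ContDiff ℝ ∞ E ∧ (∀ x, 0 ≤ E x ∧ E x ≤ 1) ∧
    (∀ x, (∀ n, B.cp n = a → x ≠ B.p n) → E x = exp (lin B.S a (v0 B x))) ∧
    (∀ n, B.cp n = a → E (B.p n) = 0) := by
  obtain ⟨E, hE1, hE2, hE3⟩ := exp_lg_smooth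
  have h01 : ∀ t : ℝ, 0 ≤ t → 0 ≤ E t ∧ E t ≤ 1 := by
    intro t ht
    rcases ht.eq_or_lt with h | h
    · rw [← h, hE3]
      exact ⟨le_rfl, zero_le_one⟩
    · rw [hE2 t h]
      exact ⟨(Real.exp_pos _).le, Real.exp_le_one_iff.2 (lg_nonpos t ht)⟩
  refine ⟨fun x => ∏ n, if B.cp n = a then E (‖x - B.p n‖ ^ 2) else 1, ?_, ?_, ?_, ?_⟩
  · refine contDiff_prod fun n _ => ?_
    split_ifs
    · exact hE1.comp ((contDiff_norm_sq ℝ).comp (contDiff_id.sub contDiff_const))
    · exact contDiff_const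
  · intro x
    constructor
    · refine Finset.prod_nonneg fun n _ => ?_
      split_ifs
      · exact (h01 _ (by positivity)).1
      · exact zero_le_one
    · refine Finset.prod_le_one (fun n _ => ?_) fun n _ => ?_
      · split_ifs
        · exact (h01 _ (by positivity)).1
        · exact zero_le_one
      · split_ifs
        · exact (h01 _ (by positivity)).2
        · exact le_rfl
  · intro x hx
    simp only
    rw [v0_lin, Real.exp_sum]
    refine Finset.prod_congr rfl fun n _ => ?_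
    split_ifs with h
    · refine hE2 _ ?_
      have : x - B.p n ≠ 0 := sub_ne_zero.2 (hx n h)
      positivity
    · exact Real.exp_zero.symm
  · intro n hn
    simp only
    refine Finset.prod_eq_zero (Finset.mem_univ n) ?_
    rw [if_pos hn, sub_self, norm_zero]
    simp [hE3]

private theorem p2_lap_cont (D : ℂ → ℝ) (hD : ContDiff ℝ ∞ D) : Continuous (lapC D) := by
  have h1 : ∀ v : ℂ, ContDiff ℝ ∞ fun w => fderiv ℝ D w v := fun v =>
    (hD.fderiv_right (by simp)).clm_apply contDiff_const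
  have h2 : ∀ v : ℂ, Continuous fun z => fderiv ℝ (fun w => fderiv ℝ D w v) z v := fun v =>
    (((h1 v).fderiv_right (m := ∞) (by simp)).clm_apply contDiff_const).continuous
  exact (h2 1).add (h2 Complex.I)

/-- `Δ⟨1,v₀⟩ = 4π Σ m δ - ⟨1,g₀⟩`, tested. -/
theorem v0_lap (B : Base ι) (D : ℂ → ℝ) (hD : ContDiff ℝ ∞ D) :
    ∫ x, Real.sqrt (∑ a, B.S.m a) * (v0 B x) B.S.o * lapC D x
      = 4 * π * ∑ n, B.S.m (B.cp n) * D (B.p n)
        - ∫ x, Real.sqrt (∑ a, B.S.m a) * (g0 B x) B.S.o * D x := by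
  have e1 : ∀ x, Real.sqrt (∑ a, B.S.m a) * (v0 B x) B.S.o * lapC D x =
      ∑ n, B.S.m (B.cp n) * (lg (‖x - B.p n‖ ^ 2) * lapC D x) := by
    intro x
    rw [p2_v0_apply, Finset.mul_sum, Finset.sum_mul]
    refine Finset.sum_congr rfl fun n _ => ?_
    have := B.S.T_o (B.cp n)
    calc Real.sqrt (∑ a, B.S.m a) * (B.S.m (B.cp n) * B.S.T (B.cp n) B.S.o *
          lg (‖x - B.p n‖ ^ 2)) * lapC D x
        = (B.S.T (B.cp n) B.S.o * Real.sqrt (∑ a, B.S.m a)) * (B.S.m (B.cp n) *
          (lg (‖x - B.p n‖ ^ 2) * lapC D x)) := by ring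
      _ = _ := by rw [this, one_mul]
  have e2 : ∀ x, Real.sqrt (∑ a, B.S.m a) * (g0 B x) B.S.o * D x =
      ∑ n, B.S.m (B.cp n) * (gam (x - B.p n) * D x) := by
    intro x
    rw [p2_g0_apply, Finset.mul_sum, Finset.sum_mul]
    refine Finset.sum_congr rfl fun n _ => ?_
    have := B.S.T_o (B.cp n)
    calc Real.sqrt (∑ a, B.S.m a) * (B.S.m (B.cp n) * B.S.T (B.cp n) B.S.o *
          gam (x - B.p n)) * D x
        = (B.S.T (B.cp n) B.S.o * Real.sqrt (∑ a, B.S.m a)) * (B.S.m (B.cp n) *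
          (gam (x - B.p n) * D x)) := by ring
      _ = _ := by rw [this, one_mul]
  simp only [e1, e2]
  have hlap := p2_lap_cont D hD
  have i1 : ∀ n, Integrable (fun x => lg (‖x - B.p n‖ ^ 2) * lapC D x) volume := by
    intro n
    obtain ⟨M, hM⟩ := (isCompact_closedBall (B.p n) 1).exists_bound_of_continuousOn
      hlap.continuousOn
    refine ((lg_integrable (B.p n)).norm.const_mul M).mono'
      ((p2_lgn_meas (B.p n)).mul hlap.measurable).aestronglyMeasurable
      (Filter.Eventually.of_forall fun x => ?_)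
    by_cases hx : ‖x - B.p n‖ ≤ 1
    · have h1 := hM x (by simpa [dist_eq_norm] using hx)
      rw [norm_mul, mul_comm]
      exact mul_le_mul_of_nonneg_right h1 (norm_nonneg _)
    · push Not at hx
      rw [lg_zero _ (one_le_pow₀ hx.le)]
      simp
  have i2 : ∀ n, Integrable (fun x => gam (x - B.p n) * D x) volume := by
    intro n
    have hc : Continuous fun x => gam (x - B.p n) * D x :=
      (gam_smooth.continuous.comp (continuous_id.sub continuous_const)).mul hD.continuous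
    refine hc.integrable_of_hasCompactSupport ?_
    refine HasCompactSupport.intro (isCompact_closedBall (B.p n) 1) fun x hx => ?_
    have : 1 ≤ ‖x - B.p n‖ := by
      have : ¬ (dist x (B.p n) ≤ 1) := by simpa using hx
      rw [dist_eq_norm] at this
      exact (not_le.1 this).le
    rw [gam_supp _ this, zero_mul]
  rw [integral_finsetSum _ fun n _ => (i1 n).const_mul _,
    integral_finsetSum _ fun n _ => (i2 n).const_mul _]
  simp only [integral_const_mul]
  rw [Finset.mul_sum, ← Finset.sum_sub_distrib]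
  refine Finset.sum_congr rfl fun n _ => ?_
  rw [lg_laplacian (B.p n) D hD]
  ring

end Pool.MP_ad5d82_an.Wl
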