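import Pool.Agent.Lib.MP_ad5d82_an.h24.PDefs
import Pool.Agent.Lib.MP_ad5d82_an.h24.F.F4
import Pool.Agent.Lib.MP_ad5d82_an.h24.P.P1

set_option autoImplicit false

namespace Pool.MP_ad5d82_an.Wl

open Real Set MeasureTheory Filter Topology
open scoped ContDiff

variable {ι : Type} [Fintype ι] [DecidableEq ι]

/-! ### P3 the potential outside `R₀` -/
/-- Lipschitz modulus of the truncated remainder. -/
noncomputable def LL (C δ ρ : ℝ) (x : ℂ) : ℝ :=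
  if ‖x‖ < ρ / 2 then C * δ else (ρ ^ 5)⁻¹ * wgt ρ ‖x‖

theorem tau_pos {δ ρ : ℝ} (hδ : 0 < δ) (hρ : 0 < ρ) (x : ℂ) : 0 < tau δ ρ x := by
  unfold tau
  split_ifs
  · exact hδ
  · have := Real.posLog_nonneg (x := ‖x‖ / ρ)
    positivity

private lemma p3_core (C δ ρ : ℝ) (hC : 0 < C) (hρ1 : 1 ≤ ρ) (hρ2 : C ≤ ρ)
    (hρ3 : 300 * 2 ^ 16 * C ≤ ρ) (x : ℂ) (hx : ρ / 2 ≤ ‖x‖) (M : ℝ)
    (hM : exp M ≤ 100 * ((1 + ‖x‖ / ρ) ^ 16)⁻¹ * 2 ^ 16) :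
    LT C (tau δ ρ x) M ≤ (ρ ^ 5)⁻¹ * wgt ρ ‖x‖ := by
  have hρ0 : 0 < ρ := by linarith
  have hx0 : 0 < ‖x‖ := by linarith
  unfold LT tau
  rw [if_neg (not_lt.2 hx)]
  set t : ℝ := ‖x‖ / ρ with ht
  have ht0 : 0 < t := by positivity
  have hl0 : 0 ≤ Real.posLog t := Real.posLog_nonneg
  have hl1 : Real.posLog t ≤ t := by
    rw [Real.posLog_def]
    apply max_le ht0.le
    have := Real.log_le_sub_one_of_pos ht0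
    linarith
  have hle : exp (Real.posLog t) ≤ 1 + t := by
    rw [Real.posLog_def]
    change exp (max 0 (Real.log t)) ≤ 1 + t
    rcases le_total 0 (Real.log t) with h | h
    · rw [max_eq_right h, Real.exp_log ht0]; linarith
    · rw [max_eq_left h, Real.exp_zero]; linarith
  -- the exponential
  have hCρ : C * (ρ ^ 6)⁻¹ ≤ 1 := by
    rw [← div_eq_mul_inv, div_le_one (by positivity)]
    calc C ≤ ρ := hρ2
      _ = ρ ^ 1 := (pow_one ρ).symm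
      _ ≤ ρ ^ 6 := pow_le_pow_right₀ hρ1 (by norm_num)
  have hexp : exp (C * ((ρ ^ 6)⁻¹ * (1 + Real.posLog t))) ≤ 3 * (1 + t) := by
    have h1 : C * ((ρ ^ 6)⁻¹ * (1 + Real.posLog t)) ≤ 1 + Real.posLog t := by
      rw [← mul_assoc]
      exact mul_le_of_le_one_left (by linarith) hCρ
    calc exp (C * ((ρ ^ 6)⁻¹ * (1 + Real.posLog t))) ≤ exp (1 + Real.posLog t) := exp_le_exp.2 h1
      _ = exp 1 * exp (Real.posLog t) := exp_add _ _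
      _ ≤ 3 * (1 + t) := by
          apply mul_le_mul _ hle (exp_pos _).le (by norm_num)
          have := Real.exp_one_lt_d9
          linarith
  have hw : ((1 + t) ^ 14)⁻¹ ≤ wgt ρ ‖x‖ := by
    unfold wgt
    apply le_min
    · exact inv_le_one_of_one_le₀ (one_le_pow₀ (by linarith))
    · have e : ρ / ‖x‖ = t⁻¹ := by rw [ht, inv_div]
      rw [e, inv_pow]
      apply inv_anti₀ (by positivity)
      calc t ^ 4 ≤ (1 + t) ^ 4 := pow_le_pow_left₀ ht0.le (by linarith) 4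
        _ ≤ (1 + t) ^ 14 := pow_le_pow_right₀ (by linarith) (by norm_num)
  have h1t : 0 < 1 + t := by linarith
  calc C * exp M * ((ρ ^ 6)⁻¹ * (1 + Real.posLog t)) *
        exp (C * ((ρ ^ 6)⁻¹ * (1 + Real.posLog t)))
      ≤ C * (100 * ((1 + t) ^ 16)⁻¹ * 2 ^ 16) * ((ρ ^ 6)⁻¹ * (1 + t)) * (3 * (1 + t)) := by
        gcongr
    _ = (300 * 2 ^ 16 * C) / ρ * ((ρ ^ 5)⁻¹ * ((1 + t) ^ 14)⁻¹) := by
        field_simp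
        ring
    _ ≤ 1 * ((ρ ^ 5)⁻¹ * wgt ρ ‖x‖) := by
        gcongr
        rw [div_le_one hρ0]
        exact hρ3
    _ = _ := one_mul _

theorem pot_out (S : Sys ι) : ∃ C : ℝ, 0 < C ∧ ∀ δ Ξ : ℝ, 0 < δ → δ ≤ 1 → 0 ≤ Ξ →
    ∃ ρ₀ : ℝ, ∀ ρ ε F, Wall ρ ε F → ρ₀ ≤ ρ → ∀ ξ : ℂ, ‖ξ‖ ≤ Ξ → ∀ x : ℂ, ∀ g g' : Ev ι,
    |RT S (tau δ ρ x) (SS F (x - ξ)) g| ≤ LL C δ ρ x * ‖g‖ ^ 2 ∧
    ‖fderiv ℝ (RT S (tau δ ρ x) (SS F (x - ξ))) g‖ ≤ LL C δ ρ x * ‖g‖ ∧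
    ‖fderiv ℝ (RT S (tau δ ρ x) (SS F (x - ξ))) g - fderiv ℝ (RT S (tau δ ρ x) (SS F (x - ξ))) g'‖
      ≤ LL C δ ρ x * ‖g - g'‖ ∧
    |RT S (tau δ ρ x) (SS F (x - ξ)) g' - RT S (tau δ ρ x) (SS F (x - ξ)) g
      - fderiv ℝ (RT S (tau δ ρ x) (SS F (x - ξ))) g (g' - g)| ≤ LL C δ ρ x * ‖g' - g‖ ^ 2 := by
  obtain ⟨C, hC, hb⟩ := RT_bounds S
  refine ⟨C * exp C, by positivity, fun δ Ξ hδ hδ1 hΞ => ?_⟩
  obtain ⟨ρ₁, hρ₁⟩ := SS_far Ξ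
  refine ⟨max (max 1 C) (max (300 * 2 ^ 16 * C) ρ₁), ?_⟩
  intro ρ ε F hW hρ ξ hξ x g g'
  have hρ1 : 1 ≤ ρ := ((le_max_left _ _).trans (le_max_left _ _)).trans hρ
  have hρ2 : C ≤ ρ := ((le_max_right _ _).trans (le_max_left _ _)).trans hρ
  have hρ3 : 300 * 2 ^ 16 * C ≤ ρ := ((le_max_left _ _).trans (le_max_right _ _)).trans hρ
  have hρ4 : ρ₁ ≤ ρ := ((le_max_right _ _).trans (le_max_right _ _)).trans hρ
  have hρ0 : 0 < ρ := by linarith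
  have hτ := tau_pos hδ hρ0 x
  have hs : SS F (x - ξ) ≤ 0 := (SS_neg hW _).le
  have hL : LT C (tau δ ρ x) (SS F (x - ξ)) ≤ LL (C * exp C) δ ρ x := by
    unfold LL
    split_ifs with hx
    · unfold LT tau
      rw [if_pos hx]
      have h1 : exp (SS F (x - ξ)) ≤ 1 := exp_le_one_iff.2 hs
      have h2 : exp (C * δ) ≤ exp C := exp_le_exp.2 (mul_le_of_le_one_right hC.le hδ1)
      calc C * exp (SS F (x - ξ)) * δ * exp (C * δ) ≤ C * 1 * δ * exp C := by gcongr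
        _ = C * exp C * δ := by ring
    · exact p3_core C δ ρ hC hρ1 hρ2 hρ3 x (not_lt.1 hx) _ (hρ₁ ρ ε F hW hρ4 ξ x hξ).1
  obtain ⟨h1, h2, h3, h4⟩ := hb (tau δ ρ x) (SS F (x - ξ)) hτ hs g g'
  refine ⟨h1.trans ?_, h2.trans ?_, h3.trans ?_, h4.trans ?_⟩
  all_goals exact mul_le_mul_of_nonneg_right hL (by positivity)

/-- the modulus `LT` of the joint estimates (F4) along `‖ξ‖ ≤ Ξ`. -/
theorem LT_le (C : ℝ) (hC : 0 < C) : ∀ δ Ξ : ℝ, 0 < δ → δ ≤ 1 → 0 ≤ Ξ →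
    ∃ ρ₀ : ℝ, ∀ ρ ε F, Wall ρ ε F → ρ₀ ≤ ρ → ∀ x : ℂ, ρ / 2 ≤ ‖x‖ → ∀ M : ℝ,
    (∃ ξ : ℂ, ‖ξ‖ ≤ Ξ ∧ M ≤ SS F (x - ξ)) → LT C (tau δ ρ x) M ≤ (ρ ^ 5)⁻¹ * wgt ρ ‖x‖ := by
  intro δ Ξ hδ hδ1 hΞ
  obtain ⟨ρ₁, hρ₁⟩ := SS_far Ξ
  refine ⟨max (max 1 C) (max (300 * 2 ^ 16 * C) ρ₁), ?_⟩
  intro ρ ε F hW hρ x hx M hM
  have hρ1 : 1 ≤ ρ := ((le_max_left _ _).trans (le_max_left _ _)).trans hρ
  have hρ2 : C ≤ ρ := ((le_max_right _ _).trans (le_max_left _ _)).trans hρ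
  have hρ3 : 300 * 2 ^ 16 * C ≤ ρ := ((le_max_left _ _).trans (le_max_right _ _)).trans hρ
  have hρ4 : ρ₁ ≤ ρ := ((le_max_right _ _).trans (le_max_right _ _)).trans hρ
  obtain ⟨ξ, hξ, hMS⟩ := hM
  exact p3_core C δ ρ hC hρ1 hρ2 hρ3 x hx M
    ((exp_le_exp.2 hMS).trans (hρ₁ ρ ε F hW hρ4 ξ x hξ).1)

end Pool.MP_ad5d82_an.Wl
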