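import Pool.Agent.Lib.MP_ad5d82_an.h24.PDefs
import Pool.Agent.Lib.MP_ad5d82_an.h24.H.H5w
import Pool.Agent.Lib.MP_ad5d82_an.h24.F.F3
import Pool.Agent.Lib.MP_ad5d82_an.h24.F.F4
import Pool.Agent.Lib.MP_ad5d82_an.h24.F.F5
import Pool.Agent.Lib.MP_ad5d82_an.h24.P.P0
import Pool.Agent.Lib.MP_ad5d82_an.h24.P.P1
import Pool.Agent.Lib.MP_ad5d82_an.h24.P.P2
import Pool.Agent.Lib.MP_ad5d82_an.h24.P.P3

set_option autoImplicit false

namespace Pool.MP_ad5d82_an.Wl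

open Real Set MeasureTheory Filter Topology
open scoped ContDiff

variable {ι : Type} [Fintype ι] [DecidableEq ι]

/-! ### P3b pointwise bounds and measurability of the potential density -/

private theorem p3b_coord (j : ι) : ContDiff ℝ ∞ (fun h : Ev ι => h j) :=
  (EuclideanSpace.proj (𝕜 := ℝ) j).contDiff

private theorem p3b_qV (S : Sys ι) : ContDiff ℝ ∞ (fun p : ℝ × Ev ι => qV S p.1 p.2) := by
  unfold qV vj
  refine ContDiff.sum fun j _ => ?_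
  refine ContDiff.mul ?_ (((p3b_coord j).comp contDiff_snd).pow 2)
  exact ((Real.contDiff_exp.comp (contDiff_const.mul contDiff_fst)).mul contDiff_const).sub
    (Real.contDiff_exp.comp contDiff_fst)

private theorem p3b_joint (B : Base ι) {δ R₀ ρ : ℝ} (hδ : 0 < δ) (hρ : 0 < ρ) (x : ℂ) :
    ContDiff ℝ ∞ (fun p : ℝ × Ev ι => pot B δ R₀ ρ x p.1 p.2) := by
  unfold pot
  by_cases hx : ‖x‖ < R₀
  · simp only [if_pos hx]
    exact (WW_smooth B.S).comp (contDiff_fst.prodMk (contDiff_const.add contDiff_snd))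
  · simp only [if_neg hx]
    exact (contDiff_const.mul (p3b_qV B.S)).add (RT_smooth B.S _ (tau_pos hδ hρ x))

private theorem p3b_partial {f : ℝ × Ev ι → ℝ} (hf : ContDiff ℝ ∞ f) (s : ℝ) (g k : Ev ι) :
    fderiv ℝ (fun g => f (s, g)) g k = fderiv ℝ f (s, g) (0, k) := by
  have h1 : HasFDerivAt f (fderiv ℝ f (s, g)) (s, g) :=
    ((hf.differentiable (by simp)) (s, g)).hasFDerivAt
  have h2 : HasFDerivAt (fun g : Ev ι => (s, g)) (ContinuousLinearMap.inr ℝ ℝ (Ev ι)) g :=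
    hasFDerivAt_prodMk_right s g
  have h3 : HasFDerivAt (fun g : Ev ι => f (s, g))
      ((fderiv ℝ f (s, g)).comp (ContinuousLinearMap.inr ℝ ℝ (Ev ι))) g := h1.comp g h2
  rw [h3.fderiv]
  rfl

theorem pot_diff (B : Base ι) {δ R₀ ρ : ℝ} (hδ : 0 < δ) (hρ : 0 < ρ) (x : ℂ) (s : ℝ) :
    ContDiff ℝ ∞ (pot B δ R₀ ρ x s) := by
  have h1 : ContDiff ℝ ∞ (fun g : Ev ι => (s, g)) := contDiff_const.prodMk contDiff_id
  have h2 := (p3b_joint (R₀ := R₀) B hδ hρ x).comp h1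
  exact h2

theorem pot_cont (B : Base ι) {δ R₀ ρ : ℝ} (hδ : 0 < δ) (hρ : 0 < ρ) (x : ℂ) :
    Continuous (fun p : ℝ × Ev ι => pot B δ R₀ ρ x p.1 p.2) :=
  (p3b_joint B hδ hρ x).continuous

theorem dpot_cont (B : Base ι) {δ R₀ ρ : ℝ} (hδ : 0 < δ) (hρ : 0 < ρ) (x : ℂ) (k : Ev ι) :
    Continuous (fun p : ℝ × Ev ι => fderiv ℝ (pot B δ R₀ ρ x p.1) p.2 k) := by
  have h1 : ∀ p : ℝ × Ev ι, fderiv ℝ (pot B δ R₀ ρ x p.1) p.2 k =
      fderiv ℝ (fun p : ℝ × Ev ι => pot B δ R₀ ρ x p.1 p.2) p (0, k) := fun p =>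
    p3b_partial (p3b_joint B hδ hρ x) p.1 p.2 k
  simp only [h1]
  exact ((p3b_joint B hδ hρ x).continuous_fderiv (by simp)).clm_apply continuous_const

theorem dpot_in (B : Base ι) {δ R₀ ρ : ℝ} (x : ℂ) (hx : ‖x‖ < R₀) (s : ℝ) (g k : Ev ι) :
    fderiv ℝ (pot B δ R₀ ρ x s) g k = fderiv ℝ (WW B.S s) (v0 B x + g) k := by
  have h : pot B δ R₀ ρ x s = fun g => WW B.S s (v0 B x + g) := by
    funext g
    unfold pot
    rw [if_pos hx]
  rw [h, fderiv_comp_add_left]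

private theorem p3b_RT_diff (B : Base ι) {δ ρ : ℝ} (hδ : 0 < δ) (hρ : 0 < ρ) (x : ℂ) (s : ℝ) :
    ContDiff ℝ ∞ (RT B.S (tau δ ρ x) s) :=
  (RT_smooth B.S _ (tau_pos hδ hρ x)).comp (contDiff_const.prodMk contDiff_id)

private theorem p3b_qV_diff (B : Base ι) (s : ℝ) :
    ContDiff ℝ ∞ (fun g : Ev ι => 1 / 2 * qV B.S s g) :=
  contDiff_const.mul ((p3b_qV B.S).comp (contDiff_const.prodMk contDiff_id))

theorem dpot_out (B : Base ι) {δ R₀ ρ : ℝ} (hδ : 0 < δ) (hρ : 0 < ρ) (x : ℂ) (hx : R₀ ≤ ‖x‖) (s : ℝ)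
    (g k : Ev ι) : fderiv ℝ (pot B δ R₀ ρ x s) g k
      = qVb B.S s g k + fderiv ℝ (RT B.S (tau δ ρ x) s) g k := by
  have h : pot B δ R₀ ρ x s = (fun g => 1 / 2 * qV B.S s g) + RT B.S (tau δ ρ x) s := by
    funext g
    unfold pot
    rw [if_neg (not_lt.2 hx)]
    rfl
  rw [h, fderiv_add (((p3b_qV_diff B s).differentiable (by simp)) g)
    (((p3b_RT_diff B hδ hρ x s).differentiable (by simp)) g), add_apply,
    fderiv_qV]

private theorem p3b_RR_cont (S : Sys ι) : Continuous (fun p : ℝ × Ev ι => RR S p.1 p.2) := by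
  unfold RR
  exact (WW_smooth S).continuous.sub (continuous_const.mul (p3b_qV S).continuous)

private theorem p3b_tau_meas (δ ρ : ℝ) : Measurable (tau δ ρ) := by
  unfold tau
  refine Measurable.ite (measurableSet_lt measurable_norm measurable_const) measurable_const ?_
  refine measurable_const.mul (measurable_const.add ?_)
  unfold Real.posLog
  exact measurable_const.max (Real.measurable_log.comp (measurable_norm.div_const ρ))

private theorem p3b_trc_meas {τ : ℂ → ℝ} (hτ : Measurable τ) {g : ℂ → Ev ι}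
    (hg : AEStronglyMeasurable g volume) :
    AEMeasurable (fun x => trc (τ x) (g x)) volume := by
  unfold trc
  refine (WithLp.measurable_toLp 2 _).comp_aemeasurable (aemeasurable_pi_lambda _ fun j => ?_)
  unfold ch
  have hj : AEMeasurable (fun x => g x j) volume :=
    (EuclideanSpace.proj (𝕜 := ℝ) j).continuous.measurable.comp_aemeasurable hg.aemeasurable
  refine hj.mul ?_
  refine Real.smoothTransition.continuous.measurable.comp_aemeasurable ?_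
  exact aemeasurable_const.sub ((hj.div hτ.aemeasurable).pow_const 2)

/-- measurability along measurable maps -/
theorem pot_meas (B : Base ι) {δ R₀ ρ : ℝ} (hδ : 0 < δ) (hρ : 0 < ρ) {s : ℂ → ℝ} (hs : Measurable s)
    {g : ℂ → Ev ι} (hg : AEStronglyMeasurable g volume) :
    AEStronglyMeasurable (fun x => pot B δ R₀ ρ x (s x) (g x)) volume := by
  have h1 : AEMeasurable (fun x => WW B.S (s x) (v0 B x + g x)) volume :=
    (WW_smooth B.S).continuous.measurable.comp_aemeasurable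
      (hs.aemeasurable.prodMk ((v0_meas B).aemeasurable.add hg.aemeasurable))
  have h2 : AEMeasurable (fun x => 1 / 2 * qV B.S (s x) (g x) +
      RT B.S (tau δ ρ x) (s x) (g x)) volume := by
    refine AEMeasurable.add ?_ ?_
    · have h8 := ((p3b_qV B.S).continuous.measurable.comp_aemeasurable
        ((hs.aemeasurable (μ := volume)).prodMk hg.aemeasurable)).const_mul (1 / 2 : ℝ)
      exact h8
    · have h9 := (p3b_RR_cont B.S).measurable.comp_aemeasurable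
        ((hs.aemeasurable (μ := volume)).prodMk (p3b_trc_meas (p3b_tau_meas δ ρ) hg))
      exact h9
  have hset : MeasurableSet {x : ℂ | ‖x‖ < R₀} := measurableSet_lt measurable_norm measurable_const
  have h3 : (fun x => pot B δ R₀ ρ x (s x) (g x)) = {x : ℂ | ‖x‖ < R₀}.piecewise
      (fun x => WW B.S (s x) (v0 B x + g x)) (fun x => 1 / 2 * qV B.S (s x) (g x) +
        RT B.S (tau δ ρ x) (s x) (g x)) := by
    classical
    funext x
    unfold pot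
    by_cases hx : ‖x‖ < R₀
    · rw [if_pos hx, Set.piecewise_eq_of_mem _ _ _ (show x ∈ {x : ℂ | ‖x‖ < R₀} from hx)]
    · rw [if_neg hx, Set.piecewise_eq_of_notMem _ _ _ (show x ∉ {x : ℂ | ‖x‖ < R₀} from hx)]
  rw [h3]
  exact AEStronglyMeasurable.piecewise hset h1.aestronglyMeasurable.restrict
    h2.aestronglyMeasurable.restrict

theorem dpot_meas (B : Base ι) {δ R₀ ρ : ℝ} (hδ : 0 < δ) (hρ : 0 < ρ) {s : ℂ → ℝ} (hs : Measurable s)
    {g k : ℂ → Ev ι} (hg : AEStronglyMeasurable g volume) (hk : AEStronglyMeasurable k volume) :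
    AEStronglyMeasurable (fun x => fderiv ℝ (pot B δ R₀ ρ x (s x)) (g x) (k x)) volume := by
  refine aestronglyMeasurable_of_tendsto_ae (u := atTop)
    (f := fun (n : ℕ) x => ((n : ℝ) + 1) • (pot B δ R₀ ρ x (s x) (g x + ((n : ℝ) + 1)⁻¹ • k x) -
      pot B δ R₀ ρ x (s x) (g x))) (fun n => ?_) (Filter.Eventually.of_forall fun x => ?_)
  · exact ((pot_meas B hδ hρ hs (hg.add (hk.const_smul (((n : ℝ) + 1)⁻¹)))).sub
      (pot_meas B hδ hρ hs hg)).const_smul ((n : ℝ) + 1)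
  · have h1 : HasFDerivAt (pot B δ R₀ ρ x (s x)) (fderiv ℝ (pot B δ R₀ ρ x (s x)) (g x)) (g x) :=
      (((pot_diff B hδ hρ x (s x)).differentiable (by simp)) (g x)).hasFDerivAt
    refine h1.lim (k x) (c := fun n : ℕ => (n : ℝ) + 1) ?_
    have h2 : ∀ n : ℕ, ‖(n : ℝ) + 1‖ = (n : ℝ) + 1 := fun n => by
      rw [Real.norm_eq_abs, abs_of_pos (by positivity)]
    simp only [h2]
    exact tendsto_atTop_add_const_right _ _ tendsto_natCast_atTop_atTop

private theorem p3b_SS_nonpos {B : Base ι} {δ R₀ Ξ : ℝ} (K : Cfg B δ R₀ Ξ) (z : ℂ) :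
    SS K.F z ≤ 0 := (SS_neg K.wall z).le

/-- all pointwise bounds, with constants depending on the configuration. -/
theorem pot_bounds (B : Base ι) (δ R₀ Ξ : ℝ) (hδ : 0 < δ) (hδ1 : δ ≤ 1) (hR : 1 ≤ R₀)
    (hΞ : 0 ≤ Ξ) : ∃ ρ₀ : ℝ, ∀ K : Cfg B δ R₀ Ξ, ρ₀ ≤ K.ρ → ∃ C : ℝ, 0 < C ∧ ∀ ξ : ℂ, ‖ξ‖ ≤ Ξ →
    ∀ (x : ℂ) (g k : Ev ι),
    (‖x‖ < R₀ → |pot B δ R₀ K.ρ x (SS K.F (x - ξ)) g| ≤ C * (‖v0 B x‖ + exp (C * ‖g‖)) ∧
      |fderiv ℝ (pot B δ R₀ K.ρ x (SS K.F (x - ξ))) g k| ≤ C * exp (C * ‖g‖) * ‖k‖ ∧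
      |pot B δ R₀ K.ρ x (SS K.F (x - ξ)) (g + k) - pot B δ R₀ K.ρ x (SS K.F (x - ξ)) g
        - fderiv ℝ (pot B δ R₀ K.ρ x (SS K.F (x - ξ))) g k| ≤ C * exp (C * (‖g‖ + ‖k‖)) * ‖k‖ ^ 2) ∧
    (R₀ ≤ ‖x‖ → |pot B δ R₀ K.ρ x (SS K.F (x - ξ)) g| ≤ C * wt x * ‖g‖ ^ 2 ∧
      |fderiv ℝ (pot B δ R₀ K.ρ x (SS K.F (x - ξ))) g k| ≤ C * wt x * ‖g‖ * ‖k‖ ∧
      |pot B δ R₀ K.ρ x (SS K.F (x - ξ)) (g + k) - pot B δ R₀ K.ρ x (SS K.F (x - ξ)) g
        - fderiv ℝ (pot B δ R₀ K.ρ x (SS K.F (x - ξ))) g k| ≤ C * wt x * ‖k‖ ^ 2) := by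
  obtain ⟨C1, hC1, hg1⟩ := WW_growth B.S
  obtain ⟨C2, hC2, hg2⟩ := dWW_growth B.S
  obtain ⟨C3, hC3, hg3⟩ := WW_taylor B.S
  obtain ⟨C4, hC4, hout⟩ := pot_out B.S
  obtain ⟨ρ1, hρ1⟩ := hout δ Ξ hδ hδ1 hΞ
  obtain ⟨ρ2, hρ2⟩ := SS_far Ξ
  obtain ⟨C5, hC5, hq⟩ := qVb_le B.S
  refine ⟨max ρ1 ρ2, fun K hK => ?_⟩
  have hw := K.wall
  have hρpos : 1 ≤ K.ρ := by
    have := hw.hρ
    linarith
  have hρ0 : 0 < K.ρ := by linarith
  set ρ := K.ρ with hρdef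
  -- the constant outside
  set D : ℝ := C5 * (100 * (4 * ρ ^ 4)) + (C4 * δ * (1 + ρ ^ 2) ^ 2 + 4) with hD
  have hD0 : 0 < D := by positivity
  refine ⟨C1 + C2 + C3 + D, by positivity, fun ξ hξ x g k => ⟨fun hx => ?_, fun hx => ?_⟩⟩
  · have hs : SS K.F (x - ξ) ≤ 0 := p3b_SS_nonpos K _
    have hv : ∀ a, lin B.S a (v0 B x) ≤ 0 := fun a => v0_lin_nonpos B a x
    have hp : ∀ g, pot B δ R₀ ρ x (SS K.F (x - ξ)) g = WW B.S (SS K.F (x - ξ)) (v0 B x + g) := by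
      intro g
      unfold pot
      rw [if_pos hx]
    rw [dpot_in B x hx, hp, hp]
    have hgn := norm_nonneg g
    have hkn := norm_nonneg k
    refine ⟨?_, ?_, ?_⟩
    · refine (hg1 _ _ _ hs hv).trans ?_
      have e1 : exp (C1 * ‖g‖) ≤ exp ((C1 + C2 + C3 + D) * ‖g‖) :=
        Real.exp_le_exp.2 (mul_le_mul_of_nonneg_right (by linarith) hgn)
      have e2 := norm_nonneg (v0 B x)
      exact mul_le_mul (by linarith) (by linarith) (by positivity) (by positivity)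
    · have h1 := (fderiv ℝ (WW B.S (SS K.F (x - ξ))) (v0 B x + g)).le_opNorm k
      rw [Real.norm_eq_abs] at h1
      refine h1.trans (mul_le_mul_of_nonneg_right ?_ hkn)
      refine (hg2 _ _ _ hs hv).trans ?_
      have e1 : exp (C2 * ‖g‖) ≤ exp ((C1 + C2 + C3 + D) * ‖g‖) :=
        Real.exp_le_exp.2 (mul_le_mul_of_nonneg_right (by linarith) hgn)
      exact mul_le_mul (by linarith) e1 (by positivity) (by positivity)
    · have h1 := hg3 (SS K.F (x - ξ)) (v0 B x) g k hs hv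
      rw [← add_assoc]
      refine h1.trans (mul_le_mul_of_nonneg_right ?_ (by positivity))
      have e1 : exp (C3 * (‖g‖ + ‖k‖)) ≤ exp ((C1 + C2 + C3 + D) * (‖g‖ + ‖k‖)) :=
        Real.exp_le_exp.2 (mul_le_mul_of_nonneg_right (by linarith) (by positivity))
      exact mul_le_mul (by linarith) e1 (by positivity) (by positivity)
  · have hs : SS K.F (x - ξ) ≤ 0 := p3b_SS_nonpos K _
    have hx0 : x ≠ 0 := by
      rintro rfl
      rw [norm_zero] at hx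
      linarith
    have hwt0 : 0 < wt x := by unfold wt; positivity
    have hwgt := wgt_le_wt hρpos x
    have hfar := (hρ2 ρ K.ε K.F hw ((le_max_right _ _).trans hK) ξ x hξ).2 hx0
    have hes : C5 * exp (SS K.F (x - ξ)) ≤ C5 * (100 * (4 * ρ ^ 4)) * wt x := by
      calc C5 * exp (SS K.F (x - ξ)) ≤ C5 * (100 * wgt ρ ‖x‖) :=
            mul_le_mul_of_nonneg_left hfar hC5.le
        _ ≤ C5 * (100 * (4 * ρ ^ 4 * wt x)) :=
            mul_le_mul_of_nonneg_left (mul_le_mul_of_nonneg_left hwgt (by norm_num)) hC5.le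
        _ = _ := by ring
    have hLL : LL C4 δ ρ x ≤ (C4 * δ * (1 + ρ ^ 2) ^ 2 + 4) * wt x := by
      unfold LL
      split_ifs with h
      · have h1 : 1 ≤ (1 + ρ ^ 2) ^ 2 * wt x := by
          unfold wt
          rw [← div_eq_mul_inv, one_le_div (by positivity)]
          have h2 : ‖x‖ ≤ ρ := by linarith
          have h3 : ‖x‖ ^ 2 ≤ ρ ^ 2 := pow_le_pow_left₀ (norm_nonneg _) h2 2
          exact pow_le_pow_left₀ (by positivity) (by linarith) 2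
        have h4 : C4 * δ ≤ C4 * δ * ((1 + ρ ^ 2) ^ 2 * wt x) :=
          le_mul_of_one_le_right (by positivity) h1
        calc C4 * δ ≤ C4 * δ * ((1 + ρ ^ 2) ^ 2 * wt x) := h4
          _ ≤ C4 * δ * ((1 + ρ ^ 2) ^ 2 * wt x) + 4 * wt x := by linarith
          _ = _ := by ring
      · have h1 : (ρ ^ 5)⁻¹ * wgt ρ ‖x‖ ≤ (ρ ^ 5)⁻¹ * (4 * ρ ^ 4 * wt x) :=
          mul_le_mul_of_nonneg_left hwgt (by positivity)
        have h2 : (ρ ^ 5)⁻¹ * (4 * ρ ^ 4 * wt x) = 4 * wt x / ρ := by field_simp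
        have h3 : 4 * wt x / ρ ≤ 4 * wt x := div_le_self (by positivity) hρpos
        have h4 : 0 ≤ C4 * δ * (1 + ρ ^ 2) ^ 2 * wt x := by positivity
        calc (ρ ^ 5)⁻¹ * wgt ρ ‖x‖ ≤ 4 * wt x := by rw [h2] at h1; linarith
          _ ≤ C4 * δ * (1 + ρ ^ 2) ^ 2 * wt x + 4 * wt x := by linarith
          _ = _ := by ring
    have hp : ∀ g, pot B δ R₀ ρ x (SS K.F (x - ξ)) g =
        1 / 2 * qV B.S (SS K.F (x - ξ)) g + RT B.S (tau δ ρ x) (SS K.F (x - ξ)) g := by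
      intro g
      unfold pot
      rw [if_neg (not_lt.2 hx)]
    have hgn := norm_nonneg g
    have hkn := norm_nonneg k
    have hDw : C5 * exp (SS K.F (x - ξ)) + LL C4 δ ρ x ≤ (C1 + C2 + C3 + D) * wt x := by
      have h1 : C5 * exp (SS K.F (x - ξ)) + LL C4 δ ρ x ≤ D * wt x := by
        rw [hD, add_mul]
        exact add_le_add hes hLL
      have h2 : 0 ≤ (C1 + C2 + C3) * wt x := by positivity
      calc _ ≤ D * wt x := h1
        _ ≤ (C1 + C2 + C3) * wt x + D * wt x := by linarith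
        _ = _ := by ring
    rw [dpot_out B hδ hρ0 x hx, hp, hp]
    obtain ⟨r1, r2, -, -⟩ := hρ1 ρ K.ε K.F hw ((le_max_left _ _).trans hK) ξ hξ x g (g + k)
    have r4 := (hρ1 ρ K.ε K.F hw ((le_max_left _ _).trans hK) ξ hξ x g (g + k)).2.2.2
    rw [add_sub_cancel_left] at r4
    have he0 : 0 ≤ C5 * exp (SS K.F (x - ξ)) := by positivity
    refine ⟨?_, ?_, ?_⟩
    · have q1 := (hq _ hs g g).2
      have h1 : |1 / 2 * qV B.S (SS K.F (x - ξ)) g| ≤ C5 * exp (SS K.F (x - ξ)) * ‖g‖ ^ 2 := by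
        rw [abs_mul, abs_of_pos (show (0 : ℝ) < 1 / 2 by norm_num)]
        have := abs_nonneg (qV B.S (SS K.F (x - ξ)) g)
        linarith
      calc _ ≤ |1 / 2 * qV B.S (SS K.F (x - ξ)) g| +
            |RT B.S (tau δ ρ x) (SS K.F (x - ξ)) g| := abs_add_le _ _
        _ ≤ C5 * exp (SS K.F (x - ξ)) * ‖g‖ ^ 2 + LL C4 δ ρ x * ‖g‖ ^ 2 := add_le_add h1 r1
        _ = (C5 * exp (SS K.F (x - ξ)) + LL C4 δ ρ x) * ‖g‖ ^ 2 := by ring
        _ ≤ _ := mul_le_mul_of_nonneg_right hDw (by positivity)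
    · have q1 := (hq _ hs g k).1
      have h2 : |fderiv ℝ (RT B.S (tau δ ρ x) (SS K.F (x - ξ))) g k| ≤
          LL C4 δ ρ x * ‖g‖ * ‖k‖ := by
        have h3 := (fderiv ℝ (RT B.S (tau δ ρ x) (SS K.F (x - ξ))) g).le_opNorm k
        rw [Real.norm_eq_abs] at h3
        exact h3.trans (mul_le_mul_of_nonneg_right r2 hkn)
      calc _ ≤ |qVb B.S (SS K.F (x - ξ)) g k| +
            |fderiv ℝ (RT B.S (tau δ ρ x) (SS K.F (x - ξ))) g k| := abs_add_le _ _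
        _ ≤ C5 * exp (SS K.F (x - ξ)) * (‖g‖ * ‖k‖) + LL C4 δ ρ x * ‖g‖ * ‖k‖ := add_le_add q1 h2
        _ = (C5 * exp (SS K.F (x - ξ)) + LL C4 δ ρ x) * (‖g‖ * ‖k‖) := by ring
        _ ≤ (C1 + C2 + C3 + D) * wt x * (‖g‖ * ‖k‖) :=
            mul_le_mul_of_nonneg_right hDw (by positivity)
        _ = _ := by ring
    · have q1 := (hq _ hs k k).2
      have h1 : |1 / 2 * qV B.S (SS K.F (x - ξ)) k| ≤ C5 * exp (SS K.F (x - ξ)) * ‖k‖ ^ 2 := by
        rw [abs_mul, abs_of_pos (show (0 : ℝ) < 1 / 2 by norm_num)]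
        have := abs_nonneg (qV B.S (SS K.F (x - ξ)) k)
        linarith
      have e1 : 1 / 2 * qV B.S (SS K.F (x - ξ)) (g + k) +
          RT B.S (tau δ ρ x) (SS K.F (x - ξ)) (g + k) -
          (1 / 2 * qV B.S (SS K.F (x - ξ)) g + RT B.S (tau δ ρ x) (SS K.F (x - ξ)) g) -
          (qVb B.S (SS K.F (x - ξ)) g k + fderiv ℝ (RT B.S (tau δ ρ x) (SS K.F (x - ξ))) g k) =
          1 / 2 * qV B.S (SS K.F (x - ξ)) k +
          (RT B.S (tau δ ρ x) (SS K.F (x - ξ)) (g + k) - RT B.S (tau δ ρ x) (SS K.F (x - ξ)) g -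
            fderiv ℝ (RT B.S (tau δ ρ x) (SS K.F (x - ξ))) g k) := by
        rw [qV_add]
        ring
      rw [e1]
      calc _ ≤ |1 / 2 * qV B.S (SS K.F (x - ξ)) k| + |(RT B.S (tau δ ρ x) (SS K.F (x - ξ)) (g + k) -
            RT B.S (tau δ ρ x) (SS K.F (x - ξ)) g -
            fderiv ℝ (RT B.S (tau δ ρ x) (SS K.F (x - ξ))) g k)| := abs_add_le _ _
        _ ≤ C5 * exp (SS K.F (x - ξ)) * ‖k‖ ^ 2 + LL C4 δ ρ x * ‖k‖ ^ 2 := add_le_add h1 r4
        _ = (C5 * exp (SS K.F (x - ξ)) + LL C4 δ ρ x) * ‖k‖ ^ 2 := by ring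
        _ ≤ _ := mul_le_mul_of_nonneg_right hDw (by positivity)

end Pool.MP_ad5d82_an.Wl
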