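import Pool.Agent.Lib.MP_ad5d82_an.h24.PDefs
import Pool.Agent.Lib.MP_ad5d82_an.h24.H.H1

set_option autoImplicit false

namespace Pool.MP_ad5d82_an.Wl

open Real Set MeasureTheory Filter Topology
open scoped ContDiff

variable {ι : Type} [Fintype ι] [DecidableEq ι]

/-! ### PC the negative family -/

theorem PC_term_smooth {S : Sys ι} {c₀ C ρ : ℝ} {F : ℝ → ℝ} {χ : {i // i ∈ neg S} → ℂ → ℝ}
    (h : NegFam S c₀ C ρ F χ) (c : Cc S) (ξ : ℂ) (i : {i // i ∈ neg S}) :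
    ContDiff ℝ ∞ (fun x : ℂ => (c i * χ i (x - ξ)) • (bv i.1.1 : Ev ι)) := by
  have h1 : ContDiff ℝ ∞ (fun x : ℂ => χ i (x - ξ)) :=
    (h.smooth i).comp (contDiff_id.sub contDiff_const)
  exact (contDiff_const.mul h1).smul contDiff_const

theorem Cf_smooth {S : Sys ι} {c₀ C ρ : ℝ} {F : ℝ → ℝ} {χ : {i // i ∈ neg S} → ℂ → ℝ}
    (h : NegFam S c₀ C ρ F χ) (c : Cc S) (ξ : ℂ) : ContDiff ℝ ∞ (Cf S χ c ξ) := by
  unfold Cf
  exact ContDiff.sum fun i _ => PC_term_smooth h c ξ i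

theorem Cf_add (S : Sys ι) (χ : {i // i ∈ neg S} → ℂ → ℝ) (c c' : Cc S) (ξ x : ℂ) :
    Cf S χ (c + c') ξ x = Cf S χ c ξ x + Cf S χ c' ξ x := by
  unfold Cf
  rw [← Finset.sum_add_distrib]
  refine Finset.sum_congr rfl fun i _ => ?_
  rw [Pi.add_apply, add_mul, add_smul]

theorem Cf_smul (S : Sys ι) (χ : {i // i ∈ neg S} → ℂ → ℝ) (t : ℝ) (c : Cc S) (ξ x : ℂ) :
    Cf S χ (t • c) ξ x = t • Cf S χ c ξ x := by
  unfold Cf
  rw [Finset.smul_sum]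
  refine Finset.sum_congr rfl fun i _ => ?_
  rw [Pi.smul_apply, smul_eq_mul, smul_smul, mul_assoc]

theorem PC_zero_of {S : Sys ι} {χ : {i // i ∈ neg S} → ℂ → ℝ} (c : Cc S) (ξ x : ℂ) (U : Set ℂ)
    (hU : IsOpen U) (hx : x - ξ ∈ U) (hχ : ∀ i, ∀ z ∈ U, χ i z = 0) :
    Cf S χ c ξ x = 0 ∧ fderiv ℝ (Cf S χ c ξ) x = 0 := by
  have hev : Cf S χ c ξ =ᶠ[𝓝 x] fun _ => 0 := by
    have hU' : IsOpen ((fun y : ℂ => y - ξ) ⁻¹' U) := hU.preimage (by fun_prop)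
    filter_upwards [hU'.mem_nhds hx] with y hy
    unfold Cf
    refine Finset.sum_eq_zero fun i _ => ?_
    rw [hχ i _ hy, mul_zero, zero_smul]
  refine ⟨hev.eq_of_nhds, ?_⟩
  rw [hev.fderiv_eq]
  simp

theorem Cf_zero {S : Sys ι} {c₀ C ρ : ℝ} {F : ℝ → ℝ} {χ : {i // i ∈ neg S} → ℂ → ℝ}
    (h : NegFam S c₀ C ρ F χ) (c : Cc S) (ξ x : ℂ) (hx : ‖x - ξ‖ < 0.93 * ρ) :
    Cf S χ c ξ x = 0 ∧ fderiv ℝ (Cf S χ c ξ) x = 0 :=
  PC_zero_of c ξ x {z | ‖z‖ < 0.93 * ρ} (isOpen_lt continuous_norm continuous_const) hx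
    fun i z hz => h.supp_in i z (le_of_lt hz)

theorem Cf_out {S : Sys ι} {c₀ C ρ : ℝ} {F : ℝ → ℝ} {χ : {i // i ∈ neg S} → ℂ → ℝ}
    (h : NegFam S c₀ C ρ F χ) (c : Cc S) (ξ x : ℂ) (hx : C * ρ < ‖x - ξ‖) :
    Cf S χ c ξ x = 0 ∧ fderiv ℝ (Cf S χ c ξ) x = 0 :=
  PC_zero_of c ξ x {z | C * ρ < ‖z‖} (isOpen_lt continuous_const continuous_norm) hx
    fun i z hz => h.supp_out i z (le_of_lt hz)

theorem isTest_Cf {S : Sys ι} {c₀ C ρ : ℝ} {F : ℝ → ℝ} {χ : {i // i ∈ neg S} → ℂ → ℝ}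
    (h : NegFam S c₀ C ρ F χ) (c : Cc S) (ξ : ℂ) : IsTest (Cf S χ c ξ) := by
  refine ⟨Cf_smooth h c ξ, HasCompactSupport.intro (isCompact_closedBall ξ (C * ρ)) ?_⟩
  intro x hx
  refine (Cf_out h c ξ x ?_).1
  rw [Metric.mem_closedBall, not_le, dist_eq_norm] at hx
  exact hx

theorem jet_Cf_add {S : Sys ι} {c₀ C ρ : ℝ} {F : ℝ → ℝ} {χ : {i // i ∈ neg S} → ℂ → ℝ}
    (h : NegFam S c₀ C ρ F χ) (c c' : Cc S) (ξ : ℂ) :
    jet (Cf S χ (c + c') ξ) = jet (Cf S χ c ξ) + jet (Cf S χ c' ξ) := by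
  have e : Cf S χ (c + c') ξ = Cf S χ c ξ + Cf S χ c' ξ := funext fun x => Cf_add S χ c c' ξ x
  have d1 : Differentiable ℝ (Cf S χ c ξ) := (Cf_smooth h c ξ).differentiable (by simp)
  have d2 : Differentiable ℝ (Cf S χ c' ξ) := (Cf_smooth h c' ξ).differentiable (by simp)
  funext z
  have e2 : fderiv ℝ (Cf S χ (c + c') ξ) z = fderiv ℝ (Cf S χ c ξ) z + fderiv ℝ (Cf S χ c' ξ) z := by
    rw [e, fderiv_add d1.differentiableAt d2.differentiableAt]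
  simp only [jet, Pi.add_apply, e2, Cf_add, Prod.mk_add_mk, add_apply]

theorem jet_Cf_smul {S : Sys ι} {c₀ C ρ : ℝ} {F : ℝ → ℝ} {χ : {i // i ∈ neg S} → ℂ → ℝ}
    (h : NegFam S c₀ C ρ F χ) (t : ℝ) (c : Cc S) (ξ : ℂ) :
    jet (Cf S χ (t • c) ξ) = t • jet (Cf S χ c ξ) := by
  have e : Cf S χ (t • c) ξ = t • Cf S χ c ξ := funext fun x => Cf_smul S χ t c ξ x
  have d1 : Differentiable ℝ (Cf S χ c ξ) := (Cf_smooth h c ξ).differentiable (by simp)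
  funext z
  have e2 : fderiv ℝ (Cf S χ (t • c) ξ) z = t • fderiv ℝ (Cf S χ c ξ) z := by
    rw [e, fderiv_const_smul d1.differentiableAt]
  simp only [jet, Pi.smul_apply, e2, Cf_smul, Prod.smul_mk, smul_apply]

/-- translation: `Cf` at `ξ` is the translate of `Cf` at `0`. -/
theorem Cf_shift (S : Sys ι) (χ : {i // i ∈ neg S} → ℂ → ℝ) (c : Cc S) (ξ x : ℂ) :
    Cf S χ c ξ x = Cf S χ c 0 (x - ξ) := by
  simp [Cf]

theorem PC_fderiv {S : Sys ι} {c₀ C ρ : ℝ} {F : ℝ → ℝ} {χ : {i // i ∈ neg S} → ℂ → ℝ}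
    (h : NegFam S c₀ C ρ F χ) (c : Cc S) (ξ x : ℂ) :
    fderiv ℝ (Cf S χ c ξ) x =
      ∑ i : {i // i ∈ neg S}, c i • (fderiv ℝ (χ i) (x - ξ)).smulRight (bv i.1.1 : Ev ι) := by
  have h1 : ∀ i : {i // i ∈ neg S}, HasFDerivAt (fun x : ℂ => (c i * χ i (x - ξ)) • (bv i.1.1 : Ev ι))
      (c i • (fderiv ℝ (χ i) (x - ξ)).smulRight (bv i.1.1 : Ev ι)) x := by
    intro i
    have d : HasFDerivAt (χ i) (fderiv ℝ (χ i) (x - ξ)) (x - ξ) :=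
      ((h.smooth i).differentiable (by simp)).differentiableAt.hasFDerivAt
    have d1 : HasFDerivAt (fun y : ℂ => χ i (y - ξ)) (fderiv ℝ (χ i) (x - ξ)) x := by
      refine (HasFDerivAt.comp x (f := fun y : ℂ => y - ξ) d
        ((hasFDerivAt_id x).sub_const ξ)).congr_fderiv ?_
      rw [ContinuousLinearMap.comp_id]
    have d2 := (d1.const_mul (c i)).smul_const (bv i.1.1 : Ev ι)
    refine d2.congr_fderiv ?_
    apply ContinuousLinearMap.ext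
    intro k
    simp [smul_smul]
  have h2 := HasFDerivAt.fun_sum (u := Finset.univ) (fun i _ => h1 i)
  exact h2.fderiv

theorem PC_bv_norm (j : ι) : ‖(bv j : Ev ι)‖ = 1 := by
  simp [bv]

theorem PC_sum1 {α : Type*} [Fintype α] (c a : α → ℝ) (v : α → Ev ι) (hv : ∀ i, ‖v i‖ = 1) (K : ℝ)
    (ha : ∀ i, |a i| ≤ K) : ‖∑ i, (c i * a i) • v i‖ ≤ K * ∑ i, |c i| := by
  refine (norm_sum_le _ _).trans ?_
  rw [Finset.mul_sum]
  refine Finset.sum_le_sum fun i _ => ?_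
  rw [norm_smul, hv i, mul_one, Real.norm_eq_abs, abs_mul, mul_comm K]
  exact mul_le_mul_of_nonneg_left (ha i) (abs_nonneg _)

theorem PC_sum2 {α : Type*} [Fintype α] (c : α → ℝ) (L : α → ℂ →L[ℝ] ℝ) (v : α → Ev ι)
    (hv : ∀ i, ‖v i‖ = 1) (K : ℝ)
    (ha : ∀ i, ‖L i‖ ≤ K) : ‖∑ i, c i • (L i).smulRight (v i)‖ ≤ K * ∑ i, |c i| := by
  refine (norm_sum_le _ _).trans ?_
  rw [Finset.mul_sum]
  refine Finset.sum_le_sum fun i _ => ?_
  rw [norm_smul, ContinuousLinearMap.norm_smulRight_apply, hv i, mul_one, Real.norm_eq_abs,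
    mul_comm K]
  exact mul_le_mul_of_nonneg_left (ha i) (abs_nonneg _)

theorem PC_cs {α : Type*} [Fintype α] (c : α → ℝ) :
    ∑ i, |c i| ≤ Real.sqrt (Fintype.card α) * Real.sqrt (∑ i, c i ^ 2) := by
  rw [← Real.sqrt_mul (by positivity)]
  apply Real.le_sqrt_of_sq_le
  have := sq_sum_le_card_mul_sum_sq (s := (Finset.univ : Finset α)) (f := fun i => |c i|)
  simpa [sq_abs] using this

/-- Lipschitz bound -/
theorem PC_lip {E : Type*} [NormedAddCommGroup E] [NormedSpace ℝ E] {G : ℂ → E}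
    (hG : Differentiable ℝ G) (K : ℝ) (hK : ∀ z, ‖fderiv ℝ G z‖ ≤ K) (a b : ℂ) :
    ‖G a - G b‖ ≤ K * ‖a - b‖ :=
  Convex.norm_image_sub_le_of_norm_fderiv_le (𝕜 := ℝ) (fun x _ => hG x) (fun x _ => hK x)
    convex_univ (mem_univ b) (mem_univ a)

/-- second difference -/
theorem PC_mid {E : Type*} [NormedAddCommGroup E] [NormedSpace ℝ E] {G : ℂ → E}
    (hG : Differentiable ℝ G) (K : ℝ) (hK : ∀ a b, ‖fderiv ℝ G a - fderiv ℝ G b‖ ≤ K * ‖a - b‖)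
    (a b : ℂ) :
    ‖G a + G b - (2 : ℝ) • G ((a + b) / 2)‖ ≤ K * ‖a - b‖ ^ 2 := by
  have hK0 : 0 ≤ K := by
    have := hK 1 0
    simp only [sub_zero, norm_one, mul_one] at this
    exact (norm_nonneg _).trans this
  set w : ℂ := (b - a) / 2 with hw
  set H : ℂ → E := fun x => G (x + w) - G x with hH
  have hHd : ∀ x, HasFDerivAt H (fderiv ℝ G (x + w) - fderiv ℝ G x) x := by
    intro x
    have d1 : HasFDerivAt (fun x : ℂ => G (x + w)) (fderiv ℝ G (x + w)) x := by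
      refine (HasFDerivAt.comp x (f := fun y : ℂ => y + w) (hG (x + w)).hasFDerivAt
        ((hasFDerivAt_id x).add_const w)).congr_fderiv ?_
      rw [ContinuousLinearMap.comp_id]
    exact d1.sub (hG x).hasFDerivAt
  have h1 := PC_lip (fun x => (hHd x).differentiableAt) (K * ‖w‖) (fun x => by
    rw [(hHd x).fderiv]
    have := hK (x + w) x
    simpa using this) ((a + b) / 2) a
  have e1 : (a + b) / 2 + w = b := by rw [hw]; ring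
  have e2 : a + w = (a + b) / 2 := by rw [hw]; ring
  have e3 : (a + b) / 2 - a = w := by rw [hw]; ring
  have e4 : H ((a + b) / 2) - H a = G a + G b - (2 : ℝ) • G ((a + b) / 2) := by
    simp only [hH, e1, e2, two_smul]
    abel
  rw [e4, e3] at h1
  have e5 : ‖w‖ = ‖a - b‖ / 2 := by
    rw [hw, norm_div, norm_sub_rev]
    norm_num
  rw [e5] at h1
  refine h1.trans ?_
  have : 0 ≤ K * ‖a - b‖ ^ 2 := by positivity
  nlinarith

theorem PC_bds {S : Sys ι} {c₀ C ρ : ℝ} {F : ℝ → ℝ} {χ : {i // i ∈ neg S} → ℂ → ℝ}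
    (h : NegFam S c₀ C ρ F χ) (i : {i // i ∈ neg S}) :
    (∀ z, |χ i z| ≤ C) ∧ (∀ z, ‖fderiv ℝ (χ i) z‖ ≤ C) ∧
      (∀ z, ‖fderiv ℝ (fderiv ℝ (χ i)) z‖ ≤ C) ∧
      (∀ a b, ‖fderiv ℝ (fderiv ℝ (χ i)) a - fderiv ℝ (fderiv ℝ (χ i)) b‖ ≤ C * ‖a - b‖) := by
  have hsm1 : ContDiff ℝ ∞ (fderiv ℝ (χ i)) := (h.smooth i).fderiv_right (by simp)
  have hsm2 : ContDiff ℝ ∞ (fderiv ℝ (fderiv ℝ (χ i))) := hsm1.fderiv_right (by simp)
  refine ⟨fun z => ?_, fun z => ?_, fun z => ?_,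
    PC_lip (hsm2.differentiable (by simp)) C fun z => ?_⟩
  · have := h.bound i 0 (by norm_num) z
    rwa [norm_iteratedFDeriv_zero, Real.norm_eq_abs] at this
  · have := h.bound i 1 (by norm_num) z
    rwa [← norm_iteratedFDeriv_fderiv, norm_iteratedFDeriv_zero] at this
  · have := h.bound i 2 (by norm_num) z
    rwa [← norm_iteratedFDeriv_fderiv, ← norm_iteratedFDeriv_fderiv,
      norm_iteratedFDeriv_zero] at this
  · have := h.bound i 3 (by norm_num) z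
    rwa [← norm_iteratedFDeriv_fderiv, ← norm_iteratedFDeriv_fderiv, ← norm_iteratedFDeriv_fderiv,
      norm_iteratedFDeriv_zero] at this

theorem Cf_bounds (S : Sys ι) (c₀ C : ℝ) : ∃ D : ℝ, 0 < D ∧ ∀ (ρ : ℝ) (F : ℝ → ℝ)
    (χ : {i // i ∈ neg S} → ℂ → ℝ), NegFam S c₀ C ρ F χ → ∀ (c : Cc S) (ξ ξ' x : ℂ),
    ‖Cf S χ c ξ x‖ ≤ D * Real.sqrt (∑ i, c i ^ 2) ∧
    ‖fderiv ℝ (Cf S χ c ξ) x‖ ≤ D * Real.sqrt (∑ i, c i ^ 2) ∧
    ‖Cf S χ c ξ x - Cf S χ c ξ' x‖ ≤ D * Real.sqrt (∑ i, c i ^ 2) * ‖ξ - ξ'‖ ∧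
    ‖fderiv ℝ (Cf S χ c ξ) x - fderiv ℝ (Cf S χ c ξ') x‖ ≤ D * Real.sqrt (∑ i, c i ^ 2) * ‖ξ - ξ'‖ ∧
    ‖Cf S χ c ξ x + Cf S χ c ξ' x - (2 : ℝ) • Cf S χ c ((ξ + ξ') / 2) x‖
      ≤ D * Real.sqrt (∑ i, c i ^ 2) * ‖ξ - ξ'‖ ^ 2 ∧
    ‖fderiv ℝ (Cf S χ c ξ) x + fderiv ℝ (Cf S χ c ξ') x - (2 : ℝ) • fderiv ℝ (Cf S χ c ((ξ + ξ') / 2)) x‖
      ≤ D * Real.sqrt (∑ i, c i ^ 2) * ‖ξ - ξ'‖ ^ 2 := by
  refine ⟨|C| * Real.sqrt (Fintype.card {i // i ∈ neg S}) + 1, by positivity, ?_⟩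
  intro ρ F χ h c ξ ξ' x
  set D : ℝ := |C| * Real.sqrt (Fintype.card {i // i ∈ neg S}) + 1 with hD
  have hb : ∀ i, (∀ z, |χ i z| ≤ |C|) ∧ (∀ z, ‖fderiv ℝ (χ i) z‖ ≤ |C|) ∧
      (∀ z, ‖fderiv ℝ (fderiv ℝ (χ i)) z‖ ≤ |C|) ∧
      (∀ a b, ‖fderiv ℝ (fderiv ℝ (χ i)) a - fderiv ℝ (fderiv ℝ (χ i)) b‖ ≤ |C| * ‖a - b‖) := by
    intro i
    obtain ⟨h1, h2, h3, h4⟩ := PC_bds h i
    have := le_abs_self C
    exact ⟨fun z => (h1 z).trans this, fun z => (h2 z).trans this, fun z => (h3 z).trans this,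
      fun a b => (h4 a b).trans (mul_le_mul_of_nonneg_right this (norm_nonneg _))⟩
  have hsm : ∀ i, Differentiable ℝ (χ i) := fun i => (h.smooth i).differentiable (by simp)
  have hsm1 : ∀ i, ContDiff ℝ ∞ (fderiv ℝ (χ i)) := fun i => (h.smooth i).fderiv_right (by simp)
  have hsm1' : ∀ i, Differentiable ℝ (fderiv ℝ (χ i)) := fun i => (hsm1 i).differentiable (by simp)
  have hcs : |C| * ∑ i, |c i| ≤ D * Real.sqrt (∑ i, c i ^ 2) := by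
    have h1 := PC_cs c
    have h2 : 0 ≤ Real.sqrt (∑ i, c i ^ 2) := Real.sqrt_nonneg _
    calc |C| * ∑ i, |c i| ≤ |C| * (Real.sqrt (Fintype.card {i // i ∈ neg S}) *
          Real.sqrt (∑ i, c i ^ 2)) := mul_le_mul_of_nonneg_left h1 (abs_nonneg _)
      _ ≤ D * Real.sqrt (∑ i, c i ^ 2) := by rw [hD, add_mul]; linarith
  have key : ∀ (d : ℝ), 0 ≤ d → (|C| * d) * ∑ i, |c i| ≤ D * Real.sqrt (∑ i, c i ^ 2) * d := by
    intro d hd
    calc (|C| * d) * ∑ i, |c i| = (|C| * ∑ i, |c i|) * d := by ring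
      _ ≤ _ := mul_le_mul_of_nonneg_right hcs hd
  have hbv : ∀ i : {i // i ∈ neg S}, ‖(bv i.1.1 : Ev ι)‖ = 1 := fun i => PC_bv_norm _
  have exx : (x - ξ) - (x - ξ') = -(ξ - ξ') := by ring
  have exm : ((x - ξ) + (x - ξ')) / 2 = x - (ξ + ξ') / 2 := by ring
  have hlip1 : ∀ i, |χ i (x - ξ) - χ i (x - ξ')| ≤ |C| * ‖ξ - ξ'‖ := by
    intro i
    have := PC_lip (hsm i) |C| (hb i).2.1 (x - ξ) (x - ξ')
    rwa [exx, norm_neg, Real.norm_eq_abs] at this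
  have hlip2 : ∀ i, ‖fderiv ℝ (χ i) (x - ξ) - fderiv ℝ (χ i) (x - ξ')‖ ≤ |C| * ‖ξ - ξ'‖ := by
    intro i
    have := PC_lip (hsm1' i) |C| (hb i).2.2.1 (x - ξ) (x - ξ')
    rwa [exx, norm_neg] at this
  have hmid1 : ∀ i, |χ i (x - ξ) + χ i (x - ξ') - 2 * χ i (x - (ξ + ξ') / 2)| ≤
      |C| * ‖ξ - ξ'‖ ^ 2 := by
    intro i
    have := PC_mid (hsm i) |C| (PC_lip (hsm1' i) |C| (hb i).2.2.1) (x - ξ) (x - ξ')
    rwa [exx, norm_neg, exm, smul_eq_mul, Real.norm_eq_abs] at this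
  have hmid2 : ∀ i, ‖fderiv ℝ (χ i) (x - ξ) + fderiv ℝ (χ i) (x - ξ') -
      (2 : ℝ) • fderiv ℝ (χ i) (x - (ξ + ξ') / 2)‖ ≤ |C| * ‖ξ - ξ'‖ ^ 2 := by
    intro i
    have := PC_mid (hsm1' i) |C| (hb i).2.2.2 (x - ξ) (x - ξ')
    rwa [exx, norm_neg, exm] at this
  refine ⟨?_, ?_, ?_, ?_, ?_, ?_⟩
  · exact (PC_sum1 c (fun i => χ i (x - ξ)) _ hbv |C| (fun i => (hb i).1 _)).trans hcs
  · rw [PC_fderiv h]
    exact (PC_sum2 c (fun i => fderiv ℝ (χ i) (x - ξ)) _ hbv |C| (fun i => (hb i).2.1 _)).trans hcs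
  · have e : Cf S χ c ξ x - Cf S χ c ξ' x =
        ∑ i, (c i * (χ i (x - ξ) - χ i (x - ξ'))) • (bv i.1.1 : Ev ι) := by
      unfold Cf
      rw [← Finset.sum_sub_distrib]
      refine Finset.sum_congr rfl fun i _ => ?_
      rw [← sub_smul, mul_sub]
    rw [e]
    exact (PC_sum1 c _ _ hbv _ hlip1).trans (key _ (norm_nonneg _))
  · have e : fderiv ℝ (Cf S χ c ξ) x - fderiv ℝ (Cf S χ c ξ') x =
        ∑ i, c i • (fderiv ℝ (χ i) (x - ξ) - fderiv ℝ (χ i) (x - ξ')).smulRight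
          (bv i.1.1 : Ev ι) := by
      rw [PC_fderiv h, PC_fderiv h, ← Finset.sum_sub_distrib]
      refine Finset.sum_congr rfl fun i _ => ?_
      apply ContinuousLinearMap.ext
      intro k
      simp only [sub_apply, smul_apply, ContinuousLinearMap.smulRight_apply, smul_eq_mul,
        smul_smul, ← sub_smul]
      congr 1
      ring
    rw [e]
    exact (PC_sum2 c _ _ hbv _ hlip2).trans (key _ (norm_nonneg _))
  · have e : Cf S χ c ξ x + Cf S χ c ξ' x - (2 : ℝ) • Cf S χ c ((ξ + ξ') / 2) x =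
        ∑ i, (c i * (χ i (x - ξ) + χ i (x - ξ') - 2 * χ i (x - (ξ + ξ') / 2))) •
          (bv i.1.1 : Ev ι) := by
      unfold Cf
      rw [Finset.smul_sum, ← Finset.sum_add_distrib, ← Finset.sum_sub_distrib]
      refine Finset.sum_congr rfl fun i _ => ?_
      rw [smul_smul, ← add_smul, ← sub_smul]
      congr 1
      ring
    rw [e]
    exact (PC_sum1 c _ _ hbv _ hmid1).trans (key _ (by positivity))
  · have e : fderiv ℝ (Cf S χ c ξ) x + fderiv ℝ (Cf S χ c ξ') x -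
        (2 : ℝ) • fderiv ℝ (Cf S χ c ((ξ + ξ') / 2)) x =
        ∑ i, c i • (fderiv ℝ (χ i) (x - ξ) + fderiv ℝ (χ i) (x - ξ') -
          (2 : ℝ) • fderiv ℝ (χ i) (x - (ξ + ξ') / 2)).smulRight (bv i.1.1 : Ev ι) := by
      rw [PC_fderiv h, PC_fderiv h, PC_fderiv h, Finset.smul_sum, ← Finset.sum_add_distrib,
        ← Finset.sum_sub_distrib]
      refine Finset.sum_congr rfl fun i _ => ?_
      apply ContinuousLinearMap.ext
      intro k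
      simp only [add_apply, sub_apply, smul_apply, ContinuousLinearMap.smulRight_apply, smul_eq_mul,
        smul_smul, ← add_smul, ← sub_smul]
      congr 1
      ring
    rw [e]
    exact (PC_sum2 c _ _ hbv _ hmid2).trans (key _ (by positivity))

theorem Cf_energy (S : Sys ι) (c₀ C : ℝ) : ∃ D : ℝ, 0 < D ∧ ∀ (ρ : ℝ) (F : ℝ → ℝ)
    (χ : {i // i ∈ neg S} → ℂ → ℝ), NegFam S c₀ C ρ F χ → 1 ≤ ρ → ∀ (c : Cc S) (ξ : ℂ),
    Integrable (fun x => gsq (jet (Cf S χ c ξ) x) + ‖Cf S χ c ξ x‖ ^ 2) volume ∧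
    ∫ x, (gsq (jet (Cf S χ c ξ) x) + ‖Cf S χ c ξ x‖ ^ 2) ≤ D * ρ ^ 2 * ∑ i, c i ^ 2 := by
  obtain ⟨D, hD, hb⟩ := Cf_bounds S c₀ C
  refine ⟨3 * D ^ 2 * (C ^ 2 * π) + 1, by positivity, ?_⟩
  intro ρ F χ h hρ c ξ
  set Sc : ℝ := ∑ i, c i ^ 2 with hS
  have hS0 : 0 ≤ Sc := Finset.sum_nonneg fun i _ => sq_nonneg _
  have hsm := Cf_smooth h c ξ
  have hcont : Continuous (fun x => gsq (jet (Cf S χ c ξ) x) + ‖Cf S χ c ξ x‖ ^ 2) := by
    have h1 : Continuous (fderiv ℝ (Cf S χ c ξ)) := hsm.continuous_fderiv (by simp)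
    have h2 : Continuous (Cf S χ c ξ) := hsm.continuous
    unfold gsq jet
    fun_prop
  have hzero : ∀ x, x ∉ Metric.closedBall ξ (C * ρ) →
      gsq (jet (Cf S χ c ξ) x) + ‖Cf S χ c ξ x‖ ^ 2 = 0 := by
    intro x hx
    rw [Metric.mem_closedBall, not_le, dist_eq_norm] at hx
    obtain ⟨h1, h2⟩ := Cf_out h c ξ x hx
    simp [gsq, jet, h1, h2]
  refine ⟨hcont.integrable_of_hasCompactSupport
    (HasCompactSupport.intro (isCompact_closedBall ξ (C * ρ)) hzero), ?_⟩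
  rw [← setIntegral_eq_integral_of_forall_compl_eq_zero hzero]
  have hpt : ∀ x ∈ Metric.closedBall ξ (C * ρ),
      ‖gsq (jet (Cf S χ c ξ) x) + ‖Cf S χ c ξ x‖ ^ 2‖ ≤ 3 * D ^ 2 * Sc := by
    intro x _
    obtain ⟨b1, b2, -⟩ := hb ρ F χ h c ξ ξ x
    have n1 : ‖fderiv ℝ (Cf S χ c ξ) x 1‖ ≤ D * Real.sqrt Sc := by
      have := (fderiv ℝ (Cf S χ c ξ) x).le_opNorm 1
      rw [norm_one, mul_one] at this
      exact this.trans b2
    have n2 : ‖fderiv ℝ (Cf S χ c ξ) x Complex.I‖ ≤ D * Real.sqrt Sc := by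
      have := (fderiv ℝ (Cf S χ c ξ) x).le_opNorm Complex.I
      rw [Complex.norm_I, mul_one] at this
      exact this.trans b2
    have s1 := pow_le_pow_left₀ (norm_nonneg _) n1 2
    have s2 := pow_le_pow_left₀ (norm_nonneg _) n2 2
    have s3 := pow_le_pow_left₀ (norm_nonneg _) b1 2
    rw [mul_pow, Real.sq_sqrt hS0] at s1 s2 s3
    rw [Real.norm_of_nonneg (by unfold gsq; positivity)]
    show ‖fderiv ℝ (Cf S χ c ξ) x 1‖ ^ 2 + ‖fderiv ℝ (Cf S χ c ξ) x Complex.I‖ ^ 2 +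
      ‖Cf S χ c ξ x‖ ^ 2 ≤ _
    linarith
  have hvol : volume (Metric.closedBall ξ (C * ρ)) < ⊤ := by
    rw [Complex.volume_closedBall]
    exact ENNReal.mul_lt_top (by simp) (by simp)
  have h3 := norm_setIntegral_le_of_norm_le_const hvol hpt
  have h4 : volume.real (Metric.closedBall ξ (C * ρ)) ≤ (C * ρ) ^ 2 * π := by
    rw [measureReal_def, Complex.volume_closedBall]
    rw [ENNReal.toReal_mul, ENNReal.toReal_pow]
    have e1 : ((NNReal.pi : ENNReal)).toReal = π := by rw [ENNReal.coe_toReal]; rfl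
    rw [e1, ENNReal.toReal_ofReal']
    gcongr ?_ * π
    rcases le_total (C * ρ) 0 with h5 | h5
    · rw [max_eq_right h5]
      have : 0 ≤ (C * ρ) ^ 2 := sq_nonneg _
      simpa using this
    · rw [max_eq_left h5]
  have h5 := (le_abs_self _).trans (Real.norm_eq_abs _ ▸ h3)
  refine h5.trans ?_
  calc 3 * D ^ 2 * Sc * volume.real (Metric.closedBall ξ (C * ρ))
      ≤ 3 * D ^ 2 * Sc * ((C * ρ) ^ 2 * π) := by gcongr
    _ = (3 * D ^ 2 * (C ^ 2 * π)) * ρ ^ 2 * Sc := by ring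
    _ ≤ (3 * D ^ 2 * (C ^ 2 * π) + 1) * ρ ^ 2 * Sc := by
      gcongr
      linarith

end Pool.MP_ad5d82_an.Wl
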