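import Pool.Agent.Lib.MP_ad5d82_an.h24.PDefs
import Pool.Agent.Lib.MP_ad5d82_an.h24.H.H1
import Pool.Agent.Lib.MP_ad5d82_an.h24.H.H4
import Pool.Agent.Lib.MP_ad5d82_an.h24.H.H5w
import Pool.Agent.Lib.MP_ad5d82_an.h24.H.H8b
import Pool.Agent.Lib.MP_ad5d82_an.h24.F.F3
import Pool.Agent.Lib.MP_ad5d82_an.h24.P.P0
import Pool.Agent.Lib.MP_ad5d82_an.h24.P.P1
import Pool.Agent.Lib.MP_ad5d82_an.h24.P.P2
import Pool.Agent.Lib.MP_ad5d82_an.h24.P.P3
import Pool.Agent.Lib.MP_ad5d82_an.h24.P.P3b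
import Pool.Agent.Lib.MP_ad5d82_an.h24.P.PC

set_option autoImplicit false

namespace Pool.MP_ad5d82_an.Wl

open Real Set MeasureTheory Filter Topology
open scoped ContDiff

variable {ι : Type} [Fintype ι] [DecidableEq ι]

variable {B : Base ι} {δ R₀ Ξ : ℝ}


/-! ### P4a integrability -/
theorem isSob_Cf (K : Cfg B δ R₀ Ξ) (c : Cc B.S) (ξ : ℂ) : IsSob (jet (Cf B.S K.χ c ξ)) :=
  isSob_jet (isTest_Cf K.fam c ξ)

theorem isSob_GG (K : Cfg B δ R₀ Ξ) {U : Fld ι} (hU : IsSob U) (c : Cc B.S) (ξ : ℂ) :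
    IsSob (GG K U c ξ) := hU.add (isSob_Cf K c ξ)

private theorem P4a_fst {U : Fld ι} (hU : IsSob U) :
    AEStronglyMeasurable (fun x => (U x).1) volume :=
  continuous_fst.comp_aestronglyMeasurable hU.1

private theorem P4a_cont_gP (S : Sys ι) : Continuous (gP S) := by
  unfold gP
  fun_prop

private theorem P4a_cont_gPb (S : Sys ι) :
    Continuous (fun p : (Ev ι × Ev ι × Ev ι) × (Ev ι × Ev ι × Ev ι) => gPb S p.1 p.2) := by
  unfold gPb
  fun_prop

private theorem P4a_abs_apply_le (g : Ev ι) (j : ι) : |g j| ≤ ‖g‖ := by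
  have := PiLp.norm_apply_le g j
  simpa [Real.norm_eq_abs] using this

private theorem P4a_mu_inv (S : Sys ι) (j : ι) : (0 : ℝ) ≤ (S.μ j : ℝ)⁻¹ ∧ (S.μ j : ℝ)⁻¹ ≤ 1 := by
  have h1 : (1 : ℝ) ≤ (S.μ j : ℝ) := by
    by_cases h : j = S.o
    · rw [h, S.μ_o]; norm_num
    · exact_mod_cast (S.one_lt j h).le
  exact ⟨by positivity, inv_le_one_of_one_le₀ h1⟩

private theorem P4a_pP_le (S : Sys ι) (g h : Ev ι) :
    |pP S g h| ≤ (Fintype.card ι : ℝ) * (‖g‖ * ‖h‖) := by
  unfold pP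
  refine (Finset.abs_sum_le_sum_abs _ _).trans ?_
  have : ∀ j ∈ (Finset.univ : Finset ι), |(S.μ j : ℝ)⁻¹ * (g j * h j)| ≤ ‖g‖ * ‖h‖ := by
    intro j _
    rw [abs_mul, abs_mul, abs_of_nonneg (P4a_mu_inv S j).1]
    calc (S.μ j : ℝ)⁻¹ * (|g j| * |h j|) ≤ 1 * (|g j| * |h j|) :=
          mul_le_mul_of_nonneg_right (P4a_mu_inv S j).2 (by positivity)
      _ = |g j| * |h j| := one_mul _
      _ ≤ ‖g‖ * ‖h‖ := mul_le_mul (P4a_abs_apply_le g j) (P4a_abs_apply_le h j) (abs_nonneg _)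
          (norm_nonneg _)
  refine (Finset.sum_le_sum this).trans ?_
  simp

/-- integrability from the two regions -/
private theorem P4a_split {f : ℂ → ℝ} {R : ℝ} (h1 : IntegrableOn f (Metric.ball 0 R) volume)
    (h2 : IntegrableOn f (Metric.ball 0 R)ᶜ volume) : Integrable f volume := by
  rw [← integrableOn_univ, ← Set.union_compl_self (Metric.ball (0 : ℂ) R)]
  exact h1.union h2

private theorem P4a_mono {f g : ℂ → ℝ} {s : Set ℂ} (hs : MeasurableSet s)
    (hg : IntegrableOn g s volume) (hf : AEStronglyMeasurable f volume)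
    (h : ∀ x ∈ s, |f x| ≤ g x) : IntegrableOn f s volume :=
  Integrable.mono' hg hf.restrict ((ae_restrict_iff' hs).2 (Eventually.of_forall fun x hx => by
    rw [Real.norm_eq_abs]; exact h x hx))

private theorem P4a_wtsq {G : Fld ι} (hG : IsSob G) :
    Integrable (fun x => wt x * ‖(G x).1‖ ^ 2) volume := by
  refine Integrable.mono' hG.integrable
    ((continuous_wt.aestronglyMeasurable).mul ((P4a_fst hG).norm.pow 2))
    (Eventually.of_forall fun x => ?_)
  have h1 : 0 ≤ wt x * ‖(G x).1‖ ^ 2 := mul_nonneg (wt_pos x).le (by positivity)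
  rw [Real.norm_eq_abs, abs_of_nonneg h1]
  unfold nsq gsq
  linarith [sq_nonneg ‖(G x).2.1‖, sq_nonneg ‖(G x).2.2‖]

private theorem P4a_Smeas {ρ ε : ℝ} {F : ℝ → ℝ} (h : Wall ρ ε F) (ξ : ℂ) :
    Measurable (fun x : ℂ => SS F (x - ξ)) :=
  ((SS_smooth h).continuous.comp (continuous_id.sub continuous_const)).measurable

theorem phi_integrable (B : Base ι) (δ R₀ Ξ : ℝ) (hδ : 0 < δ) (hδ1 : δ ≤ 1) (hR : 1 ≤ R₀)
    (hΞ : 0 ≤ Ξ) : ∃ ρ₀ : ℝ, ∀ K : Cfg B δ R₀ Ξ, ρ₀ ≤ K.ρ → ∀ G : Fld ι, IsSob G →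
    ∀ ξ : ℂ, ‖ξ‖ ≤ Ξ →
    Integrable (fun x => gP B.S (G x)) volume ∧
    Integrable (fun x => pot B δ R₀ K.ρ x (SS K.F (x - ξ)) (G x).1) volume ∧
    Integrable (fun x => pP B.S (g0 B x) (G x).1) volume ∧
    ∀ φ : Fld ι, IsSob φ → Integrable (fun x => gPb B.S (G x) (φ x)) volume ∧
      Integrable (fun x => fderiv ℝ (pot B δ R₀ K.ρ x (SS K.F (x - ξ))) (G x).1 (φ x).1) volume := by
  obtain ⟨ρ₀, hρ₀⟩ := pot_bounds B δ R₀ Ξ hδ hδ1 hR hΞ
  refine ⟨ρ₀, fun K hK G hG ξ hξ => ?_⟩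
  obtain ⟨C, hC, hb⟩ := hρ₀ K hK
  have hρ : 0 < K.ρ := by have := K.wall.hρ; linarith
  have hS := P4a_Smeas K.wall ξ
  have hG1 := P4a_fst hG
  have hball : MeasurableSet (Metric.ball (0 : ℂ) R₀) := measurableSet_ball
  refine ⟨?_, ?_, ?_, ?_⟩
  · refine Integrable.mono' hG.integrable_gsq
      ((P4a_cont_gP B.S).comp_aestronglyMeasurable hG.1) (Eventually.of_forall fun x => ?_)
    rw [Real.norm_eq_abs, abs_of_nonneg (gP_nonneg _ _)]
    exact gP_le _ _
  · have hm := pot_meas B (R₀ := R₀) hδ hρ hS hG1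
    refine P4a_split (R := R₀) ?_ ?_
    · refine P4a_mono (g := fun x => C * ((1 + ‖v0 B x‖ ^ 2) + exp (C * ‖(G x).1‖))) hball ?_ hm ?_
      · refine Integrable.const_mul ?_ C
        refine Integrable.add (Integrable.add ?_ ?_) (exp_integrable hG C R₀)
        · exact integrableOn_const measure_ball_lt_top.ne
        · exact (v0_sq B).integrableOn
      · intro x hx
        have hx' : ‖x‖ < R₀ := by simpa using hx
        refine (((hb ξ hξ x (G x).1 0).1 hx').1).trans ?_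
        refine mul_le_mul_of_nonneg_left ?_ hC.le
        linarith [sq_nonneg (‖v0 B x‖ - 1), norm_nonneg (v0 B x)]
    · refine P4a_mono (g := fun x => C * (wt x * ‖(G x).1‖ ^ 2)) hball.compl ?_ hm ?_
      · exact ((P4a_wtsq hG).const_mul C).integrableOn
      · intro x hx
        have hx' : R₀ ≤ ‖x‖ := by simpa using hx
        refine (((hb ξ hξ x (G x).1 0).2 hx').1).trans (le_of_eq ?_)
        ring
  · obtain ⟨Rv, hRv, _, hsupp⟩ := v0_supp B
    obtain ⟨C₁, hC₁⟩ := g0_bound B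
    have hm : AEStronglyMeasurable (fun x => pP B.S (g0 B x) (G x).1) volume := by
      have hc : Continuous (fun p : Ev ι × Ev ι => pP B.S p.1 p.2) := by
        unfold pP
        fun_prop
      have h8 : AEStronglyMeasurable (g0 B) volume :=
        (g0_smooth B).continuous.aestronglyMeasurable
      have h9 := hc.comp_aestronglyMeasurable (h8.prodMk hG1)
      exact h9
    refine P4a_split (R := Rv) ?_ ?_
    · refine P4a_mono (g := fun x => (Fintype.card ι : ℝ) * (|C₁| * ‖(G x).1‖)) measurableSet_ball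
        ?_ hm ?_
      · exact ((hG.integrableOn Rv).const_mul _).const_mul _
      · intro x _
        refine (P4a_pP_le _ _ _).trans ?_
        refine mul_le_mul_of_nonneg_left ?_ (by positivity)
        exact mul_le_mul_of_nonneg_right ((hC₁ x).trans (le_abs_self _)) (norm_nonneg _)
    · refine P4a_mono (g := fun _ => (0 : ℝ)) measurableSet_ball.compl integrableOn_zero hm ?_
      intro x hx
      have hx' : Rv ≤ ‖x‖ := by simpa using hx
      rw [(hsupp x hx').2]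
      simp [pP]
  · intro φ hφ
    have hφ1 := P4a_fst hφ
    refine ⟨?_, ?_⟩
    · have h9 := (P4a_cont_gPb B.S).comp_aestronglyMeasurable (hG.1.prodMk hφ.1)
      refine Integrable.mono' (hG.integrable_gsq.add hφ.integrable_gsq) h9
        (Eventually.of_forall fun x => ?_)
      rw [Real.norm_eq_abs]
      refine (gPb_le _ _ _).trans ?_
      have h1 : 0 ≤ gsq (G x) := by unfold gsq; positivity
      have h2 : 0 ≤ gsq (φ x) := by unfold gsq; positivity
      simp only [Pi.add_apply]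
      linarith [sq_nonneg (Real.sqrt (gsq (G x)) - Real.sqrt (gsq (φ x))), Real.sq_sqrt h1,
        Real.sq_sqrt h2, Real.sqrt_nonneg (gsq (G x)), Real.sqrt_nonneg (gsq (φ x))]
    · have hm := dpot_meas B (R₀ := R₀) hδ hρ hS hG1 hφ1
      refine P4a_split (R := R₀) ?_ ?_
      · refine P4a_mono (g := fun x => C * (exp (2 * C * ‖(G x).1‖) + ‖(φ x).1‖ ^ 2)) hball ?_ hm ?_
        · exact ((exp_integrable hG (2 * C) R₀).add (hφ.integrableOn_sq R₀)).const_mul C
        · intro x hx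
          have hx' : ‖x‖ < R₀ := by simpa using hx
          refine (((hb ξ hξ x (G x).1 (φ x).1).1 hx').2.1).trans ?_
          rw [mul_assoc]
          refine mul_le_mul_of_nonneg_left ?_ hC.le
          have h3 : exp (2 * C * ‖(G x).1‖) = exp (C * ‖(G x).1‖) ^ 2 := by
            rw [← Real.exp_nat_mul]; congr 1; push_cast; ring
          rw [h3]
          nlinarith [sq_nonneg (exp (C * ‖(G x).1‖) - ‖(φ x).1‖), exp_pos (C * ‖(G x).1‖),
            norm_nonneg (φ x).1]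
      · refine P4a_mono (g := fun x => C * (wt x * ‖(G x).1‖ ^ 2 + wt x * ‖(φ x).1‖ ^ 2))
          hball.compl ?_ hm ?_
        · exact (((P4a_wtsq hG).add (P4a_wtsq hφ)).const_mul C).integrableOn
        · intro x hx
          have hx' : R₀ ≤ ‖x‖ := by simpa using hx
          refine (((hb ξ hξ x (G x).1 (φ x).1).2 hx').2.1).trans ?_
          have h4 : C * wt x * ‖(G x).1‖ * ‖(φ x).1‖ = C * (wt x * (‖(G x).1‖ * ‖(φ x).1‖)) := by
            ring
          rw [h4]
          refine mul_le_mul_of_nonneg_left ?_ hC.le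
          rw [← mul_add]
          refine mul_le_mul_of_nonneg_left ?_ (wt_pos x).le
          nlinarith [sq_nonneg (‖(G x).1‖ - ‖(φ x).1‖), norm_nonneg (G x).1, norm_nonneg (φ x).1]

private theorem P4a_trig_le (k : ℕ) (b : Bool) (z : ℂ) : |trig k b z| ≤ 1 := by
  have h : ‖(z / (‖z‖ : ℂ)) ^ k‖ ≤ 1 := by
    rw [norm_pow]
    refine pow_le_one₀ (norm_nonneg _) ?_
    rw [norm_div, Complex.norm_real, norm_norm]
    exact div_self_le_one _
  unfold trig
  split_ifs
  · exact (Complex.abs_re_le_norm _).trans h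
  · exact (Complex.abs_im_le_norm _).trans h

private theorem P4a_om_le (t : ℝ) : |om t| ≤ 1 := by
  unfold om
  rw [abs_of_nonneg (Real.smoothTransition.nonneg _)]
  exact Real.smoothTransition.le_one _

private theorem P4a_om_zero {t : ℝ} (ht : 1 ≤ |t|) : om t = 0 := by
  unfold om
  apply Real.smoothTransition.zero_of_nonpos
  have : 1 ≤ t ^ 2 := by
    rw [← sq_abs]; nlinarith [abs_nonneg t]
  linarith

private theorem P4a_om_cont : Continuous om := by
  unfold om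
  exact Real.smoothTransition.continuous.comp (by fun_prop)

private theorem P4a_trig_meas (k : ℕ) (b : Bool) : Measurable (trig k b) := by
  have h : Measurable (fun z : ℂ => (z / (‖z‖ : ℂ)) ^ k) := by
    refine Measurable.pow_const (measurable_id.div ?_) k
    exact Complex.measurable_ofReal.comp measurable_norm
  unfold trig
  cases b
  · simp only [Bool.false_eq_true, if_false]
    exact Complex.measurable_im.comp h
  · simp only [if_true]
    exact Complex.measurable_re.comp h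

private theorem P4a_ker_meas (ρ : ℝ) (i : ι × ℕ × Bool) (ξ : ℂ) :
    Measurable (fun x : ℂ => om (‖x - ξ‖ - ρ) * trig i.2.1 i.2.2 (x - ξ)) := by
  refine Measurable.mul ?_ ?_
  · exact (P4a_om_cont.comp (by fun_prop)).measurable
  · exact (P4a_trig_meas _ _).comp (by fun_prop)

/-- pointwise bound of the integrand of `ell` -/
private theorem P4a_ell_pt (ρ : ℝ) (i : ι × ℕ × Bool) {ξ : ℂ} {Ξ : ℝ} (hξ : ‖ξ‖ ≤ Ξ) (U : Fld ι)
    (x : ℂ) : |om (‖x - ξ‖ - ρ) * trig i.2.1 i.2.2 (x - ξ) * (U x).1 i.1| ≤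
      (Metric.ball (0 : ℂ) (|ρ| + 1 + Ξ)).indicator (fun x => ‖(U x).1‖) x := by
  by_cases hx : x ∈ Metric.ball (0 : ℂ) (|ρ| + 1 + Ξ)
  · rw [Set.indicator_of_mem hx, abs_mul, abs_mul]
    calc |om (‖x - ξ‖ - ρ)| * |trig i.2.1 i.2.2 (x - ξ)| * |(U x).1 i.1| ≤ 1 * 1 * ‖(U x).1‖ := by
          refine mul_le_mul (mul_le_mul (P4a_om_le _) (P4a_trig_le _ _ _) (abs_nonneg _) zero_le_one)
            (P4a_abs_apply_le _ _) (abs_nonneg _) (by norm_num)
      _ = ‖(U x).1‖ := by ring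
  · rw [Set.indicator_of_notMem hx]
    have hx' : |ρ| + 1 + Ξ ≤ ‖x‖ := by simpa using hx
    have h1 : 1 ≤ |‖x - ξ‖ - ρ| := by
      have h2 : ‖x‖ - ‖ξ‖ ≤ ‖x - ξ‖ := norm_sub_norm_le _ _
      have h3 : ρ ≤ |ρ| := le_abs_self _
      rw [le_abs]
      left
      linarith
    rw [P4a_om_zero h1]
    simp

theorem ell_integrable (ρ : ℝ) (i : ι × ℕ × Bool) (ξ : ℂ) {U : Fld ι} (hU : IsSob U) :
    Integrable (fun x : ℂ => om (‖x - ξ‖ - ρ) * trig i.2.1 i.2.2 (x - ξ) * (U x).1 i.1) volume := by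
  have h1 : Integrable ((Metric.ball (0 : ℂ) (|ρ| + 1 + ‖ξ‖)).indicator (fun x => ‖(U x).1‖))
      volume := (integrable_indicator_iff measurableSet_ball).2 (hU.integrableOn _)
  refine Integrable.mono' h1 ?_ (Eventually.of_forall fun x => ?_)
  · refine (P4a_ker_meas ρ i ξ).aestronglyMeasurable.mul ?_
    have hc : Continuous (fun g : Ev ι => g i.1) := by fun_prop
    exact hc.comp_aestronglyMeasurable (P4a_fst hU)
  · rw [Real.norm_eq_abs]
    exact P4a_ell_pt ρ i le_rfl U x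

theorem ell_add (ρ : ℝ) (i : ι × ℕ × Bool) (ξ : ℂ) {U V : Fld ι} (hU : IsSob U) (hV : IsSob V) :
    ell ρ i ξ (U + V) = ell ρ i ξ U + ell ρ i ξ V := by
  unfold ell
  rw [← integral_add (ell_integrable ρ i ξ hU) (ell_integrable ρ i ξ hV)]
  refine integral_congr_ae (Eventually.of_forall fun x => ?_)
  simp only [Pi.add_apply, Prod.fst_add, PiLp.add_apply]
  ring

theorem ell_smul (ρ : ℝ) (i : ι × ℕ × Bool) (ξ : ℂ) (t : ℝ) (U : Fld ι) :
    ell ρ i ξ (t • U) = t * ell ρ i ξ U := by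
  unfold ell
  rw [← integral_const_mul]
  refine integral_congr_ae (Eventually.of_forall fun x => ?_)
  simp only [Pi.smul_apply, Prod.smul_fst, PiLp.smul_apply, smul_eq_mul]
  ring

/-- crude bound, uniform for bounded `ξ`. -/
theorem ell_bound (ρ Ξ : ℝ) {U : Fld ι} (hU : IsSob U) : ∃ M : ℝ, ∀ (i : ι × ℕ × Bool) (ξ : ℂ),
    ‖ξ‖ ≤ Ξ → |ell ρ i ξ U| ≤ M := by
  refine ⟨∫ x, (Metric.ball (0 : ℂ) (|ρ| + 1 + Ξ)).indicator (fun x => ‖(U x).1‖) x,
    fun i ξ hξ => ?_⟩
  have h1 : Integrable ((Metric.ball (0 : ℂ) (|ρ| + 1 + Ξ)).indicator (fun x => ‖(U x).1‖))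
      volume := (integrable_indicator_iff measurableSet_ball).2 (hU.integrableOn _)
  unfold ell
  rw [← Real.norm_eq_abs]
  refine norm_integral_le_of_norm_le h1 (Eventually.of_forall fun x => ?_)
  rw [Real.norm_eq_abs]
  exact P4a_ell_pt ρ i hξ U x

/-- moving `c` is the same as adding a field. -/
theorem PhiJ_c (K : Cfg B δ R₀ Ξ) (U : Fld ι) (c c' : Cc B.S) (ξ : ℂ) :
    PhiJ K U (c + c') ξ = PhiJ K (U + jet (Cf B.S K.χ c' ξ)) c ξ := by
  have h : GG K U (c + c') ξ = GG K (U + jet (Cf B.S K.χ c' ξ)) c ξ := by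
    unfold GG
    rw [jet_Cf_add K.fam]
    abel
  unfold PhiJ
  rw [h]

end Pool.MP_ad5d82_an.Wl
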