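import Pool.Agent.Lib.MP_ad5d82_an.h24.PDefs
import Pool.Agent.Lib.MP_ad5d82_an.h24.P.P0
import Pool.Agent.Lib.MP_ad5d82_an.h24.P.P1
import Pool.Agent.Lib.MP_ad5d82_an.h24.P.P2
import Pool.Agent.Lib.MP_ad5d82_an.h24.P.P3
import Pool.Agent.Lib.MP_ad5d82_an.h24.P.P3b
import Pool.Agent.Lib.MP_ad5d82_an.h24.P.PC
import Pool.Agent.Lib.MP_ad5d82_an.h24.P.P4a

set_option autoImplicit false

namespace Pool.MP_ad5d82_an.Wl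

open Real Set MeasureTheory Filter Topology
open scoped ContDiff

variable {ι : Type} [Fintype ι] [DecidableEq ι]

variable {B : Base ι} {δ R₀ Ξ : ℝ}


/-! ### P4b splitting of the functional -/
/-- inner density -/
noncomputable def inD (B : Base ι) (x : ℂ) (s : ℝ) (u : Ev ι × Ev ι × Ev ι) : ℝ :=
  1 / 2 * gP B.S u + WW B.S s (v0 B x + u.1)
/-- outer density -/
noncomputable def outD (B : Base ι) (δ ρ : ℝ) (x : ℂ) (s : ℝ) (u : Ev ι × Ev ι × Ev ι) : ℝ :=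
  1 / 2 * (gP B.S u + qV B.S s u.1) + RT B.S (tau δ ρ x) s u.1

private theorem P4b_GG_eq (K : Cfg B δ R₀ Ξ) (U : Fld ι) (c : Cc B.S) {ξ x : ℂ} (hξ : ‖ξ‖ ≤ Ξ)
    (hx : ‖x‖ + Ξ < 0.93 * K.ρ) : GG K U c ξ x = U x := by
  have h1 : ‖x - ξ‖ < 0.93 * K.ρ := by
    have := norm_sub_le x ξ
    linarith
  obtain ⟨h2, h3⟩ := Cf_zero K.fam c ξ x h1
  unfold GG jet
  simp only [Pi.add_apply, h2, h3]
  ext1
  · simp
  · ext1 <;> simp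

private theorem P4b_meas_gt (R : ℝ) : MeasurableSet {x : ℂ | R < ‖x‖} :=
  measurableSet_lt measurable_const measurable_norm
private theorem P4b_meas_lt (R : ℝ) : MeasurableSet {x : ℂ | ‖x‖ < R} :=
  measurableSet_lt measurable_norm measurable_const
private theorem P4b_meas_ge (R : ℝ) : MeasurableSet {x : ℂ | R ≤ ‖x‖} :=
  measurableSet_le measurable_const measurable_norm

private theorem P4b_pP (K : Cfg B δ R₀ Ξ) (U : Fld ι) (c : Cc B.S) {ξ : ℂ} (hξ : ‖ξ‖ ≤ Ξ)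
    {Rv : ℝ} (hRv : Rv + Ξ < 0.93 * K.ρ) (hv : ∀ x : ℂ, Rv ≤ ‖x‖ → v0 B x = 0 ∧ g0 B x = 0) (x : ℂ) :
    pP B.S (g0 B x) (GG K U c ξ x).1 = pP B.S (g0 B x) (U x).1 := by
  by_cases hx : Rv ≤ ‖x‖
  · rw [(hv x hx).2]
    simp [pP]
  · rw [P4b_GG_eq K U c hξ (by push Not at hx; linarith)]

theorem PhiJ_split (B : Base ι) (δ R₀ Ξ : ℝ) (hδ : 0 < δ) (hδ1 : δ ≤ 1) (hR : 1 ≤ R₀)
    (hΞ : 0 ≤ Ξ) : ∃ ρ₀ : ℝ, ∀ K : Cfg B δ R₀ Ξ, ρ₀ ≤ K.ρ → ∀ U : Fld ι, IsSob U →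
    ∀ (c : Cc B.S) (ξ : ℂ), ‖ξ‖ ≤ Ξ →
    IntegrableOn (fun x => inD B x (SS K.F (x - ξ)) (U x)) {x : ℂ | ‖x‖ < R₀} volume ∧
    IntegrableOn (fun x => outD B δ K.ρ x (SS K.F (x - ξ)) (GG K U c ξ x)) {x : ℂ | R₀ < ‖x‖} volume ∧
    PhiJ K U c ξ = (∫ x in {x : ℂ | ‖x‖ < R₀}, inD B x (SS K.F (x - ξ)) (U x))
      + (∫ x in {x : ℂ | R₀ < ‖x‖}, outD B δ K.ρ x (SS K.F (x - ξ)) (GG K U c ξ x))
      + (∫ x, pP B.S (g0 B x) (U x).1)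
      + 4 * π * ∑ n, B.S.m (B.cp n) * SS K.F (B.p n - ξ) := by
  obtain ⟨ρ₁, hρ₁⟩ := phi_integrable B δ R₀ Ξ hδ hδ1 hR hΞ
  obtain ⟨Rv, hRv, _, hv⟩ := v0_supp B
  refine ⟨max ρ₁ (2 * (R₀ + Rv + Ξ)), fun K hK U hU c ξ hξ => ?_⟩
  have hK1 : ρ₁ ≤ K.ρ := (le_max_left _ _).trans hK
  have hK2 : 2 * (R₀ + Rv + Ξ) ≤ K.ρ := (le_max_right _ _).trans hK
  obtain ⟨hg, hp, hl, _⟩ := hρ₁ K hK1 (GG K U c ξ) (isSob_GG K hU c ξ) ξ hξ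
  have hT : Integrable (fun x => 1 / 2 * gP B.S (GG K U c ξ x)
      + pot B δ R₀ K.ρ x (SS K.F (x - ξ)) (GG K U c ξ x).1) volume := (hg.const_mul _).add hp
  have hin : EqOn (fun x => 1 / 2 * gP B.S (GG K U c ξ x)
      + pot B δ R₀ K.ρ x (SS K.F (x - ξ)) (GG K U c ξ x).1)
      (fun x => inD B x (SS K.F (x - ξ)) (U x)) {x : ℂ | ‖x‖ < R₀} := by
    intro x hx
    have hx' : ‖x‖ < R₀ := hx
    simp only [inD, pot, if_pos hx']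
    rw [P4b_GG_eq K U c hξ (by linarith)]
  have hout : EqOn (fun x => 1 / 2 * gP B.S (GG K U c ξ x)
      + pot B δ R₀ K.ρ x (SS K.F (x - ξ)) (GG K U c ξ x).1)
      (fun x => outD B δ K.ρ x (SS K.F (x - ξ)) (GG K U c ξ x)) {x : ℂ | R₀ < ‖x‖} := by
    intro x hx
    have hx' : ¬ ‖x‖ < R₀ := not_lt.2 (le_of_lt hx)
    simp only [outD, pot, if_neg hx']
    ring
  refine ⟨hT.integrableOn.congr_fun hin (P4b_meas_lt _),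
    hT.integrableOn.congr_fun hout (P4b_meas_gt _), ?_⟩
  unfold PhiJ
  rw [← integral_add (hg.const_mul _) hp, integral_split hT R₀,
    setIntegral_congr_fun (P4b_meas_lt _) hin, setIntegral_congr_fun (P4b_meas_gt _) hout]
  have h3 : ∫ x, pP B.S (g0 B x) (GG K U c ξ x).1 = ∫ x, pP B.S (g0 B x) (U x).1 := by
    refine integral_congr_ae (Eventually.of_forall fun x => ?_)
    exact P4b_pP K U c hξ (by linarith) hv x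
  rw [h3]

theorem DPhiJ_split (B : Base ι) (δ R₀ Ξ : ℝ) (hδ : 0 < δ) (hδ1 : δ ≤ 1) (hR : 1 ≤ R₀)
    (hΞ : 0 ≤ Ξ) : ∃ ρ₀ : ℝ, ∀ K : Cfg B δ R₀ Ξ, ρ₀ ≤ K.ρ → ∀ U φ : Fld ι, IsSob U → IsSob φ →
    ∀ (c : Cc B.S) (ξ : ℂ), ‖ξ‖ ≤ Ξ →
    DPhiJ K U c ξ φ = (∫ x in {x : ℂ | ‖x‖ < R₀}, (gPb B.S (U x) (φ x)
          + fderiv ℝ (WW B.S (SS K.F (x - ξ))) (v0 B x + (U x).1) (φ x).1))
      + (∫ x in {x : ℂ | R₀ < ‖x‖}, (gPb B.S (GG K U c ξ x) (φ x)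
          + qVb B.S (SS K.F (x - ξ)) (GG K U c ξ x).1 (φ x).1
          + fderiv ℝ (RT B.S (tau δ K.ρ x) (SS K.F (x - ξ))) (GG K U c ξ x).1 (φ x).1))
      + (∫ x, pP B.S (g0 B x) (φ x).1) := by
  obtain ⟨ρ₁, hρ₁⟩ := phi_integrable B δ R₀ Ξ hδ hδ1 hR hΞ
  refine ⟨max ρ₁ (2 * (R₀ + Ξ)), fun K hK U φ hU hφ c ξ hξ => ?_⟩
  have hK1 : ρ₁ ≤ K.ρ := (le_max_left _ _).trans hK
  have hK2 : 2 * (R₀ + Ξ) ≤ K.ρ := (le_max_right _ _).trans hK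
  have hρ : 0 < K.ρ := by have := K.wall.hρ; linarith
  obtain ⟨_, _, _, h⟩ := hρ₁ K hK1 (GG K U c ξ) (isSob_GG K hU c ξ) ξ hξ
  obtain ⟨hg, hp⟩ := h φ hφ
  have hT := hg.add hp
  have hin : EqOn (fun x => gPb B.S (GG K U c ξ x) (φ x)
      + fderiv ℝ (pot B δ R₀ K.ρ x (SS K.F (x - ξ))) (GG K U c ξ x).1 (φ x).1)
      (fun x => gPb B.S (U x) (φ x)
          + fderiv ℝ (WW B.S (SS K.F (x - ξ))) (v0 B x + (U x).1) (φ x).1)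
      {x : ℂ | ‖x‖ < R₀} := by
    intro x hx
    have hx' : ‖x‖ < R₀ := hx
    simp only
    rw [dpot_in B x hx', P4b_GG_eq K U c hξ (by linarith)]
  have hout : EqOn (fun x => gPb B.S (GG K U c ξ x) (φ x)
      + fderiv ℝ (pot B δ R₀ K.ρ x (SS K.F (x - ξ))) (GG K U c ξ x).1 (φ x).1)
      (fun x => gPb B.S (GG K U c ξ x) (φ x)
          + qVb B.S (SS K.F (x - ξ)) (GG K U c ξ x).1 (φ x).1
          + fderiv ℝ (RT B.S (tau δ K.ρ x) (SS K.F (x - ξ))) (GG K U c ξ x).1 (φ x).1)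
      {x : ℂ | R₀ < ‖x‖} := by
    intro x hx
    have hx' : R₀ ≤ ‖x‖ := le_of_lt hx
    simp only
    rw [dpot_out B hδ hρ x hx']
    ring
  unfold DPhiJ
  rw [← integral_add hg hp]
  have h4 := integral_split hT R₀
  simp only [Pi.add_apply] at h4
  rw [h4, setIntegral_congr_fun (P4b_meas_lt _) hin, setIntegral_congr_fun (P4b_meas_gt _) hout]

/-- potential energy in the disc `‖x‖ < 0.88ρ` (no negative modes there) -/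
noncomputable def inP (K : Cfg B δ R₀ Ξ) (U : Fld ι) (ξ : ℂ) : ℝ :=
  ∫ x in {x : ℂ | ‖x‖ < 0.88 * K.ρ}, pot B δ R₀ K.ρ x (SS K.F (x - ξ)) (U x).1
/-- energy outside `‖x‖ < 0.88ρ` -/
noncomputable def outQ (K : Cfg B δ R₀ Ξ) (U : Fld ι) (c : Cc B.S) (ξ : ℂ) : ℝ :=
  ∫ x in {x : ℂ | 0.88 * K.ρ ≤ ‖x‖}, outD B δ K.ρ x (SS K.F (x - ξ)) (GG K U c ξ x)

theorem Phi_split2 (B : Base ι) (δ R₀ Ξ : ℝ) (hδ : 0 < δ) (hδ1 : δ ≤ 1) (hR : 1 ≤ R₀)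
    (hΞ : 0 ≤ Ξ) : ∃ ρ₀ : ℝ, ∀ K : Cfg B δ R₀ Ξ, ρ₀ ≤ K.ρ → ∀ U : Fld ι, IsSob U →
    ∀ (c : Cc B.S) (ξ : ℂ), ‖ξ‖ ≤ Ξ →
    Phi K U c ξ = (∫ x in {x : ℂ | ‖x‖ < 0.88 * K.ρ}, 1 / 2 * gP B.S (U x)) + inP K U ξ + outQ K U c ξ
      + (∫ x, pP B.S (g0 B x) (U x).1)
      + 4 * π * (∑ n, B.S.m (B.cp n) * SS K.F (B.p n - ξ))
      + K.ρ ^ 2 * ∑ i ∈ modes B.S, ell K.ρ i ξ U ^ 2 := by
  obtain ⟨ρ₁, hρ₁⟩ := phi_integrable B δ R₀ Ξ hδ hδ1 hR hΞ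
  obtain ⟨Rv, hRv, _, hv⟩ := v0_supp B
  refine ⟨max ρ₁ (40 * (R₀ + Rv + Ξ)), fun K hK U hU c ξ hξ => ?_⟩
  have hK1 : ρ₁ ≤ K.ρ := (le_max_left _ _).trans hK
  have hK2 : 40 * (R₀ + Rv + Ξ) ≤ K.ρ := (le_max_right _ _).trans hK
  obtain ⟨hg, hp, hl, _⟩ := hρ₁ K hK1 (GG K U c ξ) (isSob_GG K hU c ξ) ξ hξ
  obtain ⟨hg', hp', _, _⟩ := hρ₁ K hK1 U hU ξ hξ
  have hT : Integrable (fun x => 1 / 2 * gP B.S (GG K U c ξ x)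
      + pot B δ R₀ K.ρ x (SS K.F (x - ξ)) (GG K U c ξ x).1) volume := (hg.const_mul _).add hp
  have hin : EqOn (fun x => 1 / 2 * gP B.S (GG K U c ξ x)
      + pot B δ R₀ K.ρ x (SS K.F (x - ξ)) (GG K U c ξ x).1)
      (fun x => 1 / 2 * gP B.S (U x) + pot B δ R₀ K.ρ x (SS K.F (x - ξ)) (U x).1)
      {x : ℂ | ‖x‖ < 0.88 * K.ρ} := by
    intro x hx
    have hx' : ‖x‖ < 0.88 * K.ρ := hx
    simp only
    rw [P4b_GG_eq K U c hξ (by linarith)]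
  have hout : EqOn (fun x => 1 / 2 * gP B.S (GG K U c ξ x)
      + pot B δ R₀ K.ρ x (SS K.F (x - ξ)) (GG K U c ξ x).1)
      (fun x => outD B δ K.ρ x (SS K.F (x - ξ)) (GG K U c ξ x)) {x : ℂ | 0.88 * K.ρ ≤ ‖x‖} := by
    intro x hx
    have hx2 : 0.88 * K.ρ ≤ ‖x‖ := hx
    have hx' : ¬ ‖x‖ < R₀ := not_lt.2 (by linarith)
    simp only [outD, pot, if_neg hx']
    ring
  unfold Phi PhiJ
  rw [← integral_add (hg.const_mul _) hp, integral_split_le hT (0.88 * K.ρ),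
    setIntegral_congr_fun (P4b_meas_lt _) hin, setIntegral_congr_fun (P4b_meas_ge _) hout,
    integral_add (hg'.const_mul _).integrableOn hp'.integrableOn]
  have h3 : ∫ x, pP B.S (g0 B x) (GG K U c ξ x).1 = ∫ x, pP B.S (g0 B x) (U x).1 := by
    refine integral_congr_ae (Eventually.of_forall fun x => ?_)
    exact P4b_pP K U c hξ (by linarith) hv x
  rw [h3]
  rfl

end Pool.MP_ad5d82_an.Wl
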