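import Pool.Agent.Lib.MP_ad5d82_an.h24.PDefs
import Pool.Agent.Lib.MP_ad5d82_an.h24.P.P0
import Pool.Agent.Lib.MP_ad5d82_an.h24.P.P1
import Pool.Agent.Lib.MP_ad5d82_an.h24.P.P2
import Pool.Agent.Lib.MP_ad5d82_an.h24.P.P3
import Pool.Agent.Lib.MP_ad5d82_an.h24.P.P3b
import Pool.Agent.Lib.MP_ad5d82_an.h24.P.PC
import Pool.Agent.Lib.MP_ad5d82_an.h24.P.P4a

set_option autoImplicit false

namespace Pool.MP_ad5d82_an.Wl

open Real Set MeasureTheory Filter Topology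
open scoped ContDiff

variable {ι : Type} [Fintype ι] [DecidableEq ι]

variable {B : Base ι} {δ R₀ Ξ : ℝ}

/-! ### P4c second order Taylor estimate -/

private theorem p4c_pP_add (S : Sys ι) (g h h' : Ev ι) : pP S g (h + h') = pP S g h + pP S g h' := by
  unfold pP
  rw [← Finset.sum_add_distrib]
  apply Finset.sum_congr rfl
  intro j _
  simp only [PiLp.add_apply]
  ring

private theorem p4c_pP_smul (S : Sys ι) (g h : Ev ι) (t : ℝ) : pP S g (t • h) = t * pP S g h := by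
  unfold pP
  rw [Finset.mul_sum]
  apply Finset.sum_congr rfl
  intro j _
  simp only [PiLp.smul_apply, smul_eq_mul]
  ring

private theorem p4c_pow_exp (b : ℝ) (hb : 0 ≤ b) : b ^ 4 ≤ 24 * exp b := by
  have h := Real.pow_div_factorial_le_exp b hb 4
  have h4 : ((Nat.factorial 4 : ℕ) : ℝ) = 24 := by norm_num [Nat.factorial]
  rw [h4, div_le_iff₀ (by norm_num)] at h
  linarith

private theorem p4c_GG_add (K : Cfg B δ R₀ Ξ) (U φ : Fld ι) (c : Cc B.S) (ξ : ℂ) (x : ℂ) :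
    GG K (U + φ) c ξ x = GG K U c ξ x + φ x := by
  unfold GG
  simp only [Pi.add_apply]
  abel

/-- the dominating function -/
private noncomputable def p4c_h (R C : ℝ) (U φ : Fld ι) (x : ℂ) : ℝ :=
  (Metric.ball (0 : ℂ) R).indicator
    (fun x => C * (exp (2 * C * ‖(U x).1‖) + 24 * exp ((2 * C + 1) * ‖(φ x).1‖))) x
    + C * nsq x (φ x)

omit [DecidableEq ι] in
private theorem p4c_gsq_nonneg (u : Ev ι × Ev ι × Ev ι) : 0 ≤ gsq u := by
  unfold gsq; positivity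

private theorem p4c_nsq_nonneg (x : ℂ) (u : Ev ι × Ev ι × Ev ι) : 0 ≤ nsq x u := by
  unfold nsq
  have := wt_pos x
  have := p4c_gsq_nonneg u
  positivity

private theorem p4c_h_int (R C : ℝ) {U φ : Fld ι} (hU : IsSob U) (hφ : IsSob φ) :
    Integrable (p4c_h R C U φ) volume := by
  unfold p4c_h
  apply Integrable.add
  · apply IntegrableOn.integrable_indicator _ measurableSet_ball
    apply Integrable.const_mul
    exact (exp_integrable hU (2 * C) R).add ((exp_integrable hφ (2 * C + 1) R).const_mul 24)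
  · exact hφ.integrable.const_mul C

/-- second order Taylor estimate, uniform in `c` and `ξ`. -/
theorem phi_taylor (B : Base ι) (δ R₀ Ξ : ℝ) (hδ : 0 < δ) (hδ1 : δ ≤ 1) (hR : 1 ≤ R₀)
    (hΞ : 0 ≤ Ξ) : ∃ ρ₀ : ℝ, ∀ K : Cfg B δ R₀ Ξ, ρ₀ ≤ K.ρ → ∀ U φ : Fld ι, IsSob U → IsSob φ →
    ∃ M : ℝ, ∀ t : ℝ, |t| ≤ 1 → ∀ (c : Cc B.S) (ξ : ℂ), ‖ξ‖ ≤ Ξ →
    |PhiJ K (U + t • φ) c ξ - PhiJ K U c ξ - t * DPhiJ K U c ξ φ| ≤ M * t ^ 2 ∧
    |Phi K (U + t • φ) c ξ - Phi K U c ξ - t * DPhi K U c ξ φ| ≤ M * t ^ 2 := by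
  obtain ⟨ρ₁, h1⟩ := pot_bounds B δ R₀ Ξ hδ hδ1 hR hΞ
  obtain ⟨ρ₂, h2⟩ := phi_integrable B δ R₀ Ξ hδ hδ1 hR hΞ
  refine ⟨max (max ρ₁ ρ₂) (2 * (R₀ + Ξ) + 1), fun K hK U φ hU hφ => ?_⟩
  have hρ1 : ρ₁ ≤ K.ρ := (le_max_left _ _).trans ((le_max_left _ _).trans hK)
  have hρ2 : ρ₂ ≤ K.ρ := (le_max_right _ _).trans ((le_max_left _ _).trans hK)
  have hρ3 : 2 * (R₀ + Ξ) + 1 ≤ K.ρ := (le_max_right _ _).trans hK
  obtain ⟨C, hC, hb⟩ := h1 K hρ1
  obtain ⟨Me, hMe⟩ := ell_bound K.ρ Ξ hφ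
  obtain ⟨M₁, hM₁⟩ : ∃ M₁ : ℝ, M₁ = 1 / 2 * (∫ x, gP B.S (φ x)) + ∫ x, p4c_h R₀ C U φ x := ⟨_, rfl⟩
  have hgPφ : 0 ≤ ∫ x, gP B.S (φ x) := integral_nonneg fun x => gP_nonneg _ _
  have key : ∀ t : ℝ, |t| ≤ 1 → ∀ (c : Cc B.S) (ξ : ℂ), ‖ξ‖ ≤ Ξ →
      |PhiJ K (U + t • φ) c ξ - PhiJ K U c ξ - t * DPhiJ K U c ξ φ| ≤ M₁ * t ^ 2 := by
    intro t ht c ξ hξ
    have hG : IsSob (GG K U c ξ) := isSob_GG K hU c ξ
    have hG' : IsSob (GG K (U + t • φ) c ξ) := isSob_GG K (hU.add (hφ.smul t)) c ξ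
    obtain ⟨a1, a2, a3, a4⟩ := h2 K hρ2 _ hG ξ hξ
    obtain ⟨b1, b2, b3, _⟩ := h2 K hρ2 _ hG' ξ hξ
    obtain ⟨c1, _, _, _⟩ := h2 K hρ2 _ hφ ξ hξ
    obtain ⟨d1, d2⟩ := a4 φ hφ
    have hGG : ∀ x, GG K (U + t • φ) c ξ x = GG K U c ξ x + t • φ x := fun x => by
      rw [p4c_GG_add]; rfl
    have hGG1 : ∀ x, (GG K (U + t • φ) c ξ x).1 = (GG K U c ξ x).1 + t • (φ x).1 := fun x => by
      rw [hGG]; rfl
    -- quadratic part
    have e1 : (∫ x, 1 / 2 * gP B.S (GG K (U + t • φ) c ξ x)) =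
        (∫ x, 1 / 2 * gP B.S (GG K U c ξ x)) + t * (∫ x, gPb B.S (GG K U c ξ x) (φ x))
          + t ^ 2 * (1 / 2 * ∫ x, gP B.S (φ x)) := by
      have : ∀ x, 1 / 2 * gP B.S (GG K (U + t • φ) c ξ x) =
          1 / 2 * gP B.S (GG K U c ξ x) + t * gPb B.S (GG K U c ξ x) (φ x)
            + t ^ 2 * (1 / 2 * gP B.S (φ x)) := by
        intro x
        rw [hGG, gP_add, gPb_smul_right, gP_smul]
        ring
      simp only [this]
      rw [integral_add, integral_add, integral_const_mul t, integral_const_mul (t ^ 2),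
        integral_const_mul (1 / 2) (fun x => gP B.S (φ x))]
      · exact a1.const_mul _
      · exact d1.const_mul _
      · exact (a1.const_mul _).add (d1.const_mul _)
      · exact (c1.const_mul _).const_mul _
    -- linear part
    have hφint : Integrable (fun x => pP B.S (g0 B x) (φ x).1) volume := (h2 K hρ2 _ hφ ξ hξ).2.2.1
    have e3 : (∫ x, pP B.S (g0 B x) (GG K (U + t • φ) c ξ x).1) =
        (∫ x, pP B.S (g0 B x) (GG K U c ξ x).1) + t * (∫ x, pP B.S (g0 B x) (φ x).1) := by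
      have : ∀ x, pP B.S (g0 B x) (GG K (U + t • φ) c ξ x).1 =
          pP B.S (g0 B x) (GG K U c ξ x).1 + t * pP B.S (g0 B x) (φ x).1 := by
        intro x
        rw [hGG1, p4c_pP_add, p4c_pP_smul]
      simp only [this]
      rw [integral_add a3 (hφint.const_mul _), integral_const_mul]
    -- the potential
    have e2 : |(∫ x, pot B δ R₀ K.ρ x (SS K.F (x - ξ)) (GG K (U + t • φ) c ξ x).1)
        - (∫ x, pot B δ R₀ K.ρ x (SS K.F (x - ξ)) (GG K U c ξ x).1)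
        - t * (∫ x, fderiv ℝ (pot B δ R₀ K.ρ x (SS K.F (x - ξ))) (GG K U c ξ x).1 (φ x).1)|
        ≤ t ^ 2 * ∫ x, p4c_h R₀ C U φ x := by
      have b2a2 : Integrable (fun x => pot B δ R₀ K.ρ x (SS K.F (x - ξ))
          (GG K (U + t • φ) c ξ x).1 - pot B δ R₀ K.ρ x (SS K.F (x - ξ)) (GG K U c ξ x).1)
          volume := b2.sub a2
      rw [← integral_const_mul, ← integral_sub b2 a2, ← integral_sub b2a2 (d2.const_mul _),
        ← integral_const_mul]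
      rw [← Real.norm_eq_abs]
      apply norm_integral_le_of_norm_le ((p4c_h_int R₀ C hU hφ).const_mul _)
      apply Eventually.of_forall
      intro x
      have hmap : t * fderiv ℝ (pot B δ R₀ K.ρ x (SS K.F (x - ξ))) (GG K U c ξ x).1 (φ x).1 =
          fderiv ℝ (pot B δ R₀ K.ρ x (SS K.F (x - ξ))) (GG K U c ξ x).1 (t • (φ x).1) := by
        rw [map_smul, smul_eq_mul]
      rw [hmap, hGG1, Real.norm_eq_abs]
      have hnt : ‖t • (φ x).1‖ ^ 2 = t ^ 2 * ‖(φ x).1‖ ^ 2 := by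
        rw [norm_smul, mul_pow, Real.norm_eq_abs, sq_abs]
      have hnt1 : ‖t • (φ x).1‖ ≤ ‖(φ x).1‖ := by
        rw [norm_smul, Real.norm_eq_abs]
        exact mul_le_of_le_one_left (norm_nonneg _) ht
      by_cases hx : ‖x‖ < R₀
      · have hb1 := ((hb ξ hξ x (GG K U c ξ x).1 (t • (φ x).1)).1 hx).2.2
        have hG1 : (GG K U c ξ x).1 = (U x).1 := by
          have hz : ‖x - ξ‖ < 0.93 * K.ρ := by
            have := norm_sub_le x ξ
            linarith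
          have hCf := (Cf_zero K.fam c ξ x hz).1
          unfold GG jet
          simp [hCf]
        refine hb1.trans ?_
        rw [hG1, hnt]
        have hmem : x ∈ Metric.ball (0 : ℂ) R₀ := by simpa using hx
        unfold p4c_h
        rw [Set.indicator_of_mem hmem]
        have hn := p4c_nsq_nonneg x (φ x)
        have hpt : exp (C * (‖(U x).1‖ + ‖t • (φ x).1‖)) * ‖(φ x).1‖ ^ 2 ≤
            exp (2 * C * ‖(U x).1‖) + 24 * exp ((2 * C + 1) * ‖(φ x).1‖) := by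
          obtain ⟨a, ha⟩ : ∃ a : ℝ, a = exp (C * ‖(U x).1‖) := ⟨_, rfl⟩
          obtain ⟨b, hb'⟩ : ∃ b : ℝ, b = exp (C * ‖(φ x).1‖) := ⟨_, rfl⟩
          have ha0 : 0 < a := by rw [ha]; exact exp_pos _
          have hb0 : 0 < b := by rw [hb']; exact exp_pos _
          have q1 : exp (C * (‖(U x).1‖ + ‖t • (φ x).1‖)) ≤ a * b := by
            rw [ha, hb', ← Real.exp_add]
            apply exp_le_exp.mpr
            nlinarith
          have q2 : exp (2 * C * ‖(U x).1‖) = a ^ 2 := by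
            rw [ha, ← Real.exp_nat_mul]; congr 1; push_cast; ring
          have q3 : exp ((2 * C + 1) * ‖(φ x).1‖) = b ^ 2 * exp ‖(φ x).1‖ := by
            rw [hb', ← Real.exp_nat_mul, ← Real.exp_add]; congr 1; push_cast; ring
          have q4 := p4c_pow_exp ‖(φ x).1‖ (norm_nonneg _)
          rw [q2, q3]
          calc exp (C * (‖(U x).1‖ + ‖t • (φ x).1‖)) * ‖(φ x).1‖ ^ 2
              ≤ a * b * ‖(φ x).1‖ ^ 2 := mul_le_mul_of_nonneg_right q1 (by positivity)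
            _ ≤ a ^ 2 + b ^ 2 * ‖(φ x).1‖ ^ 4 := by
                nlinarith [sq_nonneg (a - b * ‖(φ x).1‖ ^ 2), sq_nonneg (a + b * ‖(φ x).1‖ ^ 2),
                  sq_nonneg a, sq_nonneg (b * ‖(φ x).1‖ ^ 2)]
            _ ≤ a ^ 2 + b ^ 2 * (24 * exp ‖(φ x).1‖) := by
                have := mul_le_mul_of_nonneg_left q4 (sq_nonneg b)
                linarith
            _ = a ^ 2 + 24 * (b ^ 2 * exp ‖(φ x).1‖) := by ring
        calc C * exp (C * (‖(U x).1‖ + ‖t • (φ x).1‖)) * (t ^ 2 * ‖(φ x).1‖ ^ 2)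
            = t ^ 2 * (C * (exp (C * (‖(U x).1‖ + ‖t • (φ x).1‖)) * ‖(φ x).1‖ ^ 2)) := by ring
          _ ≤ t ^ 2 * (C * (exp (2 * C * ‖(U x).1‖) + 24 * exp ((2 * C + 1) * ‖(φ x).1‖))) := by
              apply mul_le_mul_of_nonneg_left _ (sq_nonneg t)
              exact mul_le_mul_of_nonneg_left hpt hC.le
          _ ≤ t ^ 2 * (C * (exp (2 * C * ‖(U x).1‖) + 24 * exp ((2 * C + 1) * ‖(φ x).1‖))
                + C * nsq x (φ x)) := by
              apply mul_le_mul_of_nonneg_left _ (sq_nonneg t)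
              have : 0 ≤ C * nsq x (φ x) := by positivity
              linarith
      · have hb1 := ((hb ξ hξ x (GG K U c ξ x).1 (t • (φ x).1)).2 (not_lt.mp hx)).2.2
        refine hb1.trans ?_
        rw [hnt]
        have hmem : x ∉ Metric.ball (0 : ℂ) R₀ := by simpa using hx
        unfold p4c_h
        rw [Set.indicator_of_notMem hmem, zero_add]
        have hn : wt x * ‖(φ x).1‖ ^ 2 ≤ nsq x (φ x) := by
          unfold nsq
          have := p4c_gsq_nonneg (φ x)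
          linarith
        calc C * wt x * (t ^ 2 * ‖(φ x).1‖ ^ 2) = t ^ 2 * (C * (wt x * ‖(φ x).1‖ ^ 2)) := by ring
          _ ≤ t ^ 2 * (C * nsq x (φ x)) := by
              apply mul_le_mul_of_nonneg_left _ (sq_nonneg t)
              exact mul_le_mul_of_nonneg_left hn hC.le
    have htot : PhiJ K (U + t • φ) c ξ - PhiJ K U c ξ - t * DPhiJ K U c ξ φ =
        t ^ 2 * (1 / 2 * ∫ x, gP B.S (φ x)) +
        ((∫ x, pot B δ R₀ K.ρ x (SS K.F (x - ξ)) (GG K (U + t • φ) c ξ x).1)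
        - (∫ x, pot B δ R₀ K.ρ x (SS K.F (x - ξ)) (GG K U c ξ x).1)
        - t * (∫ x, fderiv ℝ (pot B δ R₀ K.ρ x (SS K.F (x - ξ))) (GG K U c ξ x).1 (φ x).1)) := by
      unfold PhiJ DPhiJ
      rw [e1, e3]
      ring
    rw [htot]
    refine (abs_add_le _ _).trans ?_
    rw [abs_of_nonneg (show 0 ≤ t ^ 2 * (1 / 2 * ∫ x, gP B.S (φ x)) by positivity), hM₁]
    linarith
  refine ⟨M₁ + K.ρ ^ 2 * ((modes B.S).card * Me ^ 2), fun t ht c ξ hξ => ⟨?_, ?_⟩⟩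
  · refine (key t ht c ξ hξ).trans ?_
    apply mul_le_mul_of_nonneg_right _ (sq_nonneg t)
    have : 0 ≤ K.ρ ^ 2 * ((modes B.S).card * Me ^ 2) := by positivity
    linarith
  · have hpen : Phi K (U + t • φ) c ξ - Phi K U c ξ - t * DPhi K U c ξ φ =
        (PhiJ K (U + t • φ) c ξ - PhiJ K U c ξ - t * DPhiJ K U c ξ φ)
          + t ^ 2 * (K.ρ ^ 2 * ∑ i ∈ modes B.S, ell K.ρ i ξ φ ^ 2) := by
      unfold Phi DPhi
      have : ∀ i, ell K.ρ i ξ (U + t • φ) ^ 2 = ell K.ρ i ξ U ^ 2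
          + 2 * t * (ell K.ρ i ξ U * ell K.ρ i ξ φ) + t ^ 2 * ell K.ρ i ξ φ ^ 2 := by
        intro i
        rw [ell_add _ _ _ hU (hφ.smul t), ell_smul]
        ring
      simp only [this]
      rw [Finset.sum_add_distrib, Finset.sum_add_distrib, ← Finset.mul_sum, ← Finset.mul_sum]
      ring
    rw [hpen]
    refine (abs_add_le _ _).trans ?_
    have hs : ∑ i ∈ modes B.S, ell K.ρ i ξ φ ^ 2 ≤ (modes B.S).card * Me ^ 2 := by
      calc ∑ i ∈ modes B.S, ell K.ρ i ξ φ ^ 2 ≤ ∑ _i ∈ modes B.S, Me ^ 2 := by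
            apply Finset.sum_le_sum
            intro i _
            rw [← sq_abs]
            exact pow_le_pow_left₀ (abs_nonneg _) (hMe i ξ hξ) 2
        _ = (modes B.S).card * Me ^ 2 := by rw [Finset.sum_const, nsmul_eq_mul]
    have hs0 : 0 ≤ ∑ i ∈ modes B.S, ell K.ρ i ξ φ ^ 2 := Finset.sum_nonneg fun _ _ => sq_nonneg _
    rw [abs_of_nonneg (show 0 ≤ t ^ 2 * (K.ρ ^ 2 * ∑ i ∈ modes B.S, ell K.ρ i ξ φ ^ 2) by
      positivity)]
    have h3 : K.ρ ^ 2 * ∑ i ∈ modes B.S, ell K.ρ i ξ φ ^ 2 ≤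
        K.ρ ^ 2 * ((modes B.S).card * Me ^ 2) := mul_le_mul_of_nonneg_left hs (sq_nonneg _)
    have h4 := mul_le_mul_of_nonneg_left h3 (sq_nonneg t)
    have h5 := key t ht c ξ hξ
    linarith

/-- linearity of the derivative in the direction -/
theorem DPhiJ_smul (K : Cfg B δ R₀ Ξ) (U φ : Fld ι) (c : Cc B.S) (ξ : ℂ) (t : ℝ) :
    DPhiJ K U c ξ (t • φ) = t * DPhiJ K U c ξ φ := by
  unfold DPhiJ
  have h1 : ∀ x, gPb B.S (GG K U c ξ x) ((t • φ) x) = t * gPb B.S (GG K U c ξ x) (φ x) := by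
    intro x
    rw [Pi.smul_apply, gPb_smul_right]
  have h2 : ∀ x, fderiv ℝ (pot B δ R₀ K.ρ x (SS K.F (x - ξ))) (GG K U c ξ x).1 ((t • φ) x).1 =
      t * fderiv ℝ (pot B δ R₀ K.ρ x (SS K.F (x - ξ))) (GG K U c ξ x).1 (φ x).1 := by
    intro x
    rw [Pi.smul_apply, Prod.smul_fst, map_smul, smul_eq_mul]
  have h3 : ∀ x, pP B.S (g0 B x) ((t • φ) x).1 = t * pP B.S (g0 B x) (φ x).1 := by
    intro x
    rw [Pi.smul_apply, Prod.smul_fst, p4c_pP_smul]
  simp only [h1, h2, h3]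
  rw [integral_const_mul, integral_const_mul, integral_const_mul]
  ring

theorem DPhi_neg (K : Cfg B δ R₀ Ξ) (U φ : Fld ι) (c : Cc B.S) (ξ : ℂ) :
    DPhi K U c ξ (-φ) = -DPhi K U c ξ φ := by
  have h : -φ = (-1 : ℝ) • φ := by simp
  unfold DPhi
  rw [h, DPhiJ_smul]
  simp only [ell_smul]
  have : ∀ i, ell K.ρ i ξ U * (-1 * ell K.ρ i ξ φ) = -1 * (ell K.ρ i ξ U * ell K.ρ i ξ φ) :=
    fun i => by ring
  simp only [this]
  rw [← Finset.mul_sum]
  ring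

end Pool.MP_ad5d82_an.Wl
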