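import Pool.Agent.Lib.MP_ad5d82_an.h24.PDefs
import Pool.Agent.Lib.MP_ad5d82_an.h24.H.H1
import Pool.Agent.Lib.MP_ad5d82_an.h24.H.H8b
import Pool.Agent.Lib.MP_ad5d82_an.h24.F.F3
import Pool.Agent.Lib.MP_ad5d82_an.h24.P.P0
import Pool.Agent.Lib.MP_ad5d82_an.h24.P.P1
import Pool.Agent.Lib.MP_ad5d82_an.h24.P.P2
import Pool.Agent.Lib.MP_ad5d82_an.h24.P.P3b
import Pool.Agent.Lib.MP_ad5d82_an.h24.P.PC
import Pool.Agent.Lib.MP_ad5d82_an.h24.P.P4

set_option autoImplicit false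

namespace Pool.MP_ad5d82_an.Wl

open Real Set MeasureTheory Filter Topology
open scoped ContDiff

variable {ι : Type} [Fintype ι] [DecidableEq ι]

variable {B : Base ι} {δ R₀ Ξ : ℝ}

theorem P5_fderiv {S : Sys ι} {c₀ C ρ : ℝ} {F : ℝ → ℝ} {χ : {i // i ∈ neg S} → ℂ → ℝ}
    (h : NegFam S c₀ C ρ F χ) (c : Cc S) (ξ x : ℂ) :
    fderiv ℝ (Cf S χ c ξ) x =
      ∑ i : {i // i ∈ neg S}, c i • (fderiv ℝ (χ i) (x - ξ)).smulRight (bv i.1.1 : Ev ι) := by
  have h1 : ∀ i : {i // i ∈ neg S}, HasFDerivAt (fun x : ℂ => (c i * χ i (x - ξ)) • (bv i.1.1 : Ev ι))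
      (c i • (fderiv ℝ (χ i) (x - ξ)).smulRight (bv i.1.1 : Ev ι)) x := by
    intro i
    have d : HasFDerivAt (χ i) (fderiv ℝ (χ i) (x - ξ)) (x - ξ) :=
      ((h.smooth i).differentiable (by simp)).differentiableAt.hasFDerivAt
    have d1 : HasFDerivAt (fun y : ℂ => χ i (y - ξ)) (fderiv ℝ (χ i) (x - ξ)) x := by
      refine (HasFDerivAt.comp x (f := fun y : ℂ => y - ξ) d
        ((hasFDerivAt_id x).sub_const ξ)).congr_fderiv ?_
      rw [ContinuousLinearMap.comp_id]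
    have d2 := (d1.const_mul (c i)).smul_const (bv i.1.1 : Ev ι)
    refine d2.congr_fderiv ?_
    apply ContinuousLinearMap.ext
    intro k
    simp [smul_smul]
  have h2 := HasFDerivAt.fun_sum (u := Finset.univ) (fun i _ => h1 i)
  exact h2.fderiv

/-- continuity of the negative field in the parameters, at a fixed point -/
theorem P5_jet_cont {S : Sys ι} {c₀ C ρ : ℝ} {F : ℝ → ℝ} {χ : {i // i ∈ neg S} → ℂ → ℝ}
    (h : NegFam S c₀ C ρ F χ) (x : ℂ) :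
    Continuous fun p : Cc S × ℂ => jet (Cf S χ p.1 p.2) x := by
  have hχ : ∀ i, Continuous (χ i) := fun i => (h.smooth i).continuous
  have hdχ : ∀ i, Continuous (fderiv ℝ (χ i)) := fun i =>
    (h.smooth i).continuous_fderiv (by simp)
  have hx : Continuous fun p : Cc S × ℂ => x - p.2 := continuous_const.sub continuous_snd
  have hc : ∀ i, Continuous fun p : Cc S × ℂ => p.1 i := fun i =>
    (continuous_apply i).comp continuous_fst
  have h1 : Continuous fun p : Cc S × ℂ => Cf S χ p.1 p.2 x := by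
    unfold Cf
    refine continuous_finsetSum _ fun i _ => ?_
    exact ((hc i).mul ((hχ i).comp hx)).smul continuous_const
  have h2 : ∀ v : ℂ, Continuous fun p : Cc S × ℂ => fderiv ℝ (Cf S χ p.1 p.2) x v := by
    intro v
    have : (fun p : Cc S × ℂ => fderiv ℝ (Cf S χ p.1 p.2) x v) = fun p : Cc S × ℂ =>
        ∑ i : {i // i ∈ neg S}, p.1 i • (fderiv ℝ (χ i) (x - p.2) v) • (bv i.1.1 : Ev ι) := by
      funext p
      rw [P5_fderiv h]
      simp
    rw [this]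
    refine continuous_finsetSum _ fun i _ => ?_
    have h3 : Continuous fun p : Cc S × ℂ => fderiv ℝ (χ i) (x - p.2) v :=
      ((hdχ i).comp hx).clm_apply continuous_const
    exact (hc i).smul (h3.smul continuous_const)
  exact h1.prodMk ((h2 1).prodMk (h2 Complex.I))

/-- kernel of the functionals -/
noncomputable def P5_kel (ρ : ℝ) (i : ι × ℕ × Bool) (z : ℂ) : ℝ :=
  om (‖z‖ - ρ) * trig i.2.1 i.2.2 z

theorem P5_om_cont : Continuous om := by
  unfold om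
  exact Real.smoothTransition.continuous.comp (by fun_prop)

theorem P5_om_zero {t : ℝ} (ht : 3 / 4 ≤ |t|) : om t = 0 := by
  unfold om
  apply Real.smoothTransition.zero_of_nonpos
  have : (3 / 4 : ℝ) ^ 2 ≤ t ^ 2 := by
    rw [← sq_abs t]
    exact pow_le_pow_left₀ (by norm_num) ht 2
  linarith

theorem P5_om_le (t : ℝ) : 0 ≤ om t ∧ om t ≤ 1 := by
  unfold om
  exact ⟨Real.smoothTransition.nonneg _, Real.smoothTransition.le_one _⟩

theorem P5_trig_le (k : ℕ) (b : Bool) (z : ℂ) : |trig k b z| ≤ 1 := by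
  have h1 : ‖(z / (‖z‖ : ℂ)) ^ k‖ ≤ 1 := by
    rw [norm_pow]
    apply pow_le_one₀ (norm_nonneg _)
    rw [norm_div, Complex.norm_real, norm_norm]
    exact div_self_le_one _
  unfold trig
  split_ifs
  · exact (Complex.abs_re_le_norm _).trans h1
  · exact (Complex.abs_im_le_norm _).trans h1

omit [Fintype ι] [DecidableEq ι] in
theorem P5_kel_cont {ρ : ℝ} (hρ : 1 ≤ ρ) (i : ι × ℕ × Bool) : Continuous (P5_kel ρ i) := by
  rw [continuous_iff_continuousAt]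
  intro z
  by_cases hz : z = 0
  · subst hz
    have hev : P5_kel ρ i =ᶠ[𝓝 0] fun _ => 0 := by
      have : Metric.ball (0 : ℂ) (1 / 4) ∈ 𝓝 (0 : ℂ) := Metric.ball_mem_nhds _ (by norm_num)
      filter_upwards [this] with w hw
      have hw' : ‖w‖ < 1 / 4 := by simpa using hw
      unfold P5_kel
      rw [P5_om_zero, zero_mul]
      rw [abs_of_nonpos (by linarith)]
      linarith
    exact (continuousAt_const (y := (0 : ℝ))).congr hev.symm
  · unfold P5_kel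
    refine ContinuousAt.mul ?_ ?_
    · exact (P5_om_cont.comp (continuous_norm.sub continuous_const)).continuousAt
    · have h1 : ContinuousAt (fun w : ℂ => (w / (‖w‖ : ℂ)) ^ i.2.1) z := by
        refine ContinuousAt.pow ?_ _
        refine ContinuousAt.div continuousAt_id ?_ ?_
        · exact (Complex.continuous_ofReal.comp continuous_norm).continuousAt
        · simpa using hz
      unfold trig
      split_ifs
      · exact Complex.continuous_re.continuousAt.comp h1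
      · exact Complex.continuous_im.continuousAt.comp h1

theorem P5_ell_cont {ρ : ℝ} (hρ : 1 ≤ ρ) (Ξ : ℝ) (i : ι × ℕ × Bool) {U : Fld ι} (hU : IsSob U) :
    ContinuousOn (fun ξ : ℂ => ell ρ i ξ U) {ξ | ‖ξ‖ ≤ Ξ} := by
  intro ξ₀ hξ₀
  unfold ell
  have hfst : AEStronglyMeasurable (fun x => (U x).1) volume :=
    continuous_fst.comp_aestronglyMeasurable hU.1
  have hcomp : AEStronglyMeasurable (fun x => (U x).1 i.1) volume := by
    have : Continuous fun h : Ev ι => h i.1 := by fun_prop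
    exact this.comp_aestronglyMeasurable hfst
  refine continuousWithinAt_of_dominated
    (bound := fun x => Set.indicator (Metric.ball (0 : ℂ) (ρ + 1 + Ξ)) (fun x => ‖(U x).1‖) x)
    ?_ ?_ ?_ ?_
  · refine Eventually.of_forall fun ξ => ?_
    refine AEStronglyMeasurable.mul ?_ hcomp
    exact ((P5_kel_cont hρ i).comp (continuous_id.sub continuous_const)).aestronglyMeasurable
  · refine eventually_mem_nhdsWithin.mono fun ξ hξ => ae_of_all _ fun x => ?_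
    have hξ' : ‖ξ‖ ≤ Ξ := hξ
    have hj : |(U x).1 i.1| ≤ ‖(U x).1‖ := by
      have := PiLp.norm_apply_le (U x).1 i.1
      simpa using this
    by_cases hx : x ∈ Metric.ball (0 : ℂ) (ρ + 1 + Ξ)
    · rw [Set.indicator_of_mem hx, Real.norm_eq_abs, abs_mul, abs_mul,
        abs_of_nonneg (P5_om_le _).1]
      calc om (‖x - ξ‖ - ρ) * |trig i.2.1 i.2.2 (x - ξ)| * |(U x).1 i.1|
          ≤ 1 * 1 * ‖(U x).1‖ := by
            refine mul_le_mul (mul_le_mul (P5_om_le _).2 (P5_trig_le _ _ _) (abs_nonneg _)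
              (by norm_num)) hj (abs_nonneg _) (by norm_num)
        _ = _ := by ring
    · rw [Set.indicator_of_notMem hx]
      have hx' : ρ + 1 + Ξ ≤ ‖x‖ := by simpa using hx
      have h1 : ρ + 1 ≤ ‖x - ξ‖ := by
        have := norm_sub_norm_le x ξ
        linarith
      rw [P5_om_zero (by rw [abs_of_nonneg (by linarith)]; linarith), zero_mul, zero_mul, norm_zero]
  · rw [integrable_indicator_iff measurableSet_ball]
    exact hU.integrableOn _
  · refine ae_of_all _ fun x => ?_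
    have h1 : Continuous fun ξ : ℂ => P5_kel ρ i (x - ξ) :=
      (P5_kel_cont hρ i).comp (continuous_const.sub continuous_id)
    exact (h1.mul continuous_const).continuousWithinAt

theorem P5_gP_cont (S : Sys ι) : Continuous (gP S) := by
  unfold gP
  refine continuous_finsetSum _ fun j _ => ?_
  refine continuous_const.mul ?_
  have h1 : Continuous fun u : Ev ι × Ev ι × Ev ι => u.2.1 j := by fun_prop
  have h2 : Continuous fun u : Ev ι × Ev ι × Ev ι => u.2.2 j := by fun_prop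
  exact (h1.pow 2).add (h2.pow 2)

theorem P5_gPb_cont (S : Sys ι) :
    Continuous fun z : (Ev ι × Ev ι × Ev ι) × (Ev ι × Ev ι × Ev ι) => gPb S z.1 z.2 := by
  unfold gPb
  refine continuous_finsetSum _ fun j _ => ?_
  refine continuous_const.mul ?_
  have h1 : Continuous fun u : Ev ι × Ev ι × Ev ι => u.2.1 j := by fun_prop
  have h2 : Continuous fun u : Ev ι × Ev ι × Ev ι => u.2.2 j := by fun_prop
  exact ((h1.comp continuous_fst).mul (h1.comp continuous_snd)).add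
    ((h2.comp continuous_fst).mul (h2.comp continuous_snd))

/-- bound of the negative field -/
noncomputable def P5_b (A R : ℝ) (x : ℂ) : ℝ := Set.indicator (Metric.ball (0 : ℂ) R) (fun _ => A) x

theorem P5_b_nonneg {A R : ℝ} (hA : 0 ≤ A) (x : ℂ) : 0 ≤ P5_b A R x := by
  unfold P5_b
  exact Set.indicator_nonneg (fun _ _ => hA) x

theorem P5_b_sq (A R : ℝ) : Integrable (fun x => P5_b A R x ^ 2) volume := by
  have : (fun x => P5_b A R x ^ 2) = Set.indicator (Metric.ball (0 : ℂ) R) (fun _ => A ^ 2) := by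
    funext x
    unfold P5_b
    by_cases hx : x ∈ Metric.ball (0 : ℂ) R
    · rw [Set.indicator_of_mem hx, Set.indicator_of_mem hx]
    · rw [Set.indicator_of_notMem hx, Set.indicator_of_notMem hx]
      norm_num
  rw [this, integrable_indicator_iff measurableSet_ball]
  exact integrableOn_const measure_ball_lt_top.ne

theorem P5_wt_int {U : Fld ι} (hU : IsSob U) :
    Integrable (fun x => wt x * ‖(U x).1‖ ^ 2) volume := by
  refine (hU.integrable.sub hU.integrable_gsq).congr (ae_of_all _ fun x => ?_)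
  simp only [Pi.sub_apply, nsq]
  ring

theorem P5_v0_int (B : Base ι) (R : ℝ) :
    IntegrableOn (fun x => ‖v0 B x‖) (Metric.ball (0 : ℂ) R) volume := by
  have h2 : IntegrableOn (fun x => ‖v0 B x‖ ^ 2 + 1) (Metric.ball (0 : ℂ) R) volume :=
    (v0_sq B).integrableOn.add (integrableOn_const measure_ball_lt_top.ne)
  refine h2.mono' (v0_meas B).aestronglyMeasurable.norm.restrict (ae_of_all _ fun x => ?_)
  rw [norm_norm]
  nlinarith [sq_nonneg (‖v0 B x‖ - 1)]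

theorem P5_gPb_meas (S : Sys ι) {G φ : Fld ι} (hG : AEStronglyMeasurable G volume)
    (hφ : AEStronglyMeasurable φ volume) :
    AEStronglyMeasurable (fun x => gPb S (G x) (φ x)) volume := by
  have h9 := (P5_gPb_cont S).comp_aestronglyMeasurable (hG.prodMk hφ)
  exact h9

/-- parameter set -/
def P5_s (B : Base ι) (Ξ : ℝ) : Set (Cc B.S × ℂ) := {p | ‖p.2‖ ≤ Ξ}

/-- bounds of the full field near a parameter -/
def P5_Bd (K : Cfg B δ R₀ Ξ) (U : Fld ι) (b : ℂ → ℝ) (p : Cc B.S × ℂ) : Prop :=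
  ‖p.2‖ ≤ Ξ ∧ ∀ x,
      ‖(GG K U p.1 p.2 x).1‖ ≤ ‖(U x).1‖ + b x ∧
      ‖(GG K U p.1 p.2 x).2.1‖ ≤ ‖(U x).2.1‖ + b x ∧
      ‖(GG K U p.1 p.2 x).2.2‖ ≤ ‖(U x).2.2‖ + b x

theorem P5_jc (K : Cfg B δ R₀ Ξ) (U : Fld ι) (x : ℂ) :
    Continuous fun p : Cc B.S × ℂ => GG K U p.1 p.2 x := by
  have := (P5_jet_cont K.fam x)
  have h2 : (fun p : Cc B.S × ℂ => GG K U p.1 p.2 x) =
      fun p : Cc B.S × ℂ => U x + jet (Cf B.S K.χ p.1 p.2) x := by
    funext p; rfl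
  rw [h2]
  exact continuous_const.add this

theorem P5_z (K : Cfg B δ R₀ Ξ) (U : Fld ι) (R : ℝ) (hR2 : 2 * (R + Ξ) ≤ K.ρ) (p : Cc B.S × ℂ)
    (hp : ‖p.2‖ ≤ Ξ) (x : ℂ) (hx : ‖x‖ ≤ R) : GG K U p.1 p.2 x = U x := by
  have hK100 := K.wall.hρ
  have h1 : ‖x - p.2‖ < 0.93 * K.ρ := by
    have := norm_sub_le x p.2
    linarith
  obtain ⟨h2, h3⟩ := Cf_zero K.fam p.1 p.2 x h1
  have h4 : jet (Cf B.S K.χ p.1 p.2) x = 0 := by
    simp [jet, h2, h3]
  show U x + jet (Cf B.S K.χ p.1 p.2) x = U x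
  rw [h4, add_zero]

theorem P5_gb (K : Cfg B δ R₀ Ξ) (U : Fld ι) (p₀ : Cc B.S × ℂ) : ∃ b : ℂ → ℝ,
    (∀ x, 0 ≤ b x) ∧ Integrable (fun x => b x ^ 2) volume ∧
    ∀ᶠ p in 𝓝[P5_s B Ξ] p₀, P5_Bd K U b p := by
  obtain ⟨D, hD, hDb⟩ := Cf_bounds B.S B.c₀ B.C₀
  set A : Cc B.S × ℂ → ℝ := fun p => D * (Real.sqrt (∑ i, p.1 i ^ 2) + 1) with hA
  have hA0 : ∀ p, 0 ≤ A p := fun p => by simp only [hA]; positivity
  set R1 : ℝ := B.C₀ * K.ρ + Ξ + 1 with hR1
  refine ⟨P5_b (A p₀) R1, P5_b_nonneg (hA0 p₀), P5_b_sq _ _, ?_⟩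
  have hc : Continuous fun p : Cc B.S × ℂ => Real.sqrt (∑ i, p.1 i ^ 2) := by
    refine Real.continuous_sqrt.comp (continuous_finsetSum _ fun i _ => ?_)
    exact ((continuous_apply i).comp continuous_fst).pow 2
  have h1 : ∀ᶠ p in 𝓝[P5_s B Ξ] p₀, Real.sqrt (∑ i, p.1 i ^ 2) < Real.sqrt (∑ i, p₀.1 i ^ 2) + 1 :=
    nhdsWithin_le_nhds (hc.continuousAt.eventually (gt_mem_nhds (by linarith)))
  filter_upwards [h1, eventually_mem_nhdsWithin] with p hp hps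
  have hps' : ‖p.2‖ ≤ Ξ := hps
  refine ⟨hps', fun x => ?_⟩
  have key : ‖Cf B.S K.χ p.1 p.2 x‖ ≤ P5_b (A p₀) R1 x ∧
      ‖fderiv ℝ (Cf B.S K.χ p.1 p.2) x‖ ≤ P5_b (A p₀) R1 x := by
    by_cases hx : x ∈ Metric.ball (0 : ℂ) R1
    · have hb1 := hDb K.ρ K.F K.χ K.fam p.1 p.2 p.2 x
      have h2 : D * Real.sqrt (∑ i, p.1 i ^ 2) ≤ A p₀ := by
        simp only [hA]
        exact mul_le_mul_of_nonneg_left hp.le hD.le
      unfold P5_b
      rw [Set.indicator_of_mem hx]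
      exact ⟨hb1.1.trans h2, hb1.2.1.trans h2⟩
    · have hx' : R1 ≤ ‖x‖ := by simpa using hx
      have h2 : B.C₀ * K.ρ < ‖x - p.2‖ := by
        have := norm_sub_norm_le x p.2
        linarith
      obtain ⟨h3, h4⟩ := Cf_out K.fam p.1 p.2 x h2
      rw [h3, h4, norm_zero, norm_zero]
      exact ⟨P5_b_nonneg (hA0 p₀) x, P5_b_nonneg (hA0 p₀) x⟩
  have hd : ∀ v : ℂ, ‖v‖ = 1 → ‖fderiv ℝ (Cf B.S K.χ p.1 p.2) x v‖ ≤ P5_b (A p₀) R1 x := by
    intro v hv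
    refine ((fderiv ℝ (Cf B.S K.χ p.1 p.2) x).le_opNorm v).trans ?_
    rw [hv, mul_one]
    exact key.2
  refine ⟨?_, ?_, ?_⟩
  · refine (norm_add_le (U x).1 (Cf B.S K.χ p.1 p.2 x)).trans ?_
    have := key.1
    gcongr
  · refine (norm_add_le (U x).2.1 (fderiv ℝ (Cf B.S K.χ p.1 p.2) x 1)).trans ?_
    have := hd 1 (by simp)
    gcongr
  · refine (norm_add_le (U x).2.2 (fderiv ℝ (Cf B.S K.χ p.1 p.2) x Complex.I)).trans ?_
    have := hd Complex.I (by simp)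
    gcongr

theorem P5_sq_le {a b c : ℝ} (ha : 0 ≤ a) (h : a ≤ b + c) : a ^ 2 ≤ 2 * b ^ 2 + 2 * c ^ 2 := by
  have h3 : a ^ 2 ≤ (b + c) ^ 2 := pow_le_pow_left₀ ha h 2
  linarith [sq_nonneg (b - c)]

theorem P5_gsq (K : Cfg B δ R₀ Ξ) (U : Fld ι) (b : ℂ → ℝ) (p : Cc B.S × ℂ)
    (h : P5_Bd K U b p) (x : ℂ) : gsq (GG K U p.1 p.2 x) ≤ 2 * gsq (U x) + 4 * b x ^ 2 := by
  have h1 := P5_sq_le (norm_nonneg _) (h.2 x).2.1
  have h2 := P5_sq_le (norm_nonneg _) (h.2 x).2.2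
  unfold gsq
  linarith

theorem P5_wG (K : Cfg B δ R₀ Ξ) (U : Fld ι) (b : ℂ → ℝ) (p : Cc B.S × ℂ)
    (h : P5_Bd K U b p) (x : ℂ) :
    wt x * ‖(GG K U p.1 p.2 x).1‖ ^ 2 ≤ 2 * (wt x * ‖(U x).1‖ ^ 2) + 2 * b x ^ 2 := by
  have h4 := P5_sq_le (norm_nonneg _) (h.2 x).1
  have h5 := mul_le_mul_of_nonneg_left h4 (wt_pos x).le
  have h6 : wt x * b x ^ 2 ≤ 1 * b x ^ 2 :=
    mul_le_mul_of_nonneg_right (wt_le_one x) (sq_nonneg _)
  linarith

theorem P5_T1 (K : Cfg B δ R₀ Ξ) {U : Fld ι} (hU : IsSob U) :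
    ContinuousOn (fun p : Cc B.S × ℂ => ∫ x, 1 / 2 * gP B.S (GG K U p.1 p.2 x)) (P5_s B Ξ) := by
  intro p₀ _
  obtain ⟨b, hb0, hbi, hgb⟩ := P5_gb K U p₀
  refine continuousWithinAt_of_dominated
    (bound := fun x => gsq (U x) + 2 * b x ^ 2) ?_ ?_ ?_ ?_
  · exact Eventually.of_forall fun p =>
      ((P5_gP_cont B.S).comp_aestronglyMeasurable (isSob_GG K hU p.1 p.2).1).const_mul _
  · refine hgb.mono fun p hp => ae_of_all _ fun x => ?_
    have h1 := P5_gsq K U b p hp x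
    have h2 := gP_le B.S (GG K U p.1 p.2 x)
    have h3 := gP_nonneg B.S (GG K U p.1 p.2 x)
    rw [Real.norm_eq_abs, abs_of_nonneg (by positivity)]
    linarith
  · exact hU.integrable_gsq.add (hbi.const_mul 2)
  · exact ae_of_all _ fun x =>
      (continuous_const.mul ((P5_gP_cont B.S).comp (P5_jc K U x))).continuousWithinAt

theorem P5_S1 (K : Cfg B δ R₀ Ξ) {U φ : Fld ι} (hU : IsSob U) (hφ : IsSob φ) :
    ContinuousOn (fun p : Cc B.S × ℂ => ∫ x, gPb B.S (GG K U p.1 p.2 x) (φ x)) (P5_s B Ξ) := by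
  intro p₀ _
  obtain ⟨b, hb0, hbi, hgb⟩ := P5_gb K U p₀
  refine continuousWithinAt_of_dominated
    (bound := fun x => gsq (U x) + 2 * b x ^ 2 + gsq (φ x)) ?_ ?_ ?_ ?_
  · exact Eventually.of_forall fun p => P5_gPb_meas B.S (isSob_GG K hU p.1 p.2).1 hφ.1
  · refine hgb.mono fun p hp => ae_of_all _ fun x => ?_
    have h1 := P5_gsq K U b p hp x
    have h2 := gPb_le B.S (GG K U p.1 p.2 x) (φ x)
    have hg1 : 0 ≤ gsq (GG K U p.1 p.2 x) := by unfold gsq; positivity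
    have hg2 : 0 ≤ gsq (φ x) := by unfold gsq; positivity
    have e1 := Real.sq_sqrt hg1
    have e2 := Real.sq_sqrt hg2
    rw [Real.norm_eq_abs]
    linarith [sq_nonneg (Real.sqrt (gsq (GG K U p.1 p.2 x)) - Real.sqrt (gsq (φ x)))]
  · exact (hU.integrable_gsq.add (hbi.const_mul 2)).add hφ.integrable_gsq
  · refine ae_of_all _ fun x => ?_
    exact ((P5_gPb_cont B.S).comp ((P5_jc K U x).prodMk continuous_const)).continuousWithinAt

theorem P5_ball (R : ℝ) : {x : ℂ | ‖x‖ < R} = Metric.ball (0 : ℂ) R := by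
  ext x; simp

/-- the pointwise bounds used for the potential -/
def P5_PB (K : Cfg B δ R₀ Ξ) (C : ℝ) : Prop := ∀ ξ : ℂ, ‖ξ‖ ≤ Ξ →
    ∀ (x : ℂ) (g k : Ev ι),
    (‖x‖ < R₀ → |pot B δ R₀ K.ρ x (SS K.F (x - ξ)) g| ≤ C * (‖v0 B x‖ + exp (C * ‖g‖)) ∧
      |fderiv ℝ (pot B δ R₀ K.ρ x (SS K.F (x - ξ))) g k| ≤ C * exp (C * ‖g‖) * ‖k‖) ∧
    (R₀ ≤ ‖x‖ → |pot B δ R₀ K.ρ x (SS K.F (x - ξ)) g| ≤ C * wt x * ‖g‖ ^ 2 ∧
      |fderiv ℝ (pot B δ R₀ K.ρ x (SS K.F (x - ξ))) g k| ≤ C * wt x * ‖g‖ * ‖k‖)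

theorem P5_T2 (K : Cfg B δ R₀ Ξ) {U : Fld ι} (hU : IsSob U) (hδ : 0 < δ)
    (hK2 : 2 * (R₀ + Ξ) ≤ K.ρ) (C : ℝ) (hC : 0 < C) (hpb : P5_PB K C) :
    ContinuousOn (fun p : Cc B.S × ℂ =>
      ∫ x, pot B δ R₀ K.ρ x (SS K.F (x - p.2)) (GG K U p.1 p.2 x).1) (P5_s B Ξ) := by
  have hK100 := K.wall.hρ
  have hK0 : 0 < K.ρ := by linarith
  have hScont : Continuous (SS K.F) := (SS_smooth K.wall).continuous
  have hSm : ∀ ξ : ℂ, Measurable fun x : ℂ => SS K.F (x - ξ) := fun ξ =>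
    (hScont.comp (continuous_id.sub continuous_const)).measurable
  have hSp : ∀ x : ℂ, Continuous fun p : Cc B.S × ℂ => SS K.F (x - p.2) := fun x =>
    hScont.comp (continuous_const.sub continuous_snd)
  intro p₀ _
  obtain ⟨b, hb0, hbi, hgb⟩ := P5_gb K U p₀
  refine continuousWithinAt_of_dominated
    (bound := fun x => Set.indicator {x : ℂ | ‖x‖ < R₀}
        (fun x => C * (‖v0 B x‖ + exp (C * ‖(U x).1‖))) x +
      (2 * C * (wt x * ‖(U x).1‖ ^ 2) + 2 * C * b x ^ 2)) ?_ ?_ ?_ ?_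
  · exact Eventually.of_forall fun p => pot_meas B hδ hK0 (hSm p.2)
      (continuous_fst.comp_aestronglyMeasurable (isSob_GG K hU p.1 p.2).1)
  · refine hgb.mono fun p hp => ae_of_all _ fun x => ?_
    have hps := hp.1
    have hw0 : 0 ≤ wt x * ‖(U x).1‖ ^ 2 := mul_nonneg (wt_pos x).le (sq_nonneg _)
    have hb0 : 0 ≤ b x ^ 2 := sq_nonneg _
    rw [Real.norm_eq_abs]
    by_cases hx : ‖x‖ < R₀
    · have h1 := ((hpb p.2 hps x (GG K U p.1 p.2 x).1 0).1 hx).1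
      rw [P5_z K U R₀ hK2 p hps x hx.le] at h1 ⊢
      rw [Set.indicator_of_mem (show x ∈ {x : ℂ | ‖x‖ < R₀} from hx)]
      have h2 : 0 ≤ 2 * C * (wt x * ‖(U x).1‖ ^ 2) + 2 * C * b x ^ 2 := by
        positivity
      linarith
    · have h1 := ((hpb p.2 hps x (GG K U p.1 p.2 x).1 0).2 (not_lt.1 hx)).1
      rw [Set.indicator_of_notMem (show x ∉ {x : ℂ | ‖x‖ < R₀} from hx), zero_add]
      have h2 := mul_le_mul_of_nonneg_left (P5_wG K U b p hp x) hC.le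
      calc |pot B δ R₀ K.ρ x (SS K.F (x - p.2)) (GG K U p.1 p.2 x).1|
          ≤ C * wt x * ‖(GG K U p.1 p.2 x).1‖ ^ 2 := h1
        _ = C * (wt x * ‖(GG K U p.1 p.2 x).1‖ ^ 2) := by ring
        _ ≤ C * (2 * (wt x * ‖(U x).1‖ ^ 2) + 2 * b x ^ 2) := h2
        _ = _ := by ring
  · refine Integrable.add ?_ (((P5_wt_int hU).const_mul (2 * C)).add (hbi.const_mul (2 * C)))
    rw [P5_ball, integrable_indicator_iff measurableSet_ball]
    exact ((P5_v0_int B R₀).add (exp_integrable hU C R₀)).const_mul C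
  · refine ae_of_all _ fun x => ?_
    have h1 := (pot_cont B (R₀ := R₀) hδ hK0 x).comp
      ((hSp x).prodMk (continuous_fst.comp (P5_jc K U x)))
    exact h1.continuousWithinAt

theorem P5_S2 (K : Cfg B δ R₀ Ξ) {U φ : Fld ι} (hU : IsSob U) (hφ : IsSob φ) (hδ : 0 < δ)
    (hK2 : 2 * (R₀ + Ξ) ≤ K.ρ) (C : ℝ) (hC : 0 < C) (hpb : P5_PB K C) :
    ContinuousOn (fun p : Cc B.S × ℂ =>
      ∫ x, fderiv ℝ (pot B δ R₀ K.ρ x (SS K.F (x - p.2))) (GG K U p.1 p.2 x).1 (φ x).1)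
      (P5_s B Ξ) := by
  have hK100 := K.wall.hρ
  have hK0 : 0 < K.ρ := by linarith
  have hScont : Continuous (SS K.F) := (SS_smooth K.wall).continuous
  have hSm : ∀ ξ : ℂ, Measurable fun x : ℂ => SS K.F (x - ξ) := fun ξ =>
    (hScont.comp (continuous_id.sub continuous_const)).measurable
  have hSp : ∀ x : ℂ, Continuous fun p : Cc B.S × ℂ => SS K.F (x - p.2) := fun x =>
    hScont.comp (continuous_const.sub continuous_snd)
  have hφm : AEStronglyMeasurable (fun x => (φ x).1) volume :=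
    continuous_fst.comp_aestronglyMeasurable hφ.1
  intro p₀ _
  obtain ⟨b, hb0, hbi, hgb⟩ := P5_gb K U p₀
  refine continuousWithinAt_of_dominated
    (bound := fun x => Set.indicator {x : ℂ | ‖x‖ < R₀}
        (fun x => C * (exp (2 * C * ‖(U x).1‖) + ‖(φ x).1‖ ^ 2)) x +
      C * (2 * (wt x * ‖(U x).1‖ ^ 2) + 2 * b x ^ 2 + wt x * ‖(φ x).1‖ ^ 2))
      ?_ ?_ ?_ ?_
  · exact Eventually.of_forall fun p => dpot_meas B hδ hK0 (hSm p.2)
      (continuous_fst.comp_aestronglyMeasurable (isSob_GG K hU p.1 p.2).1) hφm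
  · refine hgb.mono fun p hp => ae_of_all _ fun x => ?_
    have hps := hp.1
    have hw0 : 0 ≤ wt x * ‖(U x).1‖ ^ 2 := mul_nonneg (wt_pos x).le (sq_nonneg _)
    have hw1 : 0 ≤ wt x * ‖(φ x).1‖ ^ 2 := mul_nonneg (wt_pos x).le (sq_nonneg _)
    have hb0 : 0 ≤ b x ^ 2 := sq_nonneg _
    rw [Real.norm_eq_abs]
    by_cases hx : ‖x‖ < R₀
    · have h1 := ((hpb p.2 hps x (GG K U p.1 p.2 x).1 (φ x).1).1 hx).2
      rw [P5_z K U R₀ hK2 p hps x hx.le] at h1 ⊢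
      rw [Set.indicator_of_mem (show x ∈ {x : ℂ | ‖x‖ < R₀} from hx)]
      have h2 : 0 ≤ C * (2 * (wt x * ‖(U x).1‖ ^ 2) + 2 * b x ^ 2 +
          wt x * ‖(φ x).1‖ ^ 2) := by
        positivity
      have h3 : exp (2 * C * ‖(U x).1‖) = exp (C * ‖(U x).1‖) ^ 2 := by
        rw [← Real.exp_nat_mul]; congr 1; push_cast; ring
      have h4 : exp (C * ‖(U x).1‖) * ‖(φ x).1‖ ≤
          exp (2 * C * ‖(U x).1‖) + ‖(φ x).1‖ ^ 2 := by
        rw [h3]
        linarith [sq_nonneg (exp (C * ‖(U x).1‖) - ‖(φ x).1‖), sq_nonneg (‖(φ x).1‖),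
          sq_nonneg (exp (C * ‖(U x).1‖))]
      have h5 := mul_le_mul_of_nonneg_left h4 hC.le
      calc |fderiv ℝ (pot B δ R₀ K.ρ x (SS K.F (x - p.2))) (U x).1 (φ x).1|
          ≤ C * exp (C * ‖(U x).1‖) * ‖(φ x).1‖ := h1
        _ = C * (exp (C * ‖(U x).1‖) * ‖(φ x).1‖) := by ring
        _ ≤ C * (exp (2 * C * ‖(U x).1‖) + ‖(φ x).1‖ ^ 2) := h5
        _ ≤ _ := by linarith
    · have h1 := ((hpb p.2 hps x (GG K U p.1 p.2 x).1 (φ x).1).2 (not_lt.1 hx)).2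
      rw [Set.indicator_of_notMem (show x ∉ {x : ℂ | ‖x‖ < R₀} from hx), zero_add]
      have h2 := P5_wG K U b p hp x
      have h3 : wt x * ‖(GG K U p.1 p.2 x).1‖ * ‖(φ x).1‖ ≤
          wt x * ‖(GG K U p.1 p.2 x).1‖ ^ 2 + wt x * ‖(φ x).1‖ ^ 2 := by
        have h4 : ‖(GG K U p.1 p.2 x).1‖ * ‖(φ x).1‖ ≤
            ‖(GG K U p.1 p.2 x).1‖ ^ 2 + ‖(φ x).1‖ ^ 2 := by
          linarith [sq_nonneg (‖(GG K U p.1 p.2 x).1‖ - ‖(φ x).1‖),
            sq_nonneg (‖(GG K U p.1 p.2 x).1‖), sq_nonneg (‖(φ x).1‖)]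
        have h5 := mul_le_mul_of_nonneg_left h4 (wt_pos x).le
        linarith
      have h4 : C * (wt x * ‖(GG K U p.1 p.2 x).1‖ * ‖(φ x).1‖) ≤
          C * (2 * (wt x * ‖(U x).1‖ ^ 2) + 2 * b x ^ 2 + wt x * ‖(φ x).1‖ ^ 2) :=
        mul_le_mul_of_nonneg_left (by linarith) hC.le
      calc |fderiv ℝ (pot B δ R₀ K.ρ x (SS K.F (x - p.2))) (GG K U p.1 p.2 x).1 (φ x).1|
          ≤ C * wt x * ‖(GG K U p.1 p.2 x).1‖ * ‖(φ x).1‖ := h1
        _ = C * (wt x * ‖(GG K U p.1 p.2 x).1‖ * ‖(φ x).1‖) := by ring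
        _ ≤ _ := h4
  · refine Integrable.add ?_ (((((P5_wt_int hU).const_mul 2).add (hbi.const_mul 2)).add
      (P5_wt_int hφ)).const_mul C)
    rw [P5_ball, integrable_indicator_iff measurableSet_ball]
    exact ((exp_integrable hU (2 * C) R₀).add (hφ.integrableOn_sq R₀)).const_mul C
  · refine ae_of_all _ fun x => ?_
    have h1 := (dpot_cont B (R₀ := R₀) hδ hK0 x (φ x).1).comp
      ((hSp x).prodMk (continuous_fst.comp (P5_jc K U x)))
    exact h1.continuousWithinAt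

/-! ### P5 continuity in `(c, ξ)` -/
theorem phi_cont (B : Base ι) (δ R₀ Ξ : ℝ) (hδ : 0 < δ) (hδ1 : δ ≤ 1) (hR : 1 ≤ R₀)
    (hΞ : 0 ≤ Ξ) : ∃ ρ₀ : ℝ, ∀ K : Cfg B δ R₀ Ξ, ρ₀ ≤ K.ρ → ∀ U : Fld ι, IsSob U →
    ContinuousOn (fun p : Cc B.S × ℂ => Phi K U p.1 p.2) {p | ‖p.2‖ ≤ Ξ} ∧
    ∀ φ : Fld ι, IsSob φ →
      ContinuousOn (fun p : Cc B.S × ℂ => DPhi K U p.1 p.2 φ) {p | ‖p.2‖ ≤ Ξ} := by
  obtain ⟨ρ₁, hb⟩ := pot_bounds B δ R₀ Ξ hδ hδ1 hR hΞ
  obtain ⟨Rv, hRv, hRvp, hRv0⟩ := v0_supp B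
  refine ⟨max ρ₁ (max (2 * (R₀ + Ξ)) (2 * (Rv + Ξ))), fun K hK U hU => ?_⟩
  have hK1 : ρ₁ ≤ K.ρ := (le_max_left _ _).trans hK
  have hK2 : 2 * (R₀ + Ξ) ≤ K.ρ := (le_max_left _ _).trans ((le_max_right _ _).trans hK)
  have hK3 : 2 * (Rv + Ξ) ≤ K.ρ := (le_max_right _ _).trans ((le_max_right _ _).trans hK)
  have hK100 := K.wall.hρ
  have hK0 : 0 < K.ρ := by linarith
  obtain ⟨C, hC, hpb⟩ := hb K hK1
  have hPB : P5_PB K C := fun ξ hξ x g k =>
    ⟨fun hx => ⟨((hpb ξ hξ x g k).1 hx).1, ((hpb ξ hξ x g k).1 hx).2.1⟩,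
      fun hx => ⟨((hpb ξ hξ x g k).2 hx).1, ((hpb ξ hξ x g k).2 hx).2.1⟩⟩
  have hs : ({p | ‖p.2‖ ≤ Ξ} : Set (Cc B.S × ℂ)) = P5_s B Ξ := rfl
  rw [hs]
  have hScont : Continuous (SS K.F) := (SS_smooth K.wall).continuous
  have hSp : ∀ x : ℂ, Continuous fun p : Cc B.S × ℂ => SS K.F (x - p.2) := fun x =>
    hScont.comp (continuous_const.sub continuous_snd)
  have T3 : ContinuousOn (fun p : Cc B.S × ℂ => ∫ x, pP B.S (g0 B x) (GG K U p.1 p.2 x).1)
      (P5_s B Ξ) := by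
    refine (continuousOn_const (c := ∫ x, pP B.S (g0 B x) (U x).1)).congr fun p hp => ?_
    refine integral_congr_ae (ae_of_all _ fun x => ?_)
    by_cases hx : ‖x‖ ≤ Rv
    · simp only [P5_z K U Rv hK3 p hp x hx]
    · have := (hRv0 x (not_le.1 hx).le).2
      simp only [this, pP]
      simp
  have T4 : Continuous (fun p : Cc B.S × ℂ =>
      4 * π * ∑ n, B.S.m (B.cp n) * SS K.F (B.p n - p.2)) :=
    continuous_const.mul (continuous_finsetSum _ fun n _ => continuous_const.mul (hSp _))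
  have hell : ∀ (W : Fld ι), IsSob W → ∀ i : ι × ℕ × Bool,
      ContinuousOn (fun p : Cc B.S × ℂ => ell K.ρ i p.2 W) (P5_s B Ξ) := by
    intro W hW i
    exact (P5_ell_cont (by linarith) Ξ i hW).comp continuous_snd.continuousOn fun p hp => hp
  refine ⟨?_, fun φ hφ => ?_⟩
  · unfold Phi PhiJ
    refine ContinuousOn.add ((((P5_T1 K hU).add (P5_T2 K hU hδ hK2 C hC hPB)).add T3).add
      T4.continuousOn) ?_
    refine continuousOn_const.mul (continuousOn_finsetSum _ fun i _ => ?_)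
    exact (hell U hU i).pow 2
  · unfold DPhi DPhiJ
    refine ContinuousOn.add (((P5_S1 K hU hφ).add (P5_S2 K hU hφ hδ hK2 C hC hPB)).add
      continuousOn_const) ?_
    refine continuousOn_const.mul (continuousOn_finsetSum _ fun i _ => ?_)
    exact (hell U hU i).mul (hell φ hφ i)

end Pool.MP_ad5d82_an.Wl
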