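import Pool.Agent.Lib.MP_ad5d82_an.h24.PDefs
import Pool.Agent.Lib.MP_ad5d82_an.h24.H.H1
import Pool.Agent.Lib.MP_ad5d82_an.h24.P.P3
import Pool.Agent.Lib.MP_ad5d82_an.h24.P.P4

set_option autoImplicit false

namespace Pool.MP_ad5d82_an.Wl

open Real Set MeasureTheory Filter Topology
open scoped ContDiff

variable {ι : Type} [Fintype ι] [DecidableEq ι]

variable {B : Base ι} {δ R₀ Ξ : ℝ}


/-! ### P6 concavity in `c` (upper bound) -/

/-- optimisation of `t a + b / t` -/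
theorem p6_amgm (X A B : ℝ) (hA : 0 ≤ A) (hB : 0 ≤ B)
    (h : ∀ t : ℝ, 0 < t → X ≤ (t * A + B / t) / 2) : X ≤ Real.sqrt A * Real.sqrt B := by
  have hAn := Real.sqrt_nonneg A
  have hBn := Real.sqrt_nonneg B
  rcases hA.eq_or_lt with h0 | hA0
  · -- A = 0
    subst h0
    rw [Real.sqrt_zero, zero_mul]
    by_contra hcon
    push Not at hcon
    have h1 := h ((B + 1) / X) (by positivity)
    rw [mul_zero, zero_add, div_div_eq_mul_div] at h1
    have h2 : B * X / (B + 1) ≤ X := by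
      rw [div_le_iff₀ (by positivity)]
      linarith
    linarith
  rcases hB.eq_or_lt with h0 | hB0
  · subst h0
    rw [Real.sqrt_zero, mul_zero]
    by_contra hcon
    push Not at hcon
    have h1 := h (X / A) (by positivity)
    rw [zero_div, add_zero, div_mul_cancel₀ _ hA0.ne'] at h1
    linarith
  have hsA : 0 < Real.sqrt A := Real.sqrt_pos.2 hA0
  have hsB : 0 < Real.sqrt B := Real.sqrt_pos.2 hB0
  have h1 := h (Real.sqrt B / Real.sqrt A) (by positivity)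
  have e1 : Real.sqrt B / Real.sqrt A * A = Real.sqrt A * Real.sqrt B := by
    nth_rewrite 2 [← Real.mul_self_sqrt hA]
    field_simp
  have e2 : B / (Real.sqrt B / Real.sqrt A) = Real.sqrt A * Real.sqrt B := by
    nth_rewrite 1 [← Real.mul_self_sqrt hB]
    field_simp
  rw [e1, e2] at h1
  linarith

theorem p6_wgt (ρ : ℝ) (hρ : 1 ≤ ρ) (r : ℝ) (hr : 0 ≤ r) : 0 ≤ wgt ρ r ∧ wgt ρ r ≤ 1 := by
  unfold wgt
  refine ⟨le_min zero_le_one ?_, min_le_left _ _⟩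
  have : (0 : ℝ) ≤ ρ := by linarith
  positivity

theorem p6_GG_zero (K : Cfg B δ R₀ Ξ) (U : Fld ι) (ξ : ℂ) : GG K U 0 ξ = U := by
  unfold GG
  have h1 : Cf B.S K.χ 0 ξ = fun _ => 0 := by
    funext x
    unfold Cf
    simp
  have h2 : jet (fun _ : ℂ => (0 : Ev ι)) = 0 := by
    funext x
    unfold jet
    simp
  rw [h1, h2, add_zero]

theorem phi_c_bound (B : Base ι) : ∃ C : ℝ, 0 < C ∧ ∀ δ R₀ Ξ : ℝ, 0 < δ → δ ≤ 1 → 1 ≤ R₀ → 0 ≤ Ξ →
    ∃ ρ₀ : ℝ, ∀ K : Cfg B δ R₀ Ξ, ρ₀ ≤ K.ρ → ∀ U : Fld ι, IsSob U → ∀ (c : Cc B.S) (ξ : ℂ), ‖ξ‖ ≤ Ξ →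
    Phi K U c ξ ≤ Phi K U 0 ξ
      + C * K.ρ * Real.sqrt (NII K.ρ (0.9 * K.ρ) U) * Real.sqrt (∑ i, c i ^ 2)
      - 1 / 4 * B.c₀ * ∑ i, c i ^ 2 := by
  obtain ⟨D, hD, hCE⟩ := Cf_energy B.S B.c₀ B.C₀
  obtain ⟨CV, hCV, hqVb⟩ := qVb_le B.S
  obtain ⟨CP, hCP, hpot⟩ := pot_out B.S
  obtain ⟨Rv, hRv1, -, hRv⟩ := v0_supp B
  set K0 : ℝ := 2 + 100 * CV with hK0
  have hK0p : 0 < K0 := by positivity
  refine ⟨K0 * Real.sqrt D, by positivity, fun δ R₀ Ξ hδ hδ1 hR hΞ => ?_⟩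
  obtain ⟨ρ1, hρ1⟩ := hpot δ Ξ hδ hδ1 hΞ
  obtain ⟨ρ2, hρ2⟩ := SS_far Ξ
  obtain ⟨ρ3, hρ3⟩ := phi_integrable B δ R₀ Ξ hδ hδ1 hR hΞ
  refine ⟨|ρ1| + |ρ2| + |ρ3| + 100 * Ξ + 2 * R₀ + 2 * Rv + 4 * (D + 1) / B.c₀ + 1,
    fun K hK U hU c ξ hξ => ?_⟩
  have hc0 := B.hc₀
  have hρ100 := K.wall.hρ
  have ha1 := abs_nonneg ρ1
  have ha2 := abs_nonneg ρ2
  have ha3 := abs_nonneg ρ3
  have hb1 := le_abs_self ρ1
  have hb2 := le_abs_self ρ2
  have hb3 := le_abs_self ρ3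
  have hDc : 0 ≤ 4 * (D + 1) / B.c₀ := by positivity
  have hK1 : ρ1 ≤ K.ρ := by linarith only [hDc, hK, hR, hRv1, ha2, ha3, hb1, hΞ]
  have hK2 : ρ2 ≤ K.ρ := by linarith
  have hK3 : ρ3 ≤ K.ρ := by linarith
  have hK4 : 100 * Ξ ≤ K.ρ := by linarith
  have hK5 : R₀ ≤ 0.9 * K.ρ := by linarith
  have hK6 : Rv ≤ 0.9 * K.ρ := by linarith
  have hK7 : 4 * (D + 1) / B.c₀ ≤ K.ρ := by linarith
  have hρ0 : 0 < K.ρ := by linarith
  have hρ1' : 1 ≤ K.ρ := by linarith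
  -- abbreviations
  set ρ := K.ρ with hρdef
  set sc : ℝ := ∑ i, c i ^ 2 with hsc
  have hsc0 : 0 ≤ sc := Finset.sum_nonneg fun _ _ => sq_nonneg _
  set H : ℂ → Ev ι := Cf B.S K.χ c ξ with hH
  have hHs : ContDiff ℝ ∞ H := Cf_smooth K.fam c ξ
  obtain ⟨hEi, hE⟩ := hCE ρ K.F K.χ K.fam hρ1' c ξ
  obtain ⟨q, hq, hform⟩ := K.fam.form
  have hform' := hform ξ c
  -- where the fields vanish
  have hvan : ∀ x : ℂ, ‖x‖ < 0.9 * ρ → H x = 0 ∧ fderiv ℝ H x = 0 := by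
    intro x hx
    refine Cf_zero K.fam c ξ x ?_
    have := norm_sub_le x ξ
    linarith
  have hjvan : ∀ x : ℂ, ‖x‖ < 0.9 * ρ → jet H x = 0 := by
    intro x hx
    obtain ⟨h1, h2⟩ := hvan x hx
    unfold jet
    rw [h1, h2]
    rfl
  have hGG : ∀ x, GG K U c ξ x = U x + jet H x := fun x => rfl
  -- integrability of the quadratic form of the negative modes
  have hqi : Integrable (fun x => gP B.S (jet H x) + qV B.S (SS K.F (x - ξ)) (H x)) volume := by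
    refine Continuous.integrable_of_hasCompactSupport ?_ ?_
    · have hd : Continuous (fderiv ℝ H) := hHs.continuous_fderiv (by simp)
      have hHc : Continuous H := hHs.continuous
      have hF : Continuous K.F := K.wall.smooth.continuous
      have h1 : ∀ j, Continuous (fun x => (H x) j) := fun j => by fun_prop
      have h2 : ∀ (v : ℂ) (j : ι), Continuous (fun x => (fderiv ℝ H x v) j) := fun v j => by
        have : Continuous (fun x => fderiv ℝ H x v) := hd.clm_apply continuous_const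
        fun_prop
      have h3 : Continuous (fun x : ℂ => SS K.F (x - ξ)) := by
        unfold SS
        fun_prop
      refine Continuous.add ?_ ?_
      · unfold gP jet
        refine continuous_finsetSum _ fun j _ => continuous_const.mul ?_
        exact ((h2 1 j).pow 2).add ((h2 Complex.I j).pow 2)
      · unfold qV vj
        refine continuous_finsetSum _ fun j _ => ?_
        have h4 := h1 j
        fun_prop
    · refine HasCompactSupport.intro (isCompact_closedBall ξ (B.C₀ * ρ)) fun x hx => ?_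
      have hx' : B.C₀ * ρ < ‖x - ξ‖ := by
        rw [Metric.mem_closedBall, dist_eq_norm] at hx
        push Not at hx
        exact hx
      obtain ⟨h1, h2⟩ := Cf_out K.fam c ξ x hx'
      have h3 : jet H x = 0 := by
        unfold jet
        rw [← hH] at h1 h2
        rw [h1, h2]
        rfl
      rw [h3]
      rw [← hH] at h1
      rw [h1]
      simp [gP, qV]
  -- the region
  set A : Set ℂ := {x : ℂ | 0.9 * ρ ≤ ‖x‖} with hA
  have hAm : MeasurableSet A := measurableSet_le measurable_const measurable_norm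
  have hNi : IntegrableOn (fun x => gsq (U x) + wgt ρ ‖x‖ * ‖(U x).1‖ ^ 2) A volume :=
    (hU.integrable_gsq.add (hU.integrable_wgt hρ1')).integrableOn
  have hNi' : Integrable (A.indicator fun x => gsq (U x) + wgt ρ ‖x‖ * ‖(U x).1‖ ^ 2) volume :=
    (integrable_indicator_iff hAm).2 hNi
  have hNint : ∫ x, A.indicator (fun x => gsq (U x) + wgt ρ ‖x‖ * ‖(U x).1‖ ^ 2) x =
      NII ρ (0.9 * ρ) U := by
    rw [integral_indicator hAm]
    rfl
  -- integrability of the densities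
  obtain ⟨hi1, hi2, hi3, -⟩ := hρ3 K hK3 (GG K U c ξ) (isSob_GG K hU c ξ) ξ hξ
  obtain ⟨hj1, hj2, hj3, -⟩ := hρ3 K hK3 U hU ξ hξ
  -- the pointwise inequality
  have hpt : ∀ t : ℝ, 0 < t → ∀ x : ℂ,
      (1 / 2 * gP B.S (GG K U c ξ x) +
        pot B δ R₀ ρ x (SS K.F (x - ξ)) (GG K U c ξ x).1 + pP B.S (g0 B x) (GG K U c ξ x).1) -
      (1 / 2 * gP B.S (U x) + pot B δ R₀ ρ x (SS K.F (x - ξ)) (U x).1 +
        pP B.S (g0 B x) (U x).1) ≤
      1 / 2 * (gP B.S (jet H x) + qV B.S (SS K.F (x - ξ)) (H x)) +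
        K0 * (t / 2) * A.indicator (fun x => gsq (U x) + wgt ρ ‖x‖ * ‖(U x).1‖ ^ 2) x +
        (K0 / (2 * t) + (ρ ^ 5)⁻¹) * (gsq (jet H x) + ‖H x‖ ^ 2) := by
    intro t ht x
    rw [hGG x]
    by_cases hx : ‖x‖ < 0.9 * ρ
    · have hxA : x ∉ A := by
        simp only [hA, Set.mem_ofPred_eq, not_le]
        exact hx
      rw [hjvan x hx, (hvan x hx).1, Set.indicator_of_notMem hxA, add_zero]
      simp [gP, qV, gsq]
    · push Not at hx
      have hxA : x ∈ A := hx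
      have hxR : ¬ ‖x‖ < R₀ := by linarith
      have hx0 : x ≠ 0 := by
        intro h0
        rw [h0, norm_zero] at hx
        linarith only [hx, hρ100]
      have hg0 : g0 B x = 0 := (hRv x (by linarith only [hDc, hK, hR, ha1, ha2, ha3, hx, hΞ, hρ100])).2
      rw [Set.indicator_of_mem hxA]
      -- the pieces
      have hjet1 : (jet H x).1 = H x := rfl
      have e1 : (U x + jet H x).1 = (U x).1 + H x := rfl
      have hgP := gP_add B.S (U x) (jet H x)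
      have hqV := qV_add B.S (SS K.F (x - ξ)) (U x).1 (H x)
      have hpp : ∀ h : Ev ι, pP B.S (g0 B x) h = 0 := by
        intro h
        rw [hg0]
        unfold pP
        simp
      have hpotx : ∀ g : Ev ι, pot B δ R₀ ρ x (SS K.F (x - ξ)) g =
          1 / 2 * qV B.S (SS K.F (x - ξ)) g + RT B.S (tau δ ρ x) (SS K.F (x - ξ)) g := by
        intro g
        unfold pot
        rw [if_neg hxR]
      rw [e1, hpp, hpp, hpotx, hpotx, hgP, hqV]
      -- bounds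
      have hw := p6_wgt ρ hρ1' ‖x‖ (norm_nonneg x)
      set gw := wgt ρ ‖x‖ with hgw
      have hso : 0 ≤ Real.sqrt gw := Real.sqrt_nonneg _
      have hso1 : Real.sqrt gw ≤ 1 := Real.sqrt_le_one.2 hw.2 
      have hsoo : Real.sqrt gw * Real.sqrt gw = gw := Real.mul_self_sqrt hw.1
      have hgws : gw ≤ Real.sqrt gw := by
        calc gw = Real.sqrt gw * Real.sqrt gw := hsoo.symm
          _ ≤ 1 * Real.sqrt gw := mul_le_mul_of_nonneg_right hso1 hso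
          _ = _ := one_mul _
      have hb1 : gPb B.S (U x) (jet H x) ≤ Real.sqrt (gsq (U x)) * Real.sqrt (gsq (jet H x)) :=
        (le_abs_self _).trans (gPb_le B.S _ _)
      have hneg := (SS_neg K.wall (x - ξ)).le
      have hfar := (hρ2 ρ K.ε K.F K.wall hK2 ξ x hξ).2 hx0
      have hb2 : qVb B.S (SS K.F (x - ξ)) (U x).1 (H x) ≤
          100 * CV * (Real.sqrt gw * ‖(U x).1‖ * ‖H x‖) := by
        have h1 := (hqVb (SS K.F (x - ξ)) hneg (U x).1 (H x)).1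
        have h2 : CV * exp (SS K.F (x - ξ)) * (‖(U x).1‖ * ‖H x‖) ≤
            CV * (100 * gw) * (‖(U x).1‖ * ‖H x‖) := by gcongr
        have h3 : gw ≤ Real.sqrt gw := hgws
        have h4 : CV * (100 * gw) * (‖(U x).1‖ * ‖H x‖) ≤
            CV * (100 * Real.sqrt gw) * (‖(U x).1‖ * ‖H x‖) := by gcongr
        calc qVb B.S (SS K.F (x - ξ)) (U x).1 (H x) ≤ _ := (le_abs_self _).trans h1
          _ ≤ _ := h2
          _ ≤ _ := h4
          _ = _ := by ring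
      have hLL : LL CP δ ρ x = (ρ ^ 5)⁻¹ * gw := by
        unfold LL
        rw [if_neg (by linarith)]
      have hρ5 : (ρ ^ 5)⁻¹ ≤ 1 := inv_le_one_of_one_le₀ (one_le_pow₀ hρ1')
      have hρ5n : 0 ≤ (ρ ^ 5)⁻¹ := by positivity
      have hb3 : RT B.S (tau δ ρ x) (SS K.F (x - ξ)) ((U x).1 + H x) -
          RT B.S (tau δ ρ x) (SS K.F (x - ξ)) (U x).1 ≤
          Real.sqrt gw * ‖(U x).1‖ * ‖H x‖ + (ρ ^ 5)⁻¹ * ‖H x‖ ^ 2 := by
        obtain ⟨-, h2, -, h4⟩ := hρ1 ρ K.ε K.F K.wall hK1 ξ hξ x (U x).1 ((U x).1 + H x)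
        have e2 : (U x).1 + H x - (U x).1 = H x := by abel
        rw [e2] at h4
        rw [hLL] at h2 h4
        have h5 : fderiv ℝ (RT B.S (tau δ ρ x) (SS K.F (x - ξ))) (U x).1 (H x) ≤
            ((ρ ^ 5)⁻¹ * gw) * ‖(U x).1‖ * ‖H x‖ :=
          (le_abs_self _).trans ((ContinuousLinearMap.le_opNorm _ _).trans
            (mul_le_mul_of_nonneg_right h2 (norm_nonneg _)))
        have h6 := (abs_le.1 h4).2
        have h7 : gw ≤ Real.sqrt gw := hgws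
        have h8 : ((ρ ^ 5)⁻¹ * gw) * ‖(U x).1‖ * ‖H x‖ ≤ (1 * Real.sqrt gw) * ‖(U x).1‖ * ‖H x‖ := by
          have : (ρ ^ 5)⁻¹ * gw ≤ 1 * Real.sqrt gw := mul_le_mul hρ5 h7 hw.1 zero_le_one
          gcongr
        have h9 : ((ρ ^ 5)⁻¹ * gw) * ‖H x‖ ^ 2 ≤ (ρ ^ 5)⁻¹ * ‖H x‖ ^ 2 := by
          have : (ρ ^ 5)⁻¹ * gw ≤ (ρ ^ 5)⁻¹ * 1 := mul_le_mul_of_nonneg_left hw.2 hρ5n
          rw [mul_one] at this
          gcongr
        linarith only [h5, h6, h8, h9]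
      -- Young
      have hgU : 0 ≤ gsq (U x) := by unfold gsq; (clear * -; positivity)
      have hgH : 0 ≤ gsq (jet H x) := by unfold gsq; (clear * -; positivity)
      have hy1 : Real.sqrt (gsq (U x)) * Real.sqrt (gsq (jet H x)) ≤
          t / 2 * gsq (U x) + 1 / (2 * t) * gsq (jet H x) := by
        have h1 := sq_nonneg (t * Real.sqrt (gsq (U x)) - Real.sqrt (gsq (jet H x)))
        have h2 := Real.sq_sqrt hgU
        have h3 := Real.sq_sqrt hgH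
        have h4 : t / 2 * gsq (U x) + 1 / (2 * t) * gsq (jet H x) =
            (t ^ 2 * gsq (U x) + gsq (jet H x)) / (2 * t) := by field_simp
        rw [h4, le_div_iff₀ (by positivity)]
        have h5 : (t * Real.sqrt (gsq (U x)) - Real.sqrt (gsq (jet H x))) ^ 2 =
            t ^ 2 * Real.sqrt (gsq (U x)) ^ 2 + Real.sqrt (gsq (jet H x)) ^ 2 -
              Real.sqrt (gsq (U x)) * Real.sqrt (gsq (jet H x)) * (2 * t) := by ring
        rw [h5, h2, h3] at h1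
        linarith only [h1]
      have hy2 : Real.sqrt gw * ‖(U x).1‖ * ‖H x‖ ≤
          t / 2 * (gw * ‖(U x).1‖ ^ 2) + 1 / (2 * t) * ‖H x‖ ^ 2 := by
        have h1 := sq_nonneg (t * (Real.sqrt gw * ‖(U x).1‖) - ‖H x‖)
        have h4 : t / 2 * (gw * ‖(U x).1‖ ^ 2) + 1 / (2 * t) * ‖H x‖ ^ 2 =
            (t ^ 2 * (gw * ‖(U x).1‖ ^ 2) + ‖H x‖ ^ 2) / (2 * t) := by field_simp
        rw [h4, le_div_iff₀ (by positivity)]
        have h5 : (t * (Real.sqrt gw * ‖(U x).1‖) - ‖H x‖) ^ 2 =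
            t ^ 2 * ((Real.sqrt gw * Real.sqrt gw) * ‖(U x).1‖ ^ 2) + ‖H x‖ ^ 2 -
              Real.sqrt gw * ‖(U x).1‖ * ‖H x‖ * (2 * t) := by ring
        rw [h5, hsoo] at h1
        linarith only [h1]
      have hy3 : 0 ≤ t / 2 * gsq (U x) + 1 / (2 * t) * gsq (jet H x) := by (clear * - hgH hgU ht; positivity)
      have hy4 : 0 ≤ t / 2 * (gw * ‖(U x).1‖ ^ 2) + 1 / (2 * t) * ‖H x‖ ^ 2 := by
        have := hw.1
        (clear * - ht this; positivity)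
      have hcv : 100 * CV * (Real.sqrt gw * ‖(U x).1‖ * ‖H x‖) ≤
          100 * CV * (t / 2 * (gw * ‖(U x).1‖ ^ 2) + 1 / (2 * t) * ‖H x‖ ^ 2) :=
        mul_le_mul_of_nonneg_left hy2 (by positivity)
      have hfin : K0 * (t / 2) * (gsq (U x) + gw * ‖(U x).1‖ ^ 2) +
          (K0 / (2 * t) + (ρ ^ 5)⁻¹) * (gsq (jet H x) + ‖H x‖ ^ 2) =
          K0 * (t / 2 * gsq (U x) + 1 / (2 * t) * gsq (jet H x)) +
          K0 * (t / 2 * (gw * ‖(U x).1‖ ^ 2) + 1 / (2 * t) * ‖H x‖ ^ 2) +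
          (ρ ^ 5)⁻¹ * (gsq (jet H x) + ‖H x‖ ^ 2) := by
        field_simp
        ring
      have hgHr : 0 ≤ (ρ ^ 5)⁻¹ * gsq (jet H x) := by (clear * - hgH hρ100; positivity)
      have hKa : (t / 2 * gsq (U x) + 1 / (2 * t) * gsq (jet H x)) ≤
          K0 * (t / 2 * gsq (U x) + 1 / (2 * t) * gsq (jet H x)) := by
        have : 1 ≤ K0 := by rw [hK0]; linarith only [hCV]
        exact le_mul_of_one_le_left hy3 this
      have hKb : (1 + 100 * CV) * (t / 2 * (gw * ‖(U x).1‖ ^ 2) + 1 / (2 * t) * ‖H x‖ ^ 2) ≤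
          K0 * (t / 2 * (gw * ‖(U x).1‖ ^ 2) + 1 / (2 * t) * ‖H x‖ ^ 2) := by
        have : 1 + 100 * CV ≤ K0 := by rw [hK0]; linarith only []
        exact mul_le_mul_of_nonneg_right this hy4
      rw [add_assoc (1 / 2 * (gP B.S (jet H x) + qV B.S (SS K.F (x - ξ)) (H x))), hfin]
      linarith only [hKa, hb1, hb2, hb3, hcv, hgHr, hy1, hy2, hy4]
  -- integrate
  have hstep : ∀ t : ℝ, 0 < t → Phi K U c ξ - Phi K U 0 ξ ≤
      1 / 2 * ∑ i, q i * c i ^ 2 + K0 * (t / 2) * NII ρ (0.9 * ρ) U +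
        (K0 / (2 * t) + (ρ ^ 5)⁻¹) * (D * ρ ^ 2 * sc) := by
    intro t ht
    have hL1 : Phi K U c ξ - Phi K U 0 ξ = ∫ x, ((1 / 2 * gP B.S (GG K U c ξ x) +
        pot B δ R₀ ρ x (SS K.F (x - ξ)) (GG K U c ξ x).1 + pP B.S (g0 B x) (GG K U c ξ x).1) -
      (1 / 2 * gP B.S (U x) + pot B δ R₀ ρ x (SS K.F (x - ξ)) (U x).1 +
        pP B.S (g0 B x) (U x).1)) := by
      have hA1 : Integrable (fun x => 1 / 2 * gP B.S (GG K U c ξ x) +
        pot B δ R₀ ρ x (SS K.F (x - ξ)) (GG K U c ξ x).1) := (hi1.const_mul _).add hi2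
      have hA2 : Integrable (fun x => 1 / 2 * gP B.S (GG K U c ξ x) +
        pot B δ R₀ ρ x (SS K.F (x - ξ)) (GG K U c ξ x).1 +
        pP B.S (g0 B x) (GG K U c ξ x).1) := hA1.add hi3
      have hA3 : Integrable (fun x => 1 / 2 * gP B.S (U x) +
        pot B δ R₀ ρ x (SS K.F (x - ξ)) (U x).1) := (hj1.const_mul _).add hj2
      have hA4 : Integrable (fun x => 1 / 2 * gP B.S (U x) +
        pot B δ R₀ ρ x (SS K.F (x - ξ)) (U x).1 + pP B.S (g0 B x) (U x).1) := hA3.add hj3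
      rw [integral_sub hA2 hA4, integral_add hA1 hi3, integral_add hA3 hj3,
        integral_add (hi1.const_mul _) hi2, integral_add (hj1.const_mul _) hj2]
      unfold Phi PhiJ
      rw [p6_GG_zero]
      ring
    rw [hL1]
    have hR1 : Integrable (fun x => 1 / 2 * (gP B.S (jet H x) + qV B.S (SS K.F (x - ξ)) (H x)))
        volume := hqi.const_mul _
    have hR2 : Integrable (fun x => K0 * (t / 2) *
        A.indicator (fun x => gsq (U x) + wgt ρ ‖x‖ * ‖(U x).1‖ ^ 2) x) volume :=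
      hNi'.const_mul _
    have hR3 : Integrable (fun x => (K0 / (2 * t) + (ρ ^ 5)⁻¹) * (gsq (jet H x) + ‖H x‖ ^ 2))
        volume := hEi.const_mul _
    have hR12 : Integrable (fun x => 1 / 2 * (gP B.S (jet H x) +
        qV B.S (SS K.F (x - ξ)) (H x)) + K0 * (t / 2) *
        A.indicator (fun x => gsq (U x) + wgt ρ ‖x‖ * ‖(U x).1‖ ^ 2) x) volume := hR1.add hR2
    have hA1 : Integrable (fun x => 1 / 2 * gP B.S (GG K U c ξ x) +
        pot B δ R₀ ρ x (SS K.F (x - ξ)) (GG K U c ξ x).1) := (hi1.const_mul _).add hi2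
    have hA2 : Integrable (fun x => 1 / 2 * gP B.S (GG K U c ξ x) +
        pot B δ R₀ ρ x (SS K.F (x - ξ)) (GG K U c ξ x).1 +
        pP B.S (g0 B x) (GG K U c ξ x).1) := hA1.add hi3
    have hA3 : Integrable (fun x => 1 / 2 * gP B.S (U x) +
        pot B δ R₀ ρ x (SS K.F (x - ξ)) (U x).1) := (hj1.const_mul _).add hj2
    have hA4 : Integrable (fun x => 1 / 2 * gP B.S (U x) +
        pot B δ R₀ ρ x (SS K.F (x - ξ)) (U x).1 + pP B.S (g0 B x) (U x).1) := hA3.add hj3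
    have hR123 : Integrable (fun x => 1 / 2 * (gP B.S (jet H x) +
        qV B.S (SS K.F (x - ξ)) (H x)) + K0 * (t / 2) *
        A.indicator (fun x => gsq (U x) + wgt ρ ‖x‖ * ‖(U x).1‖ ^ 2) x +
        (K0 / (2 * t) + (ρ ^ 5)⁻¹) * (gsq (jet H x) + ‖H x‖ ^ 2)) volume := hR12.add hR3
    refine (integral_mono (hA2.sub hA4) hR123 (hpt t ht)).trans ?_
    have e5 : ∫ x, (1 / 2 * (gP B.S (jet H x) + qV B.S (SS K.F (x - ξ)) (H x)) +
        K0 * (t / 2) * A.indicator (fun x => gsq (U x) + wgt ρ ‖x‖ * ‖(U x).1‖ ^ 2) x +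
        (K0 / (2 * t) + (ρ ^ 5)⁻¹) * (gsq (jet H x) + ‖H x‖ ^ 2)) =
        1 / 2 * (∑ i, q i * c i ^ 2) + K0 * (t / 2) * NII ρ (0.9 * ρ) U +
        (K0 / (2 * t) + (ρ ^ 5)⁻¹) * ∫ x, (gsq (jet H x) + ‖H x‖ ^ 2) := by
      rw [integral_add hR12 hR3, integral_add hR1 hR2, integral_const_mul, integral_const_mul,
        integral_const_mul, hNint, hform']
    refine (le_of_eq e5).trans ?_
    have h6 : (K0 / (2 * t) + (ρ ^ 5)⁻¹) * ∫ x, (gsq (jet H x) + ‖H x‖ ^ 2) ≤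
        (K0 / (2 * t) + (ρ ^ 5)⁻¹) * (D * ρ ^ 2 * sc) :=
      mul_le_mul_of_nonneg_left hE (by positivity)
    linarith only [h6]
  -- optimise
  have hN0 : 0 ≤ NII ρ (0.9 * ρ) U := NII_nonneg _ _ _
  have hopt := p6_amgm ((Phi K U c ξ - Phi K U 0 ξ - 1 / 2 * ∑ i, q i * c i ^ 2 -
    (ρ ^ 5)⁻¹ * (D * ρ ^ 2 * sc)) / K0) (NII ρ (0.9 * ρ) U) (D * ρ ^ 2 * sc) hN0 (by (clear * - hD hρ100; positivity))
    (fun t ht => by
      rw [div_le_iff₀ hK0p]
      have h1 := hstep t ht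
      have h2 : (t * NII ρ (0.9 * ρ) U + D * ρ ^ 2 * sc / t) / 2 * K0 =
          K0 * (t / 2) * NII ρ (0.9 * ρ) U + K0 / (2 * t) * (D * ρ ^ 2 * sc) := by
        field_simp
      rw [h2]
      linarith only [h1])
  rw [div_le_iff₀ hK0p] at hopt
  have hsq : Real.sqrt (D * ρ ^ 2 * sc) = Real.sqrt D * ρ * Real.sqrt sc := by
    rw [Real.sqrt_mul (by positivity), Real.sqrt_mul hD.le, Real.sqrt_sq hρ0.le]
  rw [hsq] at hopt
  have hqsum : ∑ i, q i * c i ^ 2 ≤ -B.c₀ * sc := by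
    rw [hsc, Finset.mul_sum]
    exact Finset.sum_le_sum fun i _ => mul_le_mul_of_nonneg_right (hq i) (sq_nonneg _)
  have hlast : (ρ ^ 5)⁻¹ * (D * ρ ^ 2 * sc) ≤ 1 / 4 * B.c₀ * sc := by
    have h1 : (ρ ^ 5)⁻¹ * (D * ρ ^ 2) ≤ 1 / 4 * B.c₀ := by
      have h2 : (ρ ^ 5)⁻¹ * (D * ρ ^ 2) = D / ρ ^ 3 := by field_simp
      rw [h2, div_le_iff₀ (by positivity)]
      rw [div_le_iff₀ hc0] at hK7
      have h3 : ρ ≤ ρ ^ 3 := by
        calc ρ = ρ ^ 1 := (pow_one ρ).symm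
          _ ≤ ρ ^ 3 := pow_le_pow_right₀ hρ1' (by norm_num)
      have h4 : 1 / 4 * B.c₀ * ρ ≤ 1 / 4 * B.c₀ * ρ ^ 3 :=
        mul_le_mul_of_nonneg_left h3 (by positivity)
      linarith only [h4, hK7]
    calc (ρ ^ 5)⁻¹ * (D * ρ ^ 2 * sc) = (ρ ^ 5)⁻¹ * (D * ρ ^ 2) * sc := by ring
      _ ≤ _ := mul_le_mul_of_nonneg_right h1 hsc0
  have e7 : K0 * Real.sqrt D * ρ * Real.sqrt (NII ρ (0.9 * ρ) U) * Real.sqrt sc =
      Real.sqrt (NII ρ (0.9 * ρ) U) * (Real.sqrt D * ρ * Real.sqrt sc) * K0 := by ring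
  rw [e7]
  linarith only [hlast, hopt, hqsum]

end Pool.MP_ad5d82_an.Wl
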