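import Pool.Agent.Lib.MP_ad5d82_an.h24.PDefs
import Pool.Agent.Lib.MP_ad5d82_an.h24.P.P5
import Pool.Agent.Lib.MP_ad5d82_an.h24.P.P6

set_option autoImplicit false

namespace Pool.MP_ad5d82_an.Wl

open Real Set MeasureTheory Filter Topology
open scoped ContDiff

variable {ι : Type} [Fintype ι] [DecidableEq ι]

variable {B : Base ι} {δ R₀ Ξ : ℝ}


private lemma p7_norm_le {n : Type} [Fintype n] (c : n → ℝ) : ‖c‖ ≤ Real.sqrt (∑ i, c i ^ 2) := by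
  rw [pi_norm_le_iff_of_nonneg (Real.sqrt_nonneg _)]
  intro i
  rw [Real.norm_eq_abs]
  refine Real.abs_le_sqrt ?_
  exact Finset.single_le_sum (f := fun i => c i ^ 2) (fun j _ => sq_nonneg _) (Finset.mem_univ i)

private lemma p7_exists {n : Type} [Fintype n] (f : (n → ℝ) × ℂ → ℝ) (Ξ a b : ℝ) (hΞ : 0 ≤ Ξ)
    (ha0 : 0 ≤ a) (hb0 : 0 < b) (hcont : ContinuousOn f {p | ‖p.2‖ ≤ Ξ})
    (hbound : ∀ (c : n → ℝ) (ξ : ℂ), ‖ξ‖ ≤ Ξ →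
      f (c, ξ) ≤ f (0, ξ) + a * Real.sqrt (∑ i, c i ^ 2) - b * ∑ i, c i ^ 2) :
    ∃ p : (n → ℝ) × ℂ, ‖p.2‖ ≤ Ξ ∧ ∀ q : (n → ℝ) × ℂ, ‖q.2‖ ≤ Ξ → f q ≤ f p := by
  have hc0 : ContinuousOn (fun ξ : ℂ => f (0, ξ)) (Metric.closedBall 0 Ξ) := by
    have h1 : ContinuousOn (fun ξ : ℂ => ((0 : n → ℝ), ξ)) (Metric.closedBall 0 Ξ) := by fun_prop
    refine hcont.comp h1 ?_
    intro ξ hξ
    simpa using hξ
  obtain ⟨ξm, -, hM⟩ := (isCompact_closedBall (0 : ℂ) Ξ).exists_isMaxOn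
    ⟨0, by simpa using hΞ⟩ hc0
  set M0 := f (0, ξm) with hM0
  set P0 := f (0, 0) with hP0
  set R' := (a + |M0 - P0| + 1) / b + 1 with hR'
  have hR'1 : 1 ≤ R' := by
    have : 0 ≤ (a + |M0 - P0| + 1) / b := by positivity
    linarith
  have hcomp : IsCompact (Metric.closedBall (0 : n → ℝ) R' ×ˢ Metric.closedBall (0 : ℂ) Ξ) :=
    (isCompact_closedBall _ _).prod (isCompact_closedBall _ _)
  have hmem0 : ((0 : n → ℝ), (0 : ℂ)) ∈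
      Metric.closedBall (0 : n → ℝ) R' ×ˢ Metric.closedBall (0 : ℂ) Ξ := by
    refine ⟨?_, ?_⟩
    · simp only [Metric.mem_closedBall, dist_self]
      linarith
    · simpa using hΞ
  obtain ⟨p, hp, hmax⟩ := hcomp.exists_isMaxOn ⟨_, hmem0⟩
    (hcont.mono fun q hq => by simpa using hq.2)
  refine ⟨p, by simpa using hp.2, ?_⟩
  rintro ⟨c', ξ'⟩ hξ'
  by_cases hc' : ‖c'‖ ≤ R'
  · exact hmax ⟨by simpa using hc', by simpa using hξ'⟩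
  · rw [not_le] at hc'
    have h1 := hbound c' ξ' hξ'
    set N := Real.sqrt (∑ i, c' i ^ 2) with hN
    have hNn : R' < N := lt_of_lt_of_le hc' (p7_norm_le c')
    have hN2 : ∑ i, c' i ^ 2 = N ^ 2 := by
      rw [hN, Real.sq_sqrt]
      exact Finset.sum_nonneg fun i _ => sq_nonneg _
    rw [hN2] at h1
    have h2 : f (0, ξ') ≤ M0 := hM (by simpa using hξ')
    have h3 : P0 ≤ f p := hmax hmem0
    have h4 : a + |M0 - P0| + 1 < b * N := by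
      have h5 : (a + |M0 - P0| + 1) / b < N := by linarith
      rw [div_lt_iff₀ hb0] at h5
      linarith
    have h6 : |M0 - P0| + 1 ≤ N * (b * N - a) := by
      have h7 : |M0 - P0| + 1 ≤ b * N - a := by linarith
      have h8 : 0 ≤ |M0 - P0| + 1 := by positivity
      have h9 : 1 ≤ N := by linarith
      nlinarith
    have h10 := le_abs_self (M0 - P0)
    have h11 : f (c', ξ') ≤ P0 := by nlinarith
    exact h11.trans h3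

/-! ### P7 maximum points -/
theorem exists_max (B : Base ι) (δ R₀ Ξ : ℝ) (hδ : 0 < δ) (hδ1 : δ ≤ 1) (hR : 1 ≤ R₀)
    (hΞ : 0 ≤ Ξ) : ∃ ρ₀ : ℝ, ∀ K : Cfg B δ R₀ Ξ, ρ₀ ≤ K.ρ → ∀ U : Fld ι, IsSob U →
    ∃ (c : Cc B.S) (ξ : ℂ), IsMaxPt K U c ξ := by
  obtain ⟨C, hC, hcb⟩ := phi_c_bound B
  obtain ⟨ρ₁, hρ₁⟩ := hcb δ R₀ Ξ hδ hδ1 hR hΞ
  obtain ⟨ρ₂, hρ₂⟩ := phi_cont B δ R₀ Ξ hδ hδ1 hR hΞ
  refine ⟨max ρ₁ ρ₂, fun K hK U hU => ?_⟩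
  have hbound := hρ₁ K ((le_max_left _ _).trans hK) U hU
  have hcont := (hρ₂ K ((le_max_right _ _).trans hK) U hU).1
  have hρ := K.wall.hρ
  have hρ' : 0 ≤ K.ρ := by linarith
  have hb := B.hc₀
  obtain ⟨p, hp, hmax⟩ := p7_exists (fun p : Cc B.S × ℂ => Phi K U p.1 p.2) Ξ
    (C * K.ρ * Real.sqrt (NII K.ρ (0.9 * K.ρ) U)) (1 / 4 * B.c₀) hΞ (by positivity)
    (by positivity) hcont hbound
  exact ⟨p.1, p.2, hp, fun c' ξ' hξ' => hmax (c', ξ') hξ'⟩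

/-- size of `c` at a maximum point. -/
theorem max_c_bound (B : Base ι) : ∃ C : ℝ, 0 < C ∧ ∀ δ R₀ Ξ : ℝ, 0 < δ → δ ≤ 1 → 1 ≤ R₀ → 0 ≤ Ξ →
    ∃ ρ₀ : ℝ, ∀ K : Cfg B δ R₀ Ξ, ρ₀ ≤ K.ρ → ∀ U : Fld ι, IsSob U → ∀ (c : Cc B.S) (ξ : ℂ),
    IsMaxPt K U c ξ → ∑ i, c i ^ 2 ≤ C * K.ρ ^ 2 * NII K.ρ (0.9 * K.ρ) U := by
  obtain ⟨C, hC, hcb⟩ := phi_c_bound B
  have hc₀ := B.hc₀
  refine ⟨16 * C ^ 2 / B.c₀ ^ 2, by positivity, fun δ R₀ Ξ hδ hδ1 hR hΞ => ?_⟩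
  obtain ⟨ρ₁, hρ₁⟩ := hcb δ R₀ Ξ hδ hδ1 hR hΞ
  refine ⟨ρ₁, fun K hK U hU c ξ hmax => ?_⟩
  have h1 := hρ₁ K hK U hU c ξ hmax.1
  have h2 := hmax.2 0 ξ hmax.1
  set N := Real.sqrt (∑ i, c i ^ 2) with hN
  have hN2 : ∑ i, c i ^ 2 = N ^ 2 := by
    rw [hN, Real.sq_sqrt]
    exact Finset.sum_nonneg fun i _ => sq_nonneg _
  have hN0 : 0 ≤ N := Real.sqrt_nonneg _
  rw [hN2] at h1 ⊢
  set Q := Real.sqrt (NII K.ρ (0.9 * K.ρ) U) with hQ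
  have hnii : 0 ≤ NII K.ρ (0.9 * K.ρ) U := NII_nonneg _ _ _
  have hQ2 : NII K.ρ (0.9 * K.ρ) U = Q ^ 2 := by
    rw [hQ, Real.sq_sqrt hnii]
  have hQ0 : 0 ≤ Q := Real.sqrt_nonneg _
  rw [hQ2]
  have hρ := K.wall.hρ
  have h3 : 1 / 4 * B.c₀ * N ^ 2 ≤ C * K.ρ * Q * N := by linarith
  rcases hN0.eq_or_lt with h0 | h0
  · rw [← h0, zero_pow two_ne_zero]
    positivity
  · have h4 : B.c₀ * N ≤ 4 * C * K.ρ * Q := by
      have h5 : (B.c₀ * N) * N ≤ (4 * C * K.ρ * Q) * N := by nlinarith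
      exact le_of_mul_le_mul_right h5 h0
    have h6 : (B.c₀ * N) ^ 2 ≤ (4 * C * K.ρ * Q) ^ 2 :=
      pow_le_pow_left₀ (by positivity) h4 2
    have h7 : 16 * C ^ 2 / B.c₀ ^ 2 * K.ρ ^ 2 * Q ^ 2 = (4 * C * K.ρ * Q) ^ 2 / B.c₀ ^ 2 := by
      field_simp
      ring
    rw [h7, le_div_iff₀ (by positivity)]
    linarith [h6, mul_pow B.c₀ N 2]

/-- criticality in `c`. -/
theorem max_c_crit (B : Base ι) (δ R₀ Ξ : ℝ) (hδ : 0 < δ) (hδ1 : δ ≤ 1) (hR : 1 ≤ R₀)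
    (hΞ : 0 ≤ Ξ) : ∃ ρ₀ : ℝ, ∀ K : Cfg B δ R₀ Ξ, ρ₀ ≤ K.ρ → ∀ U : Fld ι, IsSob U →
    ∀ (c : Cc B.S) (ξ : ℂ), IsMaxPt K U c ξ → ∀ c' : Cc B.S,
    DPhiJ K U c ξ (jet (Cf B.S K.χ c' ξ)) = 0 := by
  obtain ⟨ρ₁, hρ₁⟩ := phi_taylor B δ R₀ Ξ hδ hδ1 hR hΞ
  refine ⟨ρ₁, fun K hK U hU c ξ hmax c' => ?_⟩
  have hφ : IsSob (jet (Cf B.S K.χ c' ξ)) := isSob_Cf K c' ξ
  obtain ⟨M, hM⟩ := hρ₁ K hK U (jet (Cf B.S K.χ c' ξ)) hU hφ
  set D := DPhiJ K U c ξ (jet (Cf B.S K.χ c' ξ)) with hD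
  have key : ∀ t : ℝ, |t| ≤ 1 → t * D ≤ M * t ^ 2 := by
    intro t ht
    have h1 := (hM t ht c ξ hmax.1).1
    have h2 : PhiJ K (U + t • jet (Cf B.S K.χ c' ξ)) c ξ ≤ PhiJ K U c ξ := by
      have h3 := hmax.2 (c + t • c') ξ hmax.1
      unfold Phi at h3
      rw [PhiJ_c, jet_Cf_smul K.fam] at h3
      linarith
    have h4 := (abs_le.1 h1).1
    linarith
  have hM0 : 0 ≤ M := by
    have h1 := key 1 (by norm_num)
    have h2 := key (-1) (by norm_num)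
    linarith
  apply le_antisymm
  · by_contra hpos
    rw [not_le] at hpos
    -- choose t small
    have hq : 0 < D / (2 * (M + 1)) := by positivity
    have ht0' : 0 < min 1 (D / (2 * (M + 1))) := lt_min one_pos hq
    have h1 := key (min 1 (D / (2 * (M + 1)))) (by
      rw [abs_of_nonneg ht0'.le]
      exact min_le_left _ _)
    set t := min 1 (D / (2 * (M + 1))) with ht
    have ht0 : 0 < t := ht0'
    have h2 : D ≤ M * t := by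
      have : t * D ≤ t * (M * t) := by nlinarith
      exact le_of_mul_le_mul_left this ht0
    have h3 : t ≤ D / (2 * (M + 1)) := min_le_right _ _
    rw [le_div_iff₀ (by positivity)] at h3
    nlinarith
  · by_contra hneg
    rw [not_le] at hneg
    have hD' : 0 < -D := by linarith
    have hq : 0 < -D / (2 * (M + 1)) := div_pos hD' (by positivity)
    have ht0' : 0 < min 1 (-D / (2 * (M + 1))) := lt_min one_pos hq
    have h1 := key (-(min 1 (-D / (2 * (M + 1))))) (by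
      rw [abs_neg, abs_of_nonneg ht0'.le]
      exact min_le_left _ _)
    set t := min 1 (-D / (2 * (M + 1))) with ht
    have ht0 : 0 < t := ht0'
    have h2 : -D ≤ M * t := by
      have : t * (-D) ≤ t * (M * t) := by nlinarith
      exact le_of_mul_le_mul_left this ht0
    have h3 : t ≤ -D / (2 * (M + 1)) := min_le_right _ _
    rw [le_div_iff₀ (by positivity)] at h3
    nlinarith

end Pool.MP_ad5d82_an.Wl
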