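import Pool.Agent.Lib.MP_ad5d82_an.h24.PDefs
import Pool.Agent.Lib.MP_ad5d82_an.h24.H.H6
import Pool.Agent.Lib.MP_ad5d82_an.h24.H.H8b
import Pool.Agent.Lib.MP_ad5d82_an.h24.F.F1
import Pool.Agent.Lib.MP_ad5d82_an.h24.F.F2
import Pool.Agent.Lib.MP_ad5d82_an.h24.F.F3
import Pool.Agent.Lib.MP_ad5d82_an.h24.P.P0
import Pool.Agent.Lib.MP_ad5d82_an.h24.P.P1
import Pool.Agent.Lib.MP_ad5d82_an.h24.P.P2
import Pool.Agent.Lib.MP_ad5d82_an.h24.P.P4b

set_option autoImplicit false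

namespace Pool.MP_ad5d82_an.Wl

open Real Set MeasureTheory Filter Topology
open scoped ContDiff

variable {ι : Type} [Fintype ι] [DecidableEq ι]

variable {B : Base ι} {δ R₀ Ξ : ℝ}


/-! ### P8a lower bound of the core -/

private theorem P8a_eps (A κ : ℝ) (hκ : 0 < κ) : ∃ ρ₀ : ℝ, ∀ ρ ε F, Wall ρ ε F → ρ₀ ≤ ρ →
    ε * A ≤ κ := by
  refine ⟨16 + 2.5 * (|A| / κ), ?_⟩
  intro ρ ε F hw hρ
  have h1 := eps_le hw
  have hε := hw.hε
  have h0 : 0 ≤ |A| / κ := by positivity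
  have h2 : 0.4 * (ρ - 16) + 1 ≤ exp (0.4 * (ρ - 16)) := Real.add_one_le_exp _
  have h3 : |A| / κ ≤ exp (0.4 * (ρ - 16)) := by linarith
  have h4 : |A| ≤ κ * exp (0.4 * (ρ - 16)) := by
    rw [div_le_iff₀ hκ] at h3
    linarith
  calc ε * A ≤ ε * |A| := mul_le_mul_of_nonneg_left (le_abs_self A) hε.le
    _ ≤ exp (-0.4 * (ρ - 16)) * (κ * exp (0.4 * (ρ - 16))) := by
        gcongr
    _ = κ * (exp (-0.4 * (ρ - 16)) * exp (0.4 * (ρ - 16))) := by ring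
    _ = κ := by
        rw [← Real.exp_add]
        have : -0.4 * (ρ - 16) + 0.4 * (ρ - 16) = 0 := by ring
        rw [this, Real.exp_zero, mul_one]

private theorem P8a_cont_gP (S : Sys ι) : Continuous (gP S) := by
  unfold gP
  fun_prop

private theorem P8a_cont_lin (S : Sys ι) (a : ι) : Continuous (lin S a) := by
  unfold lin
  fun_prop

private theorem P8a_cont_aa (S : Sys ι) : Continuous (aa S) := by
  unfold aa lin
  fun_prop

private theorem P8a_cont_ngs (S : Sys ι) : Continuous (ngs S) := by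
  unfold ngs lin
  fun_prop

private theorem P8a_cont_SS {ρ ε : ℝ} {F : ℝ → ℝ} (h : Wall ρ ε F) (ξ : ℂ) :
    Continuous (fun x : ℂ => SS F (x - ξ)) := by
  unfold SS
  exact h.smooth.continuous.comp (by fun_prop)

/-- `a √X ≤ κ X + 1` -/
private theorem P8a_amgm {a κ X : ℝ} (hκ : 0 < κ) (hX : 0 ≤ X) (ha : a ≤ 2 * Real.sqrt κ) :
    a * Real.sqrt X ≤ κ * X + 1 := by
  have h1 : 0 ≤ Real.sqrt X := Real.sqrt_nonneg X
  have h2 : Real.sqrt X ^ 2 = X := Real.sq_sqrt hX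
  have h3 : Real.sqrt κ ^ 2 = κ := Real.sq_sqrt hκ.le
  have h4 : a * Real.sqrt X ≤ 2 * Real.sqrt κ * Real.sqrt X := mul_le_mul_of_nonneg_right ha h1
  nlinarith [sq_nonneg (Real.sqrt κ * Real.sqrt X - 1)]

/-- `a √X ≤ κ X + a²/(4κ)` -/
private theorem P8a_amgm' {a κ X : ℝ} (hκ : 0 < κ) (hX : 0 ≤ X) :
    a * Real.sqrt X ≤ κ * X + a ^ 2 / (4 * κ) := by
  have h1 : 0 ≤ Real.sqrt X := Real.sqrt_nonneg X
  have h2 : Real.sqrt X ^ 2 = X := Real.sq_sqrt hX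
  have h4 : 0 ≤ (2 * κ * Real.sqrt X - a) ^ 2 / (4 * κ) := by positivity
  have h5 : (2 * κ * Real.sqrt X - a) ^ 2 / (4 * κ) = κ * X + a ^ 2 / (4 * κ) - a * Real.sqrt X := by
    field_simp
    ring_nf
    rw [h2]
  linarith

/-- integrability of the core density. -/
private theorem P8a_int (B : Base ι) {ρ ε : ℝ} {F : ℝ → ℝ} (hw : Wall ρ ε F) {U : Fld ι}
    (hU : IsSob U) (ξ : ℂ) (R : ℝ) :
    IntegrableOn (fun x => WW B.S (SS F (x - ξ)) (v0 B x + (U x).1)) {x : ℂ | ‖x‖ < R} volume := by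
  obtain ⟨C, hC, hg⟩ := WW_growth B.S
  have hball : {x : ℂ | ‖x‖ < R} = Metric.ball 0 R := by
    ext x
    simp
  rw [hball]
  have hv : IntegrableOn (fun x => ‖v0 B x‖) (Metric.ball (0 : ℂ) R) volume := by
    have h1 : IntegrableOn (fun x => 1 + ‖v0 B x‖ ^ 2) (Metric.ball (0 : ℂ) R) volume :=
      (integrableOn_const (by exact measure_ball_lt_top.ne)).add (v0_sq B).integrableOn
    refine h1.mono' (v0_meas B).norm.aestronglyMeasurable.restrict ?_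
    refine Filter.Eventually.of_forall fun x => ?_
    rw [norm_norm]
    linarith [sq_nonneg (‖v0 B x‖ - 1), norm_nonneg (v0 B x)]
  have hi := (hv.add (exp_integrable hU C R)).const_mul C
  refine hi.mono' ?_ ?_
  · have hm : AEStronglyMeasurable (fun x : ℂ => (SS F (x - ξ), v0 B x + (U x).1)) volume :=
      (P8a_cont_SS hw ξ).aestronglyMeasurable.prodMk
        ((v0_meas B).aestronglyMeasurable.add (continuous_fst.comp_aestronglyMeasurable hU.1))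
    exact ((WW_smooth B.S).continuous.comp_aestronglyMeasurable hm).restrict
  · refine Filter.Eventually.of_forall fun x => ?_
    rw [Real.norm_eq_abs]
    exact hg (SS F (x - ξ)) (v0 B x) (U x).1 (SS_neg hw _).le (fun a => v0_lin_nonpos B a x)

theorem core_lower (B : Base ι) : ∃ c : ℝ, 0 < c ∧ ∃ R₁ : ℝ, 1 ≤ R₁ ∧ ∀ η : ℝ, 0 < η → ∃ C : ℝ,
    ∀ R₀ Ξ : ℝ, R₁ ≤ R₀ → 0 ≤ Ξ → ∃ ρ₀ : ℝ, ∀ ρ ε F, Wall ρ ε F → ρ₀ ≤ ρ → ∀ U : Fld ι, IsSob U →
    ∀ ξ : ℂ, ‖ξ‖ ≤ Ξ →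
    c * NC B R₀ U - η * NI R₀ (R₀ + 1) U - C * (1 + Real.log R₀)
      ≤ (∫ x in {x : ℂ | ‖x‖ < R₀}, inD B x (SS F (x - ξ)) (U x)) + (∫ x, pP B.S (g0 B x) (U x).1)
        + 4 * π * ∑ n, B.S.m (B.cp n) * SS F (B.p n - ξ) := by
  obtain ⟨c₁, hc₁, hgP⟩ := gP_ge B.S
  obtain ⟨Rv, hRv1, hpn, hsupp⟩ := v0_supp B
  obtain ⟨Cn, hCn, hngs⟩ := ngs_le B.S
  obtain ⟨Cg', hCg'⟩ := g0_bound B
  obtain ⟨C₂, hlog2⟩ := log_in (ι := ι) Rv (by linarith)
  set Cg : ℝ := |Cg'| with hCgdef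
  have hCg0 : 0 ≤ Cg := abs_nonneg _
  have hCg : ∀ x, ‖g0 B x‖ ≤ Cg := fun x => (hCg' x).trans (le_abs_self _)
  refine ⟨min (c₁ / 4) 0.35, lt_min (by positivity) (by norm_num), Rv, hRv1, ?_⟩
  intro η hη
  set κ : ℝ := min (c₁ / 8) (η / 2) with hκdef
  have hκ : 0 < κ := lt_min (by positivity) (by positivity)
  have hκ1 : κ ≤ c₁ / 8 := min_le_left _ _
  have hκ2 : κ ≤ η / 2 := min_le_right _ _
  refine ⟨(Cg * (2 * Rv)) ^ 2 * |C₂| / (4 * κ) + 3, ?_⟩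
  intro R₀ Ξ hR₀ hΞ
  have hR01 : 1 ≤ R₀ := hRv1.trans hR₀
  have hR0pos : 0 < R₀ := by linarith
  have hlogR : 0 ≤ Real.log R₀ := Real.log_nonneg hR01
  obtain ⟨C₃, hlog3⟩ := log_in (ι := ι) R₀ hR0pos
  -- constants
  set K₁ : ℝ := |C₃| * (1 + Real.log R₀) with hK₁
  have hK₁0 : 0 ≤ K₁ := by positivity
  set I0 : ℝ := ∫ x in {x : ℂ | ‖x‖ < R₀}, ‖v0 B x‖ with hI0
  have hI00 : 0 ≤ I0 := integral_nonneg fun x => norm_nonneg _
  obtain ⟨ρ₁, hρ₁⟩ := SS_near_one Ξ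
  obtain ⟨ρ₂, hρ₂⟩ := P8a_eps (exp (R₀ + Ξ) * Cn * (2 * R₀) * Real.sqrt K₁) (2 * Real.sqrt κ)
    (by positivity)
  obtain ⟨ρ₃, hρ₃⟩ := P8a_eps (exp (R₀ + Ξ) * Cn * I0) 1 one_pos
  obtain ⟨ρ₄, hρ₄⟩ := P8a_eps (4 * π * ((∑ n, B.S.m (B.cp n)) * exp (Rv + Ξ))) 1 one_pos
  refine ⟨max (max ρ₁ ρ₂) (max (max ρ₃ ρ₄) (2 * R₀)), ?_⟩
  intro ρ ε F hw hρ U hU ξ hξ
  have hr1 : ρ₁ ≤ ρ := (le_max_left _ _).trans ((le_max_left _ _).trans hρ)
  have hr2 : ρ₂ ≤ ρ := (le_max_right _ _).trans ((le_max_left _ _).trans hρ)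
  have hr3 : ρ₃ ≤ ρ := (le_max_left _ _).trans ((le_max_left _ _).trans ((le_max_right _ _).trans hρ))
  have hr4 : ρ₄ ≤ ρ := (le_max_right _ _).trans ((le_max_left _ _).trans ((le_max_right _ _).trans hρ))
  have hr5 : 2 * R₀ ≤ ρ := (le_max_right _ _).trans ((le_max_right _ _).trans hρ)
  have hε := hw.hε
  have e2 := hρ₂ ρ ε F hw hr2
  have e3 := hρ₃ ρ ε F hw hr3
  have e4 := hρ₄ ρ ε F hw hr4
  set θ : ℝ := ε * exp (R₀ + Ξ) with hθ
  have hθ0 : 0 ≤ θ := by positivity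
  -- sets
  have mB : ∀ R : ℝ, MeasurableSet {x : ℂ | ‖x‖ < R} := fun R =>
    measurableSet_lt measurable_norm measurable_const
  have mA : MeasurableSet {x : ℂ | R₀ < ‖x‖ ∧ ‖x‖ < R₀ + 1} :=
    (measurableSet_lt measurable_const measurable_norm).inter (mB _)
  have hball : ∀ R : ℝ, {x : ℂ | ‖x‖ < R} = Metric.ball 0 R := fun R => by ext x; simp
  -- the quantity X
  set G₀ : ℝ := ∫ x in {x : ℂ | ‖x‖ < R₀}, gsq (U x) with hG₀
  have hG₀0 : 0 ≤ G₀ := integral_nonneg fun x => by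
    show 0 ≤ gsq (U x)
    unfold gsq; positivity
  set N : ℝ := NI R₀ (R₀ + 1) U with hN
  have hN0 : 0 ≤ N := NI_nonneg _ _ _
  have hXeq : (∫ x in {x : ℂ | ‖x‖ < R₀ + 1}, gsq (U x))
      + (∫ x in {x : ℂ | R₀ < ‖x‖ ∧ ‖x‖ < R₀ + 1}, ‖(U x).1‖ ^ 2) = G₀ + N := by
    have hg := hU.integrable_gsq
    have h1 := integral_split (hg.indicator (mB (R₀ + 1))) R₀
    rw [integral_indicator (mB _), setIntegral_indicator (mB _), setIntegral_indicator (mB _)] at h1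
    have s1 : {x : ℂ | ‖x‖ < R₀} ∩ {x : ℂ | ‖x‖ < R₀ + 1} = {x : ℂ | ‖x‖ < R₀} := by
      ext x
      simp only [mem_inter_iff, mem_setOf_eq]
      exact ⟨fun h => h.1, fun h => ⟨h, by linarith⟩⟩
    have s2 : {x : ℂ | R₀ < ‖x‖} ∩ {x : ℂ | ‖x‖ < R₀ + 1} = {x : ℂ | R₀ < ‖x‖ ∧ ‖x‖ < R₀ + 1} := rfl
    rw [s1, s2] at h1
    rw [h1, hN]
    unfold NI
    rw [integral_add hg.integrableOn]
    · ring
    · refine (hU.integrableOn_sq (R₀ + 1)).mono_set ?_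
      intro x hx
      simpa using hx.2
  have hlog3' := hlog3 R₀ le_rfl hR01 U hU
  have hlog2' := hlog2 R₀ hR₀ hR01 U hU
  rw [hXeq] at hlog3' hlog2'
  set X : ℝ := G₀ + N with hX
  have hX0 : 0 ≤ X := by positivity
  -- L² bounds
  have hsqR : (∫ x in {x : ℂ | ‖x‖ < R₀}, ‖(U x).1‖ ^ 2) ≤ K₁ * X := by
    refine hlog3'.trans ?_
    rw [hK₁]
    gcongr
    exact le_abs_self _
  have hsqV : (∫ x in {x : ℂ | ‖x‖ < Rv}, ‖(U x).1‖ ^ 2) ≤ |C₂| * (1 + Real.log R₀) * X := by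
    refine hlog2'.trans ?_
    gcongr
    exact le_abs_self _
  obtain ⟨hnR, hnR'⟩ := hU.integrableOn_norm_ball R₀
  obtain ⟨hnV, hnV'⟩ := hU.integrableOn_norm_ball Rv
  rw [abs_of_pos hR0pos] at hnR'
  rw [abs_of_pos (by linarith : (0 : ℝ) < Rv)] at hnV'
  have hnR2 : (∫ x in {x : ℂ | ‖x‖ < R₀}, ‖(U x).1‖) ≤ 2 * R₀ * (Real.sqrt K₁ * Real.sqrt X) := by
    refine hnR'.trans ?_
    gcongr
    rw [← Real.sqrt_mul hK₁0]
    exact Real.sqrt_le_sqrt hsqR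
  have hnV2 : (∫ x in {x : ℂ | ‖x‖ < Rv}, ‖(U x).1‖)
      ≤ 2 * Rv * (Real.sqrt (|C₂| * (1 + Real.log R₀)) * Real.sqrt X) := by
    refine hnV'.trans ?_
    have : 0 ≤ Rv := by linarith
    gcongr
    rw [← Real.sqrt_mul (by positivity)]
    exact Real.sqrt_le_sqrt hsqV
  -- g0 term
  have hg0term : -(κ * X + (Cg * (2 * Rv)) ^ 2 * |C₂| / (4 * κ) * (1 + Real.log R₀))
      ≤ ∫ x, pP B.S (g0 B x) (U x).1 := by
    have hpw : ∀ x, |pP B.S (g0 B x) (U x).1| ≤ ‖g0 B x‖ * ‖(U x).1‖ := by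
      intro x
      unfold pP
      have hμ : ∀ j, (1 : ℝ) ≤ B.S.μ j := by
        intro j
        by_cases hj : j = B.S.o
        · rw [hj, B.S.μ_o]; norm_num
        · exact_mod_cast (B.S.one_lt j hj).le
      have h1 : |∑ j, (B.S.μ j : ℝ)⁻¹ * ((g0 B x) j * (U x).1 j)|
          ≤ ∑ j, |(g0 B x) j| * |(U x).1 j| := by
        refine (Finset.abs_sum_le_sum_abs _ _).trans (Finset.sum_le_sum fun j _ => ?_)
        rw [abs_mul, abs_mul, abs_of_nonneg (by positivity : (0 : ℝ) ≤ (B.S.μ j : ℝ)⁻¹)]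
        have : (B.S.μ j : ℝ)⁻¹ ≤ 1 := inv_le_one_of_one_le₀ (hμ j)
        calc (B.S.μ j : ℝ)⁻¹ * (|(g0 B x) j| * |(U x).1 j|)
            ≤ 1 * (|(g0 B x) j| * |(U x).1 j|) := by gcongr
          _ = _ := one_mul _
      refine h1.trans ?_
      have h2 := Finset.sum_mul_sq_le_sq_mul_sq Finset.univ (fun j => |(g0 B x) j|)
        (fun j => |(U x).1 j|)
      have h3 : ‖g0 B x‖ ^ 2 = ∑ j, |(g0 B x) j| ^ 2 := by
        rw [EuclideanSpace.norm_sq_eq]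
        simp [Real.norm_eq_abs]
      have h4 : ‖(U x).1‖ ^ 2 = ∑ j, |(U x).1 j| ^ 2 := by
        rw [EuclideanSpace.norm_sq_eq]
        simp [Real.norm_eq_abs]
      rw [← h3, ← h4, ← mul_pow] at h2
      exact abs_le_of_sq_le_sq' h2 (by positivity) |>.2
    have hzero : ∀ x : ℂ, x ∉ {x : ℂ | ‖x‖ < Rv} → pP B.S (g0 B x) (U x).1 = 0 := by
      intro x hx
      have : g0 B x = 0 := (hsupp x (not_lt.mp hx)).2
      unfold pP
      rw [this]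
      simp
    rw [← setIntegral_eq_integral_of_forall_compl_eq_zero hzero]
    have h5 : |∫ x in {x : ℂ | ‖x‖ < Rv}, pP B.S (g0 B x) (U x).1|
        ≤ Cg * ∫ x in {x : ℂ | ‖x‖ < Rv}, ‖(U x).1‖ := by
      rw [← integral_const_mul, ← Real.norm_eq_abs]
      refine norm_integral_le_of_norm_le (hnV.const_mul Cg) ?_
      refine Filter.Eventually.of_forall fun x => ?_
      rw [Real.norm_eq_abs]
      refine (hpw x).trans ?_
      gcongr
      exact hCg x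
    have h6 : Cg * (∫ x in {x : ℂ | ‖x‖ < Rv}, ‖(U x).1‖)
        ≤ (Cg * (2 * Rv) * Real.sqrt (|C₂| * (1 + Real.log R₀))) * Real.sqrt X := by
      calc Cg * (∫ x in {x : ℂ | ‖x‖ < Rv}, ‖(U x).1‖)
          ≤ Cg * (2 * Rv * (Real.sqrt (|C₂| * (1 + Real.log R₀)) * Real.sqrt X)) := by gcongr
        _ = _ := by ring
    have h7 := P8a_amgm' (a := Cg * (2 * Rv) * Real.sqrt (|C₂| * (1 + Real.log R₀))) hκ hX0
    have h8 : (Cg * (2 * Rv) * Real.sqrt (|C₂| * (1 + Real.log R₀))) ^ 2 / (4 * κ)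
        = (Cg * (2 * Rv)) ^ 2 * |C₂| / (4 * κ) * (1 + Real.log R₀) := by
      rw [mul_pow, Real.sq_sqrt (by positivity)]
      ring
    rw [h8] at h7
    have h9 := (abs_le.mp (h5.trans (h6.trans h7))).1
    exact h9
  -- the S term
  have hSterm : -1 ≤ 4 * π * ∑ n, B.S.m (B.cp n) * SS F (B.p n - ξ) := by
    have h1 : -((∑ n, B.S.m (B.cp n)) * (ε * exp (Rv + Ξ)))
        ≤ ∑ n, B.S.m (B.cp n) * SS F (B.p n - ξ) := by
      rw [Finset.sum_mul, ← Finset.sum_neg_distrib]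
      refine Finset.sum_le_sum fun n _ => ?_
      have h2 := SS_small hw (B.p n - ξ)
      have h3 : ‖B.p n - ξ‖ ≤ Rv + Ξ := (norm_sub_le _ _).trans (add_le_add (hpn n) hξ)
      have h4 : ε * exp ‖B.p n - ξ‖ ≤ ε * exp (Rv + Ξ) := by gcongr
      have h5 := (B.S.m_pos (B.cp n)).le
      have h6 : -(ε * exp (Rv + Ξ)) ≤ SS F (B.p n - ξ) := by linarith
      linarith [mul_le_mul_of_nonneg_left h6 h5]
    have hpi := Real.pi_pos
    have h2 : 4 * π * -((∑ n, B.S.m (B.cp n)) * (ε * exp (Rv + Ξ)))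
        ≤ 4 * π * ∑ n, B.S.m (B.cp n) * SS F (B.p n - ξ) :=
      mul_le_mul_of_nonneg_left h1 (by positivity)
    have h3 : 4 * π * -((∑ n, B.S.m (B.cp n)) * (ε * exp (Rv + Ξ)))
        = -(ε * (4 * π * ((∑ n, B.S.m (B.cp n)) * exp (Rv + Ξ)))) := by ring
    rw [h3] at h2
    linarith
  -- the core integral
  have hWint := P8a_int B hw hU ξ R₀
  have hgPint : IntegrableOn (fun x => gP B.S (U x)) {x : ℂ | ‖x‖ < R₀} volume := by
    refine (hU.integrable_gsq.mono' ((P8a_cont_gP B.S).comp_aestronglyMeasurable hU.1) ?_).integrableOn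
    refine Filter.Eventually.of_forall fun x => ?_
    rw [Real.norm_of_nonneg (gP_nonneg _ _)]
    exact gP_le _ _
  have hnear : ∀ x : ℂ, ‖x‖ < R₀ → 99 / 100 ≤ exp (SS F (x - ξ)) := by
    intro x hx
    refine hρ₁ ρ ε F hw hr1 ξ x hξ ?_
    linarith
  have hvint : IntegrableOn (fun x => ‖v0 B x‖) {x : ℂ | ‖x‖ < R₀} volume := by
    rw [hball]
    have h1 : IntegrableOn (fun x => 1 + ‖v0 B x‖ ^ 2) (Metric.ball (0 : ℂ) R₀) volume :=
      (integrableOn_const (by exact measure_ball_lt_top.ne)).add (v0_sq B).integrableOn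
    refine h1.mono' (v0_meas B).norm.aestronglyMeasurable.restrict ?_
    refine Filter.Eventually.of_forall fun x => ?_
    rw [norm_norm]
    linarith [sq_nonneg (‖v0 B x‖ - 1), norm_nonneg (v0 B x)]
  have hθx : ∀ x : ℂ, ‖x‖ < R₀ → (1 - exp (SS F (x - ξ))) * ngs B.S (v0 B x + (U x).1)
      ≤ θ * Cn * (‖v0 B x‖ + ‖(U x).1‖) := by
    intro x hx
    have h1 : 1 - exp (SS F (x - ξ)) ≤ θ := by
      have h2 := Real.add_one_le_exp (SS F (x - ξ))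
      have h3 := SS_small hw (x - ξ)
      have h4 : ‖x - ξ‖ ≤ R₀ + Ξ := (norm_sub_le _ _).trans (add_le_add hx.le hξ)
      have h5 : ε * exp ‖x - ξ‖ ≤ θ := by rw [hθ]; gcongr
      linarith
    have h2 : ngs B.S (v0 B x + (U x).1) ≤ Cn * (‖v0 B x‖ + ‖(U x).1‖) := by
      refine (hngs _).trans ?_
      gcongr
      exact norm_add_le _ _
    calc (1 - exp (SS F (x - ξ))) * ngs B.S (v0 B x + (U x).1)
        ≤ θ * ngs B.S (v0 B x + (U x).1) :=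
          mul_le_mul_of_nonneg_right h1 (ngs_nonneg _ _)
      _ ≤ θ * (Cn * (‖v0 B x‖ + ‖(U x).1‖)) := mul_le_mul_of_nonneg_left h2 hθ0
      _ = _ := by ring
  have hWlow : ∀ x : ℂ, ‖x‖ < R₀ → 0.35 * aa B.S (v0 B x + (U x).1)
      - θ * Cn * (‖v0 B x‖ + ‖(U x).1‖) ≤ WW B.S (SS F (x - ξ)) (v0 B x + (U x).1) := by
    intro x hx
    have h1 := WW_lower B.S (SS F (x - ξ)) (by linarith [hnear x hx]) (SS_neg hw _).le
      (v0 B x + (U x).1)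
    have h2 := hθx x hx
    linarith
  have hnsum : IntegrableOn (fun x => ‖v0 B x‖ + ‖(U x).1‖) {x : ℂ | ‖x‖ < R₀} volume :=
    hvint.add hnR
  have haaint : IntegrableOn (fun x => aa B.S (v0 B x + (U x).1)) {x : ℂ | ‖x‖ < R₀} volume := by
    have hd : IntegrableOn (fun x => (0.35)⁻¹ * (WW B.S (SS F (x - ξ)) (v0 B x + (U x).1)
        + θ * Cn * (‖v0 B x‖ + ‖(U x).1‖))) {x : ℂ | ‖x‖ < R₀} volume :=
      (hWint.add (hnsum.const_mul _)).const_mul _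
    refine hd.mono' ?_ ?_
    · exact ((P8a_cont_aa B.S).comp_aestronglyMeasurable
        ((v0_meas B).aestronglyMeasurable.add
          (continuous_fst.comp_aestronglyMeasurable hU.1))).restrict
    · refine (ae_restrict_mem (mB R₀)).mono fun x hx => ?_
      rw [Real.norm_of_nonneg (aa_nonneg _ _)]
      have h1 := hWlow x hx
      rw [le_inv_mul_iff₀ (by norm_num)]
      linarith
  have hgsint : IntegrableOn (fun x => gsq (U x)) {x : ℂ | ‖x‖ < R₀} volume :=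
    hU.integrable_gsq.integrableOn
  have hcore : c₁ / 2 * G₀ + 0.35 * (∫ x in {x : ℂ | ‖x‖ < R₀}, aa B.S (v0 B x + (U x).1))
      - θ * Cn * (I0 + ∫ x in {x : ℂ | ‖x‖ < R₀}, ‖(U x).1‖)
      ≤ ∫ x in {x : ℂ | ‖x‖ < R₀}, inD B x (SS F (x - ξ)) (U x) := by
    have i1 : IntegrableOn (fun x => c₁ / 2 * gsq (U x) + 0.35 * aa B.S (v0 B x + (U x).1))
        {x : ℂ | ‖x‖ < R₀} volume := (hgsint.const_mul _).add (haaint.const_mul _)
    have i2 : IntegrableOn (fun x => θ * Cn * (‖v0 B x‖ + ‖(U x).1‖)) {x : ℂ | ‖x‖ < R₀} volume :=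
      hnsum.const_mul _
    have hIeq : (∫ x in {x : ℂ | ‖x‖ < R₀}, (c₁ / 2 * gsq (U x)
        + 0.35 * aa B.S (v0 B x + (U x).1) - θ * Cn * (‖v0 B x‖ + ‖(U x).1‖)))
        = c₁ / 2 * G₀ + 0.35 * (∫ x in {x : ℂ | ‖x‖ < R₀}, aa B.S (v0 B x + (U x).1))
          - θ * Cn * (I0 + ∫ x in {x : ℂ | ‖x‖ < R₀}, ‖(U x).1‖) := by
      rw [integral_sub i1 i2, integral_add (hgsint.const_mul _) (haaint.const_mul _),
        integral_const_mul, integral_const_mul, integral_const_mul, integral_add hvint hnR]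
    rw [← hIeq]
    refine setIntegral_mono_on (i1.sub i2) ?_ (mB R₀) ?_
    · exact (hgPint.const_mul _).add hWint
    · intro x hx
      have h1 := hWlow x hx
      have h2 := hgP (U x)
      show c₁ / 2 * gsq (U x) + 0.35 * aa B.S (v0 B x + (U x).1)
        - θ * Cn * (‖v0 B x‖ + ‖(U x).1‖) ≤ 1 / 2 * gP B.S (U x)
          + WW B.S (SS F (x - ξ)) (v0 B x + (U x).1)
      linarith
  -- small terms
  have hs1 : θ * Cn * I0 ≤ 1 := by
    have : θ * Cn * I0 = ε * (exp (R₀ + Ξ) * Cn * I0) := by rw [hθ]; ring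
    rw [this]
    exact e3
  have hs2 : θ * Cn * (∫ x in {x : ℂ | ‖x‖ < R₀}, ‖(U x).1‖) ≤ κ * X + 1 := by
    have h1 : θ * Cn * (∫ x in {x : ℂ | ‖x‖ < R₀}, ‖(U x).1‖)
        ≤ θ * Cn * (2 * R₀ * (Real.sqrt K₁ * Real.sqrt X)) :=
      mul_le_mul_of_nonneg_left hnR2 (by positivity)
    have h2 : θ * Cn * (2 * R₀ * (Real.sqrt K₁ * Real.sqrt X))
        = (ε * (exp (R₀ + Ξ) * Cn * (2 * R₀) * Real.sqrt K₁)) * Real.sqrt X := by rw [hθ]; ring
    rw [h2] at h1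
    exact h1.trans (P8a_amgm hκ hX0 e2)
  -- NC
  have hNC : NC B R₀ U = G₀ + ∫ x in {x : ℂ | ‖x‖ < R₀}, aa B.S (v0 B x + (U x).1) := by
    unfold NC
    rw [integral_add hgsint haaint]
  set AA : ℝ := ∫ x in {x : ℂ | ‖x‖ < R₀}, aa B.S (v0 B x + (U x).1) with hAA
  have hAA0 : 0 ≤ AA := integral_nonneg fun x => aa_nonneg _ _
  rw [hNC]
  have hmin1 : min (c₁ / 4) 0.35 * G₀ ≤ c₁ / 4 * G₀ :=
    mul_le_mul_of_nonneg_right (min_le_left _ _) hG₀0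
  have hmin2 : min (c₁ / 4) 0.35 * AA ≤ 0.35 * AA :=
    mul_le_mul_of_nonneg_right (min_le_right _ _) hAA0
  have hκG : 2 * κ * G₀ ≤ c₁ / 4 * G₀ := mul_le_mul_of_nonneg_right (by linarith) hG₀0
  have hκN : 2 * κ * N ≤ η * N := mul_le_mul_of_nonneg_right (by linarith) hN0
  have hfin : (3 : ℝ) ≤ 3 * (1 + Real.log R₀) := by linarith
  have hexp : ((Cg * (2 * Rv)) ^ 2 * |C₂| / (4 * κ) + 3) * (1 + Real.log R₀)
      = (Cg * (2 * Rv)) ^ 2 * |C₂| / (4 * κ) * (1 + Real.log R₀) + 3 * (1 + Real.log R₀) := by ring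
  rw [hexp, mul_add]
  have hXX : κ * X = κ * G₀ + κ * N := by rw [hX]; ring
  linarith

end Pool.MP_ad5d82_an.Wl
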