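import Pool.Agent.Lib.MP_ad5d82_an.h24.PDefs
import Pool.Agent.Lib.MP_ad5d82_an.h24.H.H5
import Pool.Agent.Lib.MP_ad5d82_an.h24.P.P0
import Pool.Agent.Lib.MP_ad5d82_an.h24.P.P1

set_option autoImplicit false

namespace Pool.MP_ad5d82_an.Wl

open Real Set MeasureTheory Filter Topology
open scoped ContDiff

variable {ι : Type} [Fintype ι] [DecidableEq ι]

variable {B : Base ι} {δ R₀ Ξ : ℝ}


/-! ### P8b lower bound outside -/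

private theorem P8b_cont_gP (S : Sys ι) : Continuous (gP S) := by
  unfold gP
  fun_prop

private theorem P8b_cont_qV (S : Sys ι) : Continuous (fun p : ℝ × Ev ι => qV S p.1 p.2) := by
  unfold qV vj
  fun_prop

private theorem P8b_cont_SS {ρ ε : ℝ} {F : ℝ → ℝ} (h : Wall ρ ε F) (ξ : ℂ) :
    Continuous (fun x : ℂ => SS F (x - ξ)) := by
  unfold SS
  exact h.smooth.continuous.comp (by fun_prop)

/-- integrability of the quadratic density outside. -/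
theorem out_integrable (S : Sys ι) (Ξ : ℝ) (hΞ : 0 ≤ Ξ) : ∃ ρ₀ : ℝ, ∀ ρ ε F, Wall ρ ε F → ρ₀ ≤ ρ →
    ∀ U : Fld ι, IsSob U → ∀ ξ : ℂ, ‖ξ‖ ≤ Ξ →
    Integrable (fun x => gP S (U x) + qV S (SS F (x - ξ)) (U x).1) volume := by
  obtain ⟨ρ₁, h1⟩ := SS_far Ξ
  obtain ⟨C, hC, hq⟩ := qVb_le S
  refine ⟨ρ₁, ?_⟩
  intro ρ ε F hw hρ U hU ξ hξ
  have hρ1 : 1 ≤ ρ := le_trans (by norm_num) hw.hρ
  refine Integrable.add ?_ ?_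
  · refine hU.integrable_gsq.mono' ((P8b_cont_gP S).comp_aestronglyMeasurable hU.1) ?_
    refine Filter.Eventually.of_forall fun x => ?_
    rw [Real.norm_of_nonneg (gP_nonneg S _)]
    exact gP_le S _
  · have hint := (hU.integrable_wgt hρ1).const_mul (C * 100)
    refine hint.mono' ?_ ?_
    · have hm : AEStronglyMeasurable (fun x : ℂ => (SS F (x - ξ), (U x).1)) volume :=
        (P8b_cont_SS hw ξ).aestronglyMeasurable.prodMk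
          (continuous_fst.comp_aestronglyMeasurable hU.1)
      have h9 := (P8b_cont_qV S).comp_aestronglyMeasurable hm
      exact h9
    · have h0 : ∀ᵐ x : ℂ, x ≠ 0 := by
        rw [ae_iff]
        simp
      filter_upwards [h0] with x hx
      have h2 := (h1 ρ ε F hw hρ ξ x hξ).2 hx
      have h3 := (hq (SS F (x - ξ)) (SS_neg hw _).le (U x).1 (U x).1).2
      rw [Real.norm_eq_abs]
      refine h3.trans ?_
      have h4 : 0 ≤ ‖(U x).1‖ ^ 2 := by positivity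
      calc C * exp (SS F (x - ξ)) * ‖(U x).1‖ ^ 2 ≤ C * (100 * wgt ρ ‖x‖) * ‖(U x).1‖ ^ 2 := by
            gcongr
        _ = C * 100 * (wgt ρ ‖x‖ * ‖(U x).1‖ ^ 2) := by ring

/-- the wall inequality absorbs small perturbations `W`. -/
theorem out_lower (S : Sys ι) : ∃ c : ℝ, 0 < c ∧
    ∀ R₀ Ξ : ℝ, 1 ≤ R₀ → 0 ≤ Ξ → ∃ ρ₀ : ℝ, ∀ ρ ε F, Wall ρ ε F → ρ₀ ≤ ρ →
    ∀ U : Fld ι, IsSob U → ∀ ξ : ℂ, ‖ξ‖ ≤ Ξ → ∀ W : ℂ → ℝ,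
    IntegrableOn W {x : ℂ | R₀ < ‖x‖} volume →
    (∀ x : ℂ, R₀ ≤ ‖x‖ → ‖x‖ < 0.9 * ρ → -(0.42 * ‖(U x).1‖ ^ 2) ≤ W x) →
    (∀ x : ℂ, 0.9 * ρ ≤ ‖x‖ → -((ρ ^ 4)⁻¹ * (wgt ρ ‖x‖ * ‖(U x).1‖ ^ 2)) ≤ W x) →
    c * (NI R₀ (0.9 * ρ) U + (ρ ^ 3)⁻¹ * NII ρ (0.9 * ρ) U)
      ≤ (∫ x in {x : ℂ | R₀ < ‖x‖}, (1 / 2 * (gP S (U x) + qV S (SS F (x - ξ)) (U x).1) + W x))
        + 1 / 2 * ρ ^ 2 * ∑ i ∈ modes S, ell ρ i ξ U ^ 2 := by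
  obtain ⟨c, hc, hWI⟩ := WI S
  refine ⟨c / 4, by positivity, ?_⟩
  intro R₀ Ξ hR₀ hΞ
  obtain ⟨ρ₁, h1⟩ := hWI R₀ Ξ hR₀ hΞ
  obtain ⟨ρ₂, h2⟩ := out_integrable S Ξ hΞ
  refine ⟨max (max ρ₁ ρ₂) (max (2 * R₀) (4 / c)), ?_⟩
  intro ρ ε F hw hρ U hU ξ hξ W hWint hW1 hW2
  have hρ1 : ρ₁ ≤ ρ := (le_max_left _ _).trans ((le_max_left _ _).trans hρ)
  have hρ2 : ρ₂ ≤ ρ := (le_max_right _ _).trans ((le_max_left _ _).trans hρ)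
  have hρ3 : 2 * R₀ ≤ ρ := (le_max_left _ _).trans ((le_max_right _ _).trans hρ)
  have hρ4 : 4 / c ≤ ρ := (le_max_right _ _).trans ((le_max_right _ _).trans hρ)
  have hρpos : 1 ≤ ρ := by linarith
  have hρpos' : 0 < ρ := by linarith
  have hA := h1 ρ ε F hw hρ1 ξ hξ U hU
  have hB := h2 ρ ε F hw hρ2 U hU ξ hξ
  -- measurable sets
  have m1 : MeasurableSet {x : ℂ | R₀ < ‖x‖} := measurableSet_lt measurable_const measurable_norm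
  have m2 : MeasurableSet {x : ℂ | R₀ < ‖x‖ ∧ ‖x‖ < 0.9 * ρ} :=
    m1.inter (measurableSet_lt measurable_norm measurable_const)
  have m3 : MeasurableSet {x : ℂ | 0.9 * ρ ≤ ‖x‖} :=
    measurableSet_le measurable_const measurable_norm
  have hset : {x : ℂ | R₀ < ‖x‖} = {x : ℂ | R₀ < ‖x‖ ∧ ‖x‖ < 0.9 * ρ} ∪ {x : ℂ | 0.9 * ρ ≤ ‖x‖} := by
    ext x
    simp only [mem_setOf_eq, mem_union]
    constructor
    · intro h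
      rcases lt_or_ge ‖x‖ (0.9 * ρ) with h' | h'
      · exact Or.inl ⟨h, h'⟩
      · exact Or.inr h'
    · rintro (h | h)
      · exact h.1
      · linarith only [h, hR₀, hρ3]
  have hdisj : Disjoint {x : ℂ | R₀ < ‖x‖ ∧ ‖x‖ < 0.9 * ρ} {x : ℂ | 0.9 * ρ ≤ ‖x‖} := by
    rw [Set.disjoint_left]
    intro x hx hx'
    simp only [mem_setOf_eq] at hx hx'
    linarith [hx.2]
  have hWa : IntegrableOn W {x : ℂ | R₀ < ‖x‖ ∧ ‖x‖ < 0.9 * ρ} volume :=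
    hWint.mono_set (by rw [hset]; exact subset_union_left)
  have hWb : IntegrableOn W {x : ℂ | 0.9 * ρ ≤ ‖x‖} volume :=
    hWint.mono_set (by rw [hset]; exact subset_union_right)
  have hsplit : ∫ x in {x : ℂ | R₀ < ‖x‖}, W x
      = (∫ x in {x : ℂ | R₀ < ‖x‖ ∧ ‖x‖ < 0.9 * ρ}, W x) + ∫ x in {x : ℂ | 0.9 * ρ ≤ ‖x‖}, W x := by
    rw [hset]
    exact setIntegral_union hdisj m3 hWa hWb
  -- first part
  have hsq : IntegrableOn (fun x => ‖(U x).1‖ ^ 2) {x : ℂ | R₀ < ‖x‖ ∧ ‖x‖ < 0.9 * ρ} volume := by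
    refine (hU.integrableOn_sq (0.9 * ρ)).mono_set ?_
    intro x hx
    simpa using hx.2
  have hfirst : -(0.42 * ∫ x in {x : ℂ | R₀ < ‖x‖ ∧ ‖x‖ < 0.9 * ρ}, ‖(U x).1‖ ^ 2)
      ≤ ∫ x in {x : ℂ | R₀ < ‖x‖ ∧ ‖x‖ < 0.9 * ρ}, W x := by
    rw [← integral_const_mul, ← integral_neg]
    refine setIntegral_mono_on (hsq.const_mul _).neg hWa m2 ?_
    intro x hx
    exact hW1 x hx.1.le hx.2
  have hwg : IntegrableOn (fun x : ℂ => wgt ρ ‖x‖ * ‖(U x).1‖ ^ 2) {x : ℂ | 0.9 * ρ ≤ ‖x‖} volume :=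
    (hU.integrable_wgt hρpos).integrableOn
  have hgs : IntegrableOn (fun x : ℂ => gsq (U x)) {x : ℂ | 0.9 * ρ ≤ ‖x‖} volume :=
    hU.integrable_gsq.integrableOn
  have hsecond : -((ρ ^ 4)⁻¹ * NII ρ (0.9 * ρ) U) ≤ ∫ x in {x : ℂ | 0.9 * ρ ≤ ‖x‖}, W x := by
    have e1 : (∫ x in {x : ℂ | 0.9 * ρ ≤ ‖x‖}, wgt ρ ‖x‖ * ‖(U x).1‖ ^ 2) ≤ NII ρ (0.9 * ρ) U := by
      unfold NII
      refine setIntegral_mono_on hwg (hgs.add hwg) m3 ?_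
      intro x _
      have : 0 ≤ gsq (U x) := by unfold gsq; positivity
      show wgt ρ ‖x‖ * ‖(U x).1‖ ^ 2 ≤ gsq (U x) + wgt ρ ‖x‖ * ‖(U x).1‖ ^ 2
      linarith only [this]
    have e2 : -((ρ ^ 4)⁻¹ * ∫ x in {x : ℂ | 0.9 * ρ ≤ ‖x‖}, wgt ρ ‖x‖ * ‖(U x).1‖ ^ 2)
        ≤ ∫ x in {x : ℂ | 0.9 * ρ ≤ ‖x‖}, W x := by
      rw [← integral_const_mul, ← integral_neg]
      refine setIntegral_mono_on (hwg.const_mul _).neg hWb m3 ?_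
      intro x hx
      exact hW2 x hx
    have e3 : (ρ ^ 4)⁻¹ * (∫ x in {x : ℂ | 0.9 * ρ ≤ ‖x‖}, wgt ρ ‖x‖ * ‖(U x).1‖ ^ 2)
        ≤ (ρ ^ 4)⁻¹ * NII ρ (0.9 * ρ) U := mul_le_mul_of_nonneg_left e1 (by positivity)
    linarith only [e2, e3]
  have htot : ∫ x in {x : ℂ | R₀ < ‖x‖}, (1 / 2 * (gP S (U x) + qV S (SS F (x - ξ)) (U x).1) + W x)
      = 1 / 2 * (∫ x in {x : ℂ | R₀ < ‖x‖}, (gP S (U x) + qV S (SS F (x - ξ)) (U x).1))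
        + ∫ x in {x : ℂ | R₀ < ‖x‖}, W x := by
    rw [integral_add (hB.integrableOn.const_mul _) hWint, integral_const_mul]
  rw [htot, hsplit]
  have hNI : (∫ x in {x : ℂ | R₀ < ‖x‖ ∧ ‖x‖ < 0.9 * ρ}, (gsq (U x) + ‖(U x).1‖ ^ 2))
      = NI R₀ (0.9 * ρ) U := rfl
  have hNII : (∫ x in {x : ℂ | 0.9 * ρ ≤ ‖x‖}, (gsq (U x) + wgt ρ ‖x‖ * ‖(U x).1‖ ^ 2))
      = NII ρ (0.9 * ρ) U := rfl
  rw [hNI, hNII] at hA
  have hN0 := NII_nonneg ρ (0.9 * ρ) U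
  have hN1 := NI_nonneg R₀ (0.9 * ρ) U
  have hL : 0 ≤ ∫ x in {x : ℂ | R₀ < ‖x‖ ∧ ‖x‖ < 0.9 * ρ}, ‖(U x).1‖ ^ 2 :=
    integral_nonneg fun x => by positivity
  have hρ34 : (ρ ^ 4)⁻¹ ≤ c / 4 * (ρ ^ 3)⁻¹ := by
    have : 1 ≤ c / 4 * ρ := by
      rw [div_le_iff₀ hc] at hρ4
      linarith only [hρ4]
    rw [inv_le_iff_one_le_mul₀ (by positivity)]
    have e : c / 4 * (ρ ^ 3)⁻¹ * ρ ^ 4 = c / 4 * ρ := by
      field_simp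
    rw [e]
    exact this
  have hlast : (ρ ^ 4)⁻¹ * NII ρ (0.9 * ρ) U ≤ c / 4 * (ρ ^ 3)⁻¹ * NII ρ (0.9 * ρ) U :=
    mul_le_mul_of_nonneg_right hρ34 hN0
  have hcN : 0 ≤ c * (ρ ^ 3)⁻¹ * NII ρ (0.9 * ρ) U := by positivity
  have hcI : 0 ≤ c * NI R₀ (0.9 * ρ) U := by positivity
  nlinarith only [hA, hL, hcI, hfirst, hlast, hsecond, hA, hfirst, hsecond, hlast, hcN, hcI, hL]

end Pool.MP_ad5d82_an.Wl
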