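import Pool.Agent.Lib.MP_ad5d82_an.h24.PDefs
import Pool.Agent.Lib.MP_ad5d82_an.h24.H.H5w
import Pool.Agent.Lib.MP_ad5d82_an.h24.H.H6
import Pool.Agent.Lib.MP_ad5d82_an.h24.F.F2
import Pool.Agent.Lib.MP_ad5d82_an.h24.P.P0
import Pool.Agent.Lib.MP_ad5d82_an.h24.P.P1
import Pool.Agent.Lib.MP_ad5d82_an.h24.P.P2
import Pool.Agent.Lib.MP_ad5d82_an.h24.P.P3
import Pool.Agent.Lib.MP_ad5d82_an.h24.P.P4
import Pool.Agent.Lib.MP_ad5d82_an.h24.P.P6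
import Pool.Agent.Lib.MP_ad5d82_an.h24.P.P8a
import Pool.Agent.Lib.MP_ad5d82_an.h24.P.P8b

set_option autoImplicit false

namespace Pool.MP_ad5d82_an.Wl

open Real Set MeasureTheory Filter Topology
open scoped ContDiff

variable {ι : Type} [Fintype ι] [DecidableEq ι]

variable {B : Base ι} {δ R₀ Ξ : ℝ}


/-! ### P8 lower and upper energy bounds -/

private theorem P8_GG_zero (K : Cfg B δ R₀ Ξ) (U : Fld ι) (ξ : ℂ) : GG K U 0 ξ = U := by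
  unfold GG
  have h : Cf B.S K.χ 0 ξ = fun _ => 0 := by
    funext x
    unfold Cf
    simp
  rw [h]
  have h2 : jet (fun _ : ℂ => (0 : Ev ι)) = 0 := by
    funext z
    unfold jet
    simp
  rw [h2, add_zero]

private theorem P8_wgt_nonneg {ρ : ℝ} (x : ℂ) : 0 ≤ wgt ρ ‖x‖ := by
  unfold wgt
  exact le_min zero_le_one (by positivity)

private theorem P8_wgt_le {ρ : ℝ} (x : ℂ) : wgt ρ ‖x‖ ≤ 1 := min_le_left _ _

theorem phi_lower (B : Base ι) : ∃ δ₁ : ℝ, 0 < δ₁ ∧ δ₁ ≤ 1 ∧ ∃ C c : ℝ, 0 < c ∧ ∃ R₁ : ℝ, 1 ≤ R₁ ∧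
    ∀ δ R₀ Ξ : ℝ, 0 < δ → δ ≤ δ₁ → R₁ ≤ R₀ → 0 ≤ Ξ → ∃ ρ₀ : ℝ, ∀ K : Cfg B δ R₀ Ξ, ρ₀ ≤ K.ρ →
    ∀ U : Fld ι, IsSob U → ∀ ξ : ℂ, ‖ξ‖ ≤ Ξ →
    c * (NC B R₀ U + NI R₀ (0.9 * K.ρ) U + (K.ρ ^ 3)⁻¹ * NII K.ρ (0.9 * K.ρ) U)
      - C * (1 + Real.log R₀) ≤ Phi K U 0 ξ := by
  obtain ⟨cc, hcc, R₁, hR₁, hcore⟩ := core_lower B
  obtain ⟨co, hco, hout⟩ := out_lower B.S
  obtain ⟨Cp, hCp, hpot⟩ := pot_out B.S
  obtain ⟨C, hC⟩ := hcore (co / 2) (by positivity)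
  refine ⟨min 1 (0.42 / Cp), lt_min one_pos (by positivity), min_le_left _ _, C,
    min cc (co / 2), lt_min hcc (by positivity), R₁, hR₁, ?_⟩
  intro δ R₀ Ξ hδ hδ1 hR₀ hΞ
  have hδ1' : δ ≤ 1 := hδ1.trans (min_le_left _ _)
  have hδ2 : Cp * δ ≤ 0.42 := by
    have := hδ1.trans (min_le_right _ _)
    rw [le_div_iff₀ hCp] at this
    linarith
  have hR01 : 1 ≤ R₀ := hR₁.trans hR₀
  obtain ⟨ρ₁, h1⟩ := hC R₀ Ξ hR₀ hΞ
  obtain ⟨ρ₂, h2⟩ := hout R₀ Ξ hR01 hΞ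
  obtain ⟨ρ₃, h3⟩ := hpot δ Ξ hδ hδ1' hΞ
  obtain ⟨ρ₄, h4⟩ := PhiJ_split B δ R₀ Ξ hδ hδ1' hR01 hΞ
  obtain ⟨ρ₅, h5⟩ := out_integrable B.S Ξ hΞ
  refine ⟨max (max (max ρ₁ ρ₂) (max ρ₃ ρ₄)) (max ρ₅ (2 * (R₀ + 1))), ?_⟩
  intro K hρ U hU ξ hξ
  have hr1 : ρ₁ ≤ K.ρ := (le_max_left _ _).trans ((le_max_left _ _).trans ((le_max_left _ _).trans hρ))
  have hr2 : ρ₂ ≤ K.ρ := (le_max_right _ _).trans ((le_max_left _ _).trans ((le_max_left _ _).trans hρ))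
  have hr3 : ρ₃ ≤ K.ρ := (le_max_left _ _).trans ((le_max_right _ _).trans ((le_max_left _ _).trans hρ))
  have hr4 : ρ₄ ≤ K.ρ := (le_max_right _ _).trans ((le_max_right _ _).trans ((le_max_left _ _).trans hρ))
  have hr5 : ρ₅ ≤ K.ρ := (le_max_left _ _).trans ((le_max_right _ _).trans hρ)
  have hr6 : 2 * (R₀ + 1) ≤ K.ρ := (le_max_right _ _).trans ((le_max_right _ _).trans hρ)
  have hρ1 : 1 ≤ K.ρ := by linarith
  have hρ0 : 0 < K.ρ := by linarith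
  obtain ⟨i1, i2, hsp⟩ := h4 K hr4 U hU 0 ξ hξ
  rw [P8_GG_zero] at i2 hsp
  have hq := h5 K.ρ K.ε K.F K.wall hr5 U hU ξ hξ
  set W : ℂ → ℝ := fun x => RT B.S (tau δ K.ρ x) (SS K.F (x - ξ)) (U x).1 with hW
  have hWint : IntegrableOn W {x : ℂ | R₀ < ‖x‖} volume := by
    have : W = fun x => outD B δ K.ρ x (SS K.F (x - ξ)) (U x)
        - 1 / 2 * (gP B.S (U x) + qV B.S (SS K.F (x - ξ)) (U x).1) := by
      funext x
      rw [hW]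
      unfold outD
      ring
    rw [this]
    exact i2.sub (hq.integrableOn.const_mul _)
  have hWb : ∀ x : ℂ, |W x| ≤ LL Cp δ K.ρ x * ‖(U x).1‖ ^ 2 := fun x =>
    (h3 K.ρ K.ε K.F K.wall hr3 ξ hξ x (U x).1 (U x).1).1
  have hW1 : ∀ x : ℂ, R₀ ≤ ‖x‖ → ‖x‖ < 0.9 * K.ρ → -(0.42 * ‖(U x).1‖ ^ 2) ≤ W x := by
    intro x _ _
    have h6 := (abs_le.mp (hWb x)).1
    have h7 : LL Cp δ K.ρ x ≤ 0.42 := by
      unfold LL
      split_ifs with h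
      · exact hδ2
      · have h8 : (K.ρ ^ 5)⁻¹ ≤ (100 ^ 5 : ℝ)⁻¹ := by
          have := K.wall.hρ
          gcongr
        calc (K.ρ ^ 5)⁻¹ * wgt K.ρ ‖x‖ ≤ (K.ρ ^ 5)⁻¹ * 1 := by
              gcongr
              exact P8_wgt_le x
          _ ≤ 0.42 := by
              rw [mul_one]
              refine h8.trans ?_
              norm_num
    have h9 : LL Cp δ K.ρ x * ‖(U x).1‖ ^ 2 ≤ 0.42 * ‖(U x).1‖ ^ 2 :=
      mul_le_mul_of_nonneg_right h7 (by positivity)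
    linarith
  have hW2 : ∀ x : ℂ, 0.9 * K.ρ ≤ ‖x‖ →
      -((K.ρ ^ 4)⁻¹ * (wgt K.ρ ‖x‖ * ‖(U x).1‖ ^ 2)) ≤ W x := by
    intro x hx
    have h6 := (abs_le.mp (hWb x)).1
    have h7 : LL Cp δ K.ρ x ≤ (K.ρ ^ 4)⁻¹ * wgt K.ρ ‖x‖ := by
      unfold LL
      rw [if_neg (by linarith)]
      refine mul_le_mul_of_nonneg_right ?_ (P8_wgt_nonneg x)
      gcongr
      norm_num
    have h9 : LL Cp δ K.ρ x * ‖(U x).1‖ ^ 2 ≤ (K.ρ ^ 4)⁻¹ * wgt K.ρ ‖x‖ * ‖(U x).1‖ ^ 2 :=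
      mul_le_mul_of_nonneg_right h7 (by positivity)
    have h10 : (K.ρ ^ 4)⁻¹ * wgt K.ρ ‖x‖ * ‖(U x).1‖ ^ 2
        = (K.ρ ^ 4)⁻¹ * (wgt K.ρ ‖x‖ * ‖(U x).1‖ ^ 2) := by ring
    linarith
  have hA := h1 K.ρ K.ε K.F K.wall hr1 U hU ξ hξ
  have hB := h2 K.ρ K.ε K.F K.wall hr2 U hU ξ hξ W hWint hW1 hW2
  have hNI : NI R₀ (R₀ + 1) U ≤ NI R₀ (0.9 * K.ρ) U := NI_mono hU le_rfl (by linarith)
  have hout' : (∫ x in {x : ℂ | R₀ < ‖x‖}, (1 / 2 * (gP B.S (U x)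
      + qV B.S (SS K.F (x - ξ)) (U x).1) + W x))
      = ∫ x in {x : ℂ | R₀ < ‖x‖}, outD B δ K.ρ x (SS K.F (x - ξ)) (U x) := rfl
  rw [hout'] at hB
  have hPhi : Phi K U 0 ξ = PhiJ K U 0 ξ + K.ρ ^ 2 * ∑ i ∈ modes B.S, ell K.ρ i ξ U ^ 2 := rfl
  rw [hPhi, hsp]
  have hsum : 0 ≤ K.ρ ^ 2 * ∑ i ∈ modes B.S, ell K.ρ i ξ U ^ 2 :=
    mul_nonneg (by positivity) (Finset.sum_nonneg fun i _ => by positivity)
  have n1 := NC_nonneg B R₀ U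
  have n2 := NI_nonneg R₀ (0.9 * K.ρ) U
  have n3 : 0 ≤ (K.ρ ^ 3)⁻¹ * NII K.ρ (0.9 * K.ρ) U :=
    mul_nonneg (by positivity) (NII_nonneg _ _ _)
  have m1 : min cc (co / 2) * NC B R₀ U ≤ cc * NC B R₀ U :=
    mul_le_mul_of_nonneg_right (min_le_left _ _) n1
  have m2 : min cc (co / 2) * NI R₀ (0.9 * K.ρ) U ≤ co / 2 * NI R₀ (0.9 * K.ρ) U :=
    mul_le_mul_of_nonneg_right (min_le_right _ _) n2
  have m3 : min cc (co / 2) * ((K.ρ ^ 3)⁻¹ * NII K.ρ (0.9 * K.ρ) U)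
      ≤ co / 2 * ((K.ρ ^ 3)⁻¹ * NII K.ρ (0.9 * K.ρ) U) :=
    mul_le_mul_of_nonneg_right (min_le_right _ _) n3
  have m4 : co / 2 * NI R₀ (R₀ + 1) U ≤ co / 2 * NI R₀ (0.9 * K.ρ) U :=
    mul_le_mul_of_nonneg_left hNI (by positivity)
  have m5 : 0 ≤ co / 2 * ((K.ρ ^ 3)⁻¹ * NII K.ρ (0.9 * K.ρ) U) := by positivity
  rw [mul_add] at hB
  rw [mul_add, mul_add]
  have hsum2 : 1 / 2 * K.ρ ^ 2 * ∑ i ∈ modes B.S, ell K.ρ i ξ U ^ 2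
      = 1 / 2 * (K.ρ ^ 2 * ∑ i ∈ modes B.S, ell K.ρ i ξ U ^ 2) := by ring
  rw [hsum2] at hB
  linarith

theorem phi_upper (B : Base ι) : ∃ C : ℝ, ∀ δ R₀ Ξ : ℝ, 0 < δ → δ ≤ 1 → 1 ≤ R₀ → 0 ≤ Ξ →
    ∃ ρ₀ : ℝ, ∀ K : Cfg B δ R₀ Ξ, ρ₀ ≤ K.ρ → ∀ (c : Cc B.S) (ξ : ℂ), ‖ξ‖ ≤ Ξ → Phi K 0 c ξ ≤ C := by
  obtain ⟨Cb, hCb, hcb⟩ := phi_c_bound B
  obtain ⟨Rv, hRv1, hpn, hsupp⟩ := v0_supp B
  refine ⟨∫ x, 1 / 2 * aa B.S (v0 B x), ?_⟩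
  intro δ R₀ Ξ hδ hδ1 hR₀ hΞ
  obtain ⟨ρ₁, h1⟩ := hcb δ R₀ Ξ hδ hδ1 hR₀ hΞ
  obtain ⟨ρ₂, h2⟩ := PhiJ_split B δ R₀ Ξ hδ hδ1 hR₀ hΞ
  refine ⟨max ρ₁ ρ₂, ?_⟩
  intro K hρ c ξ hξ
  have hr1 : ρ₁ ≤ K.ρ := (le_max_left _ _).trans hρ
  have hr2 : ρ₂ ≤ K.ρ := (le_max_right _ _).trans hρ
  have hc := h1 K hr1 0 IsSob.zero c ξ hξ
  rw [NII_zero, Real.sqrt_zero, mul_zero, zero_mul, add_zero] at hc
  have hc0 : 0 ≤ 1 / 4 * B.c₀ * ∑ i, c i ^ 2 := by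
    have := B.hc₀
    exact mul_nonneg (by positivity) (Finset.sum_nonneg fun i _ => by positivity)
  obtain ⟨i1, i2, hsp⟩ := h2 K hr2 0 IsSob.zero 0 ξ hξ
  rw [P8_GG_zero] at i2 hsp
  have hell : ∀ i : ι × ℕ × Bool, ell K.ρ i ξ (0 : Fld ι) = 0 := by
    intro i
    unfold ell
    simp
  have hPhi : Phi K 0 0 ξ = PhiJ K 0 0 ξ := by
    unfold Phi
    simp [hell]
  have hout : (∫ x in {x : ℂ | R₀ < ‖x‖}, outD B δ K.ρ x (SS K.F (x - ξ)) ((0 : Fld ι) x)) = 0 := by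
    have : ∀ x : ℂ, outD B δ K.ρ x (SS K.F (x - ξ)) ((0 : Fld ι) x) = 0 := by
      intro x
      unfold outD
      have e1 : gP B.S ((0 : Fld ι) x) = 0 := by unfold gP; simp
      have e2 : qV B.S (SS K.F (x - ξ)) ((0 : Fld ι) x).1 = 0 := by unfold qV; simp
      have e3 : RT B.S (tau δ K.ρ x) (SS K.F (x - ξ)) ((0 : Fld ι) x).1 = 0 := by
        have e4 : trc (tau δ K.ρ x) ((0 : Fld ι) x).1 = 0 := by
          unfold trc ch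
          ext j
          simp
        unfold RT RR
        rw [e4, WW_zero]
        unfold qV
        simp
      rw [e1, e2, e3]
      ring
    simp only [this]
    simp
  have hpP : (∫ x, pP B.S (g0 B x) ((0 : Fld ι) x).1) = 0 := by
    have : ∀ x : ℂ, pP B.S (g0 B x) ((0 : Fld ι) x).1 = 0 := by
      intro x
      unfold pP
      simp
    simp only [this]
    simp
  have hS : 4 * π * ∑ n, B.S.m (B.cp n) * SS K.F (B.p n - ξ) ≤ 0 := by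
    refine mul_nonpos_of_nonneg_of_nonpos (by positivity) (Finset.sum_nonpos fun n _ => ?_)
    exact mul_nonpos_of_nonneg_of_nonpos (B.S.m_pos _).le (SS_neg K.wall _).le
  -- integrability of `aa (v0)`
  have hcontaa : Continuous (aa B.S) := by
    unfold aa lin
    fun_prop
  have haz : ∀ x : ℂ, Rv ≤ ‖x‖ → aa B.S (v0 B x) = 0 := by
    intro x hx
    rw [(hsupp x hx).1]
    unfold aa lin
    simp
  have hab : ∀ x : ℂ, aa B.S (v0 B x) ≤ (∑ j, (B.S.μ j : ℝ)) * ∑ a, B.S.m a := by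
    intro x
    refine (aa_upper B.S _).trans ?_
    refine mul_le_mul_of_nonneg_left (Finset.sum_le_sum fun a _ => ?_)
      (Finset.sum_nonneg fun j _ => by positivity)
    have h3 : exp (lin B.S a (v0 B x)) ≤ 1 := Real.exp_le_one_iff.mpr (v0_lin_nonpos B a x)
    have h4 := Real.exp_pos (lin B.S a (v0 B x))
    have h5 := (B.S.m_pos a).le
    have h6 : (exp (lin B.S a (v0 B x)) - 1) ^ 2 ≤ 1 := by nlinarith
    calc B.S.m a * (exp (lin B.S a (v0 B x)) - 1) ^ 2 ≤ B.S.m a * 1 := by gcongr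
      _ = B.S.m a := mul_one _
  have haint : Integrable (fun x => 1 / 2 * aa B.S (v0 B x)) volume := by
    refine Integrable.const_mul ?_ _
    have hind : Integrable ((Metric.ball (0 : ℂ) Rv).indicator
        (fun _ => (∑ j, (B.S.μ j : ℝ)) * ∑ a, B.S.m a)) volume := by
      rw [integrable_indicator_iff Metric.isOpen_ball.measurableSet]
      exact integrableOn_const (by exact measure_ball_lt_top.ne)
    refine hind.mono' ((hcontaa.measurable.comp (v0_meas B)).aestronglyMeasurable) ?_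
    refine Filter.Eventually.of_forall fun x => ?_
    rw [Real.norm_of_nonneg (aa_nonneg _ _)]
    by_cases hx : x ∈ Metric.ball (0 : ℂ) Rv
    · rw [indicator_of_mem hx]
      exact hab x
    · rw [indicator_of_notMem hx]
      rw [Metric.mem_ball, dist_zero_right, not_lt] at hx
      rw [haz x hx]
  have hin : (∫ x in {x : ℂ | ‖x‖ < R₀}, inD B x (SS K.F (x - ξ)) ((0 : Fld ι) x))
      ≤ ∫ x, 1 / 2 * aa B.S (v0 B x) := by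
    have h3 : (∫ x in {x : ℂ | ‖x‖ < R₀}, inD B x (SS K.F (x - ξ)) ((0 : Fld ι) x))
        ≤ ∫ x in {x : ℂ | ‖x‖ < R₀}, 1 / 2 * aa B.S (v0 B x) := by
      refine setIntegral_mono_on i1 haint.integrableOn
        (measurableSet_lt measurable_norm measurable_const) ?_
      intro x _
      unfold inD
      have e1 : gP B.S ((0 : Fld ι) x) = 0 := by unfold gP; simp
      rw [e1, mul_zero, zero_add]
      have e2 : v0 B x + ((0 : Fld ι) x).1 = v0 B x := by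
        show v0 B x + (0 : Ev ι) = v0 B x
        rw [add_zero]
      rw [e2]
      exact WW_upper B.S _ (SS_neg K.wall _).le _
    refine h3.trans (setIntegral_le_integral haint ?_)
    refine Filter.Eventually.of_forall fun x => ?_
    have := aa_nonneg B.S (v0 B x)
    show 0 ≤ 1 / 2 * aa B.S (v0 B x)
    positivity
  rw [hPhi, hsp, hout, hpP] at hc
  linarith

end Pool.MP_ad5d82_an.Wl
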