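import Pool.Agent.Lib.MP_ad5d82_an.h24.PDefs
import Pool.Agent.Lib.MP_ad5d82_an.h24.H.H3a
import Pool.Agent.Lib.MP_ad5d82_an.h24.H.H5w
import Pool.Agent.Lib.MP_ad5d82_an.h24.F.F4
import Pool.Agent.Lib.MP_ad5d82_an.h24.P.P0
import Pool.Agent.Lib.MP_ad5d82_an.h24.P.P1
import Pool.Agent.Lib.MP_ad5d82_an.h24.P.P3
import Pool.Agent.Lib.MP_ad5d82_an.h24.P.P4
import Pool.Agent.Lib.MP_ad5d82_an.h24.P.P8b

set_option autoImplicit false
set_option linter.unusedSectionVars false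

namespace Pool.MP_ad5d82_an.Wl

open Real Set MeasureTheory Filter Topology
open scoped ContDiff

variable {ι : Type} [Fintype ι] [DecidableEq ι]

variable {B : Base ι} {δ R₀ Ξ : ℝ}

theorem p9a_pair_ind (s : Set ℂ) (Z W : Fld ι) : pair (s.indicator Z) W = s.indicator (pair Z W) := by
  funext x
  by_cases hx : x ∈ s
  · simp only [pair, indicator_of_mem hx]
  · simp [pair, indicator_of_notMem hx]

theorem p9a_dual_ind {Z : Fld ι} (hZ : IsDual Z) {s : Set ℂ} (hs : MeasurableSet s) :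
    IsDual (s.indicator Z) := by
  refine ⟨hZ.1.indicator hs, ?_⟩
  have h1 := hZ.2.indicator hs
  refine h1.congr (Eventually.of_forall fun x => ?_)
  by_cases hx : x ∈ s
  · simp only [indicator_of_mem hx]
  · simp [indicator_of_notMem hx]

theorem p9a_pair_sub (Z U V : Fld ι) : pair Z (U - V) = fun x => pair Z U x - pair Z V x := by
  funext x
  simp only [pair, Pi.sub_apply, Prod.fst_sub, Prod.snd_sub, PiLp.sub_apply]
  rw [← Finset.sum_sub_distrib]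
  refine Finset.sum_congr rfl fun j _ => ?_
  ring

theorem p9a_lim {U : ℕ → Fld ι} (hU : ∀ n, IsSob (U n)) {V : Fld ι} (hV : IsSob V)
    (hw : ∀ Z : Fld ι, IsDual Z →
      Tendsto (fun n => ∫ z, pair Z (U n) z) atTop (𝓝 (∫ z, pair Z V z))) {Z : Fld ι}
    (hZ : IsDual Z) : Tendsto (fun n => ∫ z, pair Z (U n - V) z) atTop (𝓝 0) := by
  have h1 : ∀ n, ∫ z, pair Z (U n - V) z = (∫ z, pair Z (U n) z) - ∫ z, pair Z V z := by
    intro n
    rw [p9a_pair_sub]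
    exact integral_sub (pair_integrable hZ (hU n)) (pair_integrable hZ hV)
  simp only [h1]
  have h2 := (hw Z hZ).sub_const (∫ z, pair Z V z)
  rwa [sub_self] at h2

/-- the dual field of the gradient form -/
noncomputable def p9aG (S : Sys ι) (G : Fld ι) : Fld ι := fun x =>
  (0, WithLp.toLp 2 fun j => (S.μ j : ℝ)⁻¹ * (G x).2.1 j,
    WithLp.toLp 2 fun j => (S.μ j : ℝ)⁻¹ * (G x).2.2 j)

theorem p9aG_pair (S : Sys ι) (G W : Fld ι) : pair (p9aG S G) W = fun x => gPb S (G x) (W x) := by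
  funext x
  simp only [pair, p9aG, gPb, PiLp.zero_apply, zero_mul, zero_add]
  refine Finset.sum_congr rfl fun j _ => ?_
  ring

theorem p9a_mu (S : Sys ι) (j : ι) : (0 : ℝ) ≤ (S.μ j : ℝ)⁻¹ ∧ (S.μ j : ℝ)⁻¹ ≤ 1 := by
  have h1 : 1 ≤ S.μ j := by
    by_cases h : j = S.o
    · rw [h, S.μ_o]
    · exact (S.one_lt j h).le
  have h2 : (1 : ℝ) ≤ S.μ j := by exact_mod_cast h1
  exact ⟨inv_nonneg.2 (by linarith), inv_le_one_of_one_le₀ h2⟩

theorem p9a_Pnorm (S : Sys ι) (h : Ev ι) :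
    ‖(WithLp.toLp 2 fun j => (S.μ j : ℝ)⁻¹ * h j : Ev ι)‖ ^ 2 ≤ ‖h‖ ^ 2 := by
  rw [EuclideanSpace.norm_sq_eq, EuclideanSpace.norm_sq_eq]
  refine Finset.sum_le_sum fun j _ => ?_
  obtain ⟨h0, h1⟩ := p9a_mu S j
  simp only [norm_mul, Real.norm_eq_abs, mul_pow, sq_abs]
  have h2 : ((S.μ j : ℝ)⁻¹) ^ 2 ≤ 1 := pow_le_one₀ h0 h1
  nlinarith only [h2, sq_nonneg (h j)]

theorem p9a_Pcont (a : ι → ℝ) : Continuous fun h : Ev ι => (WithLp.toLp 2 fun j => a j * h j : Ev ι) := by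
  fun_prop

theorem p9aG_dual (S : Sys ι) {G : Fld ι} (hG : IsSob G) : IsDual (p9aG S G) := by
  have hm := hG.1
  refine ⟨?_, ?_⟩
  · refine AEStronglyMeasurable.prodMk aestronglyMeasurable_const (AEStronglyMeasurable.prodMk ?_ ?_)
    · exact (p9a_Pcont _).comp_aestronglyMeasurable hm.snd.fst
    · exact (p9a_Pcont _).comp_aestronglyMeasurable hm.snd.snd
  · refine (hG.integrable_gsq).mono' ?_ (Eventually.of_forall fun x => ?_)
    · have h1 : AEStronglyMeasurable (fun x => (WithLp.toLp 2 fun j => (S.μ j : ℝ)⁻¹ * (G x).2.1 j : Ev ι))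
          volume := (p9a_Pcont _).comp_aestronglyMeasurable hm.snd.fst
      have h2 : AEStronglyMeasurable (fun x => (WithLp.toLp 2 fun j => (S.μ j : ℝ)⁻¹ * (G x).2.2 j : Ev ι))
          volume := (p9a_Pcont _).comp_aestronglyMeasurable hm.snd.snd
      have h3 := (h1.norm.pow 2).add (h2.norm.pow 2)
      refine h3.congr (Eventually.of_forall fun x => ?_)
      simp [p9aG]
    · have e1 := p9a_Pnorm S (G x).2.1
      have e2 := p9a_Pnorm S (G x).2.2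
      have e3 : (wt x)⁻¹ * ‖(p9aG S G x).1‖ ^ 2 = 0 := by simp [p9aG]
      rw [e3, zero_add, Real.norm_eq_abs, abs_of_nonneg (by (clear * -; positivity))]
      exact add_le_add e1 e2

theorem p9a_sum_bv (a : ι → ℝ) (j : ι) : (∑ i, a i • (bv i : Ev ι)) j = a j := by
  rw [WithLp.ofLp_sum, Finset.sum_apply, Finset.sum_eq_single j]
  · simp [bv]
  · intro i _ hij
    simp [bv, Ne.symm hij]
  · intro h
    exact absurd (Finset.mem_univ j) h

theorem p9a_repr (h : Ev ι) : h = ∑ j, h j • (bv j : Ev ι) := by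
  ext j
  rw [p9a_sum_bv (fun j => h j) j]

/-- the dual field of a density in the values -/
noncomputable def p9aV (a : ℂ → ι → ℝ) : Fld ι := fun x => (∑ j, a x j • bv j, 0, 0)

theorem p9aV_pair (a : ℂ → ι → ℝ) (W : Fld ι) :
    pair (p9aV a) W = fun x => ∑ j, a x j * (W x).1 j := by
  funext x
  simp only [pair, p9aV, PiLp.zero_apply, zero_mul, add_zero]
  refine Finset.sum_congr rfl fun j _ => ?_
  rw [p9a_sum_bv]

theorem p9aV_norm (a : ℂ → ι → ℝ) (x : ℂ) : ‖(p9aV a x).1‖ ^ 2 = ∑ j, a x j ^ 2 := by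
  rw [EuclideanSpace.norm_sq_eq]
  refine Finset.sum_congr rfl fun j _ => ?_
  simp only [p9aV, p9a_sum_bv, Real.norm_eq_abs, sq_abs]

theorem p9aV_dual (a : ℂ → ι → ℝ) (ha : ∀ j, AEStronglyMeasurable (fun x => a x j) volume)
    {b : ℂ → ℝ} (hb : Integrable b volume) (hab : ∀ x j, (wt x)⁻¹ * a x j ^ 2 ≤ b x) :
    IsDual (p9aV a) := by
  have hm : AEStronglyMeasurable (fun x => (∑ j, a x j • (bv j : Ev ι))) volume := by
    refine Finset.aestronglyMeasurable_fun_sum _ fun j _ => ?_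
    exact (ha j).smul_const _
  refine ⟨AEStronglyMeasurable.prodMk hm aestronglyMeasurable_const, ?_⟩
  have h1 : Integrable (fun x => (Fintype.card ι : ℝ) * b x) volume := hb.const_mul _
  refine h1.mono' ?_ (Eventually.of_forall fun x => ?_)
  · have h2 : AEStronglyMeasurable (fun x => (wt x)⁻¹ * ‖(p9aV a x).1‖ ^ 2) volume := by
      refine AEStronglyMeasurable.mul ?_ (hm.norm.pow 2)
      exact (continuous_wt.inv₀ fun x => (wt_pos x).ne').aestronglyMeasurable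
    refine h2.congr (Eventually.of_forall fun x => ?_)
    simp [p9aV]
  · have e : (wt x)⁻¹ * ‖(p9aV a x).1‖ ^ 2 + (‖(p9aV a x).2.1‖ ^ 2 + ‖(p9aV a x).2.2‖ ^ 2) =
        ∑ j, (wt x)⁻¹ * a x j ^ 2 := by
      rw [p9aV_norm, Finset.mul_sum]
      simp [p9aV]
    rw [e, Real.norm_eq_abs, abs_of_nonneg (Finset.sum_nonneg fun j _ =>
      mul_nonneg (inv_nonneg.2 (wt_pos x).le) (sq_nonneg _))]
    refine (Finset.sum_le_sum fun j _ => hab x j).trans ?_
    simp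

theorem p9a_g0_dual (B : Base ι) :
    IsDual (p9aV (ι := ι) fun x j => (B.S.μ j : ℝ)⁻¹ * (g0 B x) j) := by
  obtain ⟨Rv, -, -, hRv⟩ := v0_supp B
  have hc : Continuous (g0 B) := (g0_smooth B).continuous
  have hcs : HasCompactSupport (fun x => (wt x)⁻¹ * ‖g0 B x‖ ^ 2) := by
    refine HasCompactSupport.intro (isCompact_closedBall (0 : ℂ) Rv) fun x hx => ?_
    rw [mem_closedBall_zero_iff, not_le] at hx
    rw [(hRv x hx.le).2]
    simp
  have hint : Integrable (fun x => (wt x)⁻¹ * ‖g0 B x‖ ^ 2) volume := by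
    refine Continuous.integrable_of_hasCompactSupport ?_ hcs
    exact (continuous_wt.inv₀ fun x => (wt_pos x).ne').mul (hc.norm.pow 2)
  refine p9aV_dual _ (fun j => ?_) hint fun x j => ?_
  · have h0 : Continuous fun v : Ev ι => v j := by fun_prop
    have h1 : Continuous fun x => (g0 B x) j := h0.comp hc
    exact (h1.const_mul _).aestronglyMeasurable
  · refine mul_le_mul_of_nonneg_left ?_ (inv_nonneg.2 (wt_pos x).le)
    obtain ⟨h0, h1⟩ := p9a_mu B.S j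
    have h2 : ((B.S.μ j : ℝ)⁻¹) ^ 2 ≤ 1 := pow_le_one₀ h0 h1
    have h3 : (g0 B x) j ^ 2 ≤ ‖g0 B x‖ ^ 2 := by
      rw [EuclideanSpace.norm_sq_eq]
      have := Finset.single_le_sum (f := fun i => ‖(g0 B x) i‖ ^ 2) (fun i _ => sq_nonneg _)
        (Finset.mem_univ j)
      simpa using this
    rw [mul_pow]
    nlinarith only [h2, h3, sq_nonneg ((g0 B x) j)]

theorem p9a_om_le (t : ℝ) : 0 ≤ om t ∧ om t ≤ 1 :=
  ⟨Real.smoothTransition.nonneg _, Real.smoothTransition.le_one _⟩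

theorem p9a_om_zero (t : ℝ) (ht : 1 ≤ |t|) : om t = 0 := by
  unfold om
  apply Real.smoothTransition.zero_of_nonpos
  have : 1 ≤ t ^ 2 := by
    rw [← sq_abs]
    nlinarith only [ht, abs_nonneg t]
  linarith

theorem p9a_trig_le (k : ℕ) (b : Bool) (z : ℂ) : |trig k b z| ≤ 1 := by
  have h1 : ‖(z / (‖z‖ : ℂ)) ^ k‖ ≤ 1 := by
    rw [norm_pow, norm_div, Complex.norm_real, norm_norm]
    exact pow_le_one₀ (by positivity) (div_self_le_one _)
  unfold trig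
  split_ifs
  · exact (Complex.abs_re_le_norm _).trans h1
  · exact (Complex.abs_im_le_norm _).trans h1

theorem p9a_kernel_meas (ρ : ℝ) (k : ℕ) (b : Bool) (ξ : ℂ) :
    Measurable fun x : ℂ => om (‖x - ξ‖ - ρ) * trig k b (x - ξ) := by
  have h1 : Measurable fun x : ℂ => om (‖x - ξ‖ - ρ) := by
    have : Continuous om := by
      unfold om
      exact Real.smoothTransition.continuous.comp (by fun_prop)
    exact this.measurable.comp (by fun_prop)
  have h2 : Measurable fun x : ℂ => ((x - ξ) / (‖x - ξ‖ : ℂ)) ^ k := by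
    have : Measurable fun x : ℂ => (x - ξ) / (‖x - ξ‖ : ℂ) := by fun_prop
    exact this.pow_const k
  refine h1.mul ?_
  unfold trig
  split_ifs
  · exact Complex.measurable_re.comp h2
  · exact Complex.measurable_im.comp h2

theorem p9a_ell_dual (ρ : ℝ) (i : ι × ℕ × Bool) (ξ : ℂ) :
    IsDual (p9aV (ι := ι) fun x j => if j = i.1 then
      om (‖x - ξ‖ - ρ) * trig i.2.1 i.2.2 (x - ξ) else 0) := by
  set M : ℝ := (1 + (|ρ| + 1 + ‖ξ‖) ^ 2) ^ 2 with hM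
  have hb : Integrable ((Metric.closedBall ξ (|ρ| + 1)).indicator fun _ : ℂ => M) volume := by
    rw [integrable_indicator_iff measurableSet_closedBall]
    exact integrableOn_const (measure_closedBall_lt_top).ne
  refine p9aV_dual _ (fun j => ?_) hb fun x j => ?_
  · by_cases hj : j = i.1
    · simp only [if_pos hj]
      exact (p9a_kernel_meas _ _ _ _).aestronglyMeasurable
    · simp only [if_neg hj]
      exact aestronglyMeasurable_const
  · by_cases hx : x ∈ Metric.closedBall ξ (|ρ| + 1)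
    · rw [indicator_of_mem hx]
      rw [Metric.mem_closedBall, dist_eq_norm] at hx
      have hw : (wt x)⁻¹ ≤ M := by
        unfold wt
        rw [inv_inv, hM]
        have hxn : ‖x‖ ≤ |ρ| + 1 + ‖ξ‖ := by
          calc ‖x‖ = ‖(x - ξ) + ξ‖ := by rw [sub_add_cancel]
            _ ≤ ‖x - ξ‖ + ‖ξ‖ := norm_add_le _ _
            _ ≤ _ := by linarith
        gcongr
      have hsq : (if j = i.1 then om (‖x - ξ‖ - ρ) * trig i.2.1 i.2.2 (x - ξ) else 0) ^ 2 ≤ 1 := by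
        split_ifs
        · rw [mul_pow]
          obtain ⟨o0, o1⟩ := p9a_om_le (‖x - ξ‖ - ρ)
          have h1 : om (‖x - ξ‖ - ρ) ^ 2 ≤ 1 := pow_le_one₀ o0 o1
          have h2 : trig i.2.1 i.2.2 (x - ξ) ^ 2 ≤ 1 := by
            rw [← sq_abs]
            exact pow_le_one₀ (abs_nonneg _) (p9a_trig_le _ _ _)
          exact mul_le_one₀ h1 (sq_nonneg _) h2
        · norm_num
      calc (wt x)⁻¹ * _ ≤ M * 1 := mul_le_mul hw hsq (sq_nonneg _) (by positivity)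
        _ = M := mul_one M
    · rw [indicator_of_notMem hx]
      rw [Metric.mem_closedBall, dist_eq_norm, not_le] at hx
      have h0 : om (‖x - ξ‖ - ρ) = 0 := by
        apply p9a_om_zero
        have := neg_abs_le ρ
        have h3 := le_abs_self ρ
        rw [le_abs]
        left
        linarith
      rw [h0]
      simp

/-- the density of the derivative of the outer potential -/
noncomputable def p9aD (K : Cfg B δ R₀ Ξ) (G : Fld ι) (ξ : ℂ) : Fld ι :=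
  p9aV fun x j => if R₀ < ‖x‖ then
    fderiv ℝ (pot B δ R₀ K.ρ x (SS K.F (x - ξ))) (G x).1 (bv j) else 0

theorem p9aD_pair (K : Cfg B δ R₀ Ξ) (G W : Fld ι) (ξ : ℂ) (x : ℂ) :
    pair (p9aD K G ξ) W x = {x : ℂ | R₀ < ‖x‖}.indicator (fun x =>
      fderiv ℝ (pot B δ R₀ K.ρ x (SS K.F (x - ξ))) (G x).1 (W x).1) x := by
  rw [p9aD, p9aV_pair]
  by_cases hx : R₀ < ‖x‖
  · rw [indicator_of_mem (show x ∈ {x : ℂ | R₀ < ‖x‖} from hx)]
    simp only [if_pos hx]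
    conv_rhs => rw [p9a_repr (W x).1]
    rw [map_sum]
    refine Finset.sum_congr rfl fun j _ => ?_
    rw [map_smul, smul_eq_mul, mul_comm]
  · rw [indicator_of_notMem (show x ∉ {x : ℂ | R₀ < ‖x‖} from hx)]
    simp [if_neg hx]

theorem p9aD_dual (K : Cfg B δ R₀ Ξ) (hδ : 0 < δ) {C : ℝ} (hC : 0 < C) {G : Fld ι} (hG : IsSob G)
    (ξ : ℂ) (hb : ∀ (x : ℂ) (g k : Ev ι), R₀ ≤ ‖x‖ →
      |fderiv ℝ (pot B δ R₀ K.ρ x (SS K.F (x - ξ))) g k| ≤ C * wt x * ‖g‖ * ‖k‖) :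
    IsDual (p9aD K G ξ) := by
  have hρ : 0 < K.ρ := by linarith [K.wall.hρ]
  have hms : MeasurableSet {x : ℂ | R₀ < ‖x‖} := measurableSet_lt measurable_const measurable_norm
  refine p9aV_dual _ (fun j => ?_) (hG.integrable.const_mul (C ^ 2)) fun x j => ?_
  · have h1 : AEStronglyMeasurable (fun x =>
        fderiv ℝ (pot B δ R₀ K.ρ x (SS K.F (x - ξ))) (G x).1 (bv j)) volume := by
      refine dpot_meas B hδ hρ ?_ hG.1.fst aestronglyMeasurable_const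
      exact ((SS_smooth K.wall).continuous.comp (by fun_prop)).measurable
    have h2 := h1.indicator hms
    refine h2.congr (Eventually.of_forall fun x => ?_)
    by_cases hx : R₀ < ‖x‖
    · simp only [if_pos hx]
      rw [indicator_of_mem (show x ∈ {x : ℂ | R₀ < ‖x‖} from hx)]
    · simp only [if_neg hx]
      rw [indicator_of_notMem (show x ∉ {x : ℂ | R₀ < ‖x‖} from hx)]
  · have hw := wt_pos x
    by_cases hx : R₀ < ‖x‖
    · simp only [if_pos hx]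
      have h1 := hb x (G x).1 (bv j) hx.le
      have hbv : ‖(bv j : Ev ι)‖ = 1 := by simp [bv]
      rw [hbv, mul_one] at h1
      have h2 : (fderiv ℝ (pot B δ R₀ K.ρ x (SS K.F (x - ξ))) (G x).1 (bv j)) ^ 2 ≤
          (C * wt x * ‖(G x).1‖) ^ 2 := by
        rw [← sq_abs]
        exact pow_le_pow_left₀ (abs_nonneg _) h1 2
      calc (wt x)⁻¹ * _ ≤ (wt x)⁻¹ * (C * wt x * ‖(G x).1‖) ^ 2 :=
            mul_le_mul_of_nonneg_left h2 (inv_nonneg.2 hw.le)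
        _ = C ^ 2 * (wt x * ‖(G x).1‖ ^ 2) := by field_simp
        _ ≤ C ^ 2 * nsq x (G x) := by
            refine mul_le_mul_of_nonneg_left ?_ (sq_nonneg C)
            unfold nsq gsq
            have : 0 ≤ ‖(G x).2.1‖ ^ 2 + ‖(G x).2.2‖ ^ 2 := by positivity
            linarith
    · simp only [if_neg hx]
      have : 0 ≤ nsq x (G x) := by
        unfold nsq gsq
        (clear * - hw; positivity)
      have h3 : 0 ≤ C ^ 2 * nsq x (G x) := by positivity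
      simpa using h3

theorem p9a_ell_pair (ρ : ℝ) (i : ι × ℕ × Bool) (ξ : ℂ) (W : Fld ι) :
    ∫ x, pair (p9aV (ι := ι) fun x j => if j = i.1 then
      om (‖x - ξ‖ - ρ) * trig i.2.1 i.2.2 (x - ξ) else 0) W x = ell ρ i ξ W := by
  rw [p9aV_pair]
  unfold ell
  refine integral_congr_ae (Eventually.of_forall fun x => ?_)
  simp only [ite_mul, zero_mul]
  rw [Finset.sum_ite_eq' Finset.univ i.1, if_pos (Finset.mem_univ _)]

/-! ### P9a weak lower semicontinuity of the convex part -/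
/-- the part of `Phi` without the core potential -/
noncomputable def PhiB (K : Cfg B δ R₀ Ξ) (U : Fld ι) (c : Cc B.S) (ξ : ℂ) : ℝ :=
  (∫ x in {x : ℂ | ‖x‖ < R₀}, 1 / 2 * gP B.S (U x))
    + (∫ x in {x : ℂ | R₀ < ‖x‖}, outD B δ K.ρ x (SS K.F (x - ξ)) (GG K U c ξ x))
    + (∫ x, pP B.S (g0 B x) (U x).1) + K.ρ ^ 2 * ∑ i ∈ modes B.S, ell K.ρ i ξ U ^ 2

/-- the derivative of `PhiB` at `V` -/
noncomputable def p9aL (K : Cfg B δ R₀ Ξ) (V W : Fld ι) (c : Cc B.S) (ξ : ℂ) : ℝ :=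
  (∫ x, pair ({x : ℂ | ‖x‖ < R₀}.indicator (p9aG B.S V)) W x)
    + (∫ x, pair ({x : ℂ | R₀ < ‖x‖}.indicator (p9aG B.S (GG K V c ξ))) W x)
    + (∫ x, pair (p9aD K (GG K V c ξ) ξ) W x)
    + (∫ x, pair (p9aV (ι := ι) fun x j => (B.S.μ j : ℝ)⁻¹ * (g0 B x) j) W x)
    + 2 * K.ρ ^ 2 * ∑ i ∈ modes B.S, ell K.ρ i ξ V * ell K.ρ i ξ W

lemma p9a_int3 {s : Set ℂ} {f g h : ℂ → ℝ} (hf : IntegrableOn f s volume)
    (hg : IntegrableOn g s volume) (hh : IntegrableOn h s volume) :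
    ∫ x in s, (f x + g x + h x) = (∫ x in s, f x) + (∫ x in s, g x) + ∫ x in s, h x := by
  have h1 : IntegrableOn (fun x => f x + g x) s volume := hf.add hg
  rw [integral_add h1 hh, integral_add hf hg]

lemma p9a_int4 {s : Set ℂ} {f g h k : ℂ → ℝ} (hf : IntegrableOn f s volume)
    (hg : IntegrableOn g s volume) (hh : IntegrableOn h s volume) (hk : IntegrableOn k s volume) :
    ∫ x in s, (f x + g x + h x + k x) =
      (∫ x in s, f x) + (∫ x in s, g x) + (∫ x in s, h x) + ∫ x in s, k x := by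
  have h1 : IntegrableOn (fun x => f x + g x + h x) s volume := (hf.add hg).add hh
  rw [integral_add h1 hk, p9a_int3 hf hg hh]

theorem phiB_lower (B : Base ι) : ∃ δ₁ : ℝ, 0 < δ₁ ∧ ∀ δ R₀ Ξ : ℝ, 0 < δ → δ ≤ δ₁ → δ ≤ 1 → 1 ≤ R₀ →
    0 ≤ Ξ → ∃ ρ₀ : ℝ, ∀ K : Cfg B δ R₀ Ξ, ρ₀ ≤ K.ρ → ∀ U V : Fld ι, IsSob U → IsSob V →
    ∀ (c : Cc B.S) (ξ : ℂ), ‖ξ‖ ≤ Ξ →
      IsDual (p9aD K (GG K V c ξ) ξ) ∧ PhiB K V c ξ + p9aL K V (U - V) c ξ ≤ PhiB K U c ξ := by
  obtain ⟨C, hC, hpot⟩ := pot_out B.S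
  obtain ⟨c1, hc1, hlow⟩ := out_lower B.S
  refine ⟨0.42 / C, by positivity, ?_⟩
  intro δ R₀ Ξ hδ hδ1' hδ1 hR hΞ
  obtain ⟨ρ1, h1⟩ := hpot δ Ξ hδ hδ1 hΞ
  obtain ⟨ρ2, h2⟩ := hlow R₀ Ξ hR hΞ
  obtain ⟨ρ3, h3⟩ := PhiJ_split B δ R₀ Ξ hδ hδ1 hR hΞ
  obtain ⟨ρ4, h4⟩ := phi_integrable B δ R₀ Ξ hδ hδ1 hR hΞ
  obtain ⟨ρ5, h5⟩ := pot_bounds B δ R₀ Ξ hδ hδ1 hR hΞ
  obtain ⟨ρ6, h6⟩ := out_integrable B.S Ξ hΞ
  refine ⟨max ρ1 (max ρ2 (max ρ3 (max ρ4 (max ρ5 ρ6)))), ?_⟩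
  intro K hK U V hU hV c ξ hξ
  have k1 : ρ1 ≤ K.ρ := (le_max_left _ _).trans hK
  have k2 : ρ2 ≤ K.ρ := ((le_max_left _ _).trans (le_max_right _ _)).trans hK
  have k3 : ρ3 ≤ K.ρ :=
    (((le_max_left _ _).trans (le_max_right _ _)).trans (le_max_right _ _)).trans hK
  have k4 : ρ4 ≤ K.ρ := ((((le_max_left _ _).trans (le_max_right _ _)).trans
    (le_max_right _ _)).trans (le_max_right _ _)).trans hK
  have k5 : ρ5 ≤ K.ρ := (((((le_max_left _ _).trans (le_max_right _ _)).trans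
    (le_max_right _ _)).trans (le_max_right _ _)).trans (le_max_right _ _)).trans hK
  have k6 : ρ6 ≤ K.ρ := (((((le_max_right _ _).trans (le_max_right _ _)).trans
    (le_max_right _ _)).trans (le_max_right _ _)).trans (le_max_right _ _)).trans hK
  have hρ100 : 100 ≤ K.ρ := K.wall.hρ
  have hρ : 0 < K.ρ := by linarith
  set G : Fld ι := GG K V c ξ with hGdef
  set W : Fld ι := U - V with hWdef
  have hW : IsSob W := hU.sub hV
  have hG : IsSob G := isSob_GG K hV c ξ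
  have hUW : U = V + W := by rw [hWdef]; abel
  have hGU : GG K U c ξ = G + W := by
    rw [hGdef, hWdef]
    unfold GG
    abel
  obtain ⟨C5, hC5, hb5⟩ := h5 K k5
  have hb : ∀ (x : ℂ) (g k : Ev ι), R₀ ≤ ‖x‖ →
      |fderiv ℝ (pot B δ R₀ K.ρ x (SS K.F (x - ξ))) g k| ≤ C5 * wt x * ‖g‖ * ‖k‖ :=
    fun x g k hx => ((hb5 ξ hξ x g k).2 hx).2.1
  have hD := p9aD_dual K hδ hC5 hG ξ hb
  refine ⟨hD, ?_⟩
  have hin : MeasurableSet {x : ℂ | ‖x‖ < R₀} := measurableSet_lt measurable_norm measurable_const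
  have hout : MeasurableSet {x : ℂ | R₀ < ‖x‖} := measurableSet_lt measurable_const measurable_norm
  -- integrability
  have iGW := pair_integrable (p9aG_dual B.S hG) hW
  rw [p9aG_pair] at iGW
  have iVW := pair_integrable (p9aG_dual B.S hV) hW
  rw [p9aG_pair] at iVW
  have iD := pair_integrable hD hW
  have iD' : IntegrableOn (fun x => fderiv ℝ (pot B δ R₀ K.ρ x (SS K.F (x - ξ))) (G x).1 (W x).1)
      {x : ℂ | R₀ < ‖x‖} volume := by
    rw [← integrable_indicator_iff hout]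
    refine iD.congr (Eventually.of_forall fun x => ?_)
    exact p9aD_pair K G W ξ x
  have iU := (h3 K k3 U hU c ξ hξ).2.1
  have iV := (h3 K k3 V hV c ξ hξ).2.1
  rw [hGU] at iU
  have iQ := h6 K.ρ K.ε K.F K.wall k6 W hW ξ hξ
  have igV := (h4 K k4 V hV ξ hξ).1
  have igU := (h4 K k4 U hU ξ hξ).1
  have igW := (h4 K k4 W hW ξ hξ).1
  have ipV := (h4 K k4 V hV ξ hξ).2.2.1
  have ipW := (h4 K k4 W hW ξ hξ).2.2.1
  -- the remainder
  set τ : ℂ → ℝ := tau δ K.ρ with hτ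
  set Q : ℂ → ℝ := fun x => RT B.S (τ x) (SS K.F (x - ξ)) ((G x).1 + (W x).1)
    - RT B.S (τ x) (SS K.F (x - ξ)) (G x).1
    - fderiv ℝ (RT B.S (τ x) (SS K.F (x - ξ))) (G x).1 (W x).1 with hQ
  have hpt : ∀ x ∈ {x : ℂ | R₀ < ‖x‖}, outD B δ K.ρ x (SS K.F (x - ξ)) ((G + W) x) =
      outD B δ K.ρ x (SS K.F (x - ξ)) (G x) + gPb B.S (G x) (W x)
        + fderiv ℝ (pot B δ R₀ K.ρ x (SS K.F (x - ξ))) (G x).1 (W x).1
        + (1 / 2 * (gP B.S (W x) + qV B.S (SS K.F (x - ξ)) (W x).1) + Q x) := by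
    intro x hx
    have hx' : R₀ ≤ ‖x‖ := le_of_lt hx
    rw [dpot_out B hδ hρ x hx']
    simp only [outD, hQ, Pi.add_apply, Prod.fst_add]
    rw [gP_add, qV_add, hτ]
    ring
  have iQQ : IntegrableOn Q {x : ℂ | R₀ < ‖x‖} volume := by
    have e1 : IntegrableOn (fun x => outD B δ K.ρ x (SS K.F (x - ξ)) ((G + W) x)
        - outD B δ K.ρ x (SS K.F (x - ξ)) (G x) - gPb B.S (G x) (W x)
        - fderiv ℝ (pot B δ R₀ K.ρ x (SS K.F (x - ξ))) (G x).1 (W x).1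
        - 1 / 2 * (gP B.S (W x) + qV B.S (SS K.F (x - ξ)) (W x).1)) {x : ℂ | R₀ < ‖x‖} volume :=
      (((iU.sub iV).sub iGW.integrableOn).sub iD').sub (iQ.const_mul _).integrableOn
    refine e1.congr_fun (fun x hx => ?_) hout
    simp only
    rw [hpt x hx]
    ring
  have hwgt : ∀ x : ℂ, wgt K.ρ ‖x‖ ≤ 1 := fun x => min_le_left _ _
  have hwgt0 : ∀ x : ℂ, 0 ≤ wgt K.ρ ‖x‖ := fun x => le_min zero_le_one (by positivity)
  have hQb : ∀ x : ℂ, -(LL C δ K.ρ x * ‖(W x).1‖ ^ 2) ≤ Q x := by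
    intro x
    have := (h1 K.ρ K.ε K.F K.wall k1 ξ hξ x (G x).1 ((G x).1 + (W x).1)).2.2.2
    rw [add_sub_cancel_left] at this
    exact (abs_le.1 this).1
  have hlower := h2 K.ρ K.ε K.F K.wall k2 W hW ξ hξ Q iQQ (by
    intro x hx1 hx2
    refine le_trans ?_ (hQb x)
    have : LL C δ K.ρ x ≤ 0.42 := by
      unfold LL
      split_ifs
      · rw [le_div_iff₀ hC] at hδ1'
        linarith
      · have h5 : (K.ρ ^ 5)⁻¹ ≤ 0.01 := by
          have h7 : (100 : ℝ) ≤ K.ρ ^ 5 := by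
            calc (100 : ℝ) ≤ 100 ^ 5 := by norm_num
              _ ≤ K.ρ ^ 5 := pow_le_pow_left₀ (by norm_num) hρ100 5
          rw [inv_le_comm₀ (by positivity) (by norm_num)]
          norm_num
          linarith
        have h8 : (K.ρ ^ 5)⁻¹ * wgt K.ρ ‖x‖ ≤ 0.01 * 1 :=
          mul_le_mul h5 (hwgt x) (hwgt0 x) (by norm_num)
        linarith
    have h9 := mul_le_mul_of_nonneg_right this (sq_nonneg ‖(W x).1‖)
    linarith only [h9]) (by
    intro x hx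
    refine le_trans ?_ (hQb x)
    have hnot : ¬ ‖x‖ < K.ρ / 2 := by
      rw [not_lt]
      linarith
    have h5 : (K.ρ ^ 5)⁻¹ ≤ (K.ρ ^ 4)⁻¹ := by
      apply inv_anti₀ (by positivity)
      exact pow_le_pow_right₀ (by linarith) (by norm_num)
    have h8 : LL C δ K.ρ x ≤ (K.ρ ^ 4)⁻¹ * wgt K.ρ ‖x‖ := by
      unfold LL
      rw [if_neg hnot]
      exact mul_le_mul_of_nonneg_right h5 (hwgt0 x)
    have h9 := mul_le_mul_of_nonneg_right h8 (sq_nonneg ‖(W x).1‖)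
    linarith)
  have hNpos : 0 ≤ c1 * (NI R₀ (0.9 * K.ρ) W + (K.ρ ^ 3)⁻¹ * NII K.ρ (0.9 * K.ρ) W) := by
    have a1 := NI_nonneg R₀ (0.9 * K.ρ) W
    have a2 := NII_nonneg K.ρ (0.9 * K.ρ) W
    (clear * - a1 a2 hc1 hρ100; positivity)
  have hlow' := hNpos.trans hlower
  -- the four parts
  have eA : ∫ x in {x : ℂ | ‖x‖ < R₀}, 1 / 2 * gP B.S (U x) =
      (∫ x in {x : ℂ | ‖x‖ < R₀}, 1 / 2 * gP B.S (V x))
      + (∫ x in {x : ℂ | ‖x‖ < R₀}, gPb B.S (V x) (W x))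
      + ∫ x in {x : ℂ | ‖x‖ < R₀}, 1 / 2 * gP B.S (W x) := by
    rw [← p9a_int3 (igV.const_mul _).integrableOn iVW.integrableOn
        (igW.const_mul _).integrableOn]
    refine integral_congr_ae (Eventually.of_forall fun x => ?_)
    have : U x = V x + W x := congrFun hUW x
    simp only [this, gP_add]
    ring
  have eB : ∫ x in {x : ℂ | R₀ < ‖x‖}, outD B δ K.ρ x (SS K.F (x - ξ)) (GG K U c ξ x) =
      (∫ x in {x : ℂ | R₀ < ‖x‖}, outD B δ K.ρ x (SS K.F (x - ξ)) (G x))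
      + (∫ x in {x : ℂ | R₀ < ‖x‖}, gPb B.S (G x) (W x))
      + (∫ x in {x : ℂ | R₀ < ‖x‖},
          fderiv ℝ (pot B δ R₀ K.ρ x (SS K.F (x - ξ))) (G x).1 (W x).1)
      + ∫ x in {x : ℂ | R₀ < ‖x‖},
          (1 / 2 * (gP B.S (W x) + qV B.S (SS K.F (x - ξ)) (W x).1) + Q x) := by
    have iR : IntegrableOn (fun x => 1 / 2 * (gP B.S (W x) + qV B.S (SS K.F (x - ξ)) (W x).1) + Q x)
        {x : ℂ | R₀ < ‖x‖} volume := (iQ.const_mul _).integrableOn.add iQQ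
    rw [← p9a_int4 iV iGW.integrableOn iD' iR, hGU]
    exact setIntegral_congr_fun hout fun x hx => hpt x hx
  have eC : ∫ x, pP B.S (g0 B x) (U x).1 =
      (∫ x, pP B.S (g0 B x) (V x).1) + ∫ x, pP B.S (g0 B x) (W x).1 := by
    rw [← integral_add ipV ipW]
    refine integral_congr_ae (Eventually.of_forall fun x => ?_)
    have : U x = V x + W x := congrFun hUW x
    simp only [this, pP, Prod.fst_add, PiLp.add_apply]
    rw [← Finset.sum_add_distrib]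
    refine Finset.sum_congr rfl fun j _ => ?_
    ring
  have eE : ∑ i ∈ modes B.S, ell K.ρ i ξ U ^ 2 = (∑ i ∈ modes B.S, ell K.ρ i ξ V ^ 2)
      + 2 * (∑ i ∈ modes B.S, ell K.ρ i ξ V * ell K.ρ i ξ W)
      + ∑ i ∈ modes B.S, ell K.ρ i ξ W ^ 2 := by
    rw [Finset.mul_sum, ← Finset.sum_add_distrib, ← Finset.sum_add_distrib]
    refine Finset.sum_congr rfl fun i _ => ?_
    rw [hUW, ell_add K.ρ i ξ hV hW]
    ring
  -- the linear part
  have l1 : ∫ x, pair ({x : ℂ | ‖x‖ < R₀}.indicator (p9aG B.S V)) W x =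
      ∫ x in {x : ℂ | ‖x‖ < R₀}, gPb B.S (V x) (W x) := by
    rw [p9a_pair_ind, integral_indicator hin, p9aG_pair]
  have l2 : ∫ x, pair ({x : ℂ | R₀ < ‖x‖}.indicator (p9aG B.S G)) W x =
      ∫ x in {x : ℂ | R₀ < ‖x‖}, gPb B.S (G x) (W x) := by
    rw [p9a_pair_ind, integral_indicator hout, p9aG_pair]
  have l3 : ∫ x, pair (p9aD K G ξ) W x = ∫ x in {x : ℂ | R₀ < ‖x‖},
      fderiv ℝ (pot B δ R₀ K.ρ x (SS K.F (x - ξ))) (G x).1 (W x).1 := by
    rw [← integral_indicator hout]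
    exact integral_congr_ae (Eventually.of_forall fun x => p9aD_pair K G W ξ x)
  have l4 : ∫ x, pair (p9aV (ι := ι) fun x j => (B.S.μ j : ℝ)⁻¹ * (g0 B x) j) W x =
      ∫ x, pP B.S (g0 B x) (W x).1 := by
    rw [p9aV_pair]
    refine integral_congr_ae (Eventually.of_forall fun x => ?_)
    simp only [pP]
    refine Finset.sum_congr rfl fun j _ => ?_
    ring
  have hgW : 0 ≤ ∫ x in {x : ℂ | ‖x‖ < R₀}, 1 / 2 * gP B.S (W x) :=
    integral_nonneg fun x => mul_nonneg (by norm_num) (gP_nonneg _ _)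
  have hsq : 0 ≤ K.ρ ^ 2 * ∑ i ∈ modes B.S, ell K.ρ i ξ W ^ 2 :=
    mul_nonneg (sq_nonneg _) (Finset.sum_nonneg fun i _ => sq_nonneg _)
  unfold PhiB p9aL
  rw [eA, eB, eC, eE, ← hGdef, l1, l2, l3, l4]
  nlinarith only [hNpos, hgW, hlower, hsq, hlow', hgW, hsq]

theorem phiB_lsc (B : Base ι) : ∃ δ₁ : ℝ, 0 < δ₁ ∧ ∀ δ R₀ Ξ : ℝ, 0 < δ → δ ≤ δ₁ → δ ≤ 1 → 1 ≤ R₀ →
    0 ≤ Ξ → ∃ ρ₀ : ℝ, ∀ K : Cfg B δ R₀ Ξ, ρ₀ ≤ K.ρ → ∀ U : ℕ → Fld ι, (∀ n, IsSob (U n)) →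
    ∀ V : Fld ι, IsSob V →
    (∀ Z : Fld ι, IsDual Z → Tendsto (fun n => ∫ z, pair Z (U n) z) atTop (𝓝 (∫ z, pair Z V z))) →
    ∀ (c : Cc B.S) (ξ : ℂ), ‖ξ‖ ≤ Ξ → ∀ η : ℝ, 0 < η →
    ∀ᶠ n in atTop, PhiB K V c ξ - η ≤ PhiB K (U n) c ξ := by
  obtain ⟨δ₁, hδ₁, h⟩ := phiB_lower B
  refine ⟨δ₁, hδ₁, ?_⟩
  intro δ R₀ Ξ hδ hδ1' hδ1 hR hΞ
  obtain ⟨ρ₀, h0⟩ := h δ R₀ Ξ hδ hδ1' hδ1 hR hΞ
  refine ⟨ρ₀, ?_⟩
  intro K hK U hU V hV hw c ξ hξ η hη
  have hD := (h0 K hK V V hV hV c ξ hξ).1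
  have hin : MeasurableSet {x : ℂ | ‖x‖ < R₀} := measurableSet_lt measurable_norm measurable_const
  have hout : MeasurableSet {x : ℂ | R₀ < ‖x‖} := measurableSet_lt measurable_const measurable_norm
  have t1 := p9a_lim hU hV hw (p9a_dual_ind (p9aG_dual B.S hV) hin)
  have t2 := p9a_lim hU hV hw (p9a_dual_ind (p9aG_dual B.S (isSob_GG K hV c ξ)) hout)
  have t3 := p9a_lim hU hV hw hD
  have t4 := p9a_lim hU hV hw (p9a_g0_dual B)
  have t5 : ∀ i ∈ modes B.S, Tendsto (fun n => ell K.ρ i ξ V * ell K.ρ i ξ (U n - V)) atTop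
      (𝓝 (ell K.ρ i ξ V * 0)) := by
    intro i _
    have h6 := p9a_lim hU hV hw (p9a_ell_dual (ι := ι) K.ρ i ξ)
    simp only [p9a_ell_pair] at h6
    exact h6.const_mul _
  have t6 := tendsto_finsetSum (modes B.S) t5
  have t7 := (((t1.add t2).add t3).add t4).add (t6.const_mul (2 * K.ρ ^ 2))
  have t8 : Tendsto (fun n => p9aL K V (U n - V) c ξ) atTop (𝓝 0) := by
    have h6 : 0 + 0 + 0 + 0 + 2 * K.ρ ^ 2 * ∑ i ∈ modes B.S, ell K.ρ i ξ V * 0 = (0 : ℝ) := by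
      simp
    rw [← h6]
    exact t7
  have t9 := t8.eventually (Ioi_mem_nhds (show -η < 0 by linarith))
  filter_upwards [t9] with n hn
  have h7 := (h0 K hK (U n) V (hU n) hV c ξ hξ).2
  have h8 : -η < p9aL K V (U n - V) c ξ := hn
  linarith

end Pool.MP_ad5d82_an.Wl
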