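import Pool.Agent.Lib.MP_ad5d82_an.h24.PDefs
import Pool.Agent.Lib.MP_ad5d82_an.h24.H.H1
import Pool.Agent.Lib.MP_ad5d82_an.h24.H.H8b
import Pool.Agent.Lib.MP_ad5d82_an.h24.F.F1
import Pool.Agent.Lib.MP_ad5d82_an.h24.F.F2
import Pool.Agent.Lib.MP_ad5d82_an.h24.F.F3
import Pool.Agent.Lib.MP_ad5d82_an.h24.P.P0
import Pool.Agent.Lib.MP_ad5d82_an.h24.P.P1
import Pool.Agent.Lib.MP_ad5d82_an.h24.P.P2

set_option autoImplicit false

namespace Pool.MP_ad5d82_an.Wl

open Real Set MeasureTheory Filter Topology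
open scoped ContDiff

variable {ι : Type} [Fintype ι] [DecidableEq ι]

variable {B : Base ι} {δ R₀ Ξ : ℝ}

theorem P9b_lin_sub (S : Sys ι) (a : ι) (h h' : Ev ι) :
    lin S a h - lin S a h' = lin S a (h - h') := by
  simp only [lin, ← Finset.sum_sub_distrib]
  refine Finset.sum_congr rfl fun j _ => ?_
  rw [PiLp.sub_apply]
  ring

theorem P9b_ngs_lip (S : Sys ι) : ∃ C : ℝ, 0 < C ∧ ∀ h h' : Ev ι,
    |ngs S h - ngs S h'| ≤ C * ‖h - h'‖ := by
  obtain ⟨C, hC, hl⟩ := lin_le S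
  have hm : 0 ≤ ∑ a, S.m a := Finset.sum_nonneg fun a _ => (S.m_pos a).le
  refine ⟨(∑ a, S.m a) * C + 1, by positivity, fun h h' => ?_⟩
  have h1 : ngs S h - ngs S h' =
      ∑ a, S.m a * (max (-(lin S a h)) 0 - max (-(lin S a h')) 0) := by
    simp only [ngs, ← Finset.sum_sub_distrib]
    exact Finset.sum_congr rfl fun a _ => by ring
  rw [h1]
  refine (Finset.abs_sum_le_sum_abs _ _).trans ?_
  have h2 : ∀ a, |S.m a * (max (-(lin S a h)) 0 - max (-(lin S a h')) 0)| ≤
      S.m a * (C * ‖h - h'‖) := by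
    intro a
    rw [abs_mul, abs_of_pos (S.m_pos a)]
    refine mul_le_mul_of_nonneg_left ?_ (S.m_pos a).le
    refine (abs_max_sub_max_le_abs _ _ _).trans ?_
    have h3 : -(lin S a h) - -(lin S a h') = -(lin S a (h - h')) := by
      rw [← P9b_lin_sub]; ring
    rw [h3, abs_neg]
    exact hl a _
  refine (Finset.sum_le_sum fun a _ => h2 a).trans ?_
  rw [← Finset.sum_mul]
  nlinarith [norm_nonneg (h - h')]

theorem P9b_ngs_cont (S : Sys ι) : Continuous (ngs S) := by
  obtain ⟨C, hC, hl⟩ := P9b_ngs_lip S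
  have : LipschitzWith (Real.toNNReal C) (ngs S) := by
    refine LipschitzWith.of_dist_le_mul fun x y => ?_
    rw [Real.dist_eq, dist_eq_norm, Real.coe_toNNReal C hC.le]
    exact hl x y
  exact this.continuous

/-! ### P9b Fatou for the core potential -/
theorem core_lsc (B : Base ι) (R₀ Ξ : ℝ) (hR : 1 ≤ R₀) (hΞ : 0 ≤ Ξ) : ∃ ρ₀ : ℝ, ∀ ρ ε F, Wall ρ ε F →
    ρ₀ ≤ ρ → ∀ U : ℕ → Fld ι, (∀ n, IsSob (U n)) → ∀ V : Fld ι, IsSob V →
    (∀ R : ℝ, Tendsto (fun n => ∫ z in Metric.ball (0 : ℂ) R, ‖(U n z).1 - (V z).1‖ ^ 2) atTop (𝓝 0)) →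
    (∀ᵐ z : ℂ, Tendsto (fun n => (U n z).1) atTop (𝓝 (V z).1)) →
    ∀ ξ : ℂ, ‖ξ‖ ≤ Ξ → ∀ η : ℝ, 0 < η → ∀ᶠ n in atTop,
    (∫ x in {x : ℂ | ‖x‖ < R₀}, WW B.S (SS F (x - ξ)) (v0 B x + (V x).1)) - η
      ≤ ∫ x in {x : ℂ | ‖x‖ < R₀}, WW B.S (SS F (x - ξ)) (v0 B x + (U n x).1) := by
  obtain ⟨ρ₁, h1⟩ := SS_near_one Ξ
  obtain ⟨Cn, hCn, hngs⟩ := P9b_ngs_lip B.S
  obtain ⟨Cm, hCm, hngm⟩ := ngs_le B.S
  obtain ⟨Cg, hCg, hgr⟩ := WW_growth B.S
  refine ⟨max ρ₁ (2 * R₀), ?_⟩
  intro ρ ε F hW hρ U hU V hV hL2 hae ξ hξ η hη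
  have hR0 : 0 < R₀ := by linarith
  have hρ1 : ρ₁ ≤ ρ := (le_max_left _ _).trans hρ
  have hρ2 : 2 * R₀ ≤ ρ := (le_max_right _ _).trans hρ
  have hDb : {x : ℂ | ‖x‖ < R₀} = Metric.ball (0 : ℂ) R₀ := by
    ext x; simp
  set D : Set ℂ := {x : ℂ | ‖x‖ < R₀} with hD
  have hDm : MeasurableSet D := by rw [hDb]; exact measurableSet_ball
  have hDf : volume D ≠ ⊤ := by rw [hDb]; exact measure_ball_lt_top.ne
  haveI : IsFiniteMeasure (volume.restrict D) := ⟨by
    rw [Measure.restrict_apply_univ]; exact lt_top_iff_ne_top.2 hDf⟩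
  have hs0 : ∀ x : ℂ, SS F (x - ξ) < 0 := fun x => SS_neg hW _
  have hs1 : ∀ x ∈ D, 99 / 100 ≤ exp (SS F (x - ξ)) := fun x hx =>
    h1 ρ ε F hW hρ1 ξ x hξ (by
      have : ‖x‖ < R₀ := hx
      linarith)
  have hScont : Continuous fun x : ℂ => SS F (x - ξ) :=
    (SS_smooth hW).continuous.comp (continuous_id.sub continuous_const)
  set w : Fld ι → ℂ → ℝ := fun U x => WW B.S (SS F (x - ξ)) (v0 B x + (U x).1) with hw
  set g : Fld ι → ℂ → ℝ := fun U x =>
    exp (SS F (x - ξ)) * (1 - exp (SS F (x - ξ))) * ngs B.S (v0 B x + (U x).1) with hg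
  have he : ∀ x : ℂ, 0 ≤ exp (SS F (x - ξ)) * (1 - exp (SS F (x - ξ))) ∧
      exp (SS F (x - ξ)) * (1 - exp (SS F (x - ξ))) ≤ 1 := by
    intro x
    have h2 := exp_pos (SS F (x - ξ))
    have h3 : exp (SS F (x - ξ)) ≤ 1 := exp_le_one_iff.2 (hs0 x).le
    constructor
    · exact mul_nonneg h2.le (by linarith)
    · nlinarith
  have hfst : ∀ U : Fld ι, IsSob U → AEStronglyMeasurable (fun x => (U x).1) volume := fun U hU =>
    continuous_fst.comp_aestronglyMeasurable hU.1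
  have hvU : ∀ U : Fld ι, IsSob U → AEStronglyMeasurable (fun x => v0 B x + (U x).1) volume :=
    fun U hU => (v0_meas B).aestronglyMeasurable.add (hfst U hU)
  have hwm : ∀ U : Fld ι, IsSob U → AEStronglyMeasurable (w U) volume := by
    intro U hU
    have hc : Continuous fun p : ℝ × Ev ι => WW B.S p.1 p.2 := (WW_smooth B.S).continuous
    exact hc.comp_aestronglyMeasurable (hScont.aestronglyMeasurable.prodMk (hvU U hU))
  have hgm : ∀ U : Fld ι, IsSob U → AEStronglyMeasurable (g U) volume := by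
    intro U hU
    refine AEStronglyMeasurable.mul ?_ ((P9b_ngs_cont B.S).comp_aestronglyMeasurable (hvU U hU))
    exact Continuous.aestronglyMeasurable
      ((Real.continuous_exp.comp hScont).mul
        (continuous_const.sub (Real.continuous_exp.comp hScont)))
  have hv0i : IntegrableOn (fun x => ‖v0 B x‖) D volume := by
    have h2 : IntegrableOn (fun x => ‖v0 B x‖ ^ 2 + 1) D volume :=
      (v0_sq B).integrableOn.add (integrableOn_const hDf)
    refine h2.mono' (v0_meas B).aestronglyMeasurable.norm.restrict (ae_of_all _ fun x => ?_)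
    rw [norm_norm]
    nlinarith [sq_nonneg (‖v0 B x‖ - 1)]
  have hUi : ∀ U : Fld ι, IsSob U → IntegrableOn (fun x => ‖(U x).1‖) D volume := fun U hU => by
    rw [hDb]; exact hU.integrableOn R₀
  have hwi : ∀ U : Fld ι, IsSob U → IntegrableOn (w U) D volume := by
    intro U hU
    have h2 : IntegrableOn (fun x => Cg * (‖v0 B x‖ + exp (Cg * ‖(U x).1‖))) D volume := by
      refine (hv0i.add ?_).const_mul Cg
      rw [hDb]
      exact exp_integrable hU Cg R₀
    refine h2.mono' (hwm U hU).restrict (ae_of_all _ fun x => ?_)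
    exact hgr _ _ _ (hs0 x).le fun a => v0_lin_nonpos B a x
  have hgi : ∀ U : Fld ι, IsSob U → IntegrableOn (g U) D volume := by
    intro U hU
    have h2 : IntegrableOn (fun x => Cm * (‖v0 B x‖ + ‖(U x).1‖)) D volume :=
      (hv0i.add (hUi U hU)).const_mul Cm
    refine h2.mono' (hgm U hU).restrict (ae_of_all _ fun x => ?_)
    rw [Real.norm_eq_abs, abs_of_nonneg (mul_nonneg (he x).1 (ngs_nonneg B.S _))]
    calc exp (SS F (x - ξ)) * (1 - exp (SS F (x - ξ))) * ngs B.S (v0 B x + (U x).1)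
        ≤ 1 * (Cm * ‖v0 B x + (U x).1‖) := by
          refine mul_le_mul (he x).2 (hngm _) (ngs_nonneg B.S _) (by norm_num)
      _ ≤ Cm * (‖v0 B x‖ + ‖(U x).1‖) := by
          rw [one_mul]
          exact mul_le_mul_of_nonneg_left (norm_add_le _ _) hCm.le
  have hnn : ∀ U : Fld ι, ∀ x ∈ D, 0 ≤ w U x + g U x := fun U x hx =>
    WW_fatou B.S (SS F (x - ξ)) (by have := hs1 x hx; linarith) (hs0 x).le _
  have hnn' : ∀ U : Fld ι, 0 ≤ᵐ[volume.restrict D] fun x => w U x + g U x := fun U =>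
    (ae_restrict_mem hDm).mono fun x hx => hnn U x hx
  -- Fatou
  have hfi : ∀ U : Fld ι, IsSob U → Integrable (fun x => w U x + g U x) (volume.restrict D) :=
    fun U hU => (hwi U hU).add (hgi U hU)
  have hlim : ∀ᵐ x ∂(volume.restrict D),
      Tendsto (fun n => ENNReal.ofReal (w (U n) x + g (U n) x)) atTop
        (𝓝 (ENNReal.ofReal (w V x + g V x))) := by
    refine (ae_restrict_of_ae hae).mono fun x hx => ?_
    refine (ENNReal.continuous_ofReal.tendsto _).comp ?_
    have h2 : Tendsto (fun n => v0 B x + (U n x).1) atTop (𝓝 (v0 B x + (V x).1)) :=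
      tendsto_const_nhds.add hx
    refine Tendsto.add ?_ ?_
    · have hc : Continuous fun h : Ev ι => WW B.S (SS F (x - ξ)) h :=
        (WW_smooth B.S).continuous.comp (Continuous.prodMk continuous_const continuous_id)
      exact (hc.tendsto _).comp h2
    · exact (((P9b_ngs_cont B.S).tendsto _).comp h2).const_mul _
  have hFat : ENNReal.ofReal (∫ x in D, (w V x + g V x)) ≤
      liminf (fun n => ENNReal.ofReal (∫ x in D, (w (U n) x + g (U n) x))) atTop := by
    have h2 := lintegral_liminf_le' (μ := volume.restrict D)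
      (f := fun n x => ENNReal.ofReal (w (U n) x + g (U n) x))
      (fun n => (hfi (U n) (hU n)).aestronglyMeasurable.aemeasurable.ennreal_ofReal)
      (u := atTop)
    have h3 : ∫⁻ x in D, liminf (fun n => ENNReal.ofReal (w (U n) x + g (U n) x)) atTop =
        ENNReal.ofReal (∫ x in D, (w V x + g V x)) := by
      rw [ofReal_integral_eq_lintegral_ofReal (hfi V hV) (hnn' V)]
      refine lintegral_congr_ae (hlim.mono fun x hx => ?_)
      exact hx.liminf_eq
    rw [h3] at h2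
    refine h2.trans (le_of_eq ?_)
    congr 1
    funext n
    exact (ofReal_integral_eq_lintegral_ofReal (hfi (U n) (hU n)) (hnn' (U n))).symm
  have hF : ∀ᶠ n in atTop, (∫ x in D, (w V x + g V x)) - η / 2 ≤
      ∫ x in D, (w (U n) x + g (U n) x) := by
    by_cases hI : (∫ x in D, (w V x + g V x)) - η / 2 ≤ 0
    · exact Eventually.of_forall fun n => hI.trans (integral_nonneg_of_ae (hnn' (U n)))
    · push Not at hI
      have h2 : ENNReal.ofReal ((∫ x in D, (w V x + g V x)) - η / 2) <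
          ENNReal.ofReal (∫ x in D, (w V x + g V x)) :=
        (ENNReal.ofReal_lt_ofReal_iff (by linarith)).2 (by linarith)
      have h3 := Filter.eventually_lt_of_lt_liminf (h2.trans_le hFat)
      filter_upwards [h3] with n hn
      exact ((ENNReal.ofReal_lt_ofReal_iff_of_nonneg hI.le).1 hn).le
  -- the `ngs` term
  have hG : ∀ᶠ n in atTop, |(∫ x in D, g (U n) x) - ∫ x in D, g V x| ≤ η / 2 := by
    have h2 : Tendsto (fun n => Cn * (2 * |R₀| *
        Real.sqrt (∫ x in D, ‖(U n x).1 - (V x).1‖ ^ 2))) atTop (𝓝 (Cn * (2 * |R₀| * Real.sqrt 0))) := by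
      refine Tendsto.const_mul _ (Tendsto.const_mul _ ?_)
      refine (Real.continuous_sqrt.tendsto _).comp ?_
      rw [hDb]
      exact hL2 R₀
    rw [Real.sqrt_zero, mul_zero, mul_zero] at h2
    filter_upwards [h2.eventually (gt_mem_nhds (half_pos hη))] with n hn
    rw [← integral_sub (hgi (U n) (hU n)) (hgi V hV)]
    have hsub := (hU n).sub hV
    have h4 := hsub.integrableOn_norm_ball R₀
    rw [← hD] at h4
    have h5 : ∀ x : ℂ, ‖g (U n) x - g V x‖ ≤ Cn * ‖((U n - V) x).1‖ := by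
      intro x
      simp only [hg]
      rw [← mul_sub, Real.norm_eq_abs, abs_mul, abs_of_nonneg (he x).1]
      calc exp (SS F (x - ξ)) * (1 - exp (SS F (x - ξ))) *
            |ngs B.S (v0 B x + (U n x).1) - ngs B.S (v0 B x + (V x).1)|
          ≤ 1 * (Cn * ‖(v0 B x + (U n x).1) - (v0 B x + (V x).1)‖) :=
            mul_le_mul (he x).2 (hngs _ _) (abs_nonneg _) (by norm_num)
        _ = _ := by
            rw [one_mul, add_sub_add_left_eq_sub]
            rfl
    have h6 : |∫ x in D, (g (U n) x - g V x)| ≤ ∫ x in D, Cn * ‖((U n - V) x).1‖ := by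
      rw [← Real.norm_eq_abs]
      exact norm_integral_le_of_norm_le (h4.1.const_mul Cn) (ae_of_all _ h5)
    refine h6.trans ?_
    rw [integral_const_mul]
    refine (mul_le_mul_of_nonneg_left h4.2 hCn.le).trans ?_
    exact hn.le
  filter_upwards [hF, hG] with n h2 h3
  have e1 : ∫ x in D, (w V x + g V x) = (∫ x in D, w V x) + ∫ x in D, g V x :=
    integral_add (hwi V hV) (hgi V hV)
  have e2 : ∫ x in D, (w (U n) x + g (U n) x) = (∫ x in D, w (U n) x) + ∫ x in D, g (U n) x :=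
    integral_add (hwi (U n) (hU n)) (hgi (U n) (hU n))
  rw [e1, e2] at h2
  have h4 := abs_le.1 h3
  show (∫ x in D, w V x) - η ≤ ∫ x in D, w (U n) x
  linarith [h4.1, h4.2]

end Pool.MP_ad5d82_an.Wl
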