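import Pool.Agent.Lib.MP_ad5d82_an.h24.PDefs
import Pool.Agent.Lib.MP_ad5d82_an.h24.H.H3b
import Pool.Agent.Lib.MP_ad5d82_an.h24.H.H5w
import Pool.Agent.Lib.MP_ad5d82_an.h24.F.F2
import Pool.Agent.Lib.MP_ad5d82_an.h24.P.P4
import Pool.Agent.Lib.MP_ad5d82_an.h24.P.P8
import Pool.Agent.Lib.MP_ad5d82_an.h24.P.P9a
import Pool.Agent.Lib.MP_ad5d82_an.h24.P.P9b

set_option autoImplicit false

namespace Pool.MP_ad5d82_an.Wl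

open Real Set MeasureTheory Filter Topology
open scoped ContDiff

variable {ι : Type} [Fintype ι] [DecidableEq ι]

variable {B : Base ι} {δ R₀ Ξ : ℝ}

/-- splitting of `Phi` into the part `PhiB`, the core potential and a constant -/
theorem P9_split (B : Base ι) (δ R₀ Ξ : ℝ) (hδ : 0 < δ) (hδ1 : δ ≤ 1) (hR : 1 ≤ R₀)
    (hΞ : 0 ≤ Ξ) : ∃ ρ₀ : ℝ, ∀ K : Cfg B δ R₀ Ξ, ρ₀ ≤ K.ρ → ∀ U : Fld ι, IsSob U →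
    ∀ (c : Cc B.S) (ξ : ℂ), ‖ξ‖ ≤ Ξ →
    Phi K U c ξ = PhiB K U c ξ
      + (∫ x in {x : ℂ | ‖x‖ < R₀}, WW B.S (SS K.F (x - ξ)) (v0 B x + (U x).1))
      + 4 * π * ∑ n, B.S.m (B.cp n) * SS K.F (B.p n - ξ) := by
  obtain ⟨ρ₁, h1⟩ := PhiJ_split B δ R₀ Ξ hδ hδ1 hR hΞ
  obtain ⟨ρ₂, h2⟩ := phi_integrable B δ R₀ Ξ hδ hδ1 hR hΞ
  refine ⟨max ρ₁ ρ₂, fun K hK U hU c ξ hξ => ?_⟩
  obtain ⟨hi1, hi2, hsp⟩ := h1 K ((le_max_left _ _).trans hK) U hU c ξ hξ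
  have hgi : Integrable (fun x => gP B.S (U x)) volume :=
    (h2 K ((le_max_right _ _).trans hK) U hU ξ hξ).1
  have hg2 : IntegrableOn (fun x => 1 / 2 * gP B.S (U x)) {x : ℂ | ‖x‖ < R₀} volume :=
    (hgi.const_mul (1 / 2)).integrableOn
  have hw : IntegrableOn (fun x => WW B.S (SS K.F (x - ξ)) (v0 B x + (U x).1))
      {x : ℂ | ‖x‖ < R₀} volume := by
    refine (hi1.sub hg2).congr (ae_of_all _ fun x => ?_)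
    simp only [inD, Pi.sub_apply]
    ring
  have e1 : (∫ x in {x : ℂ | ‖x‖ < R₀}, inD B x (SS K.F (x - ξ)) (U x)) =
      (∫ x in {x : ℂ | ‖x‖ < R₀}, 1 / 2 * gP B.S (U x)) +
        ∫ x in {x : ℂ | ‖x‖ < R₀}, WW B.S (SS K.F (x - ξ)) (v0 B x + (U x).1) := by
    rw [← integral_add hg2 hw]
    rfl
  rw [Phi, hsp, e1, PhiB]
  ring

/-! ### P9 weak lower semicontinuity -/
theorem phi_lsc (B : Base ι) : ∃ δ₁ : ℝ, 0 < δ₁ ∧ ∀ δ R₀ Ξ : ℝ, 0 < δ → δ ≤ δ₁ → δ ≤ 1 → 1 ≤ R₀ →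
    0 ≤ Ξ → ∃ ρ₀ : ℝ, ∀ K : Cfg B δ R₀ Ξ, ρ₀ ≤ K.ρ → ∀ U : ℕ → Fld ι, (∀ n, IsSob (U n)) →
    ∀ V : Fld ι, IsSob V →
    (∀ Z : Fld ι, IsDual Z → Tendsto (fun n => ∫ z, pair Z (U n) z) atTop (𝓝 (∫ z, pair Z V z))) →
    (∀ R : ℝ, Tendsto (fun n => ∫ z in Metric.ball (0 : ℂ) R, ‖(U n z).1 - (V z).1‖ ^ 2) atTop (𝓝 0)) →
    (∀ᵐ z : ℂ, Tendsto (fun n => (U n z).1) atTop (𝓝 (V z).1)) →
    ∀ (c : Cc B.S) (ξ : ℂ), ‖ξ‖ ≤ Ξ → ∀ a : ℝ, (∀ n, Phi K (U n) c ξ ≤ a) → Phi K V c ξ ≤ a := by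
  obtain ⟨δ₁, hδ₁, h1⟩ := phiB_lsc B
  refine ⟨δ₁, hδ₁, fun δ R₀ Ξ hδ hδδ hδ1 hR hΞ => ?_⟩
  obtain ⟨ρ₁, h2⟩ := h1 δ R₀ Ξ hδ hδδ hδ1 hR hΞ
  obtain ⟨ρ₂, h3⟩ := core_lsc B R₀ Ξ hR hΞ
  obtain ⟨ρ₃, h4⟩ := P9_split B δ R₀ Ξ hδ hδ1 hR hΞ
  refine ⟨max ρ₁ (max ρ₂ ρ₃), fun K hK U hU V hV hw hL hae c ξ hξ a ha => ?_⟩
  have hK1 : ρ₁ ≤ K.ρ := (le_max_left _ _).trans hK
  have hK2 : ρ₂ ≤ K.ρ := (le_max_left _ _).trans ((le_max_right _ _).trans hK)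
  have hK3 : ρ₃ ≤ K.ρ := (le_max_right _ _).trans ((le_max_right _ _).trans hK)
  refine le_of_forall_pos_le_add fun η hη => ?_
  have e1 := h2 K hK1 U hU V hV hw c ξ hξ (η / 2) (by linarith)
  have e2 := h3 K.ρ K.ε K.F K.wall hK2 U hU V hV hL hae ξ hξ (η / 2) (by linarith)
  obtain ⟨n, hn1, hn2⟩ := (e1.and e2).exists
  have e3 := h4 K hK3 V hV c ξ hξ
  have e4 := h4 K hK3 (U n) (hU n) c ξ hξ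
  have e5 := ha n
  linarith

end Pool.MP_ad5d82_an.Wl
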