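import Pool.Agent.Lib.MP_ad5d82_an.h24.PDefs
import Pool.Agent.Lib.MP_ad5d82_an.h24.H.H3b
import Pool.Agent.Lib.MP_ad5d82_an.h24.H.H6
import Pool.Agent.Lib.MP_ad5d82_an.h24.P.P7
import Pool.Agent.Lib.MP_ad5d82_an.h24.P.P8
import Pool.Agent.Lib.MP_ad5d82_an.h24.P.P9

set_option autoImplicit false

namespace Pool.MP_ad5d82_an.Wl

open Real Set MeasureTheory Filter Topology
open scoped ContDiff

variable {ι : Type} [Fintype ι] [DecidableEq ι]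

variable {B : Base ι} {δ R₀ Ξ : ℝ}

private lemma p10_lin_add (S : Sys ι) (a : ι) (v h : Ev ι) :
    lin S a (v + h) = lin S a v + lin S a h := by
  unfold lin
  rw [← Finset.sum_add_distrib]
  refine Finset.sum_congr rfl fun j _ => ?_
  show S.T a j * (v j + h j) = _
  ring

private lemma p10_aa_cont (S : Sys ι) : Continuous (aa S) := by
  unfold aa lin
  fun_prop

private lemma p10_mlt (R : ℝ) : MeasurableSet {x : ℂ | ‖x‖ < R} :=
  (isOpen_lt continuous_norm continuous_const).measurableSet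
private lemma p10_mgt (R : ℝ) : MeasurableSet {x : ℂ | R < ‖x‖} :=
  (isOpen_lt continuous_const continuous_norm).measurableSet
private lemma p10_mle (R : ℝ) : MeasurableSet {x : ℂ | R ≤ ‖x‖} :=
  (isClosed_le continuous_const continuous_norm).measurableSet
private lemma p10_mann (a b : ℝ) : MeasurableSet {x : ℂ | a < ‖x‖ ∧ ‖x‖ < b} :=
  (p10_mgt a).inter (p10_mlt b)
private lemma p10_ball (R : ℝ) : {x : ℂ | ‖x‖ < R} = Metric.ball (0 : ℂ) R := by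
  ext x
  simp

private lemma p10_aa_int (B : Base ι) {U : Fld ι} (hU : IsSob U) (R : ℝ) :
    IntegrableOn (fun x => aa B.S (v0 B x + (U x).1)) {x : ℂ | ‖x‖ < R} volume := by
  rw [p10_ball]
  obtain ⟨C, hC, hlin⟩ := lin_le B.S
  have h1 : IntegrableOn (fun z => exp (2 * C * ‖(U z).1‖)) (Metric.ball 0 R) volume :=
    exp_integrable hU (2 * C) R
  have h2 : IntegrableOn (fun _ : ℂ => (1 : ℝ)) (Metric.ball 0 R) volume :=
    integrableOn_const measure_ball_lt_top.ne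
  have h3 : IntegrableOn (fun z => ((∑ j, (B.S.μ j : ℝ)) * ∑ a, B.S.m a) *
      (exp (2 * C * ‖(U z).1‖) + 1)) (Metric.ball 0 R) volume := (h1.add h2).const_mul _
  refine Integrable.mono' h3 ?_ ?_
  · have hm : AEStronglyMeasurable (fun x => v0 B x + (U x).1) volume :=
      (v0_meas B).aestronglyMeasurable.add (continuous_fst.comp_aestronglyMeasurable hU.1)
    exact ((p10_aa_cont B.S).comp_aestronglyMeasurable hm).restrict
  · refine Eventually.of_forall fun x => ?_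
    rw [Real.norm_eq_abs, abs_of_nonneg (aa_nonneg _ _)]
    refine (aa_upper B.S _).trans ?_
    rw [mul_assoc]
    refine mul_le_mul_of_nonneg_left ?_ (Finset.sum_nonneg fun j _ => by positivity)
    rw [Finset.sum_mul]
    refine Finset.sum_le_sum fun a _ => mul_le_mul_of_nonneg_left ?_ (B.S.m_pos a).le
    have h4 : exp (lin B.S a (v0 B x + (U x).1)) ≤ exp (C * ‖(U x).1‖) := by
      refine exp_le_exp.2 ?_
      rw [p10_lin_add]
      have h5 := v0_lin_nonpos B a x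
      have h6 := (le_abs_self _).trans (hlin a (U x).1)
      linarith
    have h7 := exp_pos (lin B.S a (v0 B x + (U x).1))
    have h8 : exp (2 * C * ‖(U x).1‖) = exp (C * ‖(U x).1‖) ^ 2 := by
      rw [← Real.exp_nat_mul]
      congr 1
      push_cast
      ring
    rw [h8]
    nlinarith

private lemma p10_three {f : ℂ → ℝ} (hf : Integrable f volume) {a b : ℝ} (hab : a < b) :
    ∫ x, f x = (∫ x in {x : ℂ | ‖x‖ < a}, f x) + (∫ x in {x : ℂ | a < ‖x‖ ∧ ‖x‖ < b}, f x) +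
      ∫ x in {x : ℂ | b ≤ ‖x‖}, f x := by
  rw [integral_split hf a, add_assoc]
  congr 1
  have h1 : {x : ℂ | a < ‖x‖} = {x : ℂ | a < ‖x‖ ∧ ‖x‖ < b} ∪ {x : ℂ | b ≤ ‖x‖} := by
    ext x
    simp only [mem_setOf_eq, mem_union]
    constructor
    · intro h
      rcases lt_or_ge ‖x‖ b with h' | h'
      · exact Or.inl ⟨h, h'⟩
      · exact Or.inr h'
    · rintro (h | h)
      · exact h.1
      · linarith
  rw [h1]
  refine setIntegral_union ?_ (p10_mle b) hf.integrableOn hf.integrableOn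
  rw [Set.disjoint_left]
  intro x hx hx'
  simp only [mem_setOf_eq] at hx hx'
  linarith [hx.2]

private lemma p10_gsq_nonneg (u : Ev ι × Ev ι × Ev ι) : 0 ≤ gsq u := by
  unfold gsq
  positivity

private lemma p10_wgt_nonneg (ρ r : ℝ) : 0 ≤ wgt ρ r := by
  unfold wgt
  refine le_min zero_le_one ?_
  have : (ρ / r) ^ 4 = ((ρ / r) ^ 2) ^ 2 := by ring
  rw [this]
  positivity

/-- the energy is controlled by the coercive quantities. -/
private lemma p10_En (B : Base ι) (R₀ : ℝ) (hR : 1 ≤ R₀) : ∃ C : ℝ, 0 ≤ C ∧ ∀ ρ : ℝ, 1 ≤ ρ →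
    R₀ + 1 ≤ 0.9 * ρ → ∀ U : Fld ι, IsSob U →
    En U ≤ C * (NC B R₀ U + NI R₀ (0.9 * ρ) U + NII ρ (0.9 * ρ) U) := by
  obtain ⟨C, hC⟩ := log_in (ι := ι) R₀ (by linarith)
  have hlog : 0 ≤ Real.log R₀ := Real.log_nonneg hR
  refine ⟨2 * |C| * (1 + Real.log R₀) + 3, by positivity, fun ρ hρ hRρ U hU => ?_⟩
  have hlt : R₀ < 0.9 * ρ := by linarith
  have h09 : 0 < 0.9 * ρ := by linarith
  set X := NC B R₀ U + NI R₀ (0.9 * ρ) U + NII ρ (0.9 * ρ) U with hX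
  have hNC0 := NC_nonneg B R₀ U
  have hNI0 := NI_nonneg R₀ (0.9 * ρ) U
  have hNII0 := NII_nonneg ρ (0.9 * ρ) U
  have hX0 : 0 ≤ X := by positivity
  have hg := hU.integrable_gsq
  -- gradient part
  have hgA : ∫ x in {x : ℂ | ‖x‖ < R₀}, gsq (U x) ≤ NC B R₀ U := by
    unfold NC
    refine setIntegral_mono_on hg.integrableOn (hg.integrableOn.add (p10_aa_int B hU R₀))
      (p10_mlt R₀) fun x _ => ?_
    have := aa_nonneg B.S (v0 B x + (U x).1)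
    linarith
  have hgAn : ∫ x in {x : ℂ | R₀ < ‖x‖ ∧ ‖x‖ < 0.9 * ρ}, gsq (U x) ≤ NI R₀ (0.9 * ρ) U := by
    unfold NI
    refine setIntegral_mono_on hg.integrableOn (hU.integrableOn_ann _ _)
      (p10_mann _ _) fun x _ => ?_
    have : 0 ≤ ‖(U x).1‖ ^ 2 := by positivity
    linarith
  have hgO : ∫ x in {x : ℂ | 0.9 * ρ ≤ ‖x‖}, gsq (U x) ≤ NII ρ (0.9 * ρ) U := by
    unfold NII
    refine setIntegral_mono_on hg.integrableOn
      ((hg.add (hU.integrable_wgt hρ)).integrableOn) (p10_mle _) fun x _ => ?_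
    have := p10_wgt_nonneg ρ ‖x‖
    have : 0 ≤ wgt ρ ‖x‖ * ‖(U x).1‖ ^ 2 := by positivity
    linarith
  have hgX : ∫ x, gsq (U x) ≤ X := by
    rw [p10_three hg hlt]
    linarith
  -- value part
  have hsqA : ∫ x in {x : ℂ | ‖x‖ < R₀}, ‖(U x).1‖ ^ 2 ≤ 2 * |C| * (1 + Real.log R₀) * X := by
    refine (hC R₀ le_rfl hR U hU).trans ?_
    have h1 : ∫ x in {x : ℂ | ‖x‖ < R₀ + 1}, gsq (U x) ≤ X :=
      (setIntegral_le_integral hg (Eventually.of_forall fun x => p10_gsq_nonneg _)).trans hgX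
    have h2 : ∫ x in {x : ℂ | R₀ < ‖x‖ ∧ ‖x‖ < R₀ + 1}, ‖(U x).1‖ ^ 2 ≤ NI R₀ (0.9 * ρ) U := by
      refine le_trans ?_ (NI_mono hU (le_refl R₀) hRρ)
      unfold NI
      have hi : IntegrableOn (fun x => ‖(U x).1‖ ^ 2) {x : ℂ | R₀ < ‖x‖ ∧ ‖x‖ < R₀ + 1} volume :=
        (hU.integrableOn_sq (R₀ + 1)).mono_set (fun x hx => by simpa using hx.2)
      refine setIntegral_mono_on hi (hU.integrableOn_ann _ _) (p10_mann _ _) fun x _ => ?_
      have := p10_gsq_nonneg (U x)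
      linarith
    have h3 : NI R₀ (0.9 * ρ) U ≤ X := by linarith
    have h4 : 0 ≤ ∫ x in {x : ℂ | ‖x‖ < R₀ + 1}, gsq (U x) :=
      integral_nonneg fun x => p10_gsq_nonneg _
    have h5 : 0 ≤ ∫ x in {x : ℂ | R₀ < ‖x‖ ∧ ‖x‖ < R₀ + 1}, ‖(U x).1‖ ^ 2 :=
      integral_nonneg fun x => by positivity
    have h6 : C * (1 + Real.log R₀) ≤ |C| * (1 + Real.log R₀) :=
      mul_le_mul_of_nonneg_right (le_abs_self C) (by positivity)
    calc C * (1 + Real.log R₀) * ((∫ x in {x : ℂ | ‖x‖ < R₀ + 1}, gsq (U x)) +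
          ∫ x in {x : ℂ | R₀ < ‖x‖ ∧ ‖x‖ < R₀ + 1}, ‖(U x).1‖ ^ 2)
        ≤ |C| * (1 + Real.log R₀) * ((∫ x in {x : ℂ | ‖x‖ < R₀ + 1}, gsq (U x)) +
          ∫ x in {x : ℂ | R₀ < ‖x‖ ∧ ‖x‖ < R₀ + 1}, ‖(U x).1‖ ^ 2) :=
          mul_le_mul_of_nonneg_right h6 (add_nonneg h4 h5)
      _ ≤ |C| * (1 + Real.log R₀) * (X + X) :=
          mul_le_mul_of_nonneg_left (add_le_add h1 (h2.trans h3)) (by positivity)
      _ = 2 * |C| * (1 + Real.log R₀) * X := by ring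
  have hwt : Integrable (fun x => wt x * ‖(U x).1‖ ^ 2) volume := by
    have h1 := hU.integrable.sub hg
    refine h1.congr (Eventually.of_forall fun x => ?_)
    show nsq x (U x) - gsq (U x) = _
    unfold nsq
    ring
  have hw1 : ∫ x in {x : ℂ | ‖x‖ < R₀}, wt x * ‖(U x).1‖ ^ 2 ≤
      ∫ x in {x : ℂ | ‖x‖ < R₀}, ‖(U x).1‖ ^ 2 := by
    refine setIntegral_mono_on hwt.integrableOn ?_ (p10_mlt R₀) fun x _ => ?_
    · rw [p10_ball]
      exact hU.integrableOn_sq R₀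
    · have h1 := wt_le_one x
      have h2 : 0 ≤ ‖(U x).1‖ ^ 2 := by positivity
      nlinarith
  have hw2 : ∫ x in {x : ℂ | R₀ < ‖x‖ ∧ ‖x‖ < 0.9 * ρ}, wt x * ‖(U x).1‖ ^ 2 ≤
      NI R₀ (0.9 * ρ) U := by
    unfold NI
    refine setIntegral_mono_on hwt.integrableOn (hU.integrableOn_ann _ _)
      (p10_mann _ _) fun x _ => ?_
    have h1 := wt_le_one x
    have h2 : 0 ≤ ‖(U x).1‖ ^ 2 := by positivity
    have h3 := p10_gsq_nonneg (U x)
    nlinarith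
  have hw3 : ∫ x in {x : ℂ | 0.9 * ρ ≤ ‖x‖}, wt x * ‖(U x).1‖ ^ 2 ≤ NII ρ (0.9 * ρ) U := by
    unfold NII
    refine setIntegral_mono_on hwt.integrableOn
      ((hg.add (hU.integrable_wgt hρ)).integrableOn) (p10_mle _) fun x hx => ?_
    have hx0 : x ≠ 0 := by
      intro h
      rw [h] at hx
      simp only [mem_setOf_eq, norm_zero] at hx
      linarith
    have h1 := wt_le_wgt hρ x hx0
    have h2 : 0 ≤ ‖(U x).1‖ ^ 2 := by positivity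
    have h3 := p10_gsq_nonneg (U x)
    have h4 := mul_le_mul_of_nonneg_right h1 h2
    linarith
  have hEn : En U = (∫ x, wt x * ‖(U x).1‖ ^ 2) + ∫ x, gsq (U x) := by
    rw [← integral_add hwt hg]
    rfl
  rw [hEn, p10_three hwt hlt]
  have h3 : NI R₀ (0.9 * ρ) U ≤ X := by linarith
  have h4 : NII ρ (0.9 * ρ) U ≤ X := by linarith
  linarith

private lemma p10_eq {K : Cfg B δ R₀ Ξ} {U : Fld ι} {c c' : Cc B.S} {ξ ξ' : ℂ}
    (h : IsMaxPt K U c ξ) (h' : IsMaxPt K U c' ξ') : Phi K U c ξ ≤ Phi K U c' ξ' :=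
  h'.2 c ξ h.1

/-! ### P10 existence of a minimiser -/
theorem exists_minz (B : Base ι) : ∃ δ₁ : ℝ, 0 < δ₁ ∧ δ₁ ≤ 1 ∧ ∃ R₁ : ℝ, 1 ≤ R₁ ∧
    ∀ δ R₀ Ξ : ℝ, 0 < δ → δ ≤ δ₁ → R₁ ≤ R₀ → 0 ≤ Ξ → ∃ ρ₀ : ℝ, ∀ K : Cfg B δ R₀ Ξ, ρ₀ ≤ K.ρ →
    ∃ U : Fld ι, IsMinz K U := by
  obtain ⟨δ₁, hδ₁, hδ₁1, CL, cL, hcL, R₁, hR₁, hlower⟩ := phi_lower B
  obtain ⟨δ₂, hδ₂, hlsc⟩ := phi_lsc B
  refine ⟨min δ₁ δ₂, lt_min hδ₁ hδ₂, (min_le_left _ _).trans hδ₁1, R₁, hR₁,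
    fun δ R₀ Ξ hδ hδm hR hΞ => ?_⟩
  have hδa : δ ≤ δ₁ := hδm.trans (min_le_left _ _)
  have hδb : δ ≤ δ₂ := hδm.trans (min_le_right _ _)
  have hδ1 : δ ≤ 1 := hδa.trans hδ₁1
  have hR1 : 1 ≤ R₀ := hR₁.trans hR
  obtain ⟨ρ₁, hρ₁⟩ := hlower δ R₀ Ξ hδ hδa hR hΞ
  obtain ⟨ρ₂, hρ₂⟩ := hlsc δ R₀ Ξ hδ hδb hδ1 hR1 hΞ
  obtain ⟨ρ₃, hρ₃⟩ := exists_max B δ R₀ Ξ hδ hδ1 hR1 hΞ
  obtain ⟨CE, hCE, hEn⟩ := p10_En B R₀ hR1
  refine ⟨max (max ρ₁ ρ₂) (max ρ₃ ((R₀ + 1) / 0.9)), fun K hK => ?_⟩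
  have hK1 : ρ₁ ≤ K.ρ := ((le_max_left _ _).trans (le_max_left _ _)).trans hK
  have hK2 : ρ₂ ≤ K.ρ := ((le_max_right _ _).trans (le_max_left _ _)).trans hK
  have hK3 : ρ₃ ≤ K.ρ := ((le_max_left _ _).trans (le_max_right _ _)).trans hK
  have hK4 : (R₀ + 1) / 0.9 ≤ K.ρ := ((le_max_right _ _).trans (le_max_right _ _)).trans hK
  have hRρ : R₀ + 1 ≤ 0.9 * K.ρ := by
    rw [div_le_iff₀ (by norm_num)] at hK4
    linarith
  have hρ100 := K.wall.hρ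
  have hρ1 : 1 ≤ K.ρ := by linarith
  have hlow := hρ₁ K hK1
  have hmaxe := hρ₃ K hK3
  have hlscK := hρ₂ K hK2
  have hEnK := hEn K.ρ hρ1 hRρ
  -- the set of maximum values
  set 𝒮 : Set ℝ := {v | ∃ (U : Fld ι) (c : Cc B.S) (ξ : ℂ), IsSob U ∧ IsMaxPt K U c ξ ∧
    v = Phi K U c ξ} with h𝒮
  have hξ0 : ‖(0 : ℂ)‖ ≤ Ξ := by simpa using hΞ
  have hlb : ∀ (U : Fld ι) (c : Cc B.S) (ξ : ℂ), IsSob U → IsMaxPt K U c ξ →
      cL * (NC B R₀ U + NI R₀ (0.9 * K.ρ) U + (K.ρ ^ 3)⁻¹ * NII K.ρ (0.9 * K.ρ) U)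
        - CL * (1 + Real.log R₀) ≤ Phi K U c ξ := fun U c ξ hU hm =>
    (hlow U hU 0 hξ0).trans (hm.2 0 0 hξ0)
  have hbdd : BddBelow 𝒮 := by
    refine ⟨-(CL * (1 + Real.log R₀)), ?_⟩
    rintro v ⟨U, c, ξ, hU, hm, rfl⟩
    refine le_trans ?_ (hlb U c ξ hU hm)
    have h1 := NC_nonneg B R₀ U
    have h2 := NI_nonneg R₀ (0.9 * K.ρ) U
    have h3 := NII_nonneg K.ρ (0.9 * K.ρ) U
    have h4 : 0 ≤ cL * (NC B R₀ U + NI R₀ (0.9 * K.ρ) U +
        (K.ρ ^ 3)⁻¹ * NII K.ρ (0.9 * K.ρ) U) := by positivity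
    linarith
  have hne : 𝒮.Nonempty := by
    obtain ⟨c, ξ, hm⟩ := hmaxe 0 IsSob.zero
    exact ⟨_, 0, c, ξ, IsSob.zero, hm, rfl⟩
  set m := sInf 𝒮 with hm
  have hseq : ∀ n : ℕ, ∃ (U : Fld ι) (c : Cc B.S) (ξ : ℂ), IsSob U ∧ IsMaxPt K U c ξ ∧
      Phi K U c ξ < m + 1 / ((n : ℝ) + 1) := by
    intro n
    have h1 : sInf 𝒮 < m + 1 / ((n : ℝ) + 1) := by
      have : 0 < 1 / ((n : ℝ) + 1) := by positivity
      linarith
    obtain ⟨v, ⟨U, c, ξ, hU, hmx, rfl⟩, hv⟩ := exists_lt_of_csInf_lt hne h1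
    exact ⟨U, c, ξ, hU, hmx, hv⟩
  choose Us cs ξs hUs hmaxs hvals using hseq
  -- energy bound
  set E : ℝ := (m + 1 + |CL| * (1 + Real.log R₀)) / cL with hE
  have hlog : 0 ≤ Real.log R₀ := Real.log_nonneg hR1
  have hρ3 : 1 ≤ K.ρ ^ 3 := one_le_pow₀ hρ1
  have hEnb : ∀ n, En (Us n) ≤ CE * (K.ρ ^ 3 * E) := by
    intro n
    refine (hEnK (Us n) (hUs n)).trans (mul_le_mul_of_nonneg_left ?_ hCE)
    have h1 := hlb (Us n) (cs n) (ξs n) (hUs n) (hmaxs n)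
    have h2 := hvals n
    have h3 : 1 / ((n : ℝ) + 1) ≤ 1 := by
      rw [div_le_one (by positivity)]
      have : (0 : ℝ) ≤ n := Nat.cast_nonneg n
      linarith
    have h4 : CL * (1 + Real.log R₀) ≤ |CL| * (1 + Real.log R₀) :=
      mul_le_mul_of_nonneg_right (le_abs_self _) (by positivity)
    have a1 := NC_nonneg B R₀ (Us n)
    have a2 := NI_nonneg R₀ (0.9 * K.ρ) (Us n)
    have a3 := NII_nonneg K.ρ (0.9 * K.ρ) (Us n)
    set x1 := NC B R₀ (Us n)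
    set x2 := NI R₀ (0.9 * K.ρ) (Us n)
    set x3 := NII K.ρ (0.9 * K.ρ) (Us n)
    have h5 : x1 + x2 + (K.ρ ^ 3)⁻¹ * x3 ≤ E := by
      rw [hE, le_div_iff₀ hcL]
      linarith
    have h6 : K.ρ ^ 3 * (x1 + x2 + (K.ρ ^ 3)⁻¹ * x3) ≤ K.ρ ^ 3 * E :=
      mul_le_mul_of_nonneg_left h5 (by positivity)
    have h7 : K.ρ ^ 3 * (x1 + x2 + (K.ρ ^ 3)⁻¹ * x3) = K.ρ ^ 3 * x1 + K.ρ ^ 3 * x2 + x3 := by
      field_simp
    rw [h7] at h6
    nlinarith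
  obtain ⟨V, hV, k, hk, hweak⟩ := weak_compact Us hUs _ hEnb
  have hrel : ∀ R : ℝ, Tendsto (fun n => ∫ z in Metric.ball (0 : ℂ) R,
      ‖(Us (k n) z).1 - (V z).1‖ ^ 2) atTop (𝓝 0) := fun R =>
    rellich (fun n => Us (k n)) (fun n => hUs _) _ (fun n => hEnb _) V hV hweak R
  obtain ⟨k', hk', hae⟩ := ae_subseq (fun n => Us (k n)) (fun n => hUs _) V hV hrel
  refine ⟨V, hV, ?_⟩
  have hVm : ∀ (c : Cc B.S) (ξ : ℂ), ‖ξ‖ ≤ Ξ → Phi K V c ξ ≤ m := by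
    intro c ξ hξ
    have h1 : ∀ N : ℕ, Phi K V c ξ ≤ m + 1 / ((N : ℝ) + 1) := by
      intro N
      have hsh : Tendsto (fun n : ℕ => k' (n + N)) atTop atTop :=
        hk'.tendsto_atTop.comp (tendsto_add_atTop_nat N)
      refine hlscK (fun n => Us (k (k' (n + N)))) (fun n => hUs _) V hV ?_ ?_ ?_ c ξ hξ _ ?_
      · intro Z hZ
        exact (hweak Z hZ).comp hsh
      · intro R
        exact (hrel R).comp hsh
      · filter_upwards [hae] with z hz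
        exact hz.comp (tendsto_add_atTop_nat N)
      · intro n
        have h2 := (hmaxs (k (k' (n + N)))).2 c ξ hξ
        have h3 := hvals (k (k' (n + N)))
        have h4 : N ≤ k (k' (n + N)) := by
          have e1 : n + N ≤ k' (n + N) := hk'.id_le _
          have e2 : k' (n + N) ≤ k (k' (n + N)) := hk.id_le _
          omega
        have h5 : 1 / (((k (k' (n + N)) : ℕ) : ℝ) + 1) ≤ 1 / ((N : ℝ) + 1) := by
          apply one_div_le_one_div_of_le (by positivity)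
          have : (N : ℝ) ≤ ((k (k' (n + N)) : ℕ) : ℝ) := by exact_mod_cast h4
          linarith
        linarith
    have h2 : Tendsto (fun N : ℕ => m + 1 / ((N : ℝ) + 1)) atTop (𝓝 (m + 0)) :=
      tendsto_const_nhds.add tendsto_one_div_add_atTop_nhds_zero_nat
    rw [add_zero] at h2
    exact ge_of_tendsto' h2 h1
  intro W hW c ξ hmV c' ξ' hmW
  refine (hVm c ξ hmV.1).trans (csInf_le hbdd ?_)
  exact ⟨W, c', ξ', hW, hmW, rfl⟩

end Pool.MP_ad5d82_an.Wl
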