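import Pool.Agent.Lib.MP_ad5d82_an.h24.PDefs
import Pool.Agent.Lib.MP_ad5d82_an.h24.P.P4
import Pool.Agent.Lib.MP_ad5d82_an.h24.P.P5
import Pool.Agent.Lib.MP_ad5d82_an.h24.P.P7

set_option autoImplicit false

namespace Pool.MP_ad5d82_an.Wl

open Real Set MeasureTheory Filter Topology
open scoped ContDiff

variable {ι : Type} [Fintype ι] [DecidableEq ι]

variable {B : Base ι} {δ R₀ Ξ : ℝ}

private lemma p11_abs {P : Type} [MetricSpace P] (S Kc : Set P) (hKc : IsCompact Kc) (hKS : Kc ⊆ S)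
    (f D : P → ℝ) (hf : ContinuousOn f S) (hD : ContinuousOn D S) (t : ℕ → ℝ) (ht : ∀ n, 0 < t n)
    (ht0 : Tendsto t atTop (𝓝 0)) (g : ℕ → P → ℝ) (p : ℕ → P) (hp : ∀ n, p n ∈ Kc)
    (hmax : ∀ n, ∀ q ∈ S, g n q ≤ g n (p n)) (M : ℝ)
    (htay : ∀ n, ∀ q ∈ S, |g n q - f q - t n * D q| ≤ M * t n ^ 2)
    (hmin : ∀ q ∈ S, (∀ q' ∈ S, f q' ≤ f q) → ∀ n, f q ≤ g n (p n)) :
    ∃ q ∈ S, (∀ q' ∈ S, f q' ≤ f q) ∧ 0 ≤ D q := by
  obtain ⟨q, hq, φ, hφ, hlim⟩ := hKc.tendsto_subseq hp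
  have hqS := hKS hq
  have hw : Tendsto (p ∘ φ) atTop (𝓝[S] q) :=
    tendsto_nhdsWithin_iff.2 ⟨hlim, Eventually.of_forall fun n => hKS (hp _)⟩
  have hfl : Tendsto (fun n => f (p (φ n))) atTop (𝓝 (f q)) := (hf q hqS).tendsto.comp hw
  have hDl : Tendsto (fun n => D (p (φ n))) atTop (𝓝 (D q)) := (hD q hqS).tendsto.comp hw
  have htl : Tendsto (fun n => t (φ n)) atTop (𝓝 0) := ht0.comp hφ.tendsto_atTop
  have hqmax : ∀ q' ∈ S, f q' ≤ f q := by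
    intro q' hq'
    have h1 : ∀ n, f q' ≤ f (p (φ n)) + t (φ n) * D (p (φ n)) - t (φ n) * D q' +
        2 * M * t (φ n) ^ 2 := by
      intro n
      have a1 := (abs_le.1 (htay (φ n) (p (φ n)) (hKS (hp _)))).2
      have a2 := (abs_le.1 (htay (φ n) q' hq')).1
      have a3 := hmax (φ n) q' hq'
      linarith
    have h2 : Tendsto (fun n => f (p (φ n)) + t (φ n) * D (p (φ n)) - t (φ n) * D q' +
        2 * M * t (φ n) ^ 2) atTop (𝓝 (f q + 0 * D q - 0 * D q' + 2 * M * 0 ^ 2)) :=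
      ((hfl.add (htl.mul hDl)).sub (htl.mul_const _)).add ((htl.pow 2).const_mul _)
    have h3 := ge_of_tendsto' h2 h1
    simpa using h3
  refine ⟨q, hqS, hqmax, ?_⟩
  have h1 : ∀ n, -(M * t (φ n)) ≤ D (p (φ n)) := by
    intro n
    have a1 := (abs_le.1 (htay (φ n) (p (φ n)) (hKS (hp _)))).2
    have a2 := hmin q hqS hqmax (φ n)
    have a3 := hqmax (p (φ n)) (hKS (hp _))
    have a4 : 0 ≤ t (φ n) * (D (p (φ n)) + M * t (φ n)) := by nlinarith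
    have a5 := nonneg_of_mul_nonneg_right a4 (ht (φ n))
    linarith
  have h2 : Tendsto (fun n => -(M * t (φ n))) atTop (𝓝 (-(M * 0))) := (htl.const_mul M).neg
  have h3 := le_of_tendsto_of_tendsto' h2 hDl h1
  simpa using h3

private lemma p11_norm_le {n : Type} [Fintype n] (c : n → ℝ) {R : ℝ} (h : ∑ i, c i ^ 2 ≤ R) :
    ‖c‖ ≤ Real.sqrt R := by
  rw [pi_norm_le_iff_of_nonneg (Real.sqrt_nonneg _)]
  intro i
  rw [Real.norm_eq_abs]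
  refine Real.abs_le_sqrt (le_trans ?_ h)
  exact Finset.single_le_sum (f := fun i => c i ^ 2) (fun j _ => sq_nonneg _) (Finset.mem_univ i)

/-! ### P11 the key lemma (Danskin) -/
theorem key_lemma (B : Base ι) (δ R₀ Ξ : ℝ) (hδ : 0 < δ) (hδ1 : δ ≤ 1) (hR : 1 ≤ R₀)
    (hΞ : 0 ≤ Ξ) : ∃ ρ₀ : ℝ, ∀ K : Cfg B δ R₀ Ξ, ρ₀ ≤ K.ρ → ∀ U : Fld ι, IsMinz K U →
    ∀ φ : Fld ι, IsSob φ → ∃ (c : Cc B.S) (ξ : ℂ), IsMaxPt K U c ξ ∧ 0 ≤ DPhi K U c ξ φ := by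
  obtain ⟨ρ₁, hρ₁⟩ := exists_max B δ R₀ Ξ hδ hδ1 hR hΞ
  obtain ⟨C, hC, hcb⟩ := max_c_bound B
  obtain ⟨ρ₂, hρ₂⟩ := hcb δ R₀ Ξ hδ hδ1 hR hΞ
  obtain ⟨ρ₃, hρ₃⟩ := phi_taylor B δ R₀ Ξ hδ hδ1 hR hΞ
  obtain ⟨ρ₄, hρ₄⟩ := phi_cont B δ R₀ Ξ hδ hδ1 hR hΞ
  refine ⟨max (max ρ₁ ρ₂) (max ρ₃ ρ₄), fun K hK U hU φ hφ => ?_⟩
  have hK1 : ρ₁ ≤ K.ρ := ((le_max_left _ _).trans (le_max_left _ _)).trans hK
  have hK2 : ρ₂ ≤ K.ρ := ((le_max_right _ _).trans (le_max_left _ _)).trans hK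
  have hK3 : ρ₃ ≤ K.ρ := ((le_max_left _ _).trans (le_max_right _ _)).trans hK
  have hK4 : ρ₄ ≤ K.ρ := ((le_max_right _ _).trans (le_max_right _ _)).trans hK
  have hρ := K.wall.hρ
  have hρ1 : 1 ≤ K.ρ := by linarith
  set t : ℕ → ℝ := fun n => 1 / ((n : ℝ) + 1) with ht
  have htpos : ∀ n, 0 < t n := fun n => by
    simp only [ht]
    positivity
  have ht1 : ∀ n, |t n| ≤ 1 := fun n => by
    rw [abs_of_pos (htpos n)]
    simp only [ht]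
    rw [div_le_one (by positivity)]
    have : (0 : ℝ) ≤ n := Nat.cast_nonneg n
    linarith
  have ht0 : Tendsto t atTop (𝓝 0) := tendsto_one_div_add_atTop_nhds_zero_nat
  have hV : ∀ n, IsSob (U + t n • φ) := fun n => hU.1.add (hφ.smul _)
  choose cs ξs hmax using fun n => hρ₁ K hK1 (U + t n • φ) (hV n)
  obtain ⟨M, hM⟩ := hρ₃ K hK3 U φ hU.1 hφ
  obtain ⟨hcont, hcontD⟩ := hρ₄ K hK4 U hU.1
  set R := C * K.ρ ^ 2 * (2 * NII K.ρ (0.9 * K.ρ) U + 2 * NII K.ρ (0.9 * K.ρ) φ) with hRdef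
  have hcs : ∀ n, ‖cs n‖ ≤ Real.sqrt R := by
    intro n
    refine p11_norm_le _ ?_
    refine (hρ₂ K hK2 (U + t n • φ) (hV n) (cs n) (ξs n) (hmax n)).trans ?_
    rw [hRdef]
    refine mul_le_mul_of_nonneg_left ?_ (by positivity)
    refine (NII_add hU.1 (hφ.smul (t n)) hρ1 _).trans ?_
    rw [NII_smul]
    have h1 : t n ^ 2 ≤ 1 := by
      have := ht1 n
      rw [abs_of_pos (htpos n)] at this
      nlinarith [htpos n]
    have h2 := NII_nonneg K.ρ (0.9 * K.ρ) φ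
    nlinarith
  obtain ⟨q, hqS, hqmax, hq0⟩ := p11_abs (P := Cc B.S × ℂ) {p | ‖p.2‖ ≤ Ξ}
    (Metric.closedBall (0 : Cc B.S) (Real.sqrt R) ×ˢ Metric.closedBall (0 : ℂ) Ξ)
    ((isCompact_closedBall _ _).prod (isCompact_closedBall _ _))
    (fun q hq => by simpa using hq.2)
    (fun p => Phi K U p.1 p.2) (fun p => DPhi K U p.1 p.2 φ) hcont (hcontD φ hφ) t htpos ht0
    (fun n p => Phi K (U + t n • φ) p.1 p.2) (fun n => (cs n, ξs n))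
    (fun n => ⟨by simpa using hcs n, by simpa using (hmax n).1⟩)
    (fun n q hq => (hmax n).2 q.1 q.2 hq) M
    (fun n q hq => (hM (t n) (ht1 n) q.1 q.2 hq).2)
    (fun q hq hq' n => hU.2 (U + t n • φ) (hV n) q.1 q.2
      ⟨hq, fun c' ξ' h => hq' (c', ξ') h⟩ (cs n) (ξs n) (hmax n))
  exact ⟨q.1, q.2, ⟨hqS, fun c' ξ' h => hqmax (c', ξ') h⟩, hq0⟩

end Pool.MP_ad5d82_an.Wl
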