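import Pool.Agent.Lib.MP_ad5d82_an.h24.PDefs
import Pool.Agent.Lib.MP_ad5d82_an.h24.P.P0

set_option autoImplicit false

namespace Pool.MP_ad5d82_an.Wl

open Real Set MeasureTheory Filter Topology
open scoped ContDiff

variable {ι : Type} [Fintype ι] [DecidableEq ι]

/-! ### P12a pigeonhole -/
theorem pigeonhole_annulus (R₀ : ℝ) (hR : 100 ≤ R₀) (f : ℂ → ℝ) (hf : ∀ x, 0 ≤ f x)
    (hi : IntegrableOn f {x : ℂ | ‖x‖ < R₀} volume) :
    ∃ r : ℝ, R₀ / 2 + 1 ≤ r ∧ r ≤ R₀ - 7 ∧
      (∫ x in {x : ℂ | r - 1 < ‖x‖ ∧ ‖x‖ < r + 2}, f x) ≤ 12 / R₀ * ∫ x in {x : ℂ | ‖x‖ < R₀}, f x := by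
  set T : ℝ := ∫ x in {x : ℂ | ‖x‖ < R₀}, f x with hT
  set rr : ℕ → ℝ := fun k => R₀ / 2 + 1 + 3 * k with hrr
  set A : ℕ → Set ℂ := fun k => {x : ℂ | rr k - 1 < ‖x‖ ∧ ‖x‖ < rr k + 2} with hA
  set N : ℕ := ⌊(R₀ / 2 - 8) / 3⌋₊ + 1 with hN
  have hN1 : R₀ / 12 ≤ N := by
    have h1 := Nat.lt_floor_add_one ((R₀ / 2 - 8) / 3)
    rw [hN]
    push_cast
    linarith
  have hkr : ∀ k < N, rr k ≤ R₀ - 7 := by
    intro k hk
    have h1 : k ≤ ⌊(R₀ / 2 - 8) / 3⌋₊ := by omega
    have h2 : (k : ℝ) ≤ (R₀ / 2 - 8) / 3 := by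
      refine le_trans ?_ (Nat.floor_le (show 0 ≤ (R₀ / 2 - 8) / 3 by linarith))
      exact_mod_cast h1
    simp only [hrr]
    linarith
  have hmeas : ∀ k, MeasurableSet (A k) := by
    intro k
    exact ((isOpen_lt continuous_const continuous_norm).inter
      (isOpen_lt continuous_norm continuous_const)).measurableSet
  have hsub : ∀ k < N, A k ⊆ {x : ℂ | ‖x‖ < R₀} := by
    intro k hk x hx
    have := hkr k hk
    have h2 : ‖x‖ < rr k + 2 := hx.2
    change ‖x‖ < R₀
    linarith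
  by_contra hcon
  push Not at hcon
  have hlt : ∀ k ∈ Finset.range N, 12 / R₀ * T < ∫ x in A k, f x := by
    intro k hk
    rw [Finset.mem_range] at hk
    apply hcon (rr k) _ (hkr k hk)
    simp only [hrr]
    have : (0 : ℝ) ≤ k := Nat.cast_nonneg k
    linarith
  have hT0 : 0 ≤ T := setIntegral_nonneg_of_ae_restrict (Eventually.of_forall hf)
  have hsum : ∑ k ∈ Finset.range N, ∫ x in A k, f x ≤ T := by
    rw [← integral_biUnion_finset]
    · apply setIntegral_mono_set hi (Eventually.of_forall hf)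
      apply HasSubset.Subset.eventuallyLE
      intro x hx
      simp only [Set.mem_iUnion, Finset.mem_range] at hx
      obtain ⟨k, hk, hx⟩ := hx
      exact hsub k hk hx
    · intro k _
      exact hmeas k
    · intro k _ l _ hkl
      rw [Function.onFun, Set.disjoint_left]
      intro x hx1 hx2
      have a1 : rr k - 1 < ‖x‖ := hx1.1
      have a2 : ‖x‖ < rr k + 2 := hx1.2
      have b1 : rr l - 1 < ‖x‖ := hx2.1
      have b2 : ‖x‖ < rr l + 2 := hx2.2
      simp only [hrr] at a1 a2 b1 b2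
      rcases lt_or_gt_of_ne hkl with h | h
      · have : (k : ℝ) + 1 ≤ l := by exact_mod_cast h
        linarith
      · have : (l : ℝ) + 1 ≤ k := by exact_mod_cast h
        linarith
    · intro k hk
      rw [Finset.mem_range] at hk
      exact hi.mono_set (hsub k hk)
  have hne : (Finset.range N).Nonempty := ⟨0, Finset.mem_range.2 (by omega)⟩
  have h1 := Finset.sum_lt_sum_of_nonempty hne hlt
  rw [Finset.sum_const, Finset.card_range, nsmul_eq_mul] at h1
  have h2 : T ≤ N * (12 / R₀ * T) := by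
    have h3 : 1 ≤ N * (12 / R₀) := by
      rw [← mul_div_assoc, le_div_iff₀ (by linarith)]
      linarith
    calc T = 1 * T := (one_mul _).symm
      _ ≤ N * (12 / R₀) * T := mul_le_mul_of_nonneg_right h3 hT0
      _ = _ := by ring
  linarith

end Pool.MP_ad5d82_an.Wl
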