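import Pool.Agent.Lib.MP_ad5d82_an.h24.PDefs
import Pool.Agent.Lib.MP_ad5d82_an.h24.H.H4
import Pool.Agent.Lib.MP_ad5d82_an.h24.P.P0

set_option autoImplicit false

namespace Pool.MP_ad5d82_an.Wl

open Real Set MeasureTheory Filter Topology
open scoped ContDiff

variable {ι : Type} [Fintype ι] [DecidableEq ι]

/-! ### P13a the weight -/
/-- `= t` for `t ≤ 0`, constant for `t ≥ 1`, slope in `[0,1]`. -/
noncomputable def kapp (t : ℝ) : ℝ := ∫ s in (0 : ℝ)..t, Real.smoothTransition (1 - s)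
/-- the weight function. -/
noncomputable def Th (R₀ ρ : ℝ) (x : ℂ) : ℝ :=
  Real.smoothTransition (‖x‖ - R₀) * exp (0.9 * (0.88 * ρ + kapp (‖x‖ - 0.88 * ρ)))

private lemma p13_kapp_deriv (t : ℝ) : HasDerivAt kapp (Real.smoothTransition (1 - t)) t := by
  have hc : Continuous fun s : ℝ => Real.smoothTransition (1 - s) :=
    Real.smoothTransition.continuous.comp (continuous_const.sub continuous_id)
  exact (hc.integral_hasStrictDerivAt 0 t).hasDerivAt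

private lemma p13_kapp_contDiff : ContDiff ℝ ∞ kapp := by
  rw [contDiff_infty_iff_deriv]
  refine ⟨fun t => (p13_kapp_deriv t).differentiableAt, ?_⟩
  have : deriv kapp = fun t => Real.smoothTransition (1 - t) := by
    funext t; exact (p13_kapp_deriv t).deriv
  rw [this]
  exact Real.smoothTransition.contDiff.comp (contDiff_const.sub contDiff_id)

private lemma p13_kapp_nonpos {t : ℝ} (ht : t ≤ 0) : kapp t = t := by
  unfold kapp
  rw [intervalIntegral.integral_congr (g := fun _ => (1 : ℝ))]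
  · simp
  · intro s hs
    rw [Set.uIcc_of_ge ht] at hs
    exact Real.smoothTransition.one_of_one_le (by linarith [hs.2])

private lemma p13_kapp_nonneg {t : ℝ} (ht : 0 ≤ t) : 0 ≤ kapp t := by
  unfold kapp
  exact intervalIntegral.integral_nonneg ht fun s _ => Real.smoothTransition.nonneg _

private lemma p13_kapp_one {t : ℝ} (ht : 1 ≤ t) : kapp t = kapp 1 := by
  unfold kapp
  have hc : Continuous fun s : ℝ => Real.smoothTransition (1 - s) :=
    Real.smoothTransition.continuous.comp (continuous_const.sub continuous_id)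
  rw [← intervalIntegral.integral_add_adjacent_intervals (hc.intervalIntegrable 0 1)
    (hc.intervalIntegrable 1 t)]
  rw [intervalIntegral.integral_congr (a := 1) (b := t) (g := fun _ => (0 : ℝ))]
  · simp
  · intro s hs
    rw [Set.uIcc_of_le ht] at hs
    exact Real.smoothTransition.zero_of_nonpos (by linarith [hs.1])

/-- the radial profile. -/
private noncomputable def p13h (R₀ ρ r : ℝ) : ℝ :=
  Real.smoothTransition (r - R₀) * exp (0.9 * (0.88 * ρ + kapp (r - 0.88 * ρ)))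

private lemma p13_Th_eq (R₀ ρ : ℝ) (x : ℂ) : Th R₀ ρ x = p13h R₀ ρ ‖x‖ := rfl

private lemma p13h_contDiff (R₀ ρ : ℝ) : ContDiff ℝ ∞ (p13h R₀ ρ) := by
  unfold p13h
  apply ContDiff.mul
  · exact Real.smoothTransition.contDiff.comp (contDiff_id.sub contDiff_const)
  · apply ContDiff.exp
    apply contDiff_const.mul
    apply contDiff_const.add
    exact p13_kapp_contDiff.comp (contDiff_id.sub contDiff_const)

private lemma p13_sT_diff (t : ℝ) :
    HasDerivAt Real.smoothTransition (deriv Real.smoothTransition t) t :=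
  ((Real.smoothTransition.contDiff (n := 1)).differentiable (by norm_num) t).hasDerivAt

private lemma p13_sT_deriv_ge {t : ℝ} (ht : 1 ≤ t) : deriv Real.smoothTransition t = 0 := by
  have : IsLocalMax Real.smoothTransition t := by
    apply Filter.Eventually.of_forall
    intro s
    change Real.smoothTransition s ≤ Real.smoothTransition t
    rw [Real.smoothTransition.one_of_one_le ht]
    exact Real.smoothTransition.le_one s
  exact this.deriv_eq_zero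

private lemma p13h_deriv (R₀ ρ r : ℝ) : HasDerivAt (p13h R₀ ρ)
    (deriv Real.smoothTransition (r - R₀) * exp (0.9 * (0.88 * ρ + kapp (r - 0.88 * ρ))) +
      Real.smoothTransition (r - R₀) * (exp (0.9 * (0.88 * ρ + kapp (r - 0.88 * ρ))) *
        (0.9 * Real.smoothTransition (1 - (r - 0.88 * ρ))))) r := by
  have h1 : HasDerivAt (fun r : ℝ => Real.smoothTransition (r - R₀))
      (deriv Real.smoothTransition (r - R₀)) r := by
    have := (p13_sT_diff (r - R₀)).comp r ((hasDerivAt_id r).sub_const R₀)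
    rw [mul_one] at this
    exact this
  have h2 : HasDerivAt (fun r : ℝ => kapp (r - 0.88 * ρ))
      (Real.smoothTransition (1 - (r - 0.88 * ρ))) r := by
    have := (p13_kapp_deriv (r - 0.88 * ρ)).comp r ((hasDerivAt_id r).sub_const (0.88 * ρ))
    rw [mul_one] at this
    exact this
  have h3 := ((h2.const_add (0.88 * ρ)).const_mul 0.9).exp
  exact h1.mul h3

private lemma p13_norm_sq (x : ℂ) (hx : x ≠ 0) :
    fderiv ℝ (fun y : ℂ => ‖y‖) x 1 ^ 2 + fderiv ℝ (fun y : ℂ => ‖y‖) x Complex.I ^ 2 = 1 := by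
  have hd : DifferentiableAt ℝ (fun y : ℂ => ‖y‖) x :=
    (contDiffAt_norm (n := 1) ℝ hx).differentiableAt (by norm_num)
  have hn : 0 < ‖x‖ := norm_pos_iff.2 hx
  have h1 : ∀ v : ℂ, ‖x‖ * fderiv ℝ (fun y : ℂ => ‖y‖) x v = inner ℝ x v := by
    intro v
    have e1 : HasFDerivAt (fun y : ℂ => ‖y‖ ^ 2) (2 • (innerSL ℝ x)) x :=
      (hasStrictFDerivAt_norm_sq x).hasFDerivAt
    have e2 : HasFDerivAt (fun y : ℂ => ‖y‖ ^ 2) _ x := hd.hasFDerivAt.pow 2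
    have e3 := congrArg (fun L => L v) (e1.unique e2)
    simp at e3
    have e8 : inner ℝ x v = v.re * x.re + v.im * x.im := by
      simp [Complex.inner]
    rw [e8]
    linarith
  have h2 := h1 1
  have h3 := h1 Complex.I
  have e4 : inner ℝ x (1 : ℂ) = x.re := by simp [Complex.inner]
  have e5 : inner ℝ x Complex.I = x.im := by simp [Complex.inner]
  rw [e4] at h2
  rw [e5] at h3
  have e6 : ‖x‖ ^ 2 = x.re ^ 2 + x.im ^ 2 := by
    rw [← Complex.normSq_eq_norm_sq, Complex.normSq_apply]; ring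
  have e7 : ‖x‖ ^ 2 * (fderiv ℝ (fun y : ℂ => ‖y‖) x 1 ^ 2 +
      fderiv ℝ (fun y : ℂ => ‖y‖) x Complex.I ^ 2) = ‖x‖ ^ 2 * 1 := by
    rw [mul_one]
    conv_rhs => rw [e6, ← h2, ← h3]
    ring
  exact mul_left_cancel₀ (by positivity) e7

private lemma p13_fderiv (R₀ ρ : ℝ) (x : ℂ) (hx : x ≠ 0) (v : ℂ) :
    fderiv ℝ (Th R₀ ρ) x v =
    (deriv Real.smoothTransition (‖x‖ - R₀) * exp (0.9 * (0.88 * ρ + kapp (‖x‖ - 0.88 * ρ))) +
      Real.smoothTransition (‖x‖ - R₀) * (exp (0.9 * (0.88 * ρ + kapp (‖x‖ - 0.88 * ρ))) *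
        (0.9 * Real.smoothTransition (1 - (‖x‖ - 0.88 * ρ))))) *
      fderiv ℝ (fun y : ℂ => ‖y‖) x v := by
  have hd : DifferentiableAt ℝ (fun y : ℂ => ‖y‖) x :=
    (contDiffAt_norm (n := 1) ℝ hx).differentiableAt (by norm_num)
  have h1 := (p13h_deriv R₀ ρ ‖x‖).comp_hasFDerivAt x hd.hasFDerivAt
  have h2 : fderiv ℝ (Th R₀ ρ) x = _ := h1.fderiv
  rw [h2]
  simp

private lemma p13_grad_sq (R₀ ρ : ℝ) (x : ℂ) (hx : x ≠ 0) :
    fderiv ℝ (Th R₀ ρ) x 1 ^ 2 + fderiv ℝ (Th R₀ ρ) x Complex.I ^ 2 =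
    (deriv Real.smoothTransition (‖x‖ - R₀) * exp (0.9 * (0.88 * ρ + kapp (‖x‖ - 0.88 * ρ))) +
      Real.smoothTransition (‖x‖ - R₀) * (exp (0.9 * (0.88 * ρ + kapp (‖x‖ - 0.88 * ρ))) *
        (0.9 * Real.smoothTransition (1 - (‖x‖ - 0.88 * ρ))))) ^ 2 := by
  rw [p13_fderiv R₀ ρ x hx, p13_fderiv R₀ ρ x hx, mul_pow, mul_pow, ← mul_add, p13_norm_sq x hx,
    mul_one]

theorem Th_props (R₀ ρ : ℝ) (hR : 1 ≤ R₀) (hρ : 100 ≤ ρ) (hρR : R₀ + 2 ≤ 0.88 * ρ) :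
    ContDiff ℝ ∞ (Th R₀ ρ) ∧ HasCompactSupport (fderiv ℝ (Th R₀ ρ)) ∧ (∀ x, 0 ≤ Th R₀ ρ x) ∧
    (∀ x, ‖x‖ ≤ R₀ → Th R₀ ρ x = 0) ∧ (∀ x, ‖x‖ ≤ R₀ → fderiv ℝ (Th R₀ ρ) x = 0) ∧
    (∀ x, R₀ + 1 ≤ ‖x‖ →
      fderiv ℝ (Th R₀ ρ) x 1 ^ 2 + fderiv ℝ (Th R₀ ρ) x Complex.I ^ 2 ≤ 0.81 * Th R₀ ρ x ^ 2) ∧
    (∀ x, R₀ + 1 ≤ ‖x‖ → ‖x‖ ≤ 0.88 * ρ → Th R₀ ρ x = exp (0.9 * ‖x‖)) ∧
    (∀ x, 0.88 * ρ ≤ ‖x‖ → exp (0.9 * (0.88 * ρ)) ≤ Th R₀ ρ x) ∧
    (∀ x, 0.88 * ρ + 1 ≤ ‖x‖ → Th R₀ ρ x = exp (0.9 * (0.88 * ρ + kapp 1)) ∧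
      fderiv ℝ (Th R₀ ρ) x = 0) := by
  have hnn : ∀ x, 0 ≤ Th R₀ ρ x := fun x =>
    mul_nonneg (Real.smoothTransition.nonneg _) (exp_pos _).le
  have hz : ∀ x, ‖x‖ ≤ R₀ → Th R₀ ρ x = 0 := by
    intro x hx
    unfold Th
    rw [Real.smoothTransition.zero_of_nonpos (by linarith), zero_mul]
  have hfar : ∀ x, 0.88 * ρ + 1 ≤ ‖x‖ → fderiv ℝ (Th R₀ ρ) x = 0 := by
    intro x hx
    have hx0 : x ≠ 0 := by
      rw [← norm_pos_iff]; linarith
    ext v
    rw [p13_fderiv R₀ ρ x hx0, p13_sT_deriv_ge (by linarith),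
      Real.smoothTransition.zero_of_nonpos (x := 1 - (‖x‖ - 0.88 * ρ)) (by linarith)]
    simp
  refine ⟨?_, ?_, hnn, hz, ?_, ?_, ?_, ?_, ?_⟩
  · rw [contDiff_iff_contDiffAt]
    intro x
    by_cases hx : x = 0
    · subst hx
      have : Th R₀ ρ =ᶠ[𝓝 (0 : ℂ)] fun _ => (0 : ℝ) := by
        filter_upwards [Metric.ball_mem_nhds (0 : ℂ) (show 0 < R₀ by linarith)] with y hy
        apply hz
        have : ‖y‖ < R₀ := by simpa using hy
        exact this.le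
      exact contDiffAt_const.congr_of_eventuallyEq this
    · exact ((p13h_contDiff R₀ ρ).contDiffAt (x := ‖x‖)).comp x (contDiffAt_norm ℝ hx)
  · apply HasCompactSupport.intro (isCompact_closedBall (0 : ℂ) (0.88 * ρ + 1))
    intro x hx
    apply hfar
    have : ¬ ‖x‖ ≤ 0.88 * ρ + 1 := by simpa using hx
    linarith
  · intro x hx
    have : IsLocalMin (Th R₀ ρ) x := by
      apply Filter.Eventually.of_forall
      intro y
      change Th R₀ ρ x ≤ Th R₀ ρ y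
      rw [hz x hx]
      exact hnn y
    exact this.fderiv_eq_zero
  · intro x hx
    have hx0 : x ≠ 0 := by
      rw [← norm_pos_iff]; linarith
    rw [p13_grad_sq R₀ ρ x hx0, p13_sT_deriv_ge (by linarith)]
    unfold Th
    have h1 := Real.smoothTransition.nonneg (1 - (‖x‖ - 0.88 * ρ))
    have h2 := Real.smoothTransition.le_one (1 - (‖x‖ - 0.88 * ρ))
    set E := exp (0.9 * (0.88 * ρ + kapp (‖x‖ - 0.88 * ρ)))
    set s := Real.smoothTransition (‖x‖ - R₀)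
    set σ := Real.smoothTransition (1 - (‖x‖ - 0.88 * ρ))
    have h3 : σ ^ 2 ≤ 1 := pow_le_one₀ h1 h2
    calc (0 * E + s * (E * (0.9 * σ))) ^ 2 = 0.81 * (s * E) ^ 2 * σ ^ 2 := by ring
      _ ≤ 0.81 * (s * E) ^ 2 * 1 := mul_le_mul_of_nonneg_left h3 (by positivity)
      _ = _ := by ring
  · intro x hx hx2
    unfold Th
    rw [Real.smoothTransition.one_of_one_le (by linarith), p13_kapp_nonpos (by linarith)]
    rw [one_mul]
    congr 1
    ring
  · intro x hx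
    unfold Th
    rw [Real.smoothTransition.one_of_one_le (by linarith), one_mul]
    apply exp_le_exp.2
    have := p13_kapp_nonneg (t := ‖x‖ - 0.88 * ρ) (by linarith)
    linarith
  · intro x hx
    refine ⟨?_, hfar x hx⟩
    unfold Th
    rw [Real.smoothTransition.one_of_one_le (by linarith), one_mul,
      p13_kapp_one (t := ‖x‖ - 0.88 * ρ) (by linarith)]

theorem Th_inner (R₀ : ℝ) (hR : 1 ≤ R₀) : ∃ C : ℝ, 0 < C ∧ ∀ ρ : ℝ, 100 ≤ ρ → R₀ + 2 ≤ 0.88 * ρ →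
    ∀ x, ‖x‖ ≤ R₀ + 1 →
      fderiv ℝ (Th R₀ ρ) x 1 ^ 2 + fderiv ℝ (Th R₀ ρ) x Complex.I ^ 2 ≤ C := by
  have hcont : Continuous (deriv Real.smoothTransition) :=
    (Real.smoothTransition.contDiff (n := 1)).continuous_deriv (by norm_num)
  obtain ⟨M, hM⟩ := (isCompact_Icc (a := -R₀) (b := 1)).exists_bound_of_continuousOn
    hcont.continuousOn
  refine ⟨((|M| + 0.9) * exp (0.9 * (R₀ + 1))) ^ 2, by positivity, ?_⟩
  intro ρ hρ hρR x hx
  by_cases hx0 : x = 0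
  · have h1 := (Th_props R₀ ρ hR hρ hρR).2.2.2.2.1 x (by rw [hx0]; simpa using by linarith)
    rw [h1]
    simp
    positivity
  · rw [p13_grad_sq R₀ ρ x hx0]
    rw [← sq_abs]
    apply pow_le_pow_left₀ (abs_nonneg _)
    have hn : 0 ≤ ‖x‖ := norm_nonneg x
    have h1 : |deriv Real.smoothTransition (‖x‖ - R₀)| ≤ |M| := by
      have := hM (‖x‖ - R₀) ⟨by linarith, by linarith⟩
      rw [Real.norm_eq_abs] at this
      exact this.trans (le_abs_self M)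
    have h2 : exp (0.9 * (0.88 * ρ + kapp (‖x‖ - 0.88 * ρ))) ≤ exp (0.9 * (R₀ + 1)) := by
      apply exp_le_exp.2
      rw [p13_kapp_nonpos (by linarith)]
      linarith
    have h3 := Real.smoothTransition.nonneg (1 - (‖x‖ - 0.88 * ρ))
    have h4 := Real.smoothTransition.le_one (1 - (‖x‖ - 0.88 * ρ))
    have h5 := Real.smoothTransition.nonneg (‖x‖ - R₀)
    have h6 := Real.smoothTransition.le_one (‖x‖ - R₀)
    have h7 := (exp_pos (0.9 * (0.88 * ρ + kapp (‖x‖ - 0.88 * ρ)))).le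
    refine (abs_add_le _ _).trans ?_
    rw [abs_mul, abs_mul, abs_of_nonneg h7, abs_of_nonneg h5, add_mul]
    apply add_le_add
    · exact mul_le_mul h1 h2 h7 (abs_nonneg _)
    · rw [abs_of_nonneg (by positivity)]
      set E := exp (0.9 * (0.88 * ρ + kapp (‖x‖ - 0.88 * ρ)))
      set s := Real.smoothTransition (‖x‖ - R₀)
      set σ := Real.smoothTransition (1 - (‖x‖ - 0.88 * ρ))
      calc s * (E * (0.9 * σ)) ≤ 1 * (E * (0.9 * 1)) := by gcongr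
        _ = 0.9 * E := by ring
        _ ≤ _ := mul_le_mul_of_nonneg_left h2 (by norm_num)

/-- the identity `⟨P∇U,∇(Θ²U)⟩ = ⟨P∇(ΘU),∇(ΘU)⟩ - |∇Θ|²⟨PU,U⟩`. -/
theorem gPb_sq (S : Sys ι) {Θ : ℂ → ℝ} (hΘ : Differentiable ℝ Θ) (U : Fld ι) (x : ℂ) :
    gPb S (U x) (mulF (fun y => Θ y ^ 2) U x) = gP S (mulF Θ U x)
      - (fderiv ℝ Θ x 1 ^ 2 + fderiv ℝ Θ x Complex.I ^ 2) * ∑ j, (S.μ j : ℝ)⁻¹ * (U x).1 j ^ 2 := by
  have h1 : ∀ v, fderiv ℝ (fun y => Θ y ^ 2) x v = 2 * Θ x * fderiv ℝ Θ x v := by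
    intro v
    have := ((hΘ x).hasFDerivAt.pow 2).fderiv
    rw [this]
    simp
  unfold gPb gP mulF
  rw [Finset.mul_sum, ← Finset.sum_sub_distrib]
  apply Finset.sum_congr rfl
  intro j _
  simp only [h1, PiLp.add_apply, PiLp.smul_apply, smul_eq_mul]
  ring

theorem gsq_mulF (Θ : ℂ → ℝ) (U : Fld ι) (x : ℂ) :
    Θ x ^ 2 * gsq (U x) ≤ 2 * gsq (mulF Θ U x)
      + 2 * (fderiv ℝ Θ x 1 ^ 2 + fderiv ℝ Θ x Complex.I ^ 2) * ‖(U x).1‖ ^ 2 ∧
    gsq (mulF Θ U x) ≤ 2 * (Θ x ^ 2 * gsq (U x))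
      + 2 * (fderiv ℝ Θ x 1 ^ 2 + fderiv ℝ Θ x Complex.I ^ 2) * ‖(U x).1‖ ^ 2 := by
  unfold gsq mulF
  simp only
  have key : ∀ (t a : ℝ) (u v : Ev ι), t ^ 2 * ‖u‖ ^ 2 ≤ 2 * ‖t • u + a • v‖ ^ 2 +
      2 * (a ^ 2 * ‖v‖ ^ 2) ∧
      ‖t • u + a • v‖ ^ 2 ≤ 2 * (t ^ 2 * ‖u‖ ^ 2) + 2 * (a ^ 2 * ‖v‖ ^ 2) := by
    intro t a u v
    have e1 : t ^ 2 * ‖u‖ ^ 2 = ‖t • u‖ ^ 2 := by
      rw [norm_smul, mul_pow, Real.norm_eq_abs, sq_abs]
    have e2 : a ^ 2 * ‖v‖ ^ 2 = ‖a • v‖ ^ 2 := by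
      rw [norm_smul, mul_pow, Real.norm_eq_abs, sq_abs]
    rw [e1, e2]
    set A := t • u
    set B := a • v
    have h1 : ‖A‖ ≤ ‖A + B‖ + ‖B‖ := by
      have := norm_sub_le (A + B) B
      rwa [add_sub_cancel_right] at this
    have h2 : ‖A + B‖ ≤ ‖A‖ + ‖B‖ := norm_add_le A B
    have h3 := norm_nonneg A
    have h4 := norm_nonneg B
    have h5 := norm_nonneg (A + B)
    constructor
    · nlinarith [sq_nonneg (‖A + B‖ - ‖B‖)]
    · nlinarith [sq_nonneg (‖A‖ - ‖B‖)]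
  obtain ⟨a1, a2⟩ := key (Θ x) (fderiv ℝ Θ x 1) (U x).2.1 (U x).1
  obtain ⟨b1, b2⟩ := key (Θ x) (fderiv ℝ Θ x Complex.I) (U x).2.2 (U x).1
  constructor <;> linarith

end Pool.MP_ad5d82_an.Wl
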