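import Pool.Agent.Lib.MP_ad5d82_an.h24.PDefs
import Pool.Agent.Lib.MP_ad5d82_an.h24.H.H4
import Pool.Agent.Lib.MP_ad5d82_an.h24.H.H7
import Pool.Agent.Lib.MP_ad5d82_an.h24.H.H8b
import Pool.Agent.Lib.MP_ad5d82_an.h24.F.F1
import Pool.Agent.Lib.MP_ad5d82_an.h24.F.F2
import Pool.Agent.Lib.MP_ad5d82_an.h24.P.P0
import Pool.Agent.Lib.MP_ad5d82_an.h24.P.P1
import Pool.Agent.Lib.MP_ad5d82_an.h24.P.P2
import Pool.Agent.Lib.MP_ad5d82_an.h24.P.P4
import Pool.Agent.Lib.MP_ad5d82_an.h24.P.P6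
import Pool.Agent.Lib.MP_ad5d82_an.h24.P.P7
import Pool.Agent.Lib.MP_ad5d82_an.h24.P.P8
import Pool.Agent.Lib.MP_ad5d82_an.h24.P.P13a

set_option autoImplicit false

namespace Pool.MP_ad5d82_an.Wl

open Real Set MeasureTheory Filter Topology
open scoped ContDiff

variable {ι : Type} [Fintype ι] [DecidableEq ι]

variable {B : Base ι} {δ R₀ Ξ : ℝ}


/-! ### P12b the competitor `η U` -/
/-- the cut-off `= 1` for `‖x‖ ≤ r`, `= 0` for `‖x‖ ≥ r+1`. -/
noncomputable def cutr (r : ℝ) (x : ℂ) : ℝ := Real.smoothTransition (r + 1 - ‖x‖)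

lemma p12b_one {r : ℝ} {x : ℂ} (hx : ‖x‖ ≤ r) : cutr r x = 1 :=
  Real.smoothTransition.one_of_one_le (by linarith)

lemma p12b_zero {r : ℝ} {x : ℂ} (hx : r + 1 ≤ ‖x‖) : cutr r x = 0 :=
  Real.smoothTransition.zero_of_nonpos (by linarith)

lemma p12b_fderiv_in {r : ℝ} {x : ℂ} (hx : ‖x‖ ≤ r) : fderiv ℝ (cutr r) x = 0 := by
  have : IsLocalMax (cutr r) x := by
    apply Filter.Eventually.of_forall
    intro y
    change cutr r y ≤ cutr r x
    rw [p12b_one hx]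
    exact Real.smoothTransition.le_one _
  exact this.fderiv_eq_zero

lemma p12b_fderiv_out {r : ℝ} {x : ℂ} (hx : r + 1 ≤ ‖x‖) : fderiv ℝ (cutr r) x = 0 := by
  have : IsLocalMin (cutr r) x := by
    apply Filter.Eventually.of_forall
    intro y
    change cutr r x ≤ cutr r y
    rw [p12b_zero hx]
    exact Real.smoothTransition.nonneg _
  exact this.fderiv_eq_zero

theorem cutr_props (r : ℝ) (hr : 1 ≤ r) : ContDiff ℝ ∞ (cutr r) ∧ HasCompactSupport (cutr r) ∧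
    HasCompactSupport (fderiv ℝ (cutr r)) ∧ (∀ x, 0 ≤ cutr r x ∧ cutr r x ≤ 1) ∧
    (∀ x, ‖x‖ ≤ r → cutr r x = 1) ∧ (∀ x, r + 1 ≤ ‖x‖ → cutr r x = 0) ∧
    (∀ x, ‖x‖ < r → fderiv ℝ (cutr r) x = 0) ∧ (∀ x, r + 1 < ‖x‖ → fderiv ℝ (cutr r) x = 0) := by
  have hcs : HasCompactSupport (cutr r) := by
    apply HasCompactSupport.intro (isCompact_closedBall (0 : ℂ) (r + 1))
    intro x hx
    apply p12b_zero
    have : ¬ ‖x‖ ≤ r + 1 := by simpa using hx
    linarith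
  refine ⟨?_, hcs, hcs.fderiv ℝ, fun x => ⟨Real.smoothTransition.nonneg _,
    Real.smoothTransition.le_one _⟩, fun x hx => p12b_one hx, fun x hx => p12b_zero hx,
    fun x hx => p12b_fderiv_in hx.le, fun x hx => p12b_fderiv_out hx.le⟩
  rw [contDiff_iff_contDiffAt]
  intro x
  by_cases hx : x = 0
  · subst hx
    have : cutr r =ᶠ[𝓝 (0 : ℂ)] fun _ => (1 : ℝ) := by
      filter_upwards [Metric.ball_mem_nhds (0 : ℂ) (show 0 < r by linarith)] with y hy
      apply p12b_one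
      have : ‖y‖ < r := by simpa using hy
      exact this.le
    exact contDiffAt_const.congr_of_eventuallyEq this
  · have h1 : ContDiff ℝ ∞ fun t : ℝ => Real.smoothTransition (r + 1 - t) :=
      Real.smoothTransition.contDiff.comp (contDiff_const.sub contDiff_id)
    exact (h1.contDiffAt (x := ‖x‖)).comp x (contDiffAt_norm ℝ hx)

theorem cutr_grad : ∃ C : ℝ, 0 < C ∧ ∀ r : ℝ, 1 ≤ r → ∀ x, ‖fderiv ℝ (cutr r) x‖ ≤ C := by
  have hcont : Continuous (deriv Real.smoothTransition) :=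
    (Real.smoothTransition.contDiff (n := 1)).continuous_deriv (by norm_num)
  obtain ⟨M, hM⟩ := (isCompact_Icc (a := (0 : ℝ)) (b := 1)).exists_bound_of_continuousOn
    hcont.continuousOn
  have hM' : ∀ t, ‖deriv Real.smoothTransition t‖ ≤ |M| := by
    intro t
    by_cases h0 : t < 0
    · have : IsLocalMin Real.smoothTransition t := by
        apply Filter.Eventually.of_forall
        intro y
        change Real.smoothTransition t ≤ Real.smoothTransition y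
        rw [Real.smoothTransition.zero_of_nonpos h0.le]
        exact Real.smoothTransition.nonneg _
      rw [this.deriv_eq_zero]
      simp
    · by_cases h1 : 1 < t
      · have : IsLocalMax Real.smoothTransition t := by
          apply Filter.Eventually.of_forall
          intro y
          change Real.smoothTransition y ≤ Real.smoothTransition t
          rw [Real.smoothTransition.one_of_one_le h1.le]
          exact Real.smoothTransition.le_one _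
        rw [this.deriv_eq_zero]
        simp
      · exact (hM t ⟨not_lt.1 h0, not_lt.1 h1⟩).trans (le_abs_self M)
  have hL : LipschitzWith ⟨|M|, abs_nonneg M⟩ Real.smoothTransition := by
    apply lipschitzWith_of_nnnorm_deriv_le
      ((Real.smoothTransition.contDiff (n := 1)).differentiable (by norm_num))
    intro t
    exact hM' t
  refine ⟨|M| + 1, by positivity, fun r hr x => ?_⟩
  have hL2 : LipschitzWith ⟨|M|, abs_nonneg M⟩ (cutr r) := by
    apply LipschitzWith.of_dist_le_mul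
    intro a b
    have h1 := hL.dist_le_mul (r + 1 - ‖a‖) (r + 1 - ‖b‖)
    refine h1.trans ?_
    apply mul_le_mul_of_nonneg_left _ (abs_nonneg M)
    rw [Real.dist_eq, dist_eq_norm]
    have : r + 1 - ‖a‖ - (r + 1 - ‖b‖) = -(‖a‖ - ‖b‖) := by ring
    rw [this, abs_neg]
    exact abs_norm_sub_norm_le a b
  have := norm_fderiv_le_of_lipschitz ℝ hL2 (x₀ := x)
  refine this.trans ?_
  change |M| ≤ |M| + 1
  linarith

lemma p12b_GG_zero (K : Cfg B δ R₀ Ξ) (U : Fld ι) (ξ : ℂ) : GG K U 0 ξ = U := by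
  unfold GG
  have h1 : Cf B.S K.χ (0 : Cc B.S) ξ = fun _ => 0 := by
    funext x; unfold Cf; simp
  rw [h1]
  funext x
  simp [jet]

lemma p12b_aa_cont (S : Sys ι) : Continuous (aa S) := by
  unfold aa lin
  fun_prop

lemma p12b_aa_bound (S : Sys ι) : ∃ C : ℝ, 0 < C ∧ ∀ v h : Ev ι, (∀ a, lin S a v ≤ 0) →
    aa S (v + h) ≤ (∑ j, (S.μ j : ℝ)) * (∑ a, S.m a) * exp (2 * C * ‖h‖) := by
  obtain ⟨C, hC, hl⟩ := lin_le S
  refine ⟨C, hC, fun v h hv => ?_⟩
  refine (aa_upper S (v + h)).trans ?_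
  rw [mul_assoc]
  apply mul_le_mul_of_nonneg_left _ (Finset.sum_nonneg fun j _ => Nat.cast_nonneg _)
  rw [Finset.sum_mul]
  apply Finset.sum_le_sum
  intro a _
  apply mul_le_mul_of_nonneg_left _ (S.m_pos a).le
  have h3 := hl a h
  have hadd : lin S a (v + h) = lin S a v + lin S a h := by
    unfold lin
    rw [← Finset.sum_add_distrib]
    apply Finset.sum_congr rfl
    intro j _
    simp only [PiLp.add_apply]
    ring
  have h4 : |exp (lin S a (v + h)) - 1| ≤ exp (C * ‖h‖) := by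
    rw [abs_le]
    have h5 : lin S a (v + h) ≤ C * ‖h‖ := by
      rw [hadd]
      have := (le_abs_self _).trans h3
      have := hv a
      linarith
    have h6 := exp_pos (lin S a (v + h))
    have h7 : 1 ≤ exp (C * ‖h‖) := one_le_exp (by positivity)
    have h8 := exp_le_exp.2 h5
    constructor <;> linarith
  calc (exp (lin S a (v + h)) - 1) ^ 2 = |exp (lin S a (v + h)) - 1| ^ 2 := (sq_abs _).symm
    _ ≤ exp (C * ‖h‖) ^ 2 := pow_le_pow_left₀ (abs_nonneg _) h4 2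
    _ = exp (2 * C * ‖h‖) := by rw [← exp_nat_mul]; congr 1; push_cast; ring

lemma p12b_aa_int (S : Sys ι) {U : Fld ι} (hU : IsSob U) (R : ℝ) :
    IntegrableOn (fun x => aa S (U x).1) (Metric.ball 0 R) volume := by
  obtain ⟨C, hC, hb⟩ := p12b_aa_bound S
  have h1 := exp_integrable hU (2 * C) R
  refine Integrable.mono' (h1.const_mul ((∑ j, (S.μ j : ℝ)) * (∑ a, S.m a))) ?_ ?_
  · exact ((p12b_aa_cont S).comp_aestronglyMeasurable hU.1.fst).restrict
  · apply Filter.Eventually.of_forall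
    intro x
    rw [Real.norm_eq_abs, abs_of_nonneg (aa_nonneg S _)]
    have := hb 0 (U x).1 (fun a => by simp [lin])
    rwa [zero_add] at this

lemma p12b_aa_int' (B : Base ι) {U : Fld ι} (hU : IsSob U) (R : ℝ) :
    IntegrableOn (fun x => aa B.S (v0 B x + (U x).1)) (Metric.ball 0 R) volume := by
  obtain ⟨C, hC, hb⟩ := p12b_aa_bound B.S
  have h1 := exp_integrable hU (2 * C) R
  refine Integrable.mono' (h1.const_mul ((∑ j, (B.S.μ j : ℝ)) * (∑ a, B.S.m a))) ?_ ?_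
  · exact ((p12b_aa_cont B.S).comp_aestronglyMeasurable
      ((v0_meas B).aestronglyMeasurable.add hU.1.fst)).restrict
  · apply Filter.Eventually.of_forall
    intro x
    rw [Real.norm_eq_abs, abs_of_nonneg (aa_nonneg B.S _)]
    exact hb (v0 B x) (U x).1 (fun a => v0_lin_nonpos B a x)

lemma p12b_outD_zero (B : Base ι) {δ ρ : ℝ} (x : ℂ) (s : ℝ) (u : Ev ι × Ev ι × Ev ι)
    (hu : u = 0) : outD B δ ρ x s u = 0 := by
  subst hu
  unfold outD gP qV RT RR trc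
  have h1 : (WithLp.toLp 2 fun j => ch (tau δ ρ x) ((0 : Ev ι × Ev ι × Ev ι).1 j) : Ev ι) = 0 := by
    ext j
    simp [ch]
  rw [h1, WW_zero]
  simp [qV]

lemma p12b_inD_zero (B : Base ι) (x : ℂ) (s : ℝ) (u : Ev ι × Ev ι × Ev ι)
    (hu : u = 0) (hv : v0 B x = 0) : inD B x s u = 0 := by
  subst hu
  unfold inD gP
  rw [hv]
  simp [WW_zero]

/-- comparison of `U` with `cutr r • U`. -/
theorem competitor (B : Base ι) : ∃ C : ℝ, 0 < C ∧ ∃ R₁ : ℝ, 10 ≤ R₁ ∧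
    ∀ δ R₀ Ξ : ℝ, 0 < δ → δ ≤ 1 → R₁ ≤ R₀ → 0 ≤ Ξ → ∃ ρ₀ : ℝ, ∀ K : Cfg B δ R₀ Ξ, ρ₀ ≤ K.ρ →
    ∀ U : Fld ι, IsMinz K U → ∀ r : ℝ, R₀ / 2 ≤ r → r ≤ R₀ - 2 → ∃ ξ : ℂ, ‖ξ‖ ≤ Ξ ∧
    (∫ x in {x : ℂ | r < ‖x‖ ∧ ‖x‖ < R₀}, (1 / 2 * gP B.S (U x) + WW B.S (SS K.F (x - ξ)) (U x).1))
      + (∫ x in {x : ℂ | R₀ < ‖x‖}, outD B δ K.ρ x (SS K.F (x - ξ)) (U x))
      + K.ρ ^ 2 * ∑ i ∈ modes B.S, ell K.ρ i ξ U ^ 2
      ≤ C * ∫ x in {x : ℂ | r < ‖x‖ ∧ ‖x‖ < r + 1}, (gsq (U x) + ‖(U x).1‖ ^ 2 + aa B.S (U x).1) := by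
  obtain ⟨Rv, hRv1, -, hRv⟩ := v0_supp B
  obtain ⟨Cg, hCg, hgrad⟩ := cutr_grad
  obtain ⟨Ca, hCa, hsc⟩ := aa_scale B.S
  obtain ⟨C6, hC6, h6⟩ := phi_c_bound B
  refine ⟨1 + 2 * Cg ^ 2 + Ca, by positivity, max 10 (2 * Rv), le_max_left _ _, ?_⟩
  intro δ R₀ Ξ hδ hδ1 hR₀ hΞ
  have hR10 : 10 ≤ R₀ := (le_max_left _ _).trans hR₀
  have hR1 : 1 ≤ R₀ := by linarith
  have hR2 : 2 * Rv ≤ R₀ := (le_max_right _ _).trans hR₀
  obtain ⟨ρa, ha⟩ := PhiJ_split B δ R₀ Ξ hδ hδ1 hR1 hΞ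
  obtain ⟨ρb, hb⟩ := exists_max B δ R₀ Ξ hδ hδ1 hR1 hΞ
  obtain ⟨ρc, hc⟩ := h6 δ R₀ Ξ hδ hδ1 hR1 hΞ
  refine ⟨max (max ρa ρb) (max ρc (2 * R₀ + Ξ + 1)), ?_⟩
  intro K hK U hU r hr1 hr2
  have hρa : ρa ≤ K.ρ := ((le_max_left _ _).trans (le_max_left _ _)).trans hK
  have hρb : ρb ≤ K.ρ := ((le_max_right _ _).trans (le_max_left _ _)).trans hK
  have hρc : ρc ≤ K.ρ := ((le_max_left _ _).trans (le_max_right _ _)).trans hK
  have hρd : 2 * R₀ + Ξ + 1 ≤ K.ρ := ((le_max_right _ _).trans (le_max_right _ _)).trans hK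
  have hr0 : 1 ≤ r := by linarith
  have hrRv : Rv ≤ r := by linarith
  obtain ⟨hsm, -, hcs, h01, -, -, -, -⟩ := cutr_props r hr0
  set V : Fld ι := mulF (cutr r) U with hV
  have hVS : IsSob V := isSob_mulF hsm hcs hU.1
  have hVin : ∀ x, ‖x‖ ≤ r → V x = U x := by
    intro x hx
    rw [hV]
    unfold mulF
    rw [p12b_one hx, p12b_fderiv_in hx]
    simp
  have hVout : ∀ x, r + 1 ≤ ‖x‖ → V x = 0 := by
    intro x hx
    rw [hV]
    unfold mulF
    rw [p12b_zero hx, p12b_fderiv_out hx]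
    simp
  obtain ⟨c', ξ, hmaxV⟩ := hb K hρb V hVS
  obtain ⟨ĉ, ξ', hmaxU⟩ := hb K hρb U hU.1
  have hξ : ‖ξ‖ ≤ Ξ := hmaxV.1
  refine ⟨ξ, hξ, ?_⟩
  -- the chain of inequalities
  have e1 : Phi K U 0 ξ ≤ Phi K U ĉ ξ' := hmaxU.2 0 ξ hξ
  have e2 : Phi K U ĉ ξ' ≤ Phi K V c' ξ := hU.2 V hVS ĉ ξ' hmaxU c' ξ hmaxV
  have hNII : NII K.ρ (0.9 * K.ρ) V = 0 := by
    unfold NII
    apply setIntegral_eq_zero_of_forall_eq_zero
    intro x hx
    have hx' : 0.9 * K.ρ ≤ ‖x‖ := hx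
    rw [hVout x (by linarith)]
    simp [gsq]
  have e3 : Phi K V c' ξ ≤ Phi K V 0 ξ := by
    have := hc K hρc V hVS c' ξ hξ
    rw [hNII, Real.sqrt_zero, mul_zero, zero_mul, add_zero] at this
    have h7 : 0 ≤ 1 / 4 * B.c₀ * ∑ i, c' i ^ 2 := by
      have := B.hc₀
      have h8 : 0 ≤ ∑ i, c' i ^ 2 := Finset.sum_nonneg fun i _ => sq_nonneg _
      positivity
    linarith
  have e4 : Phi K U 0 ξ ≤ Phi K V 0 ξ := e1.trans (e2.trans e3)
  -- splitting
  obtain ⟨iU1, iU2, sU⟩ := ha K hρa U hU.1 0 ξ hξ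
  obtain ⟨iV1, iV2, sV⟩ := ha K hρa V hVS 0 ξ hξ
  rw [p12b_GG_zero] at iU2 sU iV2 sV
  have hell : ∀ i, ell K.ρ i ξ V = 0 := by
    intro i
    unfold ell
    apply integral_eq_zero_of_ae
    apply Filter.Eventually.of_forall
    intro x
    change om (‖x - ξ‖ - K.ρ) * trig i.2.1 i.2.2 (x - ξ) * (V x).1 i.1 = 0
    rcases le_or_gt (r + 1) ‖x‖ with h | h
    · rw [hVout x h]; simp
    · have h1 : ‖x - ξ‖ ≤ ‖x‖ + ‖ξ‖ := norm_sub_le _ _
      have h2 : ‖x - ξ‖ - K.ρ ≤ -1 := by linarith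
      have h3 : om (‖x - ξ‖ - K.ρ) = 0 := by
        unfold om
        apply Real.smoothTransition.zero_of_nonpos
        nlinarith
      rw [h3]; ring
  have hO : ∫ x in {x : ℂ | R₀ < ‖x‖}, outD B δ K.ρ x (SS K.F (x - ξ)) (V x) = 0 := by
    apply setIntegral_eq_zero_of_forall_eq_zero
    intro x hx
    have hx' : R₀ < ‖x‖ := hx
    exact p12b_outD_zero B x _ _ (hVout x (by linarith))
  have hP : ∫ x, pP B.S (g0 B x) (V x).1 = ∫ x, pP B.S (g0 B x) (U x).1 := by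
    congr 1
    funext x
    rcases le_or_gt ‖x‖ r with h | h
    · rw [hVin x h]
    · rw [(hRv x (by linarith)).2]
      simp [pP]
  -- the inner integrals
  have hset : {x : ℂ | ‖x‖ < R₀} = {x : ℂ | ‖x‖ ≤ r} ∪ {x : ℂ | r < ‖x‖ ∧ ‖x‖ < R₀} := by
    ext x
    simp only [Set.mem_ofPred_eq, Set.mem_union]
    constructor
    · intro h
      rcases le_or_gt ‖x‖ r with h' | h'
      · exact Or.inl h'
      · exact Or.inr ⟨h', h⟩
    · rintro (h | h)
      · linarith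
      · exact h.2
  have hdisj : Disjoint {x : ℂ | ‖x‖ ≤ r} {x : ℂ | r < ‖x‖ ∧ ‖x‖ < R₀} := by
    rw [Set.disjoint_left]
    intro x h1 h2
    have h1' : ‖x‖ ≤ r := h1
    exact absurd h2.1 (not_lt.2 h1')
  have hmA : MeasurableSet {x : ℂ | r < ‖x‖ ∧ ‖x‖ < R₀} :=
    ((isOpen_lt continuous_const continuous_norm).inter
      (isOpen_lt continuous_norm continuous_const)).measurableSet
  have hmI : MeasurableSet {x : ℂ | ‖x‖ ≤ r} :=
    (isClosed_le continuous_norm continuous_const).measurableSet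
  have hmB : MeasurableSet {x : ℂ | r < ‖x‖ ∧ ‖x‖ < r + 1} :=
    ((isOpen_lt continuous_const continuous_norm).inter
      (isOpen_lt continuous_norm continuous_const)).measurableSet
  have hsplit : ∀ f : ℂ → ℝ, IntegrableOn f {x : ℂ | ‖x‖ < R₀} volume →
      ∫ x in {x : ℂ | ‖x‖ < R₀}, f x = (∫ x in {x : ℂ | ‖x‖ ≤ r}, f x) +
        ∫ x in {x : ℂ | r < ‖x‖ ∧ ‖x‖ < R₀}, f x := by
    intro f hf
    rw [hset] at hf ⊢
    exact setIntegral_union hdisj hmA (hf.mono_set Set.subset_union_left)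
      (hf.mono_set Set.subset_union_right)
  have hIeq : ∫ x in {x : ℂ | ‖x‖ ≤ r}, inD B x (SS K.F (x - ξ)) (V x) =
      ∫ x in {x : ℂ | ‖x‖ ≤ r}, inD B x (SS K.F (x - ξ)) (U x) := by
    apply setIntegral_congr_fun hmI
    intro x hx
    simp only
    rw [hVin x hx]
  -- the bound for the competitor
  set g : ℂ → ℝ := fun x => gsq (U x) + ‖(U x).1‖ ^ 2 + aa B.S (U x).1 with hg
  have hgi : IntegrableOn g {x : ℂ | r < ‖x‖ ∧ ‖x‖ < r + 1} volume := by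
    rw [hg]
    apply Integrable.add
    · exact IsSob.integrableOn_ann hU.1 r (r + 1)
    · refine (p12b_aa_int B.S hU.1 (r + 1)).mono_set ?_
      intro x hx
      simpa using hx.2
  have hgn : ∀ x, 0 ≤ g x := by
    intro x
    have := aa_nonneg B.S (U x).1
    simp only [hg, gsq]
    positivity
  have hbound : ∀ x, r < ‖x‖ → ‖x‖ < r + 1 →
      inD B x (SS K.F (x - ξ)) (V x) ≤ (1 + 2 * Cg ^ 2 + Ca) * g x := by
    intro x hx1 hx2
    unfold inD
    rw [(hRv x (by linarith)).1, zero_add]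
    have h1 := gP_le B.S (V x)
    have h2 := (gsq_mulF (cutr r) U x).2
    rw [← hV] at h2
    have h3 := WW_upper B.S (SS K.F (x - ξ)) (SS_neg K.wall _).le (V x).1
    have h4 := hsc (U x).1 (cutr r x) (h01 x).1 (h01 x).2
    have h5 : (V x).1 = cutr r x • (U x).1 := by rw [hV]; rfl
    rw [← h5] at h4
    have h7 : cutr r x ^ 2 ≤ 1 := pow_le_one₀ (h01 x).1 (h01 x).2
    have h8 : fderiv ℝ (cutr r) x 1 ^ 2 ≤ Cg ^ 2 := by
      rw [← sq_abs]
      apply pow_le_pow_left₀ (abs_nonneg _)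
      have := (fderiv ℝ (cutr r) x).le_opNorm 1
      rw [norm_one, mul_one, Real.norm_eq_abs] at this
      exact this.trans (hgrad r hr0 x)
    have h9 : fderiv ℝ (cutr r) x Complex.I ^ 2 ≤ Cg ^ 2 := by
      rw [← sq_abs]
      apply pow_le_pow_left₀ (abs_nonneg _)
      have := (fderiv ℝ (cutr r) x).le_opNorm Complex.I
      rw [Complex.norm_I, mul_one, Real.norm_eq_abs] at this
      exact this.trans (hgrad r hr0 x)
    have h10 : 0 ≤ gsq (U x) := by unfold gsq; positivity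
    have h11 : 0 ≤ ‖(U x).1‖ ^ 2 := by positivity
    have h12 := aa_nonneg B.S (U x).1
    have h13 : cutr r x ^ 2 * gsq (U x) ≤ gsq (U x) := mul_le_of_le_one_left h10 h7
    have h14 : (fderiv ℝ (cutr r) x 1 ^ 2 + fderiv ℝ (cutr r) x Complex.I ^ 2) * ‖(U x).1‖ ^ 2 ≤
        (Cg ^ 2 + Cg ^ 2) * ‖(U x).1‖ ^ 2 := mul_le_mul_of_nonneg_right (by linarith) h11
    have h15 : 1 / 2 * gP B.S (V x) + WW B.S (SS K.F (x - ξ)) (V x).1 ≤
        gsq (U x) + 2 * Cg ^ 2 * ‖(U x).1‖ ^ 2 + 1 / 2 * Ca * aa B.S (U x).1 := by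
      linarith only [h1, h2, h3, h4, h13, h14, h10, h11, h12]
    refine h15.trans ?_
    simp only [hg]
    have h16 : 0 ≤ Cg ^ 2 * gsq (U x) := by positivity
    have h17 : 0 ≤ Ca * gsq (U x) := by positivity
    have h18 : 0 ≤ Ca * ‖(U x).1‖ ^ 2 := by positivity
    have h19 : 0 ≤ Cg ^ 2 * aa B.S (U x).1 := by positivity
    have h20 : 0 ≤ Ca * aa B.S (U x).1 := by positivity
    linarith only [h10, h11, h12, h16, h17, h18, h19, h20]
  have hVle : ∫ x in {x : ℂ | r < ‖x‖ ∧ ‖x‖ < R₀}, inD B x (SS K.F (x - ξ)) (V x) ≤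
      (1 + 2 * Cg ^ 2 + Ca) * ∫ x in {x : ℂ | r < ‖x‖ ∧ ‖x‖ < r + 1}, g x := by
    have hsub : {x : ℂ | r < ‖x‖ ∧ ‖x‖ < r + 1} ⊆ {x : ℂ | r < ‖x‖ ∧ ‖x‖ < R₀} := by
      intro x hx
      exact ⟨hx.1, by have := hx.2; linarith⟩
    have h1 : ∫ x in {x : ℂ | r < ‖x‖ ∧ ‖x‖ < R₀},
        ({x : ℂ | r < ‖x‖ ∧ ‖x‖ < r + 1}.indicator (fun x => (1 + 2 * Cg ^ 2 + Ca) * g x)) x =
        (1 + 2 * Cg ^ 2 + Ca) * ∫ x in {x : ℂ | r < ‖x‖ ∧ ‖x‖ < r + 1}, g x := by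
      rw [setIntegral_indicator hmB, Set.inter_eq_right.2 hsub, integral_const_mul]
    rw [← h1]
    apply setIntegral_mono_on
    · rw [hset] at iV1
      exact iV1.mono_set Set.subset_union_right
    · apply Integrable.integrableOn
      rw [integrable_indicator_iff hmB]
      exact hgi.const_mul _
    · exact hmA
    · intro x hx
      rcases lt_or_ge ‖x‖ (r + 1) with h | h
      · rw [Set.indicator_of_mem (show x ∈ {x : ℂ | r < ‖x‖ ∧ ‖x‖ < r + 1} from ⟨hx.1, h⟩)]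
        exact hbound x hx.1 h
      · rw [Set.indicator_of_notMem (fun h' => absurd h'.2 (not_lt.2 h))]
        rw [p12b_inD_zero B x _ _ (hVout x h) (hRv x (by linarith)).1]
  have hUeq : ∫ x in {x : ℂ | r < ‖x‖ ∧ ‖x‖ < R₀}, inD B x (SS K.F (x - ξ)) (U x) =
      ∫ x in {x : ℂ | r < ‖x‖ ∧ ‖x‖ < R₀},
        (1 / 2 * gP B.S (U x) + WW B.S (SS K.F (x - ξ)) (U x).1) := by
    apply setIntegral_congr_fun hmA
    intro x hx
    have h1 : r < ‖x‖ := hx.1
    simp only [inD]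
    rw [(hRv x (by linarith)).1, zero_add]
  unfold Phi at e4
  rw [sU, sV, hP, hO, hsplit _ iU1, hsplit _ iV1, hIeq, hUeq] at e4
  simp only [hell] at e4
  have h7 : K.ρ ^ 2 * ∑ i ∈ modes B.S, (0 : ℝ) ^ 2 = 0 := by simp
  rw [h7] at e4
  linarith

end Pool.MP_ad5d82_an.Wl
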