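import Pool.Agent.Lib.MP_ad5d82_an.h24.PDefs
import Pool.Agent.Lib.MP_ad5d82_an.h24.H.H4
import Pool.Agent.Lib.MP_ad5d82_an.h24.H.H6
import Pool.Agent.Lib.MP_ad5d82_an.h24.H.H7
import Pool.Agent.Lib.MP_ad5d82_an.h24.F.F1
import Pool.Agent.Lib.MP_ad5d82_an.h24.F.F2
import Pool.Agent.Lib.MP_ad5d82_an.h24.P.P0
import Pool.Agent.Lib.MP_ad5d82_an.h24.P.P3
import Pool.Agent.Lib.MP_ad5d82_an.h24.P.P6
import Pool.Agent.Lib.MP_ad5d82_an.h24.P.P7
import Pool.Agent.Lib.MP_ad5d82_an.h24.P.P8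
import Pool.Agent.Lib.MP_ad5d82_an.h24.P.P8b
import Pool.Agent.Lib.MP_ad5d82_an.h24.P.P12a
import Pool.Agent.Lib.MP_ad5d82_an.h24.P.P12b

set_option autoImplicit false

namespace Pool.MP_ad5d82_an.Wl

open Real Set MeasureTheory Filter Topology
open scoped ContDiff

variable {ι : Type} [Fintype ι] [DecidableEq ι]

variable {B : Base ι} {δ R₀ Ξ : ℝ}

/-- open annulus. -/
private def An (a b : ℝ) : Set ℂ := {x : ℂ | a < ‖x‖ ∧ ‖x‖ < b}

private lemma An_meas (a b : ℝ) : MeasurableSet (An a b) :=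
  ((isOpen_lt continuous_const continuous_norm).inter
      (isOpen_lt continuous_norm continuous_const)).measurableSet

private lemma An_mono {a b a' b' : ℝ} (ha : a ≤ a') (hb : b' ≤ b) : An a' b' ⊆ An a b := by
  intro x hx
  exact ⟨lt_of_le_of_lt ha hx.1, lt_of_lt_of_le hx.2 hb⟩

private lemma An_ball {b : ℝ} : {x : ℂ | ‖x‖ < b} = An (-1) b := by
  ext x
  constructor
  · intro h
    exact ⟨by have := norm_nonneg x; linarith, h⟩
  · intro h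
    exact h.2

private lemma An_split {f : ℂ → ℝ} {a b c : ℝ} (hac : a ≤ c) (hcb : c ≤ b)
    (hf : IntegrableOn f (An a b) volume) :
    ∫ x in An a b, f x = (∫ x in An a c, f x) + ∫ x in An c b, f x := by
  have h1 : (An a c ∪ An c b : Set ℂ) =ᵐ[volume] An a b := by
    have h0 : ∀ᵐ x : ℂ, ‖x‖ ≠ c := by
      have := Measure.addHaar_sphere (volume : Measure ℂ) 0 c
      rw [← compl_compl (Metric.sphere (0 : ℂ) c)] at this
      have h2 : (Metric.sphere (0 : ℂ) c)ᶜ ∈ ae (volume : Measure ℂ) := this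
      filter_upwards [h2] with x hx
      simpa using hx
    filter_upwards [h0] with x hx
    apply propext
    constructor
    · rintro (h | h)
      · exact ⟨h.1, lt_of_lt_of_le h.2 hcb⟩
      · exact ⟨lt_of_le_of_lt hac h.1, h.2⟩
    · intro h
      rcases lt_or_gt_of_ne hx with h' | h'
      · exact Or.inl ⟨h.1, h'⟩
      · exact Or.inr ⟨h', h.2⟩
  rw [← setIntegral_congr_set h1]
  apply setIntegral_union
  · rw [Set.disjoint_left]
    intro x h2 h3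
    exact absurd h3.1 (not_lt.2 h2.2.le)
  · exact An_meas _ _
  · exact hf.mono_set (An_mono le_rfl hcb)
  · exact hf.mono_set (An_mono hac le_rfl)

private lemma int_ball {f : ℂ → ℝ} {R : ℝ} (h : IntegrableOn f (Metric.ball 0 R) volume) {a b : ℝ}
    (hb : b ≤ R) : IntegrableOn f (An a b) volume := by
  refine h.mono_set ?_
  intro x hx
  rw [mem_ball_zero_iff]
  exact lt_of_lt_of_le hx.2 hb

private lemma p12_log {R : ℝ} (hR : 1 ≤ R) : 1 + Real.log R ≤ 2 * Real.sqrt R := by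
  have h0 : 0 < R := by linarith
  have h1 : 0 < Real.sqrt R := Real.sqrt_pos.2 h0
  have h2 := Real.log_le_sub_one_of_pos h1
  have h3 : Real.log R = 2 * Real.log (Real.sqrt R) := by
    rw [Real.log_sqrt h0.le]; ring
  rw [h3]
  linarith

private lemma p12_log' {R η : ℝ} (hη : 0 < η) (hR : 1 ≤ R) (hR2 : 4 / η ^ 2 ≤ R) :
    (1 + Real.log R) / R ≤ η := by
  have h0 : 0 < R := by linarith
  have h1 : 0 < Real.sqrt R := Real.sqrt_pos.2 h0
  have h2 := p12_log hR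
  have h3 : 2 / η ≤ Real.sqrt R := by
    apply Real.le_sqrt_of_sq_le
    rw [div_pow]
    calc (2 : ℝ) ^ 2 / η ^ 2 = 4 / η ^ 2 := by norm_num
      _ ≤ R := hR2
  rw [div_le_iff₀ h0]
  rw [div_le_iff₀ hη] at h3
  have h4 : Real.sqrt R * Real.sqrt R = R := Real.mul_self_sqrt h0.le
  calc 1 + Real.log R ≤ 2 * Real.sqrt R := h2
    _ ≤ (Real.sqrt R * η) * Real.sqrt R := mul_le_mul_of_nonneg_right h3 h1.le
    _ = η * (Real.sqrt R * Real.sqrt R) := by ring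
    _ = η * R := by rw [h4]

/-- energy bound of a minimiser. -/
private lemma p12_energy (B : Base ι) : ∃ δ₁ : ℝ, 0 < δ₁ ∧ δ₁ ≤ 1 ∧ ∃ C R₁ : ℝ, 0 ≤ C ∧ 1 ≤ R₁ ∧
    ∀ δ R₀ Ξ : ℝ, 0 < δ → δ ≤ δ₁ → R₁ ≤ R₀ → 0 ≤ Ξ → ∃ ρ₀ : ℝ, ∀ K : Cfg B δ R₀ Ξ, ρ₀ ≤ K.ρ →
    ∀ U : Fld ι, IsMinz K U →
    NC B R₀ U + NI R₀ (0.9 * K.ρ) U + (K.ρ ^ 3)⁻¹ * NII K.ρ (0.9 * K.ρ) U
      ≤ C * (1 + Real.log R₀) := by
  obtain ⟨δ₁, hδ₁, hδ₁', Ca, ca, hca, Ra, hRa, hlow⟩ := phi_lower B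
  obtain ⟨Cu, hup⟩ := phi_upper B
  refine ⟨δ₁, hδ₁, hδ₁', (|Ca| + |Cu|) / ca, Ra, by positivity, hRa, ?_⟩
  intro δ R₀ Ξ hδ hδ1 hR hΞ
  have hR1 : 1 ≤ R₀ := hRa.trans hR
  obtain ⟨ρa, ha⟩ := hlow δ R₀ Ξ hδ hδ1 hR hΞ
  obtain ⟨ρb, hb⟩ := hup δ R₀ Ξ hδ (hδ1.trans hδ₁') hR1 hΞ
  obtain ⟨ρc, hc⟩ := exists_max B δ R₀ Ξ hδ (hδ1.trans hδ₁') hR1 hΞ
  refine ⟨max ρa (max ρb ρc), ?_⟩
  intro K hK U hU
  have hρa : ρa ≤ K.ρ := (le_max_left _ _).trans hK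
  have hρb : ρb ≤ K.ρ := ((le_max_left _ _).trans (le_max_right _ _)).trans hK
  have hρc : ρc ≤ K.ρ := ((le_max_right _ _).trans (le_max_right _ _)).trans hK
  obtain ⟨c₁, ξ₁, hm1⟩ := hc K hρc U hU.1
  obtain ⟨c₂, ξ₂, hm2⟩ := hc K hρc 0 IsSob.zero
  have h0 : ‖(0 : ℂ)‖ ≤ Ξ := by simpa using hΞ
  have e1 := ha K hρa U hU.1 0 h0
  have e2 : Phi K U 0 0 ≤ Phi K U c₁ ξ₁ := hm1.2 0 0 h0
  have e3 : Phi K U c₁ ξ₁ ≤ Phi K 0 c₂ ξ₂ := hU.2 0 IsSob.zero c₁ ξ₁ hm1 c₂ ξ₂ hm2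
  have e4 := hb K hρb c₂ ξ₂ hm2.1
  set X := NC B R₀ U + NI R₀ (0.9 * K.ρ) U + (K.ρ ^ 3)⁻¹ * NII K.ρ (0.9 * K.ρ) U
  have hE : 1 ≤ 1 + Real.log R₀ := by
    have := Real.log_nonneg hR1
    linarith
  have e5 : ca * X ≤ |Ca| * (1 + Real.log R₀) + |Cu| * (1 + Real.log R₀) := by
    have h1 : Ca * (1 + Real.log R₀) ≤ |Ca| * (1 + Real.log R₀) :=
      mul_le_mul_of_nonneg_right (le_abs_self _) (by linarith)
    have h2 : Cu ≤ |Cu| * (1 + Real.log R₀) :=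
      (le_abs_self _).trans (le_mul_of_one_le_right (abs_nonneg _) hE)
    linarith
  rw [div_mul_eq_mul_div, le_div_iff₀ hca]
  linarith

/-- lower bound of the outer part. -/
private lemma p12_out (B : Base ι) : ∃ δ₁ : ℝ, 0 < δ₁ ∧ δ₁ ≤ 1 ∧ ∃ c : ℝ, 0 < c ∧
    ∀ δ R₀ Ξ : ℝ, 0 < δ → δ ≤ δ₁ → 1 ≤ R₀ → 0 ≤ Ξ → ∃ ρ₀ : ℝ, ∀ K : Cfg B δ R₀ Ξ, ρ₀ ≤ K.ρ →
    ∀ U : Fld ι, IsSob U → ∀ ξ : ℂ, ‖ξ‖ ≤ Ξ →
    c * (NI R₀ (0.9 * K.ρ) U + (K.ρ ^ 3)⁻¹ * NII K.ρ (0.9 * K.ρ) U) ≤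
      (∫ x in {x : ℂ | R₀ < ‖x‖}, outD B δ K.ρ x (SS K.F (x - ξ)) (U x))
      + K.ρ ^ 2 * ∑ i ∈ modes B.S, ell K.ρ i ξ U ^ 2 := by
  obtain ⟨CR, hCR, hpot⟩ := pot_out B.S
  obtain ⟨co, hco, hout⟩ := out_lower B.S
  refine ⟨min 1 (0.42 / CR), lt_min one_pos (by positivity), min_le_left _ _, co, hco, ?_⟩
  intro δ R₀ Ξ hδ hδ1 hR hΞ
  have hδ' : δ ≤ 1 := hδ1.trans (min_le_left _ _)
  have hδ2 : CR * δ ≤ 0.42 := by
    have := hδ1.trans (min_le_right _ _)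
    rw [le_div_iff₀ hCR] at this
    linarith
  obtain ⟨ρa, ha⟩ := hpot δ Ξ hδ hδ' hΞ
  obtain ⟨ρb, hb⟩ := hout R₀ Ξ hR hΞ
  obtain ⟨ρc, hc⟩ := out_integrable B.S Ξ hΞ
  obtain ⟨ρd, hd⟩ := PhiJ_split B δ R₀ Ξ hδ hδ' hR hΞ
  refine ⟨max (max ρa ρb) (max ρc (max ρd 3)), ?_⟩
  intro K hK U hU ξ hξ
  have hρa : ρa ≤ K.ρ := ((le_max_left _ _).trans (le_max_left _ _)).trans hK
  have hρb : ρb ≤ K.ρ := ((le_max_right _ _).trans (le_max_left _ _)).trans hK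
  have hρc : ρc ≤ K.ρ := ((le_max_left _ _).trans (le_max_right _ _)).trans hK
  have hρd : ρd ≤ K.ρ :=
    (((le_max_left _ _).trans (le_max_right _ _)).trans (le_max_right _ _)).trans hK
  have hρ3 : 3 ≤ K.ρ :=
    (((le_max_right _ _).trans (le_max_right _ _)).trans (le_max_right _ _)).trans hK
  set W : ℂ → ℝ := fun x => RT B.S (tau δ K.ρ x) (SS K.F (x - ξ)) (U x).1 with hW
  have hWb : ∀ x, |W x| ≤ LL CR δ K.ρ x * ‖(U x).1‖ ^ 2 := fun x =>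
    (ha K.ρ K.ε K.F K.wall hρa ξ hξ x (U x).1 0).1
  have hWi : IntegrableOn W {x : ℂ | R₀ < ‖x‖} volume := by
    have h1 := (hd K hρd U hU 0 ξ hξ).2.1
    rw [p12b_GG_zero] at h1
    have h2 := ((hc K.ρ K.ε K.F K.wall hρc U hU ξ hξ).integrableOn
      (s := {x : ℂ | R₀ < ‖x‖})).const_mul (1 / 2)
    refine (h1.sub h2).congr ?_
    apply Filter.Eventually.of_forall
    intro x
    simp only [outD, hW, Pi.sub_apply]
    ring
  have hw1 : ∀ r : ℝ, wgt K.ρ r ≤ 1 := fun r => min_le_left _ _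
  have hw0 : ∀ r : ℝ, 0 ≤ wgt K.ρ r := fun r => le_min zero_le_one (by positivity)
  have h1 : ∀ x : ℂ, R₀ ≤ ‖x‖ → ‖x‖ < 0.9 * K.ρ → -(0.42 * ‖(U x).1‖ ^ 2) ≤ W x := by
    intro x _ _
    have h2 : LL CR δ K.ρ x ≤ 0.42 := by
      unfold LL
      split_ifs
      · exact hδ2
      · have h3 : (K.ρ ^ 5)⁻¹ ≤ 0.42 := by
          have h4 : (3 : ℝ) ^ 5 ≤ K.ρ ^ 5 := pow_le_pow_left₀ (by norm_num) hρ3 5
          calc (K.ρ ^ 5)⁻¹ ≤ ((3 : ℝ) ^ 5)⁻¹ := inv_anti₀ (by norm_num) h4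
            _ ≤ 0.42 := by norm_num
        have h5 : 0 ≤ (K.ρ ^ 5)⁻¹ := by positivity
        calc (K.ρ ^ 5)⁻¹ * wgt K.ρ ‖x‖ ≤ (K.ρ ^ 5)⁻¹ * 1 :=
              mul_le_mul_of_nonneg_left (hw1 _) h5
          _ ≤ 0.42 := by rw [mul_one]; exact h3
    have h6 := (abs_le.1 (hWb x)).1
    have h7 : LL CR δ K.ρ x * ‖(U x).1‖ ^ 2 ≤ 0.42 * ‖(U x).1‖ ^ 2 :=
      mul_le_mul_of_nonneg_right h2 (by positivity)
    linarith only [h6, h7]
  have h2 : ∀ x : ℂ, 0.9 * K.ρ ≤ ‖x‖ →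
      -((K.ρ ^ 4)⁻¹ * (wgt K.ρ ‖x‖ * ‖(U x).1‖ ^ 2)) ≤ W x := by
    intro x hx
    have h3 : LL CR δ K.ρ x ≤ (K.ρ ^ 4)⁻¹ * wgt K.ρ ‖x‖ := by
      unfold LL
      rw [if_neg (by linarith)]
      apply mul_le_mul_of_nonneg_right _ (hw0 _)
      apply inv_anti₀ (by positivity)
      exact pow_le_pow_right₀ (by linarith) (by norm_num)
    have h6 := (abs_le.1 (hWb x)).1
    have h7 : LL CR δ K.ρ x * ‖(U x).1‖ ^ 2 ≤ (K.ρ ^ 4)⁻¹ * wgt K.ρ ‖x‖ * ‖(U x).1‖ ^ 2 :=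
      mul_le_mul_of_nonneg_right h3 (by positivity)
    linarith
  have h3 := hb K.ρ K.ε K.F K.wall hρb U hU ξ hξ W hWi h1 h2
  refine h3.trans ?_
  have h4 : ∫ x in {x : ℂ | R₀ < ‖x‖},
      (1 / 2 * (gP B.S (U x) + qV B.S (SS K.F (x - ξ)) (U x).1) + W x) =
      ∫ x in {x : ℂ | R₀ < ‖x‖}, outD B δ K.ρ x (SS K.F (x - ξ)) (U x) := rfl
  rw [h4]
  have h5 : 0 ≤ ∑ i ∈ modes B.S, ell K.ρ i ξ U ^ 2 := Finset.sum_nonneg fun i _ => sq_nonneg _
  have h6 : 1 / 2 * K.ρ ^ 2 * ∑ i ∈ modes B.S, ell K.ρ i ξ U ^ 2 ≤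
      K.ρ ^ 2 * ∑ i ∈ modes B.S, ell K.ρ i ξ U ^ 2 := by
    have : 0 ≤ K.ρ ^ 2 * ∑ i ∈ modes B.S, ell K.ρ i ξ U ^ 2 := by (clear * - hρ3; positivity)
    linarith only [this]
  linarith only [h6]

/-- lower bound of the inner part. -/
private lemma p12_in (B : Base ι) (K1 : ℝ) (hK1 : 0 ≤ K1) : ∃ c R₁ : ℝ, 0 < c ∧ 1 ≤ R₁ ∧
    ∀ δ R₀ Ξ : ℝ, 0 < δ → δ ≤ 1 → R₁ ≤ R₀ → 0 ≤ Ξ → ∃ ρ₀ : ℝ, ∀ K : Cfg B δ R₀ Ξ, ρ₀ ≤ K.ρ →
    ∀ U : Fld ι, IsSob U → NC B R₀ U + NI R₀ (0.9 * K.ρ) U ≤ K1 * (1 + Real.log R₀) →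
    ∀ r : ℝ, R₀ / 2 ≤ r → r ≤ R₀ → ∀ ξ : ℂ, ‖ξ‖ ≤ Ξ →
    c * (∫ x in An r R₀, (gsq (U x) + aa B.S (U x).1)) - 1 / R₀ ≤
      ∫ x in An r R₀, (1 / 2 * gP B.S (U x) + WW B.S (SS K.F (x - ξ)) (U x).1) := by
  obtain ⟨Rv, hRv1, -, hRv⟩ := v0_supp B
  obtain ⟨cg, hcg, hgP⟩ := gP_ge B.S
  obtain ⟨Cn, hCn, hngs⟩ := ngs_le B.S
  refine ⟨min (cg / 2) 0.35, 2 * Rv, lt_min (by positivity) (by norm_num), by linarith, ?_⟩
  intro δ R₀ Ξ hδ hδ1 hR hΞ
  have hR1 : 1 ≤ R₀ := by linarith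
  have hR0 : 0 < R₀ := by linarith
  obtain ⟨CL, hCL⟩ := log_in (ι := ι) R₀ hR0
  obtain ⟨ρa, ha⟩ := PhiJ_split B δ R₀ Ξ hδ hδ1 hR1 hΞ
  obtain ⟨ρb, hb⟩ := SS_near_one Ξ
  set E : ℝ := 1 + Real.log R₀ with hE
  have hE1 : 1 ≤ E := by
    have := Real.log_nonneg hR1
    linarith
  set D : ℝ := 2 * R₀ * Real.sqrt (|CL| * E * (K1 * E)) with hD
  have hD0 : 0 ≤ D := by positivity
  set Q : ℝ := Cn * exp (R₀ + Ξ) * D * R₀ with hQ
  have hQ0 : 0 ≤ Q := by (clear * - hCn hR1; positivity)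
  refine ⟨max (max ρa ρb) (max (2 * R₀) (16 + 2.5 * (Q + 1))), ?_⟩
  intro K hK U hU hEn r hr1 hr2 ξ hξ
  have hρa : ρa ≤ K.ρ := ((le_max_left _ _).trans (le_max_left _ _)).trans hK
  have hρb : ρb ≤ K.ρ := ((le_max_right _ _).trans (le_max_left _ _)).trans hK
  have hρc : 2 * R₀ ≤ K.ρ := ((le_max_left _ _).trans (le_max_right _ _)).trans hK
  have hρd : 16 + 2.5 * (Q + 1) ≤ K.ρ := ((le_max_right _ _).trans (le_max_right _ _)).trans hK
  have hρR : R₀ + 1 ≤ 0.9 * K.ρ := by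
    have := K.wall.hρ
    linarith only [hρc, this]
  have hrRv : Rv ≤ r := by linarith only [hR, hr1]
  have hε := K.wall.hε
  -- the smallness of `ε`
  have hεQ : K.ε * Q ≤ 1 := by
    have h1 := eps_le K.wall
    have h2 := Real.add_one_le_exp (0.4 * (K.ρ - 16))
    have h3 : exp (-0.4 * (K.ρ - 16)) * exp (0.4 * (K.ρ - 16)) = 1 := by
      rw [← exp_add]
      rw [show -0.4 * (K.ρ - 16) + 0.4 * (K.ρ - 16) = 0 by ring, exp_zero]
    have h4 : Q ≤ exp (0.4 * (K.ρ - 16)) := by linarith only [h2, hρd]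
    calc K.ε * Q ≤ exp (-0.4 * (K.ρ - 16)) * exp (0.4 * (K.ρ - 16)) :=
          mul_le_mul h1 h4 hQ0 (exp_pos _).le
      _ = 1 := h3
  have hsqi : ∀ a b : ℝ, IntegrableOn (fun x => ‖(U x).1‖ ^ 2) (An a b) volume := by
    intro a b
    exact int_ball (IsSob.integrableOn_sq hU b) le_rfl
  have hgi : ∀ s : Set ℂ, IntegrableOn (fun x => gsq (U x)) s volume := fun s =>
    (IsSob.integrable_gsq hU).integrableOn
  have hgsq : ∀ x, 0 ≤ gsq (U x) := fun x => by unfold gsq; (clear * -; positivity)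
  -- `L²` bound on the ball
  have hL2 : ∫ x in {x : ℂ | ‖x‖ < R₀}, ‖(U x).1‖ ^ 2 ≤ |CL| * E * (K1 * E) := by
    have h1 := hCL R₀ le_rfl hR1 U hU
    have h2 : (∫ x in {x : ℂ | ‖x‖ < R₀ + 1}, gsq (U x))
        + ∫ x in {x : ℂ | R₀ < ‖x‖ ∧ ‖x‖ < R₀ + 1}, ‖(U x).1‖ ^ 2 ≤ K1 * E := by
      have e1 : ∫ x in {x : ℂ | ‖x‖ < R₀ + 1}, gsq (U x) =
          (∫ x in {x : ℂ | ‖x‖ < R₀}, gsq (U x)) + ∫ x in An R₀ (R₀ + 1), gsq (U x) := by
        rw [An_ball, An_ball]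
        exact An_split (by linarith only [hR, hRv1]) (by linarith only []) (hgi _)
      have e2 : ∫ x in {x : ℂ | ‖x‖ < R₀}, gsq (U x) ≤ NC B R₀ U := by
        unfold NC
        apply setIntegral_mono_on (hgi _)
        · refine (hgi _).add ?_
          refine (p12b_aa_int' B hU R₀).mono_set ?_
          intro x hx
          rw [mem_ball_zero_iff]
          exact hx
        · rw [An_ball]; exact An_meas _ _
        · intro x _
          have := aa_nonneg B.S (v0 B x + (U x).1)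
          linarith only [this]
      have e3 : (∫ x in An R₀ (R₀ + 1), gsq (U x)) + ∫ x in An R₀ (R₀ + 1), ‖(U x).1‖ ^ 2 =
          NI R₀ (R₀ + 1) U := by
        unfold NI
        rw [← integral_add (hgi _) (hsqi _ _)]
        rfl
      have e4 : NI R₀ (R₀ + 1) U ≤ NI R₀ (0.9 * K.ρ) U := NI_mono hU le_rfl hρR
      have e5 : ∫ x in {x : ℂ | R₀ < ‖x‖ ∧ ‖x‖ < R₀ + 1}, ‖(U x).1‖ ^ 2 =
          ∫ x in An R₀ (R₀ + 1), ‖(U x).1‖ ^ 2 := rfl
      rw [e1, e5]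
      linarith only [e2, e3, e4, hEn]
    have h3 : 0 ≤ (∫ x in {x : ℂ | ‖x‖ < R₀ + 1}, gsq (U x))
        + ∫ x in {x : ℂ | R₀ < ‖x‖ ∧ ‖x‖ < R₀ + 1}, ‖(U x).1‖ ^ 2 := by
      apply add_nonneg
      · exact integral_nonneg fun x => hgsq x
      · exact integral_nonneg fun x => by positivity
    refine h1.trans ?_
    calc CL * (1 + Real.log R₀) * _ ≤ |CL| * (1 + Real.log R₀) * _ := by
          apply mul_le_mul_of_nonneg_right _ h3
          exact mul_le_mul_of_nonneg_right (le_abs_self _) (by linarith)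
      _ ≤ |CL| * E * (K1 * E) := by
          apply mul_le_mul_of_nonneg_left h2
          positivity
  obtain ⟨hn1, hn2⟩ := IsSob.integrableOn_norm_ball hU R₀
  have hL1 : ∫ x in An r R₀, ‖(U x).1‖ ≤ D := by
    have h1 : ∫ x in An r R₀, ‖(U x).1‖ ≤ ∫ x in {x : ℂ | ‖x‖ < R₀}, ‖(U x).1‖ := by
      apply setIntegral_mono_set hn1
      · exact Filter.Eventually.of_forall fun x => norm_nonneg _
      · rw [An_ball]
        exact (An_mono (by linarith only [hR, hRv1, hr1]) le_rfl).eventuallyLE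
    refine h1.trans (hn2.trans ?_)
    rw [hD, abs_of_pos hR0]
    exact mul_le_mul_of_nonneg_left (Real.sqrt_le_sqrt hL2) (by linarith only [hR, hRv1])
  -- pointwise
  set θ : ℝ := K.ε * exp (R₀ + Ξ) * Cn with hθ
  have hθ0 : 0 ≤ θ := by positivity
  have hpt : ∀ x ∈ An r R₀, min (cg / 2) 0.35 * (gsq (U x) + aa B.S (U x).1) - θ * ‖(U x).1‖ ≤
      1 / 2 * gP B.S (U x) + WW B.S (SS K.F (x - ξ)) (U x).1 := by
    intro x hx
    have hxR : ‖x‖ < R₀ := hx.2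
    have h1 := hgP (U x)
    have hS0 : SS K.F (x - ξ) ≤ 0 := (SS_neg K.wall _).le
    have hS1 := hb K.ρ K.ε K.F K.wall hρb ξ x hξ (by linarith only [hQ0, hxR, hρc, hρd])
    have h2 := WW_lower B.S (SS K.F (x - ξ)) (by linarith only [hS1]) hS0 (U x).1
    have h3 : (1 - exp (SS K.F (x - ξ))) * ngs B.S (U x).1 ≤ θ * ‖(U x).1‖ := by
      have h4 := Real.add_one_le_exp (SS K.F (x - ξ))
      have h5 := SS_small K.wall (x - ξ)
      have h6 : exp ‖x - ξ‖ ≤ exp (R₀ + Ξ) := by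
        apply exp_le_exp.2
        have := norm_sub_le x ξ
        linarith only [hxR, hξ, this]
      have h7 : 1 - exp (SS K.F (x - ξ)) ≤ K.ε * exp (R₀ + Ξ) := by
        have := mul_le_mul_of_nonneg_left h6 hε.le
        linarith only [h4, h5, this]
      calc (1 - exp (SS K.F (x - ξ))) * ngs B.S (U x).1
          ≤ (K.ε * exp (R₀ + Ξ)) * (Cn * ‖(U x).1‖) :=
            mul_le_mul h7 (hngs _) (ngs_nonneg _ _) (by positivity)
        _ = θ * ‖(U x).1‖ := by rw [hθ]; ring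
    have h8 : min (cg / 2) 0.35 * gsq (U x) ≤ cg / 2 * gsq (U x) :=
      mul_le_mul_of_nonneg_right (min_le_left _ _) (hgsq x)
    have h9 : min (cg / 2) 0.35 * aa B.S (U x).1 ≤ 0.35 * aa B.S (U x).1 :=
      mul_le_mul_of_nonneg_right (min_le_right _ _) (aa_nonneg _ _)
    linarith only [h1, h2, h3, h8, h9]
  have haai : IntegrableOn (fun x => aa B.S (U x).1) (An r R₀) volume :=
    int_ball (p12b_aa_int B.S hU R₀) le_rfl
  have hni : IntegrableOn (fun x => ‖(U x).1‖) (An r R₀) volume := by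
    refine hn1.mono_set ?_
    rw [An_ball]
    exact An_mono (by linarith only [hR, hRv1, hr1]) le_rfl
  have hint : IntegrableOn (fun x => 1 / 2 * gP B.S (U x) + WW B.S (SS K.F (x - ξ)) (U x).1)
      (An r R₀) volume := by
    have h1 := (ha K hρa U hU 0 ξ hξ).1
    have h2 : IntegrableOn (fun x => inD B x (SS K.F (x - ξ)) (U x)) (An r R₀) volume := by
      refine h1.mono_set ?_
      rw [An_ball]
      exact An_mono (by linarith) le_rfl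
    refine h2.congr_fun ?_ (An_meas _ _)
    intro x hx
    have h3 : r < ‖x‖ := hx.1
    simp only [inD]
    rw [(hRv x (by linarith)).1, zero_add]
  have hfin := setIntegral_mono_on ((((hgi _).add haai).const_mul (min (cg / 2) 0.35)).sub
    (hni.const_mul θ)) hint (An_meas r R₀) hpt
  refine le_trans ?_ hfin
  have hcalc : ∫ x in An r R₀, (min (cg / 2) 0.35 * (gsq (U x) + aa B.S (U x).1) -
      θ * ‖(U x).1‖) = min (cg / 2) 0.35 * (∫ x in An r R₀, (gsq (U x) + aa B.S (U x).1)) -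
      θ * ∫ x in An r R₀, ‖(U x).1‖ := by
    rw [← integral_const_mul, ← integral_const_mul]
    exact integral_sub (((hgi _).add haai).const_mul (min (cg / 2) 0.35)) (hni.const_mul θ)
  have h10 : θ * ∫ x in An r R₀, ‖(U x).1‖ ≤ 1 / R₀ := by
    rw [le_div_iff₀ hR0]
    calc θ * (∫ x in An r R₀, ‖(U x).1‖) * R₀ ≤ θ * D * R₀ := by gcongr
      _ = K.ε * Q := by rw [hθ, hQ]; ring
      _ ≤ 1 := hεQ
  change _ ≤ ∫ x in An r R₀, (min (cg / 2) 0.35 * (gsq (U x) + aa B.S (U x).1) -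
      θ * ‖(U x).1‖)
  rw [hcalc]
  linarith only [h10]

/-! ### P12 smallness outside `R₀` -/
theorem energy_small (B : Base ι) : ∃ δ₁ : ℝ, 0 < δ₁ ∧ δ₁ ≤ 1 ∧ ∃ C R₁ : ℝ, 10 ≤ R₁ ∧
    ∀ δ R₀ Ξ : ℝ, 0 < δ → δ ≤ δ₁ → R₁ ≤ R₀ → 0 ≤ Ξ → ∃ ρ₀ : ℝ, ∀ K : Cfg B δ R₀ Ξ, ρ₀ ≤ K.ρ →
    ∀ U : Fld ι, IsMinz K U →
    NC B R₀ U ≤ C * (1 + Real.log R₀) ∧
    NI (R₀ - 4) (0.9 * K.ρ) U + (K.ρ ^ 3)⁻¹ * NII K.ρ (0.9 * K.ρ) U ≤ C * (1 + Real.log R₀) / R₀ := by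
  obtain ⟨δa, hδa, hδa1, K1, Ra, hK1, hRa, hA⟩ := p12_energy B
  obtain ⟨δb, hδb, hδb1, co, hco, hB⟩ := p12_out B
  obtain ⟨Cc, hCc, Rc, hRc, hC⟩ := competitor B
  obtain ⟨cin, Rin, hcin, hRin, hD⟩ := p12_in B K1 hK1
  obtain ⟨Rv, hRv1, -, hRv⟩ := v0_supp B
  obtain ⟨cm, hcm, haa⟩ := aa_min B.S
  obtain ⟨Ct, hCt⟩ := trunc_poincare (ι := ι)
  set T : ℝ := |Ct| with hT
  have hT0 : 0 ≤ T := abs_nonneg _
  set k2 : ℝ := 12 * K1 with hk2
  have hk20 : 0 ≤ k2 := by positivity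
  set m1 : ℝ := 1 + 1 / cm with hm1
  have hm10 : 1 ≤ m1 := by
    have : 0 < 1 / cm := by positivity
    linarith
  set K2 : ℝ := Cc * (k2 * (1 + T * m1)) with hK2
  have hK20 : 0 ≤ K2 := by (clear * - hCc hK1 hcm; positivity)
  set c₁ : ℝ := min cin co with hc₁
  have hc₁0 : 0 < c₁ := lt_min hcin hco
  set K3 : ℝ := (K2 + 1) / c₁ with hK3
  have hK30 : 0 ≤ K3 := by (clear * - hCc hK1 hcin hcm hco; positivity)
  set η : ℝ := 1 / (2 * (1 + m1 * k2 + m1 * K3)) with hη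
  have hη0 : 0 < η := by (clear * - hCc hK1 hcin hcm hco; positivity)
  refine ⟨min δa δb, lt_min hδa hδb, (min_le_left _ _).trans hδa1, max K1 (K3 * (1 + T * m1)),
    max (max (max 100 Ra) (max Rc Rin)) (max (2 * Rv + 2) (4 / η ^ 2)), ?_, ?_⟩
  · refine le_trans ?_ (((le_max_left _ _).trans (le_max_left _ _)).trans (le_max_left _ _))
    norm_num
  intro δ R₀ Ξ hδ hδ1 hR hΞ
  have hR100 : 100 ≤ R₀ :=
    (((le_max_left _ _).trans (le_max_left _ _)).trans (le_max_left _ _)).trans hR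
  have hRa' : Ra ≤ R₀ :=
    (((le_max_right _ _).trans (le_max_left _ _)).trans (le_max_left _ _)).trans hR
  have hRc' : Rc ≤ R₀ :=
    (((le_max_left _ _).trans (le_max_right _ _)).trans (le_max_left _ _)).trans hR
  have hRin' : Rin ≤ R₀ :=
    (((le_max_right _ _).trans (le_max_right _ _)).trans (le_max_left _ _)).trans hR
  have hRv' : 2 * Rv + 2 ≤ R₀ := ((le_max_left _ _).trans (le_max_right _ _)).trans hR
  have hRη : 4 / η ^ 2 ≤ R₀ := ((le_max_right _ _).trans (le_max_right _ _)).trans hR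
  have hR0 : 0 < R₀ := by linarith
  have hR1 : 1 ≤ R₀ := by linarith
  have hδa' : δ ≤ δa := hδ1.trans (min_le_left _ _)
  have hδb' : δ ≤ δb := hδ1.trans (min_le_right _ _)
  have hδ1' : δ ≤ 1 := hδa'.trans hδa1
  set E : ℝ := 1 + Real.log R₀ with hE
  have hE1 : 1 ≤ E := by
    have := Real.log_nonneg hR1
    linarith
  set e : ℝ := E / R₀ with he
  have he0 : 0 ≤ e := by positivity
  have heη : e ≤ η := p12_log' hη0 hR1 hRη
  have hRe : 1 / R₀ ≤ e := div_le_div_of_nonneg_right hE1 hR0.le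
  have hsm1 : m1 * k2 * e ≤ 1 / 2 ∧ m1 * K3 * e ≤ 1 / 2 := by
    have h0 : 0 < 1 + m1 * k2 + m1 * K3 := by (clear * - hCc hK1 hcin hcm hco; positivity)
    have h1 : (1 + m1 * k2 + m1 * K3) * e ≤ 1 / 2 := by
      calc (1 + m1 * k2 + m1 * K3) * e ≤ (1 + m1 * k2 + m1 * K3) * η :=
            mul_le_mul_of_nonneg_left heη h0.le
        _ = 1 / 2 := by rw [hη]; field_simp
    have h2 : 0 ≤ m1 * k2 * e := by (clear * - hE1 hK1 hR100 hcm; positivity)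
    have h3 : 0 ≤ m1 * K3 * e := by (clear * - hCc hE1 hK1 hR100 hcin hcm hco; positivity)
    constructor <;> linarith
  obtain ⟨ρa, ha⟩ := hA δ R₀ Ξ hδ hδa' hRa' hΞ
  obtain ⟨ρb, hb⟩ := hB δ R₀ Ξ hδ hδb' hR1 hΞ
  obtain ⟨ρc, hc⟩ := hC δ R₀ Ξ hδ hδ1' hRc' hΞ
  obtain ⟨ρd, hd⟩ := hD δ R₀ Ξ hδ hδ1' hRin' hΞ
  refine ⟨max (max ρa ρb) (max (max ρc ρd) (2 * R₀)), ?_⟩
  intro K hK U hU
  have hρa : ρa ≤ K.ρ := ((le_max_left _ _).trans (le_max_left _ _)).trans hK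
  have hρb : ρb ≤ K.ρ := ((le_max_right _ _).trans (le_max_left _ _)).trans hK
  have hρc : ρc ≤ K.ρ :=
    (((le_max_left _ _).trans (le_max_left _ _)).trans (le_max_right _ _)).trans hK
  have hρd : ρd ≤ K.ρ :=
    (((le_max_right _ _).trans (le_max_left _ _)).trans (le_max_right _ _)).trans hK
  have hρe : 2 * R₀ ≤ K.ρ := ((le_max_right _ _).trans (le_max_right _ _)).trans hK
  have hUS := hU.1
  have hρR : R₀ + 1 ≤ 0.9 * K.ρ := by linarith only [hR100, hρe]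
  have hρ0 : 0 < K.ρ := by linarith only [hR100, hρe]
  -- basic facts
  have hen := ha K hρa U hU
  have hNII0 : 0 ≤ (K.ρ ^ 3)⁻¹ * NII K.ρ (0.9 * K.ρ) U :=
    mul_nonneg (by positivity) (NII_nonneg _ _ _)
  have hNI0 := NI_nonneg R₀ (0.9 * K.ρ) U
  have hNC0 := NC_nonneg B R₀ U
  have hNC : NC B R₀ U ≤ K1 * E := by linarith only [hNI0, hNII0, hen]
  have hsqi : ∀ a b : ℝ, IntegrableOn (fun x => ‖(U x).1‖ ^ 2) (An a b) volume := by
    intro a b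
    exact int_ball (IsSob.integrableOn_sq hUS b) le_rfl
  have hgi : ∀ s : Set ℂ, IntegrableOn (fun x => gsq (U x)) s volume := fun s =>
    (IsSob.integrable_gsq hUS).integrableOn
  have hgsq : ∀ x, 0 ≤ gsq (U x) := fun x => by unfold gsq; positivity
  have haai : ∀ a b : ℝ, IntegrableOn (fun x => aa B.S (U x).1) (An a b) volume := fun a b =>
    int_ball (p12b_aa_int B.S hUS b) le_rfl
  have haa0 : ∀ x, 0 ≤ aa B.S (U x).1 := fun x => aa_nonneg _ _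
  have hmini : ∀ a b : ℝ, IntegrableOn (fun x => min (‖(U x).1‖ ^ 2) 1) (An a b) volume := by
    intro a b
    refine Integrable.mono' (hsqi a b) ?_ ?_
    · exact ((hUS.1.fst.norm.pow 2).inf aestronglyMeasurable_const).restrict
    · apply Filter.Eventually.of_forall
      intro x
      rw [Real.norm_eq_abs, abs_of_nonneg (le_min (by positivity) zero_le_one)]
      exact min_le_left _ _
  have hgmi : ∀ a b : ℝ, IntegrableOn (fun x => gsq (U x) + min (‖(U x).1‖ ^ 2) 1) (An a b)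
      volume := fun a b => (hgi _).add (hmini a b)
  have hminle : ∀ x, min (‖(U x).1‖ ^ 2) 1 ≤ 1 / cm * aa B.S (U x).1 := by
    intro x
    have := haa (U x).1
    rw [one_div, ← div_eq_inv_mul, le_div_iff₀ hcm]
    linarith
  have hgm : ∀ x, gsq (U x) + min (‖(U x).1‖ ^ 2) 1 ≤ m1 * (gsq (U x) + aa B.S (U x).1) := by
    intro x
    have h1 := hminle x
    have h2 : 0 ≤ 1 / cm * gsq (U x) := mul_nonneg (by positivity) (hgsq x)
    have h3 := haa0 x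
    rw [hm1]
    linarith only [h1, h2, h3]
  have hmm : ∀ x, min (‖(U x).1‖ ^ 2) 1 ≤ m1 * (gsq (U x) + aa B.S (U x).1) := by
    intro x
    have h1 := hgm x
    have h2 := hgsq x
    linarith
  -- the good annulus
  set f : ℂ → ℝ := fun x => gsq (U x) + aa B.S (v0 B x + (U x).1) with hf
  have hfi : IntegrableOn f {x : ℂ | ‖x‖ < R₀} volume := by
    rw [hf]
    refine (hgi _).add ?_
    refine (p12b_aa_int' B hUS R₀).mono_set ?_
    intro x hx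
    rw [mem_ball_zero_iff]
    exact hx
  have hf0 : ∀ x, 0 ≤ f x := fun x => add_nonneg (hgsq x) (aa_nonneg _ _)
  obtain ⟨r, hr1, hr2, hr3⟩ := pigeonhole_annulus R₀ hR100 f hf0 hfi
  have hG : ∀ a b : ℝ, Rv ≤ a → ∫ x in An a b, f x =
      ∫ x in An a b, (gsq (U x) + aa B.S (U x).1) := by
    intro a b hab
    apply setIntegral_congr_fun (An_meas _ _)
    intro x hx
    have h1 : a < ‖x‖ := hx.1
    simp only [hf]
    rw [(hRv x (by linarith only [h1, hab])).1, zero_add]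
  have hGi : ∀ a b : ℝ, IntegrableOn (fun x => gsq (U x) + aa B.S (U x).1) (An a b) volume :=
    fun a b => (hgi _).add (haai a b)
  have hG0 : ∀ x, 0 ≤ gsq (U x) + aa B.S (U x).1 := fun x => add_nonneg (hgsq x) (haa0 x)
  have hann : ∫ x in An (r - 1) (r + 2), (gsq (U x) + aa B.S (U x).1) ≤ k2 * e := by
    rw [← hG (r - 1) (r + 2) (by linarith only [hRv', hr1])]
    have h1 : ∫ x in {x : ℂ | ‖x‖ < R₀}, f x = NC B R₀ U := rfl
    rw [h1] at hr3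
    refine (show ∫ x in An (r - 1) (r + 2), f x ≤ 12 / R₀ * NC B R₀ U from hr3).trans ?_
    calc 12 / R₀ * NC B R₀ U ≤ 12 / R₀ * (K1 * E) :=
          mul_le_mul_of_nonneg_left hNC (by positivity)
      _ = k2 * e := by rw [hk2, he]; ring
  have htp : ∀ r₁ r₂ : ℝ, 1 ≤ r₁ → r₁ ≤ r₂ →
      (∫ x in An (r₁ - 1) (r₂ + 1), min (‖(U x).1‖ ^ 2) 1) ≤ 1 / 2 →
      ∫ x in An r₁ r₂, ‖(U x).1‖ ^ 2 ≤
        T * ∫ x in An (r₁ - 1) (r₂ + 1), (gsq (U x) + min (‖(U x).1‖ ^ 2) 1) := by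
    intro r₁ r₂ h1 h2 h3
    refine (hCt r₁ r₂ h1 h2 U hUS h3).trans ?_
    apply mul_le_mul_of_nonneg_right (le_abs_self _)
    apply integral_nonneg
    intro x
    exact add_nonneg (hgsq x) (le_min (by positivity) zero_le_one)
  have hmin1 : ∫ x in An (r - 1) (r + 2), min (‖(U x).1‖ ^ 2) 1 ≤ 1 / 2 := by
    calc ∫ x in An (r - 1) (r + 2), min (‖(U x).1‖ ^ 2) 1
        ≤ ∫ x in An (r - 1) (r + 2), m1 * (gsq (U x) + aa B.S (U x).1) :=
          setIntegral_mono (hmini _ _) ((hGi _ _).const_mul _) hmm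
      _ = m1 * ∫ x in An (r - 1) (r + 2), (gsq (U x) + aa B.S (U x).1) := integral_const_mul _ _
      _ ≤ m1 * (k2 * e) := mul_le_mul_of_nonneg_left hann (by linarith only [hm10])
      _ = m1 * k2 * e := by ring
      _ ≤ 1 / 2 := hsm1.1
  have hgm1 : ∫ x in An (r - 1) (r + 2), (gsq (U x) + min (‖(U x).1‖ ^ 2) 1) ≤ m1 * (k2 * e) := by
    calc ∫ x in An (r - 1) (r + 2), (gsq (U x) + min (‖(U x).1‖ ^ 2) 1)
        ≤ ∫ x in An (r - 1) (r + 2), m1 * (gsq (U x) + aa B.S (U x).1) :=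
          setIntegral_mono (hgmi _ _) ((hGi _ _).const_mul _) hgm
      _ = m1 * ∫ x in An (r - 1) (r + 2), (gsq (U x) + aa B.S (U x).1) := integral_const_mul _ _
      _ ≤ m1 * (k2 * e) := mul_le_mul_of_nonneg_left hann (by linarith only [hm10])
  have hsq1 : ∫ x in An r (r + 1), ‖(U x).1‖ ^ 2 ≤ T * (m1 * (k2 * e)) := by
    have h1 := htp r (r + 1) (by linarith only [hR100, hr1]) (by linarith only [])
      (by rw [show r + 1 + 1 = r + 2 by ring]; exact hmin1)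
    rw [show r + 1 + 1 = r + 2 by ring] at h1
    exact h1.trans (mul_le_mul_of_nonneg_left hgm1 hT0)
  obtain ⟨ξ, hξ, hcomp⟩ := hc K hρc U hU r (by linarith only [hr1]) (by linarith only [hr2])
  have hcr : ∫ x in {x : ℂ | r < ‖x‖ ∧ ‖x‖ < r + 1},
      (gsq (U x) + ‖(U x).1‖ ^ 2 + aa B.S (U x).1) ≤ k2 * e + T * (m1 * (k2 * e)) := by
    have h1 : ∫ x in {x : ℂ | r < ‖x‖ ∧ ‖x‖ < r + 1},
        (gsq (U x) + ‖(U x).1‖ ^ 2 + aa B.S (U x).1) =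
        (∫ x in An r (r + 1), (gsq (U x) + aa B.S (U x).1)) +
          ∫ x in An r (r + 1), ‖(U x).1‖ ^ 2 := by
      rw [← integral_add (hGi _ _) (hsqi _ _)]
      change ∫ x in An r (r + 1), _ = _
      congr 1
      funext x
      ring
    have h2 : ∫ x in An r (r + 1), (gsq (U x) + aa B.S (U x).1) ≤
        ∫ x in An (r - 1) (r + 2), (gsq (U x) + aa B.S (U x).1) :=
      setIntegral_mono_set (hGi _ _) (Filter.Eventually.of_forall hG0)
        (An_mono (by linarith only []) (by linarith only [])).eventuallyLE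
    rw [h1]
    linarith only [h2, hann, hsq1]
  have hlow1 := hd K hρd U hUS (by linarith only [hNII0, hen]) r (by linarith only [hr1]) (by linarith only [hr2]) ξ hξ
  have hlow2 := hb K hρb U hUS ξ hξ
  set X : ℝ := ∫ x in An r R₀, (gsq (U x) + aa B.S (U x).1) with hX
  have hX0 : 0 ≤ X := integral_nonneg fun x => hG0 x
  set Y : ℝ := NI R₀ (0.9 * K.ρ) U + (K.ρ ^ 3)⁻¹ * NII K.ρ (0.9 * K.ρ) U with hY
  have hY0 : 0 ≤ Y := by linarith only [hNI0, hNII0, hY]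
  have hXY : X + Y ≤ K3 * e := by
    have h1 : cin * X - 1 / R₀ + co * Y ≤ Cc * (k2 * e + T * (m1 * (k2 * e))) := by
      have h2 : (∫ x in {x : ℂ | r < ‖x‖ ∧ ‖x‖ < R₀},
          (1 / 2 * gP B.S (U x) + WW B.S (SS K.F (x - ξ)) (U x).1)) =
          ∫ x in An r R₀, (1 / 2 * gP B.S (U x) + WW B.S (SS K.F (x - ξ)) (U x).1) := rfl
      rw [h2] at hcomp
      have h3 := hcomp.trans (mul_le_mul_of_nonneg_left hcr hCc.le)
      linarith only [h3, hlow1, hlow2]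
    have h4 : c₁ * X ≤ cin * X := mul_le_mul_of_nonneg_right (min_le_left _ _) hX0
    have h5 : c₁ * Y ≤ co * Y := mul_le_mul_of_nonneg_right (min_le_right _ _) hY0
    have h6 : Cc * (k2 * e + T * (m1 * (k2 * e))) = K2 * e := by rw [hK2]; ring
    rw [h6] at h1
    rw [hK3, div_mul_eq_mul_div, le_div_iff₀ hc₁0]
    linarith only [h1, h4, h5, hRe]
  -- the second Poincare inequality
  have hsp : ∀ g : ℂ → ℝ, IntegrableOn g (An (R₀ - 5) (R₀ + 1)) volume →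
      ∫ x in An (R₀ - 5) (R₀ + 1), g x = (∫ x in An (R₀ - 5) R₀, g x) +
        ∫ x in An R₀ (R₀ + 1), g x := fun g hg => An_split (by linarith only []) (by linarith only []) hg
  have hgm2 : ∫ x in An (R₀ - 5) (R₀ + 1), (gsq (U x) + min (‖(U x).1‖ ^ 2) 1) ≤
      m1 * (X + Y) := by
    rw [hsp (fun x => gsq (U x) + min (‖(U x).1‖ ^ 2) 1) (hgmi _ _)]
    have h1 : ∫ x in An (R₀ - 5) R₀, (gsq (U x) + min (‖(U x).1‖ ^ 2) 1) ≤ m1 * X := by
      calc ∫ x in An (R₀ - 5) R₀, (gsq (U x) + min (‖(U x).1‖ ^ 2) 1)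
          ≤ ∫ x in An (R₀ - 5) R₀, m1 * (gsq (U x) + aa B.S (U x).1) :=
            setIntegral_mono (hgmi _ _) ((hGi _ _).const_mul _) hgm
        _ = m1 * ∫ x in An (R₀ - 5) R₀, (gsq (U x) + aa B.S (U x).1) := integral_const_mul _ _
        _ ≤ m1 * X := by
            apply mul_le_mul_of_nonneg_left _ (by linarith only [hm10])
            exact setIntegral_mono_set (hGi _ _) (Filter.Eventually.of_forall hG0)
              (An_mono (by linarith only [hr2]) le_rfl).eventuallyLE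
    have h2 : ∫ x in An R₀ (R₀ + 1), (gsq (U x) + min (‖(U x).1‖ ^ 2) 1) ≤ Y := by
      have h3 : ∫ x in An R₀ (R₀ + 1), (gsq (U x) + min (‖(U x).1‖ ^ 2) 1) ≤
          NI R₀ (R₀ + 1) U := by
        unfold NI
        have hgs : IntegrableOn (fun x => gsq (U x) + ‖(U x).1‖ ^ 2)
            {x : ℂ | R₀ < ‖x‖ ∧ ‖x‖ < R₀ + 1} volume := (hgi _).add (hsqi R₀ (R₀ + 1))
        apply setIntegral_mono (hgmi R₀ (R₀ + 1)) hgs
        intro x
        have := min_le_left (‖(U x).1‖ ^ 2) 1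
        simp only
        linarith only [this]
      have h4 : NI R₀ (R₀ + 1) U ≤ NI R₀ (0.9 * K.ρ) U := NI_mono hUS le_rfl hρR
      linarith only [h3, h4, hNII0, hY]
    have h3 : Y ≤ m1 * Y := le_mul_of_one_le_left hY0 hm10
    linarith only [h1, h2, h3]
  have hmin2 : ∫ x in An (R₀ - 5) (R₀ + 1), min (‖(U x).1‖ ^ 2) 1 ≤ 1 / 2 := by
    have h1 : ∫ x in An (R₀ - 5) (R₀ + 1), min (‖(U x).1‖ ^ 2) 1 ≤
        ∫ x in An (R₀ - 5) (R₀ + 1), (gsq (U x) + min (‖(U x).1‖ ^ 2) 1) := by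
      apply setIntegral_mono (hmini _ _) (hgmi _ _)
      intro x
      have := hgsq x
      simp only
      linarith only [this]
    calc ∫ x in An (R₀ - 5) (R₀ + 1), min (‖(U x).1‖ ^ 2) 1 ≤ m1 * (X + Y) := h1.trans hgm2
      _ ≤ m1 * (K3 * e) := mul_le_mul_of_nonneg_left hXY (by linarith only [hm10])
      _ = m1 * K3 * e := by ring
      _ ≤ 1 / 2 := hsm1.2
  have hsq2 : ∫ x in An (R₀ - 4) R₀, ‖(U x).1‖ ^ 2 ≤ T * (m1 * (X + Y)) := by
    have h1 := htp (R₀ - 4) R₀ (by linarith only [hR100]) (by linarith only [])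
      (by rw [show R₀ - 4 - 1 = R₀ - 5 by ring]; exact hmin2)
    rw [show R₀ - 4 - 1 = R₀ - 5 by ring] at h1
    exact h1.trans (mul_le_mul_of_nonneg_left hgm2 hT0)
  have hNIs : NI (R₀ - 4) (0.9 * K.ρ) U = (∫ x in An (R₀ - 4) R₀, (gsq (U x) + ‖(U x).1‖ ^ 2)) +
      NI R₀ (0.9 * K.ρ) U := by
    unfold NI
    exact An_split (by linarith only []) (by linarith only [hR100, hρe]) ((hgi _).add (hsqi _ _))
  have hg4 : ∫ x in An (R₀ - 4) R₀, gsq (U x) ≤ X := by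
    calc ∫ x in An (R₀ - 4) R₀, gsq (U x)
        ≤ ∫ x in An (R₀ - 4) R₀, (gsq (U x) + aa B.S (U x).1) := by
          apply setIntegral_mono (hgi _) (hGi _ _)
          intro x
          have := haa0 x
          simp only
          linarith only [this]
      _ ≤ X := setIntegral_mono_set (hGi _ _) (Filter.Eventually.of_forall hG0)
              (An_mono (by linarith only [hr2]) le_rfl).eventuallyLE
  have hsum4 : ∫ x in An (R₀ - 4) R₀, (gsq (U x) + ‖(U x).1‖ ^ 2) =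
      (∫ x in An (R₀ - 4) R₀, gsq (U x)) + ∫ x in An (R₀ - 4) R₀, ‖(U x).1‖ ^ 2 :=
    integral_add (hgi _) (hsqi _ _)
  refine ⟨?_, ?_⟩
  · refine hNC.trans ?_
    exact mul_le_mul_of_nonneg_right (le_max_left _ _) (by linarith only [hE1])
  · have h1 : NI (R₀ - 4) (0.9 * K.ρ) U + (K.ρ ^ 3)⁻¹ * NII K.ρ (0.9 * K.ρ) U ≤
        (1 + T * m1) * (X + Y) := by
      rw [hNIs, hsum4]
      have h2 : T * (m1 * (X + Y)) = T * m1 * (X + Y) := by ring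
      rw [h2] at hsq2
      linarith only [hY, hg4, hsq2]
    refine h1.trans ?_
    calc (1 + T * m1) * (X + Y) ≤ (1 + T * m1) * (K3 * e) :=
          mul_le_mul_of_nonneg_left hXY (by positivity)
      _ = (K3 * (1 + T * m1)) * E / R₀ := by rw [he]; ring
      _ ≤ max K1 (K3 * (1 + T * m1)) * E / R₀ := by
          apply div_le_div_of_nonneg_right _ hR0.le
          exact mul_le_mul_of_nonneg_right (le_max_right _ _) (by linarith only [hE1])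

end Pool.MP_ad5d82_an.Wl
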