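import Pool.Agent.Lib.MP_ad5d82_an.h24.PDefs
import Pool.Agent.Lib.MP_ad5d82_an.h24.H.H4
import Pool.Agent.Lib.MP_ad5d82_an.h24.H.H5w
import Pool.Agent.Lib.MP_ad5d82_an.h24.P.P0
import Pool.Agent.Lib.MP_ad5d82_an.h24.P.P1
import Pool.Agent.Lib.MP_ad5d82_an.h24.P.P2
import Pool.Agent.Lib.MP_ad5d82_an.h24.P.P3
import Pool.Agent.Lib.MP_ad5d82_an.h24.P.P4
import Pool.Agent.Lib.MP_ad5d82_an.h24.P.P7
import Pool.Agent.Lib.MP_ad5d82_an.h24.P.P8b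
import Pool.Agent.Lib.MP_ad5d82_an.h24.P.PC
import Pool.Agent.Lib.MP_ad5d82_an.h24.P.P13a

set_option autoImplicit false

namespace Pool.MP_ad5d82_an.Wl

open Real Set MeasureTheory Filter Topology
open scoped ContDiff

variable {ι : Type} [Fintype ι] [DecidableEq ι]

variable {B : Base ι} {δ R₀ Ξ : ℝ}

theorem p13b_eta {Θ : ℂ → ℝ} (hΘ : ContDiff ℝ ∞ Θ) (x : ℂ) :
    fderiv ℝ (fun y => Θ y ^ 2) x = (2 * Θ x) • fderiv ℝ Θ x := by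
  have hd : DifferentiableAt ℝ Θ x := hΘ.differentiable (by simp) x
  rw [fderiv_fun_pow 2 hd]
  norm_num

theorem p13b_cs {Θ : ℂ → ℝ} (hΘ : ContDiff ℝ ∞ Θ) (hc : HasCompactSupport (fderiv ℝ Θ)) :
    HasCompactSupport (fderiv ℝ fun y => Θ y ^ 2) := by
  refine hc.mono fun x hx => ?_
  rw [Function.mem_support] at hx ⊢
  intro h0
  apply hx
  rw [p13b_eta hΘ, h0, smul_zero]

theorem p13b_om_zero (t : ℝ) (ht : 1 ≤ |t|) : om t = 0 := by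
  unfold om
  apply Real.smoothTransition.zero_of_nonpos
  have : 1 ≤ t ^ 2 := by
    rw [← sq_abs]
    nlinarith only [ht, abs_nonneg t]
  linarith

omit [DecidableEq ι] in
theorem p13b_ell {ρ T : ℝ} {ξ : ℂ} (i : ι × ℕ × Bool) {U V : Fld ι}
    (h : ∀ x, ρ - 1 < ‖x - ξ‖ → (V x).1 = T • (U x).1) : ell ρ i ξ V = T * ell ρ i ξ U := by
  unfold ell
  rw [← integral_const_mul]
  refine integral_congr_ae (Eventually.of_forall fun x => ?_)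
  simp only
  by_cases hx : ρ - 1 < ‖x - ξ‖
  · rw [h x hx, PiLp.smul_apply, smul_eq_mul]
    ring
  · have h0 : om (‖x - ξ‖ - ρ) = 0 := by
      apply p13b_om_zero
      rw [le_abs]
      right
      linarith
    rw [h0]
    ring

theorem p13b_mu (S : Sys ι) (j : ι) : (0 : ℝ) ≤ (S.μ j : ℝ)⁻¹ ∧ (S.μ j : ℝ)⁻¹ ≤ 1 := by
  have h1 : 1 ≤ S.μ j := by
    by_cases h : j = S.o
    · rw [h, S.μ_o]
    · exact (S.one_lt j h).le
  have h2 : (1 : ℝ) ≤ S.μ j := by exact_mod_cast h1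
  exact ⟨inv_nonneg.2 (by linarith), inv_le_one_of_one_le₀ h2⟩

theorem p13b_musum (S : Sys ι) (h : Ev ι) :
    0 ≤ ∑ j, (S.μ j : ℝ)⁻¹ * h j ^ 2 ∧ ∑ j, (S.μ j : ℝ)⁻¹ * h j ^ 2 ≤ ‖h‖ ^ 2 := by
  constructor
  · exact Finset.sum_nonneg fun j _ => mul_nonneg (p13b_mu S j).1 (sq_nonneg _)
  · rw [EuclideanSpace.norm_sq_eq]
    refine Finset.sum_le_sum fun j _ => ?_
    rw [Real.norm_eq_abs, sq_abs]
    have := (p13b_mu S j).2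
    nlinarith [sq_nonneg (h j)]

theorem p13b_gPb_zero (S : Sys ι) (u : Ev ι × Ev ι × Ev ι) : gPb S u 0 = 0 := by
  simp [gPb]

theorem p13b_gPb_zero' (S : Sys ι) (u : Ev ι × Ev ι × Ev ι) : gPb S 0 u = 0 := by
  simp [gPb]

theorem p13b_qVb_zero (S : Sys ι) (s : ℝ) (u : Ev ι) : qVb S s u 0 = 0 := by
  simp [qVb]

theorem p13b_qVb_zero' (S : Sys ι) (s : ℝ) (u : Ev ι) : qVb S s 0 u = 0 := by
  simp [qVb]

/-! pointwise identity -/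
/-- the integrand of `DPhiJ` outside -/
noncomputable def p13bf (B : Base ι) (δ ρ : ℝ) (x : ℂ) (s : ℝ) (g φ : Ev ι × Ev ι × Ev ι) : ℝ :=
  gPb B.S g φ + qVb B.S s g.1 φ.1 + fderiv ℝ (RT B.S (tau δ ρ x) s) g.1 φ.1

theorem p13b_id (B : Base ι) (δ ρ : ℝ) (x : ℂ) (s : ℝ) {Θ : ℂ → ℝ} (hΘ : ContDiff ℝ ∞ Θ)
    (U : Fld ι) (C : Ev ι × Ev ι × Ev ι) (T : ℝ)
    (h : C = 0 ∨ (Θ x = T ∧ fderiv ℝ Θ x = 0)) :
    p13bf B δ ρ x s (U x + C) (mulF (fun y => Θ y ^ 2) U x) - T ^ 2 * p13bf B δ ρ x s (U x + C) C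
      = gP B.S (mulF Θ U x) + qV B.S s (mulF Θ U x).1
        - (fderiv ℝ Θ x 1 ^ 2 + fderiv ℝ Θ x Complex.I ^ 2) * ∑ j, (B.S.μ j : ℝ)⁻¹ * (U x).1 j ^ 2
        + (fderiv ℝ (RT B.S (tau δ ρ x) s) (U x + C).1 (mulF (fun y => Θ y ^ 2) U x).1
          - T ^ 2 * fderiv ℝ (RT B.S (tau δ ρ x) s) (U x + C).1 C.1)
        - T ^ 2 * (gP B.S C + qV B.S s C.1) := by
  have e1 := gPb_sq B.S (hΘ.differentiable (by simp)) U x
  have e2 : qVb B.S s (U x).1 (mulF (fun y => Θ y ^ 2) U x).1 = qV B.S s (mulF Θ U x).1 := by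
    have : (mulF (fun y => Θ y ^ 2) U x).1 = Θ x ^ 2 • (U x).1 := rfl
    rw [this, qVb_smul_right, qVb_self]
    have : (mulF Θ U x).1 = Θ x • (U x).1 := rfl
    rw [this, qV_smul]
  unfold p13bf
  rcases h with h | ⟨h1, h2⟩
  · subst h
    simp only [add_zero, p13b_gPb_zero, p13b_qVb_zero, Prod.fst_zero, map_zero, mul_zero, sub_zero]
    have e3 : gP B.S (0 : Ev ι × Ev ι × Ev ι) = 0 := by simp [gP]
    have e4 : qV B.S s (0 : Ev ι) = 0 := by simp [qV]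
    rw [e3, e4, e1, e2]
    ring
  · have hm : mulF (fun y => Θ y ^ 2) U x = T ^ 2 • U x := by
      unfold mulF
      rw [p13b_eta hΘ, h2]
      simp only [smul_zero, ContinuousLinearMap.zero_apply, zero_smul, add_zero, h1]
      rfl
    have e5 : gPb B.S C (mulF (fun y => Θ y ^ 2) U x) = T ^ 2 * gPb B.S (U x) C := by
      rw [hm, gPb_smul_right, gPb_comm]
    have e6 : qVb B.S s C.1 (mulF (fun y => Θ y ^ 2) U x).1 = T ^ 2 * qVb B.S s (U x).1 C.1 := by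
      rw [hm, Prod.smul_fst, qVb_smul_right, qVb_comm]
    rw [gPb_add_left, gPb_add_left, e1, e5, gPb_self, Prod.fst_add, qVb_add_left, qVb_add_left,
      e2, e6, qVb_self]
    ring

theorem p13b_rem (B : Base ι) (δ ρ : ℝ) (x : ℂ) (s L M T : ℝ) {Θ : ℂ → ℝ}
    (U : Fld ι) (C : Ev ι × Ev ι × Ev ι)
    (h : C = 0 ∨ (Θ x = T ∧ L ≤ M)) (hL : 0 ≤ L)
    (hb : ‖fderiv ℝ (RT B.S (tau δ ρ x) s) (U x + C).1‖ ≤ L * ‖(U x + C).1‖) :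
    -(L * ‖(mulF Θ U x).1‖ ^ 2) - M * (T ^ 2 * ‖C.1‖ ^ 2) ≤
      (fderiv ℝ (RT B.S (tau δ ρ x) s) (U x + C).1 (mulF (fun y => Θ y ^ 2) U x).1
          - T ^ 2 * fderiv ℝ (RT B.S (tau δ ρ x) s) (U x + C).1 C.1) := by
  have hP : ‖(mulF Θ U x).1‖ ^ 2 = Θ x ^ 2 * ‖(U x).1‖ ^ 2 := by
    have : (mulF Θ U x).1 = Θ x • (U x).1 := rfl
    rw [this, norm_smul, mul_pow, Real.norm_eq_abs, sq_abs]
  have hφ : (mulF (fun y => Θ y ^ 2) U x).1 = Θ x ^ 2 • (U x).1 := rfl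
  rcases h with h | ⟨h1, h2⟩
  · subst h
    simp only [add_zero, Prod.fst_zero, map_zero, mul_zero, sub_zero, norm_zero] at hb ⊢
    rw [hφ, map_smul, smul_eq_mul, hP]
    have h3 := ContinuousLinearMap.le_opNorm (fderiv ℝ (RT B.S (tau δ ρ x) s) (U x).1) (U x).1
    rw [Real.norm_eq_abs] at h3
    have h4 := (abs_le.1 h3).1
    have h5 : ‖fderiv ℝ (RT B.S (tau δ ρ x) s) (U x).1‖ * ‖(U x).1‖ ≤ L * ‖(U x).1‖ * ‖(U x).1‖ :=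
      mul_le_mul_of_nonneg_right hb (norm_nonneg _)
    have h6 : -(L * ‖(U x).1‖ ^ 2) ≤ fderiv ℝ (RT B.S (tau δ ρ x) s) (U x).1 (U x).1 := by
      nlinarith only [h4, h5]
    have h7 := mul_le_mul_of_nonneg_left h6 (sq_nonneg (Θ x))
    simp only [ne_eq, OfNat.ofNat_ne_zero, not_false_eq_true, zero_pow, mul_zero, sub_zero]
    linarith
  · rw [hφ, map_smul, smul_eq_mul, hP, h1, ← mul_sub, ← map_sub]
    have h3 := ContinuousLinearMap.le_opNorm (fderiv ℝ (RT B.S (tau δ ρ x) s) (U x + C).1)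
      ((U x).1 - C.1)
    rw [Real.norm_eq_abs] at h3
    have h4 := (abs_le.1 h3).1
    have h5 : ‖fderiv ℝ (RT B.S (tau δ ρ x) s) (U x + C).1‖ * ‖(U x).1 - C.1‖ ≤
        L * ‖(U x + C).1‖ * ‖(U x).1 - C.1‖ :=
      mul_le_mul_of_nonneg_right hb (norm_nonneg _)
    have h6 : ‖(U x + C).1‖ * ‖(U x).1 - C.1‖ ≤ ‖(U x).1‖ ^ 2 + ‖C.1‖ ^ 2 := by
      rw [Prod.fst_add]
      have h7 := parallelogram_law_with_norm ℝ (U x).1 C.1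
      nlinarith only [h7, sq_nonneg (‖(U x).1 + C.1‖ - ‖(U x).1 - C.1‖)]
    have h8 : L * (‖(U x + C).1‖ * ‖(U x).1 - C.1‖) ≤ L * (‖(U x).1‖ ^ 2 + ‖C.1‖ ^ 2) :=
      mul_le_mul_of_nonneg_left h6 hL
    have h9 : L * ‖C.1‖ ^ 2 ≤ M * ‖C.1‖ ^ 2 := mul_le_mul_of_nonneg_right h2 (sq_nonneg _)
    have h10 : -(L * ‖(U x).1‖ ^ 2) - M * ‖C.1‖ ^ 2 ≤
        fderiv ℝ (RT B.S (tau δ ρ x) s) (U x + C).1 ((U x).1 - C.1) := by
      nlinarith only [h4, h5, h8, h9]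
    have h11 := mul_le_mul_of_nonneg_left h10 (sq_nonneg T)
    nlinarith only [h11, h11]


theorem p13b_main (K : Cfg B δ R₀ Ξ) (hδ : 0 < δ) {C c1 D Rv : ℝ} (hC : 0 < C) (hCδ : C * δ ≤ 0.03)
    (hD : 0 < D) (hR : 1 ≤ R₀) (hΞ : 0 ≤ Ξ) (hRv : Rv ≤ R₀) (hρ1 : 50 * (R₀ + Ξ + 3) ≤ K.ρ)
    (hρ2 : D / B.c₀ ≤ K.ρ)
    (hg0 : ∀ x : ℂ, Rv ≤ ‖x‖ → v0 B x = 0 ∧ g0 B x = 0) {U : Fld ι} (hU : IsSob U) (c : Cc B.S)
    {ξ : ℂ} (hξ : ‖ξ‖ ≤ Ξ)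
    (hpot : ∀ x : ℂ, ∀ g : Ev ι,
      ‖fderiv ℝ (RT B.S (tau δ K.ρ x) (SS K.F (x - ξ))) g‖ ≤ LL C δ K.ρ x * ‖g‖)
    (hlow : ∀ U : Fld ι, IsSob U → ∀ W : ℂ → ℝ,
      IntegrableOn W {x : ℂ | R₀ < ‖x‖} volume →
      (∀ x : ℂ, R₀ ≤ ‖x‖ → ‖x‖ < 0.9 * K.ρ → -(0.42 * ‖(U x).1‖ ^ 2) ≤ W x) →
      (∀ x : ℂ, 0.9 * K.ρ ≤ ‖x‖ → -((K.ρ ^ 4)⁻¹ * (wgt K.ρ ‖x‖ * ‖(U x).1‖ ^ 2)) ≤ W x) →
      c1 * (NI R₀ (0.9 * K.ρ) U + (K.ρ ^ 3)⁻¹ * NII K.ρ (0.9 * K.ρ) U)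
        ≤ (∫ x in {x : ℂ | R₀ < ‖x‖},
            (1 / 2 * (gP B.S (U x) + qV B.S (SS K.F (x - ξ)) (U x).1) + W x))
          + 1 / 2 * K.ρ ^ 2 * ∑ i ∈ modes B.S, ell K.ρ i ξ U ^ 2)
    (hsplit : ∀ φ : Fld ι, IsSob φ →
      DPhiJ K U c ξ φ = (∫ x in {x : ℂ | ‖x‖ < R₀}, (gPb B.S (U x) (φ x)
          + fderiv ℝ (WW B.S (SS K.F (x - ξ))) (v0 B x + (U x).1) (φ x).1))
      + (∫ x in {x : ℂ | R₀ < ‖x‖}, (gPb B.S (GG K U c ξ x) (φ x)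
          + qVb B.S (SS K.F (x - ξ)) (GG K U c ξ x).1 (φ x).1
          + fderiv ℝ (RT B.S (tau δ K.ρ x) (SS K.F (x - ξ))) (GG K U c ξ x).1 (φ x).1))
      + (∫ x, pP B.S (g0 B x) (φ x).1))
    (hint : ∀ G : Fld ι, IsSob G → ∀ φ : Fld ι, IsSob φ →
      Integrable (fun x => gPb B.S (G x) (φ x)) volume ∧
      Integrable (fun x => fderiv ℝ (pot B δ R₀ K.ρ x (SS K.F (x - ξ))) (G x).1 (φ x).1) volume)
    (hoint : ∀ U : Fld ι, IsSob U →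
      Integrable (fun x => gP B.S (U x) + qV B.S (SS K.F (x - ξ)) (U x).1) volume)
    (hen : Integrable (fun x => gsq (jet (Cf B.S K.χ c ξ) x) + ‖Cf B.S K.χ c ξ x‖ ^ 2) volume ∧
      ∫ x, (gsq (jet (Cf B.S K.χ c ξ) x) + ‖Cf B.S K.χ c ξ x‖ ^ 2) ≤ D * K.ρ ^ 2 * ∑ i, c i ^ 2)
    (hcrit : DPhiJ K U c ξ (jet (Cf B.S K.χ c ξ)) = 0)
    (hneg : DPhi K U c ξ (mulF (fun y => Th R₀ K.ρ y ^ 2) U) ≤ 0) :
    c1 * (NI R₀ (0.9 * K.ρ) (mulF (Th R₀ K.ρ) U)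
        + (K.ρ ^ 3)⁻¹ * NII K.ρ (0.9 * K.ρ) (mulF (Th R₀ K.ρ) U))
      ≤ ∫ x in {x : ℂ | R₀ < ‖x‖ ∧ ‖x‖ < R₀ + 1},
        (fderiv ℝ (Th R₀ K.ρ) x 1 ^ 2 + fderiv ℝ (Th R₀ K.ρ) x Complex.I ^ 2) * ‖(U x).1‖ ^ 2 := by
  have hρ100 := K.wall.hρ
  have hρ : 0 < K.ρ := by linarith
  obtain ⟨t1, t2, t3, t4, t5, t6, t7, t8, t9⟩ := Th_props R₀ K.ρ hR hρ100 (by linarith)
  obtain ⟨CI, hCI, hTI⟩ := Th_inner R₀ hR
  have hTI' := hTI K.ρ hρ100 (by linarith)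
  set Θ := Th R₀ K.ρ with hΘdef
  set T : ℝ := exp (0.9 * (0.88 * K.ρ + kapp 1)) with hT
  set φ : Fld ι := mulF (fun y => Θ y ^ 2) U with hφ
  set P : Fld ι := mulF Θ U with hP
  set Cj : Fld ι := jet (Cf B.S K.χ c ξ) with hCj
  set G : Fld ι := GG K U c ξ with hG
  have hGx : ∀ x, G x = U x + Cj x := fun x => rfl
  have sφ : IsSob φ := isSob_mulF (t1.pow 2) (p13b_cs t1 t2) hU
  have sP : IsSob P := isSob_mulF t1 t2 hU
  have sC : IsSob Cj := isSob_Cf K c ξ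
  have sG : IsSob G := isSob_GG K hU c ξ
  have hout : MeasurableSet {x : ℂ | R₀ < ‖x‖} := measurableSet_lt measurable_const measurable_norm
  have hann : MeasurableSet {x : ℂ | R₀ < ‖x‖ ∧ ‖x‖ < R₀ + 1} :=
    hout.inter (measurableSet_lt measurable_norm measurable_const)
  -- zero sets
  have hC0 : ∀ x : ℂ, ‖x‖ < 0.88 * K.ρ + 1 → Cj x = 0 := by
    intro x hx
    have h1 : ‖x - ξ‖ < 0.93 * K.ρ := by
      calc ‖x - ξ‖ ≤ ‖x‖ + ‖ξ‖ := norm_sub_le _ _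
        _ < _ := by linarith only [hR, hx, hΞ, hξ, hρ1]
    obtain ⟨h2, h3⟩ := Cf_zero K.fam c ξ x h1
    rw [hCj]
    unfold jet
    rw [h2, h3]
    rfl
  have hφ0 : ∀ x : ℂ, ‖x‖ ≤ R₀ → φ x = 0 := by
    intro x hx
    rw [hφ]
    unfold mulF
    rw [p13b_eta t1, t5 x hx]
    simp only [t4 x hx, smul_zero, ContinuousLinearMap.zero_apply, zero_smul, add_zero, ne_eq,
      OfNat.ofNat_ne_zero, not_false_eq_true, zero_pow]
    rfl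
  have hcase : ∀ x : ℂ, Cj x = 0 ∨ (Θ x = T ∧ fderiv ℝ Θ x = 0) := by
    intro x
    rcases lt_or_ge ‖x‖ (0.88 * K.ρ + 1) with h | h
    · exact Or.inl (hC0 x h)
    · exact Or.inr (t9 x h)
  -- the integrals
  have ig : ∀ ψ : Fld ι, IsSob ψ →
      IntegrableOn (fun x => p13bf B δ K.ρ x (SS K.F (x - ξ)) (G x) (ψ x)) {x : ℂ | R₀ < ‖x‖}
        volume := by
    intro ψ hψ
    obtain ⟨i1, i2⟩ := hint G sG ψ hψ
    refine (i1.add i2).integrableOn.congr_fun (fun x hx => ?_) hout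
    have hx' : R₀ ≤ ‖x‖ := le_of_lt hx
    simp only [Pi.add_apply, p13bf]
    rw [dpot_out B hδ hρ x hx']
    ring
  have eφ : DPhiJ K U c ξ φ =
      ∫ x in {x : ℂ | R₀ < ‖x‖}, p13bf B δ K.ρ x (SS K.F (x - ξ)) (G x) (φ x) := by
    have e1 : (∫ x in {x : ℂ | ‖x‖ < R₀}, (gPb B.S (U x) (φ x)
          + fderiv ℝ (WW B.S (SS K.F (x - ξ))) (v0 B x + (U x).1) (φ x).1)) = 0 := by
      rw [setIntegral_congr_fun (g := fun _ => (0 : ℝ))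
        (measurableSet_lt measurable_norm measurable_const)]
      · simp
      · intro x hx
        simp only
        rw [hφ0 x (le_of_lt hx), p13b_gPb_zero, Prod.fst_zero, map_zero, add_zero]
    have e2 : ∫ x, pP B.S (g0 B x) (φ x).1 = 0 := by
      rw [integral_congr_ae (g := fun _ => (0 : ℝ)) (Eventually.of_forall fun x => ?_)]
      · simp
      · simp only
        rcases le_or_gt ‖x‖ R₀ with h | h
        · rw [hφ0 x h]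
          simp [pP]
        · rw [(hg0 x (hRv.trans h.le)).2]
          simp [pP]
    rw [hsplit φ sφ, e1, e2, zero_add, add_zero]
    rfl
  have eC : ∫ x in {x : ℂ | R₀ < ‖x‖}, p13bf B δ K.ρ x (SS K.F (x - ξ)) (G x) (Cj x) = 0 := by
    have e1 : (∫ x in {x : ℂ | ‖x‖ < R₀}, (gPb B.S (U x) (Cj x)
          + fderiv ℝ (WW B.S (SS K.F (x - ξ))) (v0 B x + (U x).1) (Cj x).1)) = 0 := by
      rw [setIntegral_congr_fun (g := fun _ => (0 : ℝ))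
        (measurableSet_lt measurable_norm measurable_const)]
      · simp
      · intro x hx
        simp only
        have hx' : ‖x‖ < R₀ := hx
        rw [hC0 x (by linarith only [hR, hx', hΞ, hρ1]), p13b_gPb_zero, Prod.fst_zero, map_zero, add_zero]
    have e2 : ∫ x, pP B.S (g0 B x) (Cj x).1 = 0 := by
      rw [integral_congr_ae (g := fun _ => (0 : ℝ)) (Eventually.of_forall fun x => ?_)]
      · simp
      · simp only
        rcases le_or_gt ‖x‖ R₀ with h | h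
        · rw [hC0 x (by linarith)]
          simp [pP]
        · rw [(hg0 x (hRv.trans h.le)).2]
          simp [pP]
    have e3 := hsplit Cj sC
    rw [e1, e2, zero_add, add_zero, hcrit] at e3
    exact e3.symm
  -- the gradient term
  set N : ℂ → ℝ := fun x => (fderiv ℝ Θ x 1 ^ 2 + fderiv ℝ Θ x Complex.I ^ 2)
      * ∑ j, (B.S.μ j : ℝ)⁻¹ * (U x).1 j ^ 2 with hN
  have hN0 : ∀ x, 0 ≤ N x := fun x => mul_nonneg (by (clear * -; positivity)) (p13b_musum B.S _).1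
  have iN : Integrable N volume := by
    have i1 := (hint P sP P sP).1
    have i2 := (hint U hU φ sφ).1
    refine (i1.sub i2).congr (Eventually.of_forall fun x => ?_)
    simp only [Pi.sub_apply, gPb_self]
    rw [gPb_sq B.S (t1.differentiable (by simp)) U x]
    simp only [hN, hP]
    ring
  set A : ℂ → ℝ := {x : ℂ | ‖x‖ < R₀ + 1}.indicator N with hA
  have hmA : MeasurableSet {x : ℂ | ‖x‖ < R₀ + 1} := measurableSet_lt measurable_norm measurable_const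
  have iA : Integrable A volume := iN.indicator hmA
  -- the energy of the negative part
  have iCC : Integrable (fun x => ‖(Cj x).1‖ ^ 2) volume := by
    refine hen.1.mono' ?_ (Eventually.of_forall fun x => ?_)
    · exact sC.1.fst.norm.pow 2
    · rw [Real.norm_eq_abs, abs_of_nonneg (sq_nonneg _)]
      have : 0 ≤ gsq (jet (Cf B.S K.χ c ξ) x) := by
        unfold gsq
        (clear * -; positivity)
      have h2 : ‖(Cj x).1‖ ^ 2 = ‖Cf B.S K.χ c ξ x‖ ^ 2 := rfl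
      linarith
  have eCC : ∫ x, ‖(Cj x).1‖ ^ 2 ≤ D * K.ρ ^ 2 * ∑ i, c i ^ 2 := by
    refine le_trans (integral_mono iCC hen.1 fun x => ?_) hen.2
    have : 0 ≤ gsq (jet (Cf B.S K.χ c ξ) x) := by
      unfold gsq
      positivity
    have h2 : ‖(Cj x).1‖ ^ 2 = ‖Cf B.S K.χ c ξ x‖ ^ 2 := rfl
    simp only
    linarith
  have iQC := hoint Cj sC
  have eQC : ∫ x in {x : ℂ | R₀ < ‖x‖}, (gP B.S (Cj x) + qV B.S (SS K.F (x - ξ)) (Cj x).1) ≤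
      -(B.c₀ * ∑ i, c i ^ 2) := by
    have h1 : ∫ x in {x : ℂ | R₀ < ‖x‖}, (gP B.S (Cj x) + qV B.S (SS K.F (x - ξ)) (Cj x).1) =
        ∫ x, (gP B.S (Cj x) + qV B.S (SS K.F (x - ξ)) (Cj x).1) := by
      refine setIntegral_eq_integral_of_forall_compl_eq_zero fun x hx => ?_
      have hx' : ‖x‖ ≤ R₀ := not_lt.1 hx
      rw [hC0 x (by linarith)]
      simp [gP, qV]
    obtain ⟨q, hq, hq2⟩ := K.fam.form
    rw [h1]
    have h2 : ∫ x, (gP B.S (Cj x) + qV B.S (SS K.F (x - ξ)) (Cj x).1) = ∑ i, q i * c i ^ 2 :=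
      hq2 ξ c
    rw [h2, Finset.mul_sum, ← Finset.sum_neg_distrib]
    refine Finset.sum_le_sum fun i _ => ?_
    have := mul_le_mul_of_nonneg_right (hq i) (sq_nonneg (c i))
    linarith
  -- the perturbation
  set M : ℝ := (K.ρ ^ 5)⁻¹ with hM
  have hM0 : 0 < M := by positivity
  set W : ℂ → ℝ := fun x => 1 / 2 * (A x - N x
    + (fderiv ℝ (RT B.S (tau δ K.ρ x) (SS K.F (x - ξ))) (G x).1 (φ x).1
      - T ^ 2 * fderiv ℝ (RT B.S (tau δ K.ρ x) (SS K.F (x - ξ))) (G x).1 (Cj x).1)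
    + M * (T ^ 2 * ‖(Cj x).1‖ ^ 2)) with hW
  have hid : ∀ x, 1 / 2 * (gP B.S (P x) + qV B.S (SS K.F (x - ξ)) (P x).1) + W x =
      1 / 2 * (p13bf B δ K.ρ x (SS K.F (x - ξ)) (G x) (φ x)
        - T ^ 2 * p13bf B δ K.ρ x (SS K.F (x - ξ)) (G x) (Cj x)
        + A x + M * (T ^ 2 * ‖(Cj x).1‖ ^ 2)
        + T ^ 2 * (gP B.S (Cj x) + qV B.S (SS K.F (x - ξ)) (Cj x).1)) := by
    intro x
    have h1 := p13b_id B δ K.ρ x (SS K.F (x - ξ)) t1 U (Cj x) T (hcase x)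
    rw [← hGx x] at h1
    have h2 : p13bf B δ K.ρ x (SS K.F (x - ξ)) (G x) (φ x)
        - T ^ 2 * p13bf B δ K.ρ x (SS K.F (x - ξ)) (G x) (Cj x) = gP B.S (P x)
        + qV B.S (SS K.F (x - ξ)) (P x).1 - N x
        + (fderiv ℝ (RT B.S (tau δ K.ρ x) (SS K.F (x - ξ))) (G x).1 (φ x).1
          - T ^ 2 * fderiv ℝ (RT B.S (tau δ K.ρ x) (SS K.F (x - ξ))) (G x).1 (Cj x).1)
        - T ^ 2 * (gP B.S (Cj x) + qV B.S (SS K.F (x - ξ)) (Cj x).1) := h1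
    rw [h2]
    simp only [hW]
    ring
  have iF1 := ig φ sφ
  have iF2 := (ig Cj sC).const_mul (T ^ 2)
  have iA' : IntegrableOn A {x : ℂ | R₀ < ‖x‖} volume := iA.integrableOn
  have iC' : IntegrableOn (fun x => M * (T ^ 2 * ‖(Cj x).1‖ ^ 2)) {x : ℂ | R₀ < ‖x‖} volume :=
    ((iCC.const_mul (T ^ 2)).const_mul M).integrableOn
  have iQ' : IntegrableOn (fun x => T ^ 2 * (gP B.S (Cj x) + qV B.S (SS K.F (x - ξ)) (Cj x).1))
      {x : ℂ | R₀ < ‖x‖} volume := (iQC.const_mul (T ^ 2)).integrableOn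
  have iH : IntegrableOn (fun x => p13bf B δ K.ρ x (SS K.F (x - ξ)) (G x) (φ x)
        - T ^ 2 * p13bf B δ K.ρ x (SS K.F (x - ξ)) (G x) (Cj x)
        + A x + M * (T ^ 2 * ‖(Cj x).1‖ ^ 2)
        + T ^ 2 * (gP B.S (Cj x) + qV B.S (SS K.F (x - ξ)) (Cj x).1)) {x : ℂ | R₀ < ‖x‖} volume :=
    (((iF1.sub iF2).add iA').add iC').add iQ'
  have iW : IntegrableOn W {x : ℂ | R₀ < ‖x‖} volume := by
    have i1 := (hoint P sP).integrableOn (s := {x : ℂ | R₀ < ‖x‖})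
    have i2 : Integrable (fun x => 1 / 2 * (p13bf B δ K.ρ x (SS K.F (x - ξ)) (G x) (φ x)
        - T ^ 2 * p13bf B δ K.ρ x (SS K.F (x - ξ)) (G x) (Cj x)
        + A x + M * (T ^ 2 * ‖(Cj x).1‖ ^ 2)
        + T ^ 2 * (gP B.S (Cj x) + qV B.S (SS K.F (x - ξ)) (Cj x).1))
        - 1 / 2 * (gP B.S (P x) + qV B.S (SS K.F (x - ξ)) (P x).1))
        (volume.restrict {x : ℂ | R₀ < ‖x‖}) :=
      (Integrable.const_mul iH (1 / 2)).sub (i1.const_mul (1 / 2))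
    refine i2.congr (Eventually.of_forall fun x => ?_)
    have := hid x
    simp only
    linarith only [this]
  have hwgt : ∀ x : ℂ, wgt K.ρ ‖x‖ ≤ 1 := fun x => min_le_left _ _
  have hwgt0 : ∀ x : ℂ, 0 ≤ wgt K.ρ ‖x‖ := fun x => le_min zero_le_one (by positivity)
  have hLL0 : ∀ x, 0 ≤ LL C δ K.ρ x := by
    intro x
    unfold LL
    split_ifs
    · positivity
    · exact mul_nonneg hM0.le (hwgt0 x)
  have hM1 : M ≤ 0.01 := by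
    have h7 : (100 : ℝ) ≤ K.ρ ^ 5 := by
      calc (100 : ℝ) ≤ 100 ^ 5 := by norm_num
        _ ≤ K.ρ ^ 5 := pow_le_pow_left₀ (by norm_num) hρ100 5
    rw [hM, inv_le_comm₀ (by positivity) (by norm_num)]
    norm_num
    linarith
  have hLL1 : ∀ x, LL C δ K.ρ x ≤ 0.03 := by
    intro x
    unfold LL
    split_ifs
    · exact hCδ
    · have h8 : (K.ρ ^ 5)⁻¹ * wgt K.ρ ‖x‖ ≤ 0.01 * 1 :=
        mul_le_mul hM1 (hwgt x) (hwgt0 x) (by norm_num)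
      linarith
  have hLL2 : ∀ x : ℂ, K.ρ / 2 ≤ ‖x‖ → LL C δ K.ρ x = M * wgt K.ρ ‖x‖ := by
    intro x hx
    unfold LL
    rw [if_neg (not_lt.2 hx)]
  have hWl : ∀ x, 1 / 2 * (A x - N x - LL C δ K.ρ x * ‖(P x).1‖ ^ 2) ≤ W x := by
    intro x
    have h1 := p13b_rem B δ K.ρ x (SS K.F (x - ξ)) (LL C δ K.ρ x) M T (Θ := Θ) U (Cj x) (by
      rcases lt_or_ge ‖x‖ (0.88 * K.ρ + 1) with h | h
      · exact Or.inl (hC0 x h)
      · refine Or.inr ⟨(t9 x h).1, ?_⟩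
        rw [hLL2 x (by linarith)]
        calc M * wgt K.ρ ‖x‖ ≤ M * 1 := mul_le_mul_of_nonneg_left (hwgt x) hM0.le
          _ = M := mul_one M) (hLL0 x) (hpot x _)
    rw [← hGx x] at h1
    have h2 : -(LL C δ K.ρ x * ‖(P x).1‖ ^ 2) - M * (T ^ 2 * ‖(Cj x).1‖ ^ 2) ≤
      (fderiv ℝ (RT B.S (tau δ K.ρ x) (SS K.F (x - ξ))) (G x).1 (φ x).1
      - T ^ 2 * fderiv ℝ (RT B.S (tau δ K.ρ x) (SS K.F (x - ξ))) (G x).1 (Cj x).1) := h1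
    simp only [hW]
    linarith
  have hPn : ∀ x, ‖(P x).1‖ ^ 2 = Θ x ^ 2 * ‖(U x).1‖ ^ 2 := by
    intro x
    have : (P x).1 = Θ x • (U x).1 := rfl
    rw [this, norm_smul, mul_pow, Real.norm_eq_abs, sq_abs]
  have hA0 : ∀ x, 0 ≤ A x := fun x => indicator_nonneg (fun x _ => hN0 x) x
  have hL := hlow P sP W iW (by
    intro x hx1 hx2
    refine le_trans ?_ (hWl x)
    have h1 := mul_le_mul_of_nonneg_right (hLL1 x) (sq_nonneg ‖(P x).1‖)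
    rcases lt_or_ge ‖x‖ (R₀ + 1) with h | h
    · have h2 : A x = N x := indicator_of_mem (show x ∈ {x : ℂ | ‖x‖ < R₀ + 1} from h) _
      rw [h2]
      nlinarith only [h1, sq_nonneg ‖(P x).1‖]
    · have h2 := t6 x h
      have h3 : N x ≤ 0.81 * ‖(P x).1‖ ^ 2 := by
        rw [hPn, ← mul_assoc]
        exact mul_le_mul h2 (p13b_musum B.S _).2 (p13b_musum B.S _).1 (by positivity)
      have := hA0 x
      linarith) (by
    intro x hx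
    refine le_trans ?_ (hWl x)
    have h2 : N x = 0 := by
      simp only [hN]
      rw [(t9 x (by linarith)).2]
      simp
    rw [h2, hLL2 x (by linarith)]
    have := hA0 x
    have h3 : M ≤ (K.ρ ^ 4)⁻¹ := by
      apply inv_anti₀ (by positivity)
      exact pow_le_pow_right₀ (by linarith) (by norm_num)
    have h4 : 0 ≤ wgt K.ρ ‖x‖ * ‖(P x).1‖ ^ 2 := mul_nonneg (hwgt0 x) (sq_nonneg _)
    have h5 := mul_le_mul_of_nonneg_right h3 h4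
    have h6 : 0 ≤ M * (wgt K.ρ ‖x‖ * ‖(P x).1‖ ^ 2) := mul_nonneg hM0.le h4
    rw [mul_assoc M]
    linarith)
  have hI : ∫ x in {x : ℂ | R₀ < ‖x‖},
      (1 / 2 * (gP B.S (P x) + qV B.S (SS K.F (x - ξ)) (P x).1) + W x) =
      1 / 2 * (DPhiJ K U c ξ φ + (∫ x in {x : ℂ | R₀ < ‖x‖}, A x)
        + M * (T ^ 2 * ∫ x in {x : ℂ | R₀ < ‖x‖}, ‖(Cj x).1‖ ^ 2)
        + T ^ 2 * ∫ x in {x : ℂ | R₀ < ‖x‖}, (gP B.S (Cj x) + qV B.S (SS K.F (x - ξ)) (Cj x).1)) := by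
    rw [integral_congr_ae (Eventually.of_forall fun x => hid x), integral_const_mul]
    have j1 : IntegrableOn (fun x => p13bf B δ K.ρ x (SS K.F (x - ξ)) (G x) (φ x)
        - T ^ 2 * p13bf B δ K.ρ x (SS K.F (x - ξ)) (G x) (Cj x)) {x : ℂ | R₀ < ‖x‖} volume :=
      iF1.sub iF2
    have j2 : IntegrableOn (fun x => p13bf B δ K.ρ x (SS K.F (x - ξ)) (G x) (φ x)
        - T ^ 2 * p13bf B δ K.ρ x (SS K.F (x - ξ)) (G x) (Cj x) + A x)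
        {x : ℂ | R₀ < ‖x‖} volume := j1.add iA'
    have j3 : IntegrableOn (fun x => p13bf B δ K.ρ x (SS K.F (x - ξ)) (G x) (φ x)
        - T ^ 2 * p13bf B δ K.ρ x (SS K.F (x - ξ)) (G x) (Cj x) + A x
        + M * (T ^ 2 * ‖(Cj x).1‖ ^ 2)) {x : ℂ | R₀ < ‖x‖} volume := j2.add iC'
    rw [integral_add j3 iQ', integral_add j2 iC', integral_add j1 iA', integral_sub iF1 iF2,
      integral_const_mul, integral_const_mul, integral_const_mul, integral_const_mul, eC, ← eφ,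
      mul_zero, sub_zero]
  have hCC : ∫ x in {x : ℂ | R₀ < ‖x‖}, ‖(Cj x).1‖ ^ 2 ≤ D * K.ρ ^ 2 * ∑ i, c i ^ 2 :=
    (setIntegral_le_integral iCC (Eventually.of_forall fun x => sq_nonneg _)).trans eCC
  have hDc : M * (D * K.ρ ^ 2 * ∑ i, c i ^ 2) ≤ B.c₀ * ∑ i, c i ^ 2 := by
    have h1 : M * (D * K.ρ ^ 2) ≤ B.c₀ := by
      have h2 : D ≤ K.ρ * B.c₀ := by
        rwa [div_le_iff₀ B.hc₀] at hρ2
      have h3 : K.ρ ≤ K.ρ ^ 3 := le_self_pow₀ (by linarith only [hρ100]) (by norm_num)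
      have h4 : D ≤ K.ρ ^ 3 * B.c₀ := h2.trans (mul_le_mul_of_nonneg_right h3 B.hc₀.le)
      have h5 : M * (D * K.ρ ^ 2) = D / K.ρ ^ 3 := by
        rw [hM]
        field_simp
      rw [h5, div_le_iff₀ (by positivity)]
      linarith
    calc M * (D * K.ρ ^ 2 * ∑ i, c i ^ 2) = M * (D * K.ρ ^ 2) * ∑ i, c i ^ 2 := by ring
      _ ≤ _ := mul_le_mul_of_nonneg_right h1 (Finset.sum_nonneg fun i _ => sq_nonneg _)
  have hell : ∑ i ∈ modes B.S, ell K.ρ i ξ U * ell K.ρ i ξ φ =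
      ∑ i ∈ modes B.S, ell K.ρ i ξ P ^ 2 := by
    refine Finset.sum_congr rfl fun i _ => ?_
    have hx0 : ∀ x : ℂ, K.ρ - 1 < ‖x - ξ‖ → 0.88 * K.ρ + 1 ≤ ‖x‖ := by
      intro x hx
      have : ‖x - ξ‖ ≤ ‖x‖ + ‖ξ‖ := norm_sub_le _ _
      linarith only [hM0, hM1, hR, hx, hΞ, hξ, hρ1, this]
    have h1 : ell K.ρ i ξ φ = T ^ 2 * ell K.ρ i ξ U := by
      apply p13b_ell
      intro x hx
      have : (φ x).1 = Θ x ^ 2 • (U x).1 := rfl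
      rw [this, (t9 x (hx0 x hx)).1]
    have h2 : ell K.ρ i ξ P = T * ell K.ρ i ξ U := by
      apply p13b_ell
      intro x hx
      have : (P x).1 = Θ x • (U x).1 := rfl
      rw [this, (t9 x (hx0 x hx)).1]
    rw [h1, h2]
    ring
  have hAI : ∫ x in {x : ℂ | R₀ < ‖x‖}, A x = ∫ x in {x : ℂ | R₀ < ‖x‖ ∧ ‖x‖ < R₀ + 1}, N x := by
    rw [hA, setIntegral_indicator hmA]
    rfl
  have hAI0 : 0 ≤ ∫ x in {x : ℂ | R₀ < ‖x‖ ∧ ‖x‖ < R₀ + 1}, N x := integral_nonneg hN0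
  have hfin : ∫ x in {x : ℂ | R₀ < ‖x‖ ∧ ‖x‖ < R₀ + 1}, N x ≤
      ∫ x in {x : ℂ | R₀ < ‖x‖ ∧ ‖x‖ < R₀ + 1},
        (fderiv ℝ Θ x 1 ^ 2 + fderiv ℝ Θ x Complex.I ^ 2) * ‖(U x).1‖ ^ 2 := by
    refine setIntegral_mono_on iN.integrableOn ?_ hann fun x _ =>
      mul_le_mul_of_nonneg_left (p13b_musum B.S _).2 (by positivity)
    have hc1 : Continuous fun x => fderiv ℝ Θ x := t1.continuous_fderiv (by simp)
    refine Integrable.mono' ((hU.integrableOn_ann R₀ (R₀ + 1)).const_mul CI) ?_ ?_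
    · refine AEStronglyMeasurable.mul ?_ (hU.1.fst.norm.pow 2).restrict
      exact Continuous.aestronglyMeasurable (by fun_prop)
    · rw [ae_restrict_iff' hann]
      refine Eventually.of_forall fun x hx => ?_
      rw [Real.norm_eq_abs, abs_of_nonneg (by (clear * -; positivity))]
      have h1 := hTI' x hx.2.le
      have h2 : ‖(U x).1‖ ^ 2 ≤ gsq (U x) + ‖(U x).1‖ ^ 2 := by
        have : 0 ≤ gsq (U x) := by
          unfold gsq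
          (clear * -; positivity)
        linarith only [this]
      exact mul_le_mul h1 h2 (sq_nonneg _) hCI.le
  rw [hI, hAI] at hL
  have hT2 : 0 < T ^ 2 := by positivity
  have q1 : M * (T ^ 2 * ∫ x in {x : ℂ | R₀ < ‖x‖}, ‖(Cj x).1‖ ^ 2) ≤
      T ^ 2 * (B.c₀ * ∑ i, c i ^ 2) := by
    calc M * (T ^ 2 * ∫ x in {x : ℂ | R₀ < ‖x‖}, ‖(Cj x).1‖ ^ 2)
        = T ^ 2 * (M * ∫ x in {x : ℂ | R₀ < ‖x‖}, ‖(Cj x).1‖ ^ 2) := by ring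
      _ ≤ T ^ 2 * (M * (D * K.ρ ^ 2 * ∑ i, c i ^ 2)) :=
          mul_le_mul_of_nonneg_left (mul_le_mul_of_nonneg_left hCC hM0.le) hT2.le
      _ ≤ _ := mul_le_mul_of_nonneg_left hDc hT2.le
  have q2 := mul_le_mul_of_nonneg_left eQC hT2.le
  have q3 : DPhiJ K U c ξ φ + 2 * K.ρ ^ 2 * ∑ i ∈ modes B.S, ell K.ρ i ξ P ^ 2 ≤ 0 := by
    rw [← hell]
    exact hneg
  have q4 : 0 ≤ K.ρ ^ 2 * ∑ i ∈ modes B.S, ell K.ρ i ξ P ^ 2 :=
    mul_nonneg (sq_nonneg _) (Finset.sum_nonneg fun i _ => sq_nonneg _)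
  linarith only [hAI0, hL, hfin, q1, q2, q3, q4]



/-! ### P13b the weighted inequality -/
theorem agmon_ineq (B : Base ι) : ∃ δ₁ : ℝ, 0 < δ₁ ∧ δ₁ ≤ 1 ∧ ∃ c : ℝ, 0 < c ∧ ∃ R₁ : ℝ, 1 ≤ R₁ ∧
    ∀ δ R₀ Ξ : ℝ, 0 < δ → δ ≤ δ₁ → R₁ ≤ R₀ → 0 ≤ Ξ → ∃ ρ₀ : ℝ, ∀ K : Cfg B δ R₀ Ξ, ρ₀ ≤ K.ρ →
    ∀ U : Fld ι, IsSob U → ∀ (c' : Cc B.S) (ξ : ℂ), ‖ξ‖ ≤ Ξ →
    DPhiJ K U c' ξ (jet (Cf B.S K.χ c' ξ)) = 0 →
    DPhi K U c' ξ (mulF (fun y => Th R₀ K.ρ y ^ 2) U) ≤ 0 →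
    c * (NI R₀ (0.9 * K.ρ) (mulF (Th R₀ K.ρ) U)
        + (K.ρ ^ 3)⁻¹ * NII K.ρ (0.9 * K.ρ) (mulF (Th R₀ K.ρ) U))
      ≤ ∫ x in {x : ℂ | R₀ < ‖x‖ ∧ ‖x‖ < R₀ + 1},
        (fderiv ℝ (Th R₀ K.ρ) x 1 ^ 2 + fderiv ℝ (Th R₀ K.ρ) x Complex.I ^ 2) * ‖(U x).1‖ ^ 2 := by
  obtain ⟨C, hC, hpot⟩ := pot_out B.S
  obtain ⟨c1, hc1, hlow⟩ := out_lower B.S
  obtain ⟨Rv, hRv1, -, hRv⟩ := v0_supp B
  obtain ⟨D, hD, hen⟩ := Cf_energy B.S B.c₀ B.C₀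
  refine ⟨min 1 (0.03 / C), lt_min one_pos (by positivity), min_le_left _ _, c1, hc1, Rv, hRv1, ?_⟩
  intro δ R₀ Ξ hδ hδ' hR hΞ
  have hδ1 : δ ≤ 1 := hδ'.trans (min_le_left _ _)
  have hδ2 : C * δ ≤ 0.03 := by
    have := hδ'.trans (min_le_right _ _)
    rw [le_div_iff₀ hC] at this
    linarith
  have hR1 : 1 ≤ R₀ := hRv1.trans hR
  obtain ⟨ρ1, h1⟩ := hpot δ Ξ hδ hδ1 hΞ
  obtain ⟨ρ2, h2⟩ := hlow R₀ Ξ hR1 hΞ
  obtain ⟨ρ3, h3⟩ := DPhiJ_split B δ R₀ Ξ hδ hδ1 hR1 hΞ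
  obtain ⟨ρ4, h4⟩ := phi_integrable B δ R₀ Ξ hδ hδ1 hR1 hΞ
  obtain ⟨ρ5, h5⟩ := out_integrable B.S Ξ hΞ
  refine ⟨max (max ρ1 ρ2) (max (max ρ3 ρ4) (max ρ5 (max (50 * (R₀ + Ξ + 3)) (D / B.c₀)))), ?_⟩
  intro K hK U hU c ξ hξ hcrit hneg
  simp only [max_le_iff] at hK
  obtain ⟨⟨k1, k2⟩, ⟨k3, k4⟩, k5, k6, k7⟩ := hK
  exact p13b_main K hδ hC hδ2 hD hR1 hΞ hR k6 k7 hRv hU c hξ
    (fun x g => (h1 K.ρ K.ε K.F K.wall k1 ξ hξ x g g).2.1)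
    (fun V hV W => h2 K.ρ K.ε K.F K.wall k2 V hV ξ hξ W)
    (fun φ hφ => h3 K k3 U φ hU hφ c ξ hξ)
    (fun G hG φ hφ => (h4 K k4 G hG ξ hξ).2.2.2 φ hφ)
    (fun V hV => h5 K.ρ K.ε K.F K.wall k5 V hV ξ hξ)
    (hen K.ρ K.F K.χ K.fam (by linarith only [hR, hRv1, hΞ, k6, K.wall.hρ]) c ξ) hcrit hneg

end Pool.MP_ad5d82_an.Wl
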