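import Pool.Agent.Lib.MP_ad5d82_an.h24.PDefs
import Pool.Agent.Lib.MP_ad5d82_an.h24.H.H4
import Pool.Agent.Lib.MP_ad5d82_an.h24.H.H5w
import Pool.Agent.Lib.MP_ad5d82_an.h24.H.H6
import Pool.Agent.Lib.MP_ad5d82_an.h24.F.F1
import Pool.Agent.Lib.MP_ad5d82_an.h24.P.P0
import Pool.Agent.Lib.MP_ad5d82_an.h24.P.P2
import Pool.Agent.Lib.MP_ad5d82_an.h24.P.P3
import Pool.Agent.Lib.MP_ad5d82_an.h24.P.P4
import Pool.Agent.Lib.MP_ad5d82_an.h24.P.P7
import Pool.Agent.Lib.MP_ad5d82_an.h24.P.P11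
import Pool.Agent.Lib.MP_ad5d82_an.h24.P.P12
import Pool.Agent.Lib.MP_ad5d82_an.h24.P.P13a
import Pool.Agent.Lib.MP_ad5d82_an.h24.P.P13b

set_option autoImplicit false

namespace Pool.MP_ad5d82_an.Wl

open Real Set MeasureTheory Filter Topology
open scoped ContDiff

variable {ι : Type} [Fintype ι] [DecidableEq ι]

variable {B : Base ι} {δ R₀ Ξ : ℝ}

private theorem P13_gsq_nn (u : Ev ι × Ev ι × Ev ι) : 0 ≤ gsq u := by
  unfold gsq; positivity

private theorem P13_meas_lt (a : ℝ) : MeasurableSet {x : ℂ | ‖x‖ < a} :=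
  measurableSet_lt measurable_norm measurable_const

private theorem P13_meas_le (a : ℝ) : MeasurableSet {x : ℂ | a ≤ ‖x‖} :=
  measurableSet_le measurable_const measurable_norm

private theorem P13_meas_ann (a b : ℝ) : MeasurableSet {x : ℂ | a < ‖x‖ ∧ ‖x‖ < b} :=
  (measurableSet_lt measurable_const measurable_norm).inter (P13_meas_lt b)

private theorem P13_meas_hann (a b : ℝ) : MeasurableSet {x : ℂ | a ≤ ‖x‖ ∧ ‖x‖ < b} :=
  (P13_meas_le a).inter (P13_meas_lt b)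

private theorem P13_wgt_le (ρ r : ℝ) : wgt ρ r ≤ 1 := min_le_left _ _

private theorem P13_wgt_nn (ρ r : ℝ) : 0 ≤ wgt ρ r := by
  unfold wgt
  exact le_min zero_le_one (by positivity)

/-- the integral of the energy over a part of an annulus -/
private theorem P13_sub {U : Fld ι} (hU : IsSob U) {a b : ℝ} {A : Set ℂ}
    (hA : A ⊆ {x : ℂ | a < ‖x‖ ∧ ‖x‖ < b}) :
    ∫ x in A, (gsq (U x) + ‖(U x).1‖ ^ 2) ≤ NI a b U := by
  unfold NI
  apply setIntegral_mono_set (hU.integrableOn_ann a b)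
  · exact Filter.Eventually.of_forall fun x => add_nonneg (P13_gsq_nn _) (by positivity)
  · exact Filter.Eventually.of_forall hA

private theorem P13_exp_sq (t : ℝ) : (exp t - 1) ^ 2 ≤ 1 + exp (2 * t) := by
  have h1 : exp (2 * t) = exp t ^ 2 := by
    rw [← Real.exp_nat_mul]; norm_num
  rw [h1]
  linarith [exp_pos t]

private theorem P13_lin_add (S : Sys ι) (a : ι) (g h : Ev ι) :
    lin S a (g + h) = lin S a g + lin S a h := by
  unfold lin
  rw [← Finset.sum_add_distrib]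
  apply Finset.sum_congr rfl
  intro j _
  rw [PiLp.add_apply]
  ring

private theorem P13_aa_cont (S : Sys ι) : Continuous (aa S) := by
  unfold aa lin
  fun_prop

/-- integrability of `aa (v0 + U)` on discs -/
private theorem P13_aa_int (B : Base ι) {U : Fld ι} (hU : IsSob U) (R : ℝ) :
    IntegrableOn (fun x => aa B.S (v0 B x + (U x).1)) {x : ℂ | ‖x‖ < R} volume := by
  obtain ⟨C, hC, hlin⟩ := lin_le B.S
  have hball : {x : ℂ | ‖x‖ < R} = Metric.ball (0 : ℂ) R := by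
    ext x; simp
  rw [hball]
  have h1 : IntegrableOn (fun x : ℂ => ((∑ j, (B.S.μ j : ℝ)) * ∑ a, B.S.m a) *
      (1 + exp (2 * C * ‖(U x).1‖))) (Metric.ball (0 : ℂ) R) volume := by
    apply Integrable.const_mul
    apply Integrable.add
    · exact integrableOn_const (by
        exact (measure_ball_lt_top).ne)
    · exact exp_integrable hU (2 * C) R
  refine Integrable.mono' h1 ?_ ?_
  · have hm1 : AEStronglyMeasurable (fun x => v0 B x + (U x).1) volume := by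
      refine ((v0_meas B).aestronglyMeasurable).add ?_
      exact hU.1.fst
    exact ((P13_aa_cont B.S).comp_aestronglyMeasurable hm1).restrict
  · refine Filter.Eventually.of_forall fun x => ?_
    rw [Real.norm_eq_abs, abs_of_nonneg (aa_nonneg _ _)]
    refine (aa_upper B.S _).trans ?_
    rw [mul_assoc]
    apply mul_le_mul_of_nonneg_left _ (Finset.sum_nonneg fun j _ => Nat.cast_nonneg _)
    rw [Finset.sum_mul]
    apply Finset.sum_le_sum
    intro a _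
    apply mul_le_mul_of_nonneg_left _ (B.S.m_pos a).le
    refine (P13_exp_sq _).trans ?_
    have h2 : 2 * lin B.S a (v0 B x + (U x).1) ≤ 2 * C * ‖(U x).1‖ := by
      rw [P13_lin_add]
      have h3 := v0_lin_nonpos B a x
      have h4 := (le_abs_self _).trans (hlin a (U x).1)
      linarith
    have h5 := Real.exp_le_exp.2 h2
    linarith

private theorem P13_v0_int (B : Base ι) (R : ℝ) :
    IntegrableOn (fun x => ‖v0 B x‖) {x : ℂ | ‖x‖ < R} volume := by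
  have hball : {x : ℂ | ‖x‖ < R} = Metric.ball (0 : ℂ) R := by
    ext x; simp
  rw [hball]
  have h1 : IntegrableOn (fun x : ℂ => 1 + ‖v0 B x‖ ^ 2) (Metric.ball (0 : ℂ) R) volume := by
    apply Integrable.add
    · exact integrableOn_const (by
        exact (measure_ball_lt_top).ne)
    · exact (v0_sq B).integrableOn
  refine Integrable.mono' h1 ?_ ?_
  · exact ((v0_meas B).norm.aestronglyMeasurable)
  · refine Filter.Eventually.of_forall fun x => ?_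
    rw [norm_norm]
    linarith [sq_nonneg (‖v0 B x‖ - 1), norm_nonneg (v0 B x)]

/-! ### P13 exponential decay (Agmon) -/
theorem agmon (B : Base ι) : ∃ δ₁ : ℝ, 0 < δ₁ ∧ δ₁ ≤ 1 ∧ ∃ R₁ : ℝ, 10 ≤ R₁ ∧ ∀ R₀ : ℝ, R₁ ≤ R₀ →
    ∃ C₃ : ℝ, ∀ δ Ξ : ℝ, 0 < δ → δ ≤ δ₁ → 0 ≤ Ξ → ∃ ρ₀ : ℝ, ∀ K : Cfg B δ R₀ Ξ, ρ₀ ≤ K.ρ →
    ∀ U : Fld ι, IsMinz K U →
    (∫ x in {x : ℂ | R₀ ≤ ‖x‖ ∧ ‖x‖ < 0.88 * K.ρ},
      exp (1.8 * ‖x‖) * (gsq (U x) + ‖(U x).1‖ ^ 2)) ≤ C₃ ∧
    NII K.ρ (0.88 * K.ρ) U ≤ C₃ * K.ρ ^ 3 * exp (-1.58 * K.ρ) ∧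
    (∫ x in {x : ℂ | ‖x‖ < R₀}, (aa B.S (v0 B x + (U x).1) + 2 * bb B.S (v0 B x + (U x).1))) ≤ C₃ := by
  obtain ⟨δa, hδa, hδa1, ca, hca, Ra, hRa, Ha⟩ := agmon_ineq B
  obtain ⟨δe, hδe, hδe1, Ce, Re, hRe, He⟩ := energy_small B
  obtain ⟨Cn, hCn, hngs⟩ := ngs_le B.S
  refine ⟨min δa δe, lt_min hδa hδe, (min_le_left _ _).trans hδa1, max Ra Re,
    le_max_of_le_right hRe, ?_⟩
  intro R₀ hR₀
  have hR₀a : Ra ≤ R₀ := (le_max_left _ _).trans hR₀
  have hR₀e : Re ≤ R₀ := (le_max_right _ _).trans hR₀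
  have hR₀10 : 10 ≤ R₀ := hRe.trans hR₀e
  obtain ⟨Ci, hCi, Hi⟩ := Th_inner R₀ (by linarith)
  obtain ⟨Cl, Hl⟩ := log_in (ι := ι) R₀ (by linarith)
  set EN := |Ce * (1 + Real.log R₀)| with hEN
  set EI := |Ce * (1 + Real.log R₀) / R₀| with hEI
  have hEN0 : 0 ≤ EN := abs_nonneg _
  have hEI0 : 0 ≤ EI := abs_nonneg _
  set A := Ci * EI / ca with hA
  have hA0 : 0 ≤ A := by positivity
  set X := |Cl| * (1 + Real.log R₀) * ((EN + EI) + EI) with hX
  set D1 := 2.62 * A + exp (1.8 * (R₀ + 1)) * EI with hD1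
  set D2 := 5.24 * A with hD2
  set D3 := 2 * EN + 2 * Cn * ((∫ x in {x : ℂ | ‖x‖ < R₀}, ‖v0 B x‖) + 2 * |R₀| * Real.sqrt X)
    with hD3
  have hV0 : 0 ≤ ∫ x in {x : ℂ | ‖x‖ < R₀}, ‖v0 B x‖ := by
    apply integral_nonneg
    intro x
    exact norm_nonneg _
  have hD10 : 0 ≤ D1 := by positivity
  have hD20 : 0 ≤ D2 := by positivity
  have hD30 : 0 ≤ D3 := by positivity
  refine ⟨D1 + D2 + D3, ?_⟩
  intro δ Ξ hδ hδ1 hΞ
  have hδa' : δ ≤ δa := hδ1.trans (min_le_left _ _)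
  have hδe' : δ ≤ δe := hδ1.trans (min_le_right _ _)
  obtain ⟨ρa, Ha'⟩ := Ha δ R₀ Ξ hδ hδa' hR₀a hΞ
  obtain ⟨ρe, He'⟩ := He δ R₀ Ξ hδ hδe' hR₀e hΞ
  obtain ⟨ρk, Hk⟩ := key_lemma B δ R₀ Ξ hδ (hδa'.trans hδa1) (by linarith) hΞ
  obtain ⟨ρc, Hc⟩ := max_c_crit B δ R₀ Ξ hδ (hδa'.trans hδa1) (by linarith) hΞ
  refine ⟨max (max (max ρa ρe) (max ρk ρc)) (10 * R₀ + 100), ?_⟩
  intro K hK U hUmin
  have hKa : ρa ≤ K.ρ := ((le_max_left _ _).trans (le_max_left _ _)).trans ((le_max_left _ _).trans hK)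
  have hKe : ρe ≤ K.ρ := ((le_max_right _ _).trans (le_max_left _ _)).trans ((le_max_left _ _).trans hK)
  have hKk : ρk ≤ K.ρ := ((le_max_left _ _).trans (le_max_right _ _)).trans ((le_max_left _ _).trans hK)
  have hKc : ρc ≤ K.ρ := ((le_max_right _ _).trans (le_max_right _ _)).trans ((le_max_left _ _).trans hK)
  have hKR : 10 * R₀ + 100 ≤ K.ρ := (le_max_right _ _).trans hK
  set ρ := K.ρ with hρ
  have hρ100 : 100 ≤ ρ := by linarith
  have hρR : R₀ + 2 ≤ 0.88 * ρ := by linarith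
  have hU : IsSob U := hUmin.1
  obtain ⟨hNC, hNI⟩ := He' K hKe U hUmin
  obtain ⟨hT1, hT2, hT3, hT4, hT5, hT6, hT7, hT8, hT9⟩ := Th_props R₀ ρ (by linarith) hρ100 hρR
  set Θ := Th R₀ ρ with hΘ
  have hΘd : Differentiable ℝ Θ := hT1.differentiable (by simp)
  -- the square of the weight
  have hsq1 : ContDiff ℝ ∞ (fun y => Θ y ^ 2) := hT1.pow 2
  have hsqd : ∀ x, fderiv ℝ (fun y => Θ y ^ 2) x = (2 * Θ x) • fderiv ℝ Θ x := by
    intro x
    have := (hΘd x).hasFDerivAt.pow 2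
    rw [this.fderiv]
    simp
  have hsq2 : HasCompactSupport (fderiv ℝ (fun y => Θ y ^ 2)) := by
    have h1 : fderiv ℝ (fun y => Θ y ^ 2) = fun x => (2 * Θ x) • fderiv ℝ Θ x := funext hsqd
    rw [h1]
    exact hT2.smul_left (f := fun x => 2 * Θ x)
  have hUΘ : IsSob (mulF Θ U) := isSob_mulF hT1 hT2 hU
  have hUsq : IsSob (mulF (fun y => Θ y ^ 2) U) := isSob_mulF hsq1 hsq2 hU
  obtain ⟨c, ξ, hmax, hDP⟩ := Hk K hKk U hUmin (-(mulF (fun y => Θ y ^ 2) U)) hUsq.neg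
  rw [DPhi_neg] at hDP
  have hcrit := Hc K hKc U hU c ξ hmax c
  have hmain := Ha' K hKa U hU c ξ hmax.1 hcrit (by linarith only [hDP])
  -- right-hand side of the weighted inequality
  have hNIU : NI (R₀ - 4) (0.9 * ρ) U ≤ EI := by
    have h1 := NII_nonneg ρ (0.9 * ρ) U
    have h2 : 0 ≤ (ρ ^ 3)⁻¹ * NII ρ (0.9 * ρ) U := by positivity
    have h3 : Ce * (1 + Real.log R₀) / R₀ ≤ EI := le_abs_self _
    linarith only [h2, h3, hNI]
  have hNCU : NC B R₀ U ≤ EN := hNC.trans (le_abs_self _)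
  have hann : IntegrableOn (fun x => gsq (U x) + ‖(U x).1‖ ^ 2)
      {x : ℂ | R₀ - 4 < ‖x‖ ∧ ‖x‖ < 0.9 * ρ} volume := hU.integrableOn_ann _ _
  have hrhs : ∫ x in {x : ℂ | R₀ < ‖x‖ ∧ ‖x‖ < R₀ + 1},
        (fderiv ℝ Θ x 1 ^ 2 + fderiv ℝ Θ x Complex.I ^ 2) * ‖(U x).1‖ ^ 2 ≤ Ci * EI := by
    have h1 : ∫ x in {x : ℂ | R₀ < ‖x‖ ∧ ‖x‖ < R₀ + 1},
        (fderiv ℝ Θ x 1 ^ 2 + fderiv ℝ Θ x Complex.I ^ 2) * ‖(U x).1‖ ^ 2
        ≤ ∫ x in {x : ℂ | R₀ < ‖x‖ ∧ ‖x‖ < R₀ + 1}, Ci * (gsq (U x) + ‖(U x).1‖ ^ 2) := by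
      apply integral_mono_of_nonneg
      · exact Filter.Eventually.of_forall fun x => by (clear * -; positivity)
      · exact (hU.integrableOn_ann R₀ (R₀ + 1)).const_mul Ci
      · refine (ae_restrict_iff' (P13_meas_ann _ _)).2 (Filter.Eventually.of_forall fun x hx => ?_)
        have h2 := Hi ρ hρ100 hρR x hx.2.le
        have h3 := P13_gsq_nn (U x)
        have h4 : (0 : ℝ) ≤ ‖(U x).1‖ ^ 2 := by positivity
        calc (fderiv ℝ Θ x 1 ^ 2 + fderiv ℝ Θ x Complex.I ^ 2) * ‖(U x).1‖ ^ 2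
            ≤ Ci * ‖(U x).1‖ ^ 2 := mul_le_mul_of_nonneg_right h2 h4
          _ ≤ Ci * (gsq (U x) + ‖(U x).1‖ ^ 2) := by
              apply mul_le_mul_of_nonneg_left _ hCi.le
              linarith only [h3]
    refine h1.trans ?_
    rw [integral_const_mul]
    apply mul_le_mul_of_nonneg_left _ hCi.le
    refine (P13_sub hU (a := R₀ - 4) (b := 0.9 * ρ) ?_).trans hNIU
    intro x hx
    exact ⟨by linarith only [hx, hx.1], by linarith only [hKR, hRe, hR₀e, hx, hx.2]⟩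
  have hNIΘ0 := NI_nonneg R₀ (0.9 * ρ) (mulF Θ U)
  have hNIIΘ0 := NII_nonneg ρ (0.9 * ρ) (mulF Θ U)
  have hρ3 : 0 < ρ ^ 3 := by positivity
  have hsum : NI R₀ (0.9 * ρ) (mulF Θ U) + (ρ ^ 3)⁻¹ * NII ρ (0.9 * ρ) (mulF Θ U) ≤ A := by
    rw [hA, le_div_iff₀ hca, mul_comm]
    exact hmain.trans hrhs
  have hNIΘ : NI R₀ (0.9 * ρ) (mulF Θ U) ≤ A := by
    have : 0 ≤ (ρ ^ 3)⁻¹ * NII ρ (0.9 * ρ) (mulF Θ U) := by positivity
    linarith only [hsum, this]
  have hNIIΘ : NII ρ (0.9 * ρ) (mulF Θ U) ≤ ρ ^ 3 * A := by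
    have h1 : (ρ ^ 3)⁻¹ * NII ρ (0.9 * ρ) (mulF Θ U) ≤ A := by linarith only [hNIΘ0, hsum]
    rwa [inv_mul_le_iff₀ hρ3] at h1
  -- pointwise comparison
  have hpw : ∀ x, R₀ + 1 ≤ ‖x‖ → Θ x ^ 2 * gsq (U x) ≤ 2 * gsq (mulF Θ U x)
      + 1.62 * ‖(mulF Θ U x).1‖ ^ 2 := by
    intro x hx
    have h1 := (gsq_mulF Θ U x).1
    have h2 := hT6 x hx
    have h3 : (0 : ℝ) ≤ ‖(U x).1‖ ^ 2 := by positivity
    have h4 : ‖(mulF Θ U x).1‖ ^ 2 = Θ x ^ 2 * ‖(U x).1‖ ^ 2 := by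
      show ‖Θ x • (U x).1‖ ^ 2 = _
      rw [norm_smul, mul_pow, Real.norm_eq_abs, sq_abs]
    rw [h4]
    have h5 := mul_le_mul_of_nonneg_right h2 h3
    linarith only [h1, h5]
  have hnorm1 : ∀ x, ‖(mulF Θ U x).1‖ ^ 2 = Θ x ^ 2 * ‖(U x).1‖ ^ 2 := by
    intro x
    show ‖Θ x • (U x).1‖ ^ 2 = _
    rw [norm_smul, mul_pow, Real.norm_eq_abs, sq_abs]
  refine ⟨?_, ?_, ?_⟩
  · -- first estimate
    have hAsub : {x : ℂ | R₀ ≤ ‖x‖ ∧ ‖x‖ < 0.88 * ρ} ⊆ {x : ℂ | R₀ - 4 < ‖x‖ ∧ ‖x‖ < 0.9 * ρ} := by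
      intro x hx
      exact ⟨by linarith only [hx, hx.1], by linarith only [hKR, hRe, hR₀e, hx, hx.2]⟩
    have hi1 : IntegrableOn (fun x => gsq (mulF Θ U x) + ‖(mulF Θ U x).1‖ ^ 2)
        {x : ℂ | R₀ ≤ ‖x‖ ∧ ‖x‖ < 0.88 * ρ} volume :=
      (hUΘ.integrableOn_ann (R₀ - 4) (0.9 * ρ)).mono_set hAsub
    have hi2 : IntegrableOn (({x : ℂ | ‖x‖ < R₀ + 1}).indicator
        (fun x => gsq (U x) + ‖(U x).1‖ ^ 2)) {x : ℂ | R₀ ≤ ‖x‖ ∧ ‖x‖ < 0.88 * ρ} volume :=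
      (hann.mono_set hAsub).indicator (P13_meas_lt _)
    have h1 : ∫ x in {x : ℂ | R₀ ≤ ‖x‖ ∧ ‖x‖ < 0.88 * ρ},
        exp (1.8 * ‖x‖) * (gsq (U x) + ‖(U x).1‖ ^ 2)
        ≤ ∫ x in {x : ℂ | R₀ ≤ ‖x‖ ∧ ‖x‖ < 0.88 * ρ},
          (2.62 * (gsq (mulF Θ U x) + ‖(mulF Θ U x).1‖ ^ 2)
            + exp (1.8 * (R₀ + 1)) * ({x : ℂ | ‖x‖ < R₀ + 1}).indicator
                (fun x => gsq (U x) + ‖(U x).1‖ ^ 2) x) := by
      apply integral_mono_of_nonneg
      · refine Filter.Eventually.of_forall fun x => ?_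
        have := P13_gsq_nn (U x)
        show 0 ≤ exp (1.8 * ‖x‖) * (gsq (U x) + ‖(U x).1‖ ^ 2)
        (clear * - this; positivity)
      · exact (hi1.const_mul 2.62).add (hi2.const_mul _)
      · refine (ae_restrict_iff' (P13_meas_hann _ _)).2 (Filter.Eventually.of_forall fun x hx => ?_)
        have hx1 : R₀ ≤ ‖x‖ := hx.1
        have hx2 : ‖x‖ < 0.88 * ρ := hx.2
        have hn1 : 0 ≤ gsq (U x) + ‖(U x).1‖ ^ 2 := add_nonneg (P13_gsq_nn _) (by positivity)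
        have hn2 : 0 ≤ gsq (mulF Θ U x) + ‖(mulF Θ U x).1‖ ^ 2 :=
          add_nonneg (P13_gsq_nn _) (by positivity)
        beta_reduce
        rcases lt_or_ge ‖x‖ (R₀ + 1) with h2 | h2
        · rw [indicator_of_mem (show x ∈ {x : ℂ | ‖x‖ < R₀ + 1} from h2)]
          have h3 : exp (1.8 * ‖x‖) ≤ exp (1.8 * (R₀ + 1)) := by
            apply Real.exp_le_exp.2; linarith only [h2]
          have h4 := mul_le_mul_of_nonneg_right h3 hn1
          linarith only [h4, hn2]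
        · rw [indicator_of_notMem (show x ∉ {x : ℂ | ‖x‖ < R₀ + 1} from fun h => absurd h (not_lt.2 h2))]
          have h3 := hpw x h2
          have h4 := hT7 x h2 hx2.le
          have h5 : exp (1.8 * ‖x‖) = Θ x ^ 2 := by
            rw [h4, ← Real.exp_nat_mul]
            congr 1
            push_cast
            ring
          have h6 := hnorm1 x
          rw [h5, mul_zero, add_zero, mul_add]
          have h7 := P13_gsq_nn (mulF Θ U x)
          linarith only [h3, h6, h7]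
    have h2 : ∫ x in {x : ℂ | R₀ ≤ ‖x‖ ∧ ‖x‖ < 0.88 * ρ},
          (gsq (mulF Θ U x) + ‖(mulF Θ U x).1‖ ^ 2) ≤ NI R₀ (0.9 * ρ) (mulF Θ U) := by
      rw [setIntegral_eq_of_subset_of_forall_diff_eq_zero (P13_meas_hann _ _)
        (s := {x : ℂ | R₀ < ‖x‖ ∧ ‖x‖ < 0.88 * ρ}) (fun x hx => ⟨le_of_lt hx.1, hx.2⟩)]
      · refine P13_sub hUΘ ?_
        intro x hx
        exact ⟨hx.1, by linarith only [hKR, hRe, hR₀e, hx, hx.2]⟩
      · intro x hx
        have hx1 : ‖x‖ ≤ R₀ := by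
          by_contra h
          exact hx.2 ⟨not_le.1 h, hx.1.2⟩
        have h3 := hT4 x hx1
        have h4 := hT5 x hx1
        have h5 : mulF Θ U x = 0 := by
          unfold mulF
          rw [h3, h4]
          simp
        rw [h5]
        simp [gsq]
    have h3 : ∫ x in {x : ℂ | R₀ ≤ ‖x‖ ∧ ‖x‖ < 0.88 * ρ}, ({x : ℂ | ‖x‖ < R₀ + 1}).indicator
                (fun x => gsq (U x) + ‖(U x).1‖ ^ 2) x ≤ EI := by
      rw [setIntegral_indicator (P13_meas_lt _)]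
      refine (P13_sub hU (a := R₀ - 4) (b := 0.9 * ρ) ?_).trans hNIU
      exact inter_subset_left.trans hAsub
    rw [integral_add (hi1.const_mul 2.62) (hi2.const_mul _), integral_const_mul, integral_const_mul]
      at h1
    have h4 := mul_le_mul_of_nonneg_left h3 (exp_pos (1.8 * (R₀ + 1))).le
    linarith only [h1, h2, h4, hA0, hD1, hD2, hD30, hNIΘ]
  · -- second estimate
    have hi1 : Integrable (fun x : ℂ => gsq (mulF Θ U x) + wgt ρ ‖x‖ * ‖(mulF Θ U x).1‖ ^ 2) volume :=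
      hUΘ.integrable_gsq.add (hUΘ.integrable_wgt (by linarith only [hKR, hRe, hR₀e]))
    have hi2 : IntegrableOn (({x : ℂ | ‖x‖ < 0.9 * ρ}).indicator
        (fun x => gsq (mulF Θ U x) + ‖(mulF Θ U x).1‖ ^ 2)) {x : ℂ | 0.88 * ρ ≤ ‖x‖} volume := by
      rw [IntegrableOn, integrable_indicator_iff (P13_meas_lt _)]
      rw [IntegrableOn, Measure.restrict_restrict (P13_meas_lt _)]
      refine (hUΘ.integrableOn_ann (R₀ - 4) (0.9 * ρ)).mono_set ?_
      intro x hx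
      have h1 : ‖x‖ < 0.9 * ρ := hx.1
      have h2 : 0.88 * ρ ≤ ‖x‖ := hx.2
      exact ⟨by linarith only [h2, hKR, hRe, hR₀e], h1⟩
    have hi3 : IntegrableOn (({x : ℂ | 0.9 * ρ ≤ ‖x‖}).indicator
        (fun x => gsq (mulF Θ U x) + wgt ρ ‖x‖ * ‖(mulF Θ U x).1‖ ^ 2))
          {x : ℂ | 0.88 * ρ ≤ ‖x‖} volume :=
      (hi1.indicator (P13_meas_le _)).integrableOn
    have h1 : ∫ x in {x : ℂ | 0.88 * ρ ≤ ‖x‖},
        exp (1.584 * ρ) * (gsq (U x) + wgt ρ ‖x‖ * ‖(U x).1‖ ^ 2)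
        ≤ ∫ x in {x : ℂ | 0.88 * ρ ≤ ‖x‖}, (2.62 * (({x : ℂ | ‖x‖ < 0.9 * ρ}).indicator
            (fun x => gsq (mulF Θ U x) + ‖(mulF Θ U x).1‖ ^ 2) x)
            + 2.62 * (({x : ℂ | 0.9 * ρ ≤ ‖x‖}).indicator
            (fun x => gsq (mulF Θ U x) + wgt ρ ‖x‖ * ‖(mulF Θ U x).1‖ ^ 2) x)) := by
      apply integral_mono_of_nonneg
      · refine Filter.Eventually.of_forall fun x => ?_
        have h2 := P13_gsq_nn (U x)
        have h3 := P13_wgt_nn ρ ‖x‖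
        show 0 ≤ exp (1.584 * ρ) * (gsq (U x) + wgt ρ ‖x‖ * ‖(U x).1‖ ^ 2)
        (clear * - h2 h3; positivity)
      · exact (hi2.const_mul 2.62).add (hi3.const_mul 2.62)
      · refine (ae_restrict_iff' (P13_meas_le _)).2 (Filter.Eventually.of_forall fun x hx => ?_)
        have hx1 : 0.88 * ρ ≤ ‖x‖ := hx
        have hxR : R₀ + 1 ≤ ‖x‖ := by linarith only [hKR, hRe, hR₀e, hx1]
        have h2 := P13_gsq_nn (U x)
        have h3 := P13_wgt_nn ρ ‖x‖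
        have h3' := P13_wgt_le ρ ‖x‖
        have h4 := hT8 x hx1
        have h5 : exp (1.584 * ρ) ≤ Θ x ^ 2 := by
          have h6 : exp (1.584 * ρ) = exp (0.9 * (0.88 * ρ)) ^ 2 := by
            rw [← Real.exp_nat_mul]
            congr 1
            push_cast
            ring
          rw [h6]
          exact pow_le_pow_left₀ (exp_pos _).le h4 2
        have h6 : 0 ≤ gsq (U x) + wgt ρ ‖x‖ * ‖(U x).1‖ ^ 2 := by (clear * - h2 h3; positivity)
        have h7 := mul_le_mul_of_nonneg_right h5 h6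
        beta_reduce
        refine h7.trans ?_
        have h8 := hnorm1 x
        have h9 := P13_gsq_nn (mulF Θ U x)
        have h10 : (0 : ℝ) ≤ ‖(mulF Θ U x).1‖ ^ 2 := by positivity
        rcases lt_or_ge ‖x‖ (0.9 * ρ) with h11 | h11
        · rw [indicator_of_mem (show x ∈ {x : ℂ | ‖x‖ < 0.9 * ρ} from h11),
            indicator_of_notMem (show x ∉ {x : ℂ | 0.9 * ρ ≤ ‖x‖} from fun h => absurd h11 (not_lt.2 h))]
          have h12 := hpw x hxR
          have h13 : Θ x ^ 2 * (wgt ρ ‖x‖ * ‖(U x).1‖ ^ 2) ≤ ‖(mulF Θ U x).1‖ ^ 2 := by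
            rw [h8]
            exact mul_le_mul_of_nonneg_left
              (mul_le_of_le_one_left (sq_nonneg _) (P13_wgt_le ρ ‖x‖)) (sq_nonneg _)
          rw [mul_add]
          linarith only [h12, h13, h9]
        · rw [indicator_of_notMem (show x ∉ {x : ℂ | ‖x‖ < 0.9 * ρ} from fun h => absurd h (not_lt.2 h11)),
            indicator_of_mem (show x ∈ {x : ℂ | 0.9 * ρ ≤ ‖x‖} from h11)]
          have h12 := (gsq_mulF Θ U x).1
          have h13 := (hT9 x (by linarith only [h11, hKR, hRe, hR₀e])).2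
          rw [h13] at h12
          simp only [ContinuousLinearMap.zero_apply] at h12
          rw [h8]
          have h14 : 0 ≤ wgt ρ ‖x‖ * (Θ x ^ 2 * ‖(U x).1‖ ^ 2) := by (clear * - h3; positivity)
          linarith only [h12, h14, h9]
    rw [integral_add (hi2.const_mul 2.62) (hi3.const_mul 2.62), integral_const_mul,
      integral_const_mul, integral_const_mul, setIntegral_indicator (P13_meas_lt _),
      setIntegral_indicator (P13_meas_le _)] at h1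
    have h2 : ∫ x in {x : ℂ | 0.88 * ρ ≤ ‖x‖} ∩ {x : ℂ | ‖x‖ < 0.9 * ρ},
        (gsq (mulF Θ U x) + ‖(mulF Θ U x).1‖ ^ 2) ≤ NI R₀ (0.9 * ρ) (mulF Θ U) := by
      refine P13_sub hUΘ ?_
      intro x hx
      have h1 : 0.88 * ρ ≤ ‖x‖ := hx.1
      exact ⟨by linarith only [h1, hKR, hRe, hR₀e], hx.2⟩
    have h3 : ∫ x in {x : ℂ | 0.88 * ρ ≤ ‖x‖} ∩ {x : ℂ | 0.9 * ρ ≤ ‖x‖},
        (gsq (mulF Θ U x) + wgt ρ ‖x‖ * ‖(mulF Θ U x).1‖ ^ 2) ≤ NII ρ (0.9 * ρ) (mulF Θ U) := by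
      unfold NII
      apply setIntegral_mono_set hi1.integrableOn
      · refine Filter.Eventually.of_forall fun x => ?_
        have h2 := P13_gsq_nn (mulF Θ U x)
        have h3 := P13_wgt_nn ρ ‖x‖
        show 0 ≤ gsq (mulF Θ U x) + wgt ρ ‖x‖ * ‖(mulF Θ U x).1‖ ^ 2
        (clear * - h2 h3; positivity)
      · exact Filter.Eventually.of_forall inter_subset_right
    have h4 : exp (1.584 * ρ) * NII ρ (0.88 * ρ) U ≤ 5.24 * A * ρ ^ 3 := by
      have h5 : (1 : ℝ) ≤ ρ ^ 3 := one_le_pow₀ (by linarith only [hKR, hRe, hR₀e])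
      have h6 : A ≤ ρ ^ 3 * A := le_mul_of_one_le_left hA0 h5
      unfold NII
      unfold NII at h3 hNIIΘ
      linarith only [h1, h2, h3, h6, hNIIΘ, hNIΘ]
    have h5 : NII ρ (0.88 * ρ) U ≤ 5.24 * A * ρ ^ 3 * exp (-(1.584 * ρ)) := by
      rw [Real.exp_neg, ← div_eq_mul_inv, le_div_iff₀ (exp_pos _), mul_comm]
      exact h4
    have h6 : exp (-(1.584 * ρ)) ≤ exp (-1.58 * ρ) := by
      apply Real.exp_le_exp.2; linarith only [hKR, hRe, hR₀e]
    have h7 : 0 ≤ 5.24 * A * ρ ^ 3 := by (clear * - hCi hca hρ100; positivity)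
    have h8 := mul_le_mul_of_nonneg_left h6 h7
    have h9 : 5.24 * A * ρ ^ 3 * exp (-1.58 * ρ) ≤ (D1 + D2 + D3) * ρ ^ 3 * exp (-1.58 * ρ) := by
      apply mul_le_mul_of_nonneg_right _ (exp_pos _).le
      apply mul_le_mul_of_nonneg_right _ hρ3.le
      linarith only [hD10, hD2, hD30]
    linarith only [h5, h8, h9]
  · -- third estimate
    have hiaa := P13_aa_int B hU R₀
    have hig : IntegrableOn (fun x => gsq (U x)) {x : ℂ | ‖x‖ < R₀} volume :=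
      hU.integrable_gsq.integrableOn
    have hNCe : (∫ x in {x : ℂ | ‖x‖ < R₀}, gsq (U x))
        + (∫ x in {x : ℂ | ‖x‖ < R₀}, aa B.S (v0 B x + (U x).1)) ≤ EN := by
      rw [← integral_add hig hiaa]
      exact hNCU
    have hg0 : 0 ≤ ∫ x in {x : ℂ | ‖x‖ < R₀}, gsq (U x) :=
      integral_nonneg fun x => P13_gsq_nn _
    have ha0 : 0 ≤ ∫ x in {x : ℂ | ‖x‖ < R₀}, aa B.S (v0 B x + (U x).1) :=
      integral_nonneg fun x => aa_nonneg _ _
    -- L² bound in the disc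
    have hX1 : ∫ x in {x : ℂ | ‖x‖ < R₀}, ‖(U x).1‖ ^ 2 ≤ X := by
      have h1 := Hl R₀ le_rfl (by linarith only [hRe, hR₀e]) U hU
      have h2 : ∫ x in {x : ℂ | ‖x‖ < R₀ + 1}, gsq (U x) ≤ EN + EI := by
        have h3 : {x : ℂ | ‖x‖ < R₀ + 1} = {x : ℂ | ‖x‖ < R₀} ∪ {x : ℂ | R₀ ≤ ‖x‖ ∧ ‖x‖ < R₀ + 1} := by
          ext x
          simp only [mem_setOf_eq, mem_union]
          constructor
          · intro h
            rcases lt_or_ge ‖x‖ R₀ with h4 | h4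
            · exact Or.inl h4
            · exact Or.inr ⟨h4, h⟩
          · rintro (h | h)
            · linarith only [h]
            · exact h.2
        rw [h3, setIntegral_union _ (P13_meas_hann _ _) hig hU.integrable_gsq.integrableOn]
        · have h4 : ∫ x in {x : ℂ | R₀ ≤ ‖x‖ ∧ ‖x‖ < R₀ + 1}, gsq (U x) ≤ EI := by
            have h5 : ∫ x in {x : ℂ | R₀ ≤ ‖x‖ ∧ ‖x‖ < R₀ + 1}, gsq (U x)
                ≤ ∫ x in {x : ℂ | R₀ ≤ ‖x‖ ∧ ‖x‖ < R₀ + 1}, (gsq (U x) + ‖(U x).1‖ ^ 2) := by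
              apply integral_mono_of_nonneg
              · exact Filter.Eventually.of_forall fun x => P13_gsq_nn _
              · refine (hU.integrableOn_ann (R₀ - 4) (0.9 * ρ)).mono_set ?_
                intro x hx
                exact ⟨by linarith only [hx, hx.1], by linarith only [hKR, hRe, hR₀e, hx, hx.2]⟩
              · refine Filter.Eventually.of_forall fun x => ?_
                show gsq (U x) ≤ gsq (U x) + ‖(U x).1‖ ^ 2
                have : (0 : ℝ) ≤ ‖(U x).1‖ ^ 2 := by positivity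
                linarith only [this]
            refine h5.trans ((P13_sub hU (a := R₀ - 4) (b := 0.9 * ρ) ?_).trans hNIU)
            intro x hx
            exact ⟨by linarith only [hx, hx.1], by linarith only [hKR, hRe, hR₀e, hx, hx.2]⟩
          linarith only [h4, hNCe, ha0]
        · rw [Set.disjoint_left]
          intro x hx hx'
          exact absurd hx'.1 (not_le.2 hx)
      have h3 : ∫ x in {x : ℂ | R₀ < ‖x‖ ∧ ‖x‖ < R₀ + 1}, ‖(U x).1‖ ^ 2 ≤ EI := by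
        have h5 : ∫ x in {x : ℂ | R₀ < ‖x‖ ∧ ‖x‖ < R₀ + 1}, ‖(U x).1‖ ^ 2
            ≤ ∫ x in {x : ℂ | R₀ < ‖x‖ ∧ ‖x‖ < R₀ + 1}, (gsq (U x) + ‖(U x).1‖ ^ 2) := by
          apply integral_mono_of_nonneg
          · exact Filter.Eventually.of_forall fun x => by positivity
          · exact hU.integrableOn_ann R₀ (R₀ + 1)
          · refine Filter.Eventually.of_forall fun x => ?_
            show ‖(U x).1‖ ^ 2 ≤ gsq (U x) + ‖(U x).1‖ ^ 2
            have := P13_gsq_nn (U x)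
            linarith only [this]
        refine h5.trans ((P13_sub hU (a := R₀ - 4) (b := 0.9 * ρ) ?_).trans hNIU)
        intro x hx
        exact ⟨by linarith only [hx, hx.1], by linarith only [hKR, hRe, hR₀e, hx, hx.2]⟩
      have h4 : 0 ≤ Real.log R₀ := Real.log_nonneg (by linarith only [hRe, hR₀e])
      have h5 : 0 ≤ (∫ x in {x : ℂ | ‖x‖ < R₀ + 1}, gsq (U x))
          + ∫ x in {x : ℂ | R₀ < ‖x‖ ∧ ‖x‖ < R₀ + 1}, ‖(U x).1‖ ^ 2 := by
        apply add_nonneg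
        · exact integral_nonneg fun x => P13_gsq_nn _
        · exact integral_nonneg fun x => by positivity
      calc ∫ x in {x : ℂ | ‖x‖ < R₀}, ‖(U x).1‖ ^ 2
          ≤ Cl * (1 + Real.log R₀) * ((∫ x in {x : ℂ | ‖x‖ < R₀ + 1}, gsq (U x))
          + ∫ x in {x : ℂ | R₀ < ‖x‖ ∧ ‖x‖ < R₀ + 1}, ‖(U x).1‖ ^ 2) := h1
        _ ≤ |Cl| * (1 + Real.log R₀) * ((∫ x in {x : ℂ | ‖x‖ < R₀ + 1}, gsq (U x))
          + ∫ x in {x : ℂ | R₀ < ‖x‖ ∧ ‖x‖ < R₀ + 1}, ‖(U x).1‖ ^ 2) := by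
            apply mul_le_mul_of_nonneg_right _ h5
            exact mul_le_mul_of_nonneg_right (le_abs_self _) (by linarith only [h4])
        _ ≤ X := by
            rw [hX]
            apply mul_le_mul_of_nonneg_left (by linarith only [h2, h3])
            positivity
    obtain ⟨hn1, hn2⟩ := hU.integrableOn_norm_ball R₀
    have hL1 : (∫ x in {x : ℂ | ‖x‖ < R₀}, ‖(U x).1‖) ≤ 2 * |R₀| * Real.sqrt X := by
      refine hn2.trans ?_
      apply mul_le_mul_of_nonneg_left (Real.sqrt_le_sqrt hX1) (by positivity)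
    have hv0i := P13_v0_int B R₀
    have hvn : IntegrableOn (fun x => ‖v0 B x‖ + ‖(U x).1‖) {x : ℂ | ‖x‖ < R₀} volume := hv0i.add hn1
    have h1 : ∫ x in {x : ℂ | ‖x‖ < R₀}, (aa B.S (v0 B x + (U x).1) + 2 * bb B.S (v0 B x + (U x).1))
        ≤ ∫ x in {x : ℂ | ‖x‖ < R₀}, (2 * aa B.S (v0 B x + (U x).1)
          + 2 * Cn * (‖v0 B x‖ + ‖(U x).1‖)) := by
      apply integral_mono_of_nonneg
      · refine Filter.Eventually.of_forall fun x => ?_
        have h2 := aa_nonneg B.S (v0 B x + (U x).1)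
        have h3 := bb_nonneg B.S (v0 B x + (U x).1)
        show 0 ≤ aa B.S (v0 B x + (U x).1) + 2 * bb B.S (v0 B x + (U x).1)
        linarith only [h2, h3]
      · exact (hiaa.const_mul 2).add (hvn.const_mul (2 * Cn))
      · refine Filter.Eventually.of_forall fun x => ?_
        show aa B.S (v0 B x + (U x).1) + 2 * bb B.S (v0 B x + (U x).1)
          ≤ 2 * aa B.S (v0 B x + (U x).1) + 2 * Cn * (‖v0 B x‖ + ‖(U x).1‖)
        have h2 := bb_le B.S (v0 B x + (U x).1)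
        have h3 := hngs (v0 B x + (U x).1)
        have h4 := norm_add_le (v0 B x) (U x).1
        have h5 := mul_le_mul_of_nonneg_left h4 hCn.le
        linarith only [h2, h3, h5]
    rw [integral_add (hiaa.const_mul 2) (hvn.const_mul (2 * Cn)), integral_const_mul,
      integral_const_mul] at h1
    have h2 : ∫ x in {x : ℂ | ‖x‖ < R₀}, (‖v0 B x‖ + ‖(U x).1‖)
        = (∫ x in {x : ℂ | ‖x‖ < R₀}, ‖v0 B x‖) + ∫ x in {x : ℂ | ‖x‖ < R₀}, ‖(U x).1‖ :=
      integral_add hv0i hn1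
    have h3 : ∫ x in {x : ℂ | ‖x‖ < R₀}, (‖v0 B x‖ + ‖(U x).1‖)
        ≤ (∫ x in {x : ℂ | ‖x‖ < R₀}, ‖v0 B x‖) + 2 * |R₀| * Real.sqrt X := by
      rw [h2]; linarith only [hL1]
    have h4 := mul_le_mul_of_nonneg_left h3 (show (0 : ℝ) ≤ 2 * Cn by positivity)
    have h5 : (∫ x in {x : ℂ | ‖x‖ < R₀}, aa B.S (v0 B x + (U x).1)) ≤ EN := by linarith only [hNCe, hg0]
    refine h1.trans ?_
    linarith only [h4, hA0, hD10, hD2, hNCe, hg0]

end Pool.MP_ad5d82_an.Wl
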