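import Pool.Agent.Lib.MP_ad5d82_an.h24.PDefs
import Pool.Agent.Lib.MP_ad5d82_an.h24.F.F1
import Pool.Agent.Lib.MP_ad5d82_an.h24.F.F2
import Pool.Agent.Lib.MP_ad5d82_an.h24.F.F4
import Pool.Agent.Lib.MP_ad5d82_an.h24.F.F5
import Pool.Agent.Lib.MP_ad5d82_an.h24.P.P0
import Pool.Agent.Lib.MP_ad5d82_an.h24.P.P1
import Pool.Agent.Lib.MP_ad5d82_an.h24.P.P1a
import Pool.Agent.Lib.MP_ad5d82_an.h24.P.P1b
import Pool.Agent.Lib.MP_ad5d82_an.h24.P.P3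
import Pool.Agent.Lib.MP_ad5d82_an.h24.P.P3b
import Pool.Agent.Lib.MP_ad5d82_an.h24.P.P4b

set_option autoImplicit false

namespace Pool.MP_ad5d82_an.Wl

open Real Set MeasureTheory Filter Topology
open scoped ContDiff

variable {ι : Type} [Fintype ι] [DecidableEq ι]

variable {B : Base ι} {δ R₀ Ξ : ℝ}


/-! ### P14a second differences of the inner potential energy -/

private theorem P14a_lin_add (S : Sys ι) (a : ι) (v u : Ev ι) :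
    lin S a (v + u) = lin S a v + lin S a u := by
  unfold lin
  rw [← Finset.sum_add_distrib]
  refine Finset.sum_congr rfl fun j _ => ?_
  rw [PiLp.add_apply]
  ring

private theorem P14a_cont_lin (S : Sys ι) (a : ι) : Continuous (lin S a) := by
  unfold lin
  fun_prop

private theorem P14a_cont_aa (S : Sys ι) : Continuous (aa S) := by
  unfold aa
  have := P14a_cont_lin S
  fun_prop

private theorem P14a_cont_bb (S : Sys ι) : Continuous (bb S) := by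
  unfold bb
  have := P14a_cont_lin S
  fun_prop

private theorem P14a_bound (S : Sys ι) : ∃ C : ℝ, 0 < C ∧ ∀ (v u : Ev ι), (∀ a, lin S a v ≤ 0) →
    aa S (v + u) + 2 * bb S (v + u) ≤ C * (1 + ‖v‖ ^ 2) + C * exp (C * ‖u‖) := by
  obtain ⟨C1, hC1, h1⟩ := lin_le S
  obtain ⟨C2, hC2, h2⟩ := ngs_le S
  set M : ℝ := (∑ j, (S.μ j : ℝ)) * ∑ a, S.m a with hM
  have hM0 : 0 ≤ M := mul_nonneg (Finset.sum_nonneg fun _ _ => Nat.cast_nonneg _)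
    (Finset.sum_nonneg fun a _ => (S.m_pos a).le)
  refine ⟨2 * M + 2 * C1 + 2 * C2 + 1, by positivity, fun v u hv => ?_⟩
  set C := 2 * M + 2 * C1 + 2 * C2 + 1 with hC
  have hlin : ∀ a, lin S a (v + u) ≤ C1 * ‖u‖ := fun a => by
    rw [P14a_lin_add]
    have := (abs_le.1 (h1 a u)).2
    linarith [hv a]
  have haa : aa S (v + u) ≤ M * exp (2 * C1 * ‖u‖) := by
    refine (aa_upper S _).trans ?_
    have : ∑ a, S.m a * (exp (lin S a (v + u)) - 1) ^ 2 ≤ (∑ a, S.m a) * exp (2 * C1 * ‖u‖) := by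
      rw [Finset.sum_mul]
      refine Finset.sum_le_sum fun a _ => mul_le_mul_of_nonneg_left ?_ (S.m_pos a).le
      have e1 : exp (lin S a (v + u)) ≤ exp (C1 * ‖u‖) := exp_le_exp.2 (hlin a)
      have e2 : 1 ≤ exp (C1 * ‖u‖) := one_le_exp (by positivity)
      have e3 := exp_pos (lin S a (v + u))
      have e4 : exp (2 * C1 * ‖u‖) = exp (C1 * ‖u‖) ^ 2 := by
        rw [← exp_nat_mul]
        congr 1
        push_cast
        ring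
      rw [e4]
      nlinarith
    calc _ ≤ (∑ j, (S.μ j : ℝ)) * ((∑ a, S.m a) * exp (2 * C1 * ‖u‖)) :=
          mul_le_mul_of_nonneg_left this (Finset.sum_nonneg fun _ _ => Nat.cast_nonneg _)
      _ = M * exp (2 * C1 * ‖u‖) := by rw [hM]; ring
  have hbb := bb_le S (v + u)
  have hng := h2 (v + u)
  have hn : ‖v + u‖ ≤ ‖v‖ + ‖u‖ := norm_add_le _ _
  have hv2 : ‖v‖ ≤ 1 + ‖v‖ ^ 2 := by linarith [norm_nonneg v, sq_nonneg (‖v‖ - 1)]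
  have e5 : exp (2 * C1 * ‖u‖) ≤ exp (C * ‖u‖) := exp_le_exp.2
    (mul_le_mul_of_nonneg_right (by rw [hC]; linarith) (norm_nonneg _))
  have e6 : ‖u‖ ≤ exp (C * ‖u‖) := by
    have : C * ‖u‖ + 1 ≤ exp (C * ‖u‖) := add_one_le_exp _
    have hC1' : 1 ≤ C := by rw [hC]; linarith
    nlinarith [norm_nonneg u]
  have e7 : C2 * ‖v + u‖ ≤ C2 * (1 + ‖v‖ ^ 2) + C2 * exp (C * ‖u‖) := by
    rw [← mul_add]
    exact mul_le_mul_of_nonneg_left (by linarith) hC2.le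
  have e8 : M * exp (2 * C1 * ‖u‖) ≤ M * exp (C * ‖u‖) := mul_le_mul_of_nonneg_left e5 hM0
  have e9 : 0 < exp (C * ‖u‖) := exp_pos _
  have e10 : 0 ≤ ‖v‖ ^ 2 := by positivity
  have e11 : C * (1 + ‖v‖ ^ 2) = (2 * M + 2 * C1 + 1) * (1 + ‖v‖ ^ 2) + 2 * C2 * (1 + ‖v‖ ^ 2) := by
    rw [hC]; ring
  have e12 : C * exp (C * ‖u‖) = (2 * C1 + 1) * exp (C * ‖u‖) + 2 * M * exp (C * ‖u‖) +
      2 * C2 * exp (C * ‖u‖) := by
    conv_lhs => rw [hC]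
    ring
  rw [e11, e12]
  have e13 : 0 ≤ (2 * M + 2 * C1 + 1) * (1 + ‖v‖ ^ 2) := by positivity
  have e14 : 0 ≤ (2 * C1 + 1) * exp (C * ‖u‖) := by positivity
  linarith

private theorem P14a_int (B : Base ι) {U : Fld ι} (hU : IsSob U) (R : ℝ) :
    IntegrableOn (fun x => aa B.S (v0 B x + (U x).1) + 2 * bb B.S (v0 B x + (U x).1))
      {x : ℂ | ‖x‖ < R} volume := by
  obtain ⟨C, hC, hb⟩ := P14a_bound B.S
  have hball : {x : ℂ | ‖x‖ < R} = Metric.ball (0 : ℂ) R := by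
    ext x; simp
  have hm : AEStronglyMeasurable (fun x => v0 B x + (U x).1) volume :=
    (v0_meas B).aestronglyMeasurable.add hU.1.fst
  have hm2 : AEStronglyMeasurable
      (fun x => aa B.S (v0 B x + (U x).1) + 2 * bb B.S (v0 B x + (U x).1)) volume :=
    ((P14a_cont_aa B.S).comp_aestronglyMeasurable hm).add
      (((P14a_cont_bb B.S).comp_aestronglyMeasurable hm).const_mul 2)
  have i1 : IntegrableOn (fun x : ℂ => C * (1 + ‖v0 B x‖ ^ 2)) {x : ℂ | ‖x‖ < R} volume := by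
    refine Integrable.const_mul ?_ C
    refine Integrable.add ?_ (v0_sq B).integrableOn
    rw [hball]
    exact integrableOn_const measure_ball_lt_top.ne
  have i2 : IntegrableOn (fun x : ℂ => C * exp (C * ‖(U x).1‖)) {x : ℂ | ‖x‖ < R} volume := by
    rw [hball]
    exact (exp_integrable hU C R).const_mul C
  refine Integrable.mono' (i1.add i2) hm2.restrict (ae_of_all _ fun x => ?_)
  rw [Real.norm_eq_abs, abs_of_nonneg]
  · exact hb _ _ fun a => v0_lin_nonpos B a x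
  · have := aa_nonneg B.S (v0 B x + (U x).1)
    have := bb_nonneg B.S (v0 B x + (U x).1)
    linarith

theorem inner_second (B : Base ι) : ∃ δ₁ : ℝ, 0 < δ₁ ∧ δ₁ ≤ 1 ∧ ∃ C : ℝ, 0 < C ∧
    ∀ δ R₀ Ξ : ℝ, 0 < δ → δ ≤ δ₁ → 1 ≤ R₀ → 0 ≤ Ξ → ∃ ρ₀ : ℝ, ∀ K : Cfg B δ R₀ Ξ, ρ₀ ≤ K.ρ →
    ∀ U : Fld ι, IsSob U → ∀ ξ ξ' : ℂ, ‖ξ‖ ≤ Ξ → ‖ξ'‖ ≤ Ξ → ∀ A : ℝ,
    (∫ x in {x : ℂ | ‖x‖ < R₀}, (aa B.S (v0 B x + (U x).1) + 2 * bb B.S (v0 B x + (U x).1))) ≤ A →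
    (∫ x in {x : ℂ | R₀ ≤ ‖x‖ ∧ ‖x‖ < 0.88 * K.ρ}, exp (1.8 * ‖x‖) * ‖(U x).1‖ ^ 2) ≤ A →
    inP K U ξ + inP K U ξ' - 2 * inP K U ((ξ + ξ') / 2)
      ≤ C * A * K.ε ^ 2 * exp (2 * (R₀ + Ξ) + 0.18 * K.ρ) * ‖ξ - ξ'‖ ^ 2 := by
  obtain ⟨δ₂, hδ₂, hmono⟩ := inner_mono B.S
  obtain ⟨C, hC, hmid⟩ := inner_mid B.S
  refine ⟨min δ₂ 1, lt_min hδ₂ one_pos, min_le_right _ _, C + 1, by positivity, ?_⟩
  intro δ R₀ Ξ hδ hδ1 hR hΞ
  obtain ⟨ρ1, hρ1⟩ := phi_integrable B δ R₀ Ξ hδ (hδ1.trans (min_le_right _ _)) hR hΞ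
  obtain ⟨ρ2, hρ2⟩ := SS_near_one Ξ
  refine ⟨max (max ρ1 ρ2) (max (10 * Ξ + 1) (max (2 * R₀ + 1) (1 / min δ₂ 1 + 1))), ?_⟩
  intro K hK U hU ξ ξ' hξ hξ' A hA1 hA2
  have hK1 : ρ1 ≤ K.ρ := le_trans (le_trans (le_max_left _ _) (le_max_left _ _)) hK
  have hK2 : ρ2 ≤ K.ρ := le_trans (le_trans (le_max_right _ _) (le_max_left _ _)) hK
  have hK3 : 10 * Ξ + 1 ≤ K.ρ := le_trans (le_trans (le_max_left _ _) (le_max_right _ _)) hK
  have hK45 : max (2 * R₀ + 1) (1 / min δ₂ 1 + 1) ≤ K.ρ :=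
    le_trans (le_trans (le_max_right _ _) (le_max_right _ _)) hK
  have hK4 : 2 * R₀ + 1 ≤ K.ρ := le_trans (le_max_left _ _) hK45
  have hK5 : 1 / min δ₂ 1 + 1 ≤ K.ρ := le_trans (le_max_right _ _) hK45
  have hρ0 : 0 < K.ρ := by linarith
  have hρ1' : 1 ≤ K.ρ := by linarith
  have hm0 : 0 < min δ₂ 1 := lt_min hδ₂ one_pos
  set ξm : ℂ := (ξ + ξ') / 2 with hξm
  have hξm' : ‖ξm‖ ≤ Ξ := by
    rw [hξm, norm_div, show ‖(2 : ℂ)‖ = 2 by simp]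
    have := norm_add_le ξ ξ'
    linarith
  have hε := K.wall.hε
  -- the threshold inside
  have htau : ∀ x : ℂ, ‖x‖ < 0.88 * K.ρ → tau δ K.ρ x ≤ min δ₂ 1 := by
    intro x hx
    unfold tau
    split_ifs with h
    · exact hδ1
    · have h1 : Real.posLog (‖x‖ / K.ρ) = 0 := by
        rw [Real.posLog_eq_zero_iff, abs_of_nonneg (by positivity), div_le_one hρ0]
        linarith
      rw [h1, add_zero, mul_one]
      have h2 : 1 / min δ₂ 1 ≤ K.ρ ^ 6 := by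
        calc 1 / min δ₂ 1 ≤ K.ρ := by linarith
          _ = K.ρ ^ 1 := (pow_one _).symm
          _ ≤ K.ρ ^ 6 := pow_le_pow_right₀ hρ1' (by norm_num)
      rw [div_le_iff₀ hm0] at h2
      rw [inv_le_iff_one_le_mul₀ (by positivity)]
      linarith
  set κ : ℝ := K.ε ^ 2 * exp (2 * (R₀ + Ξ) + 0.18 * K.ρ) * ‖ξ - ξ'‖ ^ 2 with hκ
  have hκ0 : 0 ≤ κ := by positivity
  -- facts on the wall
  have facts : ∀ x : ℂ, ‖x‖ < 0.88 * K.ρ →
      99 / 100 ≤ exp (SS K.F (x - ξ)) ∧ 99 / 100 ≤ exp (SS K.F (x - ξ')) ∧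
      SS K.F (x - ξ) < 0 ∧ SS K.F (x - ξ') < 0 ∧ SS K.F (x - ξm) < 0 ∧
      (SS K.F (x - ξ) + SS K.F (x - ξ')) / 2 ≤ SS K.F (x - ξm) ∧
      (SS K.F (x - ξ) - SS K.F (x - ξ')) ^ 2 ≤
        K.ε ^ 2 * exp (2 * (‖x‖ + Ξ)) * ‖ξ - ξ'‖ ^ 2 := by
    intro x hx
    have hn1 : ‖x - ξ‖ ≤ ‖x‖ + Ξ := (norm_sub_le _ _).trans (by linarith)
    have hn2 : ‖x - ξ'‖ ≤ ‖x‖ + Ξ := (norm_sub_le _ _).trans (by linarith)
    refine ⟨hρ2 _ _ _ K.wall hK2 ξ x hξ (by linarith), hρ2 _ _ _ K.wall hK2 ξ' x hξ' (by linarith),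
      SS_neg K.wall _, SS_neg K.wall _, SS_neg K.wall _, ?_, ?_⟩
    · have h1 := SS_concave K.wall (x - ξ) (x - ξ') (by linarith) (by linarith)
      have h2 : (x - ξ + (x - ξ')) / 2 = x - ξm := by rw [hξm]; ring
      rw [h2] at h1
      have : 0 ≤ 0.1 * K.ε * ‖x - ξ - (x - ξ')‖ ^ 2 := by positivity
      linarith
    · have h1 := (SS_lip K.wall (x - ξ) (x - ξ')).2
      have h2 : ‖x - ξ - (x - ξ')‖ = ‖ξ - ξ'‖ := by
        rw [← norm_neg]; congr 1; ring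
      rw [h2] at h1
      have h3 : exp (max ‖x - ξ‖ ‖x - ξ'‖) ≤ exp (‖x‖ + Ξ) := exp_le_exp.2 (max_le hn1 hn2)
      have h4 : |SS K.F (x - ξ) - SS K.F (x - ξ')| ≤ K.ε * exp (‖x‖ + Ξ) * ‖ξ - ξ'‖ := by
        refine h1.trans ?_
        gcongr
      have h5 : (SS K.F (x - ξ) - SS K.F (x - ξ')) ^ 2 ≤ (K.ε * exp (‖x‖ + Ξ) * ‖ξ - ξ'‖) ^ 2 := by
        rw [← sq_abs]
        exact pow_le_pow_left₀ (abs_nonneg _) h4 2
      refine h5.trans (le_of_eq ?_)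
      have h6 : exp (2 * (‖x‖ + Ξ)) = exp (‖x‖ + Ξ) ^ 2 := by
        rw [← exp_nat_mul]
        congr 1
      rw [h6]
      ring
  have hlog : -Real.log 2 ≤ Real.log (99 / 100) := by
    rw [← Real.log_inv]
    exact Real.log_le_log (by norm_num) (by norm_num)
  have h99 : (99 / 100 : ℝ) = exp (Real.log (99 / 100)) := (exp_log (by norm_num)).symm
  have hmean : ∀ x : ℂ, ‖x‖ < 0.88 * K.ρ →
      Real.log (99 / 100) ≤ (SS K.F (x - ξ) + SS K.F (x - ξ')) / 2 := by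
    intro x hx
    obtain ⟨f1, f2, -⟩ := facts x hx
    rw [h99, exp_le_exp] at f1 f2
    linarith
  -- pointwise bounds of the second difference
  have hin : ∀ x : ℂ, ‖x‖ < R₀ →
      pot B δ R₀ K.ρ x (SS K.F (x - ξ)) (U x).1 + pot B δ R₀ K.ρ x (SS K.F (x - ξ')) (U x).1
        - 2 * pot B δ R₀ K.ρ x (SS K.F (x - ξm)) (U x).1
      ≤ 1 / 2 * κ * (aa B.S (v0 B x + (U x).1) + 2 * bb B.S (v0 B x + (U x).1)) := by
    intro x hx
    have hx' : ‖x‖ < 0.88 * K.ρ := by linarith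
    obtain ⟨-, -, f3, f4, f5, f6, f7⟩ := facts x hx'
    simp only [pot, if_pos hx]
    have h1 := WW_mono B.S _ _ (hlog.trans (hmean x hx')) f6 f5.le (v0 B x + (U x).1)
    have h2 := WW_mid B.S _ _ f3.le f4.le (v0 B x + (U x).1)
    have h3 : 0 ≤ aa B.S (v0 B x + (U x).1) + 2 * bb B.S (v0 B x + (U x).1) := by
      have := aa_nonneg B.S (v0 B x + (U x).1)
      have := bb_nonneg B.S (v0 B x + (U x).1)
      linarith
    have h4 : (SS K.F (x - ξ) - SS K.F (x - ξ')) ^ 2 ≤ κ := by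
      refine f7.trans ?_
      rw [hκ]
      gcongr
      linarith
    have h5 := mul_le_mul_of_nonneg_left h4 (by positivity :
      0 ≤ 1 / 2 * (aa B.S (v0 B x + (U x).1) + 2 * bb B.S (v0 B x + (U x).1)))
    linarith
  have hout : ∀ x : ℂ, R₀ ≤ ‖x‖ → ‖x‖ < 0.88 * K.ρ →
      pot B δ R₀ K.ρ x (SS K.F (x - ξ)) (U x).1 + pot B δ R₀ K.ρ x (SS K.F (x - ξ')) (U x).1
        - 2 * pot B δ R₀ K.ρ x (SS K.F (x - ξm)) (U x).1
      ≤ C * κ * (exp (1.8 * ‖x‖) * ‖(U x).1‖ ^ 2) := by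
    intro x hx hx'
    obtain ⟨-, -, f3, f4, f5, f6, f7⟩ := facts x hx'
    simp only [pot, if_neg (not_lt.2 hx)]
    have ht0 := tau_pos hδ hρ0 x
    have ht1 := htau x hx'
    have h1 := hmono (tau δ K.ρ x) _ _ ht0 (ht1.trans (min_le_left _ _)) f6 f5.le
      (by rw [h99, exp_le_exp]; exact hmean x hx') (U x).1
    have h2 := (abs_le.1 (hmid (tau δ K.ρ x) _ _ ht0 (ht1.trans (min_le_right _ _)) f3.le f4.le
      (U x).1)).2
    have h4 : (SS K.F (x - ξ) - SS K.F (x - ξ')) ^ 2 ≤ κ * exp (1.8 * ‖x‖) := by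
      refine f7.trans ?_
      have : κ * exp (1.8 * ‖x‖) = K.ε ^ 2 * exp (2 * (R₀ + Ξ) + 0.18 * K.ρ + 1.8 * ‖x‖) *
          ‖ξ - ξ'‖ ^ 2 := by
        rw [hκ, exp_add _ (1.8 * ‖x‖)]
        ring
      rw [this]
      gcongr
      linarith
    have h5 := mul_le_mul_of_nonneg_left h4 (by positivity : 0 ≤ C * ‖(U x).1‖ ^ 2)
    calc _ ≤ C * ‖(U x).1‖ ^ 2 * (SS K.F (x - ξ) - SS K.F (x - ξ')) ^ 2 := by linarith
      _ ≤ C * ‖(U x).1‖ ^ 2 * (κ * exp (1.8 * ‖x‖)) := h5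
      _ = _ := by ring
  -- integration
  have hint : ∀ ζ : ℂ, ‖ζ‖ ≤ Ξ →
      Integrable (fun x => pot B δ R₀ K.ρ x (SS K.F (x - ζ)) (U x).1) volume := fun ζ hζ =>
    (hρ1 K hK1 U hU ζ hζ).2.1
  have i1 := hint ξ hξ
  have i2 := hint ξ' hξ'
  have i3 := hint ξm hξm'
  set D : ℂ → ℝ := fun x =>
    pot B δ R₀ K.ρ x (SS K.F (x - ξ)) (U x).1 + pot B δ R₀ K.ρ x (SS K.F (x - ξ')) (U x).1
        - 2 * pot B δ R₀ K.ρ x (SS K.F (x - ξm)) (U x).1 with hD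
  have iD : Integrable D volume := (i1.add i2).sub (i3.const_mul 2)
  have e1 : inP K U ξ + inP K U ξ' - 2 * inP K U ξm = ∫ x in {x : ℂ | ‖x‖ < 0.88 * K.ρ}, D x := by
    have a1 : (∫ x in {x : ℂ | ‖x‖ < 0.88 * K.ρ}, D x) =
        (∫ x in {x : ℂ | ‖x‖ < 0.88 * K.ρ}, (pot B δ R₀ K.ρ x (SS K.F (x - ξ)) (U x).1 +
          pot B δ R₀ K.ρ x (SS K.F (x - ξ')) (U x).1)) -
        ∫ x in {x : ℂ | ‖x‖ < 0.88 * K.ρ}, 2 * pot B δ R₀ K.ρ x (SS K.F (x - ξm)) (U x).1 :=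
      integral_sub (i1.add i2).integrableOn (i3.const_mul 2).integrableOn
    have a2 : (∫ x in {x : ℂ | ‖x‖ < 0.88 * K.ρ}, (pot B δ R₀ K.ρ x (SS K.F (x - ξ)) (U x).1 +
          pot B δ R₀ K.ρ x (SS K.F (x - ξ')) (U x).1)) = inP K U ξ + inP K U ξ' :=
      integral_add i1.integrableOn i2.integrableOn
    have a3 : (∫ x in {x : ℂ | ‖x‖ < 0.88 * K.ρ},
        2 * pot B δ R₀ K.ρ x (SS K.F (x - ξm)) (U x).1) = 2 * inP K U ξm :=
      integral_const_mul _ _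
    rw [a1, a2, a3]
  have hset : {x : ℂ | ‖x‖ < 0.88 * K.ρ} =
      {x : ℂ | ‖x‖ < R₀} ∪ {x : ℂ | R₀ ≤ ‖x‖ ∧ ‖x‖ < 0.88 * K.ρ} := by
    ext x
    simp only [mem_setOf_eq, mem_union]
    constructor
    · intro h
      rcases lt_or_ge ‖x‖ R₀ with h1 | h1
      · exact Or.inl h1
      · exact Or.inr ⟨h1, h⟩
    · rintro (h | h)
      · linarith
      · exact h.2
  have hmeas1 : MeasurableSet {x : ℂ | ‖x‖ < R₀} := measurableSet_lt measurable_norm measurable_const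
  have hmeas2 : MeasurableSet {x : ℂ | R₀ ≤ ‖x‖ ∧ ‖x‖ < 0.88 * K.ρ} :=
    (measurableSet_le measurable_const measurable_norm).inter
      (measurableSet_lt measurable_norm measurable_const)
  have hdisj : Disjoint {x : ℂ | ‖x‖ < R₀} {x : ℂ | R₀ ≤ ‖x‖ ∧ ‖x‖ < 0.88 * K.ρ} := by
    rw [Set.disjoint_left]
    intro x hx hx'
    exact absurd hx (not_lt.2 hx'.1)
  rw [e1, hset, setIntegral_union hdisj hmeas2 iD.integrableOn iD.integrableOn]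
  have j1 := P14a_int B hU R₀
  have hA0 : 0 ≤ A := by
    refine le_trans (integral_nonneg fun x => ?_) hA1
    have := aa_nonneg B.S (v0 B x + (U x).1)
    have := bb_nonneg B.S (v0 B x + (U x).1)
    show 0 ≤ aa B.S (v0 B x + (U x).1) + 2 * bb B.S (v0 B x + (U x).1)
    linarith
  have k1 : ∫ x in {x : ℂ | ‖x‖ < R₀}, D x ≤ 1 / 2 * κ * A := by
    calc _ ≤ ∫ x in {x : ℂ | ‖x‖ < R₀},
          1 / 2 * κ * (aa B.S (v0 B x + (U x).1) + 2 * bb B.S (v0 B x + (U x).1)) :=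
          setIntegral_mono_on iD.integrableOn (j1.const_mul _) hmeas1 fun x hx => hin x hx
      _ = 1 / 2 * κ * ∫ x in {x : ℂ | ‖x‖ < R₀},
          (aa B.S (v0 B x + (U x).1) + 2 * bb B.S (v0 B x + (U x).1)) := integral_const_mul _ _
      _ ≤ _ := mul_le_mul_of_nonneg_left hA1 (by positivity)
  have j2 : IntegrableOn (fun x : ℂ => exp (1.8 * ‖x‖) * ‖(U x).1‖ ^ 2)
      {x : ℂ | R₀ ≤ ‖x‖ ∧ ‖x‖ < 0.88 * K.ρ} volume := by
    have h1 := hU.integrableOn_ann (-1) (0.88 * K.ρ)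
    have hn : IntegrableOn (fun x : ℂ => ‖(U x).1‖ ^ 2) {x : ℂ | -1 < ‖x‖ ∧ ‖x‖ < 0.88 * K.ρ}
        volume := by
      refine Integrable.mono' h1 ((hU.1.fst.norm.pow 2).restrict) (ae_of_all _ fun x => ?_)
      rw [Real.norm_eq_abs, abs_of_nonneg (by positivity)]
      have : 0 ≤ gsq (U x) := by unfold gsq; positivity
      linarith
    have hn2 : IntegrableOn (fun x : ℂ => ‖(U x).1‖ ^ 2) {x : ℂ | R₀ ≤ ‖x‖ ∧ ‖x‖ < 0.88 * K.ρ}
        volume := hn.mono_set fun x hx => ⟨by linarith [norm_nonneg x], hx.2⟩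
    refine Integrable.mono' (hn2.const_mul (exp (1.8 * (0.88 * K.ρ)))) ?_ ?_
    · refine AEStronglyMeasurable.mul ?_ ((hU.1.fst.norm.pow 2).restrict)
      exact (by fun_prop : Continuous fun x : ℂ => exp (1.8 * ‖x‖)).aestronglyMeasurable
    · refine (ae_restrict_iff' hmeas2).2 (ae_of_all _ fun x hx => ?_)
      rw [Real.norm_eq_abs, abs_of_nonneg (by positivity)]
      gcongr
      exact hx.2.le
  have k2 : ∫ x in {x : ℂ | R₀ ≤ ‖x‖ ∧ ‖x‖ < 0.88 * K.ρ}, D x ≤ C * κ * A := by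
    calc _ ≤ ∫ x in {x : ℂ | R₀ ≤ ‖x‖ ∧ ‖x‖ < 0.88 * K.ρ},
          C * κ * (exp (1.8 * ‖x‖) * ‖(U x).1‖ ^ 2) :=
          setIntegral_mono_on iD.integrableOn (j2.const_mul _) hmeas2 fun x hx => hout x hx.1 hx.2
      _ = C * κ * ∫ x in {x : ℂ | R₀ ≤ ‖x‖ ∧ ‖x‖ < 0.88 * K.ρ},
          exp (1.8 * ‖x‖) * ‖(U x).1‖ ^ 2 := integral_const_mul _ _
      _ ≤ _ := mul_le_mul_of_nonneg_left hA2 (by positivity)
  have e2 : (C + 1) * A * K.ε ^ 2 * exp (2 * (R₀ + Ξ) + 0.18 * K.ρ) * ‖ξ - ξ'‖ ^ 2 =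
      C * κ * A + κ * A := by
    rw [hκ]; ring
  rw [e2]
  have : 0 ≤ κ * A := mul_nonneg hκ0 hA0
  linarith

end Pool.MP_ad5d82_an.Wl
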