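import Pool.Agent.Lib.MP_ad5d82_an.h24.PDefs
import Pool.Agent.Lib.MP_ad5d82_an.h24.F.F4
import Pool.Agent.Lib.MP_ad5d82_an.h24.F.F5
import Pool.Agent.Lib.MP_ad5d82_an.h24.P.P0
import Pool.Agent.Lib.MP_ad5d82_an.h24.P.P1
import Pool.Agent.Lib.MP_ad5d82_an.h24.P.P3
import Pool.Agent.Lib.MP_ad5d82_an.h24.P.P3b
import Pool.Agent.Lib.MP_ad5d82_an.h24.P.P4b
import Pool.Agent.Lib.MP_ad5d82_an.h24.P.PC

set_option autoImplicit false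

namespace Pool.MP_ad5d82_an.Wl

open Real Set MeasureTheory Filter Topology
open scoped ContDiff

variable {ι : Type} [Fintype ι] [DecidableEq ι]

variable {B : Base ι} {δ R₀ Ξ : ℝ}

/-- value and derivative as a triple -/
private noncomputable def jv (p : Ev ι) (L : ℂ →L[ℝ] Ev ι) : Ev ι × Ev ι × Ev ι :=
  (p, L 1, L Complex.I)

private theorem jv_norm (p : Ev ι) (L : ℂ →L[ℝ] Ev ι) {b : ℝ} (hp : ‖p‖ ≤ b) (hL : ‖L‖ ≤ b) :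
    ‖jv p L‖ ≤ b := by
  have h1 : ‖L 1‖ ≤ b := by
    refine (L.le_opNorm 1).trans ?_
    simpa using hL
  have h2 : ‖L Complex.I‖ ≤ b := by
    refine (L.le_opNorm Complex.I).trans ?_
    simpa using hL
  exact norm_prod_le_iff.2 ⟨hp, norm_prod_le_iff.2 ⟨h1, h2⟩⟩

private theorem p14b_jets (S : Sys ι) (c₀ C : ℝ) (hC : 1 ≤ C) : ∃ κ : ℝ, 1 ≤ κ ∧
    ∀ (ρ : ℝ) (F : ℝ → ℝ)
    (χ : {i // i ∈ neg S} → ℂ → ℝ), NegFam S c₀ C ρ F χ → ∀ (c : Cc S) (ξ ξ' x : ℂ) (Ξ : ℝ),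
    ‖ξ‖ ≤ Ξ → ‖ξ'‖ ≤ Ξ → Ξ ≤ ρ → ∀ i : ℝ, i = (if ‖x‖ ≤ (C + 1) * ρ then 1 else 0) →
    ‖jet (Cf S χ c ξ) x‖ ≤ κ * Real.sqrt (∑ i, c i ^ 2) * i ∧
    ‖jet (Cf S χ c ξ) x - jet (Cf S χ c ξ') x‖ ≤ κ * Real.sqrt (∑ i, c i ^ 2) * ‖ξ - ξ'‖ * i ∧
    ‖jet (Cf S χ c ξ) x + jet (Cf S χ c ξ') x - (2 : ℝ) • jet (Cf S χ c ((ξ + ξ') / 2)) x‖
      ≤ κ * Real.sqrt (∑ i, c i ^ 2) * ‖ξ - ξ'‖ ^ 2 * i := by
  obtain ⟨D, hD, h⟩ := Cf_bounds S c₀ C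
  refine ⟨max D 1, le_max_right _ _, ?_⟩
  intro ρ F χ hN c ξ ξ' x Ξ hξ hξ' hΞ i hi
  have hs : 0 ≤ Real.sqrt (∑ i, c i ^ 2) := Real.sqrt_nonneg _
  have hDm : D ≤ max D 1 := le_max_left _ _
  by_cases hx : ‖x‖ ≤ (C + 1) * ρ
  · rw [if_pos hx] at hi
    subst hi
    obtain ⟨h1, h2, h3, h4, h5, h6⟩ := h ρ F χ hN c ξ ξ' x
    have k1 : D * Real.sqrt (∑ i, c i ^ 2) ≤ max D 1 * Real.sqrt (∑ i, c i ^ 2) := by gcongr
    refine ⟨?_, ?_, ?_⟩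
    · rw [mul_one]
      exact (jv_norm _ _ h1 h2).trans k1
    · rw [mul_one]
      have e : jet (Cf S χ c ξ) x - jet (Cf S χ c ξ') x
          = jv (Cf S χ c ξ x - Cf S χ c ξ' x)
            (fderiv ℝ (Cf S χ c ξ) x - fderiv ℝ (Cf S χ c ξ') x) := by
        simp [jet, jv]
      rw [e]
      refine (jv_norm _ _ h3 h4).trans ?_
      gcongr
    · rw [mul_one]
      have e : jet (Cf S χ c ξ) x + jet (Cf S χ c ξ') x
            - (2 : ℝ) • jet (Cf S χ c ((ξ + ξ') / 2)) x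
          = jv (Cf S χ c ξ x + Cf S χ c ξ' x - (2 : ℝ) • Cf S χ c ((ξ + ξ') / 2) x)
            (fderiv ℝ (Cf S χ c ξ) x + fderiv ℝ (Cf S χ c ξ') x
              - (2 : ℝ) • fderiv ℝ (Cf S χ c ((ξ + ξ') / 2)) x) := by
        simp [jet, jv]
      rw [e]
      refine (jv_norm _ _ h5 h6).trans ?_
      gcongr
  · rw [if_neg hx] at hi
    subst hi
    have hz : ∀ η : ℂ, ‖η‖ ≤ Ξ → jet (Cf S χ c η) x = 0 := by
      intro η hη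
      have h1 : C * ρ < ‖x - η‖ := by
        have h2 := norm_sub_norm_le x η
        push Not at hx
        linarith
      obtain ⟨h3, h4⟩ := Cf_out hN c η x h1
      simp [jet, h3, h4]
    have hm : ‖(ξ + ξ') / 2‖ ≤ Ξ := by
      rw [norm_div]
      have := norm_add_le ξ ξ'
      simp only [Complex.norm_ofNat]
      linarith
    rw [hz ξ hξ, hz ξ' hξ', hz _ hm]
    simp

private theorem p14b_gP (S : Sys ι) (u C₁ C₂ Cb Ce : Ev ι × Ev ι × Ev ι) :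
    1 / 2 * (gP S (u + C₁) + gP S (u + C₂) - 2 * gP S (u + Cb)) - gP S Ce
      = gPb S (u + Cb) (C₁ + C₂ - (2 : ℝ) • Cb)
        + gPb S Ce ((C₁ - Cb - Ce) - (C₂ - Cb + Ce))
        + 1 / 2 * gP S (C₁ - Cb - Ce) + 1 / 2 * gP S (C₂ - Cb + Ce) := by
  simp only [gP, gPb, Finset.mul_sum, ← Finset.sum_add_distrib, ← Finset.sum_sub_distrib]
  refine Finset.sum_congr rfl fun j _ => ?_
  simp only [Prod.fst_add, Prod.snd_add, Prod.fst_sub, Prod.snd_sub, Prod.smul_fst, Prod.smul_snd,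
    PiLp.add_apply, PiLp.sub_apply, PiLp.smul_apply, smul_eq_mul]
  ring

private theorem p14b_qV (S : Sys ι) (s₁ s₂ sb : ℝ) (g c₁ c₂ cb ce : Ev ι) :
    1 / 2 * (qV S s₁ (g + c₁) + qV S s₂ (g + c₂) - 2 * qV S sb (g + cb)) - qV S sb ce
      = qVb S sb (g + cb) (c₁ + c₂ - (2 : ℝ) • cb)
        + qVb S sb ce ((c₁ - cb - ce) - (c₂ - cb + ce))
        + 1 / 2 * qV S sb (c₁ - cb - ce) + 1 / 2 * qV S sb (c₂ - cb + ce)
        + ∑ j, (1 / 4 * ((vj S s₁ j + vj S s₂ j - 2 * vj S sb j)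
              * ((g + c₁) j ^ 2 + (g + c₂) j ^ 2))
            + 1 / 4 * ((vj S s₁ j - vj S s₂ j) * ((g + c₁) j ^ 2 - (g + c₂) j ^ 2))) := by
  simp only [qV, qVb, Finset.mul_sum, ← Finset.sum_add_distrib, ← Finset.sum_sub_distrib]
  refine Finset.sum_congr rfl fun j _ => ?_
  simp only [PiLp.add_apply, PiLp.sub_apply, PiLp.smul_apply, smul_eq_mul]
  ring

private theorem p14b_cs (g h : Ev ι) : ∑ j, |g j ^ 2 - h j ^ 2| ≤ ‖g - h‖ * (‖g‖ + ‖h‖) := by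
  have h1 : ∀ j, |g j ^ 2 - h j ^ 2| = |(g - h) j| * |(g + h) j| := by
    intro j
    rw [← abs_mul]
    congr 1
    simp only [PiLp.add_apply, PiLp.sub_apply]
    ring
  simp only [h1]
  have h2 := Finset.sum_mul_sq_le_sq_mul_sq Finset.univ (fun j => |(g - h) j|)
    (fun j => |(g + h) j|)
  have h3 : ∑ j, |(g - h) j| ^ 2 = ‖g - h‖ ^ 2 := by
    rw [EuclideanSpace.norm_sq_eq]; rfl
  have h4 : ∑ j, |(g + h) j| ^ 2 = ‖g + h‖ ^ 2 := by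
    rw [EuclideanSpace.norm_sq_eq]; rfl
  rw [h3, h4, ← mul_pow] at h2
  have h5 := abs_le_of_sq_le_sq h2 (by positivity)
  refine (le_abs_self _).trans (h5.trans ?_)
  gcongr
  exact norm_add_le g h

private theorem p14b_sumv (S : Sys ι) : ∃ C : ℝ, 0 < C ∧ ∀ (s₁ s₂ sb M w d : ℝ), s₁ ≤ M → s₂ ≤ M →
    sb ≤ M → M ≤ 0 → exp M ≤ 100 * w → 0 ≤ d → |s₁ - s₂| ≤ d → |s₁ + s₂ - 2 * sb| ≤ d ^ 2 →
    ∀ g h : Ev ι,
    ∑ j, (1 / 4 * ((vj S s₁ j + vj S s₂ j - 2 * vj S sb j) * (g j ^ 2 + h j ^ 2))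
            + 1 / 4 * ((vj S s₁ j - vj S s₂ j) * (g j ^ 2 - h j ^ 2)))
      ≤ C * w * d ^ 2 * (‖g‖ ^ 2 + ‖h‖ ^ 2) + C * w * d * (‖g - h‖ * (‖g‖ + ‖h‖)) := by
  obtain ⟨C, hC, hv⟩ := vj_s S
  refine ⟨50 * C, by positivity, ?_⟩
  intro s₁ s₂ sb M w d h1 h2 h3 hM hw hd h4 h5 g h
  have hex : 0 < exp M := exp_pos M
  have hw0 : 0 ≤ w := by linarith
  have hb1 : ∀ j, |vj S s₁ j - vj S s₂ j| ≤ 100 * C * w * d := by
    intro j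
    have := (hv s₁ sb s₂ M h1 h3 h2 hM j).1
    refine this.trans ?_
    calc C * exp M * |s₁ - s₂| ≤ C * (100 * w) * d := by gcongr
      _ = 100 * C * w * d := by ring
  have hb2 : ∀ j, |vj S s₁ j + vj S s₂ j - 2 * vj S sb j| ≤ 200 * C * w * d ^ 2 := by
    intro j
    have := (hv s₁ sb s₂ M h1 h3 h2 hM j).2
    refine this.trans ?_
    have h6 : (s₁ - s₂) ^ 2 ≤ d ^ 2 := by
      rw [← sq_abs]
      gcongr
    calc C * exp M * ((s₁ - s₂) ^ 2 + |s₁ + s₂ - 2 * sb|) ≤ C * (100 * w) * (d ^ 2 + d ^ 2) := by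
          gcongr
      _ = 200 * C * w * d ^ 2 := by ring
  have hj : ∀ j, (1 / 4 * ((vj S s₁ j + vj S s₂ j - 2 * vj S sb j) * (g j ^ 2 + h j ^ 2))
            + 1 / 4 * ((vj S s₁ j - vj S s₂ j) * (g j ^ 2 - h j ^ 2)))
      ≤ 50 * C * w * d ^ 2 * (g j ^ 2 + h j ^ 2) + 50 * C * w * d * |g j ^ 2 - h j ^ 2| := by
    intro j
    have e1 : (vj S s₁ j + vj S s₂ j - 2 * vj S sb j) * (g j ^ 2 + h j ^ 2)
        ≤ 200 * C * w * d ^ 2 * (g j ^ 2 + h j ^ 2) := by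
      have := le_abs_self (vj S s₁ j + vj S s₂ j - 2 * vj S sb j)
      have hp : 0 ≤ g j ^ 2 + h j ^ 2 := by positivity
      exact mul_le_mul_of_nonneg_right (this.trans (hb2 j)) hp
    have e2 : (vj S s₁ j - vj S s₂ j) * (g j ^ 2 - h j ^ 2)
        ≤ 100 * C * w * d * |g j ^ 2 - h j ^ 2| := by
      refine (le_abs_self _).trans ?_
      rw [abs_mul]
      exact mul_le_mul_of_nonneg_right (hb1 j) (abs_nonneg _)
    have e3 : 0 ≤ C * w * d * |g j ^ 2 - h j ^ 2| := by positivity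
    linarith
  refine (Finset.sum_le_sum fun j _ => hj j).trans ?_
  rw [Finset.sum_add_distrib, ← Finset.mul_sum, ← Finset.mul_sum, Finset.sum_add_distrib]
  have h3' : ∑ j, g j ^ 2 = ‖g‖ ^ 2 := by
    rw [EuclideanSpace.norm_sq_eq]; simp
  have h4' : ∑ j, h j ^ 2 = ‖h‖ ^ 2 := by
    rw [EuclideanSpace.norm_sq_eq]; simp
  rw [h3', h4']
  have := p14b_cs g h
  gcongr

private theorem p14b_gsq_le (u : Ev ι × Ev ι × Ev ι) : gsq u ≤ 2 * ‖u‖ ^ 2 := by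
  have h1 : ‖u.2.1‖ ≤ ‖u‖ := (norm_fst_le u.2).trans (norm_snd_le u)
  have h2 : ‖u.2.2‖ ≤ ‖u‖ := (norm_snd_le u.2).trans (norm_snd_le u)
  have h3 := pow_le_pow_left₀ (norm_nonneg _) h1 2
  have h4 := pow_le_pow_left₀ (norm_nonneg _) h2 2
  simp only [gsq]
  linarith

private theorem p14b_gsq_nonneg (u : Ev ι × Ev ι × Ev ι) : 0 ≤ gsq u := by
  simp only [gsq]; positivity

private theorem p14b_sqrt_gsq (u : Ev ι × Ev ι × Ev ι) : Real.sqrt (gsq u) ≤ 2 * ‖u‖ := by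
  apply Real.sqrt_le_iff.2
  refine ⟨by positivity, (p14b_gsq_le u).trans ?_⟩
  linarith [sq_nonneg ‖u‖]

private theorem p14b_norm_add_sq (g h : Ev ι) : ‖g + h‖ ^ 2 ≤ 2 * ‖g‖ ^ 2 + 2 * ‖h‖ ^ 2 := by
  have h1 := norm_add_le g h
  have h2 := pow_le_pow_left₀ (norm_nonneg _) h1 2
  linarith [sq_nonneg (‖g‖ - ‖h‖)]

private theorem p14b_gsq_add (u v : Ev ι × Ev ι × Ev ι) :
    gsq (u + v) ≤ 2 * gsq u + 2 * gsq v := by
  have h1 := p14b_norm_add_sq u.2.1 v.2.1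
  have h2 := p14b_norm_add_sq u.2.2 v.2.2
  simp only [gsq, Prod.fst_add, Prod.snd_add]
  linarith

private theorem p14b_T8real {L r w A X κ N D d i a m x₁ x₂ x₃ : ℝ} (hL : L ≤ r * w)
    (hr0 : 0 ≤ r) (hr1 : r ≤ 1) (hw0 : 0 ≤ w) (hw1 : w ≤ 1) (hA0 : 0 ≤ A)
    (hκ0 : 0 ≤ κ) (hN : 0 ≤ N) (hD : 0 ≤ D) (hd : 0 ≤ d) (hi0 : 0 ≤ i) (hii : i * i = i)
    (hX : X = N * d ^ 2 + D * d) (x1 : 0 ≤ x₁) (x2 : 0 ≤ x₂) (x3 : 0 ≤ x₃)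
    (e1 : w * x₁ ^ 2 ≤ A ^ 2) (e2 : w * x₂ ^ 2 ≤ A ^ 2) (e3 : w * x₃ ^ 2 ≤ A ^ 2)
    (f1 : w * x₁ ≤ A) (f2 : w * x₂ ≤ A) (f3 : w * x₃ ≤ A) (ha : |a| ≤ d) (hm : |m| ≤ d ^ 2) :
    L * ((x₁ + x₃ + x₂) ^ 2 * (a ^ 2 + |m|)
        + (x₁ + x₃ + x₂) * (κ * (N * d + D) * i * |a| + κ * X * i)
        + (κ * (N * d + D) * i) ^ 2)
      ≤ 18 * (A ^ 2 * d ^ 2) + 6 * κ * (A * X * i) + 2 * κ ^ 2 * (N ^ 2 * d ^ 2) * i
        + 2 * κ ^ 2 * r * D ^ 2 * i := by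
  have hX0 : 0 ≤ X := by rw [hX]; positivity
  have g1 : a ^ 2 ≤ d ^ 2 := by
    rw [← sq_abs]
    exact pow_le_pow_left₀ (abs_nonneg _) ha 2
  have g2 : w * (x₁ + x₃ + x₂) ^ 2 ≤ 9 * A ^ 2 := by
    have : (x₁ + x₃ + x₂) ^ 2 ≤ 3 * (x₁ ^ 2 + x₃ ^ 2 + x₂ ^ 2) := by
      linarith [sq_nonneg (x₁ - x₂), sq_nonneg (x₁ - x₃), sq_nonneg (x₂ - x₃)]
    calc w * (x₁ + x₃ + x₂) ^ 2 ≤ w * (3 * (x₁ ^ 2 + x₃ ^ 2 + x₂ ^ 2)) :=
          mul_le_mul_of_nonneg_left this hw0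
      _ = 3 * (w * x₁ ^ 2 + w * x₃ ^ 2 + w * x₂ ^ 2) := by ring
      _ ≤ 9 * A ^ 2 := by linarith
  have g3 : w * (x₁ + x₃ + x₂) ≤ 3 * A := by linarith
  have g4 : (κ * (N * d + D) * i) ^ 2 ≤ 2 * κ ^ 2 * (N ^ 2 * d ^ 2 + D ^ 2) * i := by
    have h1 : (N * d + D) ^ 2 ≤ 2 * (N ^ 2 * d ^ 2 + D ^ 2) := by
      linarith [sq_nonneg (N * d - D)]
    have h2 : κ ^ 2 * i * (N * d + D) ^ 2 ≤ κ ^ 2 * i * (2 * (N ^ 2 * d ^ 2 + D ^ 2)) :=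
      mul_le_mul_of_nonneg_left h1 (by positivity)
    calc (κ * (N * d + D) * i) ^ 2 = κ ^ 2 * (i * i) * (N * d + D) ^ 2 := by ring
      _ = κ ^ 2 * i * (N * d + D) ^ 2 := by rw [hii]
      _ ≤ _ := h2
      _ = _ := by ring
  have g5 : κ * (N * d + D) * i * |a| + κ * X * i ≤ 2 * κ * X * i := by
    have h1 : κ * (N * d + D) * i * |a| ≤ κ * (N * d + D) * i * d :=
      mul_le_mul_of_nonneg_left ha (by positivity)
    have h' : κ * (N * d + D) * i * d = κ * X * i := by rw [hX]; ring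
    linarith
  have g6 : 0 ≤ κ * (N * d + D) * i * |a| + κ * X * i := by positivity
  have hsum0 : 0 ≤ x₁ + x₃ + x₂ := by positivity
  have q1 : (x₁ + x₃ + x₂) ^ 2 * (a ^ 2 + |m|) ≤ (x₁ + x₃ + x₂) ^ 2 * (2 * d ^ 2) :=
    mul_le_mul_of_nonneg_left (by linarith) (sq_nonneg _)
  have q2 : (x₁ + x₃ + x₂) * (κ * (N * d + D) * i * |a| + κ * X * i)
      ≤ (x₁ + x₃ + x₂) * (2 * κ * X * i) := mul_le_mul_of_nonneg_left g5 hsum0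
  have q3 : 0 ≤ (x₁ + x₃ + x₂) ^ 2 * (a ^ 2 + |m|)
      + (x₁ + x₃ + x₂) * (κ * (N * d + D) * i * |a| + κ * X * i)
      + (κ * (N * d + D) * i) ^ 2 := by positivity
  have hrw : 0 ≤ r * w := by positivity
  have q4 : w * (2 * κ ^ 2 * (N ^ 2 * d ^ 2 + D ^ 2) * i)
      ≤ 1 * (2 * κ ^ 2 * (N ^ 2 * d ^ 2 + D ^ 2) * i) :=
    mul_le_mul_of_nonneg_right hw1 (by positivity)
  have q5 : (w * (x₁ + x₃ + x₂) ^ 2) * (2 * d ^ 2) ≤ (9 * A ^ 2) * (2 * d ^ 2) :=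
    mul_le_mul_of_nonneg_right g2 (by positivity)
  have q6 : (w * (x₁ + x₃ + x₂)) * (2 * κ * X * i) ≤ (3 * A) * (2 * κ * X * i) :=
    mul_le_mul_of_nonneg_right g3 (by positivity)
  have q7 : r * (18 * (A ^ 2 * d ^ 2) + 6 * κ * (A * X * i) + 2 * κ ^ 2 * (N ^ 2 * d ^ 2) * i)
      ≤ 1 * (18 * (A ^ 2 * d ^ 2) + 6 * κ * (A * X * i) + 2 * κ ^ 2 * (N ^ 2 * d ^ 2) * i) :=
    mul_le_mul_of_nonneg_right hr1 (by positivity)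
  calc L * ((x₁ + x₃ + x₂) ^ 2 * (a ^ 2 + |m|)
        + (x₁ + x₃ + x₂) * (κ * (N * d + D) * i * |a| + κ * X * i)
        + (κ * (N * d + D) * i) ^ 2)
      ≤ (r * w) * ((x₁ + x₃ + x₂) ^ 2 * (a ^ 2 + |m|)
        + (x₁ + x₃ + x₂) * (κ * (N * d + D) * i * |a| + κ * X * i)
        + (κ * (N * d + D) * i) ^ 2) := mul_le_mul_of_nonneg_right hL q3
    _ ≤ (r * w) * ((x₁ + x₃ + x₂) ^ 2 * (2 * d ^ 2)
        + (x₁ + x₃ + x₂) * (2 * κ * X * i)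
        + 2 * κ ^ 2 * (N ^ 2 * d ^ 2 + D ^ 2) * i) :=
        mul_le_mul_of_nonneg_left (by linarith) hrw
    _ = r * ((w * (x₁ + x₃ + x₂) ^ 2) * (2 * d ^ 2)
        + (w * (x₁ + x₃ + x₂)) * (2 * κ * X * i)
        + w * (2 * κ ^ 2 * (N ^ 2 * d ^ 2 + D ^ 2) * i)) := by ring
    _ ≤ r * ((9 * A ^ 2) * (2 * d ^ 2)
        + (3 * A) * (2 * κ * X * i)
        + 1 * (2 * κ ^ 2 * (N ^ 2 * d ^ 2 + D ^ 2) * i)) :=
        mul_le_mul_of_nonneg_left (by linarith) hr0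
    _ = r * (18 * (A ^ 2 * d ^ 2) + 6 * κ * (A * X * i) + 2 * κ ^ 2 * (N ^ 2 * d ^ 2) * i)
        + 2 * κ ^ 2 * r * D ^ 2 * i := by ring
    _ ≤ _ := by linarith

private theorem p14b_final {κ Cq Cv n N D d i t X r AA AXi : ℝ} (hκ : 1 ≤ κ)
    (hCq : 0 ≤ Cq) (hCv : 0 ≤ Cv) (hn : 0 ≤ n) (hN : 0 ≤ N) (hD : 0 ≤ D) (hd : 0 ≤ d)
    (hi0 : 0 ≤ i) (ht : 0 < t) (hX : 0 ≤ X) (hr0 : 0 ≤ r)
    (hAA : AA = 4 * (n + κ ^ 2 * N ^ 2 * i))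
    (hAXi : AXi ≤ 1 / 2 * X * (AA / t + t * i)) :
    (20 + 2 * Cv + 200 * Cq) * (AA * d ^ 2) + (20 + 2 * Cv + 200 * Cq) * κ * AXi
        + (20 + 2 * Cv + 200 * Cq) * κ ^ 2 * (D * N * d) * i
        + (20 + 2 * Cv + 200 * Cq) * κ ^ 2 * (N ^ 2 * d ^ 2) * i
        + 2 * κ ^ 2 * r * D ^ 2 * i
      ≤ 8 * κ ^ 3 * (20 + 2 * Cv + 200 * Cq) * (d ^ 2 + X / t) * n
        + (8 * κ ^ 3 * (20 + 2 * Cv + 200 * Cq) * (N ^ 2 * d ^ 2 + X * (N ^ 2 / t + t) + D * N * d)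
            + 8 * κ ^ 3 * (20 + 2 * Cv + 200 * Cq) * r * D ^ 2) * i := by
  set K : ℝ := 20 + 2 * Cv + 200 * Cq with hK
  have hK0 : 20 ≤ K := by rw [hK]; linarith
  have hκ0 : 0 ≤ κ := by linarith
  have h1 : 1 ≤ κ ^ 3 := one_le_pow₀ hκ
  have h2 : κ ≤ κ ^ 3 := by nlinarith [sq_nonneg κ, mul_nonneg hκ0 hκ0]
  have h3 : κ ^ 2 ≤ κ ^ 3 := by nlinarith [sq_nonneg κ]
  have hKAX : K * κ * AXi ≤ K * κ * (1 / 2 * X * (AA / t + t * i)) :=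
    mul_le_mul_of_nonneg_left hAXi (by positivity)
  have e : K * κ * (1 / 2 * X * (AA / t + t * i))
      = K * (2 * κ) * (X / t * n) + K * (2 * κ ^ 3) * (X * (N ^ 2 / t) * i)
        + K * (1 / 2 * κ) * (X * t * i) := by
    rw [hAA]
    field_simp
    ring
  have t1 : K * (2 * κ) * (X / t * n) ≤ K * (8 * κ ^ 3) * (X / t * n) := by
    have : 0 ≤ X / t * n := by positivity
    have h4 : K * (2 * κ) ≤ K * (8 * κ ^ 3) := mul_le_mul_of_nonneg_left (by linarith) (by linarith)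
    exact mul_le_mul_of_nonneg_right h4 this
  have t2 : K * (2 * κ ^ 3) * (X * (N ^ 2 / t) * i) ≤ K * (8 * κ ^ 3) * (X * (N ^ 2 / t) * i) := by
    have : 0 ≤ X * (N ^ 2 / t) * i := by positivity
    have h4 : K * (2 * κ ^ 3) ≤ K * (8 * κ ^ 3) :=
      mul_le_mul_of_nonneg_left (by linarith) (by linarith)
    exact mul_le_mul_of_nonneg_right h4 this
  have t3 : K * (1 / 2 * κ) * (X * t * i) ≤ K * (8 * κ ^ 3) * (X * t * i) := by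
    have : 0 ≤ X * t * i := by positivity
    have h4 : K * (1 / 2 * κ) ≤ K * (8 * κ ^ 3) :=
      mul_le_mul_of_nonneg_left (by linarith) (by linarith)
    exact mul_le_mul_of_nonneg_right h4 this
  have t4 : K * κ ^ 2 * (D * N * d) * i ≤ K * (8 * κ ^ 3) * ((D * N * d) * i) := by
    have : 0 ≤ (D * N * d) * i := by positivity
    have h4 : K * κ ^ 2 ≤ K * (8 * κ ^ 3) :=
      mul_le_mul_of_nonneg_left (by linarith) (by linarith)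
    have := mul_le_mul_of_nonneg_right h4 this
    linarith
  have t5 : K * (AA * d ^ 2) + K * κ ^ 2 * (N ^ 2 * d ^ 2) * i
      ≤ K * (8 * κ ^ 3) * (d ^ 2 * n) + K * (8 * κ ^ 3) * (N ^ 2 * d ^ 2 * i) := by
    have e1 : K * (AA * d ^ 2) + K * κ ^ 2 * (N ^ 2 * d ^ 2) * i
        = K * 4 * (d ^ 2 * n) + K * (5 * κ ^ 2) * (N ^ 2 * d ^ 2 * i) := by
      rw [hAA]; ring
    rw [e1]
    have f1 : K * 4 * (d ^ 2 * n) ≤ K * (8 * κ ^ 3) * (d ^ 2 * n) := by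
      have : 0 ≤ d ^ 2 * n := by positivity
      have h4 : K * 4 ≤ K * (8 * κ ^ 3) :=
        mul_le_mul_of_nonneg_left (by linarith) (by linarith)
      exact mul_le_mul_of_nonneg_right h4 this
    have f2 : K * (5 * κ ^ 2) * (N ^ 2 * d ^ 2 * i) ≤ K * (8 * κ ^ 3) * (N ^ 2 * d ^ 2 * i) := by
      have : 0 ≤ N ^ 2 * d ^ 2 * i := by positivity
      have h4 : K * (5 * κ ^ 2) ≤ K * (8 * κ ^ 3) :=
        mul_le_mul_of_nonneg_left (by linarith) (by linarith)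
      exact mul_le_mul_of_nonneg_right h4 this
    linarith
  have t6 : 2 * κ ^ 2 * r * D ^ 2 * i ≤ K * (8 * κ ^ 3) * (r * D ^ 2 * i) := by
    have : 0 ≤ r * D ^ 2 * i := by positivity
    have h4 : 2 * κ ^ 2 ≤ K * (8 * κ ^ 3) := by nlinarith
    have := mul_le_mul_of_nonneg_right h4 this
    linarith
  have efin : 8 * κ ^ 3 * K * (d ^ 2 + X / t) * n
        + (8 * κ ^ 3 * K * (N ^ 2 * d ^ 2 + X * (N ^ 2 / t + t) + D * N * d)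
            + 8 * κ ^ 3 * K * r * D ^ 2) * i
      = K * (8 * κ ^ 3) * (X / t * n) + K * (8 * κ ^ 3) * (X * (N ^ 2 / t) * i)
        + K * (8 * κ ^ 3) * (X * t * i) + K * (8 * κ ^ 3) * ((D * N * d) * i)
        + (K * (8 * κ ^ 3) * (d ^ 2 * n) + K * (8 * κ ^ 3) * (N ^ 2 * d ^ 2 * i))
        + K * (8 * κ ^ 3) * (r * D ^ 2 * i) := by ring
  rw [efin]
  linarith

private theorem p14b_point (S : Sys ι) (κ : ℝ) (hκ : 1 ≤ κ) : ∃ K₁ : ℝ, 1 ≤ K₁ ∧ ∃ Cr : ℝ, 0 < Cr ∧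
    ∀ (τ s₁ s₂ sb M w r d N D i t : ℝ), 0 < τ → s₁ ≤ M → s₂ ≤ M → sb ≤ M → M ≤ 0 →
    exp M ≤ 100 * w → w ≤ 1 → LT Cr τ M ≤ r * w → 0 ≤ r → r ≤ 1 → 0 ≤ d → |s₁ - s₂| ≤ d →
    |s₁ + s₂ - 2 * sb| ≤ d ^ 2 → 0 ≤ N → 0 ≤ D → (i = 0 ∨ i = 1) → 0 < t →
    ∀ (u C₁ C₂ Cb Ce : Ev ι × Ev ι × Ev ι),
    ‖C₁‖ ≤ κ * N * i → ‖C₂‖ ≤ κ * N * i → ‖Cb‖ ≤ κ * N * i → ‖Ce‖ ≤ κ * D * i →
    ‖C₁ + C₂ - (2 : ℝ) • Cb‖ ≤ κ * (N * d ^ 2 + D * d) * i → ‖C₁ - C₂‖ ≤ κ * (N * d + D) * i →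
    ‖C₁ - Cb - Ce‖ ≤ κ * (N * d) * i → ‖C₂ - Cb + Ce‖ ≤ κ * (N * d) * i →
    (1 / 2 * (gP S (u + C₁) + qV S s₁ (u + C₁).1) + RT S τ s₁ (u + C₁).1)
      + (1 / 2 * (gP S (u + C₂) + qV S s₂ (u + C₂).1) + RT S τ s₂ (u + C₂).1)
      - 2 * (1 / 2 * (gP S (u + Cb) + qV S sb (u + Cb).1) + RT S τ sb (u + Cb).1)
      ≤ (gP S Ce + qV S sb Ce.1)
        + K₁ * (d ^ 2 + (N * d ^ 2 + D * d) / t) * (gsq u + w * ‖u.1‖ ^ 2)
        + (K₁ * (N ^ 2 * d ^ 2 + (N * d ^ 2 + D * d) * (N ^ 2 / t + t) + D * N * d)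
            + K₁ * r * D ^ 2) * i := by
  obtain ⟨Cq, hCq, hq⟩ := qVb_le S
  obtain ⟨Cv, hCv, hv⟩ := p14b_sumv S
  obtain ⟨Cr, hCr, hr⟩ := RT_joint S
  have hκ0 : 0 < κ := by linarith
  have hκ3 : 1 ≤ κ ^ 3 := one_le_pow₀ hκ
  refine ⟨8 * κ ^ 3 * (20 + 2 * Cv + 200 * Cq), by nlinarith, Cr, hCr, ?_⟩
  intro τ s₁ s₂ sb M w r d N D i t hτ h1 h2 h3 hM hexp hw1 hLT hr0 hr1 hd hs hs2 hN hD hi ht
    u C₁ C₂ Cb Ce hC1 hC2 hCb hCe hΔ h12 hE1 hE2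
  have hw0 : 0 ≤ w := by linarith [exp_pos M]
  have hi0 : 0 ≤ i := by rcases hi with rfl | rfl <;> norm_num
  have hii : i * i = i := by rcases hi with rfl | rfl <;> norm_num
  set X : ℝ := N * d ^ 2 + D * d with hX
  have hX0 : 0 ≤ X := by positivity
  set n : ℝ := gsq u + w * ‖u.1‖ ^ 2 with hn
  have hn0 : 0 ≤ n := by
    have := p14b_gsq_nonneg u
    positivity
  set A : ℝ := Real.sqrt (4 * (n + κ ^ 2 * N ^ 2 * i)) with hA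
  have hA0 : 0 ≤ A := Real.sqrt_nonneg _
  have hA2 : A ^ 2 = 4 * (n + κ ^ 2 * N ^ 2 * i) := Real.sq_sqrt (by positivity)
  -- bounds of the three fields
  have hC2sq : ∀ C : Ev ι × Ev ι × Ev ι, ‖C‖ ≤ κ * N * i → ‖C‖ ^ 2 ≤ κ ^ 2 * N ^ 2 * i := by
    intro C hC
    have := pow_le_pow_left₀ (norm_nonneg _) hC 2
    calc ‖C‖ ^ 2 ≤ (κ * N * i) ^ 2 := this
      _ = κ ^ 2 * N ^ 2 * (i * i) := by ring
      _ = κ ^ 2 * N ^ 2 * i := by rw [hii]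
  have hg : ∀ C : Ev ι × Ev ι × Ev ι, ‖C‖ ≤ κ * N * i → Real.sqrt (gsq (u + C)) ≤ A := by
    intro C hC
    apply Real.sqrt_le_sqrt
    have e1 := p14b_gsq_add u C
    have e2 := p14b_gsq_le C
    have e3 := hC2sq C hC
    have e4 : 0 ≤ w * ‖u.1‖ ^ 2 := by positivity
    have e5 := p14b_gsq_nonneg u
    rw [hn]
    linarith
  have hw2 : ∀ C : Ev ι × Ev ι × Ev ι, ‖C‖ ≤ κ * N * i → w * ‖(u + C).1‖ ^ 2 ≤ A ^ 2 := by
    intro C hC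
    have e1 := p14b_norm_add_sq u.1 C.1
    have e2 : ‖C.1‖ ^ 2 ≤ ‖C‖ ^ 2 := pow_le_pow_left₀ (norm_nonneg _) (norm_fst_le C) 2
    have e3 := hC2sq C hC
    have e5 := p14b_gsq_nonneg u
    have e6 : 0 ≤ κ ^ 2 * N ^ 2 * i := by positivity
    rw [hA2, hn]
    have e7 : w * ‖(u + C).1‖ ^ 2 ≤ w * (2 * ‖u.1‖ ^ 2 + 2 * (κ ^ 2 * N ^ 2 * i)) := by
      apply mul_le_mul_of_nonneg_left _ hw0
      have : (u + C).1 = u.1 + C.1 := rfl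
      rw [this]
      linarith
    have e8 : w * (2 * (κ ^ 2 * N ^ 2 * i)) ≤ 1 * (2 * (κ ^ 2 * N ^ 2 * i)) := by gcongr
    have e9 : 0 ≤ w * ‖u.1‖ ^ 2 := by positivity
    linarith
  have hw1' : ∀ C : Ev ι × Ev ι × Ev ι, ‖C‖ ≤ κ * N * i → w * ‖(u + C).1‖ ≤ A := by
    intro C hC
    have e1 := hw2 C hC
    refine le_of_sq_le_sq ?_ hA0
    calc (w * ‖(u + C).1‖) ^ 2 = w * (w * ‖(u + C).1‖ ^ 2) := by ring
      _ ≤ 1 * (w * ‖(u + C).1‖ ^ 2) := by gcongr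
      _ = w * ‖(u + C).1‖ ^ 2 := one_mul _
      _ ≤ A ^ 2 := e1
  -- generic tools
  have hfst : ∀ C : Ev ι × Ev ι × Ev ι, ‖C.1‖ ≤ ‖C‖ := fun C => norm_fst_le C
  have hE12 : ‖(C₁ - Cb - Ce) - (C₂ - Cb + Ce)‖ ≤ 2 * (κ * (N * d) * i) :=
    (norm_sub_le _ _).trans (by linarith)
  have hAXi0 : 0 ≤ A * X * i := by positivity
  have hes : ∀ s, s ≤ M → exp s ≤ 100 * w := fun s hs => (exp_le_exp.2 hs).trans hexp
  have hDN : (κ * D * i) * (2 * (κ * (N * d) * i)) = 2 * κ ^ 2 * (D * N * d) * i := by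
    calc (κ * D * i) * (2 * (κ * (N * d) * i)) = 2 * κ ^ 2 * (D * N * d) * (i * i) := by ring
      _ = _ := by rw [hii]
  have hNd : (κ * (N * d) * i) ^ 2 = κ ^ 2 * (N ^ 2 * d ^ 2) * i := by
    calc (κ * (N * d) * i) ^ 2 = κ ^ 2 * (N ^ 2 * d ^ 2) * (i * i) := by ring
      _ = _ := by rw [hii]
  -- T1
  have T1 : gPb S (u + Cb) (C₁ + C₂ - (2 : ℝ) • Cb) ≤ 2 * κ * (A * X * i) := by
    refine (le_abs_self _).trans ((gPb_le S _ _).trans ?_)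
    have e1 := hg Cb hCb
    have e2 := (p14b_sqrt_gsq (C₁ + C₂ - (2 : ℝ) • Cb)).trans
      (mul_le_mul_of_nonneg_left hΔ (by norm_num : (0 : ℝ) ≤ 2))
    calc Real.sqrt (gsq (u + Cb)) * Real.sqrt (gsq (C₁ + C₂ - (2 : ℝ) • Cb))
        ≤ A * (2 * (κ * X * i)) := by gcongr
      _ = 2 * κ * (A * X * i) := by ring
  have T2 : gPb S Ce ((C₁ - Cb - Ce) - (C₂ - Cb + Ce)) ≤ 8 * κ ^ 2 * (D * N * d) * i := by
    refine (le_abs_self _).trans ((gPb_le S _ _).trans ?_)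
    have e1 := (p14b_sqrt_gsq Ce).trans
      (mul_le_mul_of_nonneg_left hCe (by norm_num : (0 : ℝ) ≤ 2))
    have e2 := (p14b_sqrt_gsq ((C₁ - Cb - Ce) - (C₂ - Cb + Ce))).trans
      (mul_le_mul_of_nonneg_left hE12 (by norm_num : (0 : ℝ) ≤ 2))
    calc Real.sqrt (gsq Ce) * Real.sqrt (gsq ((C₁ - Cb - Ce) - (C₂ - Cb + Ce)))
        ≤ (2 * (κ * D * i)) * (2 * (2 * (κ * (N * d) * i))) := by gcongr
      _ = 4 * ((κ * D * i) * (2 * (κ * (N * d) * i))) := by ring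
      _ = 8 * κ ^ 2 * (D * N * d) * i := by rw [hDN]; ring
  have T3 : ∀ E : Ev ι × Ev ι × Ev ι, ‖E‖ ≤ κ * (N * d) * i →
      1 / 2 * gP S E ≤ κ ^ 2 * (N ^ 2 * d ^ 2) * i := by
    intro E hE
    have e1 := gP_le S E
    have e2 := p14b_gsq_le E
    have e3 := pow_le_pow_left₀ (norm_nonneg _) hE 2
    rw [hNd] at e3
    linarith
  have T4 : qVb S sb (u + Cb).1 (C₁ + C₂ - (2 : ℝ) • Cb).1 ≤ 100 * Cq * κ * (A * X * i) := by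
    have hsb : sb ≤ 0 := h3.trans hM
    refine (le_abs_self _).trans ((hq sb hsb _ _).1.trans ?_)
    have e1 := hw1' Cb hCb
    have e2 := (hfst (C₁ + C₂ - (2 : ℝ) • Cb)).trans hΔ
    have e3 := hes sb h3
    calc Cq * exp sb * (‖(u + Cb).1‖ * ‖(C₁ + C₂ - (2 : ℝ) • Cb).1‖)
        ≤ Cq * (100 * w) * (‖(u + Cb).1‖ * (κ * X * i)) := by gcongr
      _ = 100 * Cq * (w * ‖(u + Cb).1‖) * (κ * X * i) := by ring
      _ ≤ 100 * Cq * A * (κ * X * i) := by gcongr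
      _ = 100 * Cq * κ * (A * X * i) := by ring
  have T5 : qVb S sb Ce.1 ((C₁ - Cb - Ce) - (C₂ - Cb + Ce)).1
      ≤ 200 * Cq * κ ^ 2 * (D * N * d) * i := by
    have hsb : sb ≤ 0 := h3.trans hM
    refine (le_abs_self _).trans ((hq sb hsb _ _).1.trans ?_)
    have e1 := (hfst Ce).trans hCe
    have e2 := (hfst ((C₁ - Cb - Ce) - (C₂ - Cb + Ce))).trans hE12
    have e3 : exp sb ≤ 100 := (hes sb h3).trans (by linarith)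
    calc Cq * exp sb * (‖Ce.1‖ * ‖((C₁ - Cb - Ce) - (C₂ - Cb + Ce)).1‖)
        ≤ Cq * 100 * ((κ * D * i) * (2 * (κ * (N * d) * i))) := by gcongr
      _ = 200 * Cq * κ ^ 2 * (D * N * d) * i := by rw [hDN]; ring
  have T6 : ∀ E : Ev ι × Ev ι × Ev ι, ‖E‖ ≤ κ * (N * d) * i →
      1 / 2 * qV S sb E.1 ≤ 50 * Cq * κ ^ 2 * (N ^ 2 * d ^ 2) * i := by
    intro E hE
    have hsb : sb ≤ 0 := h3.trans hM
    have e1 := (le_abs_self _).trans (hq sb hsb E.1 E.1).2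
    have e3 : exp sb ≤ 100 := (hes sb h3).trans (by linarith)
    have e4 := pow_le_pow_left₀ (norm_nonneg _) ((hfst E).trans hE) 2
    rw [hNd] at e4
    have e5 : Cq * exp sb * ‖E.1‖ ^ 2 ≤ Cq * 100 * (κ ^ 2 * (N ^ 2 * d ^ 2) * i) := by gcongr
    linarith
  have T7 := hv s₁ s₂ sb M w d h1 h2 h3 hM hexp hd hs hs2 (u + C₁).1 (u + C₂).1
  have h12' : ‖(u + C₁).1 - (u + C₂).1‖ ≤ κ * (N * d + D) * i := by
    have : (u + C₁).1 - (u + C₂).1 = (C₁ - C₂).1 := by simp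
    rw [this]
    exact (hfst _).trans h12
  have T7' : Cv * w * d ^ 2 * (‖(u + C₁).1‖ ^ 2 + ‖(u + C₂).1‖ ^ 2)
      + Cv * w * d * (‖(u + C₁).1 - (u + C₂).1‖ * (‖(u + C₁).1‖ + ‖(u + C₂).1‖))
      ≤ 2 * Cv * (A ^ 2 * d ^ 2) + 2 * Cv * κ * (A * X * i) := by
    have e1 := hw2 C₁ hC1
    have e2 := hw2 C₂ hC2
    have e3 := hw1' C₁ hC1
    have e4 := hw1' C₂ hC2
    have e5 : Cv * w * d ^ 2 * (‖(u + C₁).1‖ ^ 2 + ‖(u + C₂).1‖ ^ 2)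
        ≤ 2 * Cv * (A ^ 2 * d ^ 2) := by
      calc Cv * w * d ^ 2 * (‖(u + C₁).1‖ ^ 2 + ‖(u + C₂).1‖ ^ 2)
          = Cv * d ^ 2 * (w * ‖(u + C₁).1‖ ^ 2 + w * ‖(u + C₂).1‖ ^ 2) := by ring
        _ ≤ Cv * d ^ 2 * (A ^ 2 + A ^ 2) := by gcongr
        _ = 2 * Cv * (A ^ 2 * d ^ 2) := by ring
    have e6 : Cv * w * d * (‖(u + C₁).1 - (u + C₂).1‖ * (‖(u + C₁).1‖ + ‖(u + C₂).1‖))
        ≤ 2 * Cv * κ * (A * X * i) := by
      calc Cv * w * d * (‖(u + C₁).1 - (u + C₂).1‖ * (‖(u + C₁).1‖ + ‖(u + C₂).1‖))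
          = Cv * d * ‖(u + C₁).1 - (u + C₂).1‖ * (w * ‖(u + C₁).1‖ + w * ‖(u + C₂).1‖) := by ring
        _ ≤ Cv * d * (κ * (N * d + D) * i) * (A + A) := by gcongr
        _ = 2 * Cv * κ * (A * X * i) := by rw [hX]; ring
    linarith
  have T8 := (le_abs_self _).trans (hr τ s₁ sb s₂ M hτ h1 h3 h2 hM (u + C₁).1 (u + Cb).1 (u + C₂).1
    (κ * (N * d + D) * i) (κ * X * i) h12' (by
      have : (u + C₁).1 + (u + C₂).1 - (2 : ℝ) • (u + Cb).1 = (C₁ + C₂ - (2 : ℝ) • Cb).1 := by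
        simp only [Prod.fst_add, Prod.fst_sub, Prod.smul_fst]
        module
      rw [this]
      exact (hfst _).trans hΔ))
  have T8' := T8.trans (p14b_T8real hLT hr0 hr1 hw0 hw1 hA0 hκ0.le hN hD hd hi0 hii hX (norm_nonneg _)
    (norm_nonneg _) (norm_nonneg _) (hw2 C₁ hC1) (hw2 C₂ hC2) (hw2 Cb hCb) (hw1' C₁ hC1)
    (hw1' C₂ hC2) (hw1' Cb hCb) hs hs2)
  -- collect
  have eG := p14b_gP S u C₁ C₂ Cb Ce
  have eQ := p14b_qV S s₁ s₂ sb u.1 C₁.1 C₂.1 Cb.1 Ce.1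
  have eT3a := T3 _ hE1
  have eT3b := T3 _ hE2
  have eT6a := T6 _ hE1
  have eT6b := T6 _ hE2
  have hAi : A * X * i ≤ 1 / 2 * X * (A ^ 2 / t + t * i) := by
    have h' : A * i ≤ 1 / 2 * (A ^ 2 / t + t * i) := by
      rw [show A ^ 2 / t + t * i = (A ^ 2 + t ^ 2 * (i * i)) / t by rw [hii]; field_simp]
      rw [mul_div_assoc', le_div_iff₀ ht]
      linarith [sq_nonneg (A - t * i)]
    calc A * X * i = X * (A * i) := by ring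
      _ ≤ X * (1 / 2 * (A ^ 2 / t + t * i)) := by gcongr
      _ = _ := by ring
  set K : ℝ := 20 + 2 * Cv + 200 * Cq with hK
  have hK0 : 20 ≤ K := by rw [hK]; linarith
  have hCqK : 200 * Cq + 2 * Cv + 20 ≤ K := by rw [hK]; linarith
  have eQ' : 1 / 2 * (qV S s₁ (u + C₁).1 + qV S s₂ (u + C₂).1 - 2 * qV S sb (u + Cb).1) - qV S sb Ce.1
      = qVb S sb (u + Cb).1 (C₁ + C₂ - (2 : ℝ) • Cb).1
        + qVb S sb Ce.1 ((C₁ - Cb - Ce) - (C₂ - Cb + Ce)).1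
        + 1 / 2 * qV S sb (C₁ - Cb - Ce).1 + 1 / 2 * qV S sb (C₂ - Cb + Ce).1
        + ∑ j, (1 / 4 * ((vj S s₁ j + vj S s₂ j - 2 * vj S sb j)
              * ((u + C₁).1 j ^ 2 + (u + C₂).1 j ^ 2))
            + 1 / 4 * ((vj S s₁ j - vj S s₂ j) * ((u + C₁).1 j ^ 2 - (u + C₂).1 j ^ 2))) := eQ
  have hfin := p14b_final (AA := A ^ 2) (AXi := A * X * i) hκ hCq.le hCv.le hn0 hN hD hd hi0 ht
    hX0 hr0 hA2 hAi
  rw [← hK] at hfin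
  have hT7 := T7.trans T7'
  clear_value A n X K
  clear hv hq hr hg hw2 hw1' T3 T6 T7 T7' T8 hfst hes hC2sq eQ
  generalize gP S (u + C₁) = p₁ at *
  generalize gP S (u + C₂) = p₂ at *
  generalize gP S (u + Cb) = pb at *
  generalize gP S Ce = pe at *
  generalize gPb S (u + Cb) (C₁ + C₂ - (2 : ℝ) • Cb) = b₁ at *
  generalize gPb S Ce ((C₁ - Cb - Ce) - (C₂ - Cb + Ce)) = b₂ at *
  generalize gP S (C₁ - Cb - Ce) = b₃ at *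
  generalize gP S (C₂ - Cb + Ce) = b₄ at *
  generalize qV S s₁ (u + C₁).1 = q₁ at *
  generalize qV S s₂ (u + C₂).1 = q₂ at *
  generalize qV S sb (u + Cb).1 = qb at *
  generalize qV S sb Ce.1 = qe at *
  generalize qVb S sb (u + Cb).1 (C₁ + C₂ - (2 : ℝ) • Cb).1 = d₁ at *
  generalize qVb S sb Ce.1 ((C₁ - Cb - Ce) - (C₂ - Cb + Ce)).1 = d₂ at *
  generalize qV S sb (C₁ - Cb - Ce).1 = d₃ at *
  generalize qV S sb (C₂ - Cb + Ce).1 = d₄ at *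
  generalize RT S τ s₁ (u + C₁).1 = r₁ at *
  generalize RT S τ s₂ (u + C₂).1 = r₂ at *
  generalize RT S τ sb (u + Cb).1 = rb at *
  generalize (∑ j, (1 / 4 * ((vj S s₁ j + vj S s₂ j - 2 * vj S sb j)
              * ((u + C₁).1 j ^ 2 + (u + C₂).1 j ^ 2))
            + 1 / 4 * ((vj S s₁ j - vj S s₂ j) * ((u + C₁).1 j ^ 2 - (u + C₂).1 j ^ 2)))) = d₅ at *
  have z1 : 0 ≤ A * X * i * κ := by positivity
  have z2 : 0 ≤ κ ^ 2 * (D * N * d) * i := by positivity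
  have z3 : 0 ≤ κ ^ 2 * (N ^ 2 * d ^ 2) * i := by positivity
  have z4 : 0 ≤ A ^ 2 * d ^ 2 := by positivity
  have y1 : (8 + 100 * Cq + 2 * Cv) * (A * X * i * κ) ≤ K * (A * X * i * κ) :=
    mul_le_mul_of_nonneg_right (by linarith) z1
  have y2 : (8 + 200 * Cq) * (κ ^ 2 * (D * N * d) * i) ≤ K * (κ ^ 2 * (D * N * d) * i) :=
    mul_le_mul_of_nonneg_right (by linarith) z2
  have y3 : (4 + 100 * Cq) * (κ ^ 2 * (N ^ 2 * d ^ 2) * i) ≤ K * (κ ^ 2 * (N ^ 2 * d ^ 2) * i) :=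
    mul_le_mul_of_nonneg_right (by linarith) z3
  have y4 : (18 + 2 * Cv) * (A ^ 2 * d ^ 2) ≤ K * (A ^ 2 * d ^ 2) :=
    mul_le_mul_of_nonneg_right (by linarith) z4
  linarith

private theorem p14b_fin (K₁ c₀ L : ℝ) (hK₁ : 1 ≤ K₁) (hc₀ : 0 < c₀) (hL : 1 ≤ L)
    {ρ N D d a m n X t : ℝ} (hρ : 1 ≤ ρ) (hρ1 : 18 * L ^ 2 * K₁ ≤ ρ)
    (hρ2 : 32 * L ^ 2 * K₁ / c₀ ≤ ρ) (hN : 0 ≤ N) (hD : 0 ≤ D) (hd : 0 ≤ d)
    (hDN : D ≤ 2 * N) (ht : t = if N = 0 then 1 else N) (hX : X = N * d ^ 2 + D * d)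
    (ha : a ≤ 4 * L ^ 2 * ρ ^ 2) (hn : n ≤ N ^ 2) (hm : m ≤ -(c₀ * (D ^ 2 / 4))) :
    m + K₁ * (d ^ 2 + X / t) * n
        + (K₁ * (N ^ 2 * d ^ 2 + X * (N ^ 2 / t + t) + D * N * d) + K₁ * (ρ ^ 5)⁻¹ * D ^ 2) * a
      ≤ -(1 / 8 * c₀ * D ^ 2) + ρ ^ 3 * (N ^ 2 * (d ^ 2 + d ^ 4) + N * D * (d + d ^ 2)) := by
  have hX0 : 0 ≤ X := by rw [hX]; positivity
  have htp : 0 < t := by
    rw [ht]; split_ifs with h
    · norm_num
    · exact lt_of_le_of_ne hN (Ne.symm h)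
  have h1 : X / t * N ^ 2 ≤ X * N := by
    by_cases h : N = 0
    · have hD0 : D = 0 := by rw [h] at hDN; linarith
      rw [hX, h, hD0]; simp
    · rw [ht, if_neg h]
      apply le_of_eq
      field_simp
  have h2 : X * (N ^ 2 / t + t) ≤ 2 * (X * N) := by
    by_cases h : N = 0
    · have hD0 : D = 0 := by rw [h] at hDN; linarith
      rw [hX, h, hD0]; simp
    · rw [ht, if_neg h]
      apply le_of_eq
      field_simp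
      ring
  have hXt : 0 ≤ X / t := by positivity
  have hXN : X * N = N ^ 2 * d ^ 2 + N * D * d := by rw [hX]; ring
  have hP : 0 ≤ N * D * d := by positivity
  have hP2 : 0 ≤ N ^ 2 * d ^ 2 := by positivity
  have h3 : K₁ * (d ^ 2 + X / t) * n ≤ K₁ * (2 * (N ^ 2 * d ^ 2 + N * D * d)) := by
    calc K₁ * (d ^ 2 + X / t) * n ≤ K₁ * (d ^ 2 + X / t) * N ^ 2 := by gcongr
      _ = K₁ * (N ^ 2 * d ^ 2 + X / t * N ^ 2) := by ring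
      _ ≤ K₁ * (2 * (N ^ 2 * d ^ 2 + N * D * d)) := by
          apply mul_le_mul_of_nonneg_left _ (by linarith)
          linarith
  have h4 : K₁ * (N ^ 2 * d ^ 2 + X * (N ^ 2 / t + t) + D * N * d) + K₁ * (ρ ^ 5)⁻¹ * D ^ 2
      ≤ K₁ * (4 * (N ^ 2 * d ^ 2 + N * D * d)) + K₁ * (ρ ^ 5)⁻¹ * D ^ 2 := by
    have : N ^ 2 * d ^ 2 + X * (N ^ 2 / t + t) + D * N * d ≤ 4 * (N ^ 2 * d ^ 2 + N * D * d) := by
      have e : D * N * d = N * D * d := by ring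
      linarith
    have := mul_le_mul_of_nonneg_left this (by linarith : 0 ≤ K₁)
    linarith
  have h5 : (K₁ * (N ^ 2 * d ^ 2 + X * (N ^ 2 / t + t) + D * N * d) + K₁ * (ρ ^ 5)⁻¹ * D ^ 2) * a
      ≤ (K₁ * (4 * (N ^ 2 * d ^ 2 + N * D * d)) + K₁ * (ρ ^ 5)⁻¹ * D ^ 2)
        * (4 * L ^ 2 * ρ ^ 2) := by
    have e1 : 0 ≤ K₁ * (N ^ 2 * d ^ 2 + X * (N ^ 2 / t + t) + D * N * d)
        + K₁ * (ρ ^ 5)⁻¹ * D ^ 2 := by positivity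
    calc _ ≤ (K₁ * (N ^ 2 * d ^ 2 + X * (N ^ 2 / t + t) + D * N * d)
            + K₁ * (ρ ^ 5)⁻¹ * D ^ 2) * (4 * L ^ 2 * ρ ^ 2) :=
          mul_le_mul_of_nonneg_left ha e1
      _ ≤ _ := mul_le_mul_of_nonneg_right h4 (by positivity)
  have h6 : K₁ * (ρ ^ 5)⁻¹ * D ^ 2 * (4 * L ^ 2 * ρ ^ 2) ≤ 1 / 8 * c₀ * D ^ 2 := by
    have e1 : K₁ * (ρ ^ 5)⁻¹ * D ^ 2 * (4 * L ^ 2 * ρ ^ 2) = (4 * L ^ 2 * K₁ / ρ ^ 3) * D ^ 2 := by
      field_simp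
    rw [e1]
    apply mul_le_mul_of_nonneg_right _ (sq_nonneg D)
    rw [div_le_iff₀ (by positivity)]
    rw [div_le_iff₀ hc₀] at hρ2
    have e2 : ρ ≤ ρ ^ 3 := by
      have := pow_le_pow_right₀ hρ (by norm_num : 1 ≤ 3)
      simpa using this
    nlinarith
  have h7 : K₁ * (2 * (N ^ 2 * d ^ 2 + N * D * d))
      + K₁ * (4 * (N ^ 2 * d ^ 2 + N * D * d)) * (4 * L ^ 2 * ρ ^ 2)
      ≤ ρ ^ 3 * (N ^ 2 * d ^ 2 + N * D * d) := by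
    have e1 : K₁ * 2 + K₁ * 4 * (4 * L ^ 2 * ρ ^ 2) ≤ ρ ^ 3 := by
      have e2 : 1 ≤ L ^ 2 * ρ ^ 2 := by
        have a1 : 1 ≤ L ^ 2 := one_le_pow₀ hL
        have a2 : 1 ≤ ρ ^ 2 := one_le_pow₀ hρ
        nlinarith
      have e3 : 18 * L ^ 2 * K₁ * ρ ^ 2 ≤ ρ * ρ ^ 2 := mul_le_mul_of_nonneg_right hρ1 (by positivity)
      nlinarith
    have := mul_le_mul_of_nonneg_right e1 (by positivity : 0 ≤ N ^ 2 * d ^ 2 + N * D * d)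
    linarith
  have h8 : ρ ^ 3 * (N ^ 2 * d ^ 2 + N * D * d)
      ≤ ρ ^ 3 * (N ^ 2 * (d ^ 2 + d ^ 4) + N * D * (d + d ^ 2)) := by
    apply mul_le_mul_of_nonneg_left _ (by positivity)
    have e1 : 0 ≤ N ^ 2 * d ^ 4 := by positivity
    have e2 : 0 ≤ N * D * d ^ 2 := by positivity
    linarith
  linarith


private theorem p14b_main_int (K : Cfg B δ R₀ Ξ) (e : Cc B.S) (ξ : ℂ) (hξ : ‖ξ‖ ≤ Ξ)
    (hΞ : Ξ < 0.05 * K.ρ) (hρ : 1 ≤ K.ρ) :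
    Integrable (fun x => gP B.S (jet (Cf B.S K.χ e ξ) x)
      + qV B.S (SS K.F (x - ξ)) (jet (Cf B.S K.χ e ξ) x).1) volume ∧
    ∫ x in {x : ℂ | 0.88 * K.ρ ≤ ‖x‖}, (gP B.S (jet (Cf B.S K.χ e ξ) x)
      + qV B.S (SS K.F (x - ξ)) (jet (Cf B.S K.χ e ξ) x).1) ≤ -(B.c₀ * ∑ i, e i ^ 2) := by
  have hz : ∀ x : ℂ, jet (Cf B.S K.χ e ξ) x = 0 → gP B.S (jet (Cf B.S K.χ e ξ) x)
      + qV B.S (SS K.F (x - ξ)) (jet (Cf B.S K.χ e ξ) x).1 = 0 := by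
    intro x hx
    rw [hx]
    simp [gP, qV]
  constructor
  · have hH := Cf_smooth K.fam e ξ
    have key : ∀ J : ℂ → Ev ι × Ev ι × Ev ι, Continuous J → ∀ s : ℂ → ℝ, Continuous s →
        Continuous (fun x => gP B.S (J x) + qV B.S (s x) (J x).1) := by
      intro J hJ s hs
      unfold gP qV vj
      fun_prop
    have hc : Continuous (jet (Cf B.S K.χ e ξ)) := by
      have h1 : Continuous (fderiv ℝ (Cf B.S K.χ e ξ)) := hH.continuous_fderiv (by simp)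
      exact hH.continuous.prodMk
        ((h1.clm_apply continuous_const).prodMk (h1.clm_apply continuous_const))
    have hS : Continuous fun x : ℂ => SS K.F (x - ξ) :=
      (SS_smooth K.wall).continuous.comp (continuous_sub_right ξ)
    have hcont : Continuous (fun x => gP B.S (jet (Cf B.S K.χ e ξ) x)
        + qV B.S (SS K.F (x - ξ)) (jet (Cf B.S K.χ e ξ) x).1) := key _ hc _ hS
    apply hcont.integrable_of_hasCompactSupport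
    apply HasCompactSupport.intro (isCompact_closedBall (0 : ℂ) (B.C₀ * K.ρ + Ξ))
    intro x hx
    apply hz
    have h1 : B.C₀ * K.ρ < ‖x - ξ‖ := by
      have h2 := norm_sub_norm_le x ξ
      simp only [Metric.mem_closedBall, dist_zero_right, not_le] at hx
      linarith
    obtain ⟨h3, h4⟩ := Cf_out K.fam e ξ x h1
    simp [jet, h3, h4]
  · rw [setIntegral_eq_integral_of_forall_compl_eq_zero]
    · obtain ⟨q, hq, hint⟩ := K.fam.form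
      have h1 := hint ξ e
      have h2 : ∫ x, (gP B.S (jet (Cf B.S K.χ e ξ) x)
        + qV B.S (SS K.F (x - ξ)) (jet (Cf B.S K.χ e ξ) x).1) = ∑ i, q i * e i ^ 2 := h1
      rw [h2, Finset.mul_sum, ← Finset.sum_neg_distrib]
      refine Finset.sum_le_sum fun i _ => ?_
      nlinarith [hq i, sq_nonneg (e i)]
    · intro x hx
      apply hz
      simp only [mem_ofPred_eq, not_le] at hx
      have h1 : ‖x - ξ‖ < 0.93 * K.ρ := by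
        have := norm_sub_le x ξ
        linarith
      obtain ⟨h3, h4⟩ := Cf_zero K.fam e ξ x h1
      simp [jet, h3, h4]

private theorem p14b_area (R : ℝ) (hR : 0 ≤ R) (Ω : Set ℂ) :
    Integrable (fun x : ℂ => if ‖x‖ ≤ R then (1 : ℝ) else 0) volume ∧
    ∫ x in Ω, (if ‖x‖ ≤ R then (1 : ℝ) else 0) ≤ 4 * R ^ 2 := by
  have e : (fun x : ℂ => if ‖x‖ ≤ R then (1 : ℝ) else 0)
      = (Metric.closedBall (0 : ℂ) R).indicator (fun _ => (1 : ℝ)) := by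
    funext x
    simp [Set.indicator, Metric.mem_closedBall, dist_zero_right]
  have hint : Integrable (fun x : ℂ => if ‖x‖ ≤ R then (1 : ℝ) else 0) volume := by
    rw [e]
    exact (integrable_indicator_iff Metric.isClosed_closedBall.measurableSet).2
      (integrableOn_const (hs := (isCompact_closedBall (0 : ℂ) R).measure_lt_top.ne))
  refine ⟨hint, ?_⟩
  have h1 : ∫ x in Ω, (if ‖x‖ ≤ R then (1 : ℝ) else 0) ≤ ∫ x : ℂ, (if ‖x‖ ≤ R then (1 : ℝ) else 0) := by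
    apply setIntegral_le_integral hint
    filter_upwards with x
    show (0 : ℝ) ≤ if ‖x‖ ≤ R then (1 : ℝ) else 0
    split_ifs <;> norm_num
  refine h1.trans ?_
  rw [e, integral_indicator Metric.isClosed_closedBall.measurableSet, setIntegral_const]
  rw [smul_eq_mul, mul_one, measureReal_def, Complex.volume_closedBall]
  rw [ENNReal.toReal_mul, ENNReal.toReal_pow, ENNReal.toReal_ofReal hR]
  have hpi := Real.pi_le_four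
  have : ((NNReal.pi : NNReal) : ENNReal).toReal = π := by simp
  rw [this]
  nlinarith [sq_nonneg R]

/-! ### P14b second differences of the outer energy -/
theorem outer_second (B : Base ι) : ∃ N : ℕ, ∀ δ R₀ Ξ : ℝ, 0 < δ → δ ≤ 1 → 1 ≤ R₀ → 0 ≤ Ξ →
    ∃ ρ₀ : ℝ, ∀ K : Cfg B δ R₀ Ξ, ρ₀ ≤ K.ρ →
    ∀ U : Fld ι, IsSob U → ∀ (c c' : Cc B.S) (ξ ξ' : ℂ), ‖ξ‖ ≤ Ξ → ‖ξ'‖ ≤ Ξ → ∀ D N₂ : ℝ,
    NII K.ρ (0.88 * K.ρ) U ≤ N₂ ^ 2 → 0 ≤ N₂ → Real.sqrt (∑ i, c i ^ 2) ≤ N₂ →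
    Real.sqrt (∑ i, c' i ^ 2) ≤ N₂ → D = Real.sqrt (∑ i, (c i - c' i) ^ 2) →
    outQ K U c ξ + outQ K U c' ξ' - 2 * outQ K U ((1 / 2 : ℝ) • (c + c')) ((ξ + ξ') / 2)
      ≤ -(1 / 8 * B.c₀ * D ^ 2)
        + K.ρ ^ N * (N₂ ^ 2 * (‖ξ - ξ'‖ ^ 2 + ‖ξ - ξ'‖ ^ 4) + N₂ * D * (‖ξ - ξ'‖ + ‖ξ - ξ'‖ ^ 2)) := by
  obtain ⟨κ, hκ, hJ⟩ := p14b_jets B.S B.c₀ B.C₀ B.hC₀
  obtain ⟨K₁, hK₁, Cr, hCr, hpt⟩ := p14b_point B.S κ hκ
  refine ⟨3, ?_⟩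
  intro δ R₀ Ξ hδ hδ1 hR hΞ
  obtain ⟨ρa, hsplit⟩ := PhiJ_split B δ R₀ Ξ hδ hδ1 hR hΞ
  obtain ⟨ρb, hfar⟩ := SS_far Ξ
  obtain ⟨ρc, hLT⟩ := LT_le Cr hCr δ Ξ hδ hδ1 hΞ
  set L : ℝ := B.C₀ + 1 with hL
  have hL1 : 1 ≤ L := by have := B.hC₀; linarith
  refine ⟨max (max ρa ρb) (max ρc (max (2 * R₀) (max (20 * Ξ + 1)
    (max (18 * L ^ 2 * K₁) (32 * L ^ 2 * K₁ / B.c₀))))), ?_⟩
  intro K hK U hU c c' ξ ξ' hξ hξ' D N₂ hNII hN hc hc' hD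
  have hρa : ρa ≤ K.ρ := (le_max_left _ _).trans ((le_max_left _ _).trans hK)
  have hρb : ρb ≤ K.ρ := (le_max_right _ _).trans ((le_max_left _ _).trans hK)
  have hK2 := (le_max_right _ _).trans hK
  have hρc : ρc ≤ K.ρ := (le_max_left _ _).trans hK2
  have hK3 := (le_max_right _ _).trans hK2
  have hρR : 2 * R₀ ≤ K.ρ := (le_max_left _ _).trans hK3
  have hK4 := (le_max_right _ _).trans hK3
  have hρΞ : 20 * Ξ + 1 ≤ K.ρ := (le_max_left _ _).trans hK4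
  have hK5 := (le_max_right _ _).trans hK4
  have hρL1 : 18 * L ^ 2 * K₁ ≤ K.ρ := (le_max_left _ _).trans hK5
  have hρL2 : 32 * L ^ 2 * K₁ / B.c₀ ≤ K.ρ := (le_max_right _ _).trans hK5
  have hρ1 : 1 ≤ K.ρ := by linarith
  have hρ0 : 0 < K.ρ := by linarith
  have hΞ' : Ξ < 0.05 * K.ρ := by linarith
  have hΞρ : Ξ ≤ K.ρ := by linarith
  set d : ℝ := ‖ξ - ξ'‖ with hd
  have hd0 : 0 ≤ d := norm_nonneg _
  set cb : Cc B.S := (1 / 2 : ℝ) • (c + c') with hcb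
  set e : Cc B.S := (1 / 2 : ℝ) • (c - c') with he
  set ξb : ℂ := (ξ + ξ') / 2 with hξb
  have hξbΞ : ‖ξb‖ ≤ Ξ := by
    rw [hξb, norm_div]
    have := norm_add_le ξ ξ'
    simp only [Complex.norm_ofNat]
    linarith
  have hD0 : 0 ≤ D := by rw [hD]; exact Real.sqrt_nonneg _
  have hDsq : D ^ 2 = ∑ i, (c i - c' i) ^ 2 := by
    rw [hD, Real.sq_sqrt (Finset.sum_nonneg fun i _ => sq_nonneg _)]
  have hcsq : ∑ i, c i ^ 2 ≤ N₂ ^ 2 := by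
    have := Real.sqrt_le_left hN |>.1 hc
    exact this
  have hc'sq : ∑ i, c' i ^ 2 ≤ N₂ ^ 2 := by
    have := Real.sqrt_le_left hN |>.1 hc'
    exact this
  have hcbN : Real.sqrt (∑ i, cb i ^ 2) ≤ N₂ := by
    apply Real.sqrt_le_iff.2 ⟨hN, ?_⟩
    calc ∑ i, cb i ^ 2 ≤ ∑ i, (1 / 2 * c i ^ 2 + 1 / 2 * c' i ^ 2) := by
          refine Finset.sum_le_sum fun i _ => ?_
          simp only [hcb, Pi.smul_apply, Pi.add_apply, smul_eq_mul]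
          linarith [sq_nonneg (c i - c' i)]
      _ = 1 / 2 * ∑ i, c i ^ 2 + 1 / 2 * ∑ i, c' i ^ 2 := by
          rw [Finset.sum_add_distrib, Finset.mul_sum, Finset.mul_sum]
      _ ≤ N₂ ^ 2 := by linarith
  have hesq : ∑ i, e i ^ 2 = D ^ 2 / 4 := by
    rw [hDsq, Finset.sum_div]
    refine Finset.sum_congr rfl fun i _ => ?_
    simp only [he, Pi.smul_apply, Pi.sub_apply, smul_eq_mul]
    ring
  have heD : Real.sqrt (∑ i, e i ^ 2) = D / 2 := by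
    rw [hesq, show D ^ 2 / 4 = (D / 2) ^ 2 by ring, Real.sqrt_sq (by positivity)]
  have hDN : D ≤ 2 * N₂ := by
    rw [hD]
    apply Real.sqrt_le_iff.2 ⟨by positivity, ?_⟩
    calc ∑ i, (c i - c' i) ^ 2 ≤ ∑ i, (2 * c i ^ 2 + 2 * c' i ^ 2) := by
          refine Finset.sum_le_sum fun i _ => ?_
          linarith [sq_nonneg (c i + c' i)]
      _ = 2 * ∑ i, c i ^ 2 + 2 * ∑ i, c' i ^ 2 := by
          rw [Finset.sum_add_distrib, Finset.mul_sum, Finset.mul_sum]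
      _ ≤ (2 * N₂) ^ 2 := by linarith
  set t : ℝ := if N₂ = 0 then 1 else N₂ with ht
  have htp : 0 < t := by
    rw [ht]; split_ifs with h
    · norm_num
    · exact lt_of_le_of_ne hN (Ne.symm h)
  set X : ℝ := N₂ * d ^ 2 + D * d with hX
  set Ω : Set ℂ := {x : ℂ | 0.88 * K.ρ ≤ ‖x‖} with hΩ
  have hΩm : MeasurableSet Ω := measurableSet_le measurable_const measurable_norm
  have hint : ∀ (c₁ : Cc B.S) (ξ₁ : ℂ), ‖ξ₁‖ ≤ Ξ →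
      IntegrableOn (fun x => outD B δ K.ρ x (SS K.F (x - ξ₁)) (GG K U c₁ ξ₁ x)) Ω volume := by
    intro c₁ ξ₁ h₁
    refine (hsplit K hρa U hU c₁ ξ₁ h₁).2.1.mono_set ?_
    intro x hx
    simp only [hΩ, mem_ofPred_eq] at hx ⊢
    linarith
  have i1 := hint c ξ hξ
  have i2 := hint c' ξ' hξ'
  have i3 := hint cb ξb hξbΞ
  obtain ⟨m1, m2⟩ := p14b_main_int K e ξb hξbΞ hΞ' hρ1
  obtain ⟨a1, a2⟩ := p14b_area (L * K.ρ) (by positivity) Ω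
  have hnint : Integrable (fun x => gsq (U x) + wgt K.ρ ‖x‖ * ‖(U x).1‖ ^ 2) volume :=
    hU.integrable_gsq.add (hU.integrable_wgt hρ1)
  -- pointwise inequality
  have hpoint : ∀ x ∈ Ω,
      outD B δ K.ρ x (SS K.F (x - ξ)) (GG K U c ξ x)
        + outD B δ K.ρ x (SS K.F (x - ξ')) (GG K U c' ξ' x)
        - 2 * outD B δ K.ρ x (SS K.F (x - ξb)) (GG K U cb ξb x)
      ≤ (gP B.S (jet (Cf B.S K.χ e ξb) x) + qV B.S (SS K.F (x - ξb)) (jet (Cf B.S K.χ e ξb) x).1)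
        + K₁ * (d ^ 2 + X / t) * (gsq (U x) + wgt K.ρ ‖x‖ * ‖(U x).1‖ ^ 2)
        + (K₁ * (N₂ ^ 2 * d ^ 2 + X * (N₂ ^ 2 / t + t) + D * N₂ * d)
            + K₁ * (K.ρ ^ 5)⁻¹ * D ^ 2) * (if ‖x‖ ≤ L * K.ρ then (1 : ℝ) else 0) := by
    intro x hx
    have hx88 : 0.88 * K.ρ ≤ ‖x‖ := hx
    have hx0 : x ≠ 0 := by
      rintro rfl
      rw [norm_zero] at hx88
      linarith
    obtain ⟨i, hi⟩ : ∃ i : ℝ, i = (if ‖x‖ ≤ L * K.ρ then (1 : ℝ) else 0) := ⟨_, rfl⟩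
    have hi01 : i = 0 ∨ i = 1 := by
      rw [hi]; split_ifs
      · exact Or.inr rfl
      · exact Or.inl rfl
    have hi0 : 0 ≤ i := by rcases hi01 with h | h <;> rw [h] <;> norm_num
    rw [← hi]
    have hJ' : ∀ (c₁ : Cc B.S) (ξ₁ ξ₂ : ℂ), ‖ξ₁‖ ≤ Ξ → ‖ξ₂‖ ≤ Ξ →
        ‖jet (Cf B.S K.χ c₁ ξ₁) x‖ ≤ κ * Real.sqrt (∑ i, c₁ i ^ 2) * i ∧
        ‖jet (Cf B.S K.χ c₁ ξ₁) x - jet (Cf B.S K.χ c₁ ξ₂) x‖
          ≤ κ * Real.sqrt (∑ i, c₁ i ^ 2) * ‖ξ₁ - ξ₂‖ * i ∧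
        ‖jet (Cf B.S K.χ c₁ ξ₁) x + jet (Cf B.S K.χ c₁ ξ₂) x
          - (2 : ℝ) • jet (Cf B.S K.χ c₁ ((ξ₁ + ξ₂) / 2)) x‖
          ≤ κ * Real.sqrt (∑ i, c₁ i ^ 2) * ‖ξ₁ - ξ₂‖ ^ 2 * i := fun c₁ ξ₁ ξ₂ h₁ h₂ =>
      hJ K.ρ K.F K.χ K.fam c₁ ξ₁ ξ₂ x Ξ h₁ h₂ hΞρ i hi
    have hadd : ∀ (c₁ c₂ : Cc B.S) (ξ₁ : ℂ), jet (Cf B.S K.χ (c₁ + c₂) ξ₁) x
        = jet (Cf B.S K.χ c₁ ξ₁) x + jet (Cf B.S K.χ c₂ ξ₁) x := by
      intro c₁ c₂ ξ₁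
      rw [jet_Cf_add K.fam]; rfl
    have hsmul : ∀ (s : ℝ) (c₂ : Cc B.S) (ξ₁ : ℂ), jet (Cf B.S K.χ (s • c₂) ξ₁) x
        = s • jet (Cf B.S K.χ c₂ ξ₁) x := by
      intro s c₂ ξ₁
      rw [jet_Cf_smul K.fam]; rfl
    have ec : c = cb + e := by
      rw [hcb, he]; module
    have ec' : c' = cb + (-1 : ℝ) • e := by
      rw [hcb, he]; module
    have hJc : ∀ ξ₁ : ℂ, jet (Cf B.S K.χ c ξ₁) x
        = jet (Cf B.S K.χ cb ξ₁) x + jet (Cf B.S K.χ e ξ₁) x := by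
      intro ξ₁
      conv_lhs => rw [ec]
      exact hadd _ _ _
    have hJc' : ∀ ξ₁ : ℂ, jet (Cf B.S K.χ c' ξ₁) x
        = jet (Cf B.S K.χ cb ξ₁) x - jet (Cf B.S K.χ e ξ₁) x := by
      intro ξ₁
      conv_lhs => rw [ec']
      rw [hadd cb ((-1 : ℝ) • e) ξ₁, hsmul (-1) e ξ₁]
      module
    have hκ0 : 0 ≤ κ := by linarith
    have hdb : ‖ξ - ξb‖ ≤ d := by
      have : ξ - ξb = (ξ - ξ') / 2 := by rw [hξb]; ring
      rw [this, norm_div, Complex.norm_ofNat]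
      linarith
    have hdb' : ‖ξ' - ξb‖ ≤ d := by
      have : ξ' - ξb = -((ξ - ξ') / 2) := by rw [hξb]; ring
      rw [this, norm_neg, norm_div, Complex.norm_ofNat]
      linarith
    -- the bounds
    have b1 : ‖jet (Cf B.S K.χ c ξ) x‖ ≤ κ * N₂ * i :=
      (hJ' c ξ ξ hξ hξ).1.trans (by gcongr)
    have b2 : ‖jet (Cf B.S K.χ c' ξ') x‖ ≤ κ * N₂ * i :=
      (hJ' c' ξ' ξ' hξ' hξ').1.trans (by gcongr)
    have b3 : ‖jet (Cf B.S K.χ cb ξb) x‖ ≤ κ * N₂ * i :=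
      (hJ' cb ξb ξb hξbΞ hξbΞ).1.trans (by gcongr)
    have b4 : ‖jet (Cf B.S K.χ e ξb) x‖ ≤ κ * D * i := by
      have := (hJ' e ξb ξb hξbΞ hξbΞ).1
      rw [heD] at this
      refine this.trans ?_
      gcongr
      linarith
    have b5 : ‖jet (Cf B.S K.χ c ξ) x + jet (Cf B.S K.χ c' ξ') x
        - (2 : ℝ) • jet (Cf B.S K.χ cb ξb) x‖ ≤ κ * (N₂ * d ^ 2 + D * d) * i := by
      have e1 := (hJ' cb ξ ξ' hξ hξ').2.2
      have e2 := (hJ' e ξ ξ' hξ hξ').2.1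
      rw [heD] at e2
      have e3 : jet (Cf B.S K.χ c ξ) x + jet (Cf B.S K.χ c' ξ') x
          - (2 : ℝ) • jet (Cf B.S K.χ cb ξb) x
          = (jet (Cf B.S K.χ cb ξ) x + jet (Cf B.S K.χ cb ξ') x
            - (2 : ℝ) • jet (Cf B.S K.χ cb ξb) x)
            + (jet (Cf B.S K.χ e ξ) x - jet (Cf B.S K.χ e ξ') x) := by
        rw [hJc ξ, hJc' ξ']; abel
      rw [e3]
      refine (norm_add_le _ _).trans ?_
      have e4 : κ * Real.sqrt (∑ i, cb i ^ 2) * d ^ 2 * i ≤ κ * N₂ * d ^ 2 * i := by gcongr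
      have e5 : κ * (D / 2) * d * i ≤ κ * D * d * i := by
        gcongr
        linarith
      calc _ ≤ κ * Real.sqrt (∑ i, cb i ^ 2) * d ^ 2 * i + κ * (D / 2) * d * i := add_le_add e1 e2
        _ ≤ κ * N₂ * d ^ 2 * i + κ * D * d * i := add_le_add e4 e5
        _ = _ := by ring
    have b6 : ‖jet (Cf B.S K.χ c ξ) x - jet (Cf B.S K.χ c' ξ') x‖ ≤ κ * (N₂ * d + D) * i := by
      have e1 := (hJ' cb ξ ξ' hξ hξ').2.1
      have e2 := (hJ' e ξ ξ hξ hξ).1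
      have e2' := (hJ' e ξ' ξ' hξ' hξ').1
      rw [heD] at e2 e2'
      have e3 : jet (Cf B.S K.χ c ξ) x - jet (Cf B.S K.χ c' ξ') x
          = (jet (Cf B.S K.χ cb ξ) x - jet (Cf B.S K.χ cb ξ') x)
            + (jet (Cf B.S K.χ e ξ) x + jet (Cf B.S K.χ e ξ') x) := by
        rw [hJc ξ, hJc' ξ']; abel
      rw [e3]
      refine (norm_add_le _ _).trans ?_
      have e4 : κ * Real.sqrt (∑ i, cb i ^ 2) * d * i ≤ κ * N₂ * d * i := by gcongr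
      have e6 := norm_add_le (jet (Cf B.S K.χ e ξ) x) (jet (Cf B.S K.χ e ξ') x)
      calc _ ≤ κ * N₂ * d * i + (κ * (D / 2) * i + κ * (D / 2) * i) :=
            add_le_add (e1.trans e4) (e6.trans (add_le_add e2 e2'))
        _ = _ := by ring
    have b7 : ‖jet (Cf B.S K.χ c ξ) x - jet (Cf B.S K.χ cb ξb) x - jet (Cf B.S K.χ e ξb) x‖
        ≤ κ * (N₂ * d) * i := by
      have e1 := (hJ' c ξ ξb hξ hξbΞ).2.1
      have e3 : jet (Cf B.S K.χ c ξ) x - jet (Cf B.S K.χ cb ξb) x - jet (Cf B.S K.χ e ξb) x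
          = jet (Cf B.S K.χ c ξ) x - jet (Cf B.S K.χ c ξb) x := by
        rw [hJc ξb]; abel
      rw [e3]
      refine e1.trans ?_
      calc κ * Real.sqrt (∑ i, c i ^ 2) * ‖ξ - ξb‖ * i ≤ κ * N₂ * d * i := by gcongr
        _ = _ := by ring
    have b8 : ‖jet (Cf B.S K.χ c' ξ') x - jet (Cf B.S K.χ cb ξb) x + jet (Cf B.S K.χ e ξb) x‖
        ≤ κ * (N₂ * d) * i := by
      have e1 := (hJ' c' ξ' ξb hξ' hξbΞ).2.1
      have e3 : jet (Cf B.S K.χ c' ξ') x - jet (Cf B.S K.χ cb ξb) x + jet (Cf B.S K.χ e ξb) x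
          = jet (Cf B.S K.χ c' ξ') x - jet (Cf B.S K.χ c' ξb) x := by
        rw [hJc' ξb]; abel
      rw [e3]
      refine e1.trans ?_
      calc κ * Real.sqrt (∑ i, c' i ^ 2) * ‖ξ' - ξb‖ * i ≤ κ * N₂ * d * i := by gcongr
        _ = _ := by ring
    -- the wall
    have hs : ∀ ξ₁ : ℂ, SS K.F (x - ξ₁) ≤ 0 := fun ξ₁ => (SS_neg K.wall _).le
    have hexp : ∀ ξ₁ : ℂ, ‖ξ₁‖ ≤ Ξ → exp (SS K.F (x - ξ₁)) ≤ 100 * wgt K.ρ ‖x‖ := fun ξ₁ h₁ =>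
      (hfar K.ρ K.ε K.F K.wall hρb ξ₁ x h₁).2 hx0
    obtain ⟨M, hM⟩ : ∃ M, M = max (SS K.F (x - ξ)) (max (SS K.F (x - ξ')) (SS K.F (x - ξb))) :=
      ⟨_, rfl⟩
    have hM1 : ∃ ξ₁ : ℂ, ‖ξ₁‖ ≤ Ξ ∧ M = SS K.F (x - ξ₁) := by
      rcases max_choice (SS K.F (x - ξ)) (max (SS K.F (x - ξ')) (SS K.F (x - ξb))) with h | h
      · exact ⟨ξ, hξ, by rw [hM, h]⟩
      · rcases max_choice (SS K.F (x - ξ')) (SS K.F (x - ξb)) with h' | h'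
        · exact ⟨ξ', hξ', by rw [hM, h, h']⟩
        · exact ⟨ξb, hξbΞ, by rw [hM, h, h']⟩
    obtain ⟨ξ₁, hξ₁, hM2⟩ := hM1
    have hLT' := hLT K.ρ K.ε K.F K.wall hρc x (by linarith) M ⟨ξ₁, hξ₁, hM2.le⟩
    have hlip := (SS_lip K.wall (x - ξ) (x - ξ')).1
    have hmid := SS_mid K.wall (x - ξ) (x - ξ')
    have e1 : ‖(x - ξ) - (x - ξ')‖ = d := by
      rw [hd, ← norm_neg]; congr 1; ring
    have e2 : ((x - ξ) + (x - ξ')) / 2 = x - ξb := by rw [hξb]; ring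
    rw [e1] at hlip hmid
    rw [e2] at hmid
    have hr1 : (K.ρ ^ 5)⁻¹ ≤ 1 := inv_le_one_of_one_le₀ (one_le_pow₀ hρ1)
    exact hpt (tau δ K.ρ x) (SS K.F (x - ξ)) (SS K.F (x - ξ')) (SS K.F (x - ξb)) M (wgt K.ρ ‖x‖)
      (K.ρ ^ 5)⁻¹ d N₂ D i t (tau_pos hδ hρ0 x) (by rw [hM]; exact le_max_left _ _)
      (by rw [hM]; exact (le_max_left _ _).trans (le_max_right _ _))
      (by rw [hM]; exact (le_max_right _ _).trans (le_max_right _ _))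
      (by rw [hM2]; exact hs _) (by rw [hM2]; exact hexp _ hξ₁) (min_le_left _ _) hLT'
      (by positivity) hr1 hd0 hlip hmid hN hD0 hi01 htp (U x) _ _ _ _ b1 b2 b3 b4 b5 b6 b7 b8
  -- integrate
  have j1 : IntegrableOn (fun x => outD B δ K.ρ x (SS K.F (x - ξ)) (GG K U c ξ x)
        + outD B δ K.ρ x (SS K.F (x - ξ')) (GG K U c' ξ' x)
        - 2 * outD B δ K.ρ x (SS K.F (x - ξb)) (GG K U cb ξb x)) Ω volume :=
    (i1.add i2).sub (i3.const_mul 2)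
  have j2 : IntegrableOn (fun x => (gP B.S (jet (Cf B.S K.χ e ξb) x)
          + qV B.S (SS K.F (x - ξb)) (jet (Cf B.S K.χ e ξb) x).1)
        + K₁ * (d ^ 2 + X / t) * (gsq (U x) + wgt K.ρ ‖x‖ * ‖(U x).1‖ ^ 2)) Ω volume :=
    (m1.integrableOn).add (hnint.integrableOn.const_mul _)
  have j3 : IntegrableOn (fun x => (gP B.S (jet (Cf B.S K.χ e ξb) x)
          + qV B.S (SS K.F (x - ξb)) (jet (Cf B.S K.χ e ξb) x).1)
        + K₁ * (d ^ 2 + X / t) * (gsq (U x) + wgt K.ρ ‖x‖ * ‖(U x).1‖ ^ 2)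
        + (K₁ * (N₂ ^ 2 * d ^ 2 + X * (N₂ ^ 2 / t + t) + D * N₂ * d)
            + K₁ * (K.ρ ^ 5)⁻¹ * D ^ 2) * (if ‖x‖ ≤ L * K.ρ then (1 : ℝ) else 0)) Ω volume :=
    j2.add (a1.integrableOn.const_mul _)
  have hI : outQ K U c ξ + outQ K U c' ξ' - 2 * outQ K U cb ξb
      = ∫ x in Ω, (outD B δ K.ρ x (SS K.F (x - ξ)) (GG K U c ξ x)
        + outD B δ K.ρ x (SS K.F (x - ξ')) (GG K U c' ξ' x)
        - 2 * outD B δ K.ρ x (SS K.F (x - ξb)) (GG K U cb ξb x)) := by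
    have i12 : IntegrableOn (fun x => outD B δ K.ρ x (SS K.F (x - ξ)) (GG K U c ξ x)
        + outD B δ K.ρ x (SS K.F (x - ξ')) (GG K U c' ξ' x)) Ω volume := i1.add i2
    rw [integral_sub i12 (i3.const_mul 2), integral_add i1 i2, integral_const_mul]
    rfl
  have hI2 : ∫ x in Ω, ((gP B.S (jet (Cf B.S K.χ e ξb) x)
          + qV B.S (SS K.F (x - ξb)) (jet (Cf B.S K.χ e ξb) x).1)
        + K₁ * (d ^ 2 + X / t) * (gsq (U x) + wgt K.ρ ‖x‖ * ‖(U x).1‖ ^ 2)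
        + (K₁ * (N₂ ^ 2 * d ^ 2 + X * (N₂ ^ 2 / t + t) + D * N₂ * d)
            + K₁ * (K.ρ ^ 5)⁻¹ * D ^ 2) * (if ‖x‖ ≤ L * K.ρ then (1 : ℝ) else 0))
      = (∫ x in Ω, (gP B.S (jet (Cf B.S K.χ e ξb) x)
          + qV B.S (SS K.F (x - ξb)) (jet (Cf B.S K.χ e ξb) x).1))
        + K₁ * (d ^ 2 + X / t) * NII K.ρ (0.88 * K.ρ) U
        + (K₁ * (N₂ ^ 2 * d ^ 2 + X * (N₂ ^ 2 / t + t) + D * N₂ * d)
            + K₁ * (K.ρ ^ 5)⁻¹ * D ^ 2) * ∫ x in Ω, (if ‖x‖ ≤ L * K.ρ then (1 : ℝ) else 0) := by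
    rw [integral_add j2 (a1.integrableOn.const_mul _),
      integral_add m1.integrableOn (hnint.integrableOn.const_mul _),
      integral_const_mul, integral_const_mul]
    rfl
  rw [hI]
  refine (setIntegral_mono_on j1 j3 hΩm hpoint).trans ?_
  rw [hI2]
  refine p14b_fin K₁ B.c₀ L hK₁ B.hc₀ hL1 hρ1 hρL1 hρL2 hN hD0 hd0 hDN ht hX ?_ hNII ?_
  · refine a2.trans (le_of_eq ?_)
    ring
  · rw [← hesq]
    exact m2

end Pool.MP_ad5d82_an.Wl
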