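import Pool.Agent.Lib.MP_ad5d82_an.h24.B.B4d
import Pool.Agent.Lib.MP_ad5d82_an.h24.PDefs
import Pool.Agent.Lib.MP_ad5d82_an.h24.P.P0
import Pool.Agent.Lib.MP_ad5d82_an.h24.P.P4a

set_option autoImplicit false

namespace Pool.MP_ad5d82_an.Wl

open Real Set MeasureTheory Filter Topology
open scoped ContDiff

variable {ι : Type} [Fintype ι] [DecidableEq ι]

/-! ### P14c the kernels of the functionals `ell` -/
/-- the kernel of `ell` -/
noncomputable def kel (ρ : ℝ) (i : ι × ℕ × Bool) (z : ℂ) : ℝ := om (‖z‖ - ρ) * trig i.2.1 i.2.2 z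

private theorem p14c_om_smooth : ContDiff ℝ ∞ om := by
  unfold om
  exact Real.smoothTransition.contDiff.comp (by fun_prop)

private theorem p14c_om_zero (t : ℝ) (ht : 1 / 2 ≤ t ^ 2) : om t = 0 := by
  unfold om
  exact Real.smoothTransition.zero_of_nonpos (by linarith)

private theorem p14c_om_bound : ∃ D : ℝ, 0 ≤ D ∧ ∀ n ≤ 3, ∀ t, |iteratedDeriv n om t| ≤ D := by
  have h1 : ∀ n : ℕ, ∃ D : ℝ, 0 ≤ D ∧ ∀ t, |iteratedDeriv n om t| ≤ D := by
    intro n
    have hc : Continuous (iteratedDeriv n om) :=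
      p14c_om_smooth.continuous_iteratedDeriv n (by exact_mod_cast le_top)
    obtain ⟨M, hM⟩ := (isCompact_Icc (a := (-1 : ℝ)) (b := 1)).exists_bound_of_continuousOn
      hc.continuousOn
    refine ⟨M, (norm_nonneg _).trans (hM 0 (by simp)), fun t => ?_⟩
    by_cases ht : t ∈ Icc (-1 : ℝ) 1
    · exact hM t ht
    · have h0 : om =ᶠ[𝓝 t] fun _ => 0 := by
        have hopen : IsOpen {s : ℝ | 1 / 2 < s ^ 2} :=
          isOpen_lt continuous_const (continuous_pow 2)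
        have hmem : t ∈ {s : ℝ | 1 / 2 < s ^ 2} := by
          rw [Set.mem_Icc, not_and_or] at ht
          simp only [Set.mem_ofPred_eq]
          rcases ht with h | h <;> push Not at h <;> nlinarith
        filter_upwards [hopen.mem_nhds hmem] with s hs
        exact p14c_om_zero s (le_of_lt hs)
      have h2 : iteratedDeriv n om t = 0 := by
        rw [h0.iteratedDeriv_eq n]
        rcases Nat.eq_zero_or_pos n with hn | hn
        · subst hn
          simp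
        · rw [iteratedDeriv_const]
          simp [hn.ne']
      rw [h2, abs_zero]
      exact (norm_nonneg _).trans (hM 0 (by simp))
  obtain ⟨D0, h00, h0⟩ := h1 0
  obtain ⟨D1, h10, h1'⟩ := h1 1
  obtain ⟨D2, h20, h2⟩ := h1 2
  obtain ⟨D3, h30, h3⟩ := h1 3
  refine ⟨D0 + D1 + D2 + D3, by linarith, fun n hn t => ?_⟩
  interval_cases n
  · linarith [h0 t]
  · linarith [h1' t]
  · linarith [h2 t]
  · linarith [h3 t]

private theorem p14c_kel_eq (ρ : ℝ) (i : ι × ℕ × Bool) :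
    kel ρ i = b4f (fun r => om (r - ρ)) i.2.1 i.2.2 := rfl

private theorem p14c_trig_le (k : ℕ) (b : Bool) (z : ℂ) : |trig k b z| ≤ 1 := by
  have h1 : ‖(z / (‖z‖ : ℂ)) ^ k‖ ≤ 1 := by
    rw [norm_pow, norm_div, Complex.norm_real, norm_norm]
    refine pow_le_one₀ (by positivity) ?_
    exact div_self_le_one _
  unfold trig
  cases b
  · exact (Complex.abs_im_le_norm _).trans h1
  · exact (Complex.abs_re_le_norm _).trans h1

theorem kel_props (S : Sys ι) : ∃ C : ℝ, 0 < C ∧ ∀ ρ : ℝ, 100 ≤ ρ → ∀ i ∈ modes S,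
    ContDiff ℝ ∞ (kel ρ i) ∧ (∀ z, 3 / 4 ≤ |‖z‖ - ρ| → kel ρ i z = 0 ∧ fderiv ℝ (kel ρ i) z = 0) ∧
    (∀ z, |kel ρ i z| ≤ 1 ∧ ‖fderiv ℝ (kel ρ i) z‖ ≤ C ∧ ‖fderiv ℝ (fderiv ℝ (kel ρ i)) z‖ ≤ C) := by
  obtain ⟨D, hD0, hD⟩ := p14c_om_bound
  have hb : ∀ i : ι × ℕ × Bool, ∃ M : ℝ, 0 ≤ M ∧ ∀ (a : ℝ → ℝ) (C : ℝ), ContDiff ℝ ∞ a →
    (∀ r, r ≤ 2 → a r = 0) → (∀ n ≤ 3, ∀ r, |iteratedDeriv n a r| ≤ C) →
    ∀ n ≤ 3, ∀ z, ‖iteratedFDeriv ℝ n (b4f a i.2.1 i.2.2) z‖ ≤ M * C := fun i =>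
    b4_bound i.2.1 i.2.2
  choose M hM hMb using hb
  refine ⟨1 + ∑ i ∈ modes S, M i * D, ?_, fun ρ hρ i hi => ?_⟩
  · have := Finset.sum_nonneg (s := modes S) fun i _ => mul_nonneg (hM i) hD0
    linarith
  have hle : M i * D ≤ 1 + ∑ i ∈ modes S, M i * D := by
    have := Finset.single_le_sum (f := fun i => M i * D) (fun i _ => mul_nonneg (hM i) hD0) hi
    linarith
  have hsm : ContDiff ℝ ∞ (fun r => om (r - ρ)) :=
    p14c_om_smooth.comp (by fun_prop)
  have h02 : ∀ r, r ≤ 2 → om (r - ρ) = 0 := fun r hr => p14c_om_zero _ (by nlinarith)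
  have hder : ∀ n ≤ 3, ∀ r, |iteratedDeriv n (fun r => om (r - ρ)) r| ≤ D := by
    intro n hn r
    rw [iteratedDeriv_comp_sub_const]
    exact hD n hn _
  have hbd := hMb i (fun r => om (r - ρ)) D hsm h02 hder
  rw [← p14c_kel_eq ρ i] at hbd
  have hks : ContDiff ℝ ∞ (kel ρ i) := by
    rw [p14c_kel_eq]
    exact b4_smooth _ hsm 2 (by norm_num) h02 _ _
  have hzero : ∀ z, 3 / 4 ≤ |‖z‖ - ρ| → kel ρ i =ᶠ[𝓝 z] fun _ => 0 := by
    intro z hz
    have hopen : IsOpen {w : ℂ | 1 / 2 < (‖w‖ - ρ) ^ 2} :=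
      isOpen_lt continuous_const (by fun_prop)
    have hmem : z ∈ {w : ℂ | 1 / 2 < (‖w‖ - ρ) ^ 2} := by
      simp only [Set.mem_ofPred_eq]
      rw [← sq_abs]
      nlinarith
    filter_upwards [hopen.mem_nhds hmem] with w hw
    unfold kel
    rw [p14c_om_zero _ (le_of_lt hw), zero_mul]
  refine ⟨hks, fun z hz => ⟨(hzero z hz).eq_of_nhds, ?_⟩, fun z => ⟨?_, ?_, ?_⟩⟩
  · rw [(hzero z hz).fderiv_eq]
    simp
  · unfold kel
    rw [abs_mul]
    have h1 : |om (‖z‖ - ρ)| ≤ 1 := by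
      unfold om
      rw [abs_of_nonneg (Real.smoothTransition.nonneg _)]
      exact Real.smoothTransition.le_one _
    calc |om (‖z‖ - ρ)| * |trig i.2.1 i.2.2 z| ≤ 1 * 1 :=
          mul_le_mul h1 (p14c_trig_le _ _ _) (abs_nonneg _) zero_le_one
      _ = 1 := one_mul 1
  · have h1 := hbd 1 (by norm_num) z
    rw [norm_iteratedFDeriv_one] at h1
    exact h1.trans hle
  · have h1 := hbd 2 (by norm_num) z
    have h2 : ‖iteratedFDeriv ℝ 1 (fderiv ℝ (kel ρ i)) z‖ = ‖iteratedFDeriv ℝ 2 (kel ρ i) z‖ :=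
      norm_iteratedFDeriv_fderiv
    rw [norm_iteratedFDeriv_one] at h2
    rw [h2]
    exact h1.trans hle

/-- second order Taylor bound -/
theorem p14c_taylor (f : ℂ → ℝ) (hf : ContDiff ℝ ∞ f) (C : ℝ)
    (hC : ∀ z, ‖fderiv ℝ (fderiv ℝ f) z‖ ≤ C) (y h : ℂ) :
    |f (y + h) - f y - fderiv ℝ f y h| ≤ C * ‖h‖ ^ 2 := by
  have hC0 : 0 ≤ C := le_trans (norm_nonneg (fderiv ℝ (fderiv ℝ f) y)) (hC y)
  have hd : Differentiable ℝ f := hf.differentiable (by simp)
  have hd2 : Differentiable ℝ (fderiv ℝ f) :=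
    (contDiff_infty_iff_fderiv.1 hf).2.differentiable (by simp)
  have h1 : ∀ z ∈ Metric.closedBall y ‖h‖, ‖fderiv ℝ f z - fderiv ℝ f y‖ ≤ C * ‖h‖ := by
    intro z hz
    have h2 := Convex.norm_image_sub_le_of_norm_fderiv_le (𝕜 := ℝ) (f := fderiv ℝ f) (C := C)
      (s := univ) (x := y) (y := z) (fun w _ => hd2 w) (fun w _ => hC w) convex_univ
      (mem_univ _) (mem_univ _)
    refine h2.trans (mul_le_mul_of_nonneg_left ?_ hC0)
    rw [← dist_eq_norm]
    exact hz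
  have h3 := Convex.norm_image_sub_le_of_norm_hasFDerivWithin_le' (𝕜 := ℝ) (f := f)
    (f' := fderiv ℝ f) (φ := fderiv ℝ f y) (C := C * ‖h‖) (s := Metric.closedBall y ‖h‖) (x := y)
    (y := y + h) (fun w _ => (hd w).hasFDerivAt.hasFDerivWithinAt) h1
    (convex_closedBall _ _) (by simp) (by simp)
  have e1 : y + h - y = h := by ring
  rw [e1] at h3
  calc |f (y + h) - f y - fderiv ℝ f y h| ≤ C * ‖h‖ * ‖h‖ := h3
    _ = C * ‖h‖ ^ 2 := by ring

/-- integral of a kernel supported in an annulus -/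
theorem p14c_annulus {U : Fld ι} (hU : IsSob U) (ρ : ℝ) (hρ : 100 ≤ ρ) (κ : ℂ → ℝ)
    (D : ℝ) (hD : 0 ≤ D) (hκ : ∀ x, |κ x| ≤ D)
    (hsupp : ∀ x : ℂ, ¬ (0.9 * ρ ≤ ‖x‖ ∧ ‖x‖ < 1.1 * ρ) → κ x = 0) (j : ι) :
    |∫ x, κ x * (U x).1 j| ≤ 2 * D * ρ * Real.sqrt (NII ρ (0.9 * ρ) U) := by
  set A : Set ℂ := {x : ℂ | 0.9 * ρ ≤ ‖x‖ ∧ ‖x‖ < 1.1 * ρ} with hA
  have hAm : MeasurableSet A :=
    (measurableSet_le measurable_const measurable_norm).inter
      (measurableSet_lt measurable_norm measurable_const)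
  have hρ0 : 0 < ρ := by linarith
  -- area
  have hsub : A ⊆ Metric.ball (0 : ℂ) (1.1 * ρ) := fun x hx => by
    simpa using hx.2
  have hvolA : volume A < ⊤ := (measure_mono hsub).trans_lt MeasureTheory.measure_ball_lt_top
  have harea : (volume A).toReal ≤ π * (0.4 * ρ ^ 2) := by
    have h1 : volume A = volume (Metric.ball (0 : ℂ) (1.1 * ρ)) -
        volume (Metric.ball (0 : ℂ) (0.9 * ρ)) := by
      rw [← measure_sdiff (Metric.ball_subset_ball (by linarith))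
        measurableSet_ball.nullMeasurableSet MeasureTheory.measure_ball_lt_top.ne]
      congr 1
      ext x
      simp only [hA, Set.mem_ofPred_eq, Set.mem_sdiff, mem_ball_iff_norm, sub_zero, not_lt]
      tauto
    rw [h1, Complex.volume_ball, Complex.volume_ball,
      ENNReal.toReal_sub_of_le]
    · simp only [ENNReal.toReal_mul, ENNReal.toReal_pow]
      rw [ENNReal.toReal_ofReal (by linarith), ENNReal.toReal_ofReal (by linarith)]
      simp only [ENNReal.coe_toReal, NNReal.coe_real_pi]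
      nlinarith [pi_pos]
    · gcongr
      linarith
    · exact ENNReal.mul_ne_top (by simp) (by simp)
  -- integrability
  have hi1 : IntegrableOn (fun x => ‖(U x).1‖) A volume :=
    (hU.integrableOn (1.1 * ρ)).mono_set hsub
  have hi2 : IntegrableOn (fun x => ‖(U x).1‖ ^ 2) A volume :=
    (hU.integrableOn_sq (1.1 * ρ)).mono_set hsub
  have hconst : ∀ c : ℝ, IntegrableOn (fun _ : ℂ => c) A volume := fun c =>
    integrableOn_const hvolA.ne
  set b : ℝ := ∫ x in A, ‖(U x).1‖ ^ 2 with hb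
  have hb0 : 0 ≤ b := setIntegral_nonneg hAm fun x _ => by positivity
  have hbN : b ≤ 2 * NII ρ (0.9 * ρ) U := by
    have hi3 : IntegrableOn (fun x => gsq (U x) + wgt ρ ‖x‖ * ‖(U x).1‖ ^ 2)
        {x : ℂ | 0.9 * ρ ≤ ‖x‖} volume :=
      (hU.integrable_gsq.add (hU.integrable_wgt (by linarith))).integrableOn
    have h1 : ∫ x in A, (gsq (U x) + wgt ρ ‖x‖ * ‖(U x).1‖ ^ 2) ≤ NII ρ (0.9 * ρ) U := by
      unfold NII
      refine setIntegral_mono_set hi3 ?_ (Filter.Eventually.of_forall fun x hx => hx.1)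
      refine Filter.Eventually.of_forall fun x => ?_
      have : 0 ≤ wgt ρ ‖x‖ := by unfold wgt; positivity
      unfold gsq
      simp only [Pi.zero_apply]
      positivity
    have h2 : b ≤ 2 * ∫ x in A, (gsq (U x) + wgt ρ ‖x‖ * ‖(U x).1‖ ^ 2) := by
      rw [hb, ← integral_const_mul]
      refine setIntegral_mono_on hi2 ((hi3.mono_set fun x hx => hx.1).const_mul 2) hAm
        fun x hx => ?_
      have hx1 : 0 < ‖x‖ := by have := hx.1; linarith
      have h3 : 1 / 2 ≤ wgt ρ ‖x‖ := by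
        unfold wgt
        refine le_min (by norm_num) ?_
        have h4 : 1 / 1.1 ≤ ρ / ‖x‖ := by
          rw [div_le_div_iff₀ (by norm_num) hx1]
          have := hx.2
          linarith
        calc (1 / 2 : ℝ) ≤ (1 / 1.1) ^ 4 := by norm_num
          _ ≤ (ρ / ‖x‖) ^ 4 := pow_le_pow_left₀ (by norm_num) h4 4
      have h5 : 0 ≤ gsq (U x) := by unfold gsq; positivity
      have h6 : 0 ≤ ‖(U x).1‖ ^ 2 := by positivity
      nlinarith
    linarith
  set N := NII ρ (0.9 * ρ) U with hN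
  have hN0 : 0 ≤ N := NII_nonneg _ _ _
  -- Cauchy-Schwarz
  have hCS : ∫ x in A, ‖(U x).1‖ ≤ 2 * ρ * Real.sqrt N := by
    have hkey : ∀ t : ℝ, 0 < t → ∫ x in A, ‖(U x).1‖ ≤ (t * (π * (0.4 * ρ ^ 2)) + b / t) / 2 := by
      intro t ht
      have h1 : ∫ x in A, ‖(U x).1‖ ≤ ∫ x in A, (t / 2 + ‖(U x).1‖ ^ 2 / (2 * t)) := by
        refine setIntegral_mono_on hi1 ?_ hAm fun x _ => ?_
        · exact (hconst _).add (hi2.div_const _)
        · have h2 : 0 ≤ (t - ‖(U x).1‖) ^ 2 := sq_nonneg _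
          have h3 : t / 2 + ‖(U x).1‖ ^ 2 / (2 * t) = (t ^ 2 + ‖(U x).1‖ ^ 2) / (2 * t) := by
            field_simp
          rw [h3, le_div_iff₀ (by positivity)]
          nlinarith
      refine h1.trans ?_
      have e6 : ∫ x in A, ‖(U x).1‖ ^ 2 / (2 * t) = b / (2 * t) := integral_div _ _
      rw [integral_add (hconst _) (hi2.div_const _), e6, setIntegral_const, smul_eq_mul]
      have h4 : (volume.real A) * (t / 2) ≤ π * (0.4 * ρ ^ 2) * (t / 2) :=
        mul_le_mul_of_nonneg_right harea (by positivity)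
      have h5 : b / (2 * t) = b / t / 2 := by field_simp
      rw [h5]
      linarith
    have hb' : b ≤ 2 * N := hbN
    rcases hN0.eq_or_lt with h0 | h0
    · -- N = 0
      have hb00 : b = 0 := by rw [← h0] at hb'; linarith
      rw [← h0, Real.sqrt_zero, mul_zero]
      by_contra hcon
      push Not at hcon
      set X := ∫ x in A, ‖(U x).1‖ with hX
      have h1 := hkey (X / (π * (0.4 * ρ ^ 2))) (by
        have : 0 < π * (0.4 * ρ ^ 2) := by have := pi_pos; positivity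
        positivity)
      rw [hb00, zero_div, add_zero] at h1
      have h2 : X / (π * (0.4 * ρ ^ 2)) * (π * (0.4 * ρ ^ 2)) = X := by
        have : π * (0.4 * ρ ^ 2) ≠ 0 := by have := pi_pos; positivity
        field_simp
      rw [h2] at h1
      linarith
    · have hs : 0 < Real.sqrt N := Real.sqrt_pos.2 h0
      have h1 := hkey (Real.sqrt N / ρ) (by positivity)
      refine h1.trans ?_
      have h2 : b / (Real.sqrt N / ρ) ≤ 2 * ρ * Real.sqrt N := by
        rw [div_le_iff₀ (by positivity)]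
        have h3 : 2 * ρ * Real.sqrt N * (Real.sqrt N / ρ) = 2 * (Real.sqrt N * Real.sqrt N) := by
          field_simp
        rw [h3, Real.mul_self_sqrt hN0]
        exact hb'
      have h4 : Real.sqrt N / ρ * (π * (0.4 * ρ ^ 2)) = π * 0.4 * (ρ * Real.sqrt N) := by
        field_simp
      rw [h4]
      have h5 : π * 0.4 ≤ 2 := by linarith [pi_lt_four]
      have h6 : π * 0.4 * (ρ * Real.sqrt N) ≤ 2 * (ρ * Real.sqrt N) :=
        mul_le_mul_of_nonneg_right h5 (by positivity)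
      linarith
  -- conclusion
  have h1 : ∫ x, κ x * (U x).1 j = ∫ x in A, κ x * (U x).1 j := by
    refine (setIntegral_eq_integral_of_forall_compl_eq_zero fun x hx => ?_).symm
    rw [hsupp x hx, zero_mul]
  rw [h1]
  calc |∫ x in A, κ x * (U x).1 j| ≤ ∫ x in A, D * ‖(U x).1‖ := by
        rw [← Real.norm_eq_abs]
        refine norm_integral_le_of_norm_le (hi1.const_mul D)
          (Filter.Eventually.of_forall fun x => ?_)
        rw [norm_mul]
        refine mul_le_mul (hκ x) ?_ (norm_nonneg _) hD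
        exact PiLp.norm_apply_le _ _
    _ = D * ∫ x in A, ‖(U x).1‖ := integral_const_mul _ _
    _ ≤ D * (2 * ρ * Real.sqrt N) := mul_le_mul_of_nonneg_left hCS hD
    _ = _ := by ring

theorem ell_bound_NII (S : Sys ι) : ∃ C : ℝ, 0 < C ∧ ∀ ρ : ℝ, 100 ≤ ρ → ∀ i ∈ modes S, ∀ ξ ξ' : ℂ,
    ‖ξ‖ ≤ 0.01 * ρ → ‖ξ'‖ ≤ 0.01 * ρ → ∀ U : Fld ι, IsSob U →
    |ell ρ i ξ U| ≤ C * ρ * Real.sqrt (NII ρ (0.9 * ρ) U) ∧
    |ell ρ i ξ U - ell ρ i ξ' U| ≤ C * ρ * Real.sqrt (NII ρ (0.9 * ρ) U) * ‖ξ - ξ'‖ ∧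
    |ell ρ i ξ U + ell ρ i ξ' U - 2 * ell ρ i ((ξ + ξ') / 2) U|
      ≤ C * ρ * Real.sqrt (NII ρ (0.9 * ρ) U) * ‖ξ - ξ'‖ ^ 2 := by
  obtain ⟨C, hC, hk⟩ := kel_props S
  refine ⟨2 * C + 2, by positivity, fun ρ hρ i hi ξ ξ' hξ hξ' U hU => ?_⟩
  obtain ⟨hsm, hz, hb⟩ := hk ρ hρ i hi
  have hρ0 : 0 < ρ := by linarith
  set N := Real.sqrt (NII ρ (0.9 * ρ) U) with hN
  have hN0 : 0 ≤ N := Real.sqrt_nonneg _
  have hell : ∀ η : ℂ, ell ρ i η U = ∫ x, kel ρ i (x - η) * (U x).1 i.1 := fun η => rfl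
  have hint : ∀ η : ℂ, Integrable (fun x => kel ρ i (x - η) * (U x).1 i.1) := fun η =>
    ell_integrable ρ i η hU
  have hann : ∀ η x : ℂ, ‖η‖ ≤ 0.01 * ρ → ¬ (0.9 * ρ ≤ ‖x‖ ∧ ‖x‖ < 1.1 * ρ) →
      kel ρ i (x - η) = 0 := by
    intro η x hη hx
    refine (hz (x - η) ?_).1
    by_contra hcon
    push Not at hcon
    rw [abs_lt] at hcon
    apply hx
    have h1 : ‖x‖ ≤ ‖x - η‖ + ‖η‖ := by
      have := norm_add_le (x - η) η
      rwa [sub_add_cancel] at this
    have h2 : ‖x - η‖ ≤ ‖x‖ + ‖η‖ := norm_sub_le _ _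
    constructor <;> linarith [hcon.1, hcon.2]
  have hmid : ‖(ξ + ξ') / 2‖ ≤ 0.01 * ρ := by
    rw [norm_div]
    have := norm_add_le ξ ξ'
    simp only [Complex.norm_ofNat]
    linarith
  refine ⟨?_, ?_, ?_⟩
  · rw [hell]
    have h1 := p14c_annulus hU ρ hρ (fun x => kel ρ i (x - ξ)) 1 zero_le_one
      (fun x => (hb _).1) (fun x hx => hann ξ x hξ hx) i.1
    refine h1.trans ?_
    have : 0 ≤ ρ * N := by positivity
    nlinarith
  · rw [hell, hell, ← integral_sub (hint ξ) (hint ξ')]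
    have h1 := p14c_annulus hU ρ hρ (fun x => kel ρ i (x - ξ) - kel ρ i (x - ξ'))
      (C * ‖ξ - ξ'‖) (by positivity) (fun x => ?_)
      (fun x hx => by rw [hann ξ x hξ hx, hann ξ' x hξ' hx, sub_zero]) i.1
    · have h2 : ∀ x, kel ρ i (x - ξ) * (U x).1 i.1 - kel ρ i (x - ξ') * (U x).1 i.1 =
          (kel ρ i (x - ξ) - kel ρ i (x - ξ')) * (U x).1 i.1 := fun x => by ring
      simp_rw [h2]
      refine h1.trans ?_
      rw [← hN]
      have : 0 ≤ ρ * N * ‖ξ - ξ'‖ := by positivity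
      nlinarith
    · have h2 := Convex.norm_image_sub_le_of_norm_fderiv_le (𝕜 := ℝ) (f := kel ρ i) (C := C)
        (s := univ) (x := x - ξ') (y := x - ξ)
        (fun w _ => (hsm.differentiable (by simp)) w) (fun w _ => (hb w).2.1) convex_univ
        (mem_univ _) (mem_univ _)
      have e1 : x - ξ - (x - ξ') = -(ξ - ξ') := by ring
      rw [e1, norm_neg] at h2
      exact h2
  · have hadd : Integrable (fun x => kel ρ i (x - ξ) * (U x).1 i.1 +
        kel ρ i (x - ξ') * (U x).1 i.1) := (hint ξ).add (hint ξ')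
    rw [hell, hell, hell, ← integral_const_mul, ← integral_add (hint ξ) (hint ξ'),
      ← integral_sub hadd ((hint _).const_mul 2)]
    have h1 := p14c_annulus hU ρ hρ (fun x => kel ρ i (x - ξ) + kel ρ i (x - ξ') -
      2 * kel ρ i (x - (ξ + ξ') / 2)) (C * ‖ξ - ξ'‖ ^ 2) (by positivity) (fun x => ?_)
      (fun x hx => by
        rw [hann ξ x hξ hx, hann ξ' x hξ' hx, hann _ x hmid hx]
        ring) i.1
    · have h2 : ∀ x, kel ρ i (x - ξ) * (U x).1 i.1 + kel ρ i (x - ξ') * (U x).1 i.1 -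
          2 * (kel ρ i (x - (ξ + ξ') / 2) * (U x).1 i.1) =
          (kel ρ i (x - ξ) + kel ρ i (x - ξ') - 2 * kel ρ i (x - (ξ + ξ') / 2)) *
            (U x).1 i.1 := fun x => by ring
      simp_rw [h2]
      refine h1.trans ?_
      rw [← hN]
      have : 0 ≤ ρ * N * ‖ξ - ξ'‖ ^ 2 := by positivity
      nlinarith
    · set y := x - (ξ + ξ') / 2 with hy
      set h := (ξ' - ξ) / 2 with hh
      have e1 : x - ξ = y + h := by rw [hy, hh]; ring
      have e2 : x - ξ' = y + -h := by rw [hy, hh]; ring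
      have h3 := p14c_taylor (kel ρ i) hsm C (fun z => (hb z).2.2) y h
      have h4 := p14c_taylor (kel ρ i) hsm C (fun z => (hb z).2.2) y (-h)
      rw [map_neg, norm_neg] at h4
      rw [e1, e2]
      have h5 : ‖h‖ = ‖ξ - ξ'‖ / 2 := by
        rw [hh, norm_div, norm_sub_rev]
        simp
      rw [abs_le] at h3 h4 ⊢
      rw [h5] at h3 h4
      have h6 : 0 ≤ C * ‖ξ - ξ'‖ ^ 2 := by positivity
      constructor <;> nlinarith [h3.1, h3.2, h4.1, h4.2]

end Pool.MP_ad5d82_an.Wl
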