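import Pool.Agent.Lib.MP_ad5d82_an.h24.PDefs
import Pool.Agent.Lib.MP_ad5d82_an.h24.P.P0
import Pool.Agent.Lib.MP_ad5d82_an.h24.P.P1
import Pool.Agent.Lib.MP_ad5d82_an.h24.P.P3
import Pool.Agent.Lib.MP_ad5d82_an.h24.P.P4
import Pool.Agent.Lib.MP_ad5d82_an.h24.P.P14a
import Pool.Agent.Lib.MP_ad5d82_an.h24.P.P14b
import Pool.Agent.Lib.MP_ad5d82_an.h24.P.P14c

set_option autoImplicit false

namespace Pool.MP_ad5d82_an.Wl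

open Real Set MeasureTheory Filter Topology
open scoped ContDiff

variable {ι : Type} [Fintype ι] [DecidableEq ι]

variable {B : Base ι} {δ R₀ Ξ : ℝ}


/-! ### P14 second differences in `(c, ξ)` -/

theorem second_diff (B : Base ι) : ∃ δ₁ : ℝ, 0 < δ₁ ∧ δ₁ ≤ 1 ∧ ∃ C : ℝ, 0 < C ∧ ∃ m₁ : ℝ, 0 < m₁ ∧
    ∃ N : ℕ, ∀ δ R₀ Ξ : ℝ, 0 < δ → δ ≤ δ₁ → 1 ≤ R₀ → 0 ≤ Ξ → ∃ ρ₀ : ℝ, ∀ K : Cfg B δ R₀ Ξ, ρ₀ ≤ K.ρ →
    ∀ U : Fld ι, IsSob U → ∀ (c c' : Cc B.S) (ξ ξ' : ℂ), ‖ξ‖ ≤ Ξ → ‖ξ'‖ ≤ Ξ →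
    ∀ A D N₂ : ℝ,
    (∫ x in {x : ℂ | ‖x‖ < R₀}, (aa B.S (v0 B x + (U x).1) + 2 * bb B.S (v0 B x + (U x).1))) ≤ A →
    (∫ x in {x : ℂ | R₀ ≤ ‖x‖ ∧ ‖x‖ < 0.88 * K.ρ}, exp (1.8 * ‖x‖) * ‖(U x).1‖ ^ 2) ≤ A →
    NII K.ρ (0.88 * K.ρ) U ≤ N₂ ^ 2 → 0 ≤ N₂ → Real.sqrt (∑ i, c i ^ 2) ≤ N₂ →
    Real.sqrt (∑ i, c' i ^ 2) ≤ N₂ → D = Real.sqrt (∑ i, (c i - c' i) ^ 2) →
    Phi K U c ξ + Phi K U c' ξ' - 2 * Phi K U ((1 / 2 : ℝ) • (c + c')) ((ξ + ξ') / 2)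
      ≤ -(1 / 8 * B.c₀ * D ^ 2) - m₁ * K.ε * ‖ξ - ξ'‖ ^ 2
        + C * A * K.ε ^ 2 * exp (2 * (R₀ + Ξ) + 0.18 * K.ρ) * ‖ξ - ξ'‖ ^ 2
        + K.ρ ^ N * (N₂ ^ 2 * (‖ξ - ξ'‖ ^ 2 + ‖ξ - ξ'‖ ^ 4) + N₂ * D * (‖ξ - ξ'‖ + ‖ξ - ξ'‖ ^ 2)) := by
  obtain ⟨δ₁, hδ₁, hδ₁', C, hC, hinner⟩ := inner_second B
  obtain ⟨N', hout⟩ := outer_second B
  obtain ⟨C', hC', hell⟩ := ell_bound_NII B.S
  have hmpos : 0 < ∑ n, B.S.m (B.cp n) := by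
    have : Nonempty (Fin B.nv) := ⟨⟨0, B.hnv⟩⟩
    exact Finset.sum_pos (fun n _ => B.S.m_pos _) Finset.univ_nonempty
  refine ⟨δ₁, hδ₁, hδ₁', C, hC, 0.4 * π * ∑ n, B.S.m (B.cp n), by positivity, N' + 5, ?_⟩
  intro δ R₀ Ξ hδ hδ1 hR hΞ
  obtain ⟨ρ1, hρ1⟩ := hinner δ R₀ Ξ hδ hδ1 hR hΞ
  obtain ⟨ρ2, hρ2⟩ := hout δ R₀ Ξ hδ (hδ1.trans hδ₁') hR hΞ
  obtain ⟨ρ3, hρ3⟩ := Phi_split2 B δ R₀ Ξ hδ (hδ1.trans hδ₁') hR hΞ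
  refine ⟨max (max ρ1 (max ρ2 ρ3)) (max (100 * Ξ + 2 * ∑ n, ‖B.p n‖)
    (1 + ((modes B.S).card : ℝ) * (3 * C' ^ 2))), ?_⟩
  intro K hK U hU c c' ξ ξ' hξ hξ' A D N₂ hA1 hA2 hN hN0 hc hc' hD
  have hK1 : ρ1 ≤ K.ρ := le_trans (le_trans (le_max_left _ _) (le_max_left _ _)) hK
  have hK2 : ρ2 ≤ K.ρ :=
    le_trans (le_trans ((le_max_left _ _).trans (le_max_right _ _)) (le_max_left _ _)) hK
  have hK3 : ρ3 ≤ K.ρ :=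
    le_trans (le_trans ((le_max_right _ _).trans (le_max_right _ _)) (le_max_left _ _)) hK
  have hK4 : 100 * Ξ + 2 * ∑ n, ‖B.p n‖ ≤ K.ρ :=
    le_trans (le_trans (le_max_left _ _) (le_max_right _ _)) hK
  have hK5 : 1 + ((modes B.S).card : ℝ) * (3 * C' ^ 2) ≤ K.ρ :=
    le_trans (le_trans (le_max_right _ _) (le_max_right _ _)) hK
  have hρ100 : 100 ≤ K.ρ := K.wall.hρ
  have hε : 0 < K.ε := K.wall.hε
  have hP0 : 0 ≤ ∑ n, ‖B.p n‖ := Finset.sum_nonneg fun _ _ => norm_nonneg _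
  have hξm : ‖(ξ + ξ') / 2‖ ≤ Ξ := by
    rw [norm_div]
    have : ‖(2:ℂ)‖ = 2 := by simp
    rw [this]
    have := norm_add_le ξ ξ'
    linarith
  set d := ‖ξ - ξ'‖ with hd
  have hd0 : 0 ≤ d := norm_nonneg _
  have e1 := hρ3 K hK3 U hU c ξ hξ
  have e2 := hρ3 K hK3 U hU c' ξ' hξ'
  have e3 := hρ3 K hK3 U hU ((1 / 2 : ℝ) • (c + c')) ((ξ + ξ') / 2) hξm
  have h1 := hρ1 K hK1 U hU ξ ξ' hξ hξ' A hA1 hA2
  have h2 := hρ2 K hK2 U hU c c' ξ ξ' hξ hξ' D N₂ hN hN0 hc hc' hD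
  rw [← hd] at h1 h2
  -- the vortices
  have h4 : (∑ n, B.S.m (B.cp n) * SS K.F (B.p n - ξ)) + (∑ n, B.S.m (B.cp n) * SS K.F (B.p n - ξ'))
      - 2 * (∑ n, B.S.m (B.cp n) * SS K.F (B.p n - (ξ + ξ') / 2))
      ≤ -(0.1 * K.ε * d ^ 2 * ∑ n, B.S.m (B.cp n)) := by
    have h0 : (∑ n, B.S.m (B.cp n) * SS K.F (B.p n - ξ)) + (∑ n, B.S.m (B.cp n) * SS K.F (B.p n - ξ'))
      - 2 * (∑ n, B.S.m (B.cp n) * SS K.F (B.p n - (ξ + ξ') / 2))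
      = ∑ n, B.S.m (B.cp n) * (SS K.F (B.p n - ξ) + SS K.F (B.p n - ξ')
        - 2 * SS K.F (B.p n - (ξ + ξ') / 2)) := by
      rw [← Finset.sum_add_distrib, Finset.mul_sum, ← Finset.sum_sub_distrib]
      exact Finset.sum_congr rfl fun n _ => by ring
    have h0' : -(0.1 * K.ε * d ^ 2 * ∑ n, B.S.m (B.cp n))
        = ∑ n, B.S.m (B.cp n) * (-(0.1 * K.ε * d ^ 2)) := by
      rw [← Finset.sum_mul]
      ring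
    rw [h0, h0']
    refine Finset.sum_le_sum fun n _ => ?_
    have hpn : ‖B.p n‖ ≤ ∑ n, ‖B.p n‖ :=
      Finset.single_le_sum (f := fun n => ‖B.p n‖) (fun _ _ => norm_nonneg _) (Finset.mem_univ n)
    have hz1 : ‖B.p n - ξ‖ ≤ K.ρ := by
      refine (norm_sub_le _ _).trans ?_
      linarith
    have hz2 : ‖B.p n - ξ'‖ ≤ K.ρ := by
      refine (norm_sub_le _ _).trans ?_
      linarith
    have hcc := SS_concave K.wall _ _ hz1 hz2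
    have hmid : (B.p n - ξ + (B.p n - ξ')) / 2 = B.p n - (ξ + ξ') / 2 := by ring
    have hdd : ‖B.p n - ξ - (B.p n - ξ')‖ = d := by
      rw [hd, ← norm_neg]
      congr 1
      ring
    rw [hmid, hdd] at hcc
    exact mul_le_mul_of_nonneg_left hcc (B.S.m_pos _).le
  -- penalty
  have hNII : NII K.ρ (0.9 * K.ρ) U ≤ N₂ ^ 2 :=
    (NII_mono hU (by linarith) (by linarith)).trans hN
  have h5 : (∑ i ∈ modes B.S, ell K.ρ i ξ U ^ 2) + (∑ i ∈ modes B.S, ell K.ρ i ξ' U ^ 2)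
      - 2 * (∑ i ∈ modes B.S, ell K.ρ i ((ξ + ξ') / 2) U ^ 2)
      ≤ ((modes B.S).card : ℝ) * (3 * C' ^ 2 * K.ρ ^ 2 * N₂ ^ 2 * d ^ 2) := by
    have h0 : (∑ i ∈ modes B.S, ell K.ρ i ξ U ^ 2) + (∑ i ∈ modes B.S, ell K.ρ i ξ' U ^ 2)
      - 2 * (∑ i ∈ modes B.S, ell K.ρ i ((ξ + ξ') / 2) U ^ 2)
      = ∑ i ∈ modes B.S, (ell K.ρ i ξ U ^ 2 + ell K.ρ i ξ' U ^ 2
        - 2 * ell K.ρ i ((ξ + ξ') / 2) U ^ 2) := by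
      rw [← Finset.sum_add_distrib, Finset.mul_sum, ← Finset.sum_sub_distrib]
    rw [h0, ← nsmul_eq_mul]
    refine Finset.sum_le_card_nsmul _ _ _ fun i hi => ?_
    have hs1 : ‖ξ‖ ≤ 0.01 * K.ρ := by linarith
    have hs2 : ‖ξ'‖ ≤ 0.01 * K.ρ := by linarith
    have hs3 : ‖(ξ + ξ') / 2‖ ≤ 0.01 * K.ρ := by linarith
    have hb3 := (hell K.ρ hρ100 i hi _ _ hs3 hs3 U hU).1
    have hb1 := (hell K.ρ hρ100 i hi _ _ hs1 hs3 U hU).2.1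
    have hb2 := (hell K.ρ hρ100 i hi _ _ hs2 hs3 U hU).2.1
    have hb4 := (hell K.ρ hρ100 i hi _ _ hs1 hs2 U hU).2.2
    have hd1 : ‖ξ - (ξ + ξ') / 2‖ = d / 2 := by
      have : ξ - (ξ + ξ') / 2 = (ξ - ξ') / 2 := by ring
      rw [this, norm_div, hd]
      simp
    have hd2 : ‖ξ' - (ξ + ξ') / 2‖ = d / 2 := by
      have : ξ' - (ξ + ξ') / 2 = -((ξ - ξ') / 2) := by ring
      rw [this, norm_neg, norm_div, hd]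
      simp
    rw [hd1] at hb1
    rw [hd2] at hb2
    rw [← hd] at hb4
    have hn0 := NII_nonneg K.ρ (0.9 * K.ρ) U
    set q := C' * K.ρ * Real.sqrt (NII K.ρ (0.9 * K.ρ) U) with hq
    have hq0 : 0 ≤ q := by positivity
    have hq2 : q ^ 2 ≤ C' ^ 2 * K.ρ ^ 2 * N₂ ^ 2 := by
      rw [hq, mul_pow, mul_pow, Real.sq_sqrt hn0]
      exact mul_le_mul_of_nonneg_left hNII (by positivity)
    set a := ell K.ρ i ξ U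
    set b := ell K.ρ i ξ' U
    set m := ell K.ρ i ((ξ + ξ') / 2) U
    have k1 : (a - m) ^ 2 ≤ (q * (d / 2)) ^ 2 := by
      rw [← sq_abs (a - m)]
      exact pow_le_pow_left₀ (abs_nonneg _) hb1 2
    have k2 : (b - m) ^ 2 ≤ (q * (d / 2)) ^ 2 := by
      rw [← sq_abs (b - m)]
      exact pow_le_pow_left₀ (abs_nonneg _) hb2 2
    have k3 : m * (a + b - 2 * m) ≤ q * (q * d ^ 2) := by
      refine (le_abs_self _).trans ?_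
      rw [abs_mul]
      exact mul_le_mul hb3 hb4 (abs_nonneg _) hq0
    have k4 : a ^ 2 + b ^ 2 - 2 * m ^ 2 = (a - m) ^ 2 + (b - m) ^ 2 + 2 * (m * (a + b - 2 * m)) := by
      ring
    have k5 : a ^ 2 + b ^ 2 - 2 * m ^ 2 ≤ 3 * q ^ 2 * d ^ 2 := by
      rw [k4]
      have : 0 ≤ q ^ 2 * d ^ 2 := by positivity
      linarith
    refine k5.trans ?_
    have := mul_le_mul_of_nonneg_right hq2 (sq_nonneg d)
    linarith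
  have h8 := mul_le_mul_of_nonneg_left h5 (show (0:ℝ) ≤ K.ρ ^ 2 by positivity)
  have h10 := mul_le_mul_of_nonneg_left h4 (show (0:ℝ) ≤ 4 * π by positivity)
  have hD0 : 0 ≤ D := by rw [hD]; exact Real.sqrt_nonneg _
  have h7 : K.ρ ^ N' * (N₂ ^ 2 * (d ^ 2 + d ^ 4) + N₂ * D * (d + d ^ 2))
      + K.ρ ^ 2 * (((modes B.S).card : ℝ) * (3 * C' ^ 2 * K.ρ ^ 2 * N₂ ^ 2 * d ^ 2))
      ≤ K.ρ ^ (N' + 5) * (N₂ ^ 2 * (d ^ 2 + d ^ 4) + N₂ * D * (d + d ^ 2)) := by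
    set X := N₂ ^ 2 * (d ^ 2 + d ^ 4) + N₂ * D * (d + d ^ 2) with hX
    have hX1 : N₂ ^ 2 * d ^ 2 ≤ X := by
      have t1 : 0 ≤ N₂ ^ 2 * d ^ 4 := by positivity
      have t2 : 0 ≤ N₂ * D * (d + d ^ 2) := by positivity
      rw [hX]
      linarith
    have hX0 : 0 ≤ X := le_trans (by positivity) hX1
    have hr1 : (1:ℝ) ≤ K.ρ := by linarith
    have a1 : K.ρ ^ N' ≤ K.ρ ^ (N' + 4) := pow_le_pow_right₀ hr1 (by omega)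
    have a2 : K.ρ ^ 4 ≤ K.ρ ^ (N' + 4) := pow_le_pow_right₀ hr1 (by omega)
    have a3 : (0:ℝ) ≤ ((modes B.S).card : ℝ) * (3 * C' ^ 2) := by positivity
    have a4 : K.ρ ^ N' * X + ((modes B.S).card : ℝ) * (3 * C' ^ 2) * K.ρ ^ 4 * X
        ≤ (1 + ((modes B.S).card : ℝ) * (3 * C' ^ 2)) * K.ρ ^ (N' + 4) * X := by
      have b1 := mul_le_mul_of_nonneg_right (mul_le_mul_of_nonneg_left a2 a3) hX0
      have b2 := mul_le_mul_of_nonneg_right a1 hX0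
      linarith
    have a5 : (1 + ((modes B.S).card : ℝ) * (3 * C' ^ 2)) * K.ρ ^ (N' + 4) * X
        ≤ K.ρ * K.ρ ^ (N' + 4) * X :=
      mul_le_mul_of_nonneg_right (mul_le_mul_of_nonneg_right hK5 (by positivity)) hX0
    have a6 : K.ρ * K.ρ ^ (N' + 4) * X = K.ρ ^ (N' + 5) * X := by ring
    have a7 : K.ρ ^ 2 * (((modes B.S).card : ℝ) * (3 * C' ^ 2 * K.ρ ^ 2 * N₂ ^ 2 * d ^ 2))
        ≤ ((modes B.S).card : ℝ) * (3 * C' ^ 2) * K.ρ ^ 4 * X := by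
      have b1 := mul_le_mul_of_nonneg_left hX1
        (show (0:ℝ) ≤ ((modes B.S).card : ℝ) * (3 * C' ^ 2) * K.ρ ^ 4 by positivity)
      calc K.ρ ^ 2 * (((modes B.S).card : ℝ) * (3 * C' ^ 2 * K.ρ ^ 2 * N₂ ^ 2 * d ^ 2))
          = ((modes B.S).card : ℝ) * (3 * C' ^ 2) * K.ρ ^ 4 * (N₂ ^ 2 * d ^ 2) := by ring
        _ ≤ _ := b1
    linarith
  rw [e1, e2, e3]
  have h11 : 4 * π * -(0.1 * K.ε * d ^ 2 * ∑ n, B.S.m (B.cp n))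
      = -(0.4 * π * (∑ n, B.S.m (B.cp n)) * K.ε * d ^ 2) := by ring
  rw [h11] at h10
  linarith

end Pool.MP_ad5d82_an.Wl
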