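import Pool.Agent.Lib.MP_ad5d82_an.h24.PDefs
import Pool.Agent.Lib.MP_ad5d82_an.h24.F.F2
import Pool.Agent.Lib.MP_ad5d82_an.h24.F.F5
import Pool.Agent.Lib.MP_ad5d82_an.h24.P.P0
import Pool.Agent.Lib.MP_ad5d82_an.h24.P.P1
import Pool.Agent.Lib.MP_ad5d82_an.h24.P.P1a
import Pool.Agent.Lib.MP_ad5d82_an.h24.P.P3
import Pool.Agent.Lib.MP_ad5d82_an.h24.P.P3b
import Pool.Agent.Lib.MP_ad5d82_an.h24.P.P4b

set_option autoImplicit false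

namespace Pool.MP_ad5d82_an.Wl

open Real Set MeasureTheory Filter Topology
open scoped ContDiff

variable {ι : Type} [Fintype ι] [DecidableEq ι]

variable {B : Base ι} {δ R₀ Ξ : ℝ}


/-! ### P15a inner comparison of the centres `ξ` and `ξ/2` -/

private theorem P15a_int {U : Fld ι} (hU : IsSob U) (R r : ℝ) :
    IntegrableOn (fun x : ℂ => exp (1.8 * ‖x‖) * ‖(U x).1‖ ^ 2)
      {x : ℂ | R ≤ ‖x‖ ∧ ‖x‖ < r} volume := by
  have hmeas2 : MeasurableSet {x : ℂ | R ≤ ‖x‖ ∧ ‖x‖ < r} :=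
    (measurableSet_le measurable_const measurable_norm).inter
      (measurableSet_lt measurable_norm measurable_const)
  have h1 := hU.integrableOn_ann (-1) r
  have hn : IntegrableOn (fun x : ℂ => ‖(U x).1‖ ^ 2) {x : ℂ | -1 < ‖x‖ ∧ ‖x‖ < r}
      volume := by
    refine Integrable.mono' h1 ((hU.1.fst.norm.pow 2).restrict) (ae_of_all _ fun x => ?_)
    rw [Real.norm_eq_abs, abs_of_nonneg (by positivity)]
    have : 0 ≤ gsq (U x) := by unfold gsq; positivity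
    linarith
  have hn2 : IntegrableOn (fun x : ℂ => ‖(U x).1‖ ^ 2) {x : ℂ | R ≤ ‖x‖ ∧ ‖x‖ < r}
      volume := hn.mono_set fun x hx => ⟨by linarith [norm_nonneg x], hx.2⟩
  refine Integrable.mono' (hn2.const_mul (exp (1.8 * r))) ?_ ?_
  · refine AEStronglyMeasurable.mul ?_ ((hU.1.fst.norm.pow 2).restrict)
    exact (by fun_prop : Continuous fun x : ℂ => exp (1.8 * ‖x‖)).aestronglyMeasurable
  · refine (ae_restrict_iff' hmeas2).2 (ae_of_all _ fun x hx => ?_)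
    rw [Real.norm_eq_abs, abs_of_nonneg (by positivity)]
    gcongr
    exact hx.2.le

theorem inner_compare (B : Base ι) : ∃ δ₁ : ℝ, 0 < δ₁ ∧ δ₁ ≤ 1 ∧ ∃ C : ℝ, 0 < C ∧
    ∀ δ R₀ Ξ : ℝ, 0 < δ → δ ≤ δ₁ → 1 ≤ R₀ → 2 * R₀ ≤ Ξ →
    ∃ ρ₀ : ℝ, ∀ K : Cfg B δ R₀ Ξ, ρ₀ ≤ K.ρ →
    ∀ U : Fld ι, IsSob U → ∀ ξ : ℂ, ‖ξ‖ = Ξ → ∀ A : ℝ,
    (∫ x in {x : ℂ | R₀ ≤ ‖x‖ ∧ ‖x‖ < 0.88 * K.ρ}, exp (1.8 * ‖x‖) * ‖(U x).1‖ ^ 2) ≤ A →
    inP K U ξ - C * A * K.ε * exp (-0.6 * Ξ) ≤ inP K U (ξ / 2) := by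
  obtain ⟨δ₂, hδ₂, hmono⟩ := inner_mono B.S
  obtain ⟨C, hC, hlip⟩ := inner_lip B.S
  refine ⟨min δ₂ 1, lt_min hδ₂ one_pos, min_le_right _ _, C, hC, ?_⟩
  intro δ R₀ Ξ hδ hδ1 hR hRΞ
  have hΞ : 0 ≤ Ξ := by linarith
  obtain ⟨ρ1, hρ1⟩ := phi_integrable B δ R₀ Ξ hδ (hδ1.trans (min_le_right _ _)) hR hΞ
  obtain ⟨ρ2, hρ2⟩ := SS_near_one Ξ
  refine ⟨max (max ρ1 ρ2) (max (10 * Ξ + 1) (max (2 * R₀ + 1) (1 / min δ₂ 1 + 1))), ?_⟩
  intro K hK U hU ξ hξ A hA2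
  have hK1 : ρ1 ≤ K.ρ := le_trans (le_trans (le_max_left _ _) (le_max_left _ _)) hK
  have hK2 : ρ2 ≤ K.ρ := le_trans (le_trans (le_max_right _ _) (le_max_left _ _)) hK
  have hK3 : 10 * Ξ + 1 ≤ K.ρ := le_trans (le_trans (le_max_left _ _) (le_max_right _ _)) hK
  have hK45 : max (2 * R₀ + 1) (1 / min δ₂ 1 + 1) ≤ K.ρ :=
    le_trans (le_trans (le_max_right _ _) (le_max_right _ _)) hK
  have hK4 : 2 * R₀ + 1 ≤ K.ρ := le_trans (le_max_left _ _) hK45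
  have hK5 : 1 / min δ₂ 1 + 1 ≤ K.ρ := le_trans (le_max_right _ _) hK45
  have hρ0 : 0 < K.ρ := by linarith
  have hρ1' : 1 ≤ K.ρ := by linarith
  have hm0 : 0 < min δ₂ 1 := lt_min hδ₂ one_pos
  have hξ2 : ‖ξ / 2‖ = Ξ / 2 := by
    rw [norm_div, hξ, show ‖(2 : ℂ)‖ = 2 by simp]
  have hξ2' : ‖ξ / 2‖ ≤ Ξ := by rw [hξ2]; linarith
  have hε := K.wall.hε
  have htau : ∀ x : ℂ, ‖x‖ < 0.88 * K.ρ → tau δ K.ρ x ≤ min δ₂ 1 := by
    intro x hx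
    unfold tau
    split_ifs with h
    · exact hδ1
    · have h1 : Real.posLog (‖x‖ / K.ρ) = 0 := by
        rw [Real.posLog_eq_zero_iff, abs_of_nonneg (by positivity), div_le_one hρ0]
        linarith
      rw [h1, add_zero, mul_one]
      have h2 : 1 / min δ₂ 1 ≤ K.ρ ^ 6 := by
        calc 1 / min δ₂ 1 ≤ K.ρ := by linarith
          _ = K.ρ ^ 1 := (pow_one _).symm
          _ ≤ K.ρ ^ 6 := pow_le_pow_right₀ hρ1' (by norm_num)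
      rw [div_le_iff₀ hm0] at h2
      rw [inv_le_iff_one_le_mul₀ (by positivity)]
      linarith
  have hlog : -Real.log 2 ≤ Real.log (99 / 100) := by
    rw [← Real.log_inv]
    exact Real.log_le_log (by norm_num) (by norm_num)
  have h99 : (99 / 100 : ℝ) = exp (Real.log (99 / 100)) := (exp_log (by norm_num)).symm
  -- the two squares
  have hsq : ∀ x : ℂ, ‖x - ξ‖ ^ 2 = ‖x‖ ^ 2 - 2 * (x.re * ξ.re + x.im * ξ.im) + Ξ ^ 2 ∧
      ‖x - ξ / 2‖ ^ 2 = ‖x‖ ^ 2 - (x.re * ξ.re + x.im * ξ.im) + Ξ ^ 2 / 4 := by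
    intro x
    rw [← hξ]
    have e1 : ∀ z : ℂ, ‖z‖ ^ 2 = z.re * z.re + z.im * z.im := fun z => by
      rw [Complex.sq_norm, Complex.normSq_apply]
    have e2 : (ξ / 2).re = ξ.re / 2 := by simp
    have e3 : (ξ / 2).im = ξ.im / 2 := by simp
    refine ⟨?_, ?_⟩
    · rw [e1, e1, e1, Complex.sub_re, Complex.sub_im]
      ring
    · rw [e1, e1, e1, Complex.sub_re, Complex.sub_im, e2, e3]
      ring
  have hcs : ∀ x : ℂ, x.re * ξ.re + x.im * ξ.im ≤ ‖x‖ * Ξ := by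
    intro x
    rw [← hξ]
    have e1 : ∀ z : ℂ, ‖z‖ ^ 2 = z.re * z.re + z.im * z.im := fun z => by
      rw [Complex.sq_norm, Complex.normSq_apply]
    have h1 : (x.re * ξ.re + x.im * ξ.im) ^ 2 ≤ (‖x‖ * ‖ξ‖) ^ 2 := by
      rw [mul_pow, e1, e1]
      linarith [sq_nonneg (x.re * ξ.im - x.im * ξ.re)]
    exact le_of_abs_le (abs_le_of_sq_le_sq h1 (by positivity))
  have facts : ∀ x : ℂ, ‖x‖ < 0.88 * K.ρ →
      99 / 100 ≤ exp (SS K.F (x - ξ)) ∧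
      (SS K.F (x - ξ) ≤ SS K.F (x - ξ / 2) ∨
        (3 / 4 * Ξ < ‖x‖ ∧ |SS K.F (x - ξ) - SS K.F (x - ξ / 2)| ≤ K.ε * exp ‖x‖)) := by
    intro x hx
    refine ⟨hρ2 _ _ _ K.wall hK2 ξ x hξ.le (by linarith), ?_⟩
    obtain ⟨q1, q2⟩ := hsq x
    rcases le_or_gt (x.re * ξ.re + x.im * ξ.im) (3 / 4 * Ξ ^ 2) with h | h
    · left
      refine SS_anti K.wall _ _ ?_
      refine abs_le_of_sq_le_sq' (by linarith) (norm_nonneg _) |>.2
    · right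
      have hΞ0 : 0 < Ξ := by linarith
      refine ⟨?_, ?_⟩
      · have := hcs x
        have h2 : 3 / 4 * Ξ * Ξ < ‖x‖ * Ξ := by linarith
        exact lt_of_mul_lt_mul_right h2 hΞ0.le
      · have n1 : ‖x - ξ‖ ≤ ‖x‖ := by
          refine abs_le_of_sq_le_sq' (by linarith [sq_nonneg Ξ]) (norm_nonneg _) |>.2
        have n2 : ‖x - ξ / 2‖ ≤ ‖x‖ := by
          refine abs_le_of_sq_le_sq' (by linarith [sq_nonneg Ξ]) (norm_nonneg _) |>.2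
        have m1 := SS_small K.wall (x - ξ)
        have m2 := SS_small K.wall (x - ξ / 2)
        have p1 := SS_neg K.wall (x - ξ)
        have p2 := SS_neg K.wall (x - ξ / 2)
        have l1 : K.ε * exp ‖x - ξ‖ ≤ K.ε * exp ‖x‖ := by gcongr
        have l2 : K.ε * exp ‖x - ξ / 2‖ ≤ K.ε * exp ‖x‖ := by gcongr
        rw [abs_le]
        constructor <;> linarith
  set D : ℂ → ℝ := fun x =>
    pot B δ R₀ K.ρ x (SS K.F (x - ξ)) (U x).1 - pot B δ R₀ K.ρ x (SS K.F (x - ξ / 2)) (U x).1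
    with hD
  have hneg2 := fun x : ℂ => SS_neg K.wall (x - ξ / 2)
  have hneg1 := fun x : ℂ => SS_neg K.wall (x - ξ)
  have hin : ∀ x : ℂ, ‖x‖ < R₀ → D x ≤ 0 := by
    intro x hx
    have hx' : ‖x‖ < 0.88 * K.ρ := by linarith
    obtain ⟨f1, f2⟩ := facts x hx'
    rcases f2 with f2 | ⟨f2, -⟩
    · simp only [hD, pot, if_pos hx]
      have h1 := WW_mono B.S _ _ (hlog.trans (by rwa [h99, exp_le_exp] at f1)) f2 (hneg2 x).le
        (v0 B x + (U x).1)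
      linarith
    · linarith
  have hout : ∀ x : ℂ, R₀ ≤ ‖x‖ → ‖x‖ < 0.88 * K.ρ →
      D x ≤ C * K.ε * exp (-0.6 * Ξ) * (exp (1.8 * ‖x‖) * ‖(U x).1‖ ^ 2) := by
    intro x hx hx'
    obtain ⟨f1, f2⟩ := facts x hx'
    simp only [hD, pot, if_neg (not_lt.2 hx)]
    have ht0 := tau_pos hδ hρ0 x
    have ht1 := htau x hx'
    rcases f2 with f2 | ⟨f2, f3⟩
    · have h1 := hmono (tau δ K.ρ x) _ _ ht0 (ht1.trans (min_le_left _ _)) f2 (hneg2 x).le f1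
        (U x).1
      have h2 : 0 ≤ C * K.ε * exp (-0.6 * Ξ) * (exp (1.8 * ‖x‖) * ‖(U x).1‖ ^ 2) := by positivity
      linarith
    · have h1 := (abs_le.1 (hlip (tau δ K.ρ x) _ _ ht0 (ht1.trans (min_le_right _ _)) (hneg1 x).le
        (hneg2 x).le (U x).1)).2
      have h2 : |SS K.F (x - ξ) - SS K.F (x - ξ / 2)| ≤
          K.ε * (exp (-0.6 * Ξ) * exp (1.8 * ‖x‖)) := by
        refine f3.trans ?_
        rw [← exp_add]
        gcongr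
        linarith
      have h3 := mul_le_mul_of_nonneg_left h2 (by positivity : 0 ≤ C * ‖(U x).1‖ ^ 2)
      calc _ ≤ C * ‖(U x).1‖ ^ 2 * |SS K.F (x - ξ) - SS K.F (x - ξ / 2)| := h1
        _ ≤ C * ‖(U x).1‖ ^ 2 * (K.ε * (exp (-0.6 * Ξ) * exp (1.8 * ‖x‖))) := h3
        _ = _ := by ring
  have i1 : Integrable (fun x => pot B δ R₀ K.ρ x (SS K.F (x - ξ)) (U x).1) volume :=
    (hρ1 K hK1 U hU ξ hξ.le).2.1
  have i2 : Integrable (fun x => pot B δ R₀ K.ρ x (SS K.F (x - ξ / 2)) (U x).1) volume :=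
    (hρ1 K hK1 U hU (ξ / 2) hξ2').2.1
  have iD : Integrable D volume := i1.sub i2
  have e1 : inP K U ξ - inP K U (ξ / 2) = ∫ x in {x : ℂ | ‖x‖ < 0.88 * K.ρ}, D x :=
    (integral_sub i1.integrableOn i2.integrableOn).symm
  have hset : {x : ℂ | ‖x‖ < 0.88 * K.ρ} =
      {x : ℂ | ‖x‖ < R₀} ∪ {x : ℂ | R₀ ≤ ‖x‖ ∧ ‖x‖ < 0.88 * K.ρ} := by
    ext x
    constructor
    · intro h
      rcases lt_or_ge ‖x‖ R₀ with h1 | h1
      · exact Or.inl h1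
      · exact Or.inr ⟨h1, h⟩
    · rintro (h | h)
      · have h' : ‖x‖ < R₀ := h
        show ‖x‖ < 0.88 * K.ρ
        linarith
      · exact h.2
  have hmeas1 : MeasurableSet {x : ℂ | ‖x‖ < R₀} := measurableSet_lt measurable_norm measurable_const
  have hmeas2 : MeasurableSet {x : ℂ | R₀ ≤ ‖x‖ ∧ ‖x‖ < 0.88 * K.ρ} :=
    (measurableSet_le measurable_const measurable_norm).inter
      (measurableSet_lt measurable_norm measurable_const)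
  have hdisj : Disjoint {x : ℂ | ‖x‖ < R₀} {x : ℂ | R₀ ≤ ‖x‖ ∧ ‖x‖ < 0.88 * K.ρ} := by
    rw [Set.disjoint_left]
    intro x hx hx'
    exact absurd hx (not_lt.2 hx'.1)
  have e2 : ∫ x in {x : ℂ | ‖x‖ < 0.88 * K.ρ}, D x = (∫ x in {x : ℂ | ‖x‖ < R₀}, D x) +
      ∫ x in {x : ℂ | R₀ ≤ ‖x‖ ∧ ‖x‖ < 0.88 * K.ρ}, D x := by
    rw [hset, setIntegral_union hdisj hmeas2 iD.integrableOn iD.integrableOn]
  have k1 : ∫ x in {x : ℂ | ‖x‖ < R₀}, D x ≤ 0 :=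
    setIntegral_nonpos hmeas1 fun x hx => hin x hx
  have k2 : ∫ x in {x : ℂ | R₀ ≤ ‖x‖ ∧ ‖x‖ < 0.88 * K.ρ}, D x ≤
      C * K.ε * exp (-0.6 * Ξ) * A := by
    calc _ ≤ ∫ x in {x : ℂ | R₀ ≤ ‖x‖ ∧ ‖x‖ < 0.88 * K.ρ},
          C * K.ε * exp (-0.6 * Ξ) * (exp (1.8 * ‖x‖) * ‖(U x).1‖ ^ 2) :=
          setIntegral_mono_on iD.integrableOn ((P15a_int hU _ _).const_mul _) hmeas2
            fun x hx => hout x hx.1 hx.2
      _ = C * K.ε * exp (-0.6 * Ξ) * ∫ x in {x : ℂ | R₀ ≤ ‖x‖ ∧ ‖x‖ < 0.88 * K.ρ},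
          exp (1.8 * ‖x‖) * ‖(U x).1‖ ^ 2 := integral_const_mul _ _
      _ ≤ _ := mul_le_mul_of_nonneg_left hA2 (by positivity)
  have e3 : C * A * K.ε * exp (-0.6 * Ξ) = C * K.ε * exp (-0.6 * Ξ) * A := by ring
  rw [e3]
  linarith

end Pool.MP_ad5d82_an.Wl
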