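import Pool.Agent.Lib.MP_ad5d82_an.h24.PDefs
import Pool.Agent.Lib.MP_ad5d82_an.h24.F.F4
import Pool.Agent.Lib.MP_ad5d82_an.h24.F.F5
import Pool.Agent.Lib.MP_ad5d82_an.h24.P.P0
import Pool.Agent.Lib.MP_ad5d82_an.h24.P.P1
import Pool.Agent.Lib.MP_ad5d82_an.h24.P.P3
import Pool.Agent.Lib.MP_ad5d82_an.h24.P.P3b
import Pool.Agent.Lib.MP_ad5d82_an.h24.P.P4b
import Pool.Agent.Lib.MP_ad5d82_an.h24.P.PC

set_option autoImplicit false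

namespace Pool.MP_ad5d82_an.Wl

open Real Set MeasureTheory Filter Topology
open scoped ContDiff

variable {ι : Type} [Fintype ι] [DecidableEq ι]

variable {B : Base ι} {δ R₀ Ξ : ℝ}


/-! ### P15b crude bound of the outer energy -/

private theorem P15b_wgt_nonneg (ρ r : ℝ) : 0 ≤ wgt ρ r := by
  unfold wgt
  exact le_min zero_le_one (by positivity)

private theorem P15b_wgt_le_one (ρ r : ℝ) : wgt ρ r ≤ 1 := min_le_left _ _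

theorem outQ_bound (B : Base ι) : ∃ N : ℕ, ∀ δ R₀ Ξ : ℝ, 0 < δ → δ ≤ 1 → 1 ≤ R₀ → 0 ≤ Ξ →
    ∃ ρ₀ : ℝ, ∀ K : Cfg B δ R₀ Ξ, ρ₀ ≤ K.ρ →
    ∀ U : Fld ι, IsSob U → ∀ (c : Cc B.S) (ξ : ℂ), ‖ξ‖ ≤ Ξ → ∀ N₂ : ℝ,
    NII K.ρ (0.88 * K.ρ) U ≤ N₂ ^ 2 → 0 ≤ N₂ → Real.sqrt (∑ i, c i ^ 2) ≤ N₂ →
    |outQ K U c ξ| ≤ K.ρ ^ N * N₂ ^ 2 := by
  refine ⟨3, ?_⟩
  intro δ R₀ Ξ hδ hδ1 hR hΞ
  obtain ⟨C, hC, hpot⟩ := pot_out B.S
  obtain ⟨ρ1, hρ1⟩ := hpot δ Ξ hδ hδ1 hΞ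
  obtain ⟨C', hC', hqv⟩ := qVb_le B.S
  obtain ⟨ρ2, hρ2⟩ := SS_far Ξ
  obtain ⟨D, hD, hcf⟩ := Cf_energy B.S B.c₀ B.C₀
  set C2 : ℝ := 50 * C' + 1 with hC2
  have hC2p : 0 < C2 := by positivity
  refine ⟨max (max ρ1 ρ2) (max 1 (C2 * (2 + 2 * D))), ?_⟩
  intro K hK U hU c ξ hξ N₂ hN hN0 hc
  have hK1 : ρ1 ≤ K.ρ := le_trans (le_trans (le_max_left _ _) (le_max_left _ _)) hK
  have hK2 : ρ2 ≤ K.ρ := le_trans (le_trans (le_max_right _ _) (le_max_left _ _)) hK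
  have hK3 : 1 ≤ K.ρ := le_trans (le_trans (le_max_left _ _) (le_max_right _ _)) hK
  have hK4 : C2 * (2 + 2 * D) ≤ K.ρ :=
    le_trans (le_trans (le_max_right _ _) (le_max_right _ _)) hK
  have hρ0 : 0 < K.ρ := by linarith
  have hG : IsSob (GG K U c ξ) := isSob_GG K hU c ξ
  set G := GG K U c ξ with hGdef
  -- pointwise bound
  have hmeas : MeasurableSet {x : ℂ | 0.88 * K.ρ ≤ ‖x‖} :=
    measurableSet_le measurable_const measurable_norm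
  have hpt : ∀ x : ℂ, x ∈ {x : ℂ | 0.88 * K.ρ ≤ ‖x‖} →
      ‖outD B δ K.ρ x (SS K.F (x - ξ)) (G x)‖
        ≤ C2 * (gsq (G x) + wgt K.ρ ‖x‖ * ‖(G x).1‖ ^ 2) := by
    intro x hx
    have hx' : 0.88 * K.ρ ≤ ‖x‖ := hx
    have hx0 : x ≠ 0 := by
      intro h0
      rw [h0, norm_zero] at hx'
      nlinarith
    have h1 := (hρ1 K.ρ K.ε K.F K.wall hK1 ξ hξ x (G x).1 (G x).1).1
    have hLL : LL C δ K.ρ x = (K.ρ ^ 5)⁻¹ * wgt K.ρ ‖x‖ := by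
      unfold LL
      rw [if_neg]
      push Not
      nlinarith
    rw [hLL] at h1
    have hw0 := P15b_wgt_nonneg K.ρ ‖x‖
    have h5 : (K.ρ ^ 5)⁻¹ ≤ 1 := inv_le_one_of_one_le₀ (one_le_pow₀ hK3)
    have h1' : |RT B.S (tau δ K.ρ x) (SS K.F (x - ξ)) (G x).1| ≤ wgt K.ρ ‖x‖ * ‖(G x).1‖ ^ 2 := by
      refine h1.trans ?_
      have : (K.ρ ^ 5)⁻¹ * wgt K.ρ ‖x‖ ≤ 1 * wgt K.ρ ‖x‖ := mul_le_mul_of_nonneg_right h5 hw0
      rw [one_mul] at this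
      exact mul_le_mul_of_nonneg_right this (by positivity)
    have hs : SS K.F (x - ξ) ≤ 0 := (SS_neg K.wall _).le
    have h2 := (hqv (SS K.F (x - ξ)) hs (G x).1 (G x).1).2
    have h3 := (hρ2 K.ρ K.ε K.F K.wall hK2 ξ x hξ).2 hx0
    have h2' : |qV B.S (SS K.F (x - ξ)) (G x).1| ≤ 100 * C' * (wgt K.ρ ‖x‖ * ‖(G x).1‖ ^ 2) := by
      refine h2.trans ?_
      have : C' * exp (SS K.F (x - ξ)) ≤ C' * (100 * wgt K.ρ ‖x‖) :=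
        mul_le_mul_of_nonneg_left h3 hC'.le
      calc C' * exp (SS K.F (x - ξ)) * ‖(G x).1‖ ^ 2
          ≤ C' * (100 * wgt K.ρ ‖x‖) * ‖(G x).1‖ ^ 2 :=
            mul_le_mul_of_nonneg_right this (by positivity)
        _ = _ := by ring
    have h4 := gP_le B.S (G x)
    have h4' := gP_nonneg B.S (G x)
    have h6 : 0 ≤ gsq (G x) := by unfold gsq; positivity
    have h7 : 0 ≤ wgt K.ρ ‖x‖ * ‖(G x).1‖ ^ 2 := by positivity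
    rw [Real.norm_eq_abs]
    unfold outD
    have ha := abs_le.1 h1'
    have hb := abs_le.1 h2'
    rw [abs_le]
    rw [hC2]
    constructor
    · nlinarith [mul_nonneg hC'.le h6]
    · nlinarith [mul_nonneg hC'.le h6]
  have hint : Integrable (fun x => C2 * (gsq (G x) + wgt K.ρ ‖x‖ * ‖(G x).1‖ ^ 2)) volume :=
    ((hG.integrable_gsq.add (hG.integrable_wgt hK3)).const_mul C2)
  have hq : |outQ K U c ξ| ≤ C2 * NII K.ρ (0.88 * K.ρ) G := by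
    unfold outQ NII
    rw [← integral_const_mul, ← Real.norm_eq_abs]
    refine norm_integral_le_of_norm_le hint.integrableOn ?_
    exact (ae_restrict_iff' hmeas).2 (ae_of_all _ hpt)
  have hNG : NII K.ρ (0.88 * K.ρ) G
      ≤ 2 * NII K.ρ (0.88 * K.ρ) U + 2 * NII K.ρ (0.88 * K.ρ) (jet (Cf B.S K.χ c ξ)) :=
    NII_add hU (isSob_Cf K c ξ) hK3 _
  have hcfe := hcf K.ρ K.F K.χ K.fam hK3 c ξ
  have hNC : NII K.ρ (0.88 * K.ρ) (jet (Cf B.S K.χ c ξ)) ≤ D * K.ρ ^ 2 * ∑ i, c i ^ 2 := by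
    refine le_trans ?_ hcfe.2
    unfold NII
    calc ∫ x in {x : ℂ | 0.88 * K.ρ ≤ ‖x‖}, (gsq (jet (Cf B.S K.χ c ξ) x)
            + wgt K.ρ ‖x‖ * ‖(jet (Cf B.S K.χ c ξ) x).1‖ ^ 2)
        ≤ ∫ x in {x : ℂ | 0.88 * K.ρ ≤ ‖x‖}, (gsq (jet (Cf B.S K.χ c ξ) x)
            + ‖Cf B.S K.χ c ξ x‖ ^ 2) := by
          refine integral_mono_of_nonneg (ae_of_all _ fun x => ?_) hcfe.1.integrableOn
            (ae_of_all _ fun x => ?_)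
          · have h6 : 0 ≤ gsq (jet (Cf B.S K.χ c ξ) x) := by unfold gsq; positivity
            have := P15b_wgt_nonneg K.ρ ‖x‖
            show (0:ℝ) ≤ _
            positivity
          · have h7 := P15b_wgt_le_one K.ρ ‖x‖
            have h8 : wgt K.ρ ‖x‖ * ‖(jet (Cf B.S K.χ c ξ) x).1‖ ^ 2
                ≤ 1 * ‖(jet (Cf B.S K.χ c ξ) x).1‖ ^ 2 :=
              mul_le_mul_of_nonneg_right h7 (by positivity)
            have h9 : (jet (Cf B.S K.χ c ξ) x).1 = Cf B.S K.χ c ξ x := rfl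
            rw [h9] at h8
            show gsq (jet (Cf B.S K.χ c ξ) x) + wgt K.ρ ‖x‖ * ‖Cf B.S K.χ c ξ x‖ ^ 2
              ≤ gsq (jet (Cf B.S K.χ c ξ) x) + ‖Cf B.S K.χ c ξ x‖ ^ 2
            linarith
      _ ≤ ∫ x, (gsq (jet (Cf B.S K.χ c ξ) x) + ‖Cf B.S K.χ c ξ x‖ ^ 2) := by
          refine setIntegral_le_integral hcfe.1 (ae_of_all _ fun x => ?_)
          show (0:ℝ) ≤ _
          have h6 : 0 ≤ gsq (jet (Cf B.S K.χ c ξ) x) := by unfold gsq; positivity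
          positivity
  have hsum : ∑ i, c i ^ 2 ≤ N₂ ^ 2 := by
    have h0 : 0 ≤ ∑ i, c i ^ 2 := Finset.sum_nonneg fun i _ => sq_nonneg _
    calc ∑ i, c i ^ 2 = Real.sqrt (∑ i, c i ^ 2) ^ 2 := (Real.sq_sqrt h0).symm
      _ ≤ N₂ ^ 2 := pow_le_pow_left₀ (Real.sqrt_nonneg _) hc 2
  have hN2 : 0 ≤ N₂ ^ 2 := sq_nonneg _
  have hfin : NII K.ρ (0.88 * K.ρ) G ≤ (2 + 2 * D) * K.ρ ^ 2 * N₂ ^ 2 := by
    have hr2 : (1:ℝ) ≤ K.ρ ^ 2 := one_le_pow₀ hK3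
    have e1 : D * K.ρ ^ 2 * ∑ i, c i ^ 2 ≤ D * K.ρ ^ 2 * N₂ ^ 2 :=
      mul_le_mul_of_nonneg_left hsum (by positivity)
    have e2 : N₂ ^ 2 ≤ K.ρ ^ 2 * N₂ ^ 2 := le_mul_of_one_le_left hN2 hr2
    nlinarith
  calc |outQ K U c ξ| ≤ C2 * NII K.ρ (0.88 * K.ρ) G := hq
    _ ≤ C2 * ((2 + 2 * D) * K.ρ ^ 2 * N₂ ^ 2) := mul_le_mul_of_nonneg_left hfin hC2p.le
    _ = (C2 * (2 + 2 * D)) * (K.ρ ^ 2 * N₂ ^ 2) := by ring
    _ ≤ K.ρ * (K.ρ ^ 2 * N₂ ^ 2) := mul_le_mul_of_nonneg_right hK4 (by positivity)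
    _ = K.ρ ^ 3 * N₂ ^ 2 := by ring

end Pool.MP_ad5d82_an.Wl
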