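import Pool.Agent.Lib.MP_ad5d82_an.h24.PDefs
import Pool.Agent.Lib.MP_ad5d82_an.h24.P.P0
import Pool.Agent.Lib.MP_ad5d82_an.h24.P.P1
import Pool.Agent.Lib.MP_ad5d82_an.h24.P.P4
import Pool.Agent.Lib.MP_ad5d82_an.h24.P.P14c
import Pool.Agent.Lib.MP_ad5d82_an.h24.P.P15a
import Pool.Agent.Lib.MP_ad5d82_an.h24.P.P15b

set_option autoImplicit false

namespace Pool.MP_ad5d82_an.Wl

open Real Set MeasureTheory Filter Topology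
open scoped ContDiff

variable {ι : Type} [Fintype ι] [DecidableEq ι]

variable {B : Base ι} {δ R₀ Ξ : ℝ}


/-! ### P15 comparison of the centres `ξ` and `ξ/2` -/

private theorem P15_geom (p ξ : ℂ) (hp : 4 * ‖p‖ ≤ ‖ξ‖) :
    1 / 2 * ‖ξ‖ ^ 2 ≤ ‖p - ξ‖ ^ 2 - ‖p - ξ / 2‖ ^ 2 := by
  have h1 : ‖p - ξ‖ ^ 2 - ‖p - ξ / 2‖ ^ 2 = 3 / 4 * ‖ξ‖ ^ 2 - (p.re * ξ.re + p.im * ξ.im) := by
    rw [← Complex.normSq_eq_norm_sq, ← Complex.normSq_eq_norm_sq, ← Complex.normSq_eq_norm_sq,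
      Complex.normSq_apply, Complex.normSq_apply, Complex.normSq_apply]
    have e1 : (ξ / 2).re = ξ.re / 2 := by simp
    have e2 : (ξ / 2).im = ξ.im / 2 := by simp
    rw [Complex.sub_re, Complex.sub_im, Complex.sub_re, Complex.sub_im, e1, e2]
    ring
  have h2 : p.re * ξ.re + p.im * ξ.im ≤ ‖p‖ * ‖ξ‖ := by
    have h3 : p.re * ξ.re + p.im * ξ.im = (p * (starRingEnd ℂ) ξ).re := by
      simp [Complex.mul_re]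
    rw [h3]
    refine (Complex.re_le_norm _).trans ?_
    rw [norm_mul, Complex.norm_conj]
  rw [h1]
  nlinarith [norm_nonneg ξ, norm_nonneg p]

theorem interior (B : Base ι) : ∃ δ₁ : ℝ, 0 < δ₁ ∧ δ₁ ≤ 1 ∧ ∃ C : ℝ, 0 < C ∧ ∃ m₁ : ℝ, 0 < m₁ ∧
    ∃ N : ℕ, ∃ Ξ₀ : ℝ, ∀ δ R₀ Ξ : ℝ, 0 < δ → δ ≤ δ₁ → 1 ≤ R₀ → Ξ₀ ≤ Ξ → 2 * R₀ ≤ Ξ →
    ∃ ρ₀ : ℝ, ∀ K : Cfg B δ R₀ Ξ, ρ₀ ≤ K.ρ →
    ∀ U : Fld ι, IsSob U → ∀ (c : Cc B.S) (ξ : ℂ), ‖ξ‖ = Ξ → ∀ A N₂ : ℝ,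
    (∫ x in {x : ℂ | R₀ ≤ ‖x‖ ∧ ‖x‖ < 0.88 * K.ρ}, exp (1.8 * ‖x‖) * ‖(U x).1‖ ^ 2) ≤ A →
    NII K.ρ (0.88 * K.ρ) U ≤ N₂ ^ 2 → 0 ≤ N₂ → Real.sqrt (∑ i, c i ^ 2) ≤ N₂ →
    Phi K U c ξ + m₁ * K.ε * Ξ ^ 2 - C * A * K.ε * exp (-0.6 * Ξ) - K.ρ ^ N * N₂ ^ 2
      ≤ Phi K U c (ξ / 2) := by
  obtain ⟨δ₁, hδ₁, hδ₁', C, hC, hinner⟩ := inner_compare B
  obtain ⟨N', hout⟩ := outQ_bound B
  obtain ⟨C', hC', hell⟩ := ell_bound_NII B.S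
  have hmpos : 0 < ∑ n, B.S.m (B.cp n) := by
    have : Nonempty (Fin B.nv) := ⟨⟨0, B.hnv⟩⟩
    exact Finset.sum_pos (fun n _ => B.S.m_pos _) Finset.univ_nonempty
  refine ⟨δ₁, hδ₁, hδ₁', C, hC, 0.4 * π * ∑ n, B.S.m (B.cp n), by positivity, N' + 5,
    4 * (∑ n, ‖B.p n‖) + 1, ?_⟩
  intro δ R₀ Ξ hδ hδ1 hR hΞ₀ hRΞ
  have hΞ : 0 ≤ Ξ := by linarith
  obtain ⟨ρ1, hρ1⟩ := hinner δ R₀ Ξ hδ hδ1 hR hRΞ
  obtain ⟨ρ2, hρ2⟩ := hout δ R₀ Ξ hδ (hδ1.trans hδ₁') hR hΞ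
  obtain ⟨ρ3, hρ3⟩ := Phi_split2 B δ R₀ Ξ hδ (hδ1.trans hδ₁') hR hΞ
  refine ⟨max (max ρ1 (max ρ2 ρ3)) (max (100 * Ξ) (2 + ((modes B.S).card : ℝ) * C' ^ 2)), ?_⟩
  intro K hK U hU c ξ hξ A N₂ hA hN hN0 hc
  have hK1 : ρ1 ≤ K.ρ := le_trans (le_trans (le_max_left _ _) (le_max_left _ _)) hK
  have hK2 : ρ2 ≤ K.ρ :=
    le_trans (le_trans ((le_max_left _ _).trans (le_max_right _ _)) (le_max_left _ _)) hK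
  have hK3 : ρ3 ≤ K.ρ :=
    le_trans (le_trans ((le_max_right _ _).trans (le_max_right _ _)) (le_max_left _ _)) hK
  have hK4 : 100 * Ξ ≤ K.ρ := le_trans (le_trans (le_max_left _ _) (le_max_right _ _)) hK
  have hK5 : 2 + ((modes B.S).card : ℝ) * C' ^ 2 ≤ K.ρ :=
    le_trans (le_trans (le_max_right _ _) (le_max_right _ _)) hK
  have hρ100 : 100 ≤ K.ρ := K.wall.hρ
  have hε : 0 < K.ε := K.wall.hε
  have hξ' : ‖ξ / 2‖ ≤ Ξ := by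
    rw [norm_div, hξ]
    simp
    linarith
  have e1 := hρ3 K hK3 U hU c ξ hξ.le
  have e2 := hρ3 K hK3 U hU c (ξ / 2) hξ'
  have h1 := hρ1 K hK1 U hU ξ hξ A hA
  have h2 := hρ2 K hK2 U hU c ξ hξ.le N₂ hN hN0 hc
  have h3 := hρ2 K hK2 U hU c (ξ / 2) hξ' N₂ hN hN0 hc
  -- the vortices
  have h4 : 0.1 * K.ε * Ξ ^ 2 * ∑ n, B.S.m (B.cp n)
      ≤ (∑ n, B.S.m (B.cp n) * SS K.F (B.p n - ξ / 2)) - ∑ n, B.S.m (B.cp n) * SS K.F (B.p n - ξ) := by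
    rw [← Finset.sum_sub_distrib, Finset.mul_sum]
    refine Finset.sum_le_sum fun n _ => ?_
    have hpn : ‖B.p n‖ ≤ ∑ n, ‖B.p n‖ :=
      Finset.single_le_sum (f := fun n => ‖B.p n‖) (fun _ _ => norm_nonneg _) (Finset.mem_univ n)
    have hg := P15_geom (B.p n) ξ (by rw [hξ]; linarith)
    rw [hξ] at hg
    have hz : ‖B.p n - ξ / 2‖ ≤ ‖B.p n - ξ‖ := by
      refine le_of_sq_le_sq ?_ (norm_nonneg _)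
      linarith [sq_nonneg Ξ]
    have hz' : ‖B.p n - ξ‖ ≤ K.ρ := by
      refine (norm_sub_le _ _).trans ?_
      rw [hξ]
      have : ‖B.p n‖ ≤ Ξ := by
        have := norm_nonneg (B.p n)
        linarith
      linarith
    have hd := SS_drop K.wall _ _ hz hz'
    have hm := B.S.m_pos (B.cp n)
    have h0 : 0.1 * K.ε * Ξ ^ 2 ≤ SS K.F (B.p n - ξ / 2) - SS K.F (B.p n - ξ) := by
      refine le_trans ?_ hd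
      nlinarith
    linarith [mul_le_mul_of_nonneg_left h0 hm.le]
  -- penalty
  have hNII : NII K.ρ (0.9 * K.ρ) U ≤ N₂ ^ 2 :=
    (NII_mono hU (by linarith) (by linarith)).trans hN
  have h5 : ∑ i ∈ modes B.S, ell K.ρ i ξ U ^ 2
      ≤ ((modes B.S).card : ℝ) * (C' ^ 2 * K.ρ ^ 2 * N₂ ^ 2) := by
    rw [← nsmul_eq_mul]
    refine Finset.sum_le_card_nsmul _ _ _ fun i hi => ?_
    have hb := (hell K.ρ hρ100 i hi ξ ξ (by rw [hξ]; linarith) (by rw [hξ]; linarith) U hU).1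
    have hn0 := NII_nonneg K.ρ (0.9 * K.ρ) U
    calc ell K.ρ i ξ U ^ 2 = |ell K.ρ i ξ U| ^ 2 := (sq_abs _).symm
      _ ≤ (C' * K.ρ * Real.sqrt (NII K.ρ (0.9 * K.ρ) U)) ^ 2 :=
          pow_le_pow_left₀ (abs_nonneg _) hb 2
      _ = C' ^ 2 * K.ρ ^ 2 * NII K.ρ (0.9 * K.ρ) U := by
          rw [mul_pow, mul_pow, Real.sq_sqrt hn0]
      _ ≤ C' ^ 2 * K.ρ ^ 2 * N₂ ^ 2 := mul_le_mul_of_nonneg_left hNII (by positivity)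
  have h6 : 0 ≤ ∑ i ∈ modes B.S, ell K.ρ i (ξ / 2) U ^ 2 :=
    Finset.sum_nonneg fun i _ => sq_nonneg _
  have h7 : 2 * (K.ρ ^ N' * N₂ ^ 2) + K.ρ ^ 2 * (((modes B.S).card : ℝ) * (C' ^ 2 * K.ρ ^ 2 * N₂ ^ 2))
      ≤ K.ρ ^ (N' + 5) * N₂ ^ 2 := by
    have hr1 : (1:ℝ) ≤ K.ρ := by linarith
    have a1 : K.ρ ^ N' ≤ K.ρ ^ (N' + 4) := pow_le_pow_right₀ hr1 (by omega)
    have a2 : K.ρ ^ 4 ≤ K.ρ ^ (N' + 4) := pow_le_pow_right₀ hr1 (by omega)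
    have a3 : (0:ℝ) ≤ ((modes B.S).card : ℝ) * C' ^ 2 := by positivity
    have a4 : 2 * K.ρ ^ N' + ((modes B.S).card : ℝ) * C' ^ 2 * K.ρ ^ 4
        ≤ (2 + ((modes B.S).card : ℝ) * C' ^ 2) * K.ρ ^ (N' + 4) := by
      have := mul_le_mul_of_nonneg_left a2 a3
      linarith
    have a5 : (2 + ((modes B.S).card : ℝ) * C' ^ 2) * K.ρ ^ (N' + 4) ≤ K.ρ * K.ρ ^ (N' + 4) :=
      mul_le_mul_of_nonneg_right hK5 (by positivity)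
    have a6 : K.ρ * K.ρ ^ (N' + 4) = K.ρ ^ (N' + 5) := by ring
    have a7 := mul_le_mul_of_nonneg_right (a4.trans (a5.trans a6.le)) (sq_nonneg N₂)
    calc 2 * (K.ρ ^ N' * N₂ ^ 2) + K.ρ ^ 2 * (((modes B.S).card : ℝ) * (C' ^ 2 * K.ρ ^ 2 * N₂ ^ 2))
        = (2 * K.ρ ^ N' + ((modes B.S).card : ℝ) * C' ^ 2 * K.ρ ^ 4) * N₂ ^ 2 := by ring
      _ ≤ _ := a7
  have h8 : K.ρ ^ 2 * ∑ i ∈ modes B.S, ell K.ρ i ξ U ^ 2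
      ≤ K.ρ ^ 2 * (((modes B.S).card : ℝ) * (C' ^ 2 * K.ρ ^ 2 * N₂ ^ 2)) :=
    mul_le_mul_of_nonneg_left h5 (by positivity)
  have h9 : 0 ≤ K.ρ ^ 2 * ∑ i ∈ modes B.S, ell K.ρ i (ξ / 2) U ^ 2 := by positivity
  have h10 := mul_le_mul_of_nonneg_left h4 (show (0:ℝ) ≤ 4 * π by positivity)
  have h2' := (abs_le.1 h2).2
  have h3' := (abs_le.1 h3).1
  rw [e1, e2]
  have h11 : 4 * π * (0.1 * K.ε * Ξ ^ 2 * ∑ n, B.S.m (B.cp n))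
      = 0.4 * π * (∑ n, B.S.m (B.cp n)) * K.ε * Ξ ^ 2 := by ring
  rw [h11] at h10
  linarith

end Pool.MP_ad5d82_an.Wl
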