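import Pool.Agent.Lib.MP_ad5d82_an.h24.PDefs
import Pool.Agent.Lib.MP_ad5d82_an.h24.P.P7
import Pool.Agent.Lib.MP_ad5d82_an.h24.P.P10
import Pool.Agent.Lib.MP_ad5d82_an.h24.P.P11
import Pool.Agent.Lib.MP_ad5d82_an.h24.P.P13
import Pool.Agent.Lib.MP_ad5d82_an.h24.P.P14
import Pool.Agent.Lib.MP_ad5d82_an.h24.P.P15
import Pool.Agent.Lib.MP_ad5d82_an.h24.P.P0
import Pool.Agent.Lib.MP_ad5d82_an.h24.P.P1
import Pool.Agent.Lib.MP_ad5d82_an.h24.P.P4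
import Pool.Agent.Lib.MP_ad5d82_an.h24.P.P12
import Pool.Agent.Lib.MP_ad5d82_an.h24.W.W1

set_option autoImplicit false

namespace Pool.MP_ad5d82_an.Wl

open Real Set MeasureTheory Filter Topology
open scoped ContDiff

variable {ι : Type} [Fintype ι] [DecidableEq ι]

variable {B : Base ι} {δ R₀ Ξ : ℝ}


/-! ### P16 the critical point -/

/-- exponential beats power. -/
private theorem p16_exp (K : ℝ) (N : ℕ) {κ : ℝ} (hκ : 0 < κ) :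
    ∀ᶠ ρ : ℝ in atTop, K * ρ ^ N * exp (-1.58 * ρ) < κ * exp (-ρ) := by
  have h1 := tendsto_rpow_mul_exp_neg_mul_atTop_nhds_zero (N : ℝ) 0.58 (by norm_num)
  have h2 : Tendsto (fun ρ : ℝ => K * (ρ ^ (N : ℝ) * exp (-0.58 * ρ))) atTop (𝓝 0) := by
    have := h1.const_mul K
    rwa [mul_zero] at this
  filter_upwards [h2.eventually (gt_mem_nhds hκ)] with ρ h
  have e : exp (-1.58 * ρ) = exp (-0.58 * ρ) * exp (-ρ) := by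
    rw [← Real.exp_add]
    congr 1
    ring
  rw [e, ← mul_assoc]
  refine mul_lt_mul_of_pos_right ?_ (Real.exp_pos _)
  rw [Real.rpow_natCast] at h
  linarith

/-- the factor `ε e^{0.18ρ}` is small. -/
private theorem p16_eps (K : ℝ) (hK : 0 ≤ K) {κ : ℝ} (hκ : 0 < κ) :
    ∀ᶠ ρ : ℝ in atTop, ∀ ε : ℝ, ε ≤ exp (-0.4 * (ρ - 16)) → K * ε * exp (0.18 * ρ) ≤ κ := by
  have h1 := tendsto_rpow_mul_exp_neg_mul_atTop_nhds_zero 0 0.22 (by norm_num)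
  have h2 : Tendsto (fun ρ : ℝ => K * exp 6.4 * (ρ ^ (0 : ℝ) * exp (-0.22 * ρ))) atTop (𝓝 0) := by
    have := h1.const_mul (K * exp 6.4)
    rwa [mul_zero] at this
  filter_upwards [h2.eventually (gt_mem_nhds hκ)] with ρ h ε hε
  rw [Real.rpow_zero, one_mul] at h
  have e : exp (-0.4 * (ρ - 16)) * exp (0.18 * ρ) = exp 6.4 * exp (-0.22 * ρ) := by
    rw [← Real.exp_add, ← Real.exp_add]
    congr 1
    ring
  have h3 : K * ε * exp (0.18 * ρ) ≤ K * (exp (-0.4 * (ρ - 16)) * exp (0.18 * ρ)) := by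
    rw [mul_assoc]
    exact mul_le_mul_of_nonneg_left (mul_le_mul_of_nonneg_right hε (Real.exp_pos _).le) hK
  rw [e] at h3
  linarith

private theorem p16_int {U : Fld ι} (hU : IsSob U) (a b : ℝ) :
    ∫ x in {x : ℂ | a ≤ ‖x‖ ∧ ‖x‖ < b}, exp (1.8 * ‖x‖) * ‖(U x).1‖ ^ 2 ≤
      ∫ x in {x : ℂ | a ≤ ‖x‖ ∧ ‖x‖ < b}, exp (1.8 * ‖x‖) * (gsq (U x) + ‖(U x).1‖ ^ 2) := by
  have hms : MeasurableSet {x : ℂ | a ≤ ‖x‖ ∧ ‖x‖ < b} :=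
    (measurableSet_le measurable_const measurable_norm).inter
      (measurableSet_lt measurable_norm measurable_const)
  have hsub : {x : ℂ | a ≤ ‖x‖ ∧ ‖x‖ < b} ⊆ Metric.ball (0 : ℂ) b := by
    intro x hx
    rw [mem_ball_zero_iff]
    exact hx.2
  have i1 : IntegrableOn (fun z => ‖(U z).1‖ ^ 2) {x : ℂ | a ≤ ‖x‖ ∧ ‖x‖ < b} volume :=
    (hU.integrableOn_sq b).mono_set hsub
  have i2 : IntegrableOn (fun z => gsq (U z) + ‖(U z).1‖ ^ 2) {x : ℂ | a ≤ ‖x‖ ∧ ‖x‖ < b} volume :=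
    (hU.integrable_gsq.integrableOn).add i1
  have hc : Continuous fun x : ℂ => exp (1.8 * ‖x‖) := by fun_prop
  have hb : ∀ᵐ x : ℂ ∂(volume.restrict {x : ℂ | a ≤ ‖x‖ ∧ ‖x‖ < b}),
      ‖exp (1.8 * ‖x‖)‖ ≤ exp (1.8 * b) := by
    rw [ae_restrict_iff' hms]
    refine Eventually.of_forall fun x hx => ?_
    rw [Real.norm_eq_abs, abs_of_pos (Real.exp_pos _)]
    refine Real.exp_le_exp.2 ?_
    have := hx.2
    linarith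
  have j1 : IntegrableOn (fun z => exp (1.8 * ‖z‖) * ‖(U z).1‖ ^ 2)
      {x : ℂ | a ≤ ‖x‖ ∧ ‖x‖ < b} volume :=
    Integrable.bdd_mul i1 hc.aestronglyMeasurable hb
  have j2 : IntegrableOn (fun z => exp (1.8 * ‖z‖) * (gsq (U z) + ‖(U z).1‖ ^ 2))
      {x : ℂ | a ≤ ‖x‖ ∧ ‖x‖ < b} volume :=
    Integrable.bdd_mul i2 hc.aestronglyMeasurable hb
  refine integral_mono j1 j2 fun x => ?_
  have hg : 0 ≤ gsq (U x) := by
    unfold gsq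
    positivity
  have := Real.exp_pos (1.8 * ‖x‖)
  show exp (1.8 * ‖x‖) * ‖(U x).1‖ ^ 2 ≤ exp (1.8 * ‖x‖) * (gsq (U x) + ‖(U x).1‖ ^ 2)
  nlinarith [mul_nonneg this.le hg]

/-- For suitable parameters the minimiser has exactly one maximum point, it is interior, the Euler–Lagrange
equation holds, and the energy estimates of P12, P13 are available. -/
theorem critical_point (B : Base ι) : ∃ δ₁ : ℝ, 0 < δ₁ ∧ δ₁ ≤ 1 ∧ ∃ C R₁ : ℝ, 10 ≤ R₁ ∧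
    ∀ δ : ℝ, 0 < δ → δ ≤ δ₁ → ∀ R₀ : ℝ, R₁ ≤ R₀ → ∃ Ξ : ℝ, 1 ≤ Ξ ∧ ∃ C₃ : ℝ, ∃ ρ₀ : ℝ,
    ∀ K : Cfg B δ R₀ Ξ, ρ₀ ≤ K.ρ → ∃ (U : Fld ι) (c : Cc B.S) (ξ : ℂ), IsMinz K U ∧ ‖ξ‖ < Ξ ∧
      (∀ (c' : Cc B.S) (ξ' : ℂ), ‖ξ'‖ ≤ Ξ → Phi K U c' ξ' ≤ Phi K U c ξ) ∧
      (∀ φ : Fld ι, IsSob φ → DPhi K U c ξ φ = 0) ∧
      (∀ c' : Cc B.S, DPhiJ K U c ξ (jet (Cf B.S K.χ c' ξ)) = 0) ∧
      NI (R₀ - 4) (0.9 * K.ρ) U ≤ C * (1 + Real.log R₀) / R₀ ∧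
      (∫ x in {x : ℂ | R₀ ≤ ‖x‖ ∧ ‖x‖ < 0.88 * K.ρ},
        exp (1.8 * ‖x‖) * (gsq (U x) + ‖(U x).1‖ ^ 2)) ≤ C₃ ∧
      NII K.ρ (0.88 * K.ρ) U ≤ C₃ * K.ρ ^ 3 * exp (-1.58 * K.ρ) ∧
      ∑ i, c i ^ 2 ≤ C₃ * K.ρ ^ 5 * exp (-1.58 * K.ρ) := by
  obtain ⟨δa, ha0, ha1, Ra, hRa, hminz⟩ := exists_minz B
  obtain ⟨δb, hb0, hb1, C, Rb, hRb, hsmall⟩ := energy_small B
  obtain ⟨δc, hc0, hc1, Rc, hRc, hagm⟩ := agmon B
  obtain ⟨δd, hd0, hd1, C14, hC14, m14, hm14, N14, hsec⟩ := second_diff B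
  obtain ⟨δe, he0, he1, C15, hC15, m15, hm15, N15, Ξ₀, hint⟩ := interior B
  obtain ⟨C7, hC7, hcb⟩ := max_c_bound B
  refine ⟨min (min δa δb) (min δc (min δd δe)),
    lt_min (lt_min ha0 hb0) (lt_min hc0 (lt_min hd0 he0)),
    ((min_le_left _ _).trans (min_le_left _ _)).trans ha1, C, max (max Ra Rb) (max Rc 10),
    (le_max_right _ _).trans (le_max_right _ _), ?_⟩
  intro δ hδ hδm R₀ hR₀
  have dA : δ ≤ δa := hδm.trans ((min_le_left _ _).trans (min_le_left _ _))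
  have dB : δ ≤ δb := hδm.trans ((min_le_left _ _).trans (min_le_right _ _))
  have dC : δ ≤ δc := hδm.trans ((min_le_right _ _).trans (min_le_left _ _))
  have dD : δ ≤ δd := hδm.trans ((min_le_right _ _).trans ((min_le_right _ _).trans (min_le_left _ _)))
  have dE : δ ≤ δe := hδm.trans ((min_le_right _ _).trans ((min_le_right _ _).trans (min_le_right _ _)))
  have hδ1 : δ ≤ 1 := dA.trans ha1
  have sA : Ra ≤ R₀ := ((le_max_left _ _).trans (le_max_left _ _)).trans hR₀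
  have sB : Rb ≤ R₀ := ((le_max_right _ _).trans (le_max_left _ _)).trans hR₀
  have sC : Rc ≤ R₀ := ((le_max_left _ _).trans (le_max_right _ _)).trans hR₀
  have sD : (10 : ℝ) ≤ R₀ := ((le_max_right _ _).trans (le_max_right _ _)).trans hR₀
  have hR1 : 1 ≤ R₀ := by linarith
  obtain ⟨C₃a, hagm'⟩ := hagm R₀ sC
  obtain ⟨A, hA1, hAC⟩ : ∃ A : ℝ, 1 ≤ A ∧ C₃a ≤ A := ⟨max 1 C₃a, le_max_left _ _, le_max_right _ _⟩
  have hA0 : 0 < A := by linarith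
  obtain ⟨Ξ, x1, x2, x3, x4⟩ : ∃ Ξ : ℝ, 1 ≤ Ξ ∧ Ξ₀ ≤ Ξ ∧ 2 * R₀ ≤ Ξ ∧ (C15 * A + 1) / m15 ≤ Ξ :=
    ⟨max (max 1 Ξ₀) (max (2 * R₀) ((C15 * A + 1) / m15)), (le_max_left _ _).trans (le_max_left _ _),
      (le_max_right _ _).trans (le_max_left _ _), (le_max_left _ _).trans (le_max_right _ _),
      (le_max_right _ _).trans (le_max_right _ _)⟩
  have hΞ0 : 0 ≤ Ξ := by linarith
  have x5 : C15 * A + 1 ≤ m15 * Ξ ^ 2 := by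
    rw [div_le_iff₀ hm15] at x4
    have h1 : Ξ ≤ Ξ ^ 2 := le_self_pow₀ x1 (by norm_num)
    have h2 := mul_le_mul_of_nonneg_left h1 hm15.le
    have h3 : Ξ * m15 = m15 * Ξ := mul_comm _ _
    linarith
  obtain ⟨ρa, fa⟩ := hminz δ R₀ Ξ hδ dA sA hΞ0
  obtain ⟨ρb, fb⟩ := hsmall δ R₀ Ξ hδ dB sB hΞ0
  obtain ⟨ρc, fc⟩ := hagm' δ Ξ hδ dC hΞ0
  obtain ⟨ρd, fd⟩ := hsec δ R₀ Ξ hδ dD hR1 hΞ0
  obtain ⟨ρe, fe⟩ := hint δ R₀ Ξ hδ dE hR1 x2 x3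
  obtain ⟨ρf, ff⟩ := hcb δ R₀ Ξ hδ hδ1 hR1 hΞ0
  obtain ⟨ρg, fg⟩ := exists_max B δ R₀ Ξ hδ hδ1 hR1 hΞ0
  obtain ⟨ρh, fh⟩ := max_c_crit B δ R₀ Ξ hδ hδ1 hR1 hΞ0
  obtain ⟨ρi, fi⟩ := key_lemma B δ R₀ Ξ hδ hδ1 hR1 hΞ0
  set A' : ℝ := A * (1 + C7) with hA'
  have hA'0 : 0 < A' := by positivity
  have hlog2 : 0 < Real.log 2 := Real.log_pos (by norm_num)
  have hc₀ := B.hc₀
  -- large `ρ`
  have hev : ∀ᶠ ρ : ℝ in atTop, (1 ≤ ρ ∧ ρa ≤ ρ ∧ ρb ≤ ρ ∧ ρc ≤ ρ ∧ ρd ≤ ρ ∧ ρe ≤ ρ ∧ ρf ≤ ρ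
      ∧ ρg ≤ ρ ∧ ρh ≤ ρ ∧ ρi ≤ ρ) ∧
      (A' * ρ ^ (N15 + 5) * exp (-1.58 * ρ) < Real.log 2 * exp (-ρ)) ∧
      (∀ ε : ℝ, ε ≤ exp (-0.4 * (ρ - 16)) →
        C14 * A * exp (2 * (R₀ + Ξ)) * ε * exp (0.18 * ρ) ≤ m14 / 4) ∧
      (A' * (1 + 4 * Ξ ^ 2) * ρ ^ (N14 + 5) * exp (-1.58 * ρ) < m14 * Real.log 2 / 4 * exp (-ρ)) ∧
      (4 / B.c₀ * A' * (1 + 2 * Ξ) ^ 2 * ρ ^ (2 * N14 + 5) * exp (-1.58 * ρ)
        < m14 * Real.log 2 / 4 * exp (-ρ)) := by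
    have e1 : ∀ r : ℝ, ∀ᶠ ρ : ℝ in atTop, r ≤ ρ := fun r => eventually_ge_atTop r
    have g1 := p16_exp A' (N15 + 5) hlog2
    have g2 := p16_eps (C14 * A * exp (2 * (R₀ + Ξ))) (by positivity) (κ := m14 / 4) (by positivity)
    have g3 := p16_exp (A' * (1 + 4 * Ξ ^ 2)) (N14 + 5) (κ := m14 * Real.log 2 / 4) (by positivity)
    have g4 := p16_exp (4 / B.c₀ * A' * (1 + 2 * Ξ) ^ 2) (2 * N14 + 5)
      (κ := m14 * Real.log 2 / 4) (by positivity)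
    filter_upwards [e1 1, e1 ρa, e1 ρb, e1 ρc, e1 ρd, e1 ρe, e1 ρf, e1 ρg, e1 ρh, e1 ρi, g1, g2, g3,
      g4] with ρ a0 a1 a2 a3 a4 a5 a6 a7 a8 a9 b1 b2 b3 b4
    exact ⟨⟨a0, a1, a2, a3, a4, a5, a6, a7, a8, a9⟩, b1, b2, b3, b4⟩
  obtain ⟨ρ₀, hρ₀⟩ := eventually_atTop.1 hev
  refine ⟨Ξ, x1, A', ρ₀, fun K hK => ?_⟩
  obtain ⟨⟨t0, t1, t2, t3, t4, t5, t6, t7, t8, t9⟩, b1, b2, b3, b4⟩ := hρ₀ K.ρ hK
  have hρ0 : 0 < K.ρ := by linarith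
  have hε := K.wall.hε
  have hεge : Real.log 2 * exp (-K.ρ) ≤ K.ε := eps_ge K.wall
  have hεle : K.ε ≤ exp (-0.4 * (K.ρ - 16)) := eps_le K.wall
  obtain ⟨U, hU⟩ := fa K t1
  obtain ⟨c, ξ, hmax⟩ := fg K t7 U hU.1
  obtain ⟨-, k1⟩ := fb K t2 U hU
  obtain ⟨k2, k3, k4⟩ := fc K t3 U hU
  have hexp : 0 < exp (-1.58 * K.ρ) := Real.exp_pos _
  -- bound of `N₂`
  set M₂ : ℝ := A' * K.ρ ^ 5 * exp (-1.58 * K.ρ) with hM₂
  have hM₂0 : 0 ≤ M₂ := by positivity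
  have hAA' : A ≤ A' := le_mul_of_one_le_right hA0.le (by linarith)
  have hCA' : C7 * A ≤ A' := by
    have e1 : A' = A + C7 * A := by rw [hA']; ring
    linarith
  have hN3 : NII K.ρ (0.88 * K.ρ) U ≤ A * K.ρ ^ 3 * exp (-1.58 * K.ρ) := by
    refine k3.trans (mul_le_mul_of_nonneg_right ?_ hexp.le)
    exact mul_le_mul_of_nonneg_right hAC (by positivity)
  have hN3' : NII K.ρ (0.88 * K.ρ) U ≤ M₂ := by
    refine hN3.trans ?_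
    rw [hM₂]
    refine mul_le_mul_of_nonneg_right ?_ hexp.le
    have : K.ρ ^ 3 ≤ K.ρ ^ 5 := pow_le_pow_right₀ t0 (by norm_num)
    exact mul_le_mul hAA' this (by positivity) hA'0.le
  have hcsq : ∀ (c' : Cc B.S) (ξ' : ℂ), IsMaxPt K U c' ξ' → ∑ i, c' i ^ 2 ≤ M₂ := by
    intro c' ξ' hm
    have h1 := ff K t6 U hU.1 c' ξ' hm
    have h2 : NII K.ρ (0.9 * K.ρ) U ≤ NII K.ρ (0.88 * K.ρ) U :=
      NII_mono hU.1 t0 (by linarith)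
    have h3 : C7 * K.ρ ^ 2 * NII K.ρ (0.9 * K.ρ) U
        ≤ C7 * K.ρ ^ 2 * (A * K.ρ ^ 3 * exp (-1.58 * K.ρ)) :=
      mul_le_mul_of_nonneg_left (h2.trans hN3) (by positivity)
    refine h1.trans (h3.trans ?_)
    rw [hM₂]
    have h4 : C7 * K.ρ ^ 2 * (A * K.ρ ^ 3 * exp (-1.58 * K.ρ))
        = C7 * A * (K.ρ ^ 5 * exp (-1.58 * K.ρ)) := by ring
    rw [h4, mul_assoc A']
    exact mul_le_mul_of_nonneg_right hCA' (by positivity)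
  set N₂ : ℝ := Real.sqrt M₂ with hN₂
  have hN₂0 : 0 ≤ N₂ := Real.sqrt_nonneg _
  have hN₂sq : N₂ ^ 2 = M₂ := Real.sq_sqrt hM₂0
  have hcN : ∀ (c' : Cc B.S) (ξ' : ℂ), IsMaxPt K U c' ξ' → Real.sqrt (∑ i, c' i ^ 2) ≤ N₂ :=
    fun c' ξ' hm => Real.sqrt_le_sqrt (hcsq c' ξ' hm)
  have hNN : NII K.ρ (0.88 * K.ρ) U ≤ N₂ ^ 2 := by rw [hN₂sq]; exact hN3'
  have hAint : (∫ x in {x : ℂ | R₀ ≤ ‖x‖ ∧ ‖x‖ < 0.88 * K.ρ}, exp (1.8 * ‖x‖) * ‖(U x).1‖ ^ 2) ≤ A :=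
    ((p16_int hU.1 _ _).trans k2).trans hAC
  -- interior
  have hinter : ∀ (c' : Cc B.S) (ξ' : ℂ), IsMaxPt K U c' ξ' → ‖ξ'‖ < Ξ := by
    intro c' ξ' hm
    refine lt_of_le_of_ne hm.1 fun heq => ?_
    have h1 := fe K t5 U hU.1 c' ξ' heq A N₂ hAint hNN hN₂0 (hcN c' ξ' hm)
    have h2 : Phi K U c' (ξ' / 2) ≤ Phi K U c' ξ' := by
      refine hm.2 c' (ξ' / 2) ?_
      rw [norm_div, heq]
      have : ‖(2 : ℂ)‖ = 2 := by simp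
      rw [this]
      linarith
    have h3 : m15 * K.ε * Ξ ^ 2 ≤ C15 * A * K.ε * exp (-0.6 * Ξ) + K.ρ ^ N15 * N₂ ^ 2 := by
      linarith
    have h4 : exp (-0.6 * Ξ) ≤ 1 := by
      rw [Real.exp_le_one_iff]
      linarith
    have h5 : C15 * A * K.ε * exp (-0.6 * Ξ) ≤ C15 * A * K.ε :=
      mul_le_of_le_one_right (by positivity) h4
    have h6 : K.ρ ^ N15 * N₂ ^ 2 = A' * K.ρ ^ (N15 + 5) * exp (-1.58 * K.ρ) := by
      rw [hN₂sq, hM₂, pow_add]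
      ring
    rw [h6] at h3
    have h7 : (C15 * A + 1) * K.ε ≤ m15 * Ξ ^ 2 * K.ε := mul_le_mul_of_nonneg_right x5 hε.le
    have h8 : A' * K.ρ ^ (N15 + 5) * exp (-1.58 * K.ρ) < K.ε := lt_of_lt_of_le b1 hεge
    have h9 : m15 * K.ε * Ξ ^ 2 = m15 * Ξ ^ 2 * K.ε := by ring
    have h10 : (C15 * A + 1) * K.ε = C15 * A * K.ε + K.ε := by ring
    rw [h9] at h3
    rw [h10] at h7
    clear * - h3 h5 h7 h8
    linarith
  -- uniqueness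
  have huniq : ∀ (c' : Cc B.S) (ξ' : ℂ), IsMaxPt K U c' ξ' → c' = c ∧ ξ' = ξ := by
    intro c' ξ' hm
    set d : ℝ := ‖ξ - ξ'‖ with hd
    set D : ℝ := Real.sqrt (∑ i, (c i - c' i) ^ 2) with hD
    have hd0 : 0 ≤ d := norm_nonneg _
    have hD0 : 0 ≤ D := Real.sqrt_nonneg _
    have hd2 : d ≤ 2 * Ξ := by
      have := norm_sub_le ξ ξ'
      have := hmax.1
      have := hm.1
      linarith
    have h1 := fd K t4 U hU.1 c c' ξ ξ' hmax.1 hm.1 A D N₂ (k4.trans hAC) hAint hNN hN₂0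
      (hcN c ξ hmax) (hcN c' ξ' hm) rfl
    rw [← hd] at h1
    have hmid : ‖(ξ + ξ') / 2‖ ≤ Ξ := by
      rw [norm_div]
      have e2 : ‖(2 : ℂ)‖ = 2 := by simp
      rw [e2]
      have := norm_add_le ξ ξ'
      have := hmax.1
      have := hm.1
      linarith
    have h2 := hmax.2 ((1 / 2 : ℝ) • (c + c')) ((ξ + ξ') / 2) hmid
    have h3 : Phi K U c' ξ' = Phi K U c ξ := le_antisymm (hmax.2 c' ξ' hm.1) (hm.2 c ξ hmax.1)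
    have h0 : 0 ≤ Phi K U c ξ + Phi K U c' ξ' - 2 * Phi K U ((1 / 2 : ℝ) • (c + c')) ((ξ + ξ') / 2) := by
      linarith
    have h4 := h0.trans h1
    -- error terms
    have q1 : C14 * A * K.ε ^ 2 * exp (2 * (R₀ + Ξ) + 0.18 * K.ρ) * d ^ 2 ≤ m14 / 4 * K.ε * d ^ 2 := by
      have := b2 K.ε hεle
      refine mul_le_mul_of_nonneg_right ?_ (sq_nonneg _)
      rw [Real.exp_add]
      calc C14 * A * K.ε ^ 2 * (exp (2 * (R₀ + Ξ)) * exp (0.18 * K.ρ))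
          = (C14 * A * exp (2 * (R₀ + Ξ)) * K.ε * exp (0.18 * K.ρ)) * K.ε := by ring
        _ ≤ m14 / 4 * K.ε := mul_le_mul_of_nonneg_right this hε.le
    have q2 : K.ρ ^ N14 * (N₂ ^ 2 * (d ^ 2 + d ^ 4)) ≤ m14 / 4 * K.ε * d ^ 2 := by
      have r1 : d ^ 2 + d ^ 4 ≤ (1 + 4 * Ξ ^ 2) * d ^ 2 := by
        have e1 : d ^ 2 ≤ (2 * Ξ) ^ 2 := pow_le_pow_left₀ hd0 hd2 2
        have e2 := mul_le_mul_of_nonneg_right e1 (sq_nonneg d)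
        have e3 : d ^ 4 = d ^ 2 * d ^ 2 := by ring
        have e4 : (1 + 4 * Ξ ^ 2) * d ^ 2 = d ^ 2 + (2 * Ξ) ^ 2 * d ^ 2 := by ring
        rw [e3, e4]
        exact add_le_add le_rfl e2
      have r2 : K.ρ ^ N14 * N₂ ^ 2 * (1 + 4 * Ξ ^ 2)
          = A' * (1 + 4 * Ξ ^ 2) * K.ρ ^ (N14 + 5) * exp (-1.58 * K.ρ) := by
        rw [hN₂sq, hM₂, pow_add]
        ring
      have r3 : K.ρ ^ N14 * N₂ ^ 2 * (1 + 4 * Ξ ^ 2) ≤ m14 / 4 * K.ε := by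
        rw [r2]
        refine b3.le.trans ?_
        calc m14 * Real.log 2 / 4 * exp (-K.ρ) = m14 / 4 * (Real.log 2 * exp (-K.ρ)) := by ring
          _ ≤ m14 / 4 * K.ε := mul_le_mul_of_nonneg_left hεge (by positivity)
      calc K.ρ ^ N14 * (N₂ ^ 2 * (d ^ 2 + d ^ 4))
          ≤ K.ρ ^ N14 * (N₂ ^ 2 * ((1 + 4 * Ξ ^ 2) * d ^ 2)) := by gcongr
        _ = K.ρ ^ N14 * N₂ ^ 2 * (1 + 4 * Ξ ^ 2) * d ^ 2 := by ring
        _ ≤ m14 / 4 * K.ε * d ^ 2 := mul_le_mul_of_nonneg_right r3 (sq_nonneg _)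
    have q3 : K.ρ ^ N14 * (N₂ * D * (d + d ^ 2)) ≤ 1 / 16 * B.c₀ * D ^ 2 + m14 / 4 * K.ε * d ^ 2 := by
      have r1 : d + d ^ 2 ≤ (1 + 2 * Ξ) * d := by
        have e2 := mul_le_mul_of_nonneg_right hd2 hd0
        have e3 : d ^ 2 = d * d := by ring
        have e4 : (1 + 2 * Ξ) * d = d + 2 * Ξ * d := by ring
        rw [e3, e4]
        exact add_le_add le_rfl e2
      set Y : ℝ := K.ρ ^ N14 * N₂ * ((1 + 2 * Ξ) * d) with hY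
      have r2 : K.ρ ^ N14 * (N₂ * D * (d + d ^ 2)) ≤ D * Y := by
        rw [hY]
        calc K.ρ ^ N14 * (N₂ * D * (d + d ^ 2)) ≤ K.ρ ^ N14 * (N₂ * D * ((1 + 2 * Ξ) * d)) := by
              gcongr
          _ = D * (K.ρ ^ N14 * N₂ * ((1 + 2 * Ξ) * d)) := by ring
      have r3 : D * Y ≤ 1 / 16 * B.c₀ * D ^ 2 + 4 / B.c₀ * Y ^ 2 := by
        have h5 : 0 ≤ (B.c₀ * D - 8 * Y) ^ 2 / (16 * B.c₀) := by positivity
        have h6 : (B.c₀ * D - 8 * Y) ^ 2 / (16 * B.c₀)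
            = 1 / 16 * B.c₀ * D ^ 2 + 4 / B.c₀ * Y ^ 2 - D * Y := by
          field_simp
          ring
        rw [h6] at h5
        exact sub_nonneg.1 h5
      have r4 : 4 / B.c₀ * Y ^ 2
          = (4 / B.c₀ * A' * (1 + 2 * Ξ) ^ 2 * K.ρ ^ (2 * N14 + 5) * exp (-1.58 * K.ρ)) * d ^ 2 := by
        have e1 : Y ^ 2 = (K.ρ ^ N14) ^ 2 * N₂ ^ 2 * ((1 + 2 * Ξ) ^ 2 * d ^ 2) := by
          rw [hY]; ring
        rw [e1, hN₂sq, hM₂, pow_add, pow_mul']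
        ring
      have r5 : 4 / B.c₀ * A' * (1 + 2 * Ξ) ^ 2 * K.ρ ^ (2 * N14 + 5) * exp (-1.58 * K.ρ)
          ≤ m14 / 4 * K.ε := by
        refine b4.le.trans ?_
        calc m14 * Real.log 2 / 4 * exp (-K.ρ) = m14 / 4 * (Real.log 2 * exp (-K.ρ)) := by ring
          _ ≤ m14 / 4 * K.ε := mul_le_mul_of_nonneg_left hεge (by positivity)
      have r6 := mul_le_mul_of_nonneg_right r5 (sq_nonneg d)
      rw [← r4] at r6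
      linarith only [r2, r3, r6]
    have q4 : 1 / 16 * B.c₀ * D ^ 2 + m14 / 4 * K.ε * d ^ 2 ≤ 0 := by
      have e1 : K.ρ ^ N14 * (N₂ ^ 2 * (d ^ 2 + d ^ 4) + N₂ * D * (d + d ^ 2))
          = K.ρ ^ N14 * (N₂ ^ 2 * (d ^ 2 + d ^ 4)) + K.ρ ^ N14 * (N₂ * D * (d + d ^ 2)) := by ring
      rw [e1] at h4
      linarith only [h4, q1, q2, q3]
    have p1 : 0 ≤ B.c₀ * D ^ 2 := by positivity
    have p2 : 0 ≤ m14 / 4 * K.ε * d ^ 2 := by positivity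
    have hDz : D ^ 2 = 0 := by
      have : B.c₀ * D ^ 2 = 0 := by linarith only [q4, p1, p2]
      exact (mul_eq_zero.1 this).resolve_left hc₀.ne'
    have hdz : d ^ 2 = 0 := by
      have : m14 / 4 * K.ε * d ^ 2 = 0 := by linarith only [q4, p1, p2]
      exact (mul_eq_zero.1 this).resolve_left (by positivity)
    constructor
    · have h5 : ∑ i, (c i - c' i) ^ 2 = 0 := by
        rw [hD, Real.sq_sqrt (Finset.sum_nonneg fun i _ => sq_nonneg _)] at hDz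
        exact hDz
      funext i
      have h6 := (Finset.sum_eq_zero_iff_of_nonneg (fun i _ => sq_nonneg _)).1 h5 i (Finset.mem_univ i)
      have h7 : c i - c' i = 0 := pow_eq_zero_iff (two_ne_zero) |>.1 h6
      exact (sub_eq_zero.1 h7).symm
    · have h5 : d = 0 := pow_eq_zero_iff (two_ne_zero) |>.1 hdz
      rw [hd, norm_eq_zero, sub_eq_zero] at h5
      exact h5.symm
  have hpos : ∀ φ : Fld ι, IsSob φ → 0 ≤ DPhi K U c ξ φ := by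
    intro φ hφ
    obtain ⟨c', ξ', hm, hD⟩ := fi K t9 U hU φ hφ
    obtain ⟨e1, e2⟩ := huniq c' ξ' hm
    rw [e1, e2] at hD
    exact hD
  refine ⟨U, c, ξ, hU, hinter c ξ hmax, hmax.2, ?_, fh K t8 U hU.1 c ξ hmax, ?_, ?_, ?_, ?_⟩
  · intro φ hφ
    have h1 := hpos φ hφ
    have h2 := hpos (-φ) hφ.neg
    rw [DPhi_neg] at h2
    linarith only [h1, h2]
  · have h1 : 0 ≤ (K.ρ ^ 3)⁻¹ * NII K.ρ (0.9 * K.ρ) U :=
      mul_nonneg (by positivity) (NII_nonneg _ _ _)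
    linarith
  · exact (k2.trans hAC).trans hAA'
  · refine hN3.trans (mul_le_mul_of_nonneg_right ?_ hexp.le)
    exact mul_le_mul_of_nonneg_right hAA' (by positivity)
  · exact hcsq c ξ hmax

end Pool.MP_ad5d82_an.Wl
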