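import Pool.Agent.Lib.MP_ad5d82_an.h24.PDefs
import Pool.Agent.Lib.MP_ad5d82_an.h24.H.H1
import Pool.Agent.Lib.MP_ad5d82_an.h24.H.H8b
import Pool.Agent.Lib.MP_ad5d82_an.h24.H.H9
import Pool.Agent.Lib.MP_ad5d82_an.h24.R.R3
import Pool.Agent.Lib.MP_ad5d82_an.h24.P.P0
import Pool.Agent.Lib.MP_ad5d82_an.h24.P.P1
import Pool.Agent.Lib.MP_ad5d82_an.h24.P.P2
import Pool.Agent.Lib.MP_ad5d82_an.h24.P.P3b
import Pool.Agent.Lib.MP_ad5d82_an.h24.P.P4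

set_option autoImplicit false

namespace Pool.MP_ad5d82_an.Wl

open Real Set MeasureTheory Filter Topology
open scoped ContDiff

variable {ι : Type} [Fintype ι] [DecidableEq ι]

variable {B : Base ι} {δ R₀ Ξ : ℝ}


/-! ### P17a scalar form of the Euler–Lagrange equation -/
/-- right-hand side of the scalar equations -/
noncomputable def rhsj (K : Cfg B δ R₀ Ξ) (U : Fld ι) (c : Cc B.S) (ξ : ℂ) (j : ι) (x : ℂ) : ℝ :=
  (B.S.μ j : ℝ) * fderiv ℝ (pot B δ R₀ K.ρ x (SS K.F (x - ξ))) (GG K U c ξ x).1 (bv j)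
    + (g0 B x) j + 2 * K.ρ ^ 2 * (B.S.μ j : ℝ) * ∑ i ∈ modes B.S,
      ell K.ρ i ξ U * (if i.1 = j then om (‖x - ξ‖ - K.ρ) * trig i.2.1 i.2.2 (x - ξ) else 0)

private theorem P17a_isTest (j : ι) {φ : ℂ → ℝ} (hφ : IsTestR φ) :
    IsTest (fun x => φ x • (bv j : Ev ι)) := by
  refine ⟨hφ.1.smul contDiff_const, hφ.2.smul_right⟩

private theorem P17a_fderiv (j : ι) {φ : ℂ → ℝ} (hφ : IsTestR φ) (x k : ℂ) :
    fderiv ℝ (fun x => φ x • (bv j : Ev ι)) x k = fderiv ℝ φ x k • bv j := by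
  have hd : DifferentiableAt ℝ φ x := (hφ.1.differentiable (by simp)).differentiableAt
  rw [fderiv_smul_const hd]
  rfl

private theorem P17a_bv (i j : ι) : (bv j : Ev ι) i = if i = j then 1 else 0 := by
  simp [bv]

private theorem P17a_mu_pos (S : Sys ι) (j : ι) : (0 : ℝ) < (S.μ j : ℝ) := by
  by_cases h : j = S.o
  · rw [h, S.μ_o]; norm_num
  · have := S.one_lt j h
    exact_mod_cast (by omega : 0 < S.μ j)

theorem EL_scalar (B : Base ι) (δ R₀ Ξ : ℝ) (hδ : 0 < δ) (hδ1 : δ ≤ 1) (hR : 1 ≤ R₀) (hΞ : 0 ≤ Ξ) :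
    ∃ ρ₀ : ℝ, ∀ K : Cfg B δ R₀ Ξ, ρ₀ ≤ K.ρ → ∀ U : Fld ι, IsSob U → ∀ (c : Cc B.S) (ξ : ℂ), ‖ξ‖ ≤ Ξ →
    (∀ φ : Fld ι, IsSob φ → DPhi K U c ξ φ = 0) → ∀ (j : ι) (φ : ℂ → ℝ), IsTestR φ →
    ∫ x, ((GG K U c ξ x).2.1 j * fderiv ℝ φ x 1 + (GG K U c ξ x).2.2 j * fderiv ℝ φ x Complex.I)
      = -∫ x, rhsj K U c ξ j x * φ x := by
  obtain ⟨ρ₀, hρ₀⟩ := phi_integrable B δ R₀ Ξ hδ hδ1 hR hΞ
  refine ⟨ρ₀, fun K hK U hU c ξ hξ hEL j φ hφ => ?_⟩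
  set J : Fld ι := jet (fun x => φ x • (bv j : Ev ι)) with hJ
  have hJS : IsSob J := isSob_jet (P17a_isTest j hφ)
  have hG : IsSob (GG K U c ξ) := isSob_GG K hU c ξ
  have hμ := P17a_mu_pos B.S j
  have hμ' : (B.S.μ j : ℝ) * (B.S.μ j : ℝ)⁻¹ = 1 := mul_inv_cancel₀ hμ.ne'
  have h0 := hEL J hJS
  have hJ1 : ∀ x, (J x).1 = φ x • (bv j : Ev ι) := fun x => rfl
  have hJ2 : ∀ x, (J x).2.1 = fderiv ℝ φ x 1 • (bv j : Ev ι) := fun x => P17a_fderiv j hφ x 1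
  have hJ3 : ∀ x, (J x).2.2 = fderiv ℝ φ x Complex.I • (bv j : Ev ι) := fun x =>
    P17a_fderiv j hφ x Complex.I
  have e1 : ∀ x, gPb B.S (GG K U c ξ x) (J x) = (B.S.μ j : ℝ)⁻¹ *
      ((GG K U c ξ x).2.1 j * fderiv ℝ φ x 1 + (GG K U c ξ x).2.2 j * fderiv ℝ φ x Complex.I) := by
    intro x
    unfold gPb
    rw [Finset.sum_eq_single j]
    · rw [hJ2, hJ3]
      simp only [PiLp.smul_apply, smul_eq_mul, P17a_bv, if_true, mul_one]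
    · intro i _ hi
      rw [hJ2, hJ3]
      simp only [PiLp.smul_apply, smul_eq_mul, P17a_bv, if_neg hi, mul_zero, add_zero]
    · intro h; exact absurd (Finset.mem_univ j) h
  have e2 : ∀ x, fderiv ℝ (pot B δ R₀ K.ρ x (SS K.F (x - ξ))) (GG K U c ξ x).1 (J x).1 =
      φ x * fderiv ℝ (pot B δ R₀ K.ρ x (SS K.F (x - ξ))) (GG K U c ξ x).1 (bv j) := by
    intro x
    rw [hJ1, map_smul, smul_eq_mul]
  have e3 : ∀ x, pP B.S (g0 B x) (J x).1 = (B.S.μ j : ℝ)⁻¹ * ((g0 B x) j * φ x) := by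
    intro x
    unfold pP
    rw [Finset.sum_eq_single j]
    · rw [hJ1]
      simp only [PiLp.smul_apply, smul_eq_mul, P17a_bv, if_true, mul_one]
    · intro i _ hi
      rw [hJ1]
      simp only [PiLp.smul_apply, smul_eq_mul, P17a_bv, if_neg hi, mul_zero]
    · intro h; exact absurd (Finset.mem_univ j) h
  have e4 : ∀ i : ι × ℕ × Bool, ∀ x, om (‖x - ξ‖ - K.ρ) * trig i.2.1 i.2.2 (x - ξ) * (J x).1 i.1 =
      (if i.1 = j then om (‖x - ξ‖ - K.ρ) * trig i.2.1 i.2.2 (x - ξ) else 0) * φ x := by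
    intro i x
    rw [hJ1]
    simp only [PiLp.smul_apply, smul_eq_mul, P17a_bv]
    split_ifs <;> ring
  have i2 := ((hρ₀ K hK _ hG ξ hξ).2.2.2 J hJS).2
  have i3 := (hρ₀ K hK _ hJS ξ hξ).2.2.1
  have i4 : ∀ i : ι × ℕ × Bool, Integrable (fun x : ℂ => om (‖x - ξ‖ - K.ρ) *
      trig i.2.1 i.2.2 (x - ξ) * (J x).1 i.1) volume := fun i => ell_integrable K.ρ i ξ hJS
  have key : ∫ x, rhsj K U c ξ j x * φ x =
      (B.S.μ j : ℝ) * (∫ x, fderiv ℝ (pot B δ R₀ K.ρ x (SS K.F (x - ξ))) (GG K U c ξ x).1 (J x).1)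
      + (B.S.μ j : ℝ) * (∫ x, pP B.S (g0 B x) (J x).1)
      + (B.S.μ j : ℝ) * (2 * K.ρ ^ 2 * ∑ i ∈ modes B.S, ell K.ρ i ξ U * ell K.ρ i ξ J) := by
    have hpt : ∀ x, rhsj K U c ξ j x * φ x =
        ((B.S.μ j : ℝ) * fderiv ℝ (pot B δ R₀ K.ρ x (SS K.F (x - ξ))) (GG K U c ξ x).1 (J x).1
        + (B.S.μ j : ℝ) * pP B.S (g0 B x) (J x).1)
        + ∑ i ∈ modes B.S, ((B.S.μ j : ℝ) * (2 * K.ρ ^ 2) * ell K.ρ i ξ U) *
          (om (‖x - ξ‖ - K.ρ) * trig i.2.1 i.2.2 (x - ξ) * (J x).1 i.1) := by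
      intro x
      rw [e2, e3]
      simp_rw [e4]
      unfold rhsj
      have hs : ∑ i ∈ modes B.S, ((B.S.μ j : ℝ) * (2 * K.ρ ^ 2) * ell K.ρ i ξ U) *
          ((if i.1 = j then om (‖x - ξ‖ - K.ρ) * trig i.2.1 i.2.2 (x - ξ) else 0) * φ x) =
          (2 * K.ρ ^ 2 * (B.S.μ j : ℝ) * ∑ i ∈ modes B.S,
          ell K.ρ i ξ U * (if i.1 = j then om (‖x - ξ‖ - K.ρ) * trig i.2.1 i.2.2 (x - ξ) else 0))
            * φ x := by
        rw [Finset.mul_sum, Finset.sum_mul]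
        apply Finset.sum_congr rfl
        intro i _
        ring
      rw [hs]
      have h5 : (B.S.μ j : ℝ) * ((B.S.μ j : ℝ)⁻¹ * ((g0 B x) j * φ x)) = (g0 B x) j * φ x := by
        rw [← mul_assoc, hμ', one_mul]
      rw [h5]
      ring
    simp_rw [hpt]
    have i2' := i2.const_mul (B.S.μ j : ℝ)
    have i3' := i3.const_mul (B.S.μ j : ℝ)
    have i4' : ∀ i ∈ modes B.S, Integrable (fun x : ℂ =>
        ((B.S.μ j : ℝ) * (2 * K.ρ ^ 2) * ell K.ρ i ξ U) *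
          (om (‖x - ξ‖ - K.ρ) * trig i.2.1 i.2.2 (x - ξ) * (J x).1 i.1)) volume := fun i _ =>
      (i4 i).const_mul _
    have i23 : Integrable (fun x =>
        (B.S.μ j : ℝ) * fderiv ℝ (pot B δ R₀ K.ρ x (SS K.F (x - ξ))) (GG K U c ξ x).1 (J x).1
        + (B.S.μ j : ℝ) * pP B.S (g0 B x) (J x).1) volume := i2'.add i3'
    rw [integral_add i23 (integrable_finsetSum _ i4'), integral_add i2' i3',
      integral_finsetSum _ i4', integral_const_mul, integral_const_mul]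
    simp_rw [integral_const_mul]
    congr 1
    rw [Finset.mul_sum, Finset.mul_sum]
    apply Finset.sum_congr rfl
    intro i _
    unfold ell
    ring
  rw [key]
  have h1 : ∫ x, gPb B.S (GG K U c ξ x) (J x) = (B.S.μ j : ℝ)⁻¹ *
      ∫ x, ((GG K U c ξ x).2.1 j * fderiv ℝ φ x 1 + (GG K U c ξ x).2.2 j * fderiv ℝ φ x Complex.I) := by
    simp_rw [e1]
    rw [integral_const_mul]
  have h2 : ∫ x, ((GG K U c ξ x).2.1 j * fderiv ℝ φ x 1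
      + (GG K U c ξ x).2.2 j * fderiv ℝ φ x Complex.I) =
      (B.S.μ j : ℝ) * ∫ x, gPb B.S (GG K U c ξ x) (J x) := by
    rw [h1, ← mul_assoc, hμ', one_mul]
  rw [h2]
  unfold DPhi DPhiJ at h0
  linear_combination (B.S.μ j : ℝ) * h0

private theorem P17a_om (t : ℝ) : |om t| ≤ 1 := by
  unfold om
  rw [abs_of_nonneg (Real.smoothTransition.nonneg _)]
  exact Real.smoothTransition.le_one _

private theorem P17a_trig (k : ℕ) (b : Bool) (z : ℂ) : |trig k b z| ≤ 1 := by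
  have h1 : ‖(z / (‖z‖ : ℂ)) ^ k‖ ≤ 1 := by
    rw [norm_pow, norm_div, Complex.norm_real, norm_norm]
    apply pow_le_one₀
    · positivity
    · exact div_self_le_one _
  unfold trig
  split_ifs
  · exact (Complex.abs_re_le_norm _).trans h1
  · exact (Complex.abs_im_le_norm _).trans h1

private theorem P17a_om_meas : Measurable om := by
  unfold om
  exact (Real.smoothTransition.continuous.comp (by fun_prop)).measurable

private theorem P17a_trig_meas (k : ℕ) (b : Bool) : Measurable (trig k b) := by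
  have h1 : Measurable (fun z : ℂ => (z / (‖z‖ : ℂ)) ^ k) := by
    apply Measurable.pow_const
    apply Measurable.div measurable_id
    exact Complex.measurable_ofReal.comp measurable_norm
  unfold trig
  cases b
  · simpa [Function.comp_def] using Complex.measurable_im.comp h1
  · simpa [Function.comp_def] using Complex.measurable_re.comp h1

theorem P17a_bound (B : Base ι) (δ R₀ Ξ : ℝ) (hδ : 0 < δ) (hδ1 : δ ≤ 1) (hR : 1 ≤ R₀)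
    (hΞ : 0 ≤ Ξ) :
    ∃ ρ₀ : ℝ, ∀ K : Cfg B δ R₀ Ξ, ρ₀ ≤ K.ρ → ∀ U : Fld ι, ∀ (c : Cc B.S) (ξ : ℂ), ‖ξ‖ ≤ Ξ →
    ∀ j, ∃ D : ℝ, 0 < D ∧ ∀ x, |rhsj K U c ξ j x| ≤ D * exp (D * ‖(GG K U c ξ x).1‖) := by
  obtain ⟨ρ₀, hρ₀⟩ := pot_bounds B δ R₀ Ξ hδ hδ1 hR hΞ
  obtain ⟨Cg, hCg⟩ := g0_bound B
  refine ⟨ρ₀, fun K hK U c ξ hξ j => ?_⟩
  obtain ⟨C, hC, hb⟩ := hρ₀ K hK
  have hμ := P17a_mu_pos B.S j
  set E : ℝ := ∑ i ∈ modes B.S, |ell K.ρ i ξ U| with hE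
  have hE0 : 0 ≤ E := Finset.sum_nonneg fun i _ => abs_nonneg _
  have hCg0 : 0 ≤ Cg := (norm_nonneg _).trans (hCg 0)
  set D : ℝ := (B.S.μ j : ℝ) * C + Cg + 2 * K.ρ ^ 2 * (B.S.μ j : ℝ) * E + C + 1 with hD
  have hDpos : 0 < D := by positivity
  refine ⟨D, hDpos, fun x => ?_⟩
  set G := (GG K U c ξ x).1 with hG
  have hbv : ‖(bv j : Ev ι)‖ = 1 := by simp [bv]
  have hexp1 : 1 ≤ exp (D * ‖G‖) := Real.one_le_exp (by positivity)
  -- the potential part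
  have hpot : |fderiv ℝ (pot B δ R₀ K.ρ x (SS K.F (x - ξ))) G (bv j)| ≤ C * exp (D * ‖G‖) := by
    rcases lt_or_ge ‖x‖ R₀ with hx | hx
    · have h1 := ((hb ξ hξ x G (bv j)).1 hx).2.1
      rw [hbv, mul_one] at h1
      refine h1.trans ?_
      apply mul_le_mul_of_nonneg_left _ hC.le
      apply Real.exp_le_exp.mpr
      apply mul_le_mul_of_nonneg_right _ (norm_nonneg _)
      have : 0 ≤ (B.S.μ j : ℝ) * C + Cg + 2 * K.ρ ^ 2 * (B.S.μ j : ℝ) * E := by positivity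
      linarith
    · have h1 := ((hb ξ hξ x G (bv j)).2 hx).2.1
      rw [hbv, mul_one] at h1
      refine h1.trans ?_
      rw [mul_assoc]
      apply mul_le_mul_of_nonneg_left _ hC.le
      have h2 : wt x * ‖G‖ ≤ 1 * ‖G‖ := mul_le_mul_of_nonneg_right (wt_le_one x) (norm_nonneg _)
      have h3 : ‖G‖ ≤ D * ‖G‖ := by
        have : 1 ≤ D := by
          have : 0 ≤ (B.S.μ j : ℝ) * C + Cg + 2 * K.ρ ^ 2 * (B.S.μ j : ℝ) * E + C := by positivity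
          linarith
        nlinarith [norm_nonneg G]
      have h4 := Real.add_one_le_exp (D * ‖G‖)
      linarith
  have hg : |(g0 B x) j| ≤ Cg := by
    have h1 : ‖(g0 B x) j‖ ≤ ‖g0 B x‖ := PiLp.norm_apply_le _ _
    rw [Real.norm_eq_abs] at h1
    exact h1.trans (hCg x)
  have hsum : |∑ i ∈ modes B.S, ell K.ρ i ξ U *
      (if i.1 = j then om (‖x - ξ‖ - K.ρ) * trig i.2.1 i.2.2 (x - ξ) else 0)| ≤ E := by
    refine (Finset.abs_sum_le_sum_abs _ _).trans ?_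
    apply Finset.sum_le_sum
    intro i _
    rw [abs_mul]
    have h1 : |(if i.1 = j then om (‖x - ξ‖ - K.ρ) * trig i.2.1 i.2.2 (x - ξ) else 0)| ≤ 1 := by
      split_ifs
      · rw [abs_mul]
        exact mul_le_one₀ (P17a_om _) (abs_nonneg _) (P17a_trig _ _ _)
      · simp
    calc _ ≤ |ell K.ρ i ξ U| * 1 := mul_le_mul_of_nonneg_left h1 (abs_nonneg _)
      _ = _ := mul_one _
  unfold rhsj
  refine (abs_add_le _ _).trans ?_
  refine (add_le_add (abs_add_le _ _) le_rfl).trans ?_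
  rw [abs_mul, abs_of_pos hμ, abs_mul, abs_of_nonneg (by positivity : 0 ≤ 2 * K.ρ ^ 2 * (B.S.μ j : ℝ))]
  have t1 := mul_le_mul_of_nonneg_left hpot hμ.le
  have t2 := mul_le_mul_of_nonneg_left hsum (by positivity : 0 ≤ 2 * K.ρ ^ 2 * (B.S.μ j : ℝ))
  have t3 : Cg ≤ Cg * exp (D * ‖G‖) := by nlinarith
  have t4 : 2 * K.ρ ^ 2 * (B.S.μ j : ℝ) * E ≤ 2 * K.ρ ^ 2 * (B.S.μ j : ℝ) * E * exp (D * ‖G‖) := by
    have : 0 ≤ 2 * K.ρ ^ 2 * (B.S.μ j : ℝ) * E := by positivity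
    nlinarith
  have t5 : 0 ≤ (C + 1) * exp (D * ‖G‖) := by positivity
  calc _ ≤ (B.S.μ j : ℝ) * (C * exp (D * ‖G‖)) + Cg * exp (D * ‖G‖)
        + 2 * K.ρ ^ 2 * (B.S.μ j : ℝ) * E * exp (D * ‖G‖) + (C + 1) * exp (D * ‖G‖) := by linarith
    _ = D * exp (D * ‖G‖) := by rw [hD]; ring

theorem rhsj_meas (B : Base ι) (δ R₀ Ξ : ℝ) (hδ : 0 < δ) (hδ1 : δ ≤ 1) (hR : 1 ≤ R₀) (hΞ : 0 ≤ Ξ) :
    ∃ ρ₀ : ℝ, ∀ K : Cfg B δ R₀ Ξ, ρ₀ ≤ K.ρ → ∀ U : Fld ι, IsSob U → ∀ (c : Cc B.S) (ξ : ℂ), ‖ξ‖ ≤ Ξ →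
    ∀ j, AEStronglyMeasurable (rhsj K U c ξ j) volume ∧
      ∀ (x₀ : ℂ) (R : ℝ), IntegrableOn (fun x => rhsj K U c ξ j x ^ 2) (Metric.ball x₀ R) volume := by
  obtain ⟨ρ₀, hρ₀⟩ := P17a_bound B δ R₀ Ξ hδ hδ1 hR hΞ
  refine ⟨max ρ₀ 1, fun K hK U hU c ξ hξ j => ?_⟩
  have hρpos : 0 < K.ρ := by
    have := (le_max_right ρ₀ 1).trans hK
    linarith
  have hG : IsSob (GG K U c ξ) := isSob_GG K hU c ξ
  have hGm : AEStronglyMeasurable (fun x => (GG K U c ξ x).1) volume := hG.1.fst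
  have hSm : Measurable (fun x : ℂ => SS K.F (x - ξ)) :=
    ((SS_smooth K.wall).continuous.comp (by fun_prop)).measurable
  have hmeas : AEStronglyMeasurable (rhsj K U c ξ j) volume := by
    unfold rhsj
    refine AEStronglyMeasurable.add (AEStronglyMeasurable.add ?_ ?_) ?_
    · exact (dpot_meas B hδ hρpos hSm hGm aestronglyMeasurable_const).const_mul _
    · have h1 : Continuous (fun x => (g0 B x) j) :=
        (EuclideanSpace.proj j : Ev ι →L[ℝ] ℝ).continuous.comp (g0_smooth B).continuous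
      exact h1.aestronglyMeasurable
    · apply AEStronglyMeasurable.const_mul
      apply Measurable.aestronglyMeasurable
      apply Finset.measurable_sum
      intro i _
      apply Measurable.const_mul
      by_cases hij : i.1 = j
      · simp only [hij, if_true]
        apply Measurable.mul
        · exact P17a_om_meas.comp (by fun_prop)
        · exact (P17a_trig_meas _ _).comp (by fun_prop)
      · simp only [hij, if_false]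
        exact measurable_const
  refine ⟨hmeas, fun x₀ R => ?_⟩
  obtain ⟨D, hD, hb⟩ := hρ₀ K ((le_max_left _ _).trans hK) U c ξ hξ j
  have hint := (exp_integrable hG (2 * D) (‖x₀‖ + R)).const_mul (D ^ 2)
  have hsub : Metric.ball x₀ R ⊆ Metric.ball (0 : ℂ) (‖x₀‖ + R) := by
    intro x hx
    rw [Metric.mem_ball, dist_eq_norm] at hx
    rw [mem_ball_zero_iff]
    calc ‖x‖ = ‖x₀ + (x - x₀)‖ := by congr 1; ring
      _ ≤ ‖x₀‖ + ‖x - x₀‖ := norm_add_le _ _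
      _ < _ := by linarith
  refine Integrable.mono' (IntegrableOn.mono_set hint hsub) ?_ ?_
  · exact (hmeas.pow 2).restrict
  · apply Filter.Eventually.of_forall
    intro x
    rw [Real.norm_eq_abs, abs_of_nonneg (sq_nonneg _), ← sq_abs]
    calc |rhsj K U c ξ j x| ^ 2 ≤ (D * exp (D * ‖(GG K U c ξ x).1‖)) ^ 2 :=
          pow_le_pow_left₀ (abs_nonneg _) (hb x) 2
      _ = D ^ 2 * exp (2 * D * ‖(GG K U c ξ x).1‖) := by
          rw [mul_pow, ← Real.exp_nat_mul]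
          congr 2
          push_cast
          ring

/-! ### shared tools for P17b, P17c, P17d -/

theorem P17a_mu_pos' (S : Sys ι) (j : ι) : (0 : ℝ) < (S.μ j : ℝ) := P17a_mu_pos S j

theorem P17a_norm_bv (j : ι) : ‖(bv j : Ev ι)‖ = 1 := by simp [bv]

theorem P17a_om_zero (t : ℝ) (ht : 3 / 4 ≤ |t|) : om t = 0 := by
  unfold om
  apply Real.smoothTransition.zero_of_nonpos
  have h1 : (3 / 4 : ℝ) ^ 2 ≤ |t| ^ 2 := pow_le_pow_left₀ (by norm_num) ht 2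
  rw [sq_abs] at h1
  linarith

/-- covering by countably many balls of fixed radius. -/
theorem P17a_ae_cover {A : Set ℂ} {P : ℂ → Prop} {r : ℝ} (hr : 0 < r)
    (h : ∀ x₀ : ℂ, (∃ y ∈ A, ‖y - x₀‖ < r) → ∀ᵐ x : ℂ, x ∈ Metric.ball x₀ r → P x) :
    ∀ᵐ x : ℂ, x ∈ A → P x := by
  have h1 : ∀ᵐ x : ℂ, ∀ n : ℕ, (∃ y ∈ A, ‖y - TopologicalSpace.denseSeq ℂ n‖ < r) →
      x ∈ Metric.ball (TopologicalSpace.denseSeq ℂ n) r → P x := by
    rw [ae_all_iff]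
    intro n
    by_cases hn : ∃ y ∈ A, ‖y - TopologicalSpace.denseSeq ℂ n‖ < r
    · filter_upwards [h _ hn] with x hx _ hxb
      exact hx hxb
    · exact Filter.Eventually.of_forall fun x hx => absurd hx hn
  filter_upwards [h1] with x hx hxA
  obtain ⟨n, hn⟩ := (TopologicalSpace.denseRange_denseSeq ℂ).exists_dist_lt x hr
  rw [dist_eq_norm] at hn
  exact hx n ⟨x, hxA, hn⟩ (by rw [Metric.mem_ball, dist_eq_norm]; exact hn)

/-- local supremum bound for the full unknown. -/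
theorem P17a_local : ∃ Cl : ℝ, 0 < Cl ∧ ∀ (B : Base ι) (δ R₀ Ξ : ℝ), 0 < δ → δ ≤ 1 → 1 ≤ R₀ →
    0 ≤ Ξ → ∃ ρ₀ : ℝ, ∀ K : Cfg B δ R₀ Ξ, ρ₀ ≤ K.ρ → ∀ U : Fld ι, IsSob U → ∀ (c : Cc B.S) (ξ : ℂ),
    ‖ξ‖ ≤ Ξ → (∀ φ : Fld ι, IsSob φ → DPhi K U c ξ φ = 0) → ∀ (j : ι) (R : ℝ) (x₀ : ℂ), 0 < R →
    ∀ᵐ x : ℂ, x ∈ Metric.ball x₀ (R / 2) → |(GG K U c ξ x).1 j| ≤
      Cl * (R * Real.sqrt (∫ z in Metric.ball x₀ R, rhsj K U c ξ j z ^ 2)
        + Real.sqrt (∫ z in Metric.ball x₀ R, gsq (GG K U c ξ z))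
        + R⁻¹ * Real.sqrt (∫ z in Metric.ball x₀ R, ‖(GG K U c ξ z).1‖ ^ 2)) := by
  obtain ⟨C, hC⟩ := local_sup (ι := ι)
  refine ⟨|C| + 1, by positivity, fun B δ R₀ Ξ hδ hδ1 hR hΞ => ?_⟩
  obtain ⟨ρ₁, h1⟩ := EL_scalar B δ R₀ Ξ hδ hδ1 hR hΞ
  obtain ⟨ρ₂, h2⟩ := rhsj_meas B δ R₀ Ξ hδ hδ1 hR hΞ
  refine ⟨max ρ₁ ρ₂, fun K hK U hU c ξ hξ hEL j R x₀ hR0 => ?_⟩
  have hG : IsSob (GG K U c ξ) := isSob_GG K hU c ξ
  obtain ⟨hm, hi⟩ := h2 K ((le_max_right _ _).trans hK) U hU c ξ hξ j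
  have h3 := hC R hR0 x₀ (GG K U c ξ) hG j (rhsj K U c ξ j) hm (hi x₀ R)
    (fun φ hφ _ => h1 K ((le_max_left _ _).trans hK) U hU c ξ hξ hEL j φ hφ)
  filter_upwards [h3] with x hx hxb
  have h4 := hx hxb
  have hcoord : ∀ (v : Ev ι), v j ^ 2 ≤ ‖v‖ ^ 2 := by
    intro v
    have h5 : ‖v j‖ ≤ ‖v‖ := PiLp.norm_apply_le _ _
    rw [← sq_abs, ← Real.norm_eq_abs]
    exact pow_le_pow_left₀ (norm_nonneg _) h5 2
  have h5 : ∫ z in Metric.ball x₀ R, ((GG K U c ξ z).2.1 j ^ 2 + (GG K U c ξ z).2.2 j ^ 2) ≤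
      ∫ z in Metric.ball x₀ R, gsq (GG K U c ξ z) := by
    apply integral_mono_of_nonneg
    · exact Filter.Eventually.of_forall fun z => by positivity
    · exact hG.integrable_gsq.integrableOn
    · exact Filter.Eventually.of_forall fun z => add_le_add (hcoord _) (hcoord _)
  have hball : Metric.ball x₀ R ⊆ Metric.ball (0 : ℂ) (‖x₀‖ + R) := by
    intro y hy
    rw [Metric.mem_ball, dist_eq_norm] at hy
    rw [mem_ball_zero_iff]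
    calc ‖y‖ = ‖x₀ + (y - x₀)‖ := by congr 1; ring
      _ ≤ ‖x₀‖ + ‖y - x₀‖ := norm_add_le _ _
      _ < _ := by linarith
  have h6 : ∫ z in Metric.ball x₀ R, (GG K U c ξ z).1 j ^ 2 ≤
      ∫ z in Metric.ball x₀ R, ‖(GG K U c ξ z).1‖ ^ 2 := by
    apply integral_mono_of_nonneg
    · exact Filter.Eventually.of_forall fun z => sq_nonneg _
    · exact (hG.integrableOn_sq _).mono_set hball
    · exact Filter.Eventually.of_forall fun z => hcoord _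
  have h7 := Real.sqrt_le_sqrt h5
  have h8 := Real.sqrt_le_sqrt h6
  have hRi : 0 < R⁻¹ := inv_pos.mpr hR0
  have h9 : R * Real.sqrt (∫ z in Metric.ball x₀ R, rhsj K U c ξ j z ^ 2)
        + Real.sqrt (∫ z in Metric.ball x₀ R, ((GG K U c ξ z).2.1 j ^ 2 + (GG K U c ξ z).2.2 j ^ 2))
        + R⁻¹ * Real.sqrt (∫ z in Metric.ball x₀ R, (GG K U c ξ z).1 j ^ 2) ≤
      R * Real.sqrt (∫ z in Metric.ball x₀ R, rhsj K U c ξ j z ^ 2)
        + Real.sqrt (∫ z in Metric.ball x₀ R, gsq (GG K U c ξ z))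
        + R⁻¹ * Real.sqrt (∫ z in Metric.ball x₀ R, ‖(GG K U c ξ z).1‖ ^ 2) := by
    have := mul_le_mul_of_nonneg_left h8 hRi.le
    linarith
  refine h4.trans ?_
  have h10 : 0 ≤ R * Real.sqrt (∫ z in Metric.ball x₀ R, rhsj K U c ξ j z ^ 2)
        + Real.sqrt (∫ z in Metric.ball x₀ R, ((GG K U c ξ z).2.1 j ^ 2 + (GG K U c ξ z).2.2 j ^ 2))
        + R⁻¹ * Real.sqrt (∫ z in Metric.ball x₀ R, (GG K U c ξ z).1 j ^ 2) := by positivity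
  exact mul_le_mul ((le_abs_self C).trans (by linarith)) h9 h10 (by positivity)

/-- where `g0` and the kernels vanish only the potential term remains. -/
theorem P17a_rhs_eq {Rv : ℝ} (hRv : ∀ x : ℂ, Rv ≤ ‖x‖ → v0 B x = 0 ∧ g0 B x = 0)
    (K : Cfg B δ R₀ Ξ) (U : Fld ι) (c : Cc B.S) (ξ : ℂ) (j : ι) (x : ℂ) (hx : Rv ≤ ‖x‖)
    (hx2 : 3 / 4 ≤ |‖x - ξ‖ - K.ρ|) : rhsj K U c ξ j x =
      (B.S.μ j : ℝ) * fderiv ℝ (pot B δ R₀ K.ρ x (SS K.F (x - ξ))) (GG K U c ξ x).1 (bv j) := by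
  unfold rhsj
  rw [(hRv x hx).2]
  have h1 : ∑ i ∈ modes B.S, ell K.ρ i ξ U *
      (if i.1 = j then om (‖x - ξ‖ - K.ρ) * trig i.2.1 i.2.2 (x - ξ) else 0) = 0 := by
    apply Finset.sum_eq_zero
    intro i _
    rw [P17a_om_zero _ hx2]
    simp
  rw [h1]
  simp

/-- general bound where `g0 = 0`. -/
theorem P17a_rhs_le {Rv : ℝ} (hRv : ∀ x : ℂ, Rv ≤ ‖x‖ → v0 B x = 0 ∧ g0 B x = 0)
    (K : Cfg B δ R₀ Ξ) (U : Fld ι) (c : Cc B.S) (ξ : ℂ) (j : ι) (x : ℂ) (hx : Rv ≤ ‖x‖) :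
    |rhsj K U c ξ j x| ≤
      (B.S.μ j : ℝ) * |fderiv ℝ (pot B δ R₀ K.ρ x (SS K.F (x - ξ))) (GG K U c ξ x).1 (bv j)|
      + 2 * K.ρ ^ 2 * (B.S.μ j : ℝ) * ∑ i ∈ modes B.S, |ell K.ρ i ξ U| := by
  have hμ := P17a_mu_pos B.S j
  unfold rhsj
  rw [(hRv x hx).2]
  have h1 : |∑ i ∈ modes B.S, ell K.ρ i ξ U *
      (if i.1 = j then om (‖x - ξ‖ - K.ρ) * trig i.2.1 i.2.2 (x - ξ) else 0)| ≤
      ∑ i ∈ modes B.S, |ell K.ρ i ξ U| := by
    refine (Finset.abs_sum_le_sum_abs _ _).trans ?_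
    apply Finset.sum_le_sum
    intro i _
    rw [abs_mul]
    have h1 : |(if i.1 = j then om (‖x - ξ‖ - K.ρ) * trig i.2.1 i.2.2 (x - ξ) else 0)| ≤ 1 := by
      split_ifs
      · rw [abs_mul]
        exact mul_le_one₀ (P17a_om _) (abs_nonneg _) (P17a_trig _ _ _)
      · simp
    calc _ ≤ |ell K.ρ i ξ U| * 1 := mul_le_mul_of_nonneg_left h1 (abs_nonneg _)
      _ = _ := mul_one _
  refine (abs_add_le _ _).trans ?_
  have h2 : (0 : Ev ι) j = 0 := rfl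
  rw [h2, add_zero, abs_mul, abs_of_pos hμ, abs_mul,
    abs_of_nonneg (by positivity : 0 ≤ 2 * K.ρ ^ 2 * (B.S.μ j : ℝ))]
  have t2 := mul_le_mul_of_nonneg_left h1 (by positivity : 0 ≤ 2 * K.ρ ^ 2 * (B.S.μ j : ℝ))
  linarith

/-- outside `R₀` the derivative of the density is linear in `g`. -/
theorem P17a_dpot_out (B : Base ι) : ∃ C : ℝ, 1 ≤ C ∧ ∀ δ R₀ Ξ : ℝ, 0 < δ → δ ≤ 1 → 0 ≤ Ξ →
    ∃ ρ₀ : ℝ, 100 ≤ ρ₀ ∧ ∀ K : Cfg B δ R₀ Ξ, ρ₀ ≤ K.ρ → ∀ ξ : ℂ, ‖ξ‖ ≤ Ξ → ∀ (x : ℂ) (g : Ev ι) (j : ι),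
    R₀ ≤ ‖x‖ → |fderiv ℝ (pot B δ R₀ K.ρ x (SS K.F (x - ξ))) g (bv j)| ≤ C * ‖g‖ ∧
      (K.ρ / 2 ≤ ‖x‖ → |fderiv ℝ (pot B δ R₀ K.ρ x (SS K.F (x - ξ))) g (bv j)|
        ≤ C * wgt K.ρ ‖x‖ * ‖g‖) := by
  obtain ⟨Cq, hCq, hq⟩ := qVb_le B.S
  obtain ⟨Cp, hCp, hp⟩ := pot_out B.S
  refine ⟨100 * Cq + Cp + 1, by linarith, fun δ R₀ Ξ hδ hδ1 hΞ => ?_⟩
  obtain ⟨ρ₁, h1⟩ := hp δ Ξ hδ hδ1 hΞ
  obtain ⟨ρ₂, h2⟩ := SS_far Ξ
  refine ⟨max 100 (max ρ₁ ρ₂), le_max_left _ _, fun K hK ξ hξ x g j hx => ?_⟩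
  have hρ : 100 ≤ K.ρ := (le_max_left _ _).trans hK
  have hρ1 : ρ₁ ≤ K.ρ := ((le_max_left _ _).trans (le_max_right _ _)).trans hK
  have hρ2 : ρ₂ ≤ K.ρ := ((le_max_right _ _).trans (le_max_right _ _)).trans hK
  have hρ0 : 0 < K.ρ := by linarith
  rw [dpot_out B hδ hρ0 x hx]
  have hs : SS K.F (x - ξ) ≤ 0 := (SS_neg K.wall _).le
  have hbv := P17a_norm_bv (ι := ι) j
  have e1 := (hq _ hs g (bv j)).1
  rw [hbv, mul_one] at e1
  have e2 := (h1 K.ρ K.ε K.F K.wall hρ1 ξ hξ x g g).2.1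
  have e3 := ContinuousLinearMap.le_opNorm (fderiv ℝ (RT B.S (tau δ K.ρ x) (SS K.F (x - ξ))) g) (bv j)
  rw [hbv, mul_one, Real.norm_eq_abs] at e3
  have hexp : exp (SS K.F (x - ξ)) ≤ 1 := Real.exp_le_one_iff.mpr hs
  have hw1 : wgt K.ρ ‖x‖ ≤ 1 := min_le_left _ _
  have hw0 : 0 ≤ wgt K.ρ ‖x‖ := le_min zero_le_one (by positivity)
  have hρ5 : (K.ρ ^ 5)⁻¹ ≤ 1 := inv_le_one_of_one_le₀ (one_le_pow₀ (by linarith))
  have hρ5' : 0 < (K.ρ ^ 5)⁻¹ := by positivity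
  have hg := norm_nonneg g
  refine ⟨?_, fun hx2 => ?_⟩
  · refine (abs_add_le _ _).trans ?_
    have e4 : LL Cp δ K.ρ x ≤ Cp + 1 := by
      unfold LL
      split_ifs
      · nlinarith
      · nlinarith
    have e5 : Cq * exp (SS K.F (x - ξ)) * ‖g‖ ≤ Cq * ‖g‖ := by
      apply mul_le_mul_of_nonneg_right _ hg
      nlinarith
    have e6 : LL Cp δ K.ρ x * ‖g‖ ≤ (Cp + 1) * ‖g‖ := mul_le_mul_of_nonneg_right e4 hg
    nlinarith
  · refine (abs_add_le _ _).trans ?_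
    have hx0 : x ≠ 0 := by
      intro h
      rw [h, norm_zero] at hx2
      linarith
    have e4 : LL Cp δ K.ρ x ≤ wgt K.ρ ‖x‖ := by
      unfold LL
      rw [if_neg (not_lt.mpr hx2)]
      nlinarith
    have e5 := (h2 K.ρ K.ε K.F K.wall hρ2 ξ x hξ).2 hx0
    have e7 : Cq * exp (SS K.F (x - ξ)) * ‖g‖ ≤ Cq * (100 * wgt K.ρ ‖x‖) * ‖g‖ := by
      apply mul_le_mul_of_nonneg_right _ hg
      exact mul_le_mul_of_nonneg_left e5 hCq.le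
    have e6 : LL Cp δ K.ρ x * ‖g‖ ≤ wgt K.ρ ‖x‖ * ‖g‖ := mul_le_mul_of_nonneg_right e4 hg
    have e8 : 0 ≤ Cp * wgt K.ρ ‖x‖ * ‖g‖ := by positivity
    linarith

end Pool.MP_ad5d82_an.Wl
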