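import Pool.Agent.Lib.MP_ad5d82_an.h24.PDefs
import Pool.Agent.Lib.MP_ad5d82_an.h24.H.H8b
import Pool.Agent.Lib.MP_ad5d82_an.h24.R.R3
import Pool.Agent.Lib.MP_ad5d82_an.h24.F.F3
import Pool.Agent.Lib.MP_ad5d82_an.h24.F.F5
import Pool.Agent.Lib.MP_ad5d82_an.h24.P.P0
import Pool.Agent.Lib.MP_ad5d82_an.h24.P.P1
import Pool.Agent.Lib.MP_ad5d82_an.h24.P.P2
import Pool.Agent.Lib.MP_ad5d82_an.h24.P.P3
import Pool.Agent.Lib.MP_ad5d82_an.h24.P.P3b
import Pool.Agent.Lib.MP_ad5d82_an.h24.P.P4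
import Pool.Agent.Lib.MP_ad5d82_an.h24.P.PC
import Pool.Agent.Lib.MP_ad5d82_an.h24.P.P17a

set_option autoImplicit false

namespace Pool.MP_ad5d82_an.Wl

open Real Set MeasureTheory Filter Topology
open scoped ContDiff

variable {ι : Type} [Fintype ι] [DecidableEq ι]

variable {B : Base ι} {δ R₀ Ξ : ℝ}


/-! ### P17b supremum bound near `R₀` -/

/-- inside `0.93ρ` the negative-mode function vanishes. -/
theorem P17b_GG (K : Cfg B δ R₀ Ξ) (U : Fld ι) (c : Cc B.S) (ξ x : ℂ)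
    (hx : ‖x - ξ‖ < 0.93 * K.ρ) : GG K U c ξ x = U x := by
  have h1 := Cf_zero K.fam c ξ x hx
  have h2 : jet (Cf B.S K.χ c ξ) x = 0 := by
    unfold jet
    rw [h1.1, h1.2]
    rfl
  show U x + jet (Cf B.S K.χ c ξ) x = U x
  rw [h2, add_zero]

theorem near_bound (B : Base ι) : ∃ η₀ : ℝ, 0 < η₀ ∧ ∃ C R₂ : ℝ, 10 ≤ R₂ ∧ ∀ δ R₀ Ξ : ℝ, 0 < δ → δ ≤ 1 →
    R₂ ≤ R₀ → 0 ≤ Ξ → ∃ ρ₀ : ℝ, ∀ K : Cfg B δ R₀ Ξ, ρ₀ ≤ K.ρ → ∀ U : Fld ι, IsSob U →
    ∀ (c : Cc B.S) (ξ : ℂ), ‖ξ‖ ≤ Ξ → (∀ φ : Fld ι, IsSob φ → DPhi K U c ξ φ = 0) →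
    NI (R₀ - 4) (0.9 * K.ρ) U ≤ η₀ →
    ∀ᵐ x : ℂ, R₀ ≤ ‖x‖ → ‖x‖ ≤ 0.6 * K.ρ → ∀ j,
      |(GG K U c ξ x).1 j| ≤ C * Real.sqrt (NI (R₀ - 4) (0.9 * K.ρ) U) := by
  obtain ⟨Cw, hCw, hw⟩ := dWW_small B.S
  obtain ⟨Cd, hCd, hd⟩ := P17a_dpot_out B
  obtain ⟨Cl, hCl, hl⟩ := P17a_local (ι := ι)
  obtain ⟨η₀, hη₀, Ce, he⟩ := exp_small (ι := ι) (2 * Cw) (by positivity)
  obtain ⟨Rv, hRv1, _, hRv⟩ := v0_supp B
  set μs : ℝ := ∑ j, (B.S.μ j : ℝ) with hμs
  have hμs0 : 0 ≤ μs := Finset.sum_nonneg fun j _ => (P17a_mu_pos' B.S j).le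
  set D : ℝ := μs * (Cw + Cd) with hD
  have hD0 : 0 ≤ D := by
    have : 0 ≤ Cd := by linarith
    positivity
  refine ⟨η₀, hη₀, Cl * (D * Real.sqrt |Ce| + 2), max 10 (Rv + 5), le_max_left _ _,
    fun δ R₀ Ξ hδ hδ1 hR hΞ => ?_⟩
  have hR10 : 10 ≤ R₀ := (le_max_left _ _).trans hR
  have hRv5 : Rv + 5 ≤ R₀ := (le_max_right _ _).trans hR
  obtain ⟨ρ₁, h100, h1⟩ := hd δ R₀ Ξ hδ hδ1 hΞ
  obtain ⟨ρ₂, h2⟩ := hl B δ R₀ Ξ hδ hδ1 (by linarith) hΞ
  refine ⟨max (max ρ₁ ρ₂) (100 + 10 * Ξ), fun K hK U hU c ξ hξ hEL hNI => ?_⟩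
  have hK1 : ρ₁ ≤ K.ρ := ((le_max_left _ _).trans (le_max_left _ _)).trans hK
  have hK2 : ρ₂ ≤ K.ρ := ((le_max_right _ _).trans (le_max_left _ _)).trans hK
  have hK3 : 100 + 10 * Ξ ≤ K.ρ := (le_max_right _ _).trans hK
  have hG : IsSob (GG K U c ξ) := isSob_GG K hU c ξ
  set N := NI (R₀ - 4) (0.9 * K.ρ) U with hN
  have hN0 : 0 ≤ N := NI_nonneg _ _ _
  have hmain : ∀ᵐ x : ℂ, x ∈ {x : ℂ | R₀ ≤ ‖x‖ ∧ ‖x‖ ≤ 0.6 * K.ρ} → ∀ j,
      |(GG K U c ξ x).1 j| ≤ Cl * (D * Real.sqrt |Ce| + 2) * Real.sqrt N := by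
    apply P17a_ae_cover (r := 1 / 2) (by norm_num)
    rintro x₀ ⟨y, ⟨hy1, hy2⟩, hyx⟩
    -- the ball of radius 2
    have hb2 : ∀ z ∈ Metric.ball x₀ 2, R₀ - 3 < ‖z‖ ∧ ‖z‖ < 0.6 * K.ρ + 3 := by
      intro z hz
      rw [Metric.mem_ball, dist_eq_norm] at hz
      have e1 : ‖y - z‖ < 5 / 2 := by
        calc ‖y - z‖ = ‖(y - x₀) - (z - x₀)‖ := by congr 1; ring
          _ ≤ ‖y - x₀‖ + ‖z - x₀‖ := norm_sub_le _ _
          _ < _ := by linarith
      have e2 : ‖y‖ ≤ ‖z‖ + ‖y - z‖ := by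
        calc ‖y‖ = ‖z + (y - z)‖ := by congr 1; ring
          _ ≤ _ := norm_add_le _ _
      have e3 : ‖z‖ ≤ ‖y‖ + ‖y - z‖ := by
        calc ‖z‖ = ‖y - (y - z)‖ := by congr 1; ring
          _ ≤ _ := norm_sub_le _ _
      constructor <;> linarith
    have hsub12 : Metric.ball x₀ 1 ⊆ Metric.ball x₀ 2 := Metric.ball_subset_ball (by norm_num)
    have hzξ : ∀ z ∈ Metric.ball x₀ 2, ‖z - ξ‖ < 0.7 * K.ρ := by
      intro z hz
      have := (hb2 z hz).2
      have e1 := norm_sub_le z ξ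
      linarith
    have hGU : ∀ z ∈ Metric.ball x₀ 2, GG K U c ξ z = U z := by
      intro z hz
      apply P17b_GG
      have := hzξ z hz
      linarith
    have hsubN : Metric.ball x₀ 2 ⊆ {x : ℂ | R₀ - 4 < ‖x‖ ∧ ‖x‖ < 0.9 * K.ρ} := by
      intro z hz
      have := hb2 z hz
      refine ⟨by linarith [this.1], ?_⟩
      have := this.2
      linarith
    have hint := hU.integrableOn_ann (R₀ - 4) (0.9 * K.ρ)
    have hI2 : ∫ z in Metric.ball x₀ 2, (gsq (U z) + ‖(U z).1‖ ^ 2) ≤ N := by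
      apply setIntegral_mono_set hint
      · exact Filter.Eventually.of_forall fun z => by
          unfold gsq; positivity
      · exact hsubN.eventuallyLE
    have hexp := he x₀ U hU (hI2.trans hNI)
    -- pointwise bound of the right-hand side on the ball of radius 1
    have hpt : ∀ j, ∀ z ∈ Metric.ball x₀ 1, rhsj K U c ξ j z ^ 2 ≤
        D ^ 2 * (‖(U z).1‖ ^ 2 * exp (2 * Cw * ‖(U z).1‖)) := by
      intro j z hz
      have hz2 := hsub12 hz
      have hn := hb2 z hz2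
      have hμ := P17a_mu_pos' B.S j
      have hμle : (B.S.μ j : ℝ) ≤ μs :=
        Finset.single_le_sum (f := fun j => (B.S.μ j : ℝ)) (fun i _ => (P17a_mu_pos' B.S i).le)
          (Finset.mem_univ j)
      rw [P17a_rhs_eq hRv K U c ξ j z (by linarith [hn.1]) (by
        have := hzξ z hz2
        rw [abs_of_neg (by linarith)]
        linarith)]
      rw [hGU z hz2]
      set g := (U z).1 with hg
      have hg0 := norm_nonneg g
      have hbv := P17a_norm_bv (ι := ι) j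
      have hone : 1 ≤ exp (Cw * ‖g‖) := Real.one_le_exp (by positivity)
      have hb : |fderiv ℝ (pot B δ R₀ K.ρ z (SS K.F (z - ξ))) g (bv j)| ≤
          (Cw + Cd) * ‖g‖ * exp (Cw * ‖g‖) := by
        rcases lt_or_ge ‖z‖ R₀ with hzR | hzR
        · rw [dpot_in B z hzR, (hRv z (by linarith [hn.1])).1, zero_add]
          have e1 := ContinuousLinearMap.le_opNorm (fderiv ℝ (WW B.S (SS K.F (z - ξ))) g) (bv j)
          rw [hbv, mul_one, Real.norm_eq_abs] at e1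
          have e2 := hw (SS K.F (z - ξ)) g (SS_neg K.wall _).le
          have e3 : 0 ≤ Cd * ‖g‖ * exp (Cw * ‖g‖) := by
            have : 0 ≤ Cd := by linarith
            positivity
          calc _ ≤ Cw * ‖g‖ * exp (Cw * ‖g‖) := e1.trans e2
            _ ≤ _ := by linarith
        · have e1 := (h1 K hK1 ξ hξ z g j hzR).1
          have e2 : Cd * ‖g‖ ≤ Cd * ‖g‖ * exp (Cw * ‖g‖) := by
            have : 0 ≤ Cd * ‖g‖ := by
              have : 0 ≤ Cd := by linarith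
              positivity
            nlinarith
          have e3 : 0 ≤ Cw * ‖g‖ * exp (Cw * ‖g‖) := by positivity
          linarith
      have hb' : |(B.S.μ j : ℝ) * fderiv ℝ (pot B δ R₀ K.ρ z (SS K.F (z - ξ))) g (bv j)| ≤
          D * (‖g‖ * exp (Cw * ‖g‖)) := by
        rw [abs_mul, abs_of_pos hμ]
        calc _ ≤ μs * ((Cw + Cd) * ‖g‖ * exp (Cw * ‖g‖)) :=
              mul_le_mul hμle hb (abs_nonneg _) hμs0
          _ = _ := by rw [hD]; ring
      rw [← sq_abs]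
      calc _ ≤ (D * (‖g‖ * exp (Cw * ‖g‖))) ^ 2 := pow_le_pow_left₀ (abs_nonneg _) hb' 2
        _ = D ^ 2 * (‖g‖ ^ 2 * exp (2 * Cw * ‖g‖)) := by
            have e9 : exp (2 * Cw * ‖g‖) = exp (Cw * ‖g‖) ^ 2 := by
              rw [← Real.exp_nat_mul]
              congr 1
              push_cast
              ring
            rw [e9]
            ring
    have hf : ∀ j, ∫ z in Metric.ball x₀ 1, rhsj K U c ξ j z ^ 2 ≤ D ^ 2 * (|Ce| * N) := by
      intro j
      have e1 : ∫ z in Metric.ball x₀ 1, rhsj K U c ξ j z ^ 2 ≤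
          ∫ z in Metric.ball x₀ 1, D ^ 2 * (‖(U z).1‖ ^ 2 * exp (2 * Cw * ‖(U z).1‖)) := by
        apply integral_mono_of_nonneg
        · exact Filter.Eventually.of_forall fun z => sq_nonneg _
        · exact hexp.1.const_mul _
        · exact (ae_restrict_iff' measurableSet_ball).mpr
            (Filter.Eventually.of_forall fun z hz => hpt j z hz)
      rw [integral_const_mul] at e1
      refine e1.trans ?_
      apply mul_le_mul_of_nonneg_left _ (sq_nonneg _)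
      refine hexp.2.trans ?_
      calc Ce * ∫ z in Metric.ball x₀ 2, (gsq (U z) + ‖(U z).1‖ ^ 2) ≤
          |Ce| * ∫ z in Metric.ball x₀ 2, (gsq (U z) + ‖(U z).1‖ ^ 2) := by
            apply mul_le_mul_of_nonneg_right (le_abs_self _)
            apply integral_nonneg
            intro z
            show 0 ≤ gsq (U z) + ‖(U z).1‖ ^ 2
            unfold gsq; positivity
        _ ≤ |Ce| * N := mul_le_mul_of_nonneg_left hI2 (abs_nonneg _)
    have hg1 : ∫ z in Metric.ball x₀ 1, gsq (GG K U c ξ z) ≤ N := by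
      have e1 : ∫ z in Metric.ball x₀ 1, gsq (GG K U c ξ z) ≤
          ∫ z in Metric.ball x₀ 1, (gsq (U z) + ‖(U z).1‖ ^ 2) := by
        apply integral_mono_of_nonneg
        · exact Filter.Eventually.of_forall fun z => by
            show 0 ≤ gsq _
            unfold gsq; positivity
        · exact hint.mono_set (hsub12.trans hsubN)
        · refine (ae_restrict_iff' measurableSet_ball).mpr
            (Filter.Eventually.of_forall fun z hz => ?_)
          show gsq (GG K U c ξ z) ≤ _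
          rw [hGU z (hsub12 hz)]
          nlinarith [sq_nonneg ‖(U z).1‖]
      refine e1.trans (le_trans ?_ hI2)
      apply setIntegral_mono_set (hint.mono_set hsubN)
      · exact Filter.Eventually.of_forall fun z => by
          show 0 ≤ gsq (U z) + ‖(U z).1‖ ^ 2
          unfold gsq; positivity
      · exact hsub12.eventuallyLE
    have hg2 : ∫ z in Metric.ball x₀ 1, ‖(GG K U c ξ z).1‖ ^ 2 ≤ N := by
      have e1 : ∫ z in Metric.ball x₀ 1, ‖(GG K U c ξ z).1‖ ^ 2 ≤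
          ∫ z in Metric.ball x₀ 1, (gsq (U z) + ‖(U z).1‖ ^ 2) := by
        apply integral_mono_of_nonneg
        · exact Filter.Eventually.of_forall fun z => by positivity
        · exact hint.mono_set (hsub12.trans hsubN)
        · refine (ae_restrict_iff' measurableSet_ball).mpr
            (Filter.Eventually.of_forall fun z hz => ?_)
          show ‖(GG K U c ξ z).1‖ ^ 2 ≤ _
          rw [hGU z (hsub12 hz)]
          have : 0 ≤ gsq (U z) := by unfold gsq; positivity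
          linarith
      refine e1.trans (le_trans ?_ hI2)
      apply setIntegral_mono_set (hint.mono_set hsubN)
      · exact Filter.Eventually.of_forall fun z => by
          show 0 ≤ gsq (U z) + ‖(U z).1‖ ^ 2
          unfold gsq; positivity
      · exact hsub12.eventuallyLE
    have hloc : ∀ᵐ x : ℂ, ∀ j, x ∈ Metric.ball x₀ (1 / 2) → |(GG K U c ξ x).1 j| ≤
        Cl * (1 * Real.sqrt (∫ z in Metric.ball x₀ 1, rhsj K U c ξ j z ^ 2)
        + Real.sqrt (∫ z in Metric.ball x₀ 1, gsq (GG K U c ξ z))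
        + 1⁻¹ * Real.sqrt (∫ z in Metric.ball x₀ 1, ‖(GG K U c ξ z).1‖ ^ 2)) := by
      rw [ae_all_iff]
      intro j
      exact h2 K hK2 U hU c ξ hξ hEL j 1 x₀ one_pos
    filter_upwards [hloc] with x hx hxb j
    refine (hx j hxb).trans ?_
    rw [mul_assoc]
    apply mul_le_mul_of_nonneg_left _ hCl.le
    have s1 : Real.sqrt (∫ z in Metric.ball x₀ 1, rhsj K U c ξ j z ^ 2) ≤
        D * Real.sqrt |Ce| * Real.sqrt N := by
      refine (Real.sqrt_le_sqrt (hf j)).trans ?_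
      rw [Real.sqrt_mul (sq_nonneg _), Real.sqrt_sq hD0, Real.sqrt_mul (abs_nonneg _)]
      linarith
    have s2 := Real.sqrt_le_sqrt hg1
    have s3 := Real.sqrt_le_sqrt hg2
    rw [inv_one, one_mul, one_mul]
    linarith
  filter_upwards [hmain] with x hx h3 h4 j
  exact hx ⟨h3, h4⟩ j

end Pool.MP_ad5d82_an.Wl
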