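import Pool.Agent.Lib.MP_ad5d82_an.h24.PDefs
import Pool.Agent.Lib.MP_ad5d82_an.h24.R.R3
import Pool.Agent.Lib.MP_ad5d82_an.h24.F.F5
import Pool.Agent.Lib.MP_ad5d82_an.h24.P.P0
import Pool.Agent.Lib.MP_ad5d82_an.h24.P.P1
import Pool.Agent.Lib.MP_ad5d82_an.h24.P.P2
import Pool.Agent.Lib.MP_ad5d82_an.h24.P.P3
import Pool.Agent.Lib.MP_ad5d82_an.h24.P.P3b
import Pool.Agent.Lib.MP_ad5d82_an.h24.P.P4
import Pool.Agent.Lib.MP_ad5d82_an.h24.P.PC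
import Pool.Agent.Lib.MP_ad5d82_an.h24.P.P14c
import Pool.Agent.Lib.MP_ad5d82_an.h24.P.P17a

set_option autoImplicit false

namespace Pool.MP_ad5d82_an.Wl

open Real Set MeasureTheory Filter Topology
open scoped ContDiff

variable {ι : Type} [Fintype ι] [DecidableEq ι]

variable {B : Base ι} {δ R₀ Ξ : ℝ}


/-! ### P17c supremum bound for `ρ/2 ≤ ‖x‖ ≤ 5ρ` -/

private theorem P17c_sq {E : Type*} [SeminormedAddCommGroup E] (a b : E) :
    ‖a + b‖ ^ 2 ≤ 2 * ‖a‖ ^ 2 + 2 * ‖b‖ ^ 2 := by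
  have h1 := norm_add_le a b
  have h2 := pow_le_pow_left₀ (norm_nonneg _) h1 2
  linarith [sq_nonneg (‖a‖ - ‖b‖)]

theorem P17c_add (u w : Ev ι × Ev ι × Ev ι) :
    gsq (u + w) + ‖(u + w).1‖ ^ 2 ≤ 2 * (gsq u + ‖u.1‖ ^ 2) + 2 * (gsq w + ‖w.1‖ ^ 2) := by
  unfold gsq
  have h1 := P17c_sq u.1 w.1
  have h2 := P17c_sq u.2.1 w.2.1
  have h3 := P17c_sq u.2.2 w.2.2
  have e1 : (u + w).1 = u.1 + w.1 := rfl
  have e2 : (u + w).2.1 = u.2.1 + w.2.1 := rfl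
  have e3 : (u + w).2.2 = u.2.2 + w.2.2 := rfl
  rw [e1, e2, e3]
  linarith

theorem P17c_gsq_nonneg (u : Ev ι × Ev ι × Ev ι) : 0 ≤ gsq u := by unfold gsq; positivity

/-- energy of `GG` on a bounded measurable set in terms of `U` and `c`. -/
theorem P17c_energy (B : Base ι) : ∃ D : ℝ, 0 < D ∧ ∀ (δ R₀ Ξ : ℝ) (K : Cfg B δ R₀ Ξ), 1 ≤ K.ρ →
    ∀ U : Fld ι, IsSob U → ∀ (c : Cc B.S) (ξ : ℂ) (x₀ : ℂ) (R : ℝ),
    IntegrableOn (fun z => gsq (U z) + ‖(U z).1‖ ^ 2) (Metric.ball x₀ R) volume ∧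
    IntegrableOn (fun z => gsq (GG K U c ξ z) + ‖(GG K U c ξ z).1‖ ^ 2) (Metric.ball x₀ R) volume ∧
    ∫ z in Metric.ball x₀ R, (gsq (GG K U c ξ z) + ‖(GG K U c ξ z).1‖ ^ 2) ≤
      2 * (∫ z in Metric.ball x₀ R, (gsq (U z) + ‖(U z).1‖ ^ 2)) + 2 * (D * K.ρ ^ 2 * ∑ i, c i ^ 2) := by
  obtain ⟨D, hD, hE⟩ := Cf_energy B.S B.c₀ B.C₀
  refine ⟨D, hD, fun δ R₀ Ξ K hρ U hU c ξ x₀ R => ?_⟩
  obtain ⟨hi, hb⟩ := hE K.ρ K.F K.χ K.fam hρ c ξ
  have hball : Metric.ball x₀ R ⊆ Metric.ball (0 : ℂ) (‖x₀‖ + R) := by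
    intro y hy
    rw [Metric.mem_ball, dist_eq_norm] at hy
    rw [mem_ball_zero_iff]
    calc ‖y‖ = ‖x₀ + (y - x₀)‖ := by congr 1; ring
      _ ≤ ‖x₀‖ + ‖y - x₀‖ := norm_add_le _ _
      _ < _ := by linarith
  have hint : ∀ V : Fld ι, IsSob V →
      IntegrableOn (fun z => gsq (V z) + ‖(V z).1‖ ^ 2) (Metric.ball x₀ R) volume := fun V hV =>
    hV.integrable_gsq.integrableOn.add ((hV.integrableOn_sq _).mono_set hball)
  have hG : IsSob (GG K U c ξ) := isSob_GG K hU c ξ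
  refine ⟨hint U hU, hint _ hG, ?_⟩
  have hi' : IntegrableOn (fun x => gsq (jet (Cf B.S K.χ c ξ) x) + ‖Cf B.S K.χ c ξ x‖ ^ 2)
    (Metric.ball x₀ R) volume := hi.integrableOn
  have e1 : ∫ z in Metric.ball x₀ R, (gsq (GG K U c ξ z) + ‖(GG K U c ξ z).1‖ ^ 2) ≤
      ∫ z in Metric.ball x₀ R, (2 * (gsq (U z) + ‖(U z).1‖ ^ 2) +
        2 * (gsq (jet (Cf B.S K.χ c ξ) z) + ‖Cf B.S K.χ c ξ z‖ ^ 2)) := by
    apply integral_mono_of_nonneg
    · exact Filter.Eventually.of_forall fun z => add_nonneg (P17c_gsq_nonneg _) (sq_nonneg _)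
    · exact ((hint U hU).const_mul 2).add (hi'.const_mul 2)
    · exact Filter.Eventually.of_forall fun z => P17c_add (U z) (jet (Cf B.S K.χ c ξ) z)
  rw [integral_add ((hint U hU).const_mul 2) (hi'.const_mul 2), integral_const_mul,
    integral_const_mul] at e1
  have e2 : ∫ z in Metric.ball x₀ R, (gsq (jet (Cf B.S K.χ c ξ) z) + ‖Cf B.S K.χ c ξ z‖ ^ 2) ≤
      ∫ z, (gsq (jet (Cf B.S K.χ c ξ) z) + ‖Cf B.S K.χ c ξ z‖ ^ 2) := by
    apply setIntegral_le_integral hi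
    exact Filter.Eventually.of_forall fun z => add_nonneg (P17c_gsq_nonneg _) (sq_nonneg _)
  linarith

theorem mid_bound (B : Base ι) : ∃ N : ℕ, ∀ δ R₀ Ξ : ℝ, 0 < δ → δ ≤ 1 →
    1 ≤ R₀ → 0 ≤ Ξ → ∃ ρ₀ : ℝ, ∀ K : Cfg B δ R₀ Ξ, ρ₀ ≤ K.ρ → ∀ U : Fld ι, IsSob U →
    ∀ (c : Cc B.S) (ξ : ℂ), ‖ξ‖ ≤ Ξ → (∀ φ : Fld ι, IsSob φ → DPhi K U c ξ φ = 0) →
    ∀ N₁ : ℝ, 0 ≤ N₁ → NI (0.4 * K.ρ) (0.9 * K.ρ) U ≤ N₁ ^ 2 → NII K.ρ (0.88 * K.ρ) U ≤ N₁ ^ 2 →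
    ∑ i, c i ^ 2 ≤ N₁ ^ 2 →
    ∀ᵐ x : ℂ, K.ρ / 2 ≤ ‖x‖ → ‖x‖ ≤ 5 * K.ρ → ∀ j, |(GG K U c ξ x).1 j| ≤ K.ρ ^ N * N₁ := by
  obtain ⟨Cd, hCd, hd⟩ := P17a_dpot_out B
  obtain ⟨Cl, hCl, hl⟩ := P17a_local (ι := ι)
  obtain ⟨D, hD, hEn⟩ := P17c_energy B
  obtain ⟨Ck, hCk, hk⟩ := ell_bound_NII B.S
  obtain ⟨Rv, hRv1, _, hRv⟩ := v0_supp B
  set μs : ℝ := ∑ j, (B.S.μ j : ℝ) with hμs
  have hμs0 : 0 ≤ μs := Finset.sum_nonneg fun j _ => (P17a_mu_pos' B.S j).le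
  set M : ℝ := ((modes B.S).card : ℝ) with hM
  have hM0 : 0 ≤ M := Nat.cast_nonneg _
  set C₁ : ℝ := 2594 + 2 * D with hC₁
  have hC₁0 : 0 < C₁ := by positivity
  set C₂ : ℝ := 2 * μs ^ 2 * Cd ^ 2 * C₁ + 8 * (2 * μs * M * Ck) ^ 2 with hC₂
  have hC₂0 : 0 ≤ C₂ := by positivity
  refine ⟨4, fun δ R₀ Ξ hδ hδ1 hR hΞ => ?_⟩
  obtain ⟨ρ₁, h100, h1⟩ := hd δ R₀ Ξ hδ hδ1 hΞ
  obtain ⟨ρ₂, h2⟩ := hl B δ R₀ Ξ hδ hδ1 hR hΞ
  refine ⟨ρ₁ + |ρ₂| + 100 * Ξ + 10 * R₀ + 10 * Rv + Cl * (Real.sqrt C₂ + 2 * Real.sqrt C₁),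
    fun K hK U hU c ξ hξ hEL N₁ hN₁ hNI hNII hc => ?_⟩
  have hs1 : 0 ≤ Cl * (Real.sqrt C₂ + 2 * Real.sqrt C₁) := by positivity
  have hab := le_abs_self ρ₂
  have hab' := abs_nonneg ρ₂
  have hK1 : ρ₁ ≤ K.ρ := by linarith
  have hK2 : ρ₂ ≤ K.ρ := by linarith
  have hK3 : 100 ≤ K.ρ := by linarith
  have hK4 : 100 * Ξ ≤ K.ρ := by linarith
  have hK5 : 10 * R₀ ≤ K.ρ := by linarith
  have hK6 : 10 * Rv ≤ K.ρ := by linarith
  have hK7 : Cl * (Real.sqrt C₂ + 2 * Real.sqrt C₁) ≤ K.ρ := by linarith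
  have hρ1 : 1 ≤ K.ρ := by linarith
  have hρ0 : 0 < K.ρ := by linarith
  -- the functionals `ell`
  have hell : ∑ i ∈ modes B.S, |ell K.ρ i ξ U| ≤ M * (Ck * K.ρ * N₁) := by
    have e1 : ∀ i ∈ modes B.S, |ell K.ρ i ξ U| ≤ Ck * K.ρ * N₁ := by
      intro i hi
      have e2 := (hk K.ρ hK3 i hi ξ ξ (by linarith) (by linarith) U hU).1
      refine e2.trans ?_
      apply mul_le_mul_of_nonneg_left _ (by positivity)
      have e3 := NII_mono hU hρ1 (by linarith : 0.88 * K.ρ ≤ 0.9 * K.ρ)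
      rw [← Real.sqrt_sq hN₁]
      exact Real.sqrt_le_sqrt (e3.trans hNII)
    have e4 := Finset.sum_le_card_nsmul _ _ _ e1
    rwa [nsmul_eq_mul] at e4
  have hell0 : 0 ≤ ∑ i ∈ modes B.S, |ell K.ρ i ξ U| := Finset.sum_nonneg fun i _ => abs_nonneg _
  -- the dominating density
  set A1 : Set ℂ := {x : ℂ | 0.4 * K.ρ < ‖x‖ ∧ ‖x‖ < 0.9 * K.ρ} with hA1
  set A2 : Set ℂ := {x : ℂ | 0.88 * K.ρ ≤ ‖x‖} with hA2
  have hA1m : MeasurableSet A1 := by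
    have : IsOpen A1 := (isOpen_lt continuous_const continuous_norm).inter
      (isOpen_lt continuous_norm continuous_const)
    exact this.measurableSet
  have hA2m : MeasurableSet A2 := (isClosed_le continuous_const continuous_norm).measurableSet
  set f1 : ℂ → ℝ := fun x => gsq (U x) + ‖(U x).1‖ ^ 2 with hf1
  set f2 : ℂ → ℝ := fun x => gsq (U x) + wgt K.ρ ‖x‖ * ‖(U x).1‖ ^ 2 with hf2
  have hwg : ∀ x : ℂ, 0 ≤ wgt K.ρ ‖x‖ := fun x => le_min zero_le_one (by positivity)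
  have hf1n : ∀ x, 0 ≤ f1 x := fun x => add_nonneg (P17c_gsq_nonneg _) (sq_nonneg _)
  have hf2n : ∀ x, 0 ≤ f2 x := fun x =>
    add_nonneg (P17c_gsq_nonneg _) (mul_nonneg (hwg x) (sq_nonneg _))
  have hf1i : IntegrableOn f1 A1 volume := hU.integrableOn_ann _ _
  have hf2i : IntegrableOn f2 A2 volume :=
    (hU.integrable_gsq.add (hU.integrable_wgt hρ1)).integrableOn
  set Q : ℂ → ℝ := fun x => A1.indicator f1 x + 1296 * A2.indicator f2 x with hQ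
  have hQi1 : Integrable (A1.indicator f1) volume := (integrable_indicator_iff hA1m).mpr hf1i
  have hQi2 : Integrable (fun x => 1296 * A2.indicator f2 x) volume :=
    ((integrable_indicator_iff hA2m).mpr hf2i).const_mul _
  have hQi : Integrable Q volume := hQi1.add hQi2
  have hQn : ∀ x, 0 ≤ Q x := fun x =>
    add_nonneg (indicator_nonneg (fun y _ => hf1n y) x)
      (mul_nonneg (by norm_num) (indicator_nonneg (fun y _ => hf2n y) x))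
  have hQint : ∫ x, Q x ≤ 1297 * N₁ ^ 2 := by
    have e1 : ∫ x, Q x = (∫ x, A1.indicator f1 x) + ∫ x, 1296 * A2.indicator f2 x :=
      integral_add hQi1 hQi2
    rw [e1, integral_const_mul, integral_indicator hA1m, integral_indicator hA2m]
    have e2 : ∫ x in A1, f1 x ≤ N₁ ^ 2 := hNI
    have e3 : ∫ x in A2, f2 x ≤ N₁ ^ 2 := hNII
    linarith
  have hmain : ∀ᵐ x : ℂ, x ∈ {x : ℂ | K.ρ / 2 ≤ ‖x‖ ∧ ‖x‖ ≤ 5 * K.ρ} → ∀ j,
      |(GG K U c ξ x).1 j| ≤ K.ρ ^ 4 * N₁ := by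
    apply P17a_ae_cover (r := 1 / 2) (by norm_num)
    rintro x₀ ⟨y, ⟨hy1, hy2⟩, hyx⟩
    have hb : ∀ z ∈ Metric.ball x₀ 1, K.ρ / 2 - 2 < ‖z‖ ∧ ‖z‖ < 5 * K.ρ + 2 := by
      intro z hz
      rw [Metric.mem_ball, dist_eq_norm] at hz
      have e1 : ‖y - z‖ < 2 := by
        calc ‖y - z‖ = ‖(y - x₀) - (z - x₀)‖ := by congr 1; ring
          _ ≤ ‖y - x₀‖ + ‖z - x₀‖ := norm_sub_le _ _
          _ < _ := by linarith
      have e2 : ‖y‖ ≤ ‖z‖ + ‖y - z‖ := by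
        calc ‖y‖ = ‖z + (y - z)‖ := by congr 1; ring
          _ ≤ _ := norm_add_le _ _
      have e3 : ‖z‖ ≤ ‖y‖ + ‖y - z‖ := by
        calc ‖z‖ = ‖y - (y - z)‖ := by congr 1; ring
          _ ≤ _ := norm_sub_le _ _
      constructor <;> linarith
    obtain ⟨hiU, hiG, hGb⟩ := hEn δ R₀ Ξ K hρ1 U hU c ξ x₀ 1
    -- energy of `U` on the ball
    have hUb : ∫ z in Metric.ball x₀ 1, (gsq (U z) + ‖(U z).1‖ ^ 2) ≤ 1297 * N₁ ^ 2 := by
      refine le_trans ?_ hQint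
      refine le_trans ?_ (setIntegral_le_integral (s := Metric.ball x₀ 1) hQi
        (Filter.Eventually.of_forall hQn))
      apply integral_mono_of_nonneg
      · exact Filter.Eventually.of_forall hf1n
      · exact hQi.integrableOn
      · refine (ae_restrict_iff' measurableSet_ball).mpr
          (Filter.Eventually.of_forall fun z hz => ?_)
        have hz' := hb z hz
        show f1 z ≤ Q z
        rcases lt_or_ge ‖z‖ (0.88 * K.ρ) with h | h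
        · have hm : z ∈ A1 := ⟨by linarith [hz'.1], by linarith⟩
          rw [hQ]
          simp only [indicator_of_mem hm]
          have := indicator_nonneg (fun y (_ : y ∈ A2) => hf2n y) z
          linarith
        · have hm : z ∈ A2 := h
          rw [hQ]
          simp only [indicator_of_mem hm]
          have h0 := indicator_nonneg (fun y (_ : y ∈ A1) => hf1n y) z
          have hzpos : 0 < ‖z‖ := by linarith
          have hw : 1 / 1296 ≤ wgt K.ρ ‖z‖ := by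
            apply le_min (by norm_num)
            have e1 : 1 / 6 ≤ K.ρ / ‖z‖ := by
              rw [div_le_div_iff₀ (by norm_num) hzpos]
              linarith [hz'.2]
            calc (1 / 1296 : ℝ) = (1 / 6) ^ 4 := by norm_num
              _ ≤ _ := pow_le_pow_left₀ (by norm_num) e1 4
          have e2 : ‖(U z).1‖ ^ 2 ≤ 1296 * (wgt K.ρ ‖z‖ * ‖(U z).1‖ ^ 2) := by
            have := mul_le_mul_of_nonneg_right hw (sq_nonneg ‖(U z).1‖)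
            linarith
          have e3 := P17c_gsq_nonneg (U z)
          show gsq (U z) + ‖(U z).1‖ ^ 2 ≤ A1.indicator f1 z +
            1296 * (gsq (U z) + wgt K.ρ ‖z‖ * ‖(U z).1‖ ^ 2)
          linarith
    have hGE : ∫ z in Metric.ball x₀ 1, (gsq (GG K U c ξ z) + ‖(GG K U c ξ z).1‖ ^ 2) ≤
        C₁ * K.ρ ^ 2 * N₁ ^ 2 := by
      refine hGb.trans ?_
      have e1 : D * K.ρ ^ 2 * ∑ i, c i ^ 2 ≤ D * K.ρ ^ 2 * N₁ ^ 2 :=
        mul_le_mul_of_nonneg_left hc (by positivity)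
      have e2 : 1 ≤ K.ρ ^ 2 := one_le_pow₀ hρ1
      have e3 : 2594 * N₁ ^ 2 ≤ 2594 * K.ρ ^ 2 * N₁ ^ 2 := by
        have := mul_le_mul_of_nonneg_right e2 (sq_nonneg N₁)
        linarith
      rw [hC₁]
      linarith
    have hg1 : ∫ z in Metric.ball x₀ 1, gsq (GG K U c ξ z) ≤ C₁ * K.ρ ^ 2 * N₁ ^ 2 := by
      refine le_trans ?_ hGE
      apply integral_mono_of_nonneg
      · exact Filter.Eventually.of_forall fun z => P17c_gsq_nonneg _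
      · exact hiG
      · exact Filter.Eventually.of_forall fun z => by
          show gsq _ ≤ _
          linarith [sq_nonneg ‖(GG K U c ξ z).1‖]
    have hg2 : ∫ z in Metric.ball x₀ 1, ‖(GG K U c ξ z).1‖ ^ 2 ≤ C₁ * K.ρ ^ 2 * N₁ ^ 2 := by
      refine le_trans ?_ hGE
      apply integral_mono_of_nonneg
      · exact Filter.Eventually.of_forall fun z => sq_nonneg _
      · exact hiG
      · exact Filter.Eventually.of_forall fun z => by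
          show ‖_‖ ^ 2 ≤ _
          linarith [P17c_gsq_nonneg (GG K U c ξ z)]
    -- the right-hand side
    have hpt : ∀ j, ∀ z ∈ Metric.ball x₀ 1, rhsj K U c ξ j z ^ 2 ≤
        2 * μs ^ 2 * Cd ^ 2 * (gsq (GG K U c ξ z) + ‖(GG K U c ξ z).1‖ ^ 2)
          + 2 * (2 * μs * M * Ck * K.ρ ^ 3 * N₁) ^ 2 := by
      intro j z hz
      have hz' := hb z hz
      have hμ := P17a_mu_pos' B.S j
      have hμle : (B.S.μ j : ℝ) ≤ μs :=
        Finset.single_le_sum (f := fun j => (B.S.μ j : ℝ)) (fun i _ => (P17a_mu_pos' B.S i).le)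
          (Finset.mem_univ j)
      have e1 := P17a_rhs_le hRv K U c ξ j z (by linarith [hz'.1])
      have e2 := (h1 K hK1 ξ hξ z (GG K U c ξ z).1 j (by linarith [hz'.1])).1
      set g := (GG K U c ξ z).1 with hg
      have hCd0 : 0 ≤ Cd := by linarith
      have e3 : (B.S.μ j : ℝ) * |fderiv ℝ (pot B δ R₀ K.ρ z (SS K.F (z - ξ))) g (bv j)| ≤
          μs * (Cd * ‖g‖) := mul_le_mul hμle e2 (abs_nonneg _) hμs0
      have e4 : 2 * K.ρ ^ 2 * (B.S.μ j : ℝ) * ∑ i ∈ modes B.S, |ell K.ρ i ξ U| ≤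
          2 * μs * M * Ck * K.ρ ^ 3 * N₁ := by
        calc _ ≤ 2 * K.ρ ^ 2 * μs * (M * (Ck * K.ρ * N₁)) := by
              apply mul_le_mul _ hell hell0 (by positivity)
              exact mul_le_mul_of_nonneg_left hμle (by positivity)
          _ = _ := by ring
      have e5 : |rhsj K U c ξ j z| ≤ μs * (Cd * ‖g‖) + 2 * μs * M * Ck * K.ρ ^ 3 * N₁ := by
        linarith
      rw [← sq_abs]
      have e6 := pow_le_pow_left₀ (abs_nonneg _) e5 2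
      have e7 : (μs * (Cd * ‖g‖) + 2 * μs * M * Ck * K.ρ ^ 3 * N₁) ^ 2 ≤
          2 * (μs * (Cd * ‖g‖)) ^ 2 + 2 * (2 * μs * M * Ck * K.ρ ^ 3 * N₁) ^ 2 := by
        linarith [sq_nonneg (μs * (Cd * ‖g‖) - 2 * μs * M * Ck * K.ρ ^ 3 * N₁)]
      have e8 : 2 * (μs * (Cd * ‖g‖)) ^ 2 ≤ 2 * μs ^ 2 * Cd ^ 2 * (gsq (GG K U c ξ z) + ‖g‖ ^ 2) := by
        have := P17c_gsq_nonneg (GG K U c ξ z)
        have h0 : 0 ≤ 2 * μs ^ 2 * Cd ^ 2 * gsq (GG K U c ξ z) := by positivity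
        linarith
      linarith
    have hvol : (volume : Measure ℂ).real (Metric.ball x₀ 1) ≤ 4 := by
      rw [Measure.real, Complex.volume_ball]
      simp only [ENNReal.ofReal_one, one_pow, one_mul]
      rw [ENNReal.coe_toReal, NNReal.coe_real_pi]
      exact Real.pi_le_four
    have hf : ∀ j, ∫ z in Metric.ball x₀ 1, rhsj K U c ξ j z ^ 2 ≤ C₂ * (K.ρ ^ 3 * N₁) ^ 2 := by
      intro j
      have hcon : ∀ a : ℝ, IntegrableOn (fun _ : ℂ => a) (Metric.ball x₀ 1) volume := fun a =>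
        integrableOn_const measure_ball_lt_top.ne
      have e1 : ∫ z in Metric.ball x₀ 1, rhsj K U c ξ j z ^ 2 ≤
          ∫ z in Metric.ball x₀ 1,
            (2 * μs ^ 2 * Cd ^ 2 * (gsq (GG K U c ξ z) + ‖(GG K U c ξ z).1‖ ^ 2)
            + 2 * (2 * μs * M * Ck * K.ρ ^ 3 * N₁) ^ 2) := by
        apply integral_mono_of_nonneg
        · exact Filter.Eventually.of_forall fun z => sq_nonneg _
        · exact (hiG.const_mul _).add (hcon _)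
        · exact (ae_restrict_iff' measurableSet_ball).mpr
            (Filter.Eventually.of_forall fun z hz => hpt j z hz)
      rw [integral_add (hiG.const_mul _) (hcon _), integral_const_mul,
        setIntegral_const, smul_eq_mul] at e1
      refine e1.trans ?_
      have e2 : 2 * μs ^ 2 * Cd ^ 2 *
          ∫ z in Metric.ball x₀ 1, (gsq (GG K U c ξ z) + ‖(GG K U c ξ z).1‖ ^ 2) ≤
          2 * μs ^ 2 * Cd ^ 2 * (C₁ * K.ρ ^ 2 * N₁ ^ 2) :=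
        mul_le_mul_of_nonneg_left hGE (by positivity)
      have e3 : (volume : Measure ℂ).real (Metric.ball x₀ 1) *
          (2 * (2 * μs * M * Ck * K.ρ ^ 3 * N₁) ^ 2) ≤
          4 * (2 * (2 * μs * M * Ck * K.ρ ^ 3 * N₁) ^ 2) :=
        mul_le_mul_of_nonneg_right hvol (by positivity)
      have e4 : 2 * μs ^ 2 * Cd ^ 2 * (C₁ * K.ρ ^ 2 * N₁ ^ 2) ≤
          2 * μs ^ 2 * Cd ^ 2 * C₁ * (K.ρ ^ 3 * N₁) ^ 2 := by
        have e5 : K.ρ ^ 2 ≤ K.ρ ^ 6 := pow_le_pow_right₀ hρ1 (by norm_num)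
        have e6 : K.ρ ^ 2 * N₁ ^ 2 ≤ (K.ρ ^ 3 * N₁) ^ 2 := by
          calc _ ≤ K.ρ ^ 6 * N₁ ^ 2 := mul_le_mul_of_nonneg_right e5 (sq_nonneg _)
            _ = _ := by ring
        calc _ = 2 * μs ^ 2 * Cd ^ 2 * C₁ * (K.ρ ^ 2 * N₁ ^ 2) := by ring
          _ ≤ _ := mul_le_mul_of_nonneg_left e6 (by positivity)
      calc _ ≤ 2 * μs ^ 2 * Cd ^ 2 * C₁ * (K.ρ ^ 3 * N₁) ^ 2 +
            4 * (2 * (2 * μs * M * Ck * K.ρ ^ 3 * N₁) ^ 2) := by linarith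
        _ = _ := by rw [hC₂]; ring
    have hloc : ∀ᵐ x : ℂ, ∀ j, x ∈ Metric.ball x₀ (1 / 2) → |(GG K U c ξ x).1 j| ≤
        Cl * (1 * Real.sqrt (∫ z in Metric.ball x₀ 1, rhsj K U c ξ j z ^ 2)
        + Real.sqrt (∫ z in Metric.ball x₀ 1, gsq (GG K U c ξ z))
        + 1⁻¹ * Real.sqrt (∫ z in Metric.ball x₀ 1, ‖(GG K U c ξ z).1‖ ^ 2)) := by
      rw [ae_all_iff]
      intro j
      exact h2 K hK2 U hU c ξ hξ hEL j 1 x₀ one_pos
    filter_upwards [hloc] with x hx hxb j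
    refine (hx j hxb).trans ?_
    have hρN : 0 ≤ K.ρ ^ 3 * N₁ := by positivity
    have s1 : Real.sqrt (∫ z in Metric.ball x₀ 1, rhsj K U c ξ j z ^ 2) ≤
        Real.sqrt C₂ * (K.ρ ^ 3 * N₁) := by
      refine (Real.sqrt_le_sqrt (hf j)).trans ?_
      rw [Real.sqrt_mul hC₂0, Real.sqrt_sq hρN]
    have s0 : Real.sqrt (C₁ * K.ρ ^ 2 * N₁ ^ 2) ≤ Real.sqrt C₁ * (K.ρ ^ 3 * N₁) := by
      rw [mul_assoc, Real.sqrt_mul hC₁0.le, ← mul_pow, Real.sqrt_sq (by positivity)]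
      apply mul_le_mul_of_nonneg_left _ (Real.sqrt_nonneg _)
      apply mul_le_mul_of_nonneg_right _ hN₁
      calc K.ρ = K.ρ ^ 1 := (pow_one _).symm
        _ ≤ K.ρ ^ 3 := pow_le_pow_right₀ hρ1 (by norm_num)
    have s2 := (Real.sqrt_le_sqrt hg1).trans s0
    have s3 := (Real.sqrt_le_sqrt hg2).trans s0
    rw [inv_one, one_mul, one_mul]
    calc _ ≤ Cl * ((Real.sqrt C₂ + 2 * Real.sqrt C₁) * (K.ρ ^ 3 * N₁)) := by
          apply mul_le_mul_of_nonneg_left _ hCl.le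
          linarith
      _ = Cl * (Real.sqrt C₂ + 2 * Real.sqrt C₁) * (K.ρ ^ 3 * N₁) := by ring
      _ ≤ K.ρ * (K.ρ ^ 3 * N₁) := mul_le_mul_of_nonneg_right hK7 hρN
      _ = K.ρ ^ 4 * N₁ := by ring
  filter_upwards [hmain] with x hx h3 h4 j
  exact hx ⟨h3, h4⟩ j

end Pool.MP_ad5d82_an.Wl
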