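import Pool.Agent.Lib.MP_ad5d82_an.h24.PDefs
import Pool.Agent.Lib.MP_ad5d82_an.h24.H.H6
import Pool.Agent.Lib.MP_ad5d82_an.h24.R.R3
import Pool.Agent.Lib.MP_ad5d82_an.h24.F.F5
import Pool.Agent.Lib.MP_ad5d82_an.h24.P.P0
import Pool.Agent.Lib.MP_ad5d82_an.h24.P.P1
import Pool.Agent.Lib.MP_ad5d82_an.h24.P.P2
import Pool.Agent.Lib.MP_ad5d82_an.h24.P.P3
import Pool.Agent.Lib.MP_ad5d82_an.h24.P.P3b
import Pool.Agent.Lib.MP_ad5d82_an.h24.P.P4
import Pool.Agent.Lib.MP_ad5d82_an.h24.P.PC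
import Pool.Agent.Lib.MP_ad5d82_an.h24.P.P14c
import Pool.Agent.Lib.MP_ad5d82_an.h24.P.P17a

set_option autoImplicit false

namespace Pool.MP_ad5d82_an.Wl

open Real Set MeasureTheory Filter Topology
open scoped ContDiff

variable {ι : Type} [Fintype ι] [DecidableEq ι]

variable {B : Base ι} {δ R₀ Ξ : ℝ}


/-! ### P17d supremum bound for `‖x‖ ≥ 5ρ` -/

private theorem P17d_sq {E : Type*} [SeminormedAddCommGroup E] (a b : E) :
    ‖a + b‖ ^ 2 ≤ 2 * ‖a‖ ^ 2 + 2 * ‖b‖ ^ 2 := by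
  have h1 := norm_add_le a b
  have h2 := pow_le_pow_left₀ (norm_nonneg _) h1 2
  linarith [sq_nonneg (‖a‖ - ‖b‖)]

private theorem P17d_gsq_nonneg {ι : Type} [Fintype ι] (u : Ev ι × Ev ι × Ev ι) : 0 ≤ gsq u := by
  unfold gsq; positivity

private theorem P17d_gsq_add {ι : Type} [Fintype ι] (u w : Ev ι × Ev ι × Ev ι) :
    gsq (u + w) ≤ 2 * gsq u + 2 * gsq w := by
  unfold gsq
  have h2 := P17d_sq u.2.1 w.2.1
  have h3 := P17d_sq u.2.2 w.2.2
  have e2 : (u + w).2.1 = u.2.1 + w.2.1 := rfl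
  have e3 : (u + w).2.2 = u.2.2 + w.2.2 := rfl
  rw [e2, e3]
  linarith

/-- value and gradient energy of `GG` on a ball in terms of `U` and `c`. -/
theorem P17d_energy (B : Base ι) : ∃ D : ℝ, 0 < D ∧ ∀ (δ R₀ Ξ : ℝ) (K : Cfg B δ R₀ Ξ), 1 ≤ K.ρ →
    ∀ U : Fld ι, IsSob U → ∀ (c : Cc B.S) (ξ : ℂ) (x₀ : ℂ) (R : ℝ),
    IntegrableOn (fun z => ‖(GG K U c ξ z).1‖ ^ 2) (Metric.ball x₀ R) volume ∧
    ∫ z in Metric.ball x₀ R, ‖(GG K U c ξ z).1‖ ^ 2 ≤
      2 * (∫ z in Metric.ball x₀ R, ‖(U z).1‖ ^ 2) + 2 * (D * K.ρ ^ 2 * ∑ i, c i ^ 2) ∧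
    ∫ z in Metric.ball x₀ R, gsq (GG K U c ξ z) ≤
      2 * (∫ z in Metric.ball x₀ R, gsq (U z)) + 2 * (D * K.ρ ^ 2 * ∑ i, c i ^ 2) := by
  obtain ⟨D, hD, hE⟩ := Cf_energy B.S B.c₀ B.C₀
  refine ⟨D, hD, fun δ R₀ Ξ K hρ U hU c ξ x₀ R => ?_⟩
  obtain ⟨hi, hb⟩ := hE K.ρ K.F K.χ K.fam hρ c ξ
  have hball : Metric.ball x₀ R ⊆ Metric.ball (0 : ℂ) (‖x₀‖ + R) := by
    intro y hy
    rw [Metric.mem_ball, dist_eq_norm] at hy
    rw [mem_ball_zero_iff]
    calc ‖y‖ = ‖x₀ + (y - x₀)‖ := by congr 1; ring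
      _ ≤ ‖x₀‖ + ‖y - x₀‖ := norm_add_le _ _
      _ < _ := by linarith
  have hint : ∀ V : Fld ι, IsSob V →
      IntegrableOn (fun z => ‖(V z).1‖ ^ 2) (Metric.ball x₀ R) volume := fun V hV =>
    (hV.integrableOn_sq _).mono_set hball
  have hG : IsSob (GG K U c ξ) := isSob_GG K hU c ξ
  have hC : IsSob (jet (Cf B.S K.χ c ξ)) := isSob_Cf K c ξ
  refine ⟨hint _ hG, ?_, ?_⟩
  · have e1 : ∫ z in Metric.ball x₀ R, ‖(GG K U c ξ z).1‖ ^ 2 ≤
        ∫ z in Metric.ball x₀ R, (2 * ‖(U z).1‖ ^ 2 + 2 * ‖(jet (Cf B.S K.χ c ξ) z).1‖ ^ 2) := by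
      apply integral_mono_of_nonneg
      · exact Filter.Eventually.of_forall fun z => sq_nonneg _
      · exact ((hint U hU).const_mul 2).add ((hint _ hC).const_mul 2)
      · exact Filter.Eventually.of_forall fun z => P17d_sq (U z).1 (jet (Cf B.S K.χ c ξ) z).1
    rw [integral_add ((hint U hU).const_mul 2) ((hint _ hC).const_mul 2), integral_const_mul,
      integral_const_mul] at e1
    have e2 : ∫ z in Metric.ball x₀ R, ‖(jet (Cf B.S K.χ c ξ) z).1‖ ^ 2 ≤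
        ∫ z, (gsq (jet (Cf B.S K.χ c ξ) z) + ‖Cf B.S K.χ c ξ z‖ ^ 2) := by
      refine le_trans ?_ (setIntegral_le_integral (s := Metric.ball x₀ R) hi
        (Filter.Eventually.of_forall fun z => add_nonneg (P17d_gsq_nonneg _) (sq_nonneg _)))
      apply integral_mono_of_nonneg
      · exact Filter.Eventually.of_forall fun z => sq_nonneg _
      · exact hi.integrableOn
      · exact Filter.Eventually.of_forall fun z => by
          have := P17d_gsq_nonneg (jet (Cf B.S K.χ c ξ) z)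
          show ‖Cf B.S K.χ c ξ z‖ ^ 2 ≤ _
          linarith
    linarith
  · have e1 : ∫ z in Metric.ball x₀ R, gsq (GG K U c ξ z) ≤
        ∫ z in Metric.ball x₀ R, (2 * gsq (U z) + 2 * gsq (jet (Cf B.S K.χ c ξ) z)) := by
      apply integral_mono_of_nonneg
      · exact Filter.Eventually.of_forall fun z => P17d_gsq_nonneg _
      · exact (hU.integrable_gsq.integrableOn.const_mul 2).add
          (hC.integrable_gsq.integrableOn.const_mul 2)
      · exact Filter.Eventually.of_forall fun z => P17d_gsq_add (U z) (jet (Cf B.S K.χ c ξ) z)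
    rw [integral_add (hU.integrable_gsq.integrableOn.const_mul 2)
      (hC.integrable_gsq.integrableOn.const_mul 2), integral_const_mul, integral_const_mul] at e1
    have e2 : ∫ z in Metric.ball x₀ R, gsq (jet (Cf B.S K.χ c ξ) z) ≤
        ∫ z, (gsq (jet (Cf B.S K.χ c ξ) z) + ‖Cf B.S K.χ c ξ z‖ ^ 2) := by
      refine le_trans ?_ (setIntegral_le_integral (s := Metric.ball x₀ R) hi
        (Filter.Eventually.of_forall fun z => add_nonneg (P17d_gsq_nonneg _) (sq_nonneg _)))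
      apply integral_mono_of_nonneg
      · exact Filter.Eventually.of_forall fun z => P17d_gsq_nonneg _
      · exact hi.integrableOn
      · exact Filter.Eventually.of_forall fun z => by
          show gsq _ ≤ _
          linarith [sq_nonneg ‖Cf B.S K.χ c ξ z‖]
    linarith

theorem far_bound (B : Base ι) : ∃ N : ℕ, ∀ δ R₀ Ξ : ℝ, 0 < δ → δ ≤ 1 →
    1 ≤ R₀ → 0 ≤ Ξ → ∃ ρ₀ : ℝ, ∀ K : Cfg B δ R₀ Ξ, ρ₀ ≤ K.ρ → ∀ U : Fld ι, IsSob U →
    ∀ (c : Cc B.S) (ξ : ℂ), ‖ξ‖ ≤ Ξ → (∀ φ : Fld ι, IsSob φ → DPhi K U c ξ φ = 0) →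
    ∀ N₁ : ℝ, 0 ≤ N₁ → NII K.ρ (0.88 * K.ρ) U ≤ N₁ ^ 2 → ∑ i, c i ^ 2 ≤ N₁ ^ 2 →
    ∀ᵐ x : ℂ, 5 * K.ρ ≤ ‖x‖ → ∀ j,
      |(GG K U c ξ x).1 j| ≤ K.ρ ^ N * N₁ * (1 + Real.log (‖x‖ / K.ρ)) := by
  obtain ⟨Cd, hCd, hd⟩ := P17a_dpot_out B
  obtain ⟨Cl, hCl, hl⟩ := P17a_local (ι := ι)
  obtain ⟨D, hD, hEn⟩ := P17d_energy B
  obtain ⟨Co, hlo⟩ := log_out (ι := ι)
  obtain ⟨Rv, hRv1, _, hRv⟩ := v0_supp B
  set μs : ℝ := ∑ j, (B.S.μ j : ℝ) with hμs
  have hμs0 : 0 ≤ μs := Finset.sum_nonneg fun j _ => (P17a_mu_pos' B.S j).le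
  have hCd0 : 0 ≤ Cd := by linarith
  set C₄ : ℝ := 34 * |Co| + 2 * D with hC₄
  have hC₄0 : 0 < C₄ := by positivity
  set C₅ : ℝ := 4 * μs * Cd * Real.sqrt C₄ + Real.sqrt (2 + 2 * D) + 4 * Real.sqrt C₄ with hC₅
  have hC₅0 : 0 ≤ C₅ := by positivity
  refine ⟨3, fun δ R₀ Ξ hδ hδ1 hR hΞ => ?_⟩
  obtain ⟨ρ₁, h100, h1⟩ := hd δ R₀ Ξ hδ hδ1 hΞ
  obtain ⟨ρ₂, h2⟩ := hl B δ R₀ Ξ hδ hδ1 hR hΞ
  refine ⟨ρ₁ + |ρ₂| + 100 * Ξ + 10 * R₀ + 10 * Rv + 2 * Cl * C₅,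
    fun K hK U hU c ξ hξ hEL N₁ hN₁ hNII hc => ?_⟩
  have hs1 : 0 ≤ 2 * Cl * C₅ := by positivity
  have hab := le_abs_self ρ₂
  have hab' := abs_nonneg ρ₂
  have hK1 : ρ₁ ≤ K.ρ := by linarith
  have hK2 : ρ₂ ≤ K.ρ := by linarith
  have hK3 : 100 ≤ K.ρ := by linarith
  have hK4 : 100 * Ξ ≤ K.ρ := by linarith
  have hK5 : 10 * R₀ ≤ K.ρ := by linarith
  have hK6 : 10 * Rv ≤ K.ρ := by linarith
  have hK7 : 2 * Cl * C₅ ≤ K.ρ := by linarith
  have hρ1 : 1 ≤ K.ρ := by linarith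
  have hρ0 : 0 < K.ρ := by linarith
  -- the two energies of `U` from `NII`
  set A2 : Set ℂ := {x : ℂ | 0.88 * K.ρ ≤ ‖x‖} with hA2
  set f2 : ℂ → ℝ := fun x => gsq (U x) + wgt K.ρ ‖x‖ * ‖(U x).1‖ ^ 2 with hf2
  have hwg : ∀ x : ℂ, 0 ≤ wgt K.ρ ‖x‖ := fun x => le_min zero_le_one (by positivity)
  have hf2n : ∀ x, 0 ≤ f2 x := fun x =>
    add_nonneg (P17d_gsq_nonneg _) (mul_nonneg (hwg x) (sq_nonneg _))
  have hf2i : IntegrableOn f2 A2 volume :=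
    (hU.integrable_gsq.add (hU.integrable_wgt hρ1)).integrableOn
  have hN2 : ∫ x in A2, f2 x ≤ N₁ ^ 2 := hNII
  have hgs : ∀ s : Set ℂ, MeasurableSet s → s ⊆ A2 → ∫ x in s, gsq (U x) ≤ N₁ ^ 2 := by
    intro s hsm hs
    refine le_trans ?_ hN2
    refine le_trans ?_ (setIntegral_mono_set hf2i (Filter.Eventually.of_forall fun x => hf2n x)
      hs.eventuallyLE)
    apply integral_mono_of_nonneg
    · exact Filter.Eventually.of_forall fun z => P17d_gsq_nonneg _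
    · exact hf2i.mono_set hs
    · exact Filter.Eventually.of_forall fun z => by
        have := mul_nonneg (hwg z) (sq_nonneg ‖(U z).1‖)
        show gsq (U z) ≤ gsq (U z) + wgt K.ρ ‖z‖ * ‖(U z).1‖ ^ 2
        linarith
  have hm1 : MeasurableSet {x : ℂ | K.ρ < ‖x‖} :=
    (isOpen_lt continuous_const continuous_norm).measurableSet
  have hm2 : MeasurableSet {x : ℂ | K.ρ < ‖x‖ ∧ ‖x‖ < 2 * K.ρ} :=
    ((isOpen_lt continuous_const continuous_norm).inter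
      (isOpen_lt continuous_norm continuous_const)).measurableSet
  have hE1 : ∫ x in {x : ℂ | K.ρ < ‖x‖}, gsq (U x) ≤ N₁ ^ 2 := by
    apply hgs _ hm1
    intro x hx
    have : K.ρ < ‖x‖ := hx
    show 0.88 * K.ρ ≤ ‖x‖
    linarith
  have hE2 : ∫ x in {x : ℂ | K.ρ < ‖x‖ ∧ ‖x‖ < 2 * K.ρ}, ‖(U x).1‖ ^ 2 ≤ 16 * N₁ ^ 2 := by
    have hs : {x : ℂ | K.ρ < ‖x‖ ∧ ‖x‖ < 2 * K.ρ} ⊆ A2 := by
      intro x hx
      show 0.88 * K.ρ ≤ ‖x‖
      linarith [hx.1]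
    have e1 : ∫ x in {x : ℂ | K.ρ < ‖x‖ ∧ ‖x‖ < 2 * K.ρ}, ‖(U x).1‖ ^ 2 ≤
        ∫ x in {x : ℂ | K.ρ < ‖x‖ ∧ ‖x‖ < 2 * K.ρ}, 16 * f2 x := by
      apply integral_mono_of_nonneg
      · exact Filter.Eventually.of_forall fun z => sq_nonneg _
      · exact (hf2i.mono_set hs).const_mul _
      · refine (ae_restrict_iff' hm2).mpr (Filter.Eventually.of_forall fun z hz => ?_)
        have hzpos : 0 < ‖z‖ := by linarith [hz.1]
        have hw : 1 / 16 ≤ wgt K.ρ ‖z‖ := by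
          apply le_min (by norm_num)
          have e1 : 1 / 2 ≤ K.ρ / ‖z‖ := by
            rw [div_le_div_iff₀ (by norm_num) hzpos]
            linarith [hz.2]
          calc (1 / 16 : ℝ) = (1 / 2) ^ 4 := by norm_num
            _ ≤ _ := pow_le_pow_left₀ (by norm_num) e1 4
        have e2 := mul_le_mul_of_nonneg_right hw (sq_nonneg ‖(U z).1‖)
        have e3 := P17d_gsq_nonneg (U z)
        show ‖(U z).1‖ ^ 2 ≤ 16 * (gsq (U z) + wgt K.ρ ‖z‖ * ‖(U z).1‖ ^ 2)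
        linarith
    rw [integral_const_mul] at e1
    have e2 : ∫ x in {x : ℂ | K.ρ < ‖x‖ ∧ ‖x‖ < 2 * K.ρ}, f2 x ≤ ∫ x in A2, f2 x :=
      setIntegral_mono_set hf2i (Filter.Eventually.of_forall fun x => hf2n x) hs.eventuallyLE
    linarith
  have hmain : ∀ᵐ x : ℂ, x ∈ {x : ℂ | 5 * K.ρ ≤ ‖x‖} → ∀ j,
      |(GG K U c ξ x).1 j| ≤ K.ρ ^ 3 * N₁ * (1 + Real.log (‖x‖ / K.ρ)) := by
    apply P17a_ae_cover (r := 1 / 2) (by norm_num)
    rintro x₀ ⟨y, hy, hyx⟩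
    have hy' : 5 * K.ρ ≤ ‖y‖ := hy
    set r := ‖x₀‖ with hr
    have hr1 : 5 * K.ρ - 1 / 2 ≤ r := by
      have e2 : ‖y‖ ≤ ‖x₀‖ + ‖y - x₀‖ := by
        calc ‖y‖ = ‖x₀ + (y - x₀)‖ := by congr 1; ring
          _ ≤ _ := norm_add_le _ _
      linarith
    have hr4 : 4 * K.ρ ≤ r := by linarith
    have hr0 : 0 < r := by linarith
    set L := Real.log (r / K.ρ) with hL
    have hL0 : 0 ≤ L := by
      apply Real.log_nonneg
      rw [one_le_div hρ0]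
      linarith
    have hR4 : 0 < r / 4 := by positivity
    have hb : ∀ z ∈ Metric.ball x₀ (r / 4), 3 / 4 * r < ‖z‖ ∧ ‖z‖ < 5 / 4 * r := by
      intro z hz
      rw [Metric.mem_ball, dist_eq_norm] at hz
      have e2 : ‖x₀‖ ≤ ‖z‖ + ‖z - x₀‖ := by
        calc ‖x₀‖ = ‖z - (z - x₀)‖ := by congr 1; ring
          _ ≤ _ := norm_sub_le _ _
      have e3 : ‖z‖ ≤ ‖x₀‖ + ‖z - x₀‖ := by
        calc ‖z‖ = ‖x₀ + (z - x₀)‖ := by congr 1; ring
          _ ≤ _ := norm_add_le _ _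
      constructor <;> linarith
    obtain ⟨hiG, hG1, hG2⟩ := hEn δ R₀ Ξ K hρ1 U hU c ξ x₀ (r / 4)
    -- value of `U` on the ball
    have hUann : ∫ z in Metric.ball x₀ (r / 4), ‖(U z).1‖ ^ 2 ≤
        17 * |Co| * (r ^ 2 * (1 + L)) * N₁ ^ 2 := by
      have e1 := hlo K.ρ r hρ1 hr4 U hU
      have hann : IntegrableOn (fun x => ‖(U x).1‖ ^ 2) {x : ℂ | r / 2 < ‖x‖ ∧ ‖x‖ < 2 * r}
          volume := by
        apply (hU.integrableOn_sq (2 * r)).mono_set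
        intro x hx
        rw [mem_ball_zero_iff]
        exact hx.2
      have e2 : ∫ z in Metric.ball x₀ (r / 4), ‖(U z).1‖ ^ 2 ≤
          ∫ x in {x : ℂ | r / 2 < ‖x‖ ∧ ‖x‖ < 2 * r}, ‖(U x).1‖ ^ 2 := by
        have hsb : Metric.ball x₀ (r / 4) ⊆ {x : ℂ | r / 2 < ‖x‖ ∧ ‖x‖ < 2 * r} := by
          intro z hz
          have := hb z hz
          exact ⟨by linarith [this.1], by linarith [this.2]⟩
        exact setIntegral_mono_set hann (Filter.Eventually.of_forall fun x => sq_nonneg _)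
          hsb.eventuallyLE
      refine e2.trans (e1.trans ?_)
      have e3 : (∫ x in {x : ℂ | K.ρ < ‖x‖}, gsq (U x))
          + (K.ρ ^ 2)⁻¹ * ∫ x in {x : ℂ | K.ρ < ‖x‖ ∧ ‖x‖ < 2 * K.ρ}, ‖(U x).1‖ ^ 2 ≤
          17 * N₁ ^ 2 := by
        have e4 : (K.ρ ^ 2)⁻¹ ≤ 1 := inv_le_one_of_one_le₀ (one_le_pow₀ hρ1)
        have e5 : (K.ρ ^ 2)⁻¹ * ∫ x in {x : ℂ | K.ρ < ‖x‖ ∧ ‖x‖ < 2 * K.ρ}, ‖(U x).1‖ ^ 2 ≤
            1 * (16 * N₁ ^ 2) := by
          apply mul_le_mul e4 hE2 _ zero_le_one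
          exact integral_nonneg fun z => sq_nonneg _
        linarith
      have e4 : 0 ≤ (∫ x in {x : ℂ | K.ρ < ‖x‖}, gsq (U x))
          + (K.ρ ^ 2)⁻¹ * ∫ x in {x : ℂ | K.ρ < ‖x‖ ∧ ‖x‖ < 2 * K.ρ}, ‖(U x).1‖ ^ 2 := by
        apply add_nonneg (integral_nonneg fun z => P17d_gsq_nonneg _)
        exact mul_nonneg (by positivity) (integral_nonneg fun z => sq_nonneg _)
      have e5 : Co * r ^ 2 * (1 + Real.log (r / K.ρ)) ≤ |Co| * r ^ 2 * (1 + L) := by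
        rw [← hL]
        apply mul_le_mul_of_nonneg_right _ (by positivity)
        exact mul_le_mul_of_nonneg_right (le_abs_self _) (by positivity)
      calc _ ≤ |Co| * r ^ 2 * (1 + L) * (17 * N₁ ^ 2) := mul_le_mul e5 e3 e4 (by positivity)
        _ = _ := by ring
    have hcD : D * K.ρ ^ 2 * ∑ i, c i ^ 2 ≤ D * K.ρ ^ 2 * N₁ ^ 2 :=
      mul_le_mul_of_nonneg_left hc (by positivity)
    have hV : ∫ z in Metric.ball x₀ (r / 4), ‖(GG K U c ξ z).1‖ ^ 2 ≤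
        C₄ * (r ^ 2 * (1 + L)) * N₁ ^ 2 := by
      have e1 : K.ρ ^ 2 ≤ r ^ 2 * (1 + L) := by
        have h8 : K.ρ ^ 2 ≤ r ^ 2 := pow_le_pow_left₀ hρ0.le (by linarith) 2
        have h9 : 0 ≤ r ^ 2 * L := by positivity
        linarith
      have e2 : D * K.ρ ^ 2 * N₁ ^ 2 ≤ D * (r ^ 2 * (1 + L)) * N₁ ^ 2 := by
        apply mul_le_mul_of_nonneg_right _ (sq_nonneg _)
        exact mul_le_mul_of_nonneg_left e1 hD.le
      calc _ ≤ 2 * (17 * |Co| * (r ^ 2 * (1 + L)) * N₁ ^ 2) +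
            2 * (D * (r ^ 2 * (1 + L)) * N₁ ^ 2) := by linarith
        _ = _ := by rw [hC₄]; ring
    have hW : ∫ z in Metric.ball x₀ (r / 4), gsq (GG K U c ξ z) ≤
        (2 + 2 * D) * (K.ρ * N₁) ^ 2 := by
      have e1 : ∫ z in Metric.ball x₀ (r / 4), gsq (U z) ≤ N₁ ^ 2 := by
        apply hgs _ measurableSet_ball
        intro z hz
        show 0.88 * K.ρ ≤ ‖z‖
        linarith [(hb z hz).1]
      have e2 : 1 ≤ K.ρ ^ 2 := one_le_pow₀ hρ1
      have e3 : N₁ ^ 2 ≤ K.ρ ^ 2 * N₁ ^ 2 := le_mul_of_one_le_left (sq_nonneg N₁) e2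
      calc _ ≤ 2 * (K.ρ ^ 2 * N₁ ^ 2) + 2 * (D * K.ρ ^ 2 * N₁ ^ 2) := by linarith
        _ = _ := by ring
    -- the right-hand side
    set κ : ℝ := μs * Cd * (16 * K.ρ ^ 4 / r ^ 4) with hκ
    have hκ0 : 0 ≤ κ := by positivity
    have hpt : ∀ j, ∀ z ∈ Metric.ball x₀ (r / 4), rhsj K U c ξ j z ^ 2 ≤
        κ ^ 2 * ‖(GG K U c ξ z).1‖ ^ 2 := by
      intro j z hz
      have hz' := hb z hz
      have hzpos : 0 < ‖z‖ := by linarith [hz'.1]
      have hμ := P17a_mu_pos' B.S j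
      have hμle : (B.S.μ j : ℝ) ≤ μs :=
        Finset.single_le_sum (f := fun j => (B.S.μ j : ℝ)) (fun i _ => (P17a_mu_pos' B.S i).le)
          (Finset.mem_univ j)
      rw [P17a_rhs_eq hRv K U c ξ j z (by linarith [hz'.1]) (by
        have e1 : ‖z‖ - ‖ξ‖ ≤ ‖z - ξ‖ := norm_sub_norm_le _ _
        rw [abs_of_nonneg (by linarith [hz'.1])]
        linarith [hz'.1])]
      have e2 := (h1 K hK1 ξ hξ z (GG K U c ξ z).1 j (by linarith [hz'.1])).2
        (by linarith [hz'.1])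
      set g := (GG K U c ξ z).1 with hg
      have hw : wgt K.ρ ‖z‖ ≤ 16 * K.ρ ^ 4 / r ^ 4 := by
        refine (min_le_right _ _).trans ?_
        have e3 : K.ρ / ‖z‖ ≤ 2 * K.ρ / r := by
          rw [div_le_div_iff₀ hzpos hr0]
          have h8 := mul_le_mul_of_nonneg_left hz'.1.le hρ0.le
          have h9 : 0 ≤ K.ρ * r := by positivity
          linarith
        calc (K.ρ / ‖z‖) ^ 4 ≤ (2 * K.ρ / r) ^ 4 := pow_le_pow_left₀ (by positivity) e3 4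
          _ = _ := by rw [div_pow]; ring
      have e3 : |(B.S.μ j : ℝ) * fderiv ℝ (pot B δ R₀ K.ρ z (SS K.F (z - ξ))) g (bv j)| ≤
          κ * ‖g‖ := by
        rw [abs_mul, abs_of_pos hμ]
        calc _ ≤ μs * (Cd * wgt K.ρ ‖z‖ * ‖g‖) := mul_le_mul hμle e2 (abs_nonneg _) hμs0
          _ ≤ μs * (Cd * (16 * K.ρ ^ 4 / r ^ 4) * ‖g‖) := by
              apply mul_le_mul_of_nonneg_left _ hμs0
              apply mul_le_mul_of_nonneg_right _ (norm_nonneg _)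
              exact mul_le_mul_of_nonneg_left hw hCd0
          _ = _ := by rw [hκ]; ring
      rw [← sq_abs]
      calc _ ≤ (κ * ‖g‖) ^ 2 := pow_le_pow_left₀ (abs_nonneg _) e3 2
        _ = _ := by ring
    set Y : ℝ := r * Real.sqrt (1 + L) * N₁ with hY
    have hY0 : 0 ≤ Y := by positivity
    have hY2 : Y ^ 2 = r ^ 2 * (1 + L) * N₁ ^ 2 := by
      rw [hY, mul_pow, mul_pow, Real.sq_sqrt (by positivity)]
    have hf : ∀ j, ∫ z in Metric.ball x₀ (r / 4), rhsj K U c ξ j z ^ 2 ≤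
        C₄ * (κ * Y) ^ 2 := by
      intro j
      have e1 : ∫ z in Metric.ball x₀ (r / 4), rhsj K U c ξ j z ^ 2 ≤
          ∫ z in Metric.ball x₀ (r / 4), κ ^ 2 * ‖(GG K U c ξ z).1‖ ^ 2 := by
        apply integral_mono_of_nonneg
        · exact Filter.Eventually.of_forall fun z => sq_nonneg _
        · exact hiG.const_mul _
        · exact (ae_restrict_iff' measurableSet_ball).mpr
            (Filter.Eventually.of_forall fun z hz => hpt j z hz)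
      rw [integral_const_mul] at e1
      refine e1.trans ?_
      calc _ ≤ κ ^ 2 * (C₄ * (r ^ 2 * (1 + L)) * N₁ ^ 2) :=
            mul_le_mul_of_nonneg_left hV (sq_nonneg _)
        _ = C₄ * (κ ^ 2 * (r ^ 2 * (1 + L) * N₁ ^ 2)) := by ring
        _ = _ := by rw [← hY2]; ring
    have hloc : ∀ᵐ x : ℂ, ∀ j, x ∈ Metric.ball x₀ (r / 4 / 2) → |(GG K U c ξ x).1 j| ≤
        Cl * (r / 4 * Real.sqrt (∫ z in Metric.ball x₀ (r / 4), rhsj K U c ξ j z ^ 2)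
        + Real.sqrt (∫ z in Metric.ball x₀ (r / 4), gsq (GG K U c ξ z))
        + (r / 4)⁻¹ * Real.sqrt (∫ z in Metric.ball x₀ (r / 4), ‖(GG K U c ξ z).1‖ ^ 2)) := by
      rw [ae_all_iff]
      intro j
      exact h2 K hK2 U hU c ξ hξ hEL j (r / 4) x₀ hR4
    filter_upwards [hloc] with x hx hxb j
    have hxb' : x ∈ Metric.ball x₀ (r / 4 / 2) :=
      Metric.ball_subset_ball (by linarith) hxb
    refine (hx j hxb').trans ?_
    set P : ℝ := K.ρ ^ 2 * (Real.sqrt (1 + L) * N₁) with hP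
    have hP0 : 0 ≤ P := by positivity
    have hsq1 : 1 ≤ Real.sqrt (1 + L) := by
      rw [Real.one_le_sqrt]
      linarith
    have hρ2 : 1 ≤ K.ρ ^ 2 := one_le_pow₀ hρ1
    have s1 : r / 4 * Real.sqrt (∫ z in Metric.ball x₀ (r / 4), rhsj K U c ξ j z ^ 2) ≤
        4 * μs * Cd * Real.sqrt C₄ * P := by
      have e1 : Real.sqrt (∫ z in Metric.ball x₀ (r / 4), rhsj K U c ξ j z ^ 2) ≤
          Real.sqrt C₄ * (κ * Y) := by
        refine (Real.sqrt_le_sqrt (hf j)).trans ?_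
        rw [Real.sqrt_mul hC₄0.le, Real.sqrt_sq (by positivity)]
      have e2 : r / 4 * (Real.sqrt C₄ * (κ * Y)) =
          4 * μs * Cd * Real.sqrt C₄ * ((K.ρ ^ 2 / r) ^ 2 * (Real.sqrt (1 + L) * N₁)) := by
        rw [hκ, hY]
        field_simp
        ring
      have e3 : (K.ρ ^ 2 / r) ^ 2 ≤ K.ρ ^ 2 := by
        have e4 : K.ρ ^ 2 / r ≤ K.ρ := by
          rw [div_le_iff₀ hr0, sq]
          exact mul_le_mul_of_nonneg_left (by linarith) hρ0.le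
        exact pow_le_pow_left₀ (by positivity) e4 2
      calc _ ≤ r / 4 * (Real.sqrt C₄ * (κ * Y)) := mul_le_mul_of_nonneg_left e1 hR4.le
        _ = _ := e2
        _ ≤ _ := by
            rw [hP]
            apply mul_le_mul_of_nonneg_left _ (by positivity)
            exact mul_le_mul_of_nonneg_right e3 (by positivity)
    have s2 : Real.sqrt (∫ z in Metric.ball x₀ (r / 4), gsq (GG K U c ξ z)) ≤
        Real.sqrt (2 + 2 * D) * P := by
      refine (Real.sqrt_le_sqrt hW).trans ?_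
      rw [Real.sqrt_mul (by positivity), Real.sqrt_sq (by positivity)]
      apply mul_le_mul_of_nonneg_left _ (Real.sqrt_nonneg _)
      rw [hP]
      have e1 : K.ρ ≤ K.ρ ^ 2 := by
        rw [sq]
        exact le_mul_of_one_le_left hρ0.le hρ1
      have e2 : N₁ ≤ Real.sqrt (1 + L) * N₁ := le_mul_of_one_le_left hN₁ hsq1
      exact mul_le_mul e1 e2 hN₁ (by positivity)
    have s3 : (r / 4)⁻¹ * Real.sqrt (∫ z in Metric.ball x₀ (r / 4), ‖(GG K U c ξ z).1‖ ^ 2) ≤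
        4 * Real.sqrt C₄ * P := by
      have e1 : Real.sqrt (∫ z in Metric.ball x₀ (r / 4), ‖(GG K U c ξ z).1‖ ^ 2) ≤
          Real.sqrt C₄ * Y := by
        refine (Real.sqrt_le_sqrt hV).trans ?_
        rw [mul_assoc, ← hY2, Real.sqrt_mul hC₄0.le, Real.sqrt_sq hY0]
      calc _ ≤ (r / 4)⁻¹ * (Real.sqrt C₄ * Y) := mul_le_mul_of_nonneg_left e1 (by positivity)
        _ = 4 * Real.sqrt C₄ * (1 * (Real.sqrt (1 + L) * N₁)) := by
            rw [hY]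
            field_simp
        _ ≤ _ := by
            rw [hP]
            apply mul_le_mul_of_nonneg_left _ (by positivity)
            exact mul_le_mul_of_nonneg_right hρ2 (by positivity)
    have hsum : r / 4 * Real.sqrt (∫ z in Metric.ball x₀ (r / 4), rhsj K U c ξ j z ^ 2)
        + Real.sqrt (∫ z in Metric.ball x₀ (r / 4), gsq (GG K U c ξ z))
        + (r / 4)⁻¹ * Real.sqrt (∫ z in Metric.ball x₀ (r / 4), ‖(GG K U c ξ z).1‖ ^ 2) ≤
        C₅ * P := by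
      calc _ ≤ 4 * μs * Cd * Real.sqrt C₄ * P + Real.sqrt (2 + 2 * D) * P
            + 4 * Real.sqrt C₄ * P := by linarith
        _ = _ := by rw [hC₅]; ring
    -- comparison of the logarithms
    have hxb2 : ‖x - x₀‖ < 1 / 2 := by
      rw [Metric.mem_ball, dist_eq_norm] at hxb
      exact hxb
    have hrx : r ≤ ‖x‖ + 1 / 2 := by
      calc ‖x₀‖ = ‖x - (x - x₀)‖ := by congr 1; ring
        _ ≤ ‖x‖ + ‖x - x₀‖ := norm_sub_le _ _
        _ ≤ _ := by linarith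
    have hx0 : 0 < ‖x‖ := by linarith
    have hlogx : 0 ≤ Real.log (‖x‖ / K.ρ) := by
      apply Real.log_nonneg
      rw [one_le_div hρ0]
      linarith
    have hLx : L ≤ Real.log (‖x‖ / K.ρ) + 1 := by
      have e1 : r / K.ρ ≤ 2 * (‖x‖ / K.ρ) := by
        rw [← mul_div_assoc]
        exact div_le_div_of_nonneg_right (by linarith) hρ0.le
      have e2 : L ≤ Real.log (2 * (‖x‖ / K.ρ)) := Real.log_le_log (by positivity) e1
      rw [Real.log_mul (by norm_num) (by positivity)] at e2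
      have e3 := Real.log_two_lt_d9
      linarith
    have hsq2 : Real.sqrt (1 + L) ≤ 2 * (1 + Real.log (‖x‖ / K.ρ)) := by
      have e1 : Real.sqrt (1 + L) ≤ 1 + L := by
        rw [Real.sqrt_le_left (by linarith)]
        exact le_self_pow₀ (by linarith) (by norm_num)
      linarith
    calc _ ≤ Cl * (C₅ * P) := mul_le_mul_of_nonneg_left hsum hCl.le
      _ ≤ Cl * (C₅ * (K.ρ ^ 2 * (2 * (1 + Real.log (‖x‖ / K.ρ)) * N₁))) := by
          apply mul_le_mul_of_nonneg_left _ hCl.le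
          apply mul_le_mul_of_nonneg_left _ hC₅0
          rw [hP]
          apply mul_le_mul_of_nonneg_left _ (by positivity)
          exact mul_le_mul_of_nonneg_right hsq2 hN₁
      _ = 2 * Cl * C₅ * (K.ρ ^ 2 * N₁ * (1 + Real.log (‖x‖ / K.ρ))) := by ring
      _ ≤ K.ρ * (K.ρ ^ 2 * N₁ * (1 + Real.log (‖x‖ / K.ρ))) := by
          apply mul_le_mul_of_nonneg_right hK7 (by positivity)
      _ = _ := by ring
  filter_upwards [hmain] with x hx h3 j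
  exact hx h3 j

end Pool.MP_ad5d82_an.Wl
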