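import Pool.Agent.Lib.MP_ad5d82_an.h24.PDefs
import Pool.Agent.Lib.MP_ad5d82_an.h24.P.P0
import Pool.Agent.Lib.MP_ad5d82_an.h24.P.P17a
import Pool.Agent.Lib.MP_ad5d82_an.h24.P.P17b
import Pool.Agent.Lib.MP_ad5d82_an.h24.P.P17c
import Pool.Agent.Lib.MP_ad5d82_an.h24.P.P17d

set_option autoImplicit false

namespace Pool.MP_ad5d82_an.Wl

open Real Set MeasureTheory Filter Topology
open scoped ContDiff

variable {ι : Type} [Fintype ι] [DecidableEq ι]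

variable {B : Base ι} {δ R₀ Ξ : ℝ}

private theorem P17_gsq_nn (u : Ev ι × Ev ι × Ev ι) : 0 ≤ gsq u := by
  unfold gsq; positivity

private theorem P17_log (C : ℝ) : Tendsto (fun R : ℝ => C * (1 + Real.log R) / R) atTop (𝓝 0) := by
  have h1 : Tendsto (fun R : ℝ => Real.log R / R) atTop (𝓝 0) := by
    have := Real.isLittleO_log_id_atTop.tendsto_div_nhds_zero
    simpa using this
  have h2 : Tendsto (fun R : ℝ => (1 : ℝ) / R) atTop (𝓝 0) := by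
    simpa using tendsto_inv_atTop_zero
  have h3 := (h2.add h1).const_mul C
  simp only [add_zero, mul_zero] at h3
  refine h3.congr fun R => ?_
  ring

private theorem P17_exp (k : ℕ) (D : ℝ) : Tendsto (fun ρ : ℝ => D * (ρ ^ k * exp (-(0.36 * ρ)))) atTop (𝓝 0) := by
  have h1 := Real.tendsto_pow_mul_exp_neg_atTop_nhds_zero k
  have h2 : Tendsto (fun ρ : ℝ => (0.36 * ρ)) atTop atTop :=
    tendsto_id.const_mul_atTop (by norm_num)
  have h3 := (h1.comp h2).const_mul (D / 0.36 ^ k)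
  rw [mul_zero] at h3
  refine h3.congr fun ρ => ?_
  simp only [Function.comp]
  rw [mul_pow]
  field_simp

/-! ### P17 supremum bounds: the truncations are inactive -/
theorem sup_bound (B : Base ι) (C : ℝ) : ∃ δ₁ : ℝ, 0 < δ₁ ∧ δ₁ ≤ 1 ∧ ∀ δ : ℝ, 0 < δ → δ ≤ δ₁ →
    ∃ R₂ : ℝ, 10 ≤ R₂ ∧ ∀ R₀ Ξ C₃ : ℝ, R₂ ≤ R₀ → 0 ≤ Ξ → ∃ ρ₀ : ℝ, ∀ K : Cfg B δ R₀ Ξ, ρ₀ ≤ K.ρ →
    ∀ U : Fld ι, IsSob U → ∀ (c : Cc B.S) (ξ : ℂ), ‖ξ‖ ≤ Ξ →
    (∀ φ : Fld ι, IsSob φ → DPhi K U c ξ φ = 0) →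
    NI (R₀ - 4) (0.9 * K.ρ) U ≤ C * (1 + Real.log R₀) / R₀ →
    (∫ x in {x : ℂ | R₀ ≤ ‖x‖ ∧ ‖x‖ < 0.88 * K.ρ},
      exp (1.8 * ‖x‖) * (gsq (U x) + ‖(U x).1‖ ^ 2)) ≤ C₃ →
    NII K.ρ (0.88 * K.ρ) U ≤ C₃ * K.ρ ^ 3 * exp (-1.58 * K.ρ) →
    ∑ i, c i ^ 2 ≤ C₃ * K.ρ ^ 5 * exp (-1.58 * K.ρ) →
    ∀ᵐ x : ℂ, R₀ ≤ ‖x‖ → ∀ j, |(GG K U c ξ x).1 j| ≤ 1 / 2 * tau δ K.ρ x := by
  obtain ⟨η₀, hη₀, C', R₂, hR₂, Hn⟩ := near_bound B
  obtain ⟨N, Hm⟩ := mid_bound B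
  obtain ⟨N', Hf⟩ := far_bound B
  refine ⟨1, one_pos, le_rfl, ?_⟩
  intro δ hδ hδ1
  -- the choice of `R₂`
  have hlim := P17_log C
  obtain ⟨θ, hθ0, hθ1, hθ2⟩ : ∃ θ : ℝ, 0 < θ ∧ θ ≤ η₀ ∧ C' * Real.sqrt θ ≤ δ / 2 := by
    refine ⟨min η₀ ((δ / (2 * (|C'| + 1))) ^ 2), lt_min hη₀ (by positivity), min_le_left _ _, ?_⟩
    have h1 : Real.sqrt (min η₀ ((δ / (2 * (|C'| + 1))) ^ 2)) ≤ δ / (2 * (|C'| + 1)) := by
      calc Real.sqrt (min η₀ ((δ / (2 * (|C'| + 1))) ^ 2))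
          ≤ Real.sqrt ((δ / (2 * (|C'| + 1))) ^ 2) := Real.sqrt_le_sqrt (min_le_right _ _)
        _ = δ / (2 * (|C'| + 1)) := Real.sqrt_sq (by positivity)
    have h2 : C' * Real.sqrt (min η₀ ((δ / (2 * (|C'| + 1))) ^ 2)) ≤
        (|C'| + 1) * (δ / (2 * (|C'| + 1))) := by
      apply mul_le_mul _ h1 (Real.sqrt_nonneg _) (by positivity)
      linarith [le_abs_self C']
    refine h2.trans (le_of_eq ?_)
    have h3 : |C'| + 1 ≠ 0 := by positivity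
    field_simp
  obtain ⟨R₃, hR₃⟩ := (eventually_atTop.1 (hlim.eventually (gt_mem_nhds hθ0)))
  refine ⟨max R₂ R₃, le_max_of_le_left hR₂, ?_⟩
  intro R₀ Ξ C₃ hR₀ hΞ
  have hR₀2 : R₂ ≤ R₀ := (le_max_left _ _).trans hR₀
  have hR₀3 : R₃ ≤ R₀ := (le_max_right _ _).trans hR₀
  have hR₀10 : 10 ≤ R₀ := hR₂.trans hR₀2
  obtain ⟨ρn, Hn'⟩ := Hn δ R₀ Ξ hδ hδ1 hR₀2 hΞ
  obtain ⟨ρm, Hm'⟩ := Hm δ R₀ Ξ hδ hδ1 (by linarith) hΞ
  obtain ⟨ρf, Hf'⟩ := Hf δ R₀ Ξ hδ hδ1 (by linarith) hΞ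
  set C₄ := 2 * |C₃| + 1 with hC₄
  have hC₄0 : 0 < C₄ := by positivity
  have hm1 := (P17_exp (N + 9) (Real.sqrt C₄)).eventually (gt_mem_nhds (show (0 : ℝ) < 1 / 2 by norm_num))
  have hf1 := (P17_exp (N' + 9) (Real.sqrt C₄)).eventually (gt_mem_nhds (show (0 : ℝ) < 1 / 2 by norm_num))
  obtain ⟨ρ3, hρ3⟩ := eventually_atTop.1 (hm1.and hf1)
  refine ⟨max (max (max ρn ρm) (max ρf ρ3)) (10 * R₀ + 100), ?_⟩
  intro K hK U hU c ξ hξ hEL hNI hA hNII hc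
  have hKn : ρn ≤ K.ρ := ((le_max_left _ _).trans (le_max_left _ _)).trans ((le_max_left _ _).trans hK)
  have hKm : ρm ≤ K.ρ := ((le_max_right _ _).trans (le_max_left _ _)).trans ((le_max_left _ _).trans hK)
  have hKf : ρf ≤ K.ρ := ((le_max_left _ _).trans (le_max_right _ _)).trans ((le_max_left _ _).trans hK)
  have hK3 : ρ3 ≤ K.ρ := ((le_max_right _ _).trans (le_max_right _ _)).trans ((le_max_left _ _).trans hK)
  have hKR : 10 * R₀ + 100 ≤ K.ρ := (le_max_right _ _).trans hK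
  obtain ⟨hm2, hf2⟩ := hρ3 K.ρ hK3
  set ρ := K.ρ with hρ
  have hρ100 : 100 ≤ ρ := by linarith
  have hρ0 : 0 < ρ := by linarith
  -- the size parameter
  set N₁ := Real.sqrt C₄ * (ρ ^ 3 * exp (-(0.36 * ρ))) with hN₁
  have hN₁0 : 0 ≤ N₁ := by positivity
  have hN₁sq : N₁ ^ 2 = C₄ * (ρ ^ 6 * exp (-(0.72 * ρ))) := by
    rw [hN₁, mul_pow, Real.sq_sqrt hC₄0.le, mul_pow, ← pow_mul, ← Real.exp_nat_mul]
    congr 3
    push_cast
    ring
  have hC₃ : C₃ ≤ |C₃| := le_abs_self _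
  have hexp : exp (-1.58 * ρ) ≤ exp (-(0.72 * ρ)) := by
    apply Real.exp_le_exp.2; linarith
  have hρ1 : 1 ≤ ρ := by linarith
  have hpow3 : ρ ^ 3 ≤ ρ ^ 6 := pow_le_pow_right₀ hρ1 (by norm_num)
  have hpow5 : ρ ^ 5 ≤ ρ ^ 6 := pow_le_pow_right₀ hρ1 (by norm_num)
  have hpow1 : 1 ≤ ρ ^ 6 := one_le_pow₀ hρ1
  have he0 : 0 < exp (-(0.72 * ρ)) := exp_pos _
  have hNII1 : NII ρ (0.88 * ρ) U ≤ |C₃| * (ρ ^ 6 * exp (-(0.72 * ρ))) := by
    refine hNII.trans ?_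
    rw [mul_assoc]
    refine (mul_le_mul_of_nonneg_right hC₃ (by positivity)).trans ?_
    apply mul_le_mul_of_nonneg_left _ (abs_nonneg _)
    exact mul_le_mul hpow3 hexp (exp_pos _).le (by positivity)
  have hc1 : ∑ i, c i ^ 2 ≤ |C₃| * (ρ ^ 6 * exp (-(0.72 * ρ))) := by
    refine hc.trans ?_
    rw [mul_assoc]
    refine (mul_le_mul_of_nonneg_right hC₃ (by positivity)).trans ?_
    apply mul_le_mul_of_nonneg_left _ (abs_nonneg _)
    exact mul_le_mul hpow5 hexp (exp_pos _).le (by positivity)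
  have hP0 : 0 ≤ ρ ^ 6 * exp (-(0.72 * ρ)) := by positivity
  have hNII2 : NII ρ (0.88 * ρ) U ≤ N₁ ^ 2 := by
    rw [hN₁sq, hC₄]
    have h1 : 0 ≤ |C₃| := abs_nonneg _
    nlinarith only [hNII1, h1, hP0, mul_nonneg h1 hP0]
  have hc2 : ∑ i, c i ^ 2 ≤ N₁ ^ 2 := by
    rw [hN₁sq, hC₄]
    have h1 : 0 ≤ |C₃| := abs_nonneg _
    nlinarith only [hc1, h1, hP0, mul_nonneg h1 hP0]
  -- the middle annulus
  have hNI2 : NI (0.4 * ρ) (0.9 * ρ) U ≤ N₁ ^ 2 := by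
    have hmle : MeasurableSet {x : ℂ | 0.88 * ρ ≤ ‖x‖ ∧ ‖x‖ < 0.9 * ρ} :=
      (measurableSet_le measurable_const measurable_norm).inter
        (measurableSet_lt measurable_norm measurable_const)
    have hmlt : MeasurableSet {x : ℂ | 0.4 * ρ < ‖x‖ ∧ ‖x‖ < 0.88 * ρ} :=
      (measurableSet_lt measurable_const measurable_norm).inter
        (measurableSet_lt measurable_norm measurable_const)
    have hsplit : {x : ℂ | 0.4 * ρ < ‖x‖ ∧ ‖x‖ < 0.9 * ρ}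
        = {x : ℂ | 0.4 * ρ < ‖x‖ ∧ ‖x‖ < 0.88 * ρ} ∪ {x : ℂ | 0.88 * ρ ≤ ‖x‖ ∧ ‖x‖ < 0.9 * ρ} := by
      ext x
      simp only [mem_setOf_eq, mem_union]
      constructor
      · rintro ⟨h1, h2⟩
        rcases lt_or_ge ‖x‖ (0.88 * ρ) with h3 | h3
        · exact Or.inl ⟨h1, h3⟩
        · exact Or.inr ⟨h3, h2⟩
      · rintro (h | h)
        · exact ⟨h.1, by linarith [h.2]⟩
        · exact ⟨by linarith [h.1], h.2⟩
    have hi : IntegrableOn (fun x => gsq (U x) + ‖(U x).1‖ ^ 2)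
        {x : ℂ | 0.4 * ρ < ‖x‖ ∧ ‖x‖ < 0.9 * ρ} volume := hU.integrableOn_ann _ _
    have hi1 : IntegrableOn (fun x => gsq (U x) + ‖(U x).1‖ ^ 2)
        {x : ℂ | 0.4 * ρ < ‖x‖ ∧ ‖x‖ < 0.88 * ρ} volume := by
      apply hi.mono_set
      rw [hsplit]; exact subset_union_left
    have hi2 : IntegrableOn (fun x => gsq (U x) + ‖(U x).1‖ ^ 2)
        {x : ℂ | 0.88 * ρ ≤ ‖x‖ ∧ ‖x‖ < 0.9 * ρ} volume := by
      apply hi.mono_set
      rw [hsplit]; exact subset_union_right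
    have hdisj : Disjoint {x : ℂ | 0.4 * ρ < ‖x‖ ∧ ‖x‖ < 0.88 * ρ}
        {x : ℂ | 0.88 * ρ ≤ ‖x‖ ∧ ‖x‖ < 0.9 * ρ} := by
      rw [Set.disjoint_left]
      intro x hx hx'
      exact absurd hx'.1 (not_le.2 hx.2)
    have h1 : ∫ x in {x : ℂ | 0.4 * ρ < ‖x‖ ∧ ‖x‖ < 0.88 * ρ}, (gsq (U x) + ‖(U x).1‖ ^ 2)
        ≤ |C₃| * exp (-(0.72 * ρ)) := by
      have hiA : IntegrableOn (fun x => exp (1.8 * ‖x‖) * (gsq (U x) + ‖(U x).1‖ ^ 2))
          {x : ℂ | R₀ ≤ ‖x‖ ∧ ‖x‖ < 0.88 * ρ} volume := by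
        have h2 : IntegrableOn (fun x => gsq (U x) + ‖(U x).1‖ ^ 2)
            {x : ℂ | R₀ ≤ ‖x‖ ∧ ‖x‖ < 0.88 * ρ} volume := by
          refine (hU.integrableOn_ann (R₀ - 1) (0.9 * ρ)).mono_set ?_
          intro x hx
          exact ⟨by linarith [hx.1], by linarith [hx.2]⟩
        refine Integrable.bdd_mul (c := exp (1.8 * (0.88 * ρ))) h2 ?_ ?_
        · exact (by fun_prop : Continuous fun x : ℂ => exp (1.8 * ‖x‖)).aestronglyMeasurable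
        · refine (ae_restrict_iff' ((measurableSet_le measurable_const measurable_norm).inter
            (measurableSet_lt measurable_norm measurable_const))).2
              (Filter.Eventually.of_forall fun x hx => ?_)
          rw [Real.norm_eq_abs, abs_of_pos (exp_pos _)]
          apply Real.exp_le_exp.2
          have hx2 : ‖x‖ < 0.88 * ρ := hx.2
          linarith
      have h3 : ∫ x in {x : ℂ | 0.4 * ρ < ‖x‖ ∧ ‖x‖ < 0.88 * ρ}, (gsq (U x) + ‖(U x).1‖ ^ 2)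
          ≤ ∫ x in {x : ℂ | 0.4 * ρ < ‖x‖ ∧ ‖x‖ < 0.88 * ρ},
            exp (-(0.72 * ρ)) * (exp (1.8 * ‖x‖) * (gsq (U x) + ‖(U x).1‖ ^ 2)) := by
        apply integral_mono_of_nonneg
        · exact Filter.Eventually.of_forall fun x => add_nonneg (P17_gsq_nn _) (by positivity)
        · apply Integrable.const_mul
          refine hiA.mono_set ?_
          intro x hx
          exact ⟨by linarith [hx.1], hx.2⟩
        · refine (ae_restrict_iff' hmlt).2 (Filter.Eventually.of_forall fun x hx => ?_)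
          beta_reduce
          rw [← mul_assoc, ← Real.exp_add]
          have h4 : 1 ≤ exp (-(0.72 * ρ) + 1.8 * ‖x‖) := by
            apply Real.one_le_exp
            linarith [hx.1]
          have h5 : 0 ≤ gsq (U x) + ‖(U x).1‖ ^ 2 := add_nonneg (P17_gsq_nn _) (by positivity)
          exact le_mul_of_one_le_left h5 h4
      rw [integral_const_mul] at h3
      have h4 : ∫ x in {x : ℂ | 0.4 * ρ < ‖x‖ ∧ ‖x‖ < 0.88 * ρ},
            exp (1.8 * ‖x‖) * (gsq (U x) + ‖(U x).1‖ ^ 2) ≤ |C₃| := by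
        refine (setIntegral_mono_set hiA ?_ ?_).trans (hA.trans hC₃)
        · refine Filter.Eventually.of_forall fun x => ?_
          have h5 : 0 ≤ gsq (U x) + ‖(U x).1‖ ^ 2 := add_nonneg (P17_gsq_nn _) (by positivity)
          show 0 ≤ exp (1.8 * ‖x‖) * (gsq (U x) + ‖(U x).1‖ ^ 2)
          positivity
        · refine Filter.Eventually.of_forall ?_
          intro x hx
          exact ⟨by linarith [hx.1], hx.2⟩
      have h5 := mul_le_mul_of_nonneg_left h4 he0.le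
      linarith
    have h2 : ∫ x in {x : ℂ | 0.88 * ρ ≤ ‖x‖ ∧ ‖x‖ < 0.9 * ρ}, (gsq (U x) + ‖(U x).1‖ ^ 2)
        ≤ NII ρ (0.88 * ρ) U := by
      have h3 : ∫ x in {x : ℂ | 0.88 * ρ ≤ ‖x‖ ∧ ‖x‖ < 0.9 * ρ}, (gsq (U x) + ‖(U x).1‖ ^ 2)
          = ∫ x in {x : ℂ | 0.88 * ρ ≤ ‖x‖ ∧ ‖x‖ < 0.9 * ρ},
            (gsq (U x) + wgt ρ ‖x‖ * ‖(U x).1‖ ^ 2) := by
        apply setIntegral_congr_fun hmle
        intro x hx
        have h4 : wgt ρ ‖x‖ = 1 := by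
          unfold wgt
          apply min_eq_left
          apply one_le_pow₀
          have h5 : 0 < ‖x‖ := by linarith [hx.1]
          rw [le_div_iff₀ h5]
          linarith [hx.2]
        show gsq (U x) + ‖(U x).1‖ ^ 2 = gsq (U x) + wgt ρ ‖x‖ * ‖(U x).1‖ ^ 2
        rw [h4, one_mul]
      rw [h3]
      unfold NII
      apply setIntegral_mono_set
      · exact (hU.integrable_gsq.add (hU.integrable_wgt hρ1)).integrableOn
      · refine Filter.Eventually.of_forall fun x => ?_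
        have h4 := P17_gsq_nn (U x)
        have h5 : 0 ≤ wgt ρ ‖x‖ := by
          unfold wgt
          exact le_min zero_le_one (by positivity)
        show 0 ≤ gsq (U x) + wgt ρ ‖x‖ * ‖(U x).1‖ ^ 2
        positivity
      · exact Filter.Eventually.of_forall fun x hx => hx.1
    unfold NI
    rw [hsplit, setIntegral_union hdisj hmle hi1 hi2, hN₁sq, hC₄]
    have h3 : |C₃| * exp (-(0.72 * ρ)) ≤ |C₃| * (ρ ^ 6 * exp (-(0.72 * ρ))) := by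
      apply mul_le_mul_of_nonneg_left _ (abs_nonneg _)
      exact le_mul_of_one_le_left he0.le hpow1
    linarith
  -- near
  have hθ3 := hR₃ R₀ hR₀3
  have hNI0 := NI_nonneg (R₀ - 4) (0.9 * ρ) U
  have hNIθ : NI (R₀ - 4) (0.9 * ρ) U ≤ θ := hNI.trans hθ3.le
  have hnear := Hn' K hKn U hU c ξ hξ hEL (hNIθ.trans hθ1)
  have hmid := Hm' K hKm U hU c ξ hξ hEL N₁ hN₁0 hNI2 hNII2 hc2
  have hfar := Hf' K hKf U hU c ξ hξ hEL N₁ hN₁0 hNII2 hc2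
  have hkey : ∀ n : ℕ, Real.sqrt C₄ * (ρ ^ (n + 9) * exp (-(0.36 * ρ))) < 1 / 2 →
      ρ ^ n * N₁ ≤ 1 / 2 * (ρ ^ 6)⁻¹ := by
    intro n hn
    have h1 : ρ ^ n * N₁ = (Real.sqrt C₄ * (ρ ^ (n + 9) * exp (-(0.36 * ρ)))) * (ρ ^ 6)⁻¹ := by
      rw [hN₁, eq_mul_inv_iff_mul_eq₀ (by positivity)]
      ring
    rw [h1]
    exact mul_le_mul_of_nonneg_right hn.le (by positivity)
  filter_upwards [hnear, hmid, hfar] with x h1 h2 h3 hx j
  unfold tau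
  split_ifs with h4
  · -- `‖x‖ < ρ/2`
    refine (h1 hx (by linarith) j).trans ?_
    have h5 : C' * Real.sqrt (NI (R₀ - 4) (0.9 * ρ) U) ≤ δ / 2 ∨ C' * Real.sqrt (NI (R₀ - 4) (0.9 * ρ) U) ≤ δ / 2 := by
      left
      rcases le_or_gt 0 C' with h6 | h6
      · refine (mul_le_mul_of_nonneg_left (Real.sqrt_le_sqrt hNIθ) h6).trans hθ2
      · have h7 : C' * Real.sqrt (NI (R₀ - 4) (0.9 * ρ) U) ≤ 0 :=
          mul_nonpos_of_nonpos_of_nonneg h6.le (Real.sqrt_nonneg _)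
        linarith
    rcases h5 with h5 | h5 <;> linarith
  · have h4' : ρ / 2 ≤ ‖x‖ := not_lt.1 h4
    have hpl : 0 ≤ Real.posLog (‖x‖ / ρ) := Real.posLog_nonneg
    have hinv : 0 < (ρ ^ 6)⁻¹ := by positivity
    rcases le_or_gt ‖x‖ (5 * ρ) with h5 | h5
    · refine (h2 h4' h5 j).trans ?_
      refine (hkey N hm2).trans ?_
      nlinarith only [hinv, hpl, mul_nonneg hinv.le hpl]
    · refine (h3 h5.le j).trans ?_
      have h6 : 1 + Real.log (‖x‖ / ρ) ≤ 1 + Real.posLog (‖x‖ / ρ) := by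
        have : Real.log (‖x‖ / ρ) ≤ Real.posLog (‖x‖ / ρ) := le_max_right _ _
        linarith
      have h7 : 0 ≤ ρ ^ N' * N₁ := by positivity
      refine (mul_le_mul_of_nonneg_left h6 h7).trans ?_
      have h8 := mul_le_mul_of_nonneg_right (hkey N' hf2) (show 0 ≤ 1 + Real.posLog (‖x‖ / ρ) by linarith)
      linarith

end Pool.MP_ad5d82_an.Wl
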