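import Pool.Agent.Lib.MP_ad5d82_an.h24.PDefs
import Pool.Agent.Lib.MP_ad5d82_an.h24.H.H1
import Pool.Agent.Lib.MP_ad5d82_an.h24.H.H4
import Pool.Agent.Lib.MP_ad5d82_an.h24.H.H8b
import Pool.Agent.Lib.MP_ad5d82_an.h24.H.H9
import Pool.Agent.Lib.MP_ad5d82_an.h24.F.F3
import Pool.Agent.Lib.MP_ad5d82_an.h24.F.F4
import Pool.Agent.Lib.MP_ad5d82_an.h24.F.F7
import Pool.Agent.Lib.MP_ad5d82_an.h24.P.P0
import Pool.Agent.Lib.MP_ad5d82_an.h24.P.P1
import Pool.Agent.Lib.MP_ad5d82_an.h24.P.P2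
import Pool.Agent.Lib.MP_ad5d82_an.h24.P.P3
import Pool.Agent.Lib.MP_ad5d82_an.h24.P.P3b
import Pool.Agent.Lib.MP_ad5d82_an.h24.P.PC
import Pool.Agent.Lib.MP_ad5d82_an.h24.P.P4

set_option autoImplicit false

namespace Pool.MP_ad5d82_an.Wl

open Real Set MeasureTheory Filter Topology
open scoped ContDiff

variable {ι : Type} [Fintype ι] [DecidableEq ι]

variable {B : Base ι} {δ R₀ Ξ : ℝ}

/-! ### helper lemmas -/

private noncomputable def p18d (F : ℝ → ℝ) (ξ h : ℂ) (x : ℂ) : ℝ :=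
  SS F (x - (ξ + h)) - SS F (x - ξ)

private noncomputable def p18k {S : Sys ι} (χ : {i // i ∈ neg S} → ℂ → ℝ) (c : Cc S) (ξ h : ℂ) (x : ℂ) :
    Ev ι := Cf S χ c (ξ + h) x - Cf S χ c ξ x

private lemma p18_shift_smooth {f : ℂ → ℝ} (hf : ContDiff ℝ ∞ f) (a : ℂ) :
    ContDiff ℝ ∞ (fun x => f (x - a)) := hf.comp (contDiff_id.sub contDiff_const)

private lemma p18d_smooth {ρ ε : ℝ} {F : ℝ → ℝ} (h : Wall ρ ε F) (ξ k : ℂ) :
    ContDiff ℝ ∞ (p18d F ξ k) :=
  (p18_shift_smooth (SS_smooth h) _).sub (p18_shift_smooth (SS_smooth h) _)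

private lemma p18_fderiv_shift {f : ℂ → ℝ} (a x : ℂ) :
    fderiv ℝ (fun x => f (x - a)) x = fderiv ℝ f (x - a) := fderiv_comp_sub (f := f) (x := x) a

private lemma p18_lap_shift {f : ℂ → ℝ} (a x : ℂ) :
    lapC (fun x => f (x - a)) x = lapC f (x - a) := by
  unfold lapC
  have h1 : ∀ v : ℂ, (fun w => fderiv ℝ (fun x => f (x - a)) w v) =
      fun w => (fun y => fderiv ℝ f y v) (w - a) := by
    intro v; funext w; rw [p18_fderiv_shift]
  rw [h1, h1, p18_fderiv_shift (f := fun y => fderiv ℝ f y 1),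
    p18_fderiv_shift (f := fun y => fderiv ℝ f y Complex.I)]

private lemma p18_lap_sub {f g : ℂ → ℝ} (hf : ContDiff ℝ ∞ f) (hg : ContDiff ℝ ∞ g) (x : ℂ) :
    lapC (fun x => f x - g x) x = lapC f x - lapC g x := by
  have hf1 : Differentiable ℝ f := hf.differentiable (by simp)
  have hg1 : Differentiable ℝ g := hg.differentiable (by simp)
  have hfd : ContDiff ℝ ∞ (fderiv ℝ f) := hf.fderiv_right (by simp)
  have hgd : ContDiff ℝ ∞ (fderiv ℝ g) := hg.fderiv_right (by simp)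
  have h1 : ∀ v : ℂ, (fun w => fderiv ℝ (fun x => f x - g x) w v) =
      fun w => fderiv ℝ f w v - fderiv ℝ g w v := by
    intro v; funext w
    rw [fderiv_fun_sub hf1.differentiableAt hg1.differentiableAt]; rfl
  have h2 : ∀ v : ℂ, Differentiable ℝ (fun w => fderiv ℝ f w v) := fun v =>
    (hfd.differentiable (by simp)).clm_apply (differentiable_const v)
  have h3 : ∀ v : ℂ, Differentiable ℝ (fun w => fderiv ℝ g w v) := fun v =>
    (hgd.differentiable (by simp)).clm_apply (differentiable_const v)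
  unfold lapC
  rw [h1, h1, fderiv_fun_sub (h2 _).differentiableAt (h3 _).differentiableAt,
    fderiv_fun_sub (h2 _).differentiableAt (h3 _).differentiableAt]
  simp only [ContinuousLinearMap.sub_apply]
  ring

private lemma p18d_lap {ρ ε : ℝ} {F : ℝ → ℝ} (h : Wall ρ ε F) (ξ k x : ℂ) :
    lapC (p18d F ξ k) x = exp (SS F (x - (ξ + k))) * (exp (SS F (x - (ξ + k))) - 1)
      - exp (SS F (x - ξ)) * (exp (SS F (x - ξ)) - 1) := by
  unfold p18d
  rw [p18_lap_sub (p18_shift_smooth (SS_smooth h) _) (p18_shift_smooth (SS_smooth h) _),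
    p18_lap_shift, p18_lap_shift, SS_lap h, SS_lap h]

private lemma p18_norm_shift (x a : ℂ) : 1 + ‖x‖ ≤ (1 + ‖x - a‖) * (1 + ‖a‖) := by
  have h1 : ‖x‖ ≤ ‖x - a‖ + ‖a‖ := by
    have := norm_add_le (x - a) a
    simpa using this
  nlinarith [norm_nonneg (x - a), norm_nonneg a]

/-- uniform decay of `e^S`. -/
private lemma p18_exp_decay {ρ ε : ℝ} {F : ℝ → ℝ} (h : Wall ρ ε F) (Q : ℝ) (hQ : 0 ≤ Q) :
    ∃ C : ℝ, 0 < C ∧ ∀ a x : ℂ, ‖a‖ ≤ Q → exp (SS F (x - a)) * (1 + ‖x‖) ^ 10 ≤ C := by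
  obtain ⟨C, hC⟩ := SS_decay h
  have hC0 : 0 < C := by
    have h1 := (hC 0).2.2
    have : 0 < exp (SS F 0) * (1 + ‖(0:ℂ)‖) ^ 10 := by positivity
    linarith
  refine ⟨C * (1 + Q) ^ 10, by positivity, fun a x ha => ?_⟩
  have h1 := (hC (x - a)).2.2
  have h2 : (1 + ‖x‖) ^ 10 ≤ ((1 + ‖x - a‖) * (1 + ‖a‖)) ^ 10 :=
    pow_le_pow_left₀ (by positivity) (p18_norm_shift x a) 10
  calc exp (SS F (x - a)) * (1 + ‖x‖) ^ 10
      ≤ exp (SS F (x - a)) * ((1 + ‖x - a‖) * (1 + ‖a‖)) ^ 10 :=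
        mul_le_mul_of_nonneg_left h2 (exp_pos _).le
    _ = (exp (SS F (x - a)) * (1 + ‖x - a‖) ^ 10) * (1 + ‖a‖) ^ 10 := by rw [mul_pow]; ring
    _ ≤ C * (1 + Q) ^ 10 := by
        apply mul_le_mul h1 _ (by positivity) hC0.le
        exact pow_le_pow_left₀ (by positivity) (by linarith) 10

private lemma p18d_abs {ρ ε : ℝ} {F : ℝ → ℝ} (h : Wall ρ ε F) (ξ k x : ℂ) : |p18d F ξ k x| ≤ ‖k‖ := by
  have h1 := (SS_lip h (x - (ξ + k)) (x - ξ)).1
  have h2 : x - (ξ + k) - (x - ξ) = -k := by ring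
  rw [h2, norm_neg] at h1
  exact h1

/-- mean value inequality along the segment from `x - ξ` to `x - ξ - k`. -/
private lemma p18_mvt {E : Type} [NormedAddCommGroup E] [NormedSpace ℝ E] {f : ℂ → E}
    (hf : Differentiable ℝ f) {C : ℝ} {n : ℕ} (hC : ∀ z, ‖fderiv ℝ f z‖ * (1 + ‖z‖) ^ n ≤ C)
    (ξ k x : ℂ) : ‖f (x - (ξ + k)) - f (x - ξ)‖ * (1 + ‖x‖) ^ n ≤
      C * (1 + (‖ξ‖ + ‖k‖)) ^ n * ‖k‖ := by
  have hC0 : 0 ≤ C := by
    have h1 := hC 0
    have : 0 ≤ ‖fderiv ℝ f 0‖ * (1 + ‖(0:ℂ)‖) ^ n := by positivity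
    linarith
  have hx : 0 < (1 + ‖x‖) ^ n := by positivity
  set K := C * (1 + (‖ξ‖ + ‖k‖)) ^ n / (1 + ‖x‖) ^ n with hK
  have key : ∀ z ∈ segment ℝ (x - ξ) (x - (ξ + k)), ‖fderiv ℝ f z‖ ≤ K := by
    intro z hz
    obtain ⟨a, b, ha, hb, hab, rfl⟩ := hz
    set w := a • (x - ξ) + b • (x - (ξ + k)) with hw
    have hwx : x - w = ξ + (b : ℂ) * k := by
      have ha' : a = 1 - b := by linarith
      rw [hw, ha']
      simp only [Complex.real_smul]
      push_cast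
      ring
    have h1 : 1 + ‖x‖ ≤ (1 + ‖w‖) * (1 + (‖ξ‖ + ‖k‖)) := by
      have h2 := p18_norm_shift x (x - w)
      have h3 : x - (x - w) = w := by ring
      rw [h3] at h2
      have h4 : ‖x - w‖ ≤ ‖ξ‖ + ‖k‖ := by
        rw [hwx]
        refine (norm_add_le _ _).trans ?_
        have : ‖(b : ℂ) * k‖ ≤ ‖k‖ := by
          rw [norm_mul, Complex.norm_real, Real.norm_of_nonneg hb]
          have : b ≤ 1 := by linarith
          nlinarith [norm_nonneg k]
        linarith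
      refine h2.trans (mul_le_mul_of_nonneg_left (by linarith) (by positivity))
    rw [hK, le_div_iff₀ hx]
    have h5 : (1 + ‖x‖) ^ n ≤ ((1 + ‖w‖) * (1 + (‖ξ‖ + ‖k‖))) ^ n :=
      pow_le_pow_left₀ (by positivity) h1 n
    calc ‖fderiv ℝ f w‖ * (1 + ‖x‖) ^ n
        ≤ ‖fderiv ℝ f w‖ * ((1 + ‖w‖) * (1 + (‖ξ‖ + ‖k‖))) ^ n :=
          mul_le_mul_of_nonneg_left h5 (norm_nonneg _)
      _ = (‖fderiv ℝ f w‖ * (1 + ‖w‖) ^ n) * (1 + (‖ξ‖ + ‖k‖)) ^ n := by rw [mul_pow]; ring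
      _ ≤ C * (1 + (‖ξ‖ + ‖k‖)) ^ n := mul_le_mul_of_nonneg_right (hC w) (by positivity)
  have hm := (convex_segment (x - ξ) (x - (ξ + k))).norm_image_sub_le_of_norm_hasFDerivWithin_le
    (f := f) (f' := fun z => fderiv ℝ f z)
    (fun z _ => (hf z).hasFDerivAt.hasFDerivWithinAt) key
    (left_mem_segment ℝ (x - ξ) (x - (ξ + k))) (right_mem_segment ℝ (x - ξ) (x - (ξ + k)))
  have h6 : x - (ξ + k) - (x - ξ) = -k := by ring
  rw [h6, norm_neg] at hm
  calc ‖f (x - (ξ + k)) - f (x - ξ)‖ * (1 + ‖x‖) ^ n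
      ≤ K * ‖k‖ * (1 + ‖x‖) ^ n := mul_le_mul_of_nonneg_right hm hx.le
    _ = C * (1 + (‖ξ‖ + ‖k‖)) ^ n * ‖k‖ := by rw [hK]; field_simp

/-- decay of `d`, for fixed `ξ, k`. -/
private lemma p18d_decay {ρ ε : ℝ} {F : ℝ → ℝ} (h : Wall ρ ε F) (ξ k : ℂ) :
    ∃ C : ℝ, 0 < C ∧ ∀ x, |p18d F ξ k x| * (1 + ‖x‖) ≤ C ∧ ‖fderiv ℝ (p18d F ξ k) x‖ * (1 + ‖x‖) ^ 2 ≤ C ∧
      |lapC (p18d F ξ k) x| * (1 + ‖x‖) ^ 10 ≤ C := by
  obtain ⟨C, hC⟩ := SS_decay h
  have hSs := SS_smooth h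
  obtain ⟨C', hC'0, hC'⟩ := p18_exp_decay h (‖ξ‖ + ‖k‖) (by positivity)
  have hC0 : 0 ≤ C := by
    have h1 := (hC 0).1
    have : 0 ≤ ‖fderiv ℝ (SS F) 0‖ * (1 + ‖(0:ℂ)‖) := by positivity
    linarith
  have hSd : Differentiable ℝ (fderiv ℝ (SS F)) :=
    (hSs.fderiv_right (m := ∞) (by simp)).differentiable (by simp)
  refine ⟨C * (1 + (‖ξ‖ + ‖k‖)) ^ 1 * ‖k‖ + C * (1 + (‖ξ‖ + ‖k‖)) ^ 2 * ‖k‖ + 2 * C',
    by positivity, fun x => ⟨?_, ?_, ?_⟩⟩
  · have h1 := p18_mvt (hSs.differentiable (by simp)) (n := 1) (C := C)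
      (fun z => by simpa using (hC z).1) ξ k x
    rw [pow_one (1 + ‖x‖)] at h1
    have h2 : 0 ≤ C * (1 + (‖ξ‖ + ‖k‖)) ^ 2 * ‖k‖ := by positivity
    have h3 : |p18d F ξ k x| = ‖SS F (x - (ξ + k)) - SS F (x - ξ)‖ := rfl
    rw [h3]
    linarith
  · have h1 := p18_mvt hSd (n := 2) (C := C) (fun z => (hC z).2.1) ξ k x
    have h2 : 0 ≤ C * (1 + (‖ξ‖ + ‖k‖)) ^ 1 * ‖k‖ := by positivity
    have h3 : fderiv ℝ (p18d F ξ k) x = fderiv ℝ (SS F) (x - (ξ + k)) - fderiv ℝ (SS F) (x - ξ) := by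
      unfold p18d
      rw [fderiv_fun_sub ((p18_shift_smooth hSs _).differentiable (by simp)).differentiableAt
        ((p18_shift_smooth hSs _).differentiable (by simp)).differentiableAt,
        p18_fderiv_shift, p18_fderiv_shift]
    rw [h3]
    linarith
  · rw [p18d_lap h]
    have e1 := hC' (ξ + k) x (norm_add_le _ _)
    have e2 := hC' ξ x (by linarith [norm_nonneg k])
    have hb : ∀ z : ℂ, |exp (SS F z) * (exp (SS F z) - 1)| ≤ exp (SS F z) := by
      intro z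
      have h1 : exp (SS F z) ≤ 1 := Real.exp_le_one_iff.mpr (SS_neg h z).le
      have h2 := exp_pos (SS F z)
      rw [abs_mul, abs_of_pos h2, abs_of_nonpos (by linarith)]
      nlinarith
    have h1 : |exp (SS F (x - (ξ + k))) * (exp (SS F (x - (ξ + k))) - 1)
      - exp (SS F (x - ξ)) * (exp (SS F (x - ξ)) - 1)| ≤ exp (SS F (x - (ξ + k))) + exp (SS F (x - ξ)) :=
      (abs_sub _ _).trans (add_le_add (hb _) (hb _))
    have h2 : 0 ≤ C * (1 + (‖ξ‖ + ‖k‖)) ^ 1 * ‖k‖ := by positivity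
    have h3 : 0 ≤ C * (1 + (‖ξ‖ + ‖k‖)) ^ 2 * ‖k‖ := by positivity
    have h4 := mul_le_mul_of_nonneg_right h1 (show 0 ≤ (1 + ‖x‖) ^ 10 by positivity)
    linarith

private lemma p18k_smooth {S : Sys ι} {c₀ C ρ : ℝ} {F : ℝ → ℝ} {χ : {i // i ∈ neg S} → ℂ → ℝ}
    (h : NegFam S c₀ C ρ F χ) (c : Cc S) (ξ k : ℂ) : ContDiff ℝ ∞ (p18k χ c ξ k) :=
  (Cf_smooth h c _).sub (Cf_smooth h c _)

private lemma p18k_jet {S : Sys ι} {c₀ C ρ : ℝ} {F : ℝ → ℝ} {χ : {i // i ∈ neg S} → ℂ → ℝ}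
    (h : NegFam S c₀ C ρ F χ) (c : Cc S) (ξ k : ℂ) :
    jet (p18k χ c ξ k) = jet (Cf S χ c (ξ + k)) - jet (Cf S χ c ξ) := by
  funext x
  have h1 : fderiv ℝ (p18k χ c ξ k) x = fderiv ℝ (Cf S χ c (ξ + k)) x - fderiv ℝ (Cf S χ c ξ) x := by
    unfold p18k
    rw [fderiv_fun_sub ((Cf_smooth h c _).differentiable (by simp)).differentiableAt
      ((Cf_smooth h c _).differentiable (by simp)).differentiableAt]
  simp only [jet, Pi.sub_apply, h1]
  rfl

private lemma p18_jet_add {f g : ℂ → Ev ι} (hf : ContDiff ℝ ∞ f) (hg : ContDiff ℝ ∞ g) :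
    jet (fun x => f x + g x) = jet f + jet g := by
  funext x
  have h1 : fderiv ℝ (fun x => f x + g x) x = fderiv ℝ f x + fderiv ℝ g x :=
    fderiv_fun_add (hf.differentiable (by simp)).differentiableAt
      (hg.differentiable (by simp)).differentiableAt
  simp only [jet, Pi.add_apply, h1]
  rfl

private lemma p18_jet_one {S : Sys ι} {f : ℂ → ℝ} (hf : ContDiff ℝ ∞ f) (x : ℂ) :
    jet (fun x => f x • one S) x = (f x • one S, fderiv ℝ f x 1 • one S,
      fderiv ℝ f x Complex.I • one S) := by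
  have h1 : fderiv ℝ (fun x => f x • one S) x = (fderiv ℝ f x).smulRight (one S) :=
    fderiv_smul_const (hf.differentiable (by simp)).differentiableAt (one S)
  simp only [jet, h1, ContinuousLinearMap.smulRight_apply]

/-- change of the total map when `ξ` moves by `h`. -/
noncomputable def shf (K : Cfg B δ R₀ Ξ) (c : Cc B.S) (ξ h : ℂ) : Fld ι :=
  jet (fun x => (SS K.F (x - (ξ + h)) - SS K.F (x - ξ)) • one B.S
    + (Cf B.S K.χ c (ξ + h) x - Cf B.S K.χ c ξ x))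

private lemma p18_shf_eq (K : Cfg B δ R₀ Ξ) (c : Cc B.S) (ξ h : ℂ) :
    shf K c ξ h = jet (fun x => p18d K.F ξ h x • one B.S) + jet (p18k K.χ c ξ h) :=
  p18_jet_add ((p18d_smooth K.wall ξ h).smul contDiff_const) (p18k_smooth K.fam c ξ h)

private lemma p18_isSob_d (K : Cfg B δ R₀ Ξ) (ξ h : ℂ) :
    IsSob (jet (fun x => p18d K.F ξ h x • one B.S)) := by
  obtain ⟨C, hC0, hC⟩ := p18d_decay K.wall ξ h
  refine isSob_of_decay ((p18d_smooth K.wall ξ h).smul contDiff_const) (C * ‖one B.S‖) ?_ ?_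
  · intro z
    rw [norm_smul, Real.norm_eq_abs]
    have := mul_le_mul_of_nonneg_right (hC z).1 (norm_nonneg (one B.S))
    linarith
  · intro z
    have h1 : fderiv ℝ (fun x => p18d K.F ξ h x • one B.S) z =
        (fderiv ℝ (p18d K.F ξ h) z).smulRight (one B.S) :=
      fderiv_smul_const ((p18d_smooth K.wall ξ h).differentiable (by simp)).differentiableAt (one B.S)
    rw [h1, ContinuousLinearMap.norm_smulRight_apply]
    have := mul_le_mul_of_nonneg_right (hC z).2.1 (norm_nonneg (one B.S))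
    linarith

private lemma p18_isSob_k (K : Cfg B δ R₀ Ξ) (c : Cc B.S) (ξ h : ℂ) :
    IsSob (jet (p18k K.χ c ξ h)) := by
  rw [p18k_jet K.fam]
  exact (isSob_jet (isTest_Cf K.fam c _)).sub (isSob_jet (isTest_Cf K.fam c _))

theorem isSob_shf (K : Cfg B δ R₀ Ξ) (c : Cc B.S) (ξ h : ℂ) : IsSob (shf K c ξ h) := by
  rw [p18_shf_eq]
  exact (p18_isSob_d K ξ h).add (p18_isSob_k K c ξ h)


private lemma p18_norm_le_sum (x : Ev ι) {τ : ℝ} (hτ : ∀ j, |x j| ≤ 1 / 2 * τ) :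
    ‖x‖ ≤ Fintype.card ι * (1 / 2 * τ) := by
  have h1 : x = ∑ j, x j • bv j := by
    ext i
    simp [bv, Pi.single_apply]
  calc ‖x‖ = ‖∑ j, x j • bv j‖ := by rw [← h1]
    _ ≤ ∑ j, ‖x j • bv j‖ := norm_sum_le _ _
    _ ≤ ∑ _j : ι, 1 / 2 * τ := by
        refine Finset.sum_le_sum fun j _ => ?_
        rw [norm_smul, Real.norm_eq_abs]
        have : ‖(bv j : Ev ι)‖ = 1 := by simp [bv]
        rw [this, mul_one]
        exact hτ j
    _ = Fintype.card ι * (1 / 2 * τ) := by simp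

private lemma p18_tau_le {δ ρ : ℝ} (hδ1 : δ ≤ 1) (hρ : 1 ≤ ρ) (x : ℂ) :
    tau δ ρ x ≤ 2 + (ρ ^ 6)⁻¹ * Real.log (1 + ‖x‖) := by
  have h0 : 0 ≤ (ρ ^ 6)⁻¹ := by positivity
  have h1 : (ρ ^ 6)⁻¹ ≤ 1 := inv_le_one_of_one_le₀ (one_le_pow₀ hρ)
  have h2 : 0 ≤ Real.log (1 + ‖x‖) := Real.log_nonneg (by linarith [norm_nonneg x])
  unfold tau
  split_ifs
  · have := mul_nonneg h0 h2
    linarith
  · have h3 : Real.posLog (‖x‖ / ρ) ≤ Real.log (1 + ‖x‖) := by
      rw [Real.posLog_apply]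
      apply max_le h2
      rcases eq_or_lt_of_le (norm_nonneg x) with h | h
      · rw [← h]; simp
      · apply Real.log_le_log (by positivity)
        have : ‖x‖ / ρ ≤ ‖x‖ := div_le_self (norm_nonneg x) hρ
        linarith
    have := mul_le_mul_of_nonneg_left h3 h0
    linarith

private lemma p18_tau_ge {δ ρ : ℝ} (hρ : 0 < ρ) (x : ℂ) :
    min δ (ρ ^ 6)⁻¹ ≤ tau δ ρ x := by
  unfold tau
  split_ifs
  · exact min_le_left _ _
  · refine (min_le_right _ _).trans ?_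
    have h1 : 0 ≤ Real.posLog (‖x‖ / ρ) := Real.posLog_nonneg
    have h0 : 0 ≤ (ρ ^ 6)⁻¹ := by positivity
    nlinarith

private lemma p18_int9 : Integrable (fun x : ℂ => ((1 + ‖x‖) ^ 9)⁻¹) volume := by
  have h := integrable_one_add_norm (E := ℂ) (μ := volume) (r := 9) (by
    rw [Complex.finrank_real_complex]; norm_num)
  refine h.congr (Filter.Eventually.of_forall fun x => ?_)
  simp only
  rw [Real.rpow_neg (by positivity)]
  congr 1
  exact_mod_cast Real.rpow_natCast (1 + ‖x‖) 9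

private lemma p18_one_apply (S : Sys ι) (j : ι) :
    one S j = if j = S.o then Real.sqrt (∑ a, S.m a) else 0 := by
  simp [one, bv, Pi.single_apply]

private lemma p18_gPb_one (S : Sys ι) (u : Ev ι × Ev ι × Ev ι) (a b : ℝ) (w : Ev ι) :
    gPb S u (w, a • one S, b • one S) =
      Real.sqrt (∑ a, S.m a) * (u.2.1 S.o * a + u.2.2 S.o * b) := by
  unfold gPb
  rw [Finset.sum_eq_single S.o]
  · simp only [PiLp.smul_apply, p18_one_apply, if_true, smul_eq_mul, S.μ_o]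
    push_cast
    ring
  · intro j _ hj
    simp [p18_one_apply, hj]
  · intro h; exact absurd (Finset.mem_univ _) h

private lemma p18_pP_one (S : Sys ι) (g : Ev ι) (a : ℝ) :
    pP S g (a • one S) = Real.sqrt (∑ a, S.m a) * g S.o * a := by
  unfold pP
  rw [Finset.sum_eq_single S.o]
  · simp only [PiLp.smul_apply, p18_one_apply, if_true, smul_eq_mul, S.μ_o]
    push_cast
    ring
  · intro j _ hj
    simp [p18_one_apply, hj]
  · intro h; exact absurd (Finset.mem_univ _) h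

private lemma p18_pP_add (S : Sys ι) (g h k : Ev ι) : pP S g (h + k) = pP S g h + pP S g k := by
  unfold pP
  rw [← Finset.sum_add_distrib]
  refine Finset.sum_congr rfl fun j _ => ?_
  simp only [PiLp.add_apply]
  ring

private lemma p18_abs_apply_le (x : Ev ι) (j : ι) : |x j| ≤ ‖x‖ := by
  have := PiLp.norm_apply_le x j
  rwa [Real.norm_eq_abs] at this


private lemma p18_int3 {f g k : ℂ → ℝ} (hf : Integrable f volume) (hg : Integrable g volume)
    (hk : Integrable k volume) :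
    (∫ x, f x) - (∫ x, g x) - (∫ x, k x) = ∫ x, (f x - g x - k x) := by
  have h1 : ∫ x, (f x - g x - k x) = ∫ x, ((f - g) x - k x) := rfl
  have h2 : ∫ x, (f - g) x = ∫ x, (f x - g x) := rfl
  rw [h1, integral_sub (hf.sub hg) hk, h2, integral_sub hf hg]

private lemma p18_int4 {f g k u v : ℂ → ℝ} (c : ℝ) (hf : Integrable f volume)
    (hg : Integrable g volume)
    (hk : Integrable k volume) (hu : Integrable u volume) (hv : Integrable v volume) :
    ∫ x, (f x - g x - k x + c * (u x + v x)) =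
      ((∫ x, f x) - (∫ x, g x) - (∫ x, k x)) + c * ((∫ x, u x) + ∫ x, v x) := by
  rw [p18_int3 hf hg hk, ← integral_add hu hv, ← integral_const_mul, ← integral_add]
  · exact (hf.sub hg).sub hk
  · exact (hu.add hv).const_mul c

private lemma p18_alg {a1 a2 a3 b1 b2 b3 e1 e2 e3 f1 f2 gk E v l g m c1 : ℝ}
    (hA : a1 - a2 - a3 = 1 / 2 * gk + c1 * l) (hB : b1 - b2 - b3 = E - v - c1 * l)
    (hC : e1 - e2 - e3 = -g) (hD : f1 - f2 = m) (hV : v = m - g) :
    (a1 + b1 + e1 + f1) - (a2 + b2 + e2 + f2) - (a3 + b3 + e3) = 1 / 2 * gk + E := by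
  linarith

/-- integrability of the products with `Δd`. -/
private lemma p18_int_lap {f : ℂ → ℝ} (hf : AEStronglyMeasurable f volume) {D : ℂ → ℝ}
    (hD : Continuous (lapC D)) {C : ℝ} (hC : ∀ z, |lapC D z| * (1 + ‖z‖) ^ 10 ≤ C)
    (hf2 : Integrable (fun z => wt z * f z ^ 2) volume) :
    Integrable (fun z => f z * lapC D z) volume := by
  have hC0 : 0 ≤ C := by
    have h1 := hC 0
    have : 0 ≤ |lapC D 0| * (1 + ‖(0:ℂ)‖) ^ 10 := by positivity
    linarith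
  have hdom : Integrable (fun z => wt z * f z ^ 2 + C ^ 2 * ((1 + ‖z‖) ^ 9)⁻¹) volume :=
    hf2.add (p18_int9.const_mul _)
  refine hdom.mono' (hf.mul hD.aestronglyMeasurable) (Filter.Eventually.of_forall fun z => ?_)
  have hz : (0:ℝ) < 1 + ‖z‖ := by positivity
  have hw := wt_pos z
  have h1 : |lapC D z| ≤ C / (1 + ‖z‖) ^ 10 := by
    rw [le_div_iff₀ (by positivity)]; exact hC z
  have h2 : |f z| * |lapC D z| ≤ wt z * f z ^ 2 + (wt z)⁻¹ * lapC D z ^ 2 := by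
    have e1 : 0 ≤ (Real.sqrt (wt z) * |f z| - (Real.sqrt (wt z))⁻¹ * |lapC D z|) ^ 2 := sq_nonneg _
    have e2 : Real.sqrt (wt z) ^ 2 = wt z := Real.sq_sqrt hw.le
    have e3 : (Real.sqrt (wt z))⁻¹ ^ 2 = (wt z)⁻¹ := by rw [inv_pow, e2]
    have e4 : Real.sqrt (wt z) * (Real.sqrt (wt z))⁻¹ = 1 :=
      mul_inv_cancel₀ (Real.sqrt_pos.mpr hw).ne'
    have e5 : (Real.sqrt (wt z) * |f z| - (Real.sqrt (wt z))⁻¹ * |lapC D z|) ^ 2 =
        wt z * f z ^ 2 + (wt z)⁻¹ * lapC D z ^ 2 - 2 * (|f z| * |lapC D z|) := by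
      rw [sub_sq, mul_pow, mul_pow, e2, e3, sq_abs, sq_abs]
      have : 2 * (√(wt z) * |f z|) * ((√(wt z))⁻¹ * |lapC D z|) =
          2 * (|f z| * |lapC D z|) * (√(wt z) * (√(wt z))⁻¹) := by ring
      rw [this, e4]; ring
    have e6 : 0 ≤ |f z| * |lapC D z| := by positivity
    linarith
  have h3 : (wt z)⁻¹ ≤ (1 + ‖z‖) ^ 4 := by
    unfold wt
    rw [inv_inv]
    have : 1 + ‖z‖ ^ 2 ≤ (1 + ‖z‖) ^ 2 := by linarith [norm_nonneg z]
    calc (1 + ‖z‖ ^ 2) ^ 2 ≤ ((1 + ‖z‖) ^ 2) ^ 2 := pow_le_pow_left₀ (by positivity) this 2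
      _ = (1 + ‖z‖) ^ 4 := by ring
  have h4 : (wt z)⁻¹ * lapC D z ^ 2 ≤ C ^ 2 * ((1 + ‖z‖) ^ 9)⁻¹ := by
    have h5 : lapC D z ^ 2 ≤ (C / (1 + ‖z‖) ^ 10) ^ 2 := by
      rw [← sq_abs (lapC D z)]
      exact pow_le_pow_left₀ (abs_nonneg _) h1 2
    calc (wt z)⁻¹ * lapC D z ^ 2 ≤ (1 + ‖z‖) ^ 4 * (C / (1 + ‖z‖) ^ 10) ^ 2 :=
          mul_le_mul h3 h5 (sq_nonneg _) (by positivity)
      _ = C ^ 2 * ((1 + ‖z‖) ^ 16)⁻¹ := by field_simp
      _ ≤ C ^ 2 * ((1 + ‖z‖) ^ 9)⁻¹ := by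
          apply mul_le_mul_of_nonneg_left _ (sq_nonneg _)
          apply inv_anti₀ (by positivity)
          exact pow_le_pow_right₀ (by linarith [norm_nonneg z]) (by norm_num)
  rw [Real.norm_eq_abs, abs_mul]
  linarith

private lemma p18_lap_cont {f : ℂ → ℝ} (hf : ContDiff ℝ ∞ f) : Continuous (lapC f) := by
  have hfd : ContDiff ℝ ∞ (fderiv ℝ f) := hf.fderiv_right (by simp)
  have h2 : ∀ v : ℂ, ContDiff ℝ ∞ (fun w => fderiv ℝ f w v) := fun v =>
    hfd.clm_apply contDiff_const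
  have h3 : ∀ v : ℂ, Continuous (fun z => fderiv ℝ (fun w => fderiv ℝ f w v) z v) := fun v =>
    ((h2 v).continuous_fderiv (by simp)).clm_apply continuous_const
  exact (h3 1).add (h3 Complex.I)

theorem xi_expand (B : Base ι) : ∃ R₁ : ℝ, 1 ≤ R₁ ∧ ∀ δ R₀ Ξ : ℝ, 0 < δ → δ ≤ 1 → R₁ ≤ R₀ → 0 ≤ Ξ →
    ∃ ρ₀ : ℝ, ∀ K : Cfg B δ R₀ Ξ, ρ₀ ≤ K.ρ → ∀ U : Fld ι, IsSob U → ∀ (c : Cc B.S) (ξ : ℂ), ‖ξ‖ < Ξ →
    (∀ᵐ x : ℂ, R₀ ≤ ‖x‖ → ∀ j, |(GG K U c ξ x).1 j| ≤ 1 / 2 * tau δ K.ρ x) →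
    ∃ M r : ℝ, 0 < r ∧ ∀ h : ℂ, ‖h‖ ≤ r →
      |PhiJ K U c (ξ + h) - PhiJ K U c ξ - DPhiJ K U c ξ (shf K c ξ h)| ≤ M * ‖h‖ ^ 2 := by
  obtain ⟨Rv, hRv1, -, hRv⟩ := v0_supp B
  obtain ⟨C7, hC7, hW⟩ := WW_shift B.S
  refine ⟨Rv, hRv1, ?_⟩
  intro δ R₀ Ξ hδ hδ1 hR₀ hΞ
  have hR1 : 1 ≤ R₀ := by linarith
  obtain ⟨ρa, hρa⟩ := phi_integrable B δ R₀ Ξ hδ hδ1 hR1 hΞ
  set nn : ℝ := (Fintype.card ι : ℝ) with hnn
  have hnn0 : 0 ≤ nn := Nat.cast_nonneg _
  refine ⟨max ρa (C7 * nn), ?_⟩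
  intro K hK U hU c ξ hξ hG
  have hKa : ρa ≤ K.ρ := (le_max_left _ _).trans hK
  have hKb : C7 * nn ≤ K.ρ := (le_max_right _ _).trans hK
  have hρ100 : 100 ≤ K.ρ := K.wall.hρ
  have hρ1 : 1 ≤ K.ρ := by linarith
  have hρ0 : 0 < K.ρ := by linarith
  have hsmooth := SS_smooth K.wall
  set G : Fld ι := GG K U c ξ with hGdef
  have hGs : IsSob G := isSob_GG K hU c ξ
  obtain ⟨D, hD0, hD⟩ := Cf_bounds B.S B.c₀ B.C₀
  set N := Real.sqrt (∑ i, c i ^ 2) with hN
  have hN0 : 0 ≤ N := Real.sqrt_nonneg _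
  set DN := D * N with hDN
  have hDN0 : 0 ≤ DN := by positivity
  set τ₀ := min δ (K.ρ ^ 6)⁻¹ with hτ₀
  have hτ₀0 : 0 < τ₀ := lt_min hδ (by positivity)
  obtain ⟨C10, hC10, hE10⟩ := p18_exp_decay K.wall (‖ξ‖ + 1) (by positivity)
  set A := C7 * exp (C7 * DN) * (1 + DN ^ 2) with hA
  have hA0 : 0 ≤ A := by positivity
  set A' := C10 * exp (C7 * nn) with hA'
  have hA'0 : 0 ≤ A' := by positivity
  set Φ : ℂ → ℝ := fun x => A * ((Metric.ball (0:ℂ) R₀).indicator (fun z => exp (C7 * ‖(G z).1‖)) x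
    + A' * ((1 + ‖x‖) ^ 9)⁻¹) with hΦ
  have hΦi : Integrable Φ volume := by
    refine Integrable.const_mul (Integrable.add ?_ (p18_int9.const_mul A')) A
    exact (integrable_indicator_iff Metric.isOpen_ball.measurableSet).2 (exp_integrable hGs C7 R₀)
  set Rk := B.C₀ * K.ρ + ‖ξ‖ + 1 with hRk
  set Vk := volume.real (Metric.closedBall (0:ℂ) Rk) with hVk
  set c1 := Real.sqrt (∑ a, B.S.m a) with hc1
  refine ⟨(∫ x, Φ x) + 1 / 2 * (2 * DN ^ 2 * Vk), min 1 (min (Ξ - ‖ξ‖) (τ₀ / (2 * (DN + 1)))),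
    lt_min one_pos (lt_min (by linarith) (by positivity)), ?_⟩
  intro h hh
  have hh1 : ‖h‖ ≤ 1 := hh.trans (min_le_left _ _)
  have hh2 : ‖h‖ ≤ Ξ - ‖ξ‖ := hh.trans ((min_le_right _ _).trans (min_le_left _ _))
  have hh3 : ‖h‖ ≤ τ₀ / (2 * (DN + 1)) := hh.trans ((min_le_right _ _).trans (min_le_right _ _))
  have hh3' : DN * ‖h‖ ≤ τ₀ / 2 := by
    rw [le_div_iff₀ (by positivity)] at hh3
    have e1 : DN * ‖h‖ ≤ (DN + 1) * ‖h‖ := mul_le_mul_of_nonneg_right (by linarith) (norm_nonneg h)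
    have e2 : (DN + 1) * ‖h‖ = ‖h‖ * (2 * (DN + 1)) / 2 := by ring
    rw [e2] at e1
    linarith
  have hξh : ‖ξ + h‖ ≤ Ξ := (norm_add_le _ _).trans (by linarith)
  set d : ℂ → ℝ := p18d K.F ξ h with hd
  set k : ℂ → Ev ι := p18k K.χ c ξ h with hk
  have hds : ContDiff ℝ ∞ d := p18d_smooth K.wall ξ h
  set G' : Fld ι := GG K U c (ξ + h) with hG'def
  have hG's : IsSob G' := isSob_GG K hU c (ξ + h)
  have hG'eq : ∀ x, G' x = G x + jet k x := by
    intro x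
    rw [hG'def, hGdef, hk, p18k_jet K.fam]
    simp only [GG, Pi.add_apply, Pi.sub_apply]
    abel
  have hshf : ∀ x, shf K c ξ h x = jet (fun x => d x • one B.S) x + jet k x := by
    intro x
    rw [p18_shf_eq]; rfl
  have hshfS : IsSob (shf K c ξ h) := isSob_shf K c ξ h
  have hkS : IsSob (jet k) := p18_isSob_k K c ξ h
  have hdS : IsSob (jet (fun x => d x • one B.S)) := p18_isSob_d K ξ h
  have hjd : ∀ x, jet (fun x => d x • one B.S) x = (d x • one B.S, fderiv ℝ d x 1 • one B.S,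
      fderiv ℝ d x Complex.I • one B.S) := fun x => p18_jet_one hds x
  -- integrability
  obtain ⟨i1, i2, i3, i4⟩ := hρa K hKa G hGs ξ hξ.le
  obtain ⟨i1', i2', i3', -⟩ := hρa K hKa G' hG's (ξ + h) hξh
  obtain ⟨i5, i6⟩ := i4 _ hshfS
  obtain ⟨i7, -⟩ := i4 _ hdS
  obtain ⟨i8, -, -, -⟩ := hρa K hKa (jet k) hkS ξ hξ.le
  obtain ⟨-, -, i9, -⟩ := hρa K hKa (shf K c ξ h) hshfS ξ hξ.le
  obtain ⟨Cd, hCd0, hCd⟩ := p18d_decay K.wall ξ h
  have hlapc : Continuous (lapC d) := p18_lap_cont hds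
  have hG1m : AEStronglyMeasurable (fun x => (G x).1 B.S.o) volume :=
    (EuclideanSpace.proj (𝕜 := ℝ) B.S.o).continuous.comp_aestronglyMeasurable hGs.1.fst
  have hGo : Integrable (fun x => (G x).1 B.S.o * lapC d x) volume := by
    refine p18_int_lap hG1m hlapc (fun z => (hCd z).2.2) ?_
    refine hGs.integrable.mono' ?_ (Filter.Eventually.of_forall fun z => ?_)
    · exact continuous_wt.aestronglyMeasurable.mul (hG1m.pow 2)
    · rw [Real.norm_of_nonneg (mul_nonneg (wt_pos z).le (sq_nonneg _))]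
      have h1 : (G z).1 B.S.o ^ 2 ≤ ‖(G z).1‖ ^ 2 := by
        rw [← sq_abs]
        exact pow_le_pow_left₀ (abs_nonneg _) (p18_abs_apply_le _ _) 2
      have h2 : 0 ≤ gsq (G z) := by unfold gsq; positivity
      have := mul_le_mul_of_nonneg_left h1 (wt_pos z).le
      unfold nsq
      linarith
  have hvm : AEStronglyMeasurable (fun x => (v0 B x) B.S.o) volume :=
    (EuclideanSpace.proj (𝕜 := ℝ) B.S.o).continuous.comp_aestronglyMeasurable
      (v0_meas B).aestronglyMeasurable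
  have hvo : Integrable (fun x => (v0 B x) B.S.o * lapC d x) volume := by
    refine p18_int_lap hvm hlapc (fun z => (hCd z).2.2) ?_
    refine (v0_sq B).mono' ?_ (Filter.Eventually.of_forall fun z => ?_)
    · exact continuous_wt.aestronglyMeasurable.mul (hvm.pow 2)
    · rw [Real.norm_of_nonneg (mul_nonneg (wt_pos z).le (sq_nonneg _))]
      have h1 : (v0 B z) B.S.o ^ 2 ≤ ‖v0 B z‖ ^ 2 := by
        rw [← sq_abs]
        exact pow_le_pow_left₀ (abs_nonneg _) (p18_abs_apply_le _ _) 2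
      have h3 : wt z * (v0 B z) B.S.o ^ 2 ≤ 1 * (v0 B z) B.S.o ^ 2 :=
        mul_le_mul_of_nonneg_right (wt_le_one z) (sq_nonneg _)
      rw [one_mul] at h3
      exact h3.trans h1
  -- (A)
  have hAeq : (∫ x, 1 / 2 * gP B.S (G' x)) - (∫ x, 1 / 2 * gP B.S (G x)) -
      (∫ x, gPb B.S (G x) (shf K c ξ h x)) =
      1 / 2 * (∫ x, gP B.S (jet k x)) + c1 * ∫ x, (G x).1 B.S.o * lapC d x := by
    have e1 : ∫ x, gPb B.S (G x) (jet (fun x => d x • one B.S) x) =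
        c1 * -∫ x, (G x).1 B.S.o * lapC d x := by
      rw [← hGs.green B.S.o hds Cd (fun z => (hCd z).2.1) (fun z => ?_), ← integral_const_mul]
      · refine integral_congr_ae (Filter.Eventually.of_forall fun x => ?_)
        simp only
        rw [hjd x, p18_gPb_one]
      · refine le_trans ?_ (hCd z).2.2
        apply mul_le_mul_of_nonneg_left _ (abs_nonneg _)
        exact pow_le_pow_right₀ (by linarith [norm_nonneg z]) (by norm_num)
    have e2 : (∫ x, 1 / 2 * gP B.S (G' x)) - (∫ x, 1 / 2 * gP B.S (G x)) -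
        (∫ x, gPb B.S (G x) (shf K c ξ h x)) =
        ∫ x, (1 / 2 * gP B.S (jet k x) - gPb B.S (G x) (jet (fun x => d x • one B.S) x)) := by
      rw [p18_int3 (i1'.const_mul _) (i1.const_mul _) i5]
      refine integral_congr_ae (Filter.Eventually.of_forall fun x => ?_)
      simp only
      rw [hG'eq, gP_add, hshf, gPb_add_right]
      ring
    rw [e2, integral_sub (i8.const_mul _) i7, integral_const_mul, e1]
    ring
  -- (C)
  have hCeq : (∫ x, pP B.S (g0 B x) (G' x).1) - (∫ x, pP B.S (g0 B x) (G x).1) -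
      (∫ x, pP B.S (g0 B x) (shf K c ξ h x).1) = -∫ x, c1 * (g0 B x) B.S.o * d x := by
    rw [p18_int3 i3' i3 i9, ← integral_neg]
    refine integral_congr_ae (Filter.Eventually.of_forall fun x => ?_)
    simp only
    rw [hG'eq, hshf, Prod.fst_add, Prod.fst_add, p18_pP_add, p18_pP_add, hjd x, p18_pP_one]
    ring
  -- (D)
  have hDeq : 4 * π * ∑ n, B.S.m (B.cp n) * SS K.F (B.p n - (ξ + h)) -
      4 * π * ∑ n, B.S.m (B.cp n) * SS K.F (B.p n - ξ) =
      4 * π * ∑ n, B.S.m (B.cp n) * d (B.p n) := by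
    rw [← mul_sub, ← Finset.sum_sub_distrib]
    congr 1
    refine Finset.sum_congr rfl fun n _ => ?_
    rw [hd]; unfold p18d; ring
  have hVeq := v0_lap B d hds
  -- (B)
  set E : ℂ → ℝ := fun x => pot B δ R₀ K.ρ x (SS K.F (x - (ξ + h))) (G' x).1
    - pot B δ R₀ K.ρ x (SS K.F (x - ξ)) (G x).1
    - fderiv ℝ (pot B δ R₀ K.ρ x (SS K.F (x - ξ))) (G x).1 (shf K c ξ h x).1
    + c1 * ((v0 B x) B.S.o * lapC d x + (G x).1 B.S.o * lapC d x) with hE
  have hBeq : (∫ x, pot B δ R₀ K.ρ x (SS K.F (x - (ξ + h))) (G' x).1) -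
      (∫ x, pot B δ R₀ K.ρ x (SS K.F (x - ξ)) (G x).1) -
      (∫ x, fderiv ℝ (pot B δ R₀ K.ρ x (SS K.F (x - ξ))) (G x).1 (shf K c ξ h x).1) =
      (∫ x, E x) - (∫ x, c1 * (v0 B x) B.S.o * lapC d x) - c1 * ∫ x, (G x).1 B.S.o * lapC d x := by
    have e1 : ∫ x, E x = ((∫ x, pot B δ R₀ K.ρ x (SS K.F (x - (ξ + h))) (G' x).1) -
      (∫ x, pot B δ R₀ K.ρ x (SS K.F (x - ξ)) (G x).1) -
      (∫ x, fderiv ℝ (pot B δ R₀ K.ρ x (SS K.F (x - ξ))) (G x).1 (shf K c ξ h x).1)) +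
      c1 * ((∫ x, (v0 B x) B.S.o * lapC d x) + ∫ x, (G x).1 B.S.o * lapC d x) :=
      p18_int4 c1 i2' i2 i6 hvo hGo
    have e2 : ∫ x, c1 * (v0 B x) B.S.o * lapC d x = c1 * ∫ x, (v0 B x) B.S.o * lapC d x := by
      rw [← integral_const_mul]
      refine integral_congr_ae (Filter.Eventually.of_forall fun x => ?_)
      simp only; ring
    rw [e1, e2]; ring
  have hEi : Integrable E volume :=
    ((i2'.sub i2).sub i6).add ((hvo.add hGo).const_mul c1)
  have htotal : PhiJ K U c (ξ + h) - PhiJ K U c ξ - DPhiJ K U c ξ (shf K c ξ h) =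
      1 / 2 * (∫ x, gP B.S (jet k x)) + ∫ x, E x := by
    unfold PhiJ DPhiJ
    exact p18_alg hAeq hBeq hCeq hDeq hVeq
  -- bounds of k
  have hkb : ∀ x, ‖k x‖ ≤ DN * ‖h‖ := by
    intro x
    have := (hD K.ρ K.F K.χ K.fam c (ξ + h) ξ x).2.2.1
    have e : ξ + h - ξ = h := by ring
    rw [e] at this
    exact this
  have hkd : ∀ x, ‖fderiv ℝ k x‖ ≤ DN * ‖h‖ := by
    intro x
    have := (hD K.ρ K.F K.χ K.fam c (ξ + h) ξ x).2.2.2.1
    have e : ξ + h - ξ = h := by ring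
    rw [e] at this
    have e2 : fderiv ℝ k x = fderiv ℝ (Cf B.S K.χ c (ξ + h)) x - fderiv ℝ (Cf B.S K.χ c ξ) x := by
      rw [hk]
      unfold p18k
      exact fderiv_fun_sub ((Cf_smooth K.fam c _).differentiable (by simp)).differentiableAt
        ((Cf_smooth K.fam c _).differentiable (by simp)).differentiableAt
    rw [e2]
    exact this
  have hkout : ∀ x, Rk < ‖x‖ → fderiv ℝ k x = 0 := by
    intro x hx
    have e2 : fderiv ℝ k x = fderiv ℝ (Cf B.S K.χ c (ξ + h)) x - fderiv ℝ (Cf B.S K.χ c ξ) x := by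
      rw [hk]
      unfold p18k
      exact fderiv_fun_sub ((Cf_smooth K.fam c _).differentiable (by simp)).differentiableAt
        ((Cf_smooth K.fam c _).differentiable (by simp)).differentiableAt
    have e3 : ‖x‖ ≤ ‖x - ξ‖ + ‖ξ‖ := by
      have := norm_add_le (x - ξ) ξ
      simpa using this
    have e4 : ‖x‖ ≤ ‖x - (ξ + h)‖ + (‖ξ‖ + ‖h‖) := by
      have := norm_add_le (x - (ξ + h)) (ξ + h)
      have h5 := norm_add_le ξ h
      simp only [sub_add_cancel] at this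
      linarith
    rw [e2, (Cf_out K.fam c (ξ + h) x (by linarith)).2, (Cf_out K.fam c ξ x (by linarith)).2,
      sub_zero]
  have hgk : ∫ x, gP B.S (jet k x) ≤ 2 * DN ^ 2 * Vk * ‖h‖ ^ 2 := by
    have e1 : ∀ x, gP B.S (jet k x) ≤
        (Metric.closedBall (0:ℂ) Rk).indicator (fun _ => 2 * (DN * ‖h‖) ^ 2) x := by
      intro x
      have hle : gP B.S (jet k x) ≤ 2 * ‖fderiv ℝ k x‖ ^ 2 := by
        refine (gP_le _ _).trans ?_
        unfold gsq jet
        simp only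
        have h1 : ‖fderiv ℝ k x 1‖ ≤ ‖fderiv ℝ k x‖ := by
          have := (fderiv ℝ k x).le_opNorm 1
          simpa using this
        have h2 : ‖fderiv ℝ k x Complex.I‖ ≤ ‖fderiv ℝ k x‖ := by
          have := (fderiv ℝ k x).le_opNorm Complex.I
          simpa using this
        have h3 := pow_le_pow_left₀ (norm_nonneg _) h1 2
        have h4 := pow_le_pow_left₀ (norm_nonneg _) h2 2
        linarith
      by_cases hx : x ∈ Metric.closedBall (0:ℂ) Rk
      · rw [Set.indicator_of_mem hx]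
        refine hle.trans ?_
        have := pow_le_pow_left₀ (norm_nonneg _) (hkd x) 2
        linarith
      · rw [Set.indicator_of_notMem hx]
        rw [Metric.mem_closedBall, dist_zero_right, not_le] at hx
        rw [hkout x hx] at hle
        simpa using hle
    calc ∫ x, gP B.S (jet k x)
        ≤ ∫ x, (Metric.closedBall (0:ℂ) Rk).indicator (fun _ => 2 * (DN * ‖h‖) ^ 2) x := by
          refine integral_mono i8 ?_ e1
          refine (integrable_indicator_iff Metric.isClosed_closedBall.measurableSet).2 ?_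
          exact integrableOn_const (isCompact_closedBall (0:ℂ) Rk).measure_lt_top.ne
      _ = 2 * DN ^ 2 * Vk * ‖h‖ ^ 2 := by
          rw [integral_indicator Metric.isClosed_closedBall.measurableSet, setIntegral_const, hVk,
            smul_eq_mul]
          ring
  have hgk0 : 0 ≤ ∫ x, gP B.S (jet k x) := integral_nonneg fun x => gP_nonneg _ _
  -- bound of E
  have hEb : ∀ᵐ x : ℂ, ‖E x‖ ≤ ‖h‖ ^ 2 * Φ x := by
    filter_upwards [hG] with x hGx
    rw [Real.norm_eq_abs]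
    have hs0 : SS K.F (x - ξ) ≤ 0 := (SS_neg K.wall _).le
    have hs1 : SS K.F (x - (ξ + h)) ≤ 0 := (SS_neg K.wall _).le
    have hsd : SS K.F (x - ξ) + d x = SS K.F (x - (ξ + h)) := by rw [hd]; unfold p18d; ring
    have hdx : |d x| ≤ ‖h‖ := p18d_abs K.wall ξ h x
    have hk1 : (jet k x).1 = k x := rfl
    have hWx := hW (SS K.F (x - ξ)) (d x) (v0 B x) (G x).1 (k x) hs0 (by rw [hsd]; exact hs1)
      (hdx.trans hh1) (fun a => v0_lin_nonpos B a x)
    rw [hsd] at hWx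
    have hlap : lapC d x = exp (SS K.F (x - (ξ + h))) * (exp (SS K.F (x - (ξ + h))) - 1)
      - exp (SS K.F (x - ξ)) * (exp (SS K.F (x - ξ)) - 1) := p18d_lap K.wall ξ h x
    have hshf1 : (shf K c ξ h x).1 = d x • one B.S + k x := by rw [hshf, hjd]; rfl
    have hG'1 : (G' x).1 = (G x).1 + k x := by rw [hG'eq]; rfl
    -- identification of E
    have hEx : E x = WW B.S (SS K.F (x - (ξ + h))) (v0 B x + (G x).1 + k x)
        - WW B.S (SS K.F (x - ξ)) (v0 B x + (G x).1)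
        - fderiv ℝ (WW B.S (SS K.F (x - ξ))) (v0 B x + (G x).1) (d x • one B.S + k x)
        + c1 * (v0 B x + (G x).1) B.S.o * (exp (SS K.F (x - (ξ + h))) *
          (exp (SS K.F (x - (ξ + h))) - 1) - exp (SS K.F (x - ξ)) * (exp (SS K.F (x - ξ)) - 1)) := by
      rw [← hlap]
      have hlast : c1 * ((v0 B x) B.S.o * lapC d x + (G x).1 B.S.o * lapC d x) =
          c1 * (v0 B x + (G x).1) B.S.o * lapC d x := by
        simp only [PiLp.add_apply]; ring
      simp only [hE]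
      rw [hlast, hG'1, hshf1]
      by_cases hx : ‖x‖ < R₀
      · rw [dpot_in B x hx]
        simp only [pot, if_pos hx]
        rw [← add_assoc]
      · have hx' : R₀ ≤ ‖x‖ := not_lt.mp hx
        have hv : v0 B x = 0 := (hRv x (hR₀.trans hx')).1
        have hτp := tau_pos hδ hρ0 x
        have hpot : ∀ s g, (∀ j, |g j| ≤ tau δ K.ρ x) → pot B δ R₀ K.ρ x s g = WW B.S s g := by
          intro s g hg
          simp only [pot, if_neg hx]
          rw [RT_eq B.S _ s hτp g hg]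
          unfold RR; ring
        have hg1 : ∀ j, |(G x).1 j| ≤ tau δ K.ρ x := fun j => (hGx hx' j).trans (by linarith)
        have hg2 : ∀ j, |((G x).1 + k x) j| ≤ tau δ K.ρ x := by
          intro j
          have e1 := hGx hx' j
          have e2 := p18_abs_apply_le (k x) j
          have e3 := hkb x
          have e4 := p18_tau_ge (δ := δ) hρ0 x
          have e5 : |((G x).1 + k x) j| ≤ |(G x).1 j| + |(k x) j| := by
            simp only [PiLp.add_apply]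
            exact abs_add_le _ _
          rw [← hτ₀] at e4
          linarith
        have hfd : fderiv ℝ (pot B δ R₀ K.ρ x (SS K.F (x - ξ))) (G x).1 =
            fderiv ℝ (WW B.S (SS K.F (x - ξ))) (G x).1 := by
          apply Filter.EventuallyEq.fderiv_eq
          have hopen : IsOpen {g : Ev ι | ∀ j, |g j| < tau δ K.ρ x} := by
            simp only [Set.setOf_forall]
            exact isOpen_iInter_of_finite fun j => isOpen_lt (by fun_prop) continuous_const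
          have hmem : (G x).1 ∈ {g : Ev ι | ∀ j, |g j| < tau δ K.ρ x} := fun j =>
            (hGx hx' j).trans_lt (by linarith)
          filter_upwards [hopen.mem_nhds hmem] with g hg
          exact hpot _ g (fun j => (hg j).le)
        rw [hfd, hpot _ _ hg1, hpot _ _ hg2, hv, zero_add]
    rw [hEx]
    refine hWx.trans ?_
    have hkx := hkb x
    have hd2 : d x ^ 2 + ‖k x‖ ^ 2 ≤ (1 + DN ^ 2) * ‖h‖ ^ 2 := by
      have e1 : d x ^ 2 ≤ ‖h‖ ^ 2 := by
        rw [← sq_abs]; exact pow_le_pow_left₀ (abs_nonneg _) hdx 2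
      have e2 := pow_le_pow_left₀ (norm_nonneg _) hkx 2
      rw [mul_pow] at e2
      linarith
    have hexpk : exp (C7 * (‖(G x).1‖ + ‖k x‖)) ≤ exp (C7 * ‖(G x).1‖) * exp (C7 * DN) := by
      rw [← exp_add]
      apply exp_le_exp.mpr
      have h1 : ‖k x‖ ≤ DN := hkx.trans (mul_le_of_le_one_right hDN0 hh1)
      have h2 := mul_le_mul_of_nonneg_left h1 hC7.le
      rw [mul_add]
      linarith
    set e := exp (max (SS K.F (x - ξ)) (SS K.F (x - (ξ + h)))) with he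
    have he0 : 0 < e := exp_pos _
    have hmain : e * exp (C7 * ‖(G x).1‖) ≤
        (Metric.ball (0:ℂ) R₀).indicator (fun z => exp (C7 * ‖(G z).1‖)) x
          + A' * ((1 + ‖x‖) ^ 9)⁻¹ := by
      have hA9 : 0 ≤ A' * ((1 + ‖x‖) ^ 9)⁻¹ := by positivity
      by_cases hx : x ∈ Metric.ball (0:ℂ) R₀
      · rw [Set.indicator_of_mem hx]
        have h1 : e ≤ 1 := Real.exp_le_one_iff.mpr (max_le hs0 hs1)
        have h2 : e * exp (C7 * ‖(G x).1‖) ≤ 1 * exp (C7 * ‖(G x).1‖) :=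
          mul_le_mul_of_nonneg_right h1 (exp_pos _).le
        rw [one_mul] at h2
        exact h2.trans (le_add_of_nonneg_right hA9)
      · rw [Set.indicator_of_notMem hx, zero_add]
        have hx' : R₀ ≤ ‖x‖ := by
          rw [Metric.mem_ball, dist_zero_right] at hx; exact not_lt.mp hx
        have hp : (0:ℝ) < 1 + ‖x‖ := by positivity
        have h1 : e ≤ C10 / (1 + ‖x‖) ^ 10 := by
          rw [le_div_iff₀ (by positivity), he]
          rcases max_choice (SS K.F (x - ξ)) (SS K.F (x - (ξ + h))) with hm | hm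
          · rw [hm]; exact hE10 ξ x (by linarith)
          · rw [hm]; exact hE10 (ξ + h) x ((norm_add_le _ _).trans (by linarith))
        have h2 : exp (C7 * ‖(G x).1‖) ≤ exp (C7 * nn) * (1 + ‖x‖) := by
          have e1 := p18_norm_le_sum (G x).1 (hGx hx')
          have e2 := p18_tau_le hδ1 hρ1 x
          have e3 : Real.log (1 + ‖x‖) = Real.log (1 + ‖x‖) := rfl
          have e4 : 0 ≤ Real.log (1 + ‖x‖) := Real.log_nonneg (by linarith [norm_nonneg x])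
          have e5 : C7 * ‖(G x).1‖ ≤ C7 * nn + Real.log (1 + ‖x‖) := by
            have f1 : ‖(G x).1‖ ≤ nn * (1 / 2 * (2 + (K.ρ ^ 6)⁻¹ * Real.log (1 + ‖x‖))) :=
              e1.trans (mul_le_mul_of_nonneg_left (by linarith) hnn0)
            have f2 : C7 * nn * (K.ρ ^ 6)⁻¹ ≤ 1 := by
              rw [← div_eq_mul_inv, div_le_one (by positivity)]
              calc C7 * nn ≤ K.ρ := hKb
                _ = K.ρ ^ 1 := (pow_one _).symm
                _ ≤ K.ρ ^ 6 := pow_le_pow_right₀ hρ1 (by norm_num)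
            have f3 := mul_le_mul_of_nonneg_left f1 hC7.le
            have f4 := mul_le_mul_of_nonneg_right f2 e4
            have f5 : C7 * (nn * (1 / 2 * (2 + (K.ρ ^ 6)⁻¹ * Real.log (1 + ‖x‖)))) =
                C7 * nn + 1 / 2 * (C7 * nn * (K.ρ ^ 6)⁻¹ * Real.log (1 + ‖x‖)) := by ring
            rw [f5] at f3
            rw [one_mul] at f4
            linarith
          calc exp (C7 * ‖(G x).1‖) ≤ exp (C7 * nn + Real.log (1 + ‖x‖)) := exp_le_exp.mpr e5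
            _ = exp (C7 * nn) * (1 + ‖x‖) := by rw [exp_add, exp_log hp]
        calc e * exp (C7 * ‖(G x).1‖) ≤ C10 / (1 + ‖x‖) ^ 10 * (exp (C7 * nn) * (1 + ‖x‖)) :=
              mul_le_mul h1 h2 (exp_pos _).le (by positivity)
          _ = A' * ((1 + ‖x‖) ^ 9)⁻¹ := by rw [hA']; field_simp
    calc C7 * e * exp (C7 * (‖(G x).1‖ + ‖k x‖)) * (d x ^ 2 + ‖k x‖ ^ 2)
        ≤ C7 * e * (exp (C7 * ‖(G x).1‖) * exp (C7 * DN)) * ((1 + DN ^ 2) * ‖h‖ ^ 2) := by
          apply mul_le_mul _ hd2 (by positivity) (by positivity)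
          exact mul_le_mul_of_nonneg_left hexpk (by positivity)
      _ = ‖h‖ ^ 2 * (A * (e * exp (C7 * ‖(G x).1‖))) := by rw [hA]; ring
      _ ≤ ‖h‖ ^ 2 * Φ x := by
          apply mul_le_mul_of_nonneg_left _ (sq_nonneg _)
          exact mul_le_mul_of_nonneg_left hmain hA0
  have hEint : |∫ x, E x| ≤ ‖h‖ ^ 2 * ∫ x, Φ x := by
    have := norm_integral_le_of_norm_le (hΦi.const_mul (‖h‖ ^ 2)) hEb
    rwa [integral_const_mul] at this
  rw [htotal]
  have habs := abs_add_le (1 / 2 * (∫ x, gP B.S (jet k x))) (∫ x, E x)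
  have h1 : |1 / 2 * (∫ x, gP B.S (jet k x))| = 1 / 2 * (∫ x, gP B.S (jet k x)) :=
    abs_of_nonneg (by linarith)
  rw [h1] at habs
  refine habs.trans ?_
  have h2 : ((∫ x, Φ x) + 1 / 2 * (2 * DN ^ 2 * Vk)) * ‖h‖ ^ 2 =
      1 / 2 * (2 * DN ^ 2 * Vk * ‖h‖ ^ 2) + ‖h‖ ^ 2 * ∫ x, Φ x := by ring
  rw [h2]
  exact add_le_add (mul_le_mul_of_nonneg_left hgk (by norm_num)) hEint

end Pool.MP_ad5d82_an.Wl
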