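import Pool.Agent.Lib.MP_ad5d82_an.h24.B.B4d
import Pool.Agent.Lib.MP_ad5d82_an.h24.PDefs
import Pool.Agent.Lib.MP_ad5d82_an.h24.H.H1
import Pool.Agent.Lib.MP_ad5d82_an.h24.P.P0
import Pool.Agent.Lib.MP_ad5d82_an.h24.P.P1
import Pool.Agent.Lib.MP_ad5d82_an.h24.P.P4
import Pool.Agent.Lib.MP_ad5d82_an.h24.P.PC
import Pool.Agent.Lib.MP_ad5d82_an.h24.P.P14c

set_option autoImplicit false

namespace Pool.MP_ad5d82_an.Wl

open Real Set MeasureTheory Filter Topology
open scoped ContDiff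

variable {ι : Type} [Fintype ι] [DecidableEq ι]

variable {B : Base ι} {δ R₀ Ξ : ℝ}


/-! ### P18b expansion of the functionals `ell` in `ξ` -/

private theorem p18b_meas {U : Fld ι} (hU : IsSob U) (j : ι) :
    AEStronglyMeasurable (fun x => (U x).1 j) volume := by
  have hc : Continuous (fun u : Ev ι × Ev ι × Ev ι => u.1 j) := by fun_prop
  exact hc.comp_aestronglyMeasurable hU.1

/-- integrability of a continuous kernel supported in an annulus times a component -/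
private theorem p18b_int {U : Fld ι} (hU : IsSob U) (ρ : ℝ) (κ : ℂ → (ℂ →L[ℝ] ℝ))
    (hκc : Continuous κ) (D : ℝ) (hκ : ∀ x, ‖κ x‖ ≤ D)
    (hsupp : ∀ x : ℂ, ¬ (0.9 * ρ ≤ ‖x‖ ∧ ‖x‖ < 1.1 * ρ) → κ x = 0) (j : ι) :
    Integrable (fun x => (U x).1 j • κ x) volume := by
  have h1 : Integrable ((Metric.ball (0 : ℂ) (1.1 * ρ)).indicator
      fun x => D * ‖(U x).1‖) volume :=
    (integrable_indicator_iff measurableSet_ball).2 ((hU.integrableOn (1.1 * ρ)).const_mul D)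
  refine Integrable.mono' h1 ((p18b_meas hU j).smul hκc.aestronglyMeasurable)
    (Filter.Eventually.of_forall fun x => ?_)
  by_cases hx : x ∈ Metric.ball (0 : ℂ) (1.1 * ρ)
  · rw [Set.indicator_of_mem hx, norm_smul, mul_comm]
    exact mul_le_mul (hκ x) (PiLp.norm_apply_le _ _) (norm_nonneg _)
      ((norm_nonneg _).trans (hκ x))
  · rw [Set.indicator_of_notMem hx, hsupp x, smul_zero, norm_zero]
    rintro ⟨-, h2⟩
    exact hx (by simpa using h2)

theorem ell_expand (S : Sys ι) : ∃ C : ℝ, 0 < C ∧ ∀ ρ : ℝ, 100 ≤ ρ → ∀ i ∈ modes S, ∀ ξ : ℂ,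
    ‖ξ‖ ≤ 0.009 * ρ → ∀ U : Fld ι, IsSob U →
    ∃ (L : ℂ →L[ℝ] ℝ) (M : ℝ), ‖L‖ ≤ C * ρ * Real.sqrt (NII ρ (0.9 * ρ) U) ∧
      ∀ h : ℂ, ‖h‖ ≤ 1 / 100 → |ell ρ i (ξ + h) U - ell ρ i ξ U - L h| ≤ M * ‖h‖ ^ 2 := by
  obtain ⟨C, hC, hk⟩ := kel_props S
  refine ⟨2 * C, by positivity, fun ρ hρ i hi ξ hξ U hU => ?_⟩
  obtain ⟨hsm, hz, hb⟩ := hk ρ hρ i hi
  have hρ0 : 0 < ρ := by linarith
  set N := Real.sqrt (NII ρ (0.9 * ρ) U) with hN
  have hN0 : 0 ≤ N := Real.sqrt_nonneg _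
  have hell : ∀ η : ℂ, ell ρ i η U = ∫ x, kel ρ i (x - η) * (U x).1 i.1 := fun η => rfl
  have hint : ∀ η : ℂ, Integrable (fun x => kel ρ i (x - η) * (U x).1 i.1) := fun η =>
    ell_integrable ρ i η hU
  have hann : ∀ η x : ℂ, ‖η‖ ≤ 0.01 * ρ → ¬ (0.9 * ρ ≤ ‖x‖ ∧ ‖x‖ < 1.1 * ρ) →
      kel ρ i (x - η) = 0 ∧ fderiv ℝ (kel ρ i) (x - η) = 0 := by
    intro η x hη hx
    refine hz (x - η) ?_
    by_contra hcon
    push Not at hcon
    rw [abs_lt] at hcon
    apply hx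
    have h1 : ‖x‖ ≤ ‖x - η‖ + ‖η‖ := by
      have := norm_add_le (x - η) η
      rwa [sub_add_cancel] at this
    have h2 : ‖x - η‖ ≤ ‖x‖ + ‖η‖ := norm_sub_le _ _
    constructor <;> linarith [hcon.1, hcon.2]
  have hd1 : Continuous (fderiv ℝ (kel ρ i)) := hsm.continuous_fderiv (by simp)
  have hξ' : ‖ξ‖ ≤ 0.01 * ρ := by linarith
  have hi2 : Integrable (fun x => (U x).1 i.1 • fderiv ℝ (kel ρ i) (x - ξ)) volume :=
    p18b_int hU ρ (fun x => fderiv ℝ (kel ρ i) (x - ξ)) (hd1.comp (by fun_prop)) C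
      (fun x => (hb _).2.1) (fun x hx => (hann ξ x hξ' hx).2) i.1
  set L : ℂ →L[ℝ] ℝ := -∫ x, (U x).1 i.1 • fderiv ℝ (kel ρ i) (x - ξ) with hL
  have hLh : ∀ h : ℂ, L h = -∫ x, fderiv ℝ (kel ρ i) (x - ξ) h * (U x).1 i.1 := by
    intro h
    rw [hL]
    change -((∫ x, (U x).1 i.1 • fderiv ℝ (kel ρ i) (x - ξ)) h) = _
    rw [ContinuousLinearMap.integral_apply hi2]
    congr 1
    refine integral_congr_ae (Filter.Eventually.of_forall fun x => ?_)
    change (U x).1 i.1 * fderiv ℝ (kel ρ i) (x - ξ) h = fderiv ℝ (kel ρ i) (x - ξ) h * (U x).1 i.1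
    ring
  refine ⟨L, 2 * C * ρ * N, ?_, fun h hh => ?_⟩
  · refine ContinuousLinearMap.opNorm_le_bound _ (by positivity) fun h => ?_
    rw [hLh, norm_neg, Real.norm_eq_abs]
    have h1 := p14c_annulus hU ρ hρ (fun x => fderiv ℝ (kel ρ i) (x - ξ) h) (C * ‖h‖)
      (by positivity) (fun x => ?_) (fun x hx => ?_) i.1
    · refine h1.trans (le_of_eq ?_)
      rw [← hN]
      ring
    · exact (ContinuousLinearMap.le_opNorm _ _).trans
        (mul_le_mul_of_nonneg_right (hb _).2.1 (norm_nonneg _))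
    · rw [(hann ξ x hξ' hx).2]
      rfl
  · have hξh : ‖ξ + h‖ ≤ 0.01 * ρ := by
      have := norm_add_le ξ h
      linarith
    have hi3 : Integrable (fun x => fderiv ℝ (kel ρ i) (x - ξ) h * (U x).1 i.1) := by
      have := (ContinuousLinearMap.apply ℝ ℝ h).integrable_comp hi2
      refine this.congr (Filter.Eventually.of_forall fun x => ?_)
      change (U x).1 i.1 * fderiv ℝ (kel ρ i) (x - ξ) h =
        fderiv ℝ (kel ρ i) (x - ξ) h * (U x).1 i.1
      ring
    have hsub : Integrable (fun x => kel ρ i (x - (ξ + h)) * (U x).1 i.1 -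
        kel ρ i (x - ξ) * (U x).1 i.1) := (hint _).sub (hint _)
    rw [hell, hell, hLh, sub_neg_eq_add, ← integral_sub (hint _) (hint _),
      ← integral_add hsub hi3]
    have h1 := p14c_annulus hU ρ hρ (fun x => kel ρ i (x - (ξ + h)) - kel ρ i (x - ξ) +
      fderiv ℝ (kel ρ i) (x - ξ) h) (C * ‖h‖ ^ 2) (by positivity) (fun x => ?_)
      (fun x hx => ?_) i.1
    · have h2 : ∀ x, kel ρ i (x - (ξ + h)) * (U x).1 i.1 - kel ρ i (x - ξ) * (U x).1 i.1 +
          fderiv ℝ (kel ρ i) (x - ξ) h * (U x).1 i.1 =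
          (kel ρ i (x - (ξ + h)) - kel ρ i (x - ξ) + fderiv ℝ (kel ρ i) (x - ξ) h) *
            (U x).1 i.1 := fun x => by ring
      simp_rw [h2]
      refine h1.trans (le_of_eq ?_)
      rw [← hN]
      ring
    · have h3 := p14c_taylor (kel ρ i) hsm C (fun z => (hb z).2.2) (x - ξ) (-h)
      rw [map_neg, norm_neg, sub_neg_eq_add] at h3
      have e1 : x - ξ + -h = x - (ξ + h) := by ring
      rw [e1] at h3
      exact h3
    · rw [(hann _ x hξh hx).1, (hann ξ x hξ' hx).1, (hann ξ x hξ' hx).2]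
      simp

/-- the annulus where the kernel lives -/
private theorem p18b_vol (ρ : ℝ) (hρ : 100 ≤ ρ) :
    MeasurableSet {z : ℂ | |‖z‖ - ρ| < 3 / 4} ∧ volume {z : ℂ | |‖z‖ - ρ| < 3 / 4} < ⊤ ∧
      volume.real {z : ℂ | |‖z‖ - ρ| < 3 / 4} ≤ 12 * ρ := by
  have hm : MeasurableSet {z : ℂ | |‖z‖ - ρ| < 3 / 4} :=
    (isOpen_lt (by fun_prop) continuous_const).measurableSet
  have hsub : {z : ℂ | |‖z‖ - ρ| < 3 / 4} ⊆
      Metric.ball (0 : ℂ) (ρ + 3 / 4) \ Metric.closedBall (0 : ℂ) (ρ - 3 / 4) := by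
    intro z hz
    simp only [Set.mem_ofPred_eq, abs_lt] at hz
    simp only [Set.mem_sdiff, mem_ball_iff_norm, sub_zero, mem_closedBall_iff_norm, not_le]
    constructor <;> linarith [hz.1, hz.2]
  have hfin : volume {z : ℂ | |‖z‖ - ρ| < 3 / 4} < ⊤ :=
    (measure_mono (hsub.trans Set.sdiff_subset)).trans_lt MeasureTheory.measure_ball_lt_top
  refine ⟨hm, hfin, ?_⟩
  have h1 : volume.real {z : ℂ | |‖z‖ - ρ| < 3 / 4} ≤
      volume.real (Metric.ball (0 : ℂ) (ρ + 3 / 4) \ Metric.closedBall (0 : ℂ) (ρ - 3 / 4)) :=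
    measureReal_mono hsub ((measure_mono Set.sdiff_subset).trans_lt
      MeasureTheory.measure_ball_lt_top).ne
  refine h1.trans ?_
  have h2 : volume.real (Metric.ball (0 : ℂ) (ρ + 3 / 4) \ Metric.closedBall (0 : ℂ) (ρ - 3 / 4)) =
      π * (ρ + 3 / 4) ^ 2 - π * (ρ - 3 / 4) ^ 2 := by
    unfold Measure.real
    rw [measure_sdiff (fun z hz => by
        rw [mem_ball_iff_norm]
        rw [mem_closedBall_iff_norm] at hz
        linarith) measurableSet_closedBall.nullMeasurableSet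
      MeasureTheory.measure_closedBall_lt_top.ne, Complex.volume_ball, Complex.volume_closedBall,
      ENNReal.toReal_sub_of_le]
    · simp only [ENNReal.toReal_mul, ENNReal.toReal_pow]
      rw [ENNReal.toReal_ofReal (by linarith), ENNReal.toReal_ofReal (by linarith)]
      simp only [ENNReal.coe_toReal, NNReal.coe_real_pi]
      ring
    · gcongr
      linarith
    · exact ENNReal.mul_ne_top (by simp) (by simp)
  rw [h2]
  have h3 : π * (ρ + 3 / 4) ^ 2 - π * (ρ - 3 / 4) ^ 2 = 3 * π * ρ := by ring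
  rw [h3]
  have := pi_lt_four
  have h4 : 3 * π ≤ 12 := by linarith
  exact mul_le_mul_of_nonneg_right h4 (by linarith)

/-- expansion of `ell` on the moving negative family. -/
theorem ell_Cf (S : Sys ι) (c₀ C₁ : ℝ) : ∃ C : ℝ, 0 < C ∧ ∀ (ρ : ℝ) (F : ℝ → ℝ), 100 ≤ ρ →
    ∀ χ : {i // i ∈ neg S} → ℂ → ℝ, NegFam S c₀ C₁ ρ F χ → ∀ i ∈ modes S, ∀ (c : Cc S) (ξ : ℂ),
    ∃ (L : ℂ →L[ℝ] ℝ) (M : ℝ), ‖L‖ ≤ C * ρ * Real.sqrt (∑ l, c l ^ 2) ∧
      ∀ h : ℂ, ‖h‖ ≤ 1 → |ell ρ i ξ (jet (fun x => Cf S χ c (ξ + h) x - Cf S χ c ξ x)) - L h|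
        ≤ M * ‖h‖ ^ 2 := by
  obtain ⟨CK, hCK, hk⟩ := kel_props S
  set card : ℝ := Real.sqrt (Fintype.card {i // i ∈ neg S}) with hcard
  have hcard0 : 0 ≤ card := Real.sqrt_nonneg _
  refine ⟨12 * |C₁| * card + 1, by positivity, fun ρ F hρ χ hχ i hi c ξ => ?_⟩
  obtain ⟨hsm, hz, hb⟩ := hk ρ hρ i hi
  have hρ0 : 0 < ρ := by linarith
  obtain ⟨hAm, hAfin, hAvol⟩ := p18b_vol ρ hρ
  set A : Set ℂ := {z : ℂ | |‖z‖ - ρ| < 3 / 4} with hA
  have hzA : ∀ z, z ∉ A → kel ρ i z = 0 := fun z hz' => (hz z (by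
    simpa [hA] using hz')).1
  have hkc : Continuous (kel ρ i) := hsm.continuous
  have hksupp : HasCompactSupport (kel ρ i) := by
    refine HasCompactSupport.intro (isCompact_closedBall (0 : ℂ) (ρ + 1)) fun z hz' => ?_
    refine hzA z fun h => hz' ?_
    simp only [hA, Set.mem_ofPred_eq, abs_lt] at h
    rw [mem_closedBall_iff_norm, sub_zero]
    linarith [h.2]
  -- coefficients
  set a : {i // i ∈ neg S} → ℝ := fun l => if l.1.1 = i.1 then c l else 0 with ha
  have hale : ∀ l, |a l| ≤ |c l| := by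
    intro l
    simp only [ha]
    split_ifs
    · exact le_rfl
    · rw [abs_zero]
      exact abs_nonneg _
  have hsumc : ∑ l, |c l| ≤ card * Real.sqrt (∑ l, c l ^ 2) := by
    have h1 := Finset.sum_mul_sq_le_sq_mul_sq Finset.univ (fun _ : {i // i ∈ neg S} => (1 : ℝ))
      (fun l => |c l|)
    simp only [one_mul, one_pow, Finset.sum_const, Finset.card_univ, nsmul_eq_mul, mul_one,
      sq_abs] at h1
    rw [hcard, ← Real.sqrt_mul (by positivity)]
    exact Real.le_sqrt_of_sq_le h1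
  have hC1 : ∀ l : {i // i ∈ neg S}, 0 ≤ C₁ := fun l =>
    (norm_nonneg _).trans (hχ.bound l 0 (by norm_num) 0)
  have hCabs : ∀ l : {i // i ∈ neg S}, C₁ ≤ |C₁| := fun l => le_abs_self _
  have hχd : ∀ l z, ‖fderiv ℝ (χ l) z‖ ≤ |C₁| := by
    intro l z
    have := hχ.bound l 1 (by norm_num) z
    rw [norm_iteratedFDeriv_one] at this
    exact this.trans (le_abs_self _)
  have hχd2 : ∀ l z, ‖fderiv ℝ (fderiv ℝ (χ l)) z‖ ≤ |C₁| := by
    intro l z
    have h1 := hχ.bound l 2 (by norm_num) z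
    have h2 : ‖iteratedFDeriv ℝ 1 (fderiv ℝ (χ l)) z‖ = ‖iteratedFDeriv ℝ 2 (χ l) z‖ :=
      norm_iteratedFDeriv_fderiv
    rw [norm_iteratedFDeriv_one] at h2
    rw [h2]
    exact h1.trans (le_abs_self _)
  -- the linear maps
  have hint : ∀ l, Integrable (fun z => kel ρ i z • fderiv ℝ (χ l) z) volume := by
    intro l
    refine Continuous.integrable_of_hasCompactSupport ?_ ?_
    · exact hkc.smul ((hχ.smooth l).continuous_fderiv (by simp))
    · exact hksupp.smul_right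
  have hTn : ∀ l, ‖∫ z, kel ρ i z • fderiv ℝ (χ l) z‖ ≤ |C₁| * (12 * ρ) := by
    intro l
    have h1 : ∫ z, kel ρ i z • fderiv ℝ (χ l) z = ∫ z in A, kel ρ i z • fderiv ℝ (χ l) z := by
      refine (setIntegral_eq_integral_of_forall_compl_eq_zero fun z hz' => ?_).symm
      rw [hzA z hz', zero_smul]
    rw [h1]
    refine (norm_setIntegral_le_of_norm_le_const (C := |C₁|) hAfin fun z _ => ?_).trans
      (mul_le_mul_of_nonneg_left hAvol (abs_nonneg _))
    rw [norm_smul]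
    calc ‖kel ρ i z‖ * ‖fderiv ℝ (χ l) z‖ ≤ 1 * |C₁| :=
          mul_le_mul (hb z).1 (hχd l z) (norm_nonneg _) zero_le_one
      _ = |C₁| := one_mul _
  set L : ℂ →L[ℝ] ℝ := -∑ l, a l • ∫ z, kel ρ i z • fderiv ℝ (χ l) z with hL
  have hLh : ∀ h : ℂ, L h = -∑ l, a l * ∫ z, kel ρ i z * fderiv ℝ (χ l) z h := by
    intro h
    have h1 : ∀ l, (∫ z, kel ρ i z • fderiv ℝ (χ l) z) h = ∫ z, kel ρ i z * fderiv ℝ (χ l) z h := by
      intro l
      rw [ContinuousLinearMap.integral_apply (hint l)]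
      rfl
    rw [hL]
    simp only [_root_.neg_apply, _root_.sum_apply, _root_.smul_apply, smul_eq_mul, h1]
  refine ⟨L, ∑ l, |c l| * (|C₁| * (12 * ρ)), ?_, fun h hh => ?_⟩
  · rw [hL, norm_neg]
    calc ‖∑ l, a l • ∫ z, kel ρ i z • fderiv ℝ (χ l) z‖ ≤
        ∑ l, ‖a l • ∫ z, kel ρ i z • fderiv ℝ (χ l) z‖ := norm_sum_le _ _
      _ ≤ ∑ l, |c l| * (|C₁| * (12 * ρ)) := by
          refine Finset.sum_le_sum fun l _ => ?_
          rw [norm_smul]
          exact mul_le_mul (hale l) (hTn l) (norm_nonneg _) (abs_nonneg _)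
      _ = (∑ l, |c l|) * (|C₁| * (12 * ρ)) := by rw [Finset.sum_mul]
      _ ≤ (card * Real.sqrt (∑ l, c l ^ 2)) * (|C₁| * (12 * ρ)) :=
          mul_le_mul_of_nonneg_right hsumc (by positivity)
      _ ≤ (12 * |C₁| * card + 1) * ρ * Real.sqrt (∑ l, c l ^ 2) := by
          have : 0 ≤ ρ * Real.sqrt (∑ l, c l ^ 2) := by positivity
          nlinarith
  · -- the remainder
    have h1 : ell ρ i ξ (jet (fun x => Cf S χ c (ξ + h) x - Cf S χ c ξ x)) =
        ∫ z, kel ρ i z * ∑ l, a l * (χ l (z - h) - χ l z) := by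
      have h2 : ell ρ i ξ (jet (fun x => Cf S χ c (ξ + h) x - Cf S χ c ξ x)) =
          ∫ x, kel ρ i (x - ξ) * ∑ l, a l * (χ l ((x - ξ) - h) - χ l (x - ξ)) := by
        unfold ell
        refine integral_congr_ae (Filter.Eventually.of_forall fun x => ?_)
        simp only [jet]
        have h3 : (Cf S χ c (ξ + h) x - Cf S χ c ξ x) i.1 =
            ∑ l, a l * (χ l ((x - ξ) - h) - χ l (x - ξ)) := by
          rw [PiLp.sub_apply, b4_Cf_apply, b4_Cf_apply, ← Finset.sum_sub_distrib]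
          refine Finset.sum_congr rfl fun l _ => ?_
          have e1 : x - (ξ + h) = x - ξ - h := by ring
          simp only [ha, e1]
          split_ifs <;> ring
        rw [h3]
        rfl
      rw [h2]
      exact integral_sub_right_eq_self
        (fun z : ℂ => kel ρ i z * ∑ l, a l * (χ l (z - h) - χ l z)) ξ
    have hintR : ∀ l, Integrable (fun z => kel ρ i z * fderiv ℝ (χ l) z h) := by
      intro l
      exact (ContinuousLinearMap.apply ℝ ℝ h).integrable_comp (hint l)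
    have hintD : Integrable (fun z => kel ρ i z * ∑ l, a l * (χ l (z - h) - χ l z)) := by
      refine Continuous.integrable_of_hasCompactSupport ?_ hksupp.mul_right
      refine hkc.mul (continuous_finsetSum _ fun l _ => continuous_const.mul ?_)
      exact ((hχ.smooth l).continuous.comp (by fun_prop)).sub (hχ.smooth l).continuous
    have h4 : -L h = ∫ z, ∑ l, a l * (kel ρ i z * fderiv ℝ (χ l) z h) := by
      rw [hLh, neg_neg, integral_finsetSum _ fun l _ => (hintR l).const_mul (a l)]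
      refine Finset.sum_congr rfl fun l _ => ?_
      rw [integral_const_mul]
    have hintS : Integrable (fun z => ∑ l, a l * (kel ρ i z * fderiv ℝ (χ l) z h)) :=
      integrable_finsetSum _ fun l _ => (hintR l).const_mul (a l)
    rw [h1, sub_eq_add_neg, h4, ← integral_add hintD hintS]
    have h5 : ∫ z, (kel ρ i z * ∑ l, a l * (χ l (z - h) - χ l z) +
        ∑ l, a l * (kel ρ i z * fderiv ℝ (χ l) z h)) =
        ∫ z in A, (kel ρ i z * ∑ l, a l * (χ l (z - h) - χ l z) +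
        ∑ l, a l * (kel ρ i z * fderiv ℝ (χ l) z h)) := by
      refine (setIntegral_eq_integral_of_forall_compl_eq_zero fun z hz' => ?_).symm
      rw [hzA z hz']
      simp
    rw [h5, ← Real.norm_eq_abs]
    refine (norm_setIntegral_le_of_norm_le_const (C := ∑ l, |c l| * (|C₁| * ‖h‖ ^ 2)) hAfin
      fun z _ => ?_).trans ?_
    · have h6 : kel ρ i z * ∑ l, a l * (χ l (z - h) - χ l z) +
          ∑ l, a l * (kel ρ i z * fderiv ℝ (χ l) z h) =
          ∑ l, a l * (kel ρ i z * (χ l (z - h) - χ l z + fderiv ℝ (χ l) z h)) := by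
        rw [Finset.mul_sum, ← Finset.sum_add_distrib]
        refine Finset.sum_congr rfl fun l _ => ?_
        ring
      rw [h6]
      refine (norm_sum_le _ _).trans (Finset.sum_le_sum fun l _ => ?_)
      rw [norm_mul, norm_mul]
      have h7 := p14c_taylor (χ l) (hχ.smooth l) (|C₁|) (hχd2 l) z (-h)
      rw [map_neg, norm_neg, sub_neg_eq_add, ← sub_eq_add_neg] at h7
      calc ‖a l‖ * (‖kel ρ i z‖ * ‖χ l (z - h) - χ l z + fderiv ℝ (χ l) z h‖) ≤
          |c l| * (1 * (|C₁| * ‖h‖ ^ 2)) :=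
            mul_le_mul (hale l) (mul_le_mul (hb z).1 h7 (norm_nonneg _) zero_le_one)
              (by positivity) (abs_nonneg _)
        _ = _ := by rw [one_mul]
    · have h8 : 0 ≤ ∑ l, |c l| * (|C₁| * ‖h‖ ^ 2) :=
        Finset.sum_nonneg fun l _ => by positivity
      refine (mul_le_mul_of_nonneg_left hAvol h8).trans (le_of_eq ?_)
      rw [Finset.sum_mul, Finset.sum_mul]
      refine Finset.sum_congr rfl fun l _ => ?_
      ring

end Pool.MP_ad5d82_an.Wl
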