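import Pool.Agent.Lib.MP_ad5d82_an.h24.PDefs
import Pool.Agent.Lib.MP_ad5d82_an.h24.H.H1
import Pool.Agent.Lib.MP_ad5d82_an.h24.W.W3
import Pool.Agent.Lib.MP_ad5d82_an.h24.W.W4
import Pool.Agent.Lib.MP_ad5d82_an.h24.P.P0
import Pool.Agent.Lib.MP_ad5d82_an.h24.P.P1
import Pool.Agent.Lib.MP_ad5d82_an.h24.P.P4a

set_option autoImplicit false

namespace Pool.MP_ad5d82_an.Wl

open Real Set MeasureTheory Filter Topology
open scoped ContDiff

variable {ι : Type} [Fintype ι] [DecidableEq ι]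

/-! ### P18c the functionals on the translations of the wall -/

theorem P18c_om_nonneg (t : ℝ) : 0 ≤ om t := Real.smoothTransition.nonneg _
theorem P18c_om_le (t : ℝ) : om t ≤ 1 := Real.smoothTransition.le_one _
theorem P18c_om_one {t : ℝ} (ht : |t| ≤ 1 / 2) : om t = 1 := by
  apply Real.smoothTransition.one_of_one_le
  have := pow_le_pow_left₀ (abs_nonneg t) ht 2
  rw [sq_abs] at this
  linarith
theorem P18c_om_zero {t : ℝ} (ht : 3 / 4 ≤ |t|) : om t = 0 := by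
  apply Real.smoothTransition.zero_of_nonpos
  have := pow_le_pow_left₀ (by norm_num) ht 2
  rw [sq_abs] at this
  linarith
theorem P18c_om_cont : Continuous om :=
  Real.smoothTransition.continuous.comp (by fun_prop)

theorem P18c_om_int (ρ : ℝ) : Integrable (fun z : ℂ => om (‖z‖ - ρ)) volume := by
  refine Continuous.integrable_of_hasCompactSupport
    (P18c_om_cont.comp (continuous_norm.sub continuous_const))
    (HasCompactSupport.intro (isCompact_closedBall 0 (ρ + 1)) ?_)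
  intro z hz
  rw [Metric.mem_closedBall, dist_zero_right, not_le] at hz
  apply P18c_om_zero
  rw [abs_of_nonneg (by linarith)]
  linarith

/-- `e₁ = re z / |z|` -/
theorem P18c_trig_true (z : ℂ) : trig 1 true z = z.re / ‖z‖ := by
  simp [trig, Complex.div_ofReal_re]

theorem P18c_trig_false (z : ℂ) : trig 1 false z = z.im / ‖z‖ := by
  simp [trig, Complex.div_ofReal_im]

theorem P18c_re_le (z : ℂ) : |z.re / ‖z‖| ≤ 1 := by
  rw [abs_div, abs_norm]
  exact div_le_one_of_le₀ (Complex.abs_re_le_norm z) (norm_nonneg _)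

theorem P18c_im_le (z : ℂ) : |z.im / ‖z‖| ≤ 1 := by
  rw [abs_div, abs_norm]
  exact div_le_one_of_le₀ (Complex.abs_im_le_norm z) (norm_nonneg _)

theorem P18c_meas_re : Measurable (fun z : ℂ => z.re / ‖z‖) :=
  Complex.measurable_re.div measurable_norm
theorem P18c_meas_im : Measurable (fun z : ℂ => z.im / ‖z‖) :=
  Complex.measurable_im.div measurable_norm

theorem P18c_uu_cont {ρ ε : ℝ} {F : ℝ → ℝ} (h : Wall ρ ε F) :
    Continuous (fun z : ℂ => uu F ‖z‖) := by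
  have h1 : ContDiff ℝ ∞ (deriv F) := ContDiff.deriv' h.smooth
  have h2 : Continuous (deriv F) := h1.continuous
  unfold uu
  fun_prop

theorem P18c_uu_bd {ρ ε : ℝ} {F : ℝ → ℝ} (h : Wall ρ ε F) (z : ℂ) : |uu F ‖z‖| ≤ 1 := by
  have h0 : 0 ≤ uu F ‖z‖ := by
    rcases (norm_nonneg z).eq_or_lt with h1 | h1
    · rw [← h1]; simp [uu]
    · exact (u_pos h h1).le
  rw [abs_of_nonneg h0]
  have h2 := u_lt_q h (norm_nonneg z)
  have h3 : qq F ‖z‖ ≤ 1 := by
    unfold qq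
    have := exp_pos (F (‖z‖ ^ 2))
    linarith
  linarith

theorem P18c_int {ρ : ℝ} {g : ℂ → ℝ} (hg : Measurable g) (M : ℝ) (hM : ∀ z, |g z| ≤ M) :
    Integrable (fun z : ℂ => om (‖z‖ - ρ) * g z) volume :=
  (P18c_om_int ρ).mul_bdd hg.aestronglyMeasurable (Filter.Eventually.of_forall hM)

/-- invariance under linear isometries -/
theorem P18c_inv (e : ℂ ≃ₗᵢ[ℝ] ℂ) (f : ℂ → ℝ) : ∫ z, f (e z) = ∫ z, f z :=
  (LinearIsometryEquiv.measurePreserving e).integral_comp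
    e.toHomeomorph.measurableEmbedding f

theorem P18c_cross {ρ : ℝ} (F : ℝ → ℝ) :
    ∫ z : ℂ, om (‖z‖ - ρ) * (uu F ‖z‖ * (z.re / ‖z‖ * (z.im / ‖z‖))) = 0 := by
  have h := P18c_inv Complex.conjLIE
    (fun z : ℂ => om (‖z‖ - ρ) * (uu F ‖z‖ * (z.re / ‖z‖ * (z.im / ‖z‖))))
  have e : (fun z : ℂ => om (‖Complex.conjLIE z‖ - ρ) * (uu F ‖Complex.conjLIE z‖ *
      ((Complex.conjLIE z).re / ‖Complex.conjLIE z‖ *
        ((Complex.conjLIE z).im / ‖Complex.conjLIE z‖)))) =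
      fun z : ℂ => -(om (‖z‖ - ρ) * (uu F ‖z‖ * (z.re / ‖z‖ * (z.im / ‖z‖)))) := by
    funext z
    rw [LinearIsometryEquiv.norm_map]
    simp only [Complex.conjLIE_apply, Complex.conj_re, Complex.conj_im]
    ring
  rw [e, integral_neg] at h
  linarith

theorem P18c_rot {ρ : ℝ} (F : ℝ → ℝ) :
    ∫ z : ℂ, om (‖z‖ - ρ) * (uu F ‖z‖ * (z.re / ‖z‖ * (z.re / ‖z‖))) =
      ∫ z : ℂ, om (‖z‖ - ρ) * (uu F ‖z‖ * (z.im / ‖z‖ * (z.im / ‖z‖))) := by
  have hI : Complex.I ∈ Submonoid.unitSphere ℂ := by simp [Submonoid.unitSphere]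
  have h := P18c_inv (rotation ⟨Complex.I, hI⟩)
    (fun z : ℂ => om (‖z‖ - ρ) * (uu F ‖z‖ * (z.re / ‖z‖ * (z.re / ‖z‖))))
  rw [← h]
  congr 1
  funext z
  rw [LinearIsometryEquiv.norm_map]
  have e : (rotation ⟨Complex.I, hI⟩ z).re = -z.im := by
    show (Complex.I * z).re = -z.im
    simp
  rw [e]
  ring

theorem P18c_taylor {ρ ε : ℝ} {F : ℝ → ℝ} (h : Wall ρ ε F) : ∃ C : ℝ, 0 ≤ C ∧ ∀ z k : ℂ,
    |SS F (z - k) - SS F z - uu F ‖z‖ * (z.re / ‖z‖ * k.re + z.im / ‖z‖ * k.im)| ≤ C * ‖k‖ ^ 2 := by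
  obtain ⟨C, hC⟩ := SS_decay h
  have hb : ∀ z : ℂ, ‖fderiv ℝ (fderiv ℝ (SS F)) z‖ ≤ C := by
    intro z
    refine le_trans ?_ (hC z).2.1
    have h1 : 1 ≤ (1 + ‖z‖) ^ 2 := one_le_pow₀ (by linarith [norm_nonneg z])
    have h2 := norm_nonneg (fderiv ℝ (fderiv ℝ (SS F)) z)
    nlinarith
  have hC0 : 0 ≤ C := le_trans (ContinuousLinearMap.opNorm_nonneg _) (hb 0)
  have hsm := SS_smooth h
  have hd : Differentiable ℝ (SS F) := hsm.differentiable (by simp)
  have hsm1 : ContDiff ℝ ∞ (fderiv ℝ (SS F)) := hsm.fderiv_right (by simp)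
  have hd1 : Differentiable ℝ (fderiv ℝ (SS F)) := hsm1.differentiable (by simp)
  refine ⟨C, hC0, fun z k => ?_⟩
  have hlip : ∀ a b, ‖fderiv ℝ (SS F) a - fderiv ℝ (SS F) b‖ ≤ C * ‖a - b‖ := fun a b =>
    Convex.norm_image_sub_le_of_norm_fderiv_le (𝕜 := ℝ) (fun x _ => hd1 x) (fun x _ => hb x)
      convex_univ (mem_univ b) (mem_univ a)
  have h1 := Convex.norm_image_sub_le_of_norm_fderiv_le' (𝕜 := ℝ) (f := SS F)
    (φ := fderiv ℝ (SS F) z) (C := C * ‖k‖) (s := Metric.closedBall z ‖k‖) (x := z) (y := z - k)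
    (fun x _ => hd x) (fun x hx => by
      refine (hlip x z).trans ?_
      rw [Metric.mem_closedBall, dist_eq_norm] at hx
      exact mul_le_mul_of_nonneg_left hx hC0)
    (convex_closedBall _ _) (Metric.mem_closedBall_self (norm_nonneg _))
    (by rw [Metric.mem_closedBall, dist_eq_norm]; simp)
  have e1 : z - k - z = -k := by ring
  rw [e1, norm_neg, Real.norm_eq_abs, map_neg, sub_neg_eq_add] at h1
  have e2 : fderiv ℝ (SS F) z k = -(uu F ‖z‖ * (z.re / ‖z‖ * k.re + z.im / ‖z‖ * k.im)) := by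
    rcases eq_or_ne z 0 with hz | hz
    · subst hz
      have h2 : fderiv ℝ (SS F) (0 : ℂ) = 0 := by
        apply IsLocalMax.fderiv_eq_zero
        refine Filter.Eventually.of_forall fun w => ?_
        exact SS_anti h 0 w (by simp)
      rw [h2]
      simp [uu]
    · rw [SS_grad h z k hz]
      ring
  rw [e2] at h1
  calc _ = |SS F (z - k) - SS F z + -(uu F ‖z‖ * (z.re / ‖z‖ * k.re + z.im / ‖z‖ * k.im))| := by
        rw [sub_eq_add_neg (SS F (z - k) - SS F z)]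
    _ ≤ C * ‖k‖ * ‖k‖ := h1
    _ = C * ‖k‖ ^ 2 := by ring

theorem P18c_lower {ρ ε : ℝ} {F : ℝ → ℝ} (h : Wall ρ ε F) :
    1 / 2 * ρ ≤ ∫ z : ℂ, om (‖z‖ - ρ) * uu F ‖z‖ := by
  have hρ := h.hρ
  have hint : Integrable (fun z : ℂ => om (‖z‖ - ρ) * uu F ‖z‖) volume :=
    P18c_int (P18c_uu_cont h).measurable 1 (P18c_uu_bd h)
  have hnn : ∀ z : ℂ, 0 ≤ om (‖z‖ - ρ) * uu F ‖z‖ := by
    intro z
    refine mul_nonneg (P18c_om_nonneg _) ?_
    rcases (norm_nonneg z).eq_or_lt with h1 | h1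
    · rw [← h1]; simp [uu]
    · exact (u_pos h h1).le
  set A : Set ℂ := Metric.closedBall 0 ρ \ Metric.ball 0 (ρ - 1 / 2) with hA
  have hAm : MeasurableSet A := measurableSet_closedBall.diff measurableSet_ball
  have hcb : volume (Metric.closedBall (0 : ℂ) ρ) ≠ ⊤ := by
    rw [Complex.volume_closedBall]
    exact ENNReal.mul_ne_top (by simp) (by simp)
  have hAf : volume A ≠ ⊤ := ne_top_of_le_ne_top hcb (measure_mono sdiff_subset)
  have hpt : ∀ z ∈ A, (1 / 4 : ℝ) ≤ om (‖z‖ - ρ) * uu F ‖z‖ := by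
    rintro z ⟨hz1, hz2⟩
    rw [Metric.mem_closedBall, dist_zero_right] at hz1
    rw [Metric.mem_ball, dist_zero_right, not_lt] at hz2
    have h1 : om (‖z‖ - ρ) = 1 := by
      apply P18c_om_one
      rw [abs_le]
      constructor <;> linarith
    have hzp : 0 < ‖z‖ := by linarith
    have h2 := u_ge_q h hzp hz1
    have h3 := q_lip h hzp.le hz1
    have h4 : qq F ρ = 1 / 2 := by
      unfold qq
      rw [h.Fρ, exp_neg, exp_log (by norm_num)]
      norm_num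
    have h5 : exp (ρ - ‖z‖) ≤ 5 / 3 := by
      have h6 : exp (ρ - ‖z‖) ≤ exp (1 / 2) := exp_le_exp.mpr (by linarith)
      have h7 : exp (1 / 2) ≤ 5 / 3 := by
        have h8 : exp (1 / 2) ^ 2 ≤ (5 / 3 : ℝ) ^ 2 := by
          rw [← exp_nat_mul]
          norm_num
          have := Real.exp_one_lt_d9
          linarith
        exact (pow_le_pow_iff_left₀ (exp_pos _).le (by norm_num) (by norm_num)).mp h8
      linarith
    have h6 : 0 ≤ qq F ‖z‖ := by
      have := u_lt_q h hzp.le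
      have := u_pos h hzp
      linarith
    have h7 : 3 / 10 ≤ qq F ‖z‖ := by
      rw [h4] at h3
      nlinarith
    rw [h1, one_mul]
    have h8 := u_pos h hzp
    nlinarith
  have h1 := setIntegral_ge_of_const_le_real hAm hAf hpt hint.integrableOn
  have h2 : ∫ z in A, om (‖z‖ - ρ) * uu F ‖z‖ ≤ ∫ z : ℂ, om (‖z‖ - ρ) * uu F ‖z‖ :=
    setIntegral_le_integral hint (Filter.Eventually.of_forall hnn)
  have h3 : volume.real A = π * (ρ - 1 / 4) := by
    have hpi : ((NNReal.pi : ENNReal)).toReal = π := by rw [ENNReal.coe_toReal]; rfl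
    rw [hA, measureReal_sdiff _ measurableSet_ball hcb]
    · rw [measureReal_def, measureReal_def, Complex.volume_closedBall, Complex.volume_ball,
        ENNReal.toReal_mul, ENNReal.toReal_pow, ENNReal.toReal_mul, ENNReal.toReal_pow, hpi,
        ENNReal.toReal_ofReal (by linarith), ENNReal.toReal_ofReal (by linarith)]
      ring
    · exact (Metric.ball_subset_closedBall).trans (Metric.closedBall_subset_closedBall (by linarith))
  rw [h3] at h1
  have h4 := Real.pi_gt_three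
  nlinarith

/-- one component of the statement -/
theorem P18c_main {ρ ε : ℝ} {F : ℝ → ℝ} (h : Wall ρ ε F) (cc : ℝ) (hcc : 0 ≤ cc) :
    ∃ b M : ℝ, 1 / 4 * cc * ρ ≤ b ∧ ∀ k : ℂ,
      |(∫ z : ℂ, om (‖z‖ - ρ) * (z.re / ‖z‖) * ((SS F (z - k) - SS F z) * cc)) - b * k.re|
        ≤ M * ‖k‖ ^ 2 ∧
      |(∫ z : ℂ, om (‖z‖ - ρ) * (z.im / ‖z‖) * ((SS F (z - k) - SS F z) * cc)) - b * k.im|
        ≤ M * ‖k‖ ^ 2 := by
  obtain ⟨C, hC0, hC⟩ := P18c_taylor h
  set A11 := ∫ z : ℂ, om (‖z‖ - ρ) * (uu F ‖z‖ * (z.re / ‖z‖ * (z.re / ‖z‖))) with hA11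
  have hA22 : A11 = ∫ z : ℂ, om (‖z‖ - ρ) * (uu F ‖z‖ * (z.im / ‖z‖ * (z.im / ‖z‖))) := P18c_rot F
  have hA12 := P18c_cross (ρ := ρ) F
  have hmu : Measurable (fun z : ℂ => uu F ‖z‖) := (P18c_uu_cont h).measurable
  have hbd2 : ∀ (a b c : ℝ), |a| ≤ 1 → |b| ≤ 1 → |c| ≤ 1 → |a * (b * c)| ≤ 1 := by
    intro a b c ha hb hc
    rw [abs_mul, abs_mul]
    exact mul_le_one₀ ha (by positivity) (mul_le_one₀ hb (abs_nonneg _) hc)
  have i11 : Integrable (fun z : ℂ => om (‖z‖ - ρ) * (uu F ‖z‖ * (z.re / ‖z‖ * (z.re / ‖z‖)))) volume :=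
    P18c_int (hmu.mul (P18c_meas_re.mul P18c_meas_re)) 1
      fun z => hbd2 _ _ _ (P18c_uu_bd h z) (P18c_re_le z) (P18c_re_le z)
  have i12 : Integrable (fun z : ℂ => om (‖z‖ - ρ) * (uu F ‖z‖ * (z.re / ‖z‖ * (z.im / ‖z‖)))) volume :=
    P18c_int (hmu.mul (P18c_meas_re.mul P18c_meas_im)) 1
      fun z => hbd2 _ _ _ (P18c_uu_bd h z) (P18c_re_le z) (P18c_im_le z)
  have i22 : Integrable (fun z : ℂ => om (‖z‖ - ρ) * (uu F ‖z‖ * (z.im / ‖z‖ * (z.im / ‖z‖)))) volume :=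
    P18c_int (hmu.mul (P18c_meas_im.mul P18c_meas_im)) 1
      fun z => hbd2 _ _ _ (P18c_uu_bd h z) (P18c_im_le z) (P18c_im_le z)
  have hsum : 2 * A11 = ∫ z : ℂ, om (‖z‖ - ρ) * uu F ‖z‖ := by
    rw [two_mul]
    nth_rewrite 2 [hA22]
    rw [hA11, ← integral_add i11 i22]
    congr 1
    funext z
    rcases eq_or_ne z 0 with hz | hz
    · subst hz
      simp [uu]
    · have hz' : ‖z‖ ≠ 0 := norm_ne_zero_iff.mpr hz
      have e : z.re / ‖z‖ * (z.re / ‖z‖) + z.im / ‖z‖ * (z.im / ‖z‖) = 1 := by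
        have : ‖z‖ * ‖z‖ = z.re * z.re + z.im * z.im := by
          rw [← sq, Complex.sq_norm, Complex.normSq_apply]
        rw [div_mul_div_comm, div_mul_div_comm, ← add_div, this, div_self]
        rw [← this]
        exact mul_ne_zero hz' hz'
      rw [← mul_add, ← mul_add, e, mul_one]
  have hlow := P18c_lower h
  set N := ∫ z : ℂ, om (‖z‖ - ρ) with hN
  have hN0 : 0 ≤ N := integral_nonneg fun z => P18c_om_nonneg _
  refine ⟨cc * A11, cc * (C * N), ?_, ?_⟩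
  · have : 1 / 4 * ρ ≤ A11 := by linarith
    calc 1 / 4 * cc * ρ = cc * (1 / 4 * ρ) := by ring
      _ ≤ cc * A11 := mul_le_mul_of_nonneg_left this hcc
  · -- general estimate
    have key : ∀ (e : ℂ → ℝ), Measurable e → (∀ z, |e z| ≤ 1) → ∀ (k : ℂ),
        |(∫ z : ℂ, om (‖z‖ - ρ) * e z * ((SS F (z - k) - SS F z) * cc)) -
          cc * ∫ z : ℂ, om (‖z‖ - ρ) * (e z * (uu F ‖z‖ * (z.re / ‖z‖ * k.re + z.im / ‖z‖ * k.im)))|
          ≤ cc * (C * N) * ‖k‖ ^ 2 := by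
      intro e hem heb k
      have hSm : Measurable (SS F) := (SS_smooth h).continuous.measurable
      have hSm' : Measurable (fun z : ℂ => SS F (z - k)) :=
        ((SS_smooth h).continuous.comp (continuous_id.sub continuous_const)).measurable
      have hgm : Measurable (fun z : ℂ => z.re / ‖z‖ * k.re + z.im / ‖z‖ * k.im) :=
        (P18c_meas_re.mul_const _).add (P18c_meas_im.mul_const _)
      have hgb : ∀ z : ℂ, |z.re / ‖z‖ * k.re + z.im / ‖z‖ * k.im| ≤ |k.re| + |k.im| := by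
        intro z
        refine (abs_add_le _ _).trans ?_
        rw [abs_mul, abs_mul]
        have h1 := P18c_re_le z
        have h2 := P18c_im_le z
        have h3 := abs_nonneg k.re
        have h4 := abs_nonneg k.im
        nlinarith
      have ib : Integrable (fun z : ℂ => om (‖z‖ - ρ) *
          (e z * (uu F ‖z‖ * (z.re / ‖z‖ * k.re + z.im / ‖z‖ * k.im)))) volume := by
        refine P18c_int (hem.mul (hmu.mul hgm)) (1 * (1 * (|k.re| + |k.im|))) fun z => ?_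
        rw [abs_mul, abs_mul]
        exact mul_le_mul (heb z) (mul_le_mul (P18c_uu_bd h z) (hgb z) (abs_nonneg _) (by norm_num))
          (by positivity) (by norm_num)
      have ie : Integrable (fun z : ℂ => om (‖z‖ - ρ) * (e z * (SS F (z - k) - SS F z -
          uu F ‖z‖ * (z.re / ‖z‖ * k.re + z.im / ‖z‖ * k.im)))) volume := by
        refine P18c_int (hem.mul ((hSm'.sub hSm).sub (hmu.mul hgm))) (1 * (C * ‖k‖ ^ 2)) fun z => ?_
        rw [abs_mul]
        exact mul_le_mul (heb z) (hC z k) (abs_nonneg _) (by norm_num)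
      have e1 : (fun z : ℂ => om (‖z‖ - ρ) * e z * ((SS F (z - k) - SS F z) * cc)) =
          fun z => cc * (om (‖z‖ - ρ) * (e z * (SS F (z - k) - SS F z -
            uu F ‖z‖ * (z.re / ‖z‖ * k.re + z.im / ‖z‖ * k.im)))) +
            cc * (om (‖z‖ - ρ) * (e z * (uu F ‖z‖ * (z.re / ‖z‖ * k.re + z.im / ‖z‖ * k.im)))) := by
        funext z; ring
      rw [e1, integral_add (ie.const_mul cc) (ib.const_mul cc), integral_const_mul,
        integral_const_mul, add_sub_cancel_right, abs_mul, abs_of_nonneg hcc]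
      have h2 : |∫ z : ℂ, om (‖z‖ - ρ) * (e z * (SS F (z - k) - SS F z -
          uu F ‖z‖ * (z.re / ‖z‖ * k.re + z.im / ‖z‖ * k.im)))| ≤ C * ‖k‖ ^ 2 * N := by
        rw [← Real.norm_eq_abs]
        refine (norm_integral_le_of_norm_le ((P18c_om_int ρ).const_mul (C * ‖k‖ ^ 2))
          (Filter.Eventually.of_forall fun z => ?_)).trans_eq ?_
        · rw [Real.norm_eq_abs, abs_mul, abs_mul, abs_of_nonneg (P18c_om_nonneg _), mul_comm]
          refine mul_le_mul_of_nonneg_right ?_ (P18c_om_nonneg _)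
          calc |e z| * _ ≤ 1 * (C * ‖k‖ ^ 2) :=
                mul_le_mul (heb z) (hC z k) (abs_nonneg _) (by norm_num)
            _ = C * ‖k‖ ^ 2 := one_mul _
        · rw [integral_const_mul]
      calc cc * _ ≤ cc * (C * ‖k‖ ^ 2 * N) := mul_le_mul_of_nonneg_left h2 hcc
        _ = cc * (C * N) * ‖k‖ ^ 2 := by ring
    intro k
    constructor
    · have h1 := key (fun z => z.re / ‖z‖) P18c_meas_re P18c_re_le k
      have e : ∫ z : ℂ, om (‖z‖ - ρ) * (z.re / ‖z‖ * (uu F ‖z‖ * (z.re / ‖z‖ * k.re +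
          z.im / ‖z‖ * k.im))) = A11 * k.re := by
        have e2 : (fun z : ℂ => om (‖z‖ - ρ) * (z.re / ‖z‖ * (uu F ‖z‖ * (z.re / ‖z‖ * k.re +
            z.im / ‖z‖ * k.im)))) = fun z => k.re * (om (‖z‖ - ρ) * (uu F ‖z‖ * (z.re / ‖z‖ *
              (z.re / ‖z‖)))) + k.im * (om (‖z‖ - ρ) * (uu F ‖z‖ * (z.re / ‖z‖ * (z.im / ‖z‖)))) := by
          funext z; ring
        rw [e2, integral_add (i11.const_mul _) (i12.const_mul _), integral_const_mul,
          integral_const_mul, hA12, ← hA11]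
        ring
      rw [e, ← mul_assoc] at h1
      exact h1
    · have h1 := key (fun z => z.im / ‖z‖) P18c_meas_im P18c_im_le k
      have e : ∫ z : ℂ, om (‖z‖ - ρ) * (z.im / ‖z‖ * (uu F ‖z‖ * (z.re / ‖z‖ * k.re +
          z.im / ‖z‖ * k.im))) = A11 * k.im := by
        have e2 : (fun z : ℂ => om (‖z‖ - ρ) * (z.im / ‖z‖ * (uu F ‖z‖ * (z.re / ‖z‖ * k.re +
            z.im / ‖z‖ * k.im)))) = fun z => k.re * (om (‖z‖ - ρ) * (uu F ‖z‖ * (z.re / ‖z‖ *
              (z.im / ‖z‖)))) + k.im * (om (‖z‖ - ρ) * (uu F ‖z‖ * (z.im / ‖z‖ * (z.im / ‖z‖)))) := by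
          funext z; ring
        rw [e2, integral_add (i12.const_mul _) (i22.const_mul _), integral_const_mul,
          integral_const_mul, hA12, ← hA22]
        ring
      rw [e, ← mul_assoc] at h1
      exact h1

theorem P18c_ell (S : Sys ι) (ρ : ℝ) (F : ℝ → ℝ) (ξ k : ℂ) (b : Bool) :
    ell ρ (S.o, 1, b) ξ (jet (fun x => (SS F (x - (ξ + k)) - SS F (x - ξ)) • one S)) =
      ∫ z : ℂ, om (‖z‖ - ρ) * trig 1 b z * ((SS F (z - k) - SS F z) *
        Real.sqrt (∑ a, S.m a)) := by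
  unfold ell
  have e1 : (fun x : ℂ => om (‖x - ξ‖ - ρ) * trig 1 b (x - ξ) *
      (jet (fun x => (SS F (x - (ξ + k)) - SS F (x - ξ)) • one S) x).1 S.o) =
      fun x => (fun z : ℂ => om (‖z‖ - ρ) * trig 1 b z * ((SS F (z - k) - SS F z) *
        Real.sqrt (∑ a, S.m a))) (x - ξ) := by
    funext x
    have e2 : x - (ξ + k) = x - ξ - k := by ring
    simp [jet, e2, one, bv]
  have e3 : ∫ x : ℂ, (fun z : ℂ => om (‖z‖ - ρ) * trig 1 b z * ((SS F (z - k) - SS F z) *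
        Real.sqrt (∑ a, S.m a))) (x - ξ) = ∫ z : ℂ, om (‖z‖ - ρ) * trig 1 b z *
          ((SS F (z - k) - SS F z) * Real.sqrt (∑ a, S.m a)) :=
    integral_sub_right_eq_self (μ := (volume : Measure ℂ)) (fun z : ℂ => om (‖z‖ - ρ) * trig 1 b z *
      ((SS F (z - k) - SS F z) * Real.sqrt (∑ a, S.m a))) ξ
  rw [← e3]
  exact congrArg (fun f : ℂ → ℝ => ∫ x, f x) e1

theorem ell_trans (S : Sys ι) : ∃ c₅ : ℝ, 0 < c₅ ∧ ∀ ρ ε F, Wall ρ ε F → ∀ ξ : ℂ,
    ∃ b M : ℝ, c₅ * ρ ≤ b ∧ ∀ h : ℂ, ‖h‖ ≤ 1 →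
      |ell ρ (S.o, 1, true) ξ (jet (fun x => (SS F (x - (ξ + h)) - SS F (x - ξ)) • one S)) - b * h.re|
        ≤ M * ‖h‖ ^ 2 ∧
      |ell ρ (S.o, 1, false) ξ (jet (fun x => (SS F (x - (ξ + h)) - SS F (x - ξ)) • one S)) - b * h.im|
        ≤ M * ‖h‖ ^ 2 := by
  have hm : 0 < ∑ a, S.m a := Finset.sum_pos (fun a _ => S.m_pos a) ⟨S.o, Finset.mem_univ _⟩
  have hsq : 0 < Real.sqrt (∑ a, S.m a) := Real.sqrt_pos.mpr hm
  refine ⟨1 / 4 * Real.sqrt (∑ a, S.m a), by positivity, ?_⟩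
  intro ρ ε F h ξ
  obtain ⟨b, M, hb, hM⟩ := P18c_main h (Real.sqrt (∑ a, S.m a)) hsq.le
  refine ⟨b, M, hb, fun k _ => ?_⟩
  obtain ⟨h1, h2⟩ := hM k
  rw [P18c_ell, P18c_ell]
  simp only [P18c_trig_true, P18c_trig_false]
  exact ⟨h1, h2⟩

end Pool.MP_ad5d82_an.Wl
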