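import Pool.Agent.Lib.MP_ad5d82_an.h24.PDefs
import Pool.Agent.Lib.MP_ad5d82_an.h24.P.P0
import Pool.Agent.Lib.MP_ad5d82_an.h24.P.P4
import Pool.Agent.Lib.MP_ad5d82_an.h24.P.PC
import Pool.Agent.Lib.MP_ad5d82_an.h24.P.P14c
import Pool.Agent.Lib.MP_ad5d82_an.h24.P.P18a
import Pool.Agent.Lib.MP_ad5d82_an.h24.P.P18b
import Pool.Agent.Lib.MP_ad5d82_an.h24.P.P18c

set_option autoImplicit false

namespace Pool.MP_ad5d82_an.Wl

open Real Set MeasureTheory Filter Topology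
open scoped ContDiff

variable {ι : Type} [Fintype ι] [DecidableEq ι]

variable {B : Base ι} {δ R₀ Ξ : ℝ}

private theorem P18_abs {w x e : ℝ} (h : |x| ≤ e) : -(|w| * e) ≤ w * x ∧ w * x ≤ |w| * e := by
  have : |w * x| ≤ |w| * e := by
    rw [abs_mul]; exact mul_le_mul_of_nonneg_left h (abs_nonneg w)
  exact abs_le.1 this

private theorem P18_lim (X M r : ℝ) (hr : 0 < r) (h : ∀ s, 0 < s → s ≤ r → X ≤ M * s) : X ≤ 0 := by
  by_contra hX
  have hX' : 0 < X := not_le.1 hX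
  have hM : 0 < |M| + 1 := by positivity
  set s := min r (X / (2 * (|M| + 1))) with hs
  have hs0 : 0 < s := lt_min hr (by positivity)
  have h1 := h s hs0 (min_le_left _ _)
  have h2 : M * s ≤ (|M| + 1) * (X / (2 * (|M| + 1))) := by
    calc M * s ≤ (|M| + 1) * s := by
          apply mul_le_mul_of_nonneg_right _ hs0.le
          linarith [le_abs_self M]
      _ ≤ (|M| + 1) * (X / (2 * (|M| + 1))) :=
          mul_le_mul_of_nonneg_left (min_le_right _ _) hM.le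
  have h3 : (|M| + 1) * (X / (2 * (|M| + 1))) = X / 2 := by
    field_simp
  linarith

private theorem P18_exp (D : ℝ) :
    Tendsto (fun ρ : ℝ => D * (ρ ^ 5 * exp (-(1.58 * ρ)))) atTop (𝓝 0) := by
  have h1 := Real.tendsto_pow_mul_exp_neg_atTop_nhds_zero 5
  have h2 : Tendsto (fun ρ : ℝ => (1.58 * ρ)) atTop atTop :=
    tendsto_id.const_mul_atTop (by norm_num)
  have h3 := (h1.comp h2).const_mul (D / 1.58 ^ 5)
  rw [mul_zero] at h3
  refine h3.congr fun ρ => ?_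
  simp only [Function.comp]
  rw [mul_pow]
  field_simp

private theorem P18_mem (S : Sys ι) (b : Bool) : (S.o, 1, b) ∈ modes S := by
  unfold modes
  rw [Finset.mem_filter, Finset.mem_biUnion]
  refine ⟨⟨S.o, Finset.mem_univ _, ?_⟩, fun h => absurd h (by norm_num)⟩
  rw [Finset.mem_biUnion]
  refine ⟨1, ?_, ?_⟩
  · rw [Finset.mem_range]
    unfold Kmax
    rw [if_pos rfl]
    norm_num
  · rw [Finset.mem_image]
    exact ⟨b, Finset.mem_univ _, rfl⟩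

private theorem P18_off (S : Sys ι) (i : ι × ℕ × Bool) (hi : i ∈ modes S) (hn : i ∉ neg S) :
    i = (S.o, 1, true) ∨ i = (S.o, 1, false) := by
  have h1 : i.1 = S.o ∧ i.2.1 = 1 := by
    by_contra h
    exact hn (Finset.mem_filter.2 ⟨hi, h⟩)
  obtain ⟨a, k, b⟩ := i
  obtain ⟨h2, h3⟩ := h1
  simp only at h2 h3
  subst h2 h3
  cases b
  · right; rfl
  · left; rfl

private theorem P18_ell_congr (ρ : ℝ) (i : ι × ℕ × Bool) (ξ : ℂ) {U V : Fld ι}
    (h : ∀ x, (U x).1 = (V x).1) : ell ρ i ξ U = ell ρ i ξ V := by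
  unfold ell
  simp only [h]

/-! ### P18 the multipliers vanish -/
theorem multipliers (B : Base ι) : ∃ R₁ : ℝ, 1 ≤ R₁ ∧ ∀ δ R₀ Ξ C₃ : ℝ, 0 < δ → δ ≤ 1 → R₁ ≤ R₀ → 0 ≤ Ξ →
    ∃ ρ₀ : ℝ, ∀ K : Cfg B δ R₀ Ξ, ρ₀ ≤ K.ρ → ∀ U : Fld ι, IsSob U → ∀ (c : Cc B.S) (ξ : ℂ), ‖ξ‖ < Ξ →
    (∀ (c' : Cc B.S) (ξ' : ℂ), ‖ξ'‖ ≤ Ξ → Phi K U c' ξ' ≤ Phi K U c ξ) →
    (∀ φ : Fld ι, IsSob φ → DPhi K U c ξ φ = 0) →
    (∀ c' : Cc B.S, DPhiJ K U c ξ (jet (Cf B.S K.χ c' ξ)) = 0) →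
    NII K.ρ (0.88 * K.ρ) U ≤ C₃ * K.ρ ^ 3 * exp (-1.58 * K.ρ) →
    ∑ i, c i ^ 2 ≤ C₃ * K.ρ ^ 5 * exp (-1.58 * K.ρ) →
    (∀ᵐ x : ℂ, R₀ ≤ ‖x‖ → ∀ j, |(GG K U c ξ x).1 j| ≤ 1 / 2 * tau δ K.ρ x) →
    ∀ i ∈ modes B.S, ell K.ρ i ξ U = 0 := by
  obtain ⟨R₁, hR₁, H1⟩ := xi_expand B
  obtain ⟨C2, hC2, H2⟩ := ell_expand B.S
  obtain ⟨C3, hC3, H3⟩ := ell_Cf B.S B.c₀ B.C₀
  obtain ⟨c₅, hc₅, H4⟩ := ell_trans B.S
  refine ⟨R₁, hR₁, ?_⟩
  intro δ R₀ Ξ C₃ hδ hδ1 hR hΞ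
  obtain ⟨ρ1, H1'⟩ := H1 δ R₀ Ξ hδ hδ1 hR hΞ
  have hθ : 0 < (c₅ / (4 * (C2 + C3))) ^ 2 := by positivity
  obtain ⟨ρ2, Hρ2⟩ := eventually_atTop.1 ((P18_exp |C₃|).eventually (gt_mem_nhds hθ))
  refine ⟨max (max ρ1 ρ2) (200 * Ξ + 100), ?_⟩
  intro K hK U hU c ξ hξ hmax hEL hcrit hNII hc hae
  have hK1 : ρ1 ≤ K.ρ := ((le_max_left _ _).trans (le_max_left _ _)).trans hK
  have hK2 : ρ2 ≤ K.ρ := ((le_max_right _ _).trans (le_max_left _ _)).trans hK
  have hKΞ : 200 * Ξ + 100 ≤ K.ρ := (le_max_right _ _).trans hK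
  have hρ100 : 100 ≤ K.ρ := by linarith
  have hρ0 : 0 < K.ρ := by linarith
  -- the negative modes
  have hnegm : ∀ l ∈ neg B.S, ell K.ρ l ξ U = 0 := by
    intro l hl
    have h1 := hcrit (Pi.single ⟨l, hl⟩ 1)
    have h2 := hEL (jet (Cf B.S K.χ (Pi.single ⟨l, hl⟩ 1) ξ)) (isSob_Cf K _ ξ)
    unfold DPhi at h2
    rw [h1, zero_add] at h2
    have h3 : Cf B.S K.χ (Pi.single ⟨l, hl⟩ 1) ξ
        = fun x => K.χ ⟨l, hl⟩ (x - ξ) • bv l.1 := by
      funext x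
      unfold Cf
      rw [Finset.sum_eq_single (⟨l, hl⟩ : {i // i ∈ neg B.S})]
      · rw [Pi.single_eq_same, one_mul]
      · intro b _ hb
        rw [Pi.single_eq_of_ne hb, zero_mul, zero_smul]
      · intro h; exact absurd (Finset.mem_univ _) h
    rw [h3] at h2
    have hlm : l ∈ modes B.S := (Finset.mem_filter.1 hl).1
    have h4 : ∑ i ∈ modes B.S, ell K.ρ i ξ U * ell K.ρ i ξ (jet fun x => K.χ ⟨l, hl⟩ (x - ξ) • bv l.1)
        = ell K.ρ l ξ U * ell K.ρ l ξ (jet fun x => K.χ ⟨l, hl⟩ (x - ξ) • bv l.1) := by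
      apply Finset.sum_eq_single_of_mem l hlm
      intro b hb hbl
      have h5 := K.fam.ell_off ⟨l, hl⟩ b ξ hb hbl
      rw [h5, mul_zero]
    rw [h4] at h2
    have h5 := K.fam.ell_diag ⟨l, hl⟩ ξ
    have h6 : (2 * K.ρ ^ 2) ≠ 0 := by positivity
    rcases mul_eq_zero.1 h2 with h7 | h7
    · exact absurd h7 h6
    · rcases mul_eq_zero.1 h7 with h8 | h8
      · exact h8
      · exact absurd h8 h5
  -- the translation modes
  set t1 : ι × ℕ × Bool := (B.S.o, 1, true) with ht1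
  set t2 : ι × ℕ × Bool := (B.S.o, 1, false) with ht2
  have ht1m : t1 ∈ modes B.S := P18_mem B.S true
  have ht2m : t2 ∈ modes B.S := P18_mem B.S false
  have ht12 : t1 ≠ t2 := by
    rw [ht1, ht2]
    simp
  have hoff : ∀ l ∈ modes B.S, l ≠ t1 → l ≠ t2 → ell K.ρ l ξ U = 0 := by
    intro l hl h1 h2
    by_cases hn : l ∈ neg B.S
    · exact hnegm l hn
    · rcases P18_off B.S l hl hn with h | h
      · exact absurd h h1
      · exact absurd h h2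
  have hsum : ∀ f : ι × ℕ × Bool → ℝ, ∑ l ∈ modes B.S, ell K.ρ l ξ U * f l
      = ell K.ρ t1 ξ U * f t1 + ell K.ρ t2 ξ U * f t2 := by
    intro f
    have hsub : ({t1, t2} : Finset (ι × ℕ × Bool)) ⊆ modes B.S := by
      intro x hx
      rw [Finset.mem_insert, Finset.mem_singleton] at hx
      rcases hx with h | h
      · rw [h]; exact ht1m
      · rw [h]; exact ht2m
    rw [← Finset.sum_subset hsub, Finset.sum_pair ht12]
    intro x hx hx'
    rw [Finset.mem_insert, Finset.mem_singleton, not_or] at hx'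
    rw [hoff x hx hx'.1 hx'.2, zero_mul]
  set w1 := ell K.ρ t1 ξ U with hw1
  set w2 := ell K.ρ t2 ξ U with hw2
  -- it suffices to treat the translation modes
  suffices hw : w1 = 0 ∧ w2 = 0 by
    intro i hi
    by_cases h1 : i = t1
    · rw [h1]; exact hw.1
    · by_cases h2 : i = t2
      · rw [h2]; exact hw.2
      · exact hoff i hi h1 h2
  set w : ℂ := ⟨w1, w2⟩ with hwdef
  have hξ' : ‖ξ‖ ≤ 0.009 * K.ρ := by linarith
  obtain ⟨M, r, hr, hM⟩ := H1' K hK1 U hU c ξ hξ hae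
  obtain ⟨L1, m1, hL1, hm1⟩ := H2 K.ρ hρ100 t1 ht1m ξ hξ' U hU
  obtain ⟨L2, m2, hL2, hm2⟩ := H2 K.ρ hρ100 t2 ht2m ξ hξ' U hU
  obtain ⟨LC1, n1, hLC1, hn1⟩ := H3 K.ρ K.F hρ100 K.χ K.fam t1 ht1m c ξ
  obtain ⟨LC2, n2, hLC2, hn2⟩ := H3 K.ρ K.F hρ100 K.χ K.fam t2 ht2m c ξ
  obtain ⟨b, m, hb, hbm⟩ := H4 K.ρ K.ε K.F K.wall ξ
  -- value of the functionals on the shift
  have hshf : ∀ (i : ι × ℕ × Bool) (h : ℂ), ell K.ρ i ξ (shf K c ξ h)
      = ell K.ρ i ξ (jet (fun x => (SS K.F (x - (ξ + h)) - SS K.F (x - ξ)) • one B.S))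
        + ell K.ρ i ξ (jet (fun x => Cf B.S K.χ c (ξ + h) x - Cf B.S K.χ c ξ x)) := by
    intro i h
    have hT : IsTest (fun x => Cf B.S K.χ c (ξ + h) x - Cf B.S K.χ c ξ x) := by
      have h1 := isTest_Cf K.fam c (ξ + h)
      have h2 := isTest_Cf K.fam c ξ
      exact ⟨h1.1.sub h2.1, h1.2.sub h2.2⟩
    have hS := isSob_jet hT
    have h3 := ell_add K.ρ i ξ (isSob_shf K c ξ h) (hS.smul (-1))
    rw [ell_smul] at h3
    have h4 : ell K.ρ i ξ (shf K c ξ h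
        + (-1 : ℝ) • jet (fun x => Cf B.S K.χ c (ξ + h) x - Cf B.S K.χ c ξ x))
        = ell K.ρ i ξ (jet (fun x => (SS K.F (x - (ξ + h)) - SS K.F (x - ξ)) • one B.S)) := by
      apply P18_ell_congr
      intro x
      show (((SS K.F (x - (ξ + h)) - SS K.F (x - ξ)) • one B.S
        + (Cf B.S K.χ c (ξ + h) x - Cf B.S K.χ c ξ x)))
          + (-1 : ℝ) • (Cf B.S K.χ c (ξ + h) x - Cf B.S K.χ c ξ x)
        = (SS K.F (x - (ξ + h)) - SS K.F (x - ξ)) • one B.S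
      rw [neg_one_smul]
      abel
    rw [h4] at h3
    linarith
  -- the linear inequality
  set q0 := M + 2 * K.ρ ^ 2 * (|w1| * (m + n1 + m1) + |w2| * (m + n2 + m2)) with hq0
  have hlin : ∀ h : ℂ, ‖h‖ ≤ r → ‖h‖ ≤ 1 / 100 → ‖h‖ ≤ Ξ - ‖ξ‖ →
      2 * K.ρ ^ 2 * (w1 * (L1 h - b * h.re - LC1 h) + w2 * (L2 h - b * h.im - LC2 h))
        ≤ q0 * ‖h‖ ^ 2 := by
    intro h hh1 hh2 hh3
    have hh4 : ‖h‖ ≤ 1 := by linarith
    have e1 := hmax c (ξ + h) (by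
      have := norm_add_le ξ h
      linarith)
    have e2 := (abs_le.1 (hM h hh1)).1
    have e3 := hEL (shf K c ξ h) (isSob_shf K c ξ h)
    unfold DPhi at e3
    rw [hsum (fun l => ell K.ρ l ξ (shf K c ξ h))] at e3
    have e4 := hm1 h hh2
    have e5 := hm2 h hh2
    have e6 := hn1 h hh4
    have e7 := hn2 h hh4
    have e8 := hbm h hh4
    have e9 := hshf t1 h
    have e10 := hshf t2 h
    unfold Phi at e1
    have e11 : 2 * w1 * (ell K.ρ t1 (ξ + h) U - w1) + 2 * w2 * (ell K.ρ t2 (ξ + h) U - w2)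
        ≤ ∑ i ∈ modes B.S, ell K.ρ i (ξ + h) U ^ 2 - ∑ i ∈ modes B.S, ell K.ρ i ξ U ^ 2 := by
      have h1 := hsum (fun l => 2 * (ell K.ρ l (ξ + h) U - ell K.ρ l ξ U))
      have h2 : ∑ l ∈ modes B.S, ell K.ρ l ξ U * (2 * (ell K.ρ l (ξ + h) U - ell K.ρ l ξ U))
          ≤ ∑ l ∈ modes B.S, (ell K.ρ l (ξ + h) U ^ 2 - ell K.ρ l ξ U ^ 2) := by
        apply Finset.sum_le_sum
        intro l _
        linarith [sq_nonneg (ell K.ρ l (ξ + h) U - ell K.ρ l ξ U)]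
      rw [Finset.sum_sub_distrib] at h2
      rw [h1] at h2
      refine le_trans (le_of_eq ?_) h2
      ring
    set S1 := ∑ i ∈ modes B.S, ell K.ρ i (ξ + h) U ^ 2 with hS1
    set S0 := ∑ i ∈ modes B.S, ell K.ρ i ξ U ^ 2 with hS0
    set P1 := PhiJ K U c (ξ + h) with hP1
    set P0 := PhiJ K U c ξ with hP0
    set DJ := DPhiJ K U c ξ (shf K c ξ h) with hDJ
    set a1 := ell K.ρ t1 (ξ + h) U with ha1
    set a2 := ell K.ρ t2 (ξ + h) U with ha2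
    set A1 := ell K.ρ t1 ξ (jet (fun x => (SS K.F (x - (ξ + h)) - SS K.F (x - ξ)) • one B.S)) with hA1
    set A2 := ell K.ρ t2 ξ (jet (fun x => (SS K.F (x - (ξ + h)) - SS K.F (x - ξ)) • one B.S)) with hA2
    set B1 := ell K.ρ t1 ξ (jet (fun x => Cf B.S K.χ c (ξ + h) x - Cf B.S K.χ c ξ x)) with hB1
    set B2 := ell K.ρ t2 ξ (jet (fun x => Cf B.S K.χ c (ξ + h) x - Cf B.S K.χ c ξ x)) with hB2
    rw [e9, e10] at e3
    set Q := ‖h‖ ^ 2 with hQ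
    have f1 := (P18_abs (w := w1) e4).1
    have f2 := (P18_abs (w := w2) e5).1
    have f3 := (P18_abs (w := w1) e6).2
    have f4 := (P18_abs (w := w2) e7).2
    have f5 := (P18_abs (w := w1) e8.1).2
    have f6 := (P18_abs (w := w2) e8.2).2
    have hρ2 : 0 < K.ρ ^ 2 := by positivity
    -- combine
    have g1 : K.ρ ^ 2 * (2 * w1 * (a1 - w1) + 2 * w2 * (a2 - w2)) ≤ K.ρ ^ 2 * (S1 - S0) :=
      mul_le_mul_of_nonneg_left e11 hρ2.le
    have g2 : DJ - M * Q + K.ρ ^ 2 * (2 * w1 * (a1 - w1) + 2 * w2 * (a2 - w2)) ≤ 0 := by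
      have : K.ρ ^ 2 * (S1 - S0) = K.ρ ^ 2 * S1 - K.ρ ^ 2 * S0 := by ring
      linarith
    have g3 : DJ = -(2 * K.ρ ^ 2 * (w1 * (A1 + B1) + w2 * (A2 + B2))) := by linarith
    have g4 : w1 * (L1 h - b * h.re - LC1 h) + w2 * (L2 h - b * h.im - LC2 h)
        ≤ (w1 * (a1 - w1) + w2 * (a2 - w2)) - (w1 * (A1 + B1) + w2 * (A2 + B2))
          + (|w1| * (m + n1 + m1) + |w2| * (m + n2 + m2)) * Q := by
      have k1 : w1 * (a1 - w1 - L1 h) = w1 * (a1 - w1) - w1 * L1 h := by ring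
      have k2 : w2 * (a2 - w2 - L2 h) = w2 * (a2 - w2) - w2 * L2 h := by ring
      have k3 : w1 * (B1 - LC1 h) = w1 * B1 - w1 * LC1 h := by ring
      have k4 : w2 * (B2 - LC2 h) = w2 * B2 - w2 * LC2 h := by ring
      have k5 : w1 * (A1 - b * h.re) = w1 * A1 - w1 * (b * h.re) := by ring
      have k6 : w2 * (A2 - b * h.im) = w2 * A2 - w2 * (b * h.im) := by ring
      rw [k1] at f1
      rw [k2] at f2
      rw [k3] at f3
      rw [k4] at f4
      rw [k5] at f5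
      rw [k6] at f6
      linarith
    have g5 := mul_le_mul_of_nonneg_left g4 (show 0 ≤ 2 * K.ρ ^ 2 by positivity)
    refine g5.trans ?_
    rw [hq0]
    rw [g3] at g2
    linarith
  -- smallness of the remaining functionals
  set Z := |C₃| * (K.ρ ^ 5 * exp (-(1.58 * K.ρ))) with hZ
  have hZθ : Z < (c₅ / (4 * (C2 + C3))) ^ 2 := Hρ2 K.ρ hK2
  have hsZ : Real.sqrt Z < c₅ / (4 * (C2 + C3)) := by
    rw [Real.sqrt_lt' (by positivity)]
    exact hZθ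
  have hexp : exp (-1.58 * K.ρ) = exp (-(1.58 * K.ρ)) := by
    congr 1; ring
  have hNZ : NII K.ρ (0.9 * K.ρ) U ≤ Z := by
    refine (NII_mono hU (by linarith) (by linarith : 0.88 * K.ρ ≤ 0.9 * K.ρ)).trans ?_
    refine hNII.trans ?_
    rw [hexp, mul_assoc]
    refine (mul_le_mul_of_nonneg_right (le_abs_self C₃) (by positivity)).trans ?_
    apply mul_le_mul_of_nonneg_left _ (abs_nonneg _)
    apply mul_le_mul_of_nonneg_right _ (exp_pos _).le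
    exact pow_le_pow_right₀ (by linarith) (by norm_num)
  have hcZ : ∑ i, c i ^ 2 ≤ Z := by
    refine hc.trans ?_
    rw [hexp, mul_assoc]
    exact mul_le_mul_of_nonneg_right (le_abs_self C₃) (by positivity)
  have hsN : Real.sqrt (NII K.ρ (0.9 * K.ρ) U) ≤ Real.sqrt Z := Real.sqrt_le_sqrt hNZ
  have hsc : Real.sqrt (∑ i, c i ^ 2) ≤ Real.sqrt Z := Real.sqrt_le_sqrt hcZ
  -- conclusion
  have hwz : w = 0 := by
    by_contra hne
    have hwn : 0 < ‖w‖ := norm_pos_iff.2 hne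
    have hw2' : w1 ^ 2 + w2 ^ 2 = ‖w‖ ^ 2 := by
      rw [← Complex.normSq_eq_norm_sq, Complex.normSq_apply]
      show w1 ^ 2 + w2 ^ 2 = w1 * w1 + w2 * w2
      ring
    have hkey : 2 * K.ρ ^ 2 * (b * ‖w‖ ^ 2 - (w1 * (L1 w - LC1 w) + w2 * (L2 w - LC2 w))) ≤ 0 := by
      have hr' : 0 < min (min r (1 / 100)) (Ξ - ‖ξ‖) / ‖w‖ := by
        apply div_pos _ hwn
        apply lt_min (lt_min hr (by norm_num))
        linarith
      apply P18_lim _ (q0 * ‖w‖ ^ 2) _ hr'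
      intro s hs0 hs1
      rw [le_div_iff₀ hwn] at hs1
      have hn : ‖((-s : ℝ) • w : ℂ)‖ = s * ‖w‖ := by
        rw [norm_smul, Real.norm_eq_abs, abs_neg, abs_of_pos hs0]
      have h1 := hlin ((-s : ℝ) • w)
        (by rw [hn]; exact hs1.trans ((min_le_left _ _).trans (min_le_left _ _)))
        (by rw [hn]; exact hs1.trans ((min_le_left _ _).trans (min_le_right _ _)))
        (by rw [hn]; exact hs1.trans (min_le_right _ _))
      rw [hn, map_smul, map_smul, map_smul, map_smul] at h1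
      have hre : ((-s : ℝ) • w : ℂ).re = -s * w1 := by
        rw [Complex.smul_re]; rfl
      have him : ((-s : ℝ) • w : ℂ).im = -s * w2 := by
        rw [Complex.smul_im]; rfl
      rw [hre, him] at h1
      simp only [smul_eq_mul] at h1
      have h2 : s * (2 * K.ρ ^ 2 * (b * ‖w‖ ^ 2 - (w1 * (L1 w - LC1 w) + w2 * (L2 w - LC2 w))))
          ≤ s * (q0 * ‖w‖ ^ 2 * s) := by
        rw [← hw2']
        have h3 : (s * ‖w‖) ^ 2 = s ^ 2 * (w1 ^ 2 + w2 ^ 2) := by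
          rw [mul_pow, hw2']
        rw [h3] at h1
        linarith
      exact le_of_mul_le_mul_left h2 hs0
    have hρ2 : 0 < 2 * K.ρ ^ 2 := by positivity
    have hkey2 : b * ‖w‖ ^ 2 ≤ w1 * (L1 w - LC1 w) + w2 * (L2 w - LC2 w) := by
      by_contra hlt
      have : 0 < 2 * K.ρ ^ 2 * (b * ‖w‖ ^ 2 - (w1 * (L1 w - LC1 w) + w2 * (L2 w - LC2 w))) := by
        apply mul_pos hρ2
        linarith [not_le.1 hlt]
      linarith
    have hw1n : |w1| ≤ ‖w‖ := Complex.abs_re_le_norm w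
    have hw2n : |w2| ≤ ‖w‖ := Complex.abs_im_le_norm w
    set T := (C2 + C3) * K.ρ * Real.sqrt Z with hT
    have hLb : ∀ (L LC : ℂ →L[ℝ] ℝ), ‖L‖ ≤ C2 * K.ρ * Real.sqrt (NII K.ρ (0.9 * K.ρ) U) →
        ‖LC‖ ≤ C3 * K.ρ * Real.sqrt (∑ l, c l ^ 2) → |L w - LC w| ≤ T * ‖w‖ := by
      intro L LC h1 h2
      have h3 : |L w - LC w| ≤ ‖L‖ * ‖w‖ + ‖LC‖ * ‖w‖ := by
        refine (abs_sub _ _).trans ?_
        exact add_le_add (L.le_opNorm w) (LC.le_opNorm w)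
      have h4 : ‖L‖ ≤ C2 * K.ρ * Real.sqrt Z :=
        h1.trans (mul_le_mul_of_nonneg_left hsN (by positivity))
      have h5 : ‖LC‖ ≤ C3 * K.ρ * Real.sqrt Z :=
        h2.trans (mul_le_mul_of_nonneg_left hsc (by positivity))
      have h6 := mul_le_mul_of_nonneg_right h4 hwn.le
      have h7 := mul_le_mul_of_nonneg_right h5 hwn.le
      rw [hT]
      linarith
    have hT0 : 0 ≤ T := by positivity
    have k1 : w1 * (L1 w - LC1 w) ≤ T * ‖w‖ ^ 2 := by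
      refine (P18_abs (w := w1) (hLb L1 LC1 hL1 hLC1)).2.trans ?_
      have : |w1| * (T * ‖w‖) ≤ ‖w‖ * (T * ‖w‖) :=
        mul_le_mul_of_nonneg_right hw1n (by positivity)
      linarith
    have k2 : w2 * (L2 w - LC2 w) ≤ T * ‖w‖ ^ 2 := by
      refine (P18_abs (w := w2) (hLb L2 LC2 hL2 hLC2)).2.trans ?_
      have : |w2| * (T * ‖w‖) ≤ ‖w‖ * (T * ‖w‖) :=
        mul_le_mul_of_nonneg_right hw2n (by positivity)
      linarith
    have hbT : b ≤ 2 * T := by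
      have h1 : b * ‖w‖ ^ 2 ≤ 2 * T * ‖w‖ ^ 2 := by linarith
      exact le_of_mul_le_mul_right h1 (by positivity)
    have hTc : 2 * T < c₅ * K.ρ := by
      have h1 : (C2 + C3) * Real.sqrt Z < (C2 + C3) * (c₅ / (4 * (C2 + C3))) :=
        mul_lt_mul_of_pos_left hsZ (by positivity)
      have h2 : (C2 + C3) * (c₅ / (4 * (C2 + C3))) = c₅ / 4 := by
        have : C2 + C3 ≠ 0 := by positivity
        field_simp
      rw [h2] at h1
      have h3 : 2 * T = 2 * ((C2 + C3) * Real.sqrt Z) * K.ρ := by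
        rw [hT]; ring
      rw [h3]
      apply mul_lt_mul_of_pos_right _ hρ0
      linarith
    linarith
  constructor
  · have : w.re = 0 := by rw [hwz]; rfl
    exact this
  · have : w.im = 0 := by rw [hwz]; rfl
    exact this

end Pool.MP_ad5d82_an.Wl
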