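import Pool.Agent.Lib.MP_ad5d82_an.h24.PDefs
import Pool.Agent.Lib.MP_ad5d82_an.h24.F.F4
import Pool.Agent.Lib.MP_ad5d82_an.h24.P.P0
import Pool.Agent.Lib.MP_ad5d82_an.h24.P.P2
import Pool.Agent.Lib.MP_ad5d82_an.h24.P.P3b
import Pool.Agent.Lib.MP_ad5d82_an.h24.P.P4
import Pool.Agent.Lib.MP_ad5d82_an.h24.P.P16
import Pool.Agent.Lib.MP_ad5d82_an.h24.P.P17
import Pool.Agent.Lib.MP_ad5d82_an.h24.P.P18
import Pool.Agent.Lib.MP_ad5d82_an.h24.W.W0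
import Pool.Agent.Lib.MP_ad5d82_an.h24.B.B4

set_option autoImplicit false

namespace Pool.MP_ad5d82_an.Wl

open Real Set MeasureTheory Filter Topology
open scoped ContDiff

variable {ι : Type} [Fintype ι] [DecidableEq ι]

/-! ### P19 weak solution of the true equation -/
omit [DecidableEq ι] in
private theorem p19_coord (j : ι) : Continuous fun h : Ev ι => h j :=
  (EuclideanSpace.proj j : Ev ι →L[ℝ] ℝ).continuous

/-- outside `R₀` the potential density is the true one near small arguments. -/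
private theorem p19_pot_out (B : Base ι) {δ R₀ ρ : ℝ} (hδ : 0 < δ) (hρ : 0 < ρ) (x : ℂ)
    (hx : R₀ ≤ ‖x‖) (s : ℝ) (g k : Ev ι) (hg : ∀ j, |g j| ≤ 1 / 2 * tau δ ρ x) :
    fderiv ℝ (pot B δ R₀ ρ x s) g k = fderiv ℝ (WW B.S s) g k := by
  have hτ := tau_pos hδ hρ x
  have hev : ∀ᶠ h : Ev ι in 𝓝 g, ∀ j, |h j| < tau δ ρ x := by
    rw [eventually_all]
    intro j
    have hc : Continuous fun h : Ev ι => |h j| := (p19_coord j).abs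
    exact hc.continuousAt.eventually_lt continuousAt_const (lt_of_le_of_lt (hg j) (by linarith))
  have heq : pot B δ R₀ ρ x s =ᶠ[𝓝 g] WW B.S s := by
    filter_upwards [hev] with h hh
    unfold pot
    rw [if_neg (not_lt.2 hx), RT_eq B.S _ s hτ h (fun j => (hh j).le)]
    unfold RR
    ring
  rw [heq.fderiv_eq]

theorem weak_solution (S : Sys ι) (nv : ℕ) (hnv : 0 < nv) (p : Fin nv → ℂ) (cp : Fin nv → ι) (ρ₁ : ℝ) :
    ∃ (c₀ : ℝ) (hc₀ : 0 < c₀) (C₀ : ℝ) (hC₀ : 1 ≤ C₀),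
      let B : Base ι := ⟨S, nv, hnv, p, cp, c₀, hc₀, C₀, hC₀⟩
      ∃ (ρ ε : ℝ) (F : ℝ → ℝ) (ξ : ℂ) (G : Fld ι), Wall ρ ε F ∧ ρ₁ ≤ ρ ∧ IsSob G ∧
      (∀ (j : ι) (φ : ℂ → ℝ), IsTestR φ →
        ∫ x, ((G x).2.1 j * fderiv ℝ φ x 1 + (G x).2.2 j * fderiv ℝ φ x Complex.I)
          = -∫ x, ((S.μ j : ℝ) * fderiv ℝ (WW S (SS F (x - ξ))) (v0 B x + (G x).1) (bv j)
            + (g0 B x) j) * φ x) ∧
      (∀ᵐ x : ℂ, ρ ≤ ‖x‖ → ∀ j, |(G x).1 j| ≤ 1 + Real.log (‖x‖ / ρ)) := by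
  obtain ⟨c₀, hc₀, C₀, hC₀, ρa, hfam⟩ := exists_negFam S
  refine ⟨c₀, hc₀, C₀, hC₀, ?_⟩
  intro B
  obtain ⟨δ16, hδ16, hδ16', C, R16, hR16, h16⟩ := critical_point B
  obtain ⟨δ17, hδ17, hδ17', h17⟩ := sup_bound B C
  obtain ⟨R18, hR18, h18⟩ := multipliers B
  obtain ⟨Rv, hRv, hRvp, hsupp⟩ := v0_supp B
  obtain ⟨δ, hδ, hδ1, hδa, hδb⟩ : ∃ δ : ℝ, 0 < δ ∧ δ ≤ 1 ∧ δ ≤ δ16 ∧ δ ≤ δ17 :=
    ⟨min δ16 δ17, lt_min hδ16 hδ17, (min_le_left _ _).trans hδ16', min_le_left _ _, min_le_right _ _⟩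
  obtain ⟨R17, hR17, h17'⟩ := h17 δ hδ hδb
  obtain ⟨R₀, q1, q2, q3, q4⟩ : ∃ R₀ : ℝ, R16 ≤ R₀ ∧ R17 ≤ R₀ ∧ R18 ≤ R₀ ∧ Rv ≤ R₀ :=
    ⟨max (max R16 R17) (max R18 Rv), (le_max_left _ _).trans (le_max_left _ _),
      (le_max_right _ _).trans (le_max_left _ _), (le_max_left _ _).trans (le_max_right _ _),
      (le_max_right _ _).trans (le_max_right _ _)⟩
  have hR1 : 1 ≤ R₀ := hRv.trans q4
  obtain ⟨Ξ, hΞ, C₃, ρ16, h16'⟩ := h16 δ hδ hδa R₀ q1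
  have hΞ0 : 0 ≤ Ξ := zero_le_one.trans hΞ
  obtain ⟨ρ17, h17''⟩ := h17' R₀ Ξ C₃ q2 hΞ0
  obtain ⟨ρ18, h18'⟩ := h18 δ R₀ Ξ C₃ hδ hδ1 q3 hΞ0
  obtain ⟨ρE, hE⟩ := EL_scalar B δ R₀ Ξ hδ hδ1 hR1 hΞ0
  obtain ⟨ρ, ε, F, hρ, hw⟩ := exists_wall (max (max (max ρa ρ16) (max ρ17 ρ18)) (max ρE (max R₀ ρ₁)))
  have r1 : ρa ≤ ρ := ((le_max_left _ _).trans ((le_max_left _ _).trans (le_max_left _ _))).trans hρ
  have r2 : ρ16 ≤ ρ := ((le_max_right _ _).trans ((le_max_left _ _).trans (le_max_left _ _))).trans hρ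
  have r3 : ρ17 ≤ ρ := ((le_max_left _ _).trans ((le_max_right _ _).trans (le_max_left _ _))).trans hρ
  have r4 : ρ18 ≤ ρ := ((le_max_right _ _).trans ((le_max_right _ _).trans (le_max_left _ _))).trans hρ
  have r5 : ρE ≤ ρ := ((le_max_left _ _).trans (le_max_right _ _)).trans hρ
  have r6 : R₀ ≤ ρ := ((le_max_left _ _).trans ((le_max_right _ _).trans (le_max_right _ _))).trans hρ
  have r7 : ρ₁ ≤ ρ := ((le_max_right _ _).trans ((le_max_right _ _).trans (le_max_right _ _))).trans hρ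
  have hρ0 : 0 < ρ := by linarith
  have hρ1 : 1 ≤ ρ := by linarith
  obtain ⟨χ, hχ⟩ := hfam ρ ε F hw r1
  let K : Cfg B δ R₀ Ξ := ⟨ρ, ε, F, hw, χ, hχ⟩
  obtain ⟨U, c, ξ, hmin, hξ, hmax, hEL, hELc, e1, e2, e3, e4⟩ := h16' K r2
  have hsup := h17'' K r3 U hmin.1 c ξ hξ.le hEL e1 e2 e3 e4
  have hell := h18' K r4 U hmin.1 c ξ hξ hmax hEL hELc e3 e4 hsup
  refine ⟨ρ, ε, F, ξ, GG K U c ξ, hw, r7, isSob_GG K hmin.1 c ξ, ?_, ?_⟩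
  · intro j φ hφ
    rw [hE K r5 U hmin.1 c ξ hξ.le hEL j φ hφ]
    congr 1
    refine integral_congr_ae ?_
    filter_upwards [hsup] with x hx
    have hz : rhsj K U c ξ j x
        = (S.μ j : ℝ) * fderiv ℝ (pot B δ R₀ ρ x (SS F (x - ξ))) (GG K U c ξ x).1 (bv j)
          + (g0 B x) j := by
      unfold rhsj
      have : ∑ i ∈ modes B.S, ell K.ρ i ξ U *
          (if i.1 = j then om (‖x - ξ‖ - K.ρ) * trig i.2.1 i.2.2 (x - ξ) else 0) = 0 := by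
        refine Finset.sum_eq_zero fun i hi => ?_
        rw [hell i hi, zero_mul]
      rw [this, mul_zero, add_zero]
    rw [hz]
    by_cases hxR : ‖x‖ < R₀
    · rw [dpot_in B x hxR]
    · have hxR' : R₀ ≤ ‖x‖ := not_lt.1 hxR
      rw [p19_pot_out B hδ hρ0 x hxR' _ _ _ (hx hxR'), (hsupp x (q4.trans hxR')).1, zero_add]
  · filter_upwards [hsup] with x hx hxρ j
    have h1 := hx (r6.trans hxρ) j
    refine h1.trans ?_
    have h2 : ¬ ‖x‖ < ρ / 2 := by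
      rw [not_lt]
      linarith
    have h3 : 1 ≤ ‖x‖ / ρ := by
      rw [le_div_iff₀ hρ0]
      linarith
    have h4 : Real.posLog (‖x‖ / ρ) = Real.log (‖x‖ / ρ) :=
      Real.posLog_eq_log (by rw [abs_of_nonneg (by linarith)]; exact h3)
    show 1 / 2 * tau δ ρ x ≤ 1 + Real.log (‖x‖ / ρ)
    unfold tau
    rw [if_neg h2, h4]
    have h5 : 0 ≤ Real.log (‖x‖ / ρ) := Real.log_nonneg h3
    have h6 : (ρ ^ 6)⁻¹ ≤ 1 := inv_le_one_of_one_le₀ (one_le_pow₀ hρ1)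
    have h7 : 0 ≤ (ρ ^ 6)⁻¹ := by positivity
    nlinarith

end Pool.MP_ad5d82_an.Wl
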