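import Pool.Agent.Lib.MP_ad5d82_an.h24.PDefs
import Pool.Agent.Lib.MP_ad5d82_an.h24.R.R6
import Pool.Agent.Lib.MP_ad5d82_an.h24.F.F1
import Pool.Agent.Lib.MP_ad5d82_an.h24.F.F3
import Pool.Agent.Lib.MP_ad5d82_an.h24.F.F6
import Pool.Agent.Lib.MP_ad5d82_an.h24.F.F8
import Pool.Agent.Lib.MP_ad5d82_an.h24.P.P1
import Pool.Agent.Lib.MP_ad5d82_an.h24.P.P2
import Pool.Agent.Lib.MP_ad5d82_an.h24.P.P19

set_option autoImplicit false

namespace Pool.MP_ad5d82_an.Wl

open Real Set MeasureTheory Filter Topology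
open scoped ContDiff

variable {ι : Type} [Fintype ι] [DecidableEq ι]

/-! ### P20 classical solution -/
/-- `e^{v_b}` with the vortex factors. -/
noncomputable def ee {nv : ℕ} (p : Fin nv → ℂ) (cp : Fin nv → ι) (h : ι → ℂ → ℝ) (b : ι) (x : ℂ) : ℝ :=
  (∏ n, if cp n = b then ‖x - p n‖ ^ 2 else 1) * exp (h b x)

/-! lemmas on the Laplacian -/
private theorem p20_d {f : ℂ → ℝ} (hf : ContDiff ℝ ∞ f) (v : ℂ) :
    ContDiff ℝ ∞ (fun z => fderiv ℝ f z v) :=
  (hf.fderiv_right (m := ∞) (by simp)).clm_apply contDiff_const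

private theorem p20_lap_smooth {f : ℂ → ℝ} (hf : ContDiff ℝ ∞ f) : ContDiff ℝ ∞ (lapC f) :=
  (p20_d (p20_d hf 1) 1).add (p20_d (p20_d hf Complex.I) Complex.I)

private theorem p20_d_add {f g : ℂ → ℝ} (hf : ContDiff ℝ ∞ f) (hg : ContDiff ℝ ∞ g) (v z : ℂ) :
    fderiv ℝ (fun z => f z + g z) z v = fderiv ℝ f z v + fderiv ℝ g z v := by
  rw [fderiv_fun_add (hf.differentiable (by simp) z) (hg.differentiable (by simp) z)]
  rfl

private theorem p20_lap_add {f g : ℂ → ℝ} (hf : ContDiff ℝ ∞ f) (hg : ContDiff ℝ ∞ g) (z : ℂ) :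
    lapC (fun z => f z + g z) z = lapC f z + lapC g z := by
  unfold lapC
  have e : ∀ v : ℂ, (fun w => fderiv ℝ (fun z => f z + g z) w v)
      = fun w => fderiv ℝ f w v + fderiv ℝ g w v := fun v => by
    funext w
    exact p20_d_add hf hg v w
  rw [e 1, e Complex.I, p20_d_add (p20_d hf 1) (p20_d hg 1),
    p20_d_add (p20_d hf Complex.I) (p20_d hg Complex.I)]
  ring

private theorem p20_lap_mul {f : ℂ → ℝ} (hf : ContDiff ℝ ∞ f) (c : ℝ) (z : ℂ) :
    lapC (fun z => c * f z) z = c * lapC f z := by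
  have e0 : ∀ (g : ℂ → ℝ), ContDiff ℝ ∞ g → ∀ v w : ℂ,
      fderiv ℝ (fun z => c * g z) w v = c * fderiv ℝ g w v := by
    intro g hg v w
    rw [fderiv_const_mul (hg.differentiable (by simp) w)]
    rfl
  unfold lapC
  have e : ∀ v : ℂ, (fun w => fderiv ℝ (fun z => c * f z) w v)
      = fun w => c * fderiv ℝ f w v := fun v => by
    funext w
    exact e0 f hf v w
  rw [e 1, e Complex.I, e0 _ (p20_d hf 1), e0 _ (p20_d hf Complex.I)]
  ring

private theorem p20_lap_zero (z : ℂ) : lapC (fun _ => (0 : ℝ)) z = 0 := by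
  unfold lapC
  simp

private theorem p20_lap_sum {κ : Type} (s : Finset κ) (f : κ → ℂ → ℝ)
    (hf : ∀ i, ContDiff ℝ ∞ (f i)) (z : ℂ) :
    lapC (fun z => ∑ i ∈ s, f i z) z = ∑ i ∈ s, lapC (f i) z := by
  classical
  induction s using Finset.induction_on with
  | empty => simp [p20_lap_zero]
  | insert a s ha ih =>
    rw [Finset.sum_insert ha, ← ih]
    have e : (fun z => ∑ i ∈ insert a s, f i z) = fun z => f a z + ∑ i ∈ s, f i z := by
      funext w
      exact Finset.sum_insert ha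
    rw [e, p20_lap_add (hf a) (ContDiff.sum fun i _ => hf i)]

private theorem p20_lap_shift (f : ℂ → ℝ) (c z : ℂ) :
    lapC (fun w => f (w - c)) z = lapC f (z - c) := by
  unfold lapC
  have e : ∀ v : ℂ, (fun w => fderiv ℝ (fun w => f (w - c)) w v)
      = fun w => (fun w => fderiv ℝ f w v) (w - c) := fun v => by
    funext w
    rw [fderiv_comp_sub]
  have k : ∀ v : ℂ, fderiv ℝ (fun w => (fun w => fderiv ℝ f w v) (w - c)) z
      = fderiv ℝ (fun w => fderiv ℝ f w v) (z - c) := fun v =>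
    fderiv_comp_sub (f := fun w => fderiv ℝ f w v) c
  rw [e 1, e Complex.I, k 1, k Complex.I]

/-- the smooth nonlinearity. -/
private noncomputable def p20N (S : Sys ι) (E : ι → ℂ → ℝ) (s : ℂ → ℝ) (g : ℂ → Ev ι) (j : ι)
    (q : ℂ × Ev ι) : ℝ :=
  (S.μ j : ℝ) * (exp (2 * s q.1) * (∑ l, (S.μ l : ℝ) *
        (∑ a, S.m a * S.T a l * (E a q.1 * exp (lin S a q.2) - 1)) *
        (∑ a, S.m a * S.T a l * ((E a q.1 * exp (lin S a q.2)) * lin S a (bv j))))
      + (exp (2 * s q.1) - exp (s q.1)) *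
        ∑ a, S.m a * ((E a q.1 * exp (lin S a q.2) - 1) * lin S a (bv j)))
    + g q.1 j

omit [DecidableEq ι] in
private theorem p20_coord_smooth (j : ι) : ContDiff ℝ ∞ fun h : Ev ι => h j :=
  (EuclideanSpace.proj j : Ev ι →L[ℝ] ℝ).contDiff

private theorem p20_lin_smooth (S : Sys ι) (a : ι) : ContDiff ℝ ∞ (lin S a) :=
  ContDiff.sum fun j _ => contDiff_const.mul (p20_coord_smooth j)

private theorem p20_lin_add (S : Sys ι) (a : ι) (v w : Ev ι) :
    lin S a (v + w) = lin S a v + lin S a w := by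
  unfold lin
  rw [← Finset.sum_add_distrib]
  refine Finset.sum_congr rfl fun j _ => ?_
  rw [PiLp.add_apply]
  ring

private theorem p20N_smooth (S : Sys ι) {E : ι → ℂ → ℝ} (hE : ∀ a, ContDiff ℝ ∞ (E a))
    {s : ℂ → ℝ} (hs : ContDiff ℝ ∞ s) {g : ℂ → Ev ι} (hg : ContDiff ℝ ∞ g) (j : ι) :
    ContDiff ℝ ∞ (p20N S E s g j) := by
  have h1 : ∀ a, ContDiff ℝ ∞ fun q : ℂ × Ev ι => E a q.1 := fun a => (hE a).comp contDiff_fst
  have h2 : ContDiff ℝ ∞ fun q : ℂ × Ev ι => s q.1 := hs.comp contDiff_fst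
  have h3 : ContDiff ℝ ∞ fun q : ℂ × Ev ι => g q.1 j :=
    (p20_coord_smooth j).comp (hg.comp contDiff_fst)
  have h4 : ∀ a, ContDiff ℝ ∞ fun q : ℂ × Ev ι => exp (lin S a q.2) := fun a =>
    ((p20_lin_smooth S a).comp contDiff_snd).exp
  have h5 : ∀ a, ContDiff ℝ ∞ fun q : ℂ × Ev ι => E a q.1 * exp (lin S a q.2) := fun a =>
    (h1 a).mul (h4 a)
  have h6 : ContDiff ℝ ∞ fun q : ℂ × Ev ι => exp (2 * s q.1) := (contDiff_const.mul h2).exp
  have h7 : ContDiff ℝ ∞ fun q : ℂ × Ev ι => exp (s q.1) := h2.exp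
  have h8 : ∀ l, ContDiff ℝ ∞ fun q : ℂ × Ev ι =>
      ∑ a, S.m a * S.T a l * (E a q.1 * exp (lin S a q.2) - 1) := fun l =>
    ContDiff.sum fun a _ => contDiff_const.mul ((h5 a).sub contDiff_const)
  have h9 : ∀ l, ContDiff ℝ ∞ fun q : ℂ × Ev ι =>
      ∑ a, S.m a * S.T a l * ((E a q.1 * exp (lin S a q.2)) * lin S a (bv j)) := fun l =>
    ContDiff.sum fun a _ => contDiff_const.mul ((h5 a).mul contDiff_const)
  have h10 : ContDiff ℝ ∞ fun q : ℂ × Ev ι =>
      ∑ a, S.m a * ((E a q.1 * exp (lin S a q.2) - 1) * lin S a (bv j)) :=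
    ContDiff.sum fun a _ => contDiff_const.mul (((h5 a).sub contDiff_const).mul contDiff_const)
  have h11 : ContDiff ℝ ∞ fun q : ℂ × Ev ι => ∑ l, (S.μ l : ℝ) *
        (∑ a, S.m a * S.T a l * (E a q.1 * exp (lin S a q.2) - 1)) *
        (∑ a, S.m a * S.T a l * ((E a q.1 * exp (lin S a q.2)) * lin S a (bv j))) :=
    ContDiff.sum fun l _ => (contDiff_const.mul (h8 l)).mul (h9 l)
  exact (contDiff_const.mul ((h6.mul h11).add ((h6.sub h7).mul h10))).add h3

private theorem p20N_eq (S : Sys ι) {E : ι → ℂ → ℝ} {s : ℂ → ℝ} {g v : ℂ → Ev ι} (j : ι) (z : ℂ)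
    (hz : ∀ a, E a z = exp (lin S a (v z))) (w : Ev ι) :
    p20N S E s g j (z, w) = (S.μ j : ℝ) * fderiv ℝ (WW S (s z)) (v z + w) (bv j) + g z j := by
  rw [dWW_eq]
  have e : ∀ a, exp (lin S a (v z + w)) = E a z * exp (lin S a w) := fun a => by
    rw [p20_lin_add, Real.exp_add, hz a]
  simp only [e]
  rfl

/-- a finite set of points has dense complement. -/
private theorem p20_dense {nv : ℕ} (p : Fin nv → ℂ) : Dense ({z : ℂ | ∀ n, z ≠ p n}) := by
  have h : ({z : ℂ | ∀ n, z ≠ p n}) = (Set.range p)ᶜ := by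
    ext z
    simp only [Set.mem_ofPred_eq, Set.mem_compl_iff, Set.mem_range, not_exists]
    exact forall_congr' fun n => ⟨fun h h' => h h'.symm, fun h h' => h h'.symm⟩
  rw [h]
  exact (Set.finite_range p).countable.dense_compl ℝ

private theorem p20_ae {nv : ℕ} (p : Fin nv → ℂ) : ∀ᵐ z : ℂ, ∀ n, z ≠ p n := by
  rw [ae_all_iff]
  intro n
  rw [ae_iff]
  simp

/-- comparison at infinity. -/
private theorem p20_tendsto {f : ℂ → ℝ} {ρ K A : ℝ} (hρ : 1 ≤ ρ) (hK : 0 ≤ K) (hA : 2 + 2 * K ≤ A)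
    (ξ : ℂ) (h0 : ∀ x, 0 ≤ f x)
    (h : ∀ x : ℂ, ρ < ‖x‖ → ρ ≤ ‖x - ξ‖ →
      f x ≤ exp (K * (1 + Real.log (‖x‖ / ρ)) - A * Real.log (‖x - ξ‖ / ρ))) :
    Tendsto f (cocompact ℂ) (𝓝 0) := by
  have hρ0 : 0 < ρ := by linarith
  have hL : Tendsto (fun x : ℂ => Real.log (‖x‖ / ρ)) (cocompact ℂ) atTop :=
    Real.tendsto_log_atTop.comp ((tendsto_norm_cocompact_atTop (E := ℂ)).atTop_div_const hρ0)
  have hG : Tendsto (fun x : ℂ => exp (-(Real.log (‖x‖ / ρ)) + (K + (2 + 2 * K) * Real.log 2)))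
      (cocompact ℂ) (𝓝 0) := by
    refine Real.tendsto_exp_atBot.comp ?_
    exact tendsto_atBot_add_const_right _ _ (tendsto_neg_atTop_atBot.comp hL)
  refine tendsto_of_tendsto_of_tendsto_of_le_of_le' tendsto_const_nhds hG
    (Eventually.of_forall h0) ?_
  have hbig : ∀ᶠ x : ℂ in cocompact ℂ, 2 * ‖ξ‖ + 2 * ρ ≤ ‖x‖ :=
    (tendsto_norm_cocompact_atTop (E := ℂ)).eventually_ge_atTop _
  filter_upwards [hbig] with x hx
  have hξ := norm_nonneg ξ
  have h1 : ‖x‖ / 2 ≤ ‖x - ξ‖ := by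
    have := norm_sub_norm_le x ξ
    linarith
  have h2 : ρ ≤ ‖x - ξ‖ := by linarith
  have h3 : ρ < ‖x‖ := by linarith
  refine (h x h3 h2).trans (Real.exp_le_exp.2 ?_)
  have hx0 : 0 < ‖x‖ := by linarith
  have l1 : Real.log (‖x‖ / ρ) - Real.log 2 ≤ Real.log (‖x - ξ‖ / ρ) := by
    rw [← Real.log_div (by positivity) (by norm_num)]
    refine Real.log_le_log (by positivity) ?_
    rw [div_div, mul_comm ρ 2, ← div_div]
    exact div_le_div_of_nonneg_right h1 hρ0.le
  have l2 : 0 ≤ Real.log (‖x - ξ‖ / ρ) := by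
    refine Real.log_nonneg ?_
    rw [le_div_iff₀ hρ0]
    linarith
  have l3 : 0 ≤ Real.log (‖x‖ / ρ) := by
    refine Real.log_nonneg ?_
    rw [le_div_iff₀ hρ0]
    linarith
  have l4 : (2 + 2 * K) * Real.log (‖x - ξ‖ / ρ) ≤ A * Real.log (‖x - ξ‖ / ρ) :=
    mul_le_mul_of_nonneg_right hA l2
  have l5 : (2 + 2 * K) * (Real.log (‖x‖ / ρ) - Real.log 2)
      ≤ (2 + 2 * K) * Real.log (‖x - ξ‖ / ρ) :=
    mul_le_mul_of_nonneg_left l1 (by linarith)
  nlinarith [mul_nonneg hK l3]

theorem classical (S : Sys ι) (nv : ℕ) (hnv : 0 < nv) (p : Fin nv → ℂ) (cp : Fin nv → ι) :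
    ∃ h : ι → ℂ → ℝ, (∀ a, ContDiff ℝ ∞ (h a)) ∧
      (∀ a x, lapC (h a) x = ∑ b, Amat S a b * (ee p cp h b x * (∑ c, Amat S b c * ee p cp h c x - 1))) ∧
      (∀ a, Tendsto (ee p cp h a) (cocompact ℂ) (𝓝 0)) := by
  set KK : ℝ := ∑ a, ∑ j, |S.T a j| with hKK
  have hKK0 : 0 ≤ KK := Finset.sum_nonneg fun a _ => Finset.sum_nonneg fun j _ => abs_nonneg _
  obtain ⟨c₀, hc₀, C₀, hC₀, hB⟩ := weak_solution S nv hnv p cp (max 1 ((2 + 2 * KK) / 0.45))
  set B : Base ι := ⟨S, nv, hnv, p, cp, c₀, hc₀, C₀, hC₀⟩ with hBdef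
  obtain ⟨ρ, ε, F, ξ, G, hw, hρ, hG, hweak, hdec⟩ := hB
  have hρ1 : 1 ≤ ρ := (le_max_left _ _).trans hρ
  have hρ0 : 0 < ρ := by linarith
  have hρ2 : 2 + 2 * KK ≤ 0.45 * ρ := by
    have := (le_max_right _ _).trans hρ
    rw [div_le_iff₀ (by norm_num)] at this
    linarith
  -- vortex factors
  have hEex : ∀ a, ∃ E : ℂ → ℝ, ContDiff ℝ ∞ E ∧ (∀ x, 0 ≤ E x ∧ E x ≤ 1) ∧
      (∀ x, (∀ n, cp n = a → x ≠ p n) → E x = exp (lin S a (v0 B x))) ∧
      (∀ n, cp n = a → E (p n) = 0) := fun a => exp_v0 B a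
  choose E hEs hE01 hEeq hE0 using hEex
  set s : ℂ → ℝ := fun x => SS F (x - ξ) with hs
  have hss : ContDiff ℝ ∞ s := (SS_smooth hw).comp (contDiff_id.sub contDiff_const)
  have hgs : ContDiff ℝ ∞ (g0 B) := g0_smooth B
  have hNs := fun j => p20N_smooth S hEs hss hgs j
  have hNeq : ∀ (j : ι) (z : ℂ), (∀ n, z ≠ p n) → ∀ w : Ev ι, p20N S E s (g0 B) j (z, w)
      = (S.μ j : ℝ) * fderiv ℝ (WW S (s z)) (v0 B z + w) (bv j) + (g0 B z) j := by
    intro j z hz w
    exact p20N_eq S (v := v0 B) j z (fun a => hEeq a z fun n _ => hz n) w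
  -- growth
  obtain ⟨C, hC, hgrow⟩ := dWW_growth S
  obtain ⟨Cg, hCg⟩ := g0_bound B
  have hCg0 : 0 ≤ Cg := (norm_nonneg _).trans (hCg 0)
  have hgr : ∀ (j : ι) (w : Ev ι) (z : ℂ), |p20N S E s (g0 B) j (z, w)|
      ≤ ((∑ l, (S.μ l : ℝ)) * C * ‖(bv j : Ev ι)‖ + Cg) * exp (C * ‖w‖) := by
    intro j w
    have hcl : IsClosed {z : ℂ | |p20N S E s (g0 B) j (z, w)|
        ≤ ((∑ l, (S.μ l : ℝ)) * C * ‖(bv j : Ev ι)‖ + Cg) * exp (C * ‖w‖)} := by
      refine isClosed_le ?_ continuous_const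
      exact ((hNs j).continuous.comp (continuous_id.prodMk continuous_const)).abs
    have hsub : {z : ℂ | ∀ n, z ≠ p n} ⊆ {z : ℂ | |p20N S E s (g0 B) j (z, w)|
        ≤ ((∑ l, (S.μ l : ℝ)) * C * ‖(bv j : Ev ι)‖ + Cg) * exp (C * ‖w‖)} := by
      intro z hz
      rw [Set.mem_ofPred_eq, hNeq j z hz w]
      have h1 := hgrow (s z) (v0 B z) w (SS_neg hw _).le (fun a => v0_lin_nonpos B a z)
      have h2 : |fderiv ℝ (WW S (s z)) (v0 B z + w) (bv j)| ≤ C * exp (C * ‖w‖) * ‖(bv j : Ev ι)‖ := by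
        have := (fderiv ℝ (WW S (s z)) (v0 B z + w)).le_opNorm (bv j)
        rw [Real.norm_eq_abs] at this
        exact this.trans (mul_le_mul_of_nonneg_right h1 (norm_nonneg _))
      have h3 : |(g0 B z) j| ≤ Cg := by
        have := PiLp.norm_apply_le (g0 B z) j
        rw [Real.norm_eq_abs] at this
        exact this.trans (hCg z)
      have h4 : (S.μ j : ℝ) ≤ ∑ l, (S.μ l : ℝ) :=
        Finset.single_le_sum (f := fun l => (S.μ l : ℝ)) (fun l _ => Nat.cast_nonneg _)
          (Finset.mem_univ j)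
      have h5 : (0 : ℝ) ≤ (S.μ j : ℝ) := Nat.cast_nonneg _
      have h6 : 1 ≤ exp (C * ‖w‖) := Real.one_le_exp (by positivity)
      calc |(S.μ j : ℝ) * fderiv ℝ (WW S (s z)) (v0 B z + w) (bv j) + (g0 B z) j|
          ≤ |(S.μ j : ℝ) * fderiv ℝ (WW S (s z)) (v0 B z + w) (bv j)| + |(g0 B z) j| := abs_add_le _ _
        _ ≤ (∑ l, (S.μ l : ℝ)) * (C * exp (C * ‖w‖) * ‖(bv j : Ev ι)‖) + Cg * exp (C * ‖w‖) := by
          rw [abs_mul, abs_of_nonneg h5]
          refine add_le_add (mul_le_mul h4 h2 (abs_nonneg _) (h5.trans h4)) ?_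
          nlinarith
        _ = ((∑ l, (S.μ l : ℝ)) * C * ‖(bv j : Ev ι)‖ + Cg) * exp (C * ‖w‖) := by ring
    have hd := (p20_dense p).closure_eq
    intro z
    have : z ∈ closure {z : ℂ | ∀ n, z ≠ p n} := by rw [hd]; trivial
    exact hcl.closure_subset_iff.2 hsub this
  -- regularity
  obtain ⟨u, hu, hGu, hlap⟩ := regularity G hG (fun j => p20N S E s (g0 B) j) hNs (by
    intro R
    refine ⟨∑ j, ((∑ l, (S.μ l : ℝ)) * C * ‖(bv j : Ev ι)‖ + Cg), C, fun z _ j v => ?_⟩
    refine (hgr j v z).trans (mul_le_mul_of_nonneg_right ?_ (Real.exp_pos _).le)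
    refine Finset.single_le_sum (f := fun j => ((∑ l, (S.μ l : ℝ)) * C * ‖(bv j : Ev ι)‖ + Cg))
      (fun j _ => ?_) (Finset.mem_univ j)
    have : (0 : ℝ) ≤ ∑ l, (S.μ l : ℝ) := Finset.sum_nonneg fun l _ => Nat.cast_nonneg _
    positivity) (by
    intro j φ hφ
    rw [hweak j φ hφ]
    congr 1
    refine integral_congr_ae ?_
    filter_upwards [p20_ae p] with z hz
    rw [hNeq j z hz])
  have hucoord : ∀ j, ContDiff ℝ ∞ fun z => u z j := fun j => (p20_coord_smooth j).comp hu
  -- the functions `h a`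
  set h : ι → ℂ → ℝ := fun a x => (∑ j, S.T a j * u x j + s x)
    + ∑ n, (if cp n = a then lg1 (‖x - p n‖ ^ 2) else 0) with hh
  have hlg1 : ContDiff ℝ ∞ fun w : ℂ => lg1 (‖w‖ ^ 2) := lg1_smooth.comp (contDiff_norm_sq ℝ)
  have hterm : ∀ (a : ι) (n : Fin nv), ContDiff ℝ ∞
      (fun x : ℂ => (if cp n = a then lg1 (‖x - p n‖ ^ 2) else 0)) := by
    intro a n
    by_cases hc : cp n = a
    · simp only [if_pos hc]
      exact hlg1.comp (contDiff_id.sub contDiff_const)
    · simp only [if_neg hc]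
      exact contDiff_const
  have hsum1 : ∀ a, ContDiff ℝ ∞ fun x => ∑ j, S.T a j * u x j := fun a =>
    ContDiff.sum fun j _ => contDiff_const.mul (hucoord j)
  have hsum2 : ∀ a, ContDiff ℝ ∞ fun x : ℂ =>
      ∑ n, (if cp n = a then lg1 (‖x - p n‖ ^ 2) else 0) := fun a =>
    ContDiff.sum fun n _ => hterm a n
  have hsm : ∀ a, ContDiff ℝ ∞ (h a) := fun a => ((hsum1 a).add hss).add (hsum2 a)
  -- the exponentials
  have hee : ∀ a x, ee p cp h a x = E a x * exp (lin S a (u x) + s x) := by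
    intro a x
    unfold ee
    by_cases hx : ∀ n, cp n = a → x ≠ p n
    · have hv0 : lin S a (v0 B x) = ∑ n, if B.cp n = a then lg (‖x - B.p n‖ ^ 2) else 0 :=
        v0_lin B a x
      rw [hEeq a x hx, hv0, ← Real.exp_add]
      have e1 : (∏ n, if cp n = a then ‖x - p n‖ ^ 2 else 1)
          = exp (∑ n, if cp n = a then Real.log (‖x - p n‖ ^ 2) else 0) := by
        rw [Real.exp_sum]
        refine Finset.prod_congr rfl fun n _ => ?_
        by_cases hc : cp n = a
        · rw [if_pos hc, if_pos hc, Real.exp_log]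
          have : 0 < ‖x - p n‖ := norm_pos_iff.2 (sub_ne_zero.2 (hx n hc))
          positivity
        · rw [if_neg hc, if_neg hc, Real.exp_zero]
      rw [e1, ← Real.exp_add]
      congr 1
      have e2 : (∑ n, if B.cp n = a then lg (‖x - B.p n‖ ^ 2) else 0)
          = (∑ n, if cp n = a then Real.log (‖x - p n‖ ^ 2) else 0)
            + ∑ n, (if cp n = a then lg1 (‖x - p n‖ ^ 2) else 0) := by
        rw [← Finset.sum_add_distrib]
        refine Finset.sum_congr rfl fun n _ => ?_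
        show (if cp n = a then lg (‖x - p n‖ ^ 2) else 0) = _
        by_cases hc : cp n = a
        · rw [if_pos hc, if_pos hc, if_pos hc, lg_add]
        · rw [if_neg hc, if_neg hc, if_neg hc, add_zero]
      rw [e2]
      simp only [hh, lin]
      ring
    · push Not at hx
      obtain ⟨n, hc, hxn⟩ := hx
      have e1 : (∏ n, if cp n = a then ‖x - p n‖ ^ 2 else 1) = 0 := by
        refine Finset.prod_eq_zero (Finset.mem_univ n) ?_
        rw [if_pos hc, hxn]
        simp
      rw [e1, zero_mul, hxn, hE0 a n hc, zero_mul]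
  have hucont : Continuous u := hu.continuous
  have heec : ∀ a, Continuous (ee p cp h a) := by
    intro a
    have : (ee p cp h a) = fun x => E a x * exp (lin S a (u x) + s x) := by
      funext x
      exact hee a x
    rw [this]
    exact (hEs a).continuous.mul
      ((((p20_lin_smooth S a).continuous.comp hucont).add hss.continuous).rexp)
  refine ⟨h, hsm, ?_, ?_⟩
  · -- the equation
    intro a
    have hL : Continuous (lapC (h a)) := (p20_lap_smooth (hsm a)).continuous
    have hR : Continuous fun x => ∑ b, Amat S a b *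
        (ee p cp h b x * (∑ c, Amat S b c * ee p cp h c x - 1)) := by
      refine continuous_finsetSum _ fun b _ => continuous_const.mul ((heec b).mul ?_)
      exact (continuous_finsetSum _ fun c _ => continuous_const.mul (heec c)).sub continuous_const
    have hEq : Set.EqOn (lapC (h a)) (fun x => ∑ b, Amat S a b *
        (ee p cp h b x * (∑ c, Amat S b c * ee p cp h c x - 1))) {z : ℂ | ∀ n, z ≠ p n} := by
      intro x hx
      have hx' : ∀ n, x ≠ p n := hx
      have l1 : lapC (h a) x = (∑ j, S.T a j * p20N S E s (g0 B) j (x, u x)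
          + exp (s x) * (exp (s x) - 1))
          + ∑ n, (if cp n = a then -gam (x - p n) else 0) := by
        have e1 : lapC (h a) x = lapC (fun x => ∑ j, S.T a j * u x j + s x) x
            + lapC (fun x : ℂ => ∑ n, (if cp n = a then lg1 (‖x - p n‖ ^ 2) else 0)) x :=
          p20_lap_add ((hsum1 a).add hss) (hsum2 a) x
        have e2 : lapC (fun x => ∑ j, S.T a j * u x j + s x) x
            = lapC (fun x => ∑ j, S.T a j * u x j) x + lapC s x :=
          p20_lap_add (hsum1 a) hss x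
        have e3 : lapC (fun x => ∑ j, S.T a j * u x j) x
            = ∑ j, S.T a j * p20N S E s (g0 B) j (x, u x) := by
          rw [p20_lap_sum Finset.univ (fun j x => S.T a j * u x j)
            (fun j => contDiff_const.mul (hucoord j))]
          refine Finset.sum_congr rfl fun j _ => ?_
          rw [p20_lap_mul (hucoord j), hlap j x]
        have e4 : lapC s x = exp (s x) * (exp (s x) - 1) := by
          rw [hs, p20_lap_shift, SS_lap hw]
        have e5 : lapC (fun x : ℂ => ∑ n, (if cp n = a then lg1 (‖x - p n‖ ^ 2) else 0)) x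
            = ∑ n, (if cp n = a then -gam (x - p n) else 0) := by
          rw [p20_lap_sum Finset.univ (fun n x => if cp n = a then lg1 (‖x - p n‖ ^ 2) else 0)
            (hterm a)]
          refine Finset.sum_congr rfl fun n _ => ?_
          by_cases hc : cp n = a
          · simp only [if_pos hc]
            rw [p20_lap_shift (fun w => lg1 (‖w‖ ^ 2)) (p n) x]
            unfold gam
            ring
          · simp only [if_neg hc]
            exact p20_lap_zero x
        rw [e1, e2, e3, e4, e5]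
      have l2 : ∑ j, S.T a j * p20N S E s (g0 B) j (x, u x)
          = ∑ j, S.T a j * ((S.μ j : ℝ) * fderiv ℝ (WW S (s x)) (v0 B x + u x) (bv j))
            + ∑ n, (if cp n = a then gam (x - p n) else 0) := by
        have e1 : ∑ j, S.T a j * p20N S E s (g0 B) j (x, u x)
            = ∑ j, S.T a j * ((S.μ j : ℝ) * fderiv ℝ (WW S (s x)) (v0 B x + u x) (bv j))
              + ∑ j, S.T a j * (g0 B x) j := by
          rw [← Finset.sum_add_distrib]
          refine Finset.sum_congr rfl fun j _ => ?_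
          rw [hNeq j x hx' (u x)]
          ring
        rw [e1]
        congr 1
        have e2 : ∀ j, S.T a j * (g0 B x) j
            = ∑ n, S.T a j * (S.m (cp n) * S.T (cp n) j * gam (x - p n)) := by
          intro j
          rw [← Finset.mul_sum]
          rfl
        simp only [e2]
        rw [Finset.sum_comm]
        refine Finset.sum_congr rfl fun n _ => ?_
        have e3 : ∑ j, S.T a j * (S.m (cp n) * S.T (cp n) j * gam (x - p n))
            = S.m (cp n) * gam (x - p n) * ∑ j, S.T a j * S.T (cp n) j := by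
          rw [Finset.mul_sum]
          refine Finset.sum_congr rfl fun j _ => ?_
          ring
        rw [e3, lin_complete]
        by_cases hc : cp n = a
        · rw [if_pos hc, if_pos hc.symm, hc]
          have := (S.m_pos a).ne'
          field_simp
        · rw [if_neg hc, if_neg (fun h => hc h.symm), mul_zero]
      have l3 := DWW_orig S (s x) (v0 B x + u x) a
      have l4 : ∀ b, exp (s x + lin S b (v0 B x + u x)) = ee p cp h b x := by
        intro b
        rw [hee b x, hEeq b x fun n _ => hx' n, p20_lin_add, ← Real.exp_add]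
        congr 1
        ring
      simp only [l4] at l3
      show lapC (h a) x = ∑ b, Amat S a b *
        (ee p cp h b x * (∑ c, Amat S b c * ee p cp h c x - 1))
      rw [l1, l2, ← l3]
      have l5 : ∑ n, (if cp n = a then -gam (x - p n) else 0)
          = -∑ n, (if cp n = a then gam (x - p n) else 0) := by
        rw [← Finset.sum_neg_distrib]
        refine Finset.sum_congr rfl fun n _ => ?_
        by_cases hc : cp n = a
        · rw [if_pos hc, if_pos hc]
        · rw [if_neg hc, if_neg hc, neg_zero]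
      rw [l5]
      ring
    intro x
    exact congrFun (Continuous.ext_on (p20_dense p) hL hR hEq) x
  · -- decay
    intro a
    have hdecu : ∀ x : ℂ, ρ < ‖x‖ → ∀ j, |u x j| ≤ 1 + Real.log (‖x‖ / ρ) := by
      intro x hx j
      by_contra hcon
      rw [not_le] at hcon
      have hop : IsOpen {y : ℂ | ρ < ‖y‖} := isOpen_lt continuous_const continuous_norm
      have hcu : ContinuousAt (fun y => |u y j|) x := (hucoord j).continuous.abs.continuousAt
      have hcl : ContinuousAt (fun y : ℂ => 1 + Real.log (‖y‖ / ρ)) x := by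
        have hne : ‖x‖ / ρ ≠ 0 := by
          have : 0 < ‖x‖ := by linarith
          positivity
        exact continuousAt_const.add
          (ContinuousAt.log (continuous_norm.continuousAt.div_const ρ) hne)
      have hev : ∀ᶠ y in 𝓝 x, (1 + Real.log (‖y‖ / ρ) < |u y j|) ∧ ρ < ‖y‖ :=
        (hcl.eventually_lt hcu hcon).and (hop.mem_nhds hx)
      obtain ⟨V, hV, hVo, hxV⟩ := mem_nhds_iff.1 hev
      have hpos : 0 < volume V := hVo.measure_pos volume ⟨x, hxV⟩
      have hnull : volume V = 0 := by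
        have hae : ∀ᵐ y : ℂ, y ∉ V := by
          filter_upwards [hdec, hGu] with y h1 h2 hyV
          have h3 := hV hyV
          have h4 := h1 h3.2.le j
          rw [h2] at h4
          exact absurd h3.1 (not_lt.2 h4)
        rw [ae_iff] at hae
        simpa using hae
      exact absurd hnull hpos.ne'
    refine p20_tendsto hρ1 hKK0 hρ2 ξ (fun x => ?_) (fun x hx1 hx2 => ?_)
    · rw [hee a x]
      exact mul_nonneg (hE01 a x).1 (Real.exp_pos _).le
    · rw [hee a x]
      have h1 := SS_tendsto hw (x - ξ) hx2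
      have hL0 : 0 ≤ Real.log (‖x‖ / ρ) := by
        refine Real.log_nonneg ?_
        rw [le_div_iff₀ hρ0]
        linarith
      have h2 : lin S a (u x) ≤ KK * (1 + Real.log (‖x‖ / ρ)) := by
        have h3 : lin S a (u x) ≤ ∑ j, |S.T a j| * (1 + Real.log (‖x‖ / ρ)) := by
          unfold lin
          refine Finset.sum_le_sum fun j _ => ?_
          refine (le_abs_self _).trans ?_
          rw [abs_mul]
          exact mul_le_mul_of_nonneg_left (hdecu x hx1 j) (abs_nonneg _)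
        rw [← Finset.sum_mul] at h3
        refine h3.trans (mul_le_mul_of_nonneg_right ?_ (by linarith))
        exact Finset.single_le_sum (f := fun a => ∑ j, |S.T a j|)
          (fun a _ => Finset.sum_nonneg fun j _ => abs_nonneg _) (Finset.mem_univ a)
      calc E a x * exp (lin S a (u x) + s x)
          ≤ 1 * exp (lin S a (u x) + s x) :=
            mul_le_mul_of_nonneg_right (hE01 a x).2 (Real.exp_pos _).le
        _ = exp (lin S a (u x) + s x) := one_mul _
        _ ≤ exp (KK * (1 + Real.log (‖x‖ / ρ)) - 0.45 * ρ * Real.log (‖x - ξ‖ / ρ)) := by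
          refine Real.exp_le_exp.2 ?_
          have h4 : s x ≤ -(0.45 * ρ * Real.log (‖x - ξ‖ / ρ)) := h1
          linarith

end Pool.MP_ad5d82_an.Wl
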